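import Pool.Agent.MP_c51823_gt.QB.LimDef

/-!
# [QB-A0] Tests at different levels
-/

set_option autoImplicit false
open Topology

namespace Pool.QB

variable {h : HT} {u : h.H 0 (absP S4)} (L : ℕ → Level h u)
  (sd : ∀ i, StepData i (L (i + 1)) (L i))

include sd in
/-- [QB-A0a] -/
theorem wn_comp (i j : ℕ) (hj : i + 1 ≤ j) : (L j).wn i = (L (i + 1)).wn i := by
  induction j, hj using Nat.le_induction with
  | base => rfl
  | succ j hj ih => rw [(sd j).wn_eq i (by omega), ih]

theorem th_comp (i j : ℕ) (hj : i + 1 ≤ j) (w : ℕ) (x : Lim L sd) :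
    (L j).th i w (Lim.p j x) = (L (i + 1)).th i w (Lim.p (i + 1) x) := by
  induction j, hj using Nat.le_induction with
  | base => rfl
  | succ j hj ih =>
    rw [(sd j).th_eq i (by omega), ← ih]
    change (L j).th i w ((sd j).π (x.1 (j + 1))) = (L j).th i w (x.1 j)
    rw [x.2 j]

/-- [QB-A0b] -/
theorem th_close (i j : ℕ) (hij : i < j) (x y : Lim L sd)
    (hxy : (x, y) ∈ (Lim.U j : Set (Lim L sd × Lim L sd))) :
    ∑ w ∈ Finset.range ((L (i + 1)).wn i),
      |(L (i + 1)).th i w (Lim.p (i + 1) x) - (L (i + 1)).th i w (Lim.p (i + 1) y)| ≤ om j := by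
  obtain ⟨n, rfl⟩ : ∃ n, j = n + 1 := ⟨j - 1, by omega⟩
  rcases hxy with hxy | ⟨v, hx, hy⟩
  · omega
  · have h1 := (sd n).fine (Lim.p (n + 1) x) v hx i (by omega)
    have h2 := (sd n).fine (Lim.p (n + 1) y) v hy i (by omega)
    rw [← wn_comp L sd i (n + 1) (by omega)]
    calc ∑ w ∈ Finset.range ((L (n + 1)).wn i),
        |(L (i + 1)).th i w (Lim.p (i + 1) x) - (L (i + 1)).th i w (Lim.p (i + 1) y)|
        = ∑ w ∈ Finset.range ((L (n + 1)).wn i),
        |(L (n + 1)).th i w (Lim.p (n + 1) x) - (L (n + 1)).th i w (Lim.p (n + 1) y)| := by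
          refine Finset.sum_congr rfl fun w _ => ?_
          rw [th_comp L sd i (n + 1) (by omega), th_comp L sd i (n + 1) (by omega)]
      _ ≤ ∑ w ∈ Finset.range ((L (n + 1)).wn i),
        (|(L (n + 1)).th i w (Lim.p (n + 1) x) - (L (n + 1)).th i w ((L (n + 1)).pt v)| +
          |(L (n + 1)).th i w (Lim.p (n + 1) y) - (L (n + 1)).th i w ((L (n + 1)).pt v)|) := by
          refine Finset.sum_le_sum fun w _ => ?_
          rw [abs_sub_comm ((L (n + 1)).th i w (Lim.p (n + 1) y))]
          exact abs_sub_le _ _ _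
      _ ≤ om (n + 1) / 2 + om (n + 1) / 2 := by
          rw [Finset.sum_add_distrib]
          exact add_le_add h1 h2
      _ = om (n + 1) := by ring


include sd in
/-- [QB-A0c] -/
theorem th_nonneg_all (k j : ℕ) (hj : k + 1 ≤ j) (w : ℕ) (z : (L j).G) : 0 ≤ (L j).th k w z := by
  induction j, hj using Nat.le_induction with
  | base => exact (sd k).th_nonneg w z
  | succ j hj ih =>
    rw [(sd j).th_eq k (by omega)]
    exact ih ((sd j).π z)

include sd in
theorem th_sum_all (k j : ℕ) (hj : k + 1 ≤ j) (z : (L j).G) :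
    ∑ w ∈ Finset.range ((L j).wn k), (L j).th k w z = 1 := by
  induction j, hj using Nat.le_induction with
  | base => exact (sd k).th_sum z
  | succ j hj ih =>
    rw [(sd j).wn_eq k (by omega), ← ih ((sd j).π z)]
    refine Finset.sum_congr rfl fun w _ => ?_
    rw [(sd j).th_eq k (by omega)]
    rfl

end Pool.QB
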