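import Pool.Agent.MP_c51823_gt.QB.Core

/-!
# [QB-A1] Soft threshold
-/

set_option autoImplicit false
open Topology

namespace Pool.QB

/-- soft threshold -/
noncomputable def soft (τ a : ℝ) : ℝ := max (a - τ) 0 - max (-a - τ) 0

theorem soft_zero_of_abs_le {τ a : ℝ} (h : |a| ≤ τ) : soft τ a = 0 := by
  have := abs_le.1 h
  unfold soft
  rw [max_eq_right (by linarith), max_eq_right (by linarith), sub_self]

theorem abs_soft_sub_le {τ : ℝ} (hτ : 0 ≤ τ) (a : ℝ) : |soft τ a - a| ≤ τ ∧ |soft τ a - a| ≤ |a| := by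
  unfold soft
  rcases le_total a τ with h1 | h1 <;> rcases le_total (-a) τ with h2 | h2
  · rw [max_eq_right (by linarith), max_eq_right (by linarith)]
    have : |(0 : ℝ) - 0 - a| = |a| := by rw [sub_self, zero_sub, abs_neg]
    rw [this]
    exact ⟨abs_le.2 ⟨by linarith, h1⟩, le_rfl⟩
  · rw [max_eq_right (by linarith), max_eq_left (by linarith)]
    have h3 : 0 - (-a - τ) - a = τ := by ring
    rw [h3, abs_of_nonneg hτ]
    exact ⟨le_rfl, by rw [← abs_neg]; exact h2.trans (le_abs_self _)⟩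
  · rw [max_eq_left (by linarith), max_eq_right (by linarith)]
    have h3 : a - τ - 0 - a = -τ := by ring
    rw [h3, abs_neg, abs_of_nonneg hτ]
    exact ⟨le_rfl, h1.trans (le_abs_self _)⟩
  · have h0 : τ = 0 := le_antisymm (by linarith) hτ
    have h4 : a = 0 := by subst h0; linarith
    subst h0; subst h4
    simp

/-- [QB-A1] -/
theorem continuous_soft (τ : ℝ) : Continuous (soft τ) := by
  unfold soft
  fun_prop

theorem abs_soft_le {τ : ℝ} (hτ : 0 ≤ τ) (a : ℝ) : |soft τ a| ≤ |a| := by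
  unfold soft
  rcases le_total a τ with h1 | h1 <;> rcases le_total (-a) τ with h2 | h2
  · rw [max_eq_right (by linarith), max_eq_right (by linarith)]
    simp
  · rw [max_eq_right (by linarith), max_eq_left (by linarith)]
    have h3 : (0 : ℝ) - (-a - τ) = -(-a - τ) := by ring
    rw [h3, abs_neg, abs_of_nonneg (by linarith), ← abs_neg a]
    exact (by linarith : -a - τ ≤ -a).trans (le_abs_self _)
  · rw [max_eq_left (by linarith), max_eq_right (by linarith)]
    rw [sub_zero, abs_of_nonneg (by linarith)]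
    exact (by linarith : a - τ ≤ a).trans (le_abs_self _)
  · have h0 : τ = 0 := le_antisymm (by linarith) hτ
    have h4 : a = 0 := by subst h0; linarith
    subst h0; subst h4
    simp

theorem soft_count (V : Finset ℕ) (ν g : ℕ → ℝ) (M : ℕ)
    (hM : (V.filter fun a => g a ≠ 0).card ≤ M) {E τ : ℝ} (hτ : 0 < τ)
    (hE : ∑ a ∈ V, |ν a - g a| ≤ E) :
    ((V.filter fun a => soft τ (ν a) ≠ 0).card : ℝ) ≤ M + E / τ := by
  classical
  let B := V.filter fun a => g a = 0 ∧ τ ≤ |ν a|
  have h1 : (V.filter fun a => soft τ (ν a) ≠ 0) ⊆ (V.filter fun a => g a ≠ 0) ∪ B := by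
    intro a ha
    rw [Finset.mem_filter] at ha
    rw [Finset.mem_union, Finset.mem_filter, Finset.mem_filter]
    by_cases hg : g a = 0
    · right
      refine ⟨ha.1, hg, ?_⟩
      by_contra hlt
      push Not at hlt
      exact ha.2 (soft_zero_of_abs_le hlt.le)
    · exact Or.inl ⟨ha.1, hg⟩
  have h2 : (B.card : ℝ) * τ ≤ E := by
    calc (B.card : ℝ) * τ = ∑ a ∈ B, τ := by rw [Finset.sum_const, nsmul_eq_mul]
      _ ≤ ∑ a ∈ B, |ν a - g a| := by
        refine Finset.sum_le_sum fun a ha => ?_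
        rw [Finset.mem_filter] at ha
        rw [ha.2.1, sub_zero]
        exact ha.2.2
      _ ≤ ∑ a ∈ V, |ν a - g a| :=
        Finset.sum_le_sum_of_subset_of_nonneg (Finset.filter_subset _ _) (fun _ _ _ => abs_nonneg _)
      _ ≤ E := hE
  have h3 : (B.card : ℝ) ≤ E / τ := by rwa [le_div_iff₀ hτ]
  have h4 : (V.filter fun a => soft τ (ν a) ≠ 0).card ≤ M + B.card :=
    (Finset.card_le_card h1).trans ((Finset.card_union_le _ _).trans (by omega))
  have h5 : ((V.filter fun a => soft τ (ν a) ≠ 0).card : ℝ) ≤ M + B.card := by exact_mod_cast h4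
  linarith

theorem soft_dist (V : Finset ℕ) (ν g : ℕ → ℝ) (M : ℕ)
    (hM : (V.filter fun a => g a ≠ 0).card ≤ M) {E τ : ℝ} (hτ : 0 < τ)
    (hE : ∑ a ∈ V, |ν a - g a| ≤ E) :
    ∑ a ∈ V, |soft τ (ν a) - ν a| ≤ τ * M + E := by
  classical
  have h1 : ∀ a ∈ V, |soft τ (ν a) - ν a| ≤ (if g a ≠ 0 then τ else 0) + |ν a - g a| := by
    intro a _
    obtain ⟨h2, h3⟩ := abs_soft_sub_le hτ.le (ν a)
    by_cases hg : g a = 0
    · rw [if_neg (by simpa using hg), hg, sub_zero, zero_add]
      exact h3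
    · rw [if_pos hg]
      exact h2.trans (le_add_of_nonneg_right (abs_nonneg _))
  refine (Finset.sum_le_sum h1).trans ?_
  rw [Finset.sum_add_distrib, ← Finset.sum_filter, Finset.sum_const, nsmul_eq_mul]
  have h4 : ((V.filter fun a => g a ≠ 0).card : ℝ) ≤ M := by exact_mod_cast hM
  nlinarith

end Pool.QB
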