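import Pool.Agent.MP_c51823_gt.QB.A9
import Pool.Agent.MP_c51823_gt.QB.A0

/-!
# [QB-A10]
-/

set_option autoImplicit false
open Topology

namespace Pool.QB

variable {h : HT} {u : h.H 0 (absP S4)} (L : ℕ → Level h u)
  (sd : ∀ i, StepData i (L (i + 1)) (L i))

/-- [QB-A10] `Ψ` is bounded by `1` and varies slowly along dipoles of level `> i`. -/
theorem Psi_le (i : ℕ) {r : ℕ} (z : Fin r → (L (i + 1)).G) (μ : Fin r → ℝ)
    (hμ : (Finset.univ.filter fun v => μ v ≠ 0).card ≤ mm (i + 1)) (x : Lim L sd) :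
    ∑ a ∈ (L i).K.vert, |Psi L sd i z μ x a| ≤ 1 := by
  classical
  set R := (Finset.range ((L (i + 1)).wn i)).filter
    (fun w => eta L sd i ≤ sg L sd i z μ w) with hR
  have h1 : ∀ a ∈ (L i).K.vert, |Psi L sd i z μ x a| ≤
      ∑ w ∈ R, (L (i + 1)).th i w (Lim.p (i + 1) x) * |mw L sd i z μ w a| := by
    intro a _
    unfold Psi
    refine (Finset.abs_sum_le_sum_abs _ _).trans (le_of_eq ?_)
    refine Finset.sum_congr rfl fun w _ => ?_
    rw [abs_mul, abs_of_nonneg ((sd i).th_nonneg w _)]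
  refine (Finset.sum_le_sum h1).trans ?_
  rw [Finset.sum_comm]
  have h2 : ∀ w ∈ R, ∑ a ∈ (L i).K.vert,
      (L (i + 1)).th i w (Lim.p (i + 1) x) * |mw L sd i z μ w a| ≤
      (L (i + 1)).th i w (Lim.p (i + 1) x) := by
    intro w hw
    rw [← Finset.mul_sum]
    have hw' : w < (L (i + 1)).wn i := by
      rw [hR, Finset.mem_filter, Finset.mem_range] at hw; exact hw.1
    have h3 := mw_l1 L sd i z μ hμ w hw'
    have h4 := (sd i).th_nonneg w (Lim.p (i + 1) x)
    nlinarith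
  refine (Finset.sum_le_sum h2).trans ?_
  rw [← (sd i).th_sum (Lim.p (i + 1) x)]
  exact Finset.sum_le_sum_of_subset_of_nonneg (Finset.filter_subset _ _)
    fun w _ _ => (sd i).th_nonneg w _

theorem Psi_fine (i : ℕ) {r : ℕ} (z : Fin r → (L (i + 1)).G) (μ : Fin r → ℝ)
    (hμ : (Finset.univ.filter fun v => μ v ≠ 0).card ≤ mm (i + 1)) (j : ℕ) (hj : i < j)
    (x y : Lim L sd) (hxy : (x, y) ∈ (Lim.U j : Set (Lim L sd × Lim L sd))) :
    ∑ a ∈ (L i).K.vert, |Psi L sd i z μ x a - Psi L sd i z μ y a| ≤ om j := by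
  classical
  set R := (Finset.range ((L (i + 1)).wn i)).filter
    (fun w => eta L sd i ≤ sg L sd i z μ w) with hR
  have h1 : ∀ a ∈ (L i).K.vert, |Psi L sd i z μ x a - Psi L sd i z μ y a| ≤
      ∑ w ∈ R, |(L (i + 1)).th i w (Lim.p (i + 1) x) - (L (i + 1)).th i w (Lim.p (i + 1) y)| *
        |mw L sd i z μ w a| := by
    intro a _
    unfold Psi
    rw [← Finset.sum_sub_distrib]
    refine (Finset.abs_sum_le_sum_abs _ _).trans (le_of_eq ?_)
    refine Finset.sum_congr rfl fun w _ => ?_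
    rw [← sub_mul, abs_mul]
  refine (Finset.sum_le_sum h1).trans ?_
  rw [Finset.sum_comm]
  have h2 : ∀ w ∈ R, ∑ a ∈ (L i).K.vert,
      |(L (i + 1)).th i w (Lim.p (i + 1) x) - (L (i + 1)).th i w (Lim.p (i + 1) y)| *
        |mw L sd i z μ w a| ≤
      |(L (i + 1)).th i w (Lim.p (i + 1) x) - (L (i + 1)).th i w (Lim.p (i + 1) y)| := by
    intro w hw
    rw [← Finset.mul_sum]
    have hw' : w < (L (i + 1)).wn i := by
      rw [hR, Finset.mem_filter, Finset.mem_range] at hw; exact hw.1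
    have h3 := mw_l1 L sd i z μ hμ w hw'
    have h4 := abs_nonneg ((L (i + 1)).th i w (Lim.p (i + 1) x) -
      (L (i + 1)).th i w (Lim.p (i + 1) y))
    nlinarith
  refine (Finset.sum_le_sum h2).trans ?_
  refine le_trans ?_ (th_close L sd i j hj x y hxy)
  exact Finset.sum_le_sum_of_subset_of_nonneg (Finset.filter_subset _ _)
    fun w _ _ => abs_nonneg _

end Pool.QB
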