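import Pool.Agent.MP_c51823_gt.QB.A9
import Pool.Agent.MP_c51823_gt.QB.A0

/-!
# [QB-A11] QB_PROOF.md section 10 (c): if some `w` with `eta ≤ sg w` has `θ_w(p x) ≠ 0` take `m = m_w`, `c = ∑ θ_w(p x)` over
the significant `w`, use `sel_close`; otherwise `c = 0`, `m` = a vertex of `supp κ_i(p_i x)`.
-/

set_option autoImplicit false
open Topology

namespace Pool.QB

variable {h : HT} {u : h.H 0 (absP S4)} (L : ℕ → Level h u)
  (sd : ∀ i, StepData i (L (i + 1)) (L i))

/-- [QB-A11] `Ψ(x)` is close to a multiple of one of the selected vectors. -/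
theorem Psi_near (i : ℕ) {r : ℕ} (z : Fin r → (L (i + 1)).G) (μ : Fin r → ℝ)
    (hμ : (Finset.univ.filter fun v => μ v ≠ 0).card ≤ mm (i + 1)) (hB : ∑ v, |μ v| ≤ BB (i + 1))
    (x : Lim L sd) :
    ∃ (c : ℝ) (m : ℕ → ℝ), 0 ≤ c ∧ c ≤ 1 ∧ m ∈ ((L i).K.skel 3).real ∧
      fsupp m ⊆ fsupp ((L i).κ (Lim.p i x)).1 ∧
      ∑ a ∈ (L i).K.vert, |Psi L sd i z μ x a - c * m a| ≤ ee i / (1 + 2 * (4 ^ i / 100)) := by
  classical
  have hee : 0 < ee i := by
    unfold ee
    positivity
  have hδ : (0 : ℝ) < ee i / (1 + 2 * (4 ^ i / 100)) := by positivity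
  set S : Finset ℕ := (Finset.range ((L (i + 1)).wn i)).filter
    (fun w => eta L sd i ≤ sg L sd i z μ w) with hS
  set y : (L (i + 1)).G := Lim.p (i + 1) x with hy
  have hD : 1 ≤ (sd i).D := by
    refine le_trans ?_ ((sd i).hD y)
    rw [Nat.one_le_iff_ne_zero, Finset.card_ne_zero]
    by_contra hcon
    rw [Finset.not_nonempty_iff_eq_empty] at hcon
    have h1 : ∑ w ∈ Finset.range ((L (i + 1)).wn i), (L (i + 1)).th i w y = 0 := by
      refine Finset.sum_eq_zero fun w hw => ?_
      by_contra h2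
      have h3 : w ∈ (Finset.range ((L (i + 1)).wn i)).filter
          fun w => (L (i + 1)).th i w y ≠ 0 := Finset.mem_filter.2 ⟨hw, h2⟩
      rw [hcon] at h3
      exact absurd h3 (Finset.notMem_empty _)
    rw [(sd i).th_sum y] at h1
    exact one_ne_zero h1
  have heta : 0 < eta L sd i := by
    unfold eta
    have h1 : (0 : ℝ) < (sd i).D := by exact_mod_cast hD
    positivity
  by_cases hex : ∃ w₀ ∈ S, (L (i + 1)).th i w₀ y ≠ 0
  · obtain ⟨w₀, hw₀, hth₀⟩ := hex
    obtain ⟨hw₀r, hw₀s⟩ := Finset.mem_filter.1 hw₀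
    have hw₀l : w₀ < (L (i + 1)).wn i := Finset.mem_range.1 hw₀r
    have hpos₀ : 0 < sg L sd i z μ w₀ := heta.trans_le hw₀s
    have hW : (fun v => |μ v|) ∈ (Wts (mm (i + 1)) : Set (Fin r → ℝ)) := by
      refine ⟨fun v => abs_nonneg _, ?_⟩
      have h1 : (Finset.univ.filter fun v => (fun v => |μ v|) v ≠ 0) =
          Finset.univ.filter fun v => μ v ≠ 0 := by
        ext v
        simp
      rw [h1]
      exact hμ
    have hmw₀ : mw L sd i z μ w₀ = (sd i).sel z (fun v => |μ v|) w₀ := by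
      unfold mw
      rw [if_pos hpos₀]
    have hsel : ∀ w ∈ S, (L (i + 1)).th i w y ≠ 0 →
        ∑ a ∈ (L i).K.vert, |mw L sd i z μ w a - mw L sd i z μ w₀ a| ≤
          ee i / (1 + 2 * (4 ^ i / 100)) := by
      intro w hw hthw
      obtain ⟨hwr, hws⟩ := Finset.mem_filter.1 hw
      have hposw : 0 < sg L sd i z μ w := heta.trans_le hws
      have hmww : mw L sd i z μ w = (sd i).sel z (fun v => |μ v|) w := by
        unfold mw
        rw [if_pos hposw]
      rw [hmww, hmw₀]
      exact (sd i).sel_close z (fun v => |μ v|) w w₀ (Finset.mem_range.1 hwr) hw₀l hW hB hws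
        hw₀s y hthw hth₀
    refine ⟨∑ w ∈ S, (L (i + 1)).th i w y, mw L sd i z μ w₀, ?_, ?_, ?_, ?_, ?_⟩
    · exact Finset.sum_nonneg fun w _ => (sd i).th_nonneg w y
    · rw [← (sd i).th_sum y]
      exact Finset.sum_le_sum_of_subset_of_nonneg (Finset.filter_subset _ _)
        fun w _ _ => (sd i).th_nonneg w y
    · exact mw_mem L sd i z μ hμ w₀ hw₀l hpos₀
    · rw [hmw₀]
      have h1 := (sd i).sel_supp z (fun v => |μ v|) w₀ hw₀l hW hpos₀ y hth₀
      have h2 : (sd i).π y = Lim.p i x := x.2 i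
      rw [h2] at h1
      exact h1
    · have h1 : ∀ a ∈ (L i).K.vert, |Psi L sd i z μ x a -
          (∑ w ∈ S, (L (i + 1)).th i w y) * mw L sd i z μ w₀ a| ≤
          ∑ w ∈ S, (L (i + 1)).th i w y * |mw L sd i z μ w a - mw L sd i z μ w₀ a| := by
        intro a _
        have h2 : Psi L sd i z μ x a - (∑ w ∈ S, (L (i + 1)).th i w y) * mw L sd i z μ w₀ a =
            ∑ w ∈ S, (L (i + 1)).th i w y * (mw L sd i z μ w a - mw L sd i z μ w₀ a) := by
          unfold Psi
          rw [Finset.sum_mul, ← Finset.sum_sub_distrib]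
          exact Finset.sum_congr rfl fun w _ => by ring
        rw [h2]
        refine (Finset.abs_sum_le_sum_abs _ _).trans (Finset.sum_le_sum fun w _ => ?_)
        rw [abs_mul, abs_of_nonneg ((sd i).th_nonneg w y)]
      refine (Finset.sum_le_sum h1).trans ?_
      rw [Finset.sum_comm]
      have h2 : ∀ w ∈ S, ∑ a ∈ (L i).K.vert,
          (L (i + 1)).th i w y * |mw L sd i z μ w a - mw L sd i z μ w₀ a| ≤
          (L (i + 1)).th i w y * (ee i / (1 + 2 * (4 ^ i / 100))) := by
        intro w hw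
        rw [← Finset.mul_sum]
        by_cases hthw : (L (i + 1)).th i w y = 0
        · rw [hthw, zero_mul, zero_mul]
        · exact mul_le_mul_of_nonneg_left (hsel w hw hthw) ((sd i).th_nonneg w y)
      refine (Finset.sum_le_sum h2).trans ?_
      rw [← Finset.sum_mul]
      refine mul_le_of_le_one_left hδ.le ?_
      rw [← (sd i).th_sum y]
      exact Finset.sum_le_sum_of_subset_of_nonneg (Finset.filter_subset _ _)
        fun w _ _ => (sd i).th_nonneg w y
  · push Not at hex
    have hκ := ((L i).κ (Lim.p i x)).2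
    obtain ⟨v, hv⟩ := fsupp_nonempty (mem_simp_fsupp (L i).K hκ)
    have hvS : ({v} : Finset ℕ) ∈ (L i).K.S :=
      (L i).K.down _ (fsupp_mem (L i).K hκ) _ (Finset.singleton_subset_iff.2 hv)
        (Finset.singleton_nonempty v)
    have hsimp : (Pi.single v 1 : ℕ → ℝ) ∈ simp {v} := by
      refine ⟨fun j => ?_, fun j hj => ?_, ?_⟩
      · by_cases hjv : j = v
        · subst hjv
          simp
        · simp [Pi.single_eq_of_ne hjv]
      · rw [Finset.mem_singleton] at hj
        exact Pi.single_eq_of_ne hj _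
      · simp
    refine ⟨0, Pi.single v 1, le_refl _, zero_le_one, ⟨{v}, ?_, hsimp⟩, ?_, ?_⟩
    · exact Finset.mem_filter.2 ⟨hvS, by simp⟩
    · exact (fsupp_subset_of_simp hsimp).trans (Finset.singleton_subset_iff.2 hv)
    · refine le_trans (le_of_eq ?_) hδ.le
      refine Finset.sum_eq_zero fun a _ => ?_
      have h1 : Psi L sd i z μ x a = 0 := by
        unfold Psi
        refine Finset.sum_eq_zero fun w hw => ?_
        rw [hex w hw, zero_mul]
      rw [h1, zero_mul, sub_zero, abs_zero]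

end Pool.QB
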