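import Pool.Agent.MP_c51823_gt.QB.A9

/-!
# [QB-A12] QB_PROOF.md section 10 (b), first part. `ν = ∑_w Λ_w m_w`; drop the insignificant `w` (`Lam_small`), replace `Λ_w`.
-/

set_option autoImplicit false
open Topology

namespace Pool.QB

variable {h : HT} {u : h.H 0 (absP S4)} (L : ℕ → Level h u)
  (sd : ∀ i, StepData i (L (i + 1)) (L i))

/-- [QB-A12] `ν` is close to `∑_y β_y Ψ(y)`. -/
theorem nu_Psi (i : ℕ) {r : ℕ} (z : Fin r → (L (i + 1)).G) (μ : Fin r → ℝ)
    (hμ : (Finset.univ.filter fun v => μ v ≠ 0).card ≤ mm (i + 1))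
    (Y : Finset (Lim L sd)) (β : Lim L sd → ℝ) (E : ℝ)
    (hE : ∑ w ∈ Finset.range ((L (i + 1)).wn i), |Lam L i z μ w -
      ∑ y ∈ Y, β y * (L (i + 1)).th i w (Lim.p (i + 1) y)| ≤ E) :
    ∑ a ∈ (L i).K.vert, |nu L sd i z μ a - ∑ y ∈ Y, β y * Psi L sd i z μ y a| ≤ E + ee i := by
  classical
  set P : ℕ → Prop := fun w => eta L sd i ≤ sg L sd i z μ w with hP
  set R := (Finset.range ((L (i + 1)).wn i)).filter P with hR
  set N := (Finset.range ((L (i + 1)).wn i)).filter (fun w => ¬ P w) with hN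
  set δ : ℕ → ℝ := fun w => Lam L i z μ w -
      ∑ y ∈ Y, β y * (L (i + 1)).th i w (Lim.p (i + 1) y) with hδ
  have key : ∀ a, nu L sd i z μ a - ∑ y ∈ Y, β y * Psi L sd i z μ y a =
      ∑ w ∈ R, δ w * mw L sd i z μ w a + ∑ w ∈ N, Lam L i z μ w * mw L sd i z μ w a := by
    intro a
    unfold nu Psi
    rw [← Finset.sum_filter_add_sum_filter_not (Finset.range ((L (i + 1)).wn i)) P]
    have h1 : ∑ y ∈ Y, β y * ∑ w ∈ R, (L (i + 1)).th i w (Lim.p (i + 1) y) *
        mw L sd i z μ w a = ∑ w ∈ R, (∑ y ∈ Y, β y * (L (i + 1)).th i w (Lim.p (i + 1) y)) *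
        mw L sd i z μ w a := by
      simp only [Finset.mul_sum, Finset.sum_mul]
      rw [Finset.sum_comm]
      refine Finset.sum_congr rfl fun w _ => Finset.sum_congr rfl fun y _ => ?_
      ring
    rw [h1, ← hR, ← hN]
    have h2 : ∑ w ∈ R, δ w * mw L sd i z μ w a = ∑ w ∈ R, Lam L i z μ w * mw L sd i z μ w a -
        ∑ w ∈ R, (∑ y ∈ Y, β y * (L (i + 1)).th i w (Lim.p (i + 1) y)) *
        mw L sd i z μ w a := by
      rw [← Finset.sum_sub_distrib]
      refine Finset.sum_congr rfl fun w _ => ?_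
      rw [hδ]; ring
    rw [h2]; ring
  have hsub : ∀ w ∈ R, w < (L (i + 1)).wn i := by
    intro w hw
    rw [hR, Finset.mem_filter, Finset.mem_range] at hw; exact hw.1
  have hsub' : ∀ w ∈ N, w < (L (i + 1)).wn i := by
    intro w hw
    rw [hN, Finset.mem_filter, Finset.mem_range] at hw; exact hw.1
  have gen : ∀ (S : Finset ℕ) (g : ℕ → ℝ), (∀ w ∈ S, w < (L (i + 1)).wn i) →
      ∑ a ∈ (L i).K.vert, |∑ w ∈ S, g w * mw L sd i z μ w a| ≤ ∑ w ∈ S, |g w| := by
    intro S g hS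
    calc ∑ a ∈ (L i).K.vert, |∑ w ∈ S, g w * mw L sd i z μ w a|
        ≤ ∑ a ∈ (L i).K.vert, ∑ w ∈ S, |g w| * |mw L sd i z μ w a| := by
          refine Finset.sum_le_sum fun a _ => ?_
          refine (Finset.abs_sum_le_sum_abs _ _).trans (le_of_eq ?_)
          exact Finset.sum_congr rfl fun w _ => abs_mul _ _
      _ = ∑ w ∈ S, |g w| * ∑ a ∈ (L i).K.vert, |mw L sd i z μ w a| := by
          rw [Finset.sum_comm]
          exact Finset.sum_congr rfl fun w _ => (Finset.mul_sum _ _ _).symm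
      _ ≤ ∑ w ∈ S, |g w| := by
          refine Finset.sum_le_sum fun w hw => ?_
          have h3 := mw_l1 L sd i z μ hμ w (hS w hw)
          have h4 := abs_nonneg (g w)
          nlinarith
  calc ∑ a ∈ (L i).K.vert, |nu L sd i z μ a - ∑ y ∈ Y, β y * Psi L sd i z μ y a|
      = ∑ a ∈ (L i).K.vert, |∑ w ∈ R, δ w * mw L sd i z μ w a +
          ∑ w ∈ N, Lam L i z μ w * mw L sd i z μ w a| :=
        Finset.sum_congr rfl fun a _ => by rw [key a]
    _ ≤ ∑ a ∈ (L i).K.vert, (|∑ w ∈ R, δ w * mw L sd i z μ w a| +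
          |∑ w ∈ N, Lam L i z μ w * mw L sd i z μ w a|) :=
        Finset.sum_le_sum fun a _ => abs_add_le _ _
    _ = ∑ a ∈ (L i).K.vert, |∑ w ∈ R, δ w * mw L sd i z μ w a| +
          ∑ a ∈ (L i).K.vert, |∑ w ∈ N, Lam L i z μ w * mw L sd i z μ w a| :=
        Finset.sum_add_distrib
    _ ≤ ∑ w ∈ R, |δ w| + ∑ w ∈ N, |Lam L i z μ w| :=
        add_le_add (gen R δ hsub) (gen N _ hsub')
    _ ≤ E + ee i := by
        refine add_le_add ?_ (Lam_small L sd i z μ hμ)
        refine le_trans ?_ hE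
        exact Finset.sum_le_sum_of_subset_of_nonneg (Finset.filter_subset _ _)
          fun w _ _ => abs_nonneg _

end Pool.QB
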