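import Pool.Agent.MP_c51823_gt.QB.LimDef

/-!
# [QB-A2a] Proof: QB_PROOF.md section 10 (F1), (F2), (b), with `p = 1/2`: cost `∑ √|a_e| / 2^{j(e)} < 1/10`.
Significant: `j(e) ≤ i` and `√|a_e| ≥ ee i / 2^i`.
-/

set_option autoImplicit false
open Topology

namespace Pool.QB

namespace A2a_aux

/-- evaluation of a representation at a function -/
theorem eval {C : Type} {n : ℕ} (x : C) (Y : Finset C) (β : C → ℝ) (a : Fin n → ℝ)
    (xx yy : Fin n → C)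
    (h : Finsupp.single x (1 : ℝ) - ∑ y ∈ Y, β y • Finsupp.single y (1 : ℝ) =
      ∑ e, a e • (Finsupp.single (xx e) (1 : ℝ) - Finsupp.single (yy e) (1 : ℝ)))
    (g : C → ℝ) :
    g x - ∑ y ∈ Y, β y * g y = ∑ e, a e * (g (xx e) - g (yy e)) := by
  have := congrArg (Finsupp.linearCombination ℝ g) h
  simpa [map_sub, map_sum, Finsupp.linearCombination_single] using this

/-- the error when only the dipoles of `Sg` are kept -/
theorem err {C : Type} {n : ℕ} (x : C) (Y : Finset C) (β : C → ℝ) (a : Fin n → ℝ)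
    (xx yy : Fin n → C)
    (h : Finsupp.single x (1 : ℝ) - ∑ y ∈ Y, β y • Finsupp.single y (1 : ℝ) =
      ∑ e, a e • (Finsupp.single (xx e) (1 : ℝ) - Finsupp.single (yy e) (1 : ℝ)))
    (V : Finset ℕ) (Ψ : C → ℕ → ℝ) (Sg : Finset (Fin n)) :
    ∑ v ∈ V, |∑ y ∈ Y, β y * Ψ y v - (Ψ x v - ∑ e ∈ Sg, a e * (Ψ (xx e) v - Ψ (yy e) v))| ≤
      ∑ e ∈ Sgᶜ, |a e| * ∑ v ∈ V, |Ψ (xx e) v - Ψ (yy e) v| := by
  have h1 : ∀ v ∈ V, |∑ y ∈ Y, β y * Ψ y v -
      (Ψ x v - ∑ e ∈ Sg, a e * (Ψ (xx e) v - Ψ (yy e) v))| ≤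
      ∑ e ∈ Sgᶜ, |a e| * |Ψ (xx e) v - Ψ (yy e) v| := by
    intro v _
    have h2 := eval x Y β a xx yy h (fun z => Ψ z v)
    have h3 : ∑ e, a e * (Ψ (xx e) v - Ψ (yy e) v) =
        ∑ e ∈ Sg, a e * (Ψ (xx e) v - Ψ (yy e) v) +
        ∑ e ∈ Sgᶜ, a e * (Ψ (xx e) v - Ψ (yy e) v) := (Finset.sum_add_sum_compl _ _).symm
    have h4 : ∑ y ∈ Y, β y * Ψ y v -
      (Ψ x v - ∑ e ∈ Sg, a e * (Ψ (xx e) v - Ψ (yy e) v)) =
      - ∑ e ∈ Sgᶜ, a e * (Ψ (xx e) v - Ψ (yy e) v) := by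
      rw [h3] at h2; linarith
    rw [h4, abs_neg]
    refine (Finset.abs_sum_le_sum_abs _ _).trans (le_of_eq ?_)
    exact Finset.sum_congr rfl fun e _ => abs_mul _ _
  refine (Finset.sum_le_sum h1).trans (le_of_eq ?_)
  rw [Finset.sum_comm]
  exact Finset.sum_congr rfl fun e _ => (Finset.mul_sum _ _ _).symm

variable {n : ℕ} (a : Fin n → ℝ) (j : Fin n → ℕ)

theorem abs_eq (t : ℝ) : |t| = Real.sqrt |t| * Real.sqrt |t| :=
  (Real.mul_self_sqrt (abs_nonneg t)).symm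

theorem cost_nonneg (e : Fin n) : 0 ≤ Real.sqrt |a e| / 2 ^ (j e) := by positivity

theorem cost_le (hc : ∑ e, Real.sqrt |a e| / 2 ^ (j e) < 1 / 10) (e : Fin n) :
    Real.sqrt |a e| / 2 ^ (j e) ≤ 1 / 10 :=
  (Finset.single_le_sum (f := fun e => Real.sqrt |a e| / 2 ^ (j e))
    (fun e _ => cost_nonneg a j e) (Finset.mem_univ e)).trans hc.le

theorem cost_sum_le (hc : ∑ e, Real.sqrt |a e| / 2 ^ (j e) < 1 / 10) (S : Finset (Fin n)) :
    ∑ e ∈ S, Real.sqrt |a e| / 2 ^ (j e) ≤ 1 / 10 :=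
  (Finset.sum_le_univ_sum_of_nonneg (fun e => cost_nonneg a j e)).trans hc.le

/-- `√|a_e| ≤ 2^i cost_e` if `j e ≤ i` -/
theorem sqrt_le (i : ℕ) (e : Fin n) (he : j e ≤ i) :
    Real.sqrt |a e| ≤ 2 ^ i * (Real.sqrt |a e| / 2 ^ (j e)) := by
  have h1 : (2 : ℝ) ^ (j e) ≤ 2 ^ i := pow_le_pow_right₀ (by norm_num) he
  have h2 : Real.sqrt |a e| = 2 ^ (j e) * (Real.sqrt |a e| / 2 ^ (j e)) := by
    field_simp
  calc Real.sqrt |a e| = 2 ^ (j e) * (Real.sqrt |a e| / 2 ^ (j e)) := h2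
    _ ≤ 2 ^ i * (Real.sqrt |a e| / 2 ^ (j e)) :=
      mul_le_mul_of_nonneg_right h1 (cost_nonneg a j e)

/-- (F1) -/
theorem F1 (hc : ∑ e, Real.sqrt |a e| / 2 ^ (j e) < 1 / 10) (i : ℕ) (S : Finset (Fin n))
    (hS : ∀ e ∈ S, j e ≤ i) : ∑ e ∈ S, |a e| ≤ 4 ^ i / 100 := by
  have h1 : ∑ e ∈ S, Real.sqrt |a e| ≤ 2 ^ i * (1 / 10) := by
    calc ∑ e ∈ S, Real.sqrt |a e| ≤ ∑ e ∈ S, 2 ^ i * (Real.sqrt |a e| / 2 ^ (j e)) :=
          Finset.sum_le_sum fun e he => sqrt_le a j i e (hS e he)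
      _ = 2 ^ i * ∑ e ∈ S, (Real.sqrt |a e| / 2 ^ (j e)) := (Finset.mul_sum _ _ _).symm
      _ ≤ 2 ^ i * (1 / 10) := by
          have := cost_sum_le a j hc S
          exact mul_le_mul_of_nonneg_left this (by positivity)
  have h0 : 0 ≤ ∑ e ∈ S, Real.sqrt |a e| := Finset.sum_nonneg fun e _ => Real.sqrt_nonneg _
  have h2 : ∑ e ∈ S, |a e| ≤ (∑ e ∈ S, Real.sqrt |a e|) * ∑ e ∈ S, Real.sqrt |a e| := by
    rw [Finset.sum_mul]
    refine Finset.sum_le_sum fun e he => ?_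
    rw [abs_eq (a e)]
    simp only [abs_mul, abs_of_nonneg (Real.sqrt_nonneg _), Real.sqrt_mul_self (Real.sqrt_nonneg _)]
    refine mul_le_mul_of_nonneg_left ?_ (Real.sqrt_nonneg _)
    exact Finset.single_le_sum (f := fun e => Real.sqrt |a e|) (fun e _ => Real.sqrt_nonneg _) he
  have h4 : (4 : ℝ) ^ i = 2 ^ i * 2 ^ i := by
    rw [← mul_pow]; norm_num
  calc ∑ e ∈ S, |a e| ≤ (∑ e ∈ S, Real.sqrt |a e|) * ∑ e ∈ S, Real.sqrt |a e| := h2
    _ ≤ (2 ^ i * (1 / 10)) * (2 ^ i * (1 / 10)) := mul_le_mul h1 h1 h0 (by positivity)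
    _ = 4 ^ i / 100 := by rw [h4]; ring

theorem ee_pos (i : ℕ) : 0 < ee i := by unfold ee; positivity

theorem ee_anti {i k : ℕ} (h : i ≤ k) : ee k ≤ ee i := by
  unfold ee
  exact pow_le_pow_of_le_one (by norm_num) (by norm_num) (by omega)

/-- one dipole of high level -/
theorem high (hc : ∑ e, Real.sqrt |a e| / 2 ^ (j e) < 1 / 10) (i : ℕ) (e : Fin n)
    (he : i < j e) : |a e| * om (j e) ≤ ee i * (Real.sqrt |a e| / 2 ^ (j e)) := by
  have h1 := cost_le a j hc e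
  have h0 := cost_nonneg a j e
  set k := j e with hk
  set q := Real.sqrt |a e| / 2 ^ k with hq
  have h2 : Real.sqrt |a e| = 2 ^ k * q := by rw [hq]; field_simp
  have h4 : (4 : ℝ) ^ k = 2 ^ k * 2 ^ k := by rw [← mul_pow]; norm_num
  have h3 : |a e| = 4 ^ k * q * q := by
    rw [h4, abs_eq (a e), h2]; ring
  have hee := ee_pos k
  have hee2 := ee_anti he.le
  have h5 : om k = ee k / (4 ^ k * 16) := by
    unfold om; rw [pow_add]; norm_num
  rw [h3, h5]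
  have h6 : (4 : ℝ) ^ k * q * q * (ee k / (4 ^ k * 16)) = (q * ee k / 16) * q := by
    have : (4 : ℝ) ^ k ≠ 0 := by positivity
    field_simp
  rw [h6]
  refine mul_le_mul_of_nonneg_right ?_ h0
  nlinarith

/-- one insignificant dipole of low level -/
theorem low (i : ℕ) (e : Fin n) (he : j e ≤ i) (hs : Real.sqrt |a e| < ee i / 2 ^ i) :
    |a e| ≤ ee i * (Real.sqrt |a e| / 2 ^ (j e)) := by
  have h1 := sqrt_le a j i e he
  have h0 := cost_nonneg a j e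
  have hee := ee_pos i
  have hp : (0 : ℝ) < 2 ^ i := by positivity
  calc |a e| = Real.sqrt |a e| * Real.sqrt |a e| := abs_eq _
    _ ≤ (ee i / 2 ^ i) * (2 ^ i * (Real.sqrt |a e| / 2 ^ (j e))) :=
        mul_le_mul hs.le h1 (Real.sqrt_nonneg _) (by positivity)
    _ = ee i * (Real.sqrt |a e| / 2 ^ (j e)) := by field_simp

/-- number of significant dipoles -/
theorem count (hc : ∑ e, Real.sqrt |a e| / 2 ^ (j e) < 1 / 10) (i : ℕ) (S : Finset (Fin n))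
    (hS : ∀ e ∈ S, j e ≤ i ∧ ee i / 2 ^ i ≤ Real.sqrt |a e|) : S.card ≤ nn i := by
  have h1 : ∑ e ∈ S, (ee i / 4 ^ i) ≤ ∑ e ∈ S, Real.sqrt |a e| / 2 ^ (j e) := by
    refine Finset.sum_le_sum fun e he => ?_
    have h2 := sqrt_le a j i e (hS e he).1
    have h3 := (hS e he).2
    have h4 : (4 : ℝ) ^ i = 2 ^ i * 2 ^ i := by rw [← mul_pow]; norm_num
    have hp : (0 : ℝ) < 2 ^ i := by positivity
    rw [h4, ← div_div, div_le_iff₀ hp]
    linarith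
  have h2 := cost_sum_le a j hc S
  rw [Finset.sum_const, nsmul_eq_mul] at h1
  have h3 : (S.card : ℝ) * (ee i / 4 ^ i) ≤ 1 / 10 := h1.trans h2
  have h4 : (nn i : ℝ) * (ee i / 4 ^ i) = 1 / 10 := by
    unfold nn ee
    push_cast
    have e1 : (1 / 10 : ℝ) ^ (i + 4) = 1 / (10 ^ (i + 3) * 10) := by
      rw [one_div_pow]; ring
    rw [e1]
    have : (4 : ℝ) ^ i ≠ 0 := by positivity
    have : (10 : ℝ) ^ (i + 3) ≠ 0 := by positivity
    field_simp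
  have hpos : 0 < ee i / 4 ^ i := by have := ee_pos i; positivity
  have h5 : (S.card : ℝ) ≤ nn i := by
    by_contra hcon
    push Not at hcon
    have := mul_lt_mul_of_pos_right hcon hpos
    linarith
  exact_mod_cast h5

end A2a_aux

open A2a_aux in
/-- [QB-A2a] Dipole lemma, level `i`. -/
theorem dipole {C : Type} (U : ℕ → Set (C × C)) (x : C) (Y : Finset C) (β : C → ℝ)
    (hrep : Rep U (Finsupp.single x (1 : ℝ) - ∑ y ∈ Y, β y • Finsupp.single y (1 : ℝ)) (1 / 10))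
    (V : Finset ℕ) (Ψ : C → ℕ → ℝ) (hΨ : ∀ z, ∑ a ∈ V, |Ψ z a| ≤ 1) (i : ℕ)
    (hfine : ∀ j > i, ∀ z z', (z, z') ∈ U j → ∑ a ∈ V, |Ψ z a - Ψ z' a| ≤ om j) :
    ∃ (n : ℕ) (c : Fin n → ℝ) (s t : Fin n → C), n ≤ nn i ∧ ∑ e, |c e| ≤ 4 ^ i / 100 ∧
      ∑ a ∈ V, |∑ y ∈ Y, β y * Ψ y a - (Ψ x a - ∑ e, c e * (Ψ (s e) a - Ψ (t e) a))| ≤
        3 * ee i := by
  classical
  obtain ⟨n, a, xx, yy, j, hU, hμ, hc⟩ := hrep
  set Sg : Finset (Fin n) := Finset.univ.filter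
    (fun e => j e ≤ i ∧ ee i / 2 ^ i ≤ Real.sqrt |a e|) with hSg
  have hSg' : ∀ e ∈ Sg, j e ≤ i ∧ ee i / 2 ^ i ≤ Real.sqrt |a e| := by
    intro e he; simpa [hSg] using he
  have hsum : ∀ F : Fin n → ℝ, ∑ k : Fin Sg.card, F (Sg.equivFin.symm k) = ∑ e ∈ Sg, F e := by
    intro F
    rw [Equiv.sum_comp Sg.equivFin.symm (fun e : Sg => F e)]
    exact Finset.sum_coe_sort Sg F
  refine ⟨Sg.card, fun k => a (Sg.equivFin.symm k), fun k => xx (Sg.equivFin.symm k),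
    fun k => yy (Sg.equivFin.symm k), count a j hc i Sg hSg', ?_, ?_⟩
  · rw [hsum (fun e => |a e|)]
    exact F1 a j hc i Sg fun e he => (hSg' e he).1
  · have h1 : ∀ v, ∑ k : Fin Sg.card, a (Sg.equivFin.symm k) *
        (Ψ (xx (Sg.equivFin.symm k)) v - Ψ (yy (Sg.equivFin.symm k)) v) =
        ∑ e ∈ Sg, a e * (Ψ (xx e) v - Ψ (yy e) v) := fun v =>
      hsum (fun e => a e * (Ψ (xx e) v - Ψ (yy e) v))
    simp only [h1]
    refine (err x Y β a xx yy hμ V Ψ Sg).trans ?_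
    have h2 : ∀ e ∈ Sgᶜ, |a e| * ∑ v ∈ V, |Ψ (xx e) v - Ψ (yy e) v| ≤
        (2 * ee i) * (Real.sqrt |a e| / 2 ^ (j e)) := by
      intro e he
      have hee := ee_pos i
      have hc0 := cost_nonneg a j e
      by_cases hj : j e ≤ i
      · have hs : Real.sqrt |a e| < ee i / 2 ^ i := by
          by_contra hcon
          push Not at hcon
          rw [Finset.mem_compl] at he
          exact he (by simp [hSg, hj, hcon])
        have h3 : ∑ v ∈ V, |Ψ (xx e) v - Ψ (yy e) v| ≤ 2 := by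
          calc ∑ v ∈ V, |Ψ (xx e) v - Ψ (yy e) v|
              ≤ ∑ v ∈ V, (|Ψ (xx e) v| + |Ψ (yy e) v|) :=
                Finset.sum_le_sum fun v _ => abs_sub _ _
            _ = ∑ v ∈ V, |Ψ (xx e) v| + ∑ v ∈ V, |Ψ (yy e) v| := Finset.sum_add_distrib
            _ ≤ 2 := by have := hΨ (xx e); have := hΨ (yy e); linarith
        have h4 := low a j i e hj hs
        have h5 := abs_nonneg (a e)
        nlinarith
      · push Not at hj
        have h3 := hfine (j e) hj _ _ (hU e)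
        have h4 := high a j hc i e hj
        have h5 := abs_nonneg (a e)
        have h6 : |a e| * ∑ v ∈ V, |Ψ (xx e) v - Ψ (yy e) v| ≤ |a e| * om (j e) :=
          mul_le_mul_of_nonneg_left h3 h5
        nlinarith
    refine (Finset.sum_le_sum h2).trans ?_
    rw [← Finset.mul_sum]
    have h3 := cost_sum_le a j hc Sgᶜ
    have hee := ee_pos i
    nlinarith

end Pool.QB
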