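import Pool.Agent.MP_c51823_gt.QB.LimDef
import Pool.Agent.MP_c51823_gt.QB.A2a

/-!
# [QB-A2b] As A2a; all dipoles with `j(e) = 0` have `∑ |a_e| ≤ 1/100`.
-/

set_option autoImplicit false
open Topology

namespace Pool.QB

open A2a_aux in
/-- [QB-A2b] Dipole lemma, level `0`. -/
theorem dipole_zero {C : Type} (U : ℕ → Set (C × C)) (x : C) (Y : Finset C) (β : C → ℝ)
    (hrep : Rep U (Finsupp.single x (1 : ℝ) - ∑ y ∈ Y, β y • Finsupp.single y (1 : ℝ)) (1 / 10))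
    (V : Finset ℕ) (Ψ : C → ℕ → ℝ) (hΨ : ∀ z, ∑ a ∈ V, |Ψ z a| ≤ 1)
    (hfine : ∀ j > 0, ∀ z z', (z, z') ∈ U j → ∑ a ∈ V, |Ψ z a - Ψ z' a| ≤ om j) :
    ∑ a ∈ V, |∑ y ∈ Y, β y * Ψ y a - Ψ x a| ≤ 2 / 100 + ee 0 := by
  classical
  obtain ⟨n, a, xx, yy, j, hU, hμ, hc⟩ := hrep
  have h0 := err x Y β a xx yy hμ V Ψ ∅
  simp only [Finset.sum_empty, sub_zero, Finset.compl_empty] at h0
  refine h0.trans ?_
  have hee := ee_pos 0
  rw [← Finset.sum_filter_add_sum_filter_not Finset.univ (fun e => j e = 0)]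
  have hA : ∑ e ∈ Finset.univ.filter (fun e => j e = 0),
      |a e| * ∑ v ∈ V, |Ψ (xx e) v - Ψ (yy e) v| ≤ 2 / 100 := by
    have h1 := F1 a j hc 0 (Finset.univ.filter (fun e => j e = 0)) (by
      intro e he; simp at he; omega)
    have h2 : ∑ e ∈ Finset.univ.filter (fun e => j e = 0),
      |a e| * ∑ v ∈ V, |Ψ (xx e) v - Ψ (yy e) v| ≤
      ∑ e ∈ Finset.univ.filter (fun e => j e = 0), |a e| * 2 := by
      refine Finset.sum_le_sum fun e _ => mul_le_mul_of_nonneg_left ?_ (abs_nonneg _)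
      calc ∑ v ∈ V, |Ψ (xx e) v - Ψ (yy e) v|
          ≤ ∑ v ∈ V, (|Ψ (xx e) v| + |Ψ (yy e) v|) :=
            Finset.sum_le_sum fun v _ => abs_sub _ _
        _ = ∑ v ∈ V, |Ψ (xx e) v| + ∑ v ∈ V, |Ψ (yy e) v| := Finset.sum_add_distrib
        _ ≤ 2 := by have := hΨ (xx e); have := hΨ (yy e); linarith
    rw [← Finset.sum_mul] at h2
    norm_num at h1
    linarith
  have hB : ∑ e ∈ Finset.univ.filter (fun e => ¬ j e = 0),
      |a e| * ∑ v ∈ V, |Ψ (xx e) v - Ψ (yy e) v| ≤ ee 0 := by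
    have h2 : ∑ e ∈ Finset.univ.filter (fun e => ¬ j e = 0),
      |a e| * ∑ v ∈ V, |Ψ (xx e) v - Ψ (yy e) v| ≤
      ∑ e ∈ Finset.univ.filter (fun e => ¬ j e = 0), ee 0 * (Real.sqrt |a e| / 2 ^ (j e)) := by
      refine Finset.sum_le_sum fun e he => ?_
      have hj : 0 < j e := by
        simp at he; omega
      exact (mul_le_mul_of_nonneg_left (hfine (j e) hj _ _ (hU e)) (abs_nonneg _)).trans
        (high a j hc 0 e hj)
    refine h2.trans ?_
    rw [← Finset.mul_sum]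
    have h3 := cost_sum_le a j hc (Finset.univ.filter (fun e => ¬ j e = 0))
    nlinarith
  linarith

end Pool.QB
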