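import Pool.Agent.MP_c51823_gt.QB.TDef

/-!
# [QB-A2c] numbers
-/

set_option autoImplicit false
open Topology

namespace Pool.QB

/-- [QB-A2c] numbers -/
theorem om_BB (i : ℕ) : om i * BB (i + 1) ≤ ee i := by
  have h1 : (1 : ℝ) ≤ 4 ^ (i + 1) := one_le_pow₀ (by norm_num)
  have h0 : 0 ≤ ee i := by unfold ee; positivity
  have h2 : (0 : ℝ) < 4 ^ (i + 2) := by positivity
  unfold om BB
  rw [div_mul_eq_mul_div, div_le_iff₀ h2]
  refine mul_le_mul_of_nonneg_left ?_ h0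
  rw [pow_succ _ (i + 1)]
  linarith

theorem mm_ge (i : ℕ) : (MM i : ℝ) + (MM i : ℝ) / ee i ≤ mm i ∧ i ≤ mm i := by
  refine ⟨?_, Nat.le_add_right _ _⟩
  have h : (MM i : ℝ) / ee i = MM i * 10 ^ (i + 4) := by
    unfold ee
    rw [one_div, inv_pow, div_inv_eq_mul]
  rw [h]
  unfold mm
  push_cast
  have : (0 : ℝ) ≤ i := Nat.cast_nonneg i
  linarith

theorem BB_ge (i : ℕ) : 1 + 2 * (4 ^ i / 100 : ℝ) + 1 ≤ BB i := by
  have h1 : (1 : ℝ) ≤ 4 ^ i := one_le_pow₀ (by norm_num)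
  unfold BB
  linarith

end Pool.QB
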