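import Pool.Agent.MP_c51823_gt.QB.Core

/-!
# [QB-C2] Basic facts on supports, simplices, skeleta
-/

set_option autoImplicit false
open Topology

namespace Pool.QB

namespace C2_aux

theorem simp_fin {s : Finset ℕ} {x : ℕ → ℝ} (hx : x ∈ simp s) : (Function.support x).Finite := by
  refine s.finite_toSet.subset fun i hi => ?_
  by_contra h
  exact hi (hx.2.1 i h)

theorem mem_fsupp_of_simp {s : Finset ℕ} {x : ℕ → ℝ} (hx : x ∈ simp s) (i : ℕ) :
    i ∈ fsupp x ↔ x i ≠ 0 := by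
  unfold fsupp
  rw [dif_pos (simp_fin hx), Set.Finite.mem_toFinset, Function.mem_support]

theorem sub_of_simp {s : Finset ℕ} {x : ℕ → ℝ} (hx : x ∈ simp s) : fsupp x ⊆ s := by
  intro i hi
  by_contra h
  exact (mem_fsupp_of_simp hx i).1 hi (hx.2.1 i h)

theorem self_of_simp {s : Finset ℕ} {x : ℕ → ℝ} (hx : x ∈ simp s) : x ∈ simp (fsupp x) := by
  refine ⟨hx.1, fun i hi => ?_, ?_⟩
  · by_contra h
    exact hi ((mem_fsupp_of_simp hx i).2 h)
  · rw [← hx.2.2]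
    refine Finset.sum_subset (sub_of_simp hx) fun i _ hi => ?_
    by_contra h
    exact hi ((mem_fsupp_of_simp hx i).2 h)

theorem ne_of_simp {s : Finset ℕ} {x : ℕ → ℝ} (hx : x ∈ simp s) : (fsupp x).Nonempty := by
  by_contra h
  rw [Finset.not_nonempty_iff_eq_empty] at h
  have h1 := (self_of_simp hx).2.2
  rw [h, Finset.sum_empty] at h1
  exact zero_ne_one h1

end C2_aux

open C2_aux

/-- [QB-C2] facts about supports -/
theorem fsupp_mem (K : Cx) {x : ℕ → ℝ} (hx : x ∈ K.real) : fsupp x ∈ K.S := by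
  obtain ⟨s, hs, hxs⟩ := hx
  exact K.down s hs _ (sub_of_simp hxs) (ne_of_simp hxs)

theorem mem_fsupp (K : Cx) {x : ℕ → ℝ} (hx : x ∈ K.real) (i : ℕ) : i ∈ fsupp x ↔ x i ≠ 0 := by
  obtain ⟨s, hs, hxs⟩ := hx
  exact mem_fsupp_of_simp hxs i

theorem mem_fsupp_iff_pos (K : Cx) {x : ℕ → ℝ} (hx : x ∈ K.real) (i : ℕ) :
    i ∈ fsupp x ↔ 0 < x i := by
  rw [mem_fsupp K hx]
  obtain ⟨s, hs, hxs⟩ := hx
  exact ⟨fun h => lt_of_le_of_ne (hxs.1 i) (Ne.symm h), fun h => h.ne'⟩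

theorem mem_simp_fsupp (K : Cx) {x : ℕ → ℝ} (hx : x ∈ K.real) : x ∈ simp (fsupp x) := by
  obtain ⟨s, hs, hxs⟩ := hx
  exact self_of_simp hxs

theorem fsupp_subset_of_simp {s : Finset ℕ} {x : ℕ → ℝ} (hx : x ∈ simp s) : fsupp x ⊆ s :=
  sub_of_simp hx

theorem fsupp_nonempty {s : Finset ℕ} {x : ℕ → ℝ} (hx : x ∈ simp s) : (fsupp x).Nonempty :=
  ne_of_simp hx

theorem simp_subset_real (K : Cx) {s : Finset ℕ} (hs : s ∈ K.S) : simp s ⊆ K.real :=
  fun _ hx => ⟨s, hs, hx⟩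

theorem simp_mono {s t : Finset ℕ} (h : s ⊆ t) : simp s ⊆ simp t := by
  intro x hx
  refine ⟨hx.1, fun i hi => hx.2.1 i fun h' => hi (h h'), ?_⟩
  rw [← hx.2.2]
  exact (Finset.sum_subset h fun i _ hi => hx.2.1 i hi).symm

theorem mem_simp_of_fsupp (K : Cx) {x : ℕ → ℝ} (hx : x ∈ K.real) {s : Finset ℕ}
    (hs : fsupp x ⊆ s) : x ∈ simp s := simp_mono hs (mem_simp_fsupp K hx)

theorem mem_real_of_fsupp (K L : Cx) {x : ℕ → ℝ} (hx : x ∈ K.real) (hs : fsupp x ∈ L.S) :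
    x ∈ L.real := ⟨fsupp x, hs, mem_simp_fsupp K hx⟩

theorem real_mono {K L : Cx} (h : K.S ⊆ L.S) : K.real ⊆ L.real :=
  fun _ ⟨s, hs, hx⟩ => ⟨s, h hs, hx⟩

theorem skel_sub (K : Cx) (t : ℕ) : (K.skel t).S ⊆ K.S := Finset.filter_subset _ _

theorem mem_skel_real (K : Cx) (t : ℕ) {x : ℕ → ℝ} :
    x ∈ (K.skel t).real ↔ x ∈ K.real ∧ (fsupp x).card ≤ t + 1 := by
  constructor
  · intro hx
    exact ⟨real_mono (skel_sub K t) hx, (Finset.mem_filter.1 (fsupp_mem _ hx)).2⟩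
  · rintro ⟨hx, hc⟩
    exact mem_real_of_fsupp K _ hx (Finset.mem_filter.2 ⟨fsupp_mem K hx, hc⟩)

/-- convex combinations inside one simplex -/
theorem simp_convex (s : Finset ℕ) : Convex ℝ (simp s) := by
  intro x hx y hy a b ha hb hab
  refine ⟨fun i => ?_, fun i hi => ?_, ?_⟩
  · simp only [Pi.add_apply, Pi.smul_apply, smul_eq_mul]
    have := hx.1 i
    have := hy.1 i
    positivity
  · simp only [Pi.add_apply, Pi.smul_apply, smul_eq_mul, hx.2.1 i hi, hy.2.1 i hi]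
    ring
  · simp only [Pi.add_apply, Pi.smul_apply, smul_eq_mul]
    rw [Finset.sum_add_distrib, ← Finset.mul_sum, ← Finset.mul_sum, hx.2.2, hy.2.2]
    linarith

end Pool.QB
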