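import Pool.Agent.MP_c51823_gt.QB.ADef
import Pool.Agent.MP_c51823_gt.QB.C2

/-!
# [QB-A9] Basic estimates for `Λ_w` and `m_w`. `D = 0` or `r = 0` are harmless.
-/

set_option autoImplicit false
open Topology

namespace Pool.QB

namespace A9_aux

theorem simp_vert (K : Cx) {s : Finset ℕ} (hs : s ∈ K.S) : s ⊆ K.vert := by
  intro a ha
  unfold Cx.vert
  rw [Finset.mem_biUnion]
  exact ⟨s, hs, ha⟩

theorem simp_nonneg {s : Finset ℕ} {x : ℕ → ℝ} (hx : x ∈ simp s) (a : ℕ) : 0 ≤ x a := hx.1 a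

theorem simp_le_one {s : Finset ℕ} {x : ℕ → ℝ} (hx : x ∈ simp s) (a : ℕ) : x a ≤ 1 := by
  by_cases ha : a ∈ s
  · rw [← hx.2.2]
    exact Finset.single_le_sum (f := x) (fun i _ => hx.1 i) ha
  · rw [hx.2.1 a ha]; exact zero_le_one

theorem real_nonneg {K : Cx} {x : ℕ → ℝ} (hx : x ∈ K.real) (a : ℕ) : 0 ≤ x a := by
  obtain ⟨s, _, hx⟩ := hx
  exact simp_nonneg hx a

theorem real_le_one {K : Cx} {x : ℕ → ℝ} (hx : x ∈ K.real) (a : ℕ) : x a ≤ 1 := by
  obtain ⟨s, _, hx⟩ := hx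
  exact simp_le_one hx a

theorem real_sum {K : Cx} {x : ℕ → ℝ} (hx : x ∈ K.real) : ∑ a ∈ K.vert, x a = 1 := by
  obtain ⟨s, hs, hx⟩ := hx
  rw [← hx.2.2]
  exact (Finset.sum_subset (simp_vert K hs) (fun a _ ha => hx.2.1 a ha)).symm

theorem real_abs_sum {K : Cx} {x : ℕ → ℝ} (hx : x ∈ K.real) : ∑ a ∈ K.vert, |x a| = 1 := by
  rw [← real_sum hx]
  exact Finset.sum_congr rfl fun a _ => abs_of_nonneg (real_nonneg hx a)

end A9_aux

open A9_aux

variable {h : HT} {u : h.H 0 (absP S4)} (L : ℕ → Level h u)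
  (sd : ∀ i, StepData i (L (i + 1)) (L i))

namespace A9_aux

include sd in
theorem th_le_one (i : ℕ) (w : ℕ) (hw : w < (L (i + 1)).wn i) (z : (L (i + 1)).G) :
    (L (i + 1)).th i w z ≤ 1 := by
  rw [← (sd i).th_sum z]
  exact Finset.single_le_sum (f := fun w => (L (i + 1)).th i w z)
    (fun w _ => (sd i).th_nonneg w z) (Finset.mem_range.2 hw)

theorem th_le_chi (i : ℕ) (w : ℕ) (hw : w < (L (i + 1)).wn i) (z : (L (i + 1)).G) :
    (L (i + 1)).th i w z ≤ (sd i).χ w z := by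
  by_cases h0 : (L (i + 1)).th i w z = 0
  · rw [h0]; exact (sd i).χ_nonneg w z
  · rw [(sd i).χ_one w z h0]; exact th_le_one L sd i w hw z

theorem abs_wts {r m : ℕ} {μ : Fin r → ℝ}
    (hμ : (Finset.univ.filter fun v => μ v ≠ 0).card ≤ m) :
    (fun v => |μ v|) ∈ (Wts m : Set (Fin r → ℝ)) := by
  refine ⟨fun v => abs_nonneg _, ?_⟩
  simpa using hμ

theorem sg_nonneg (i : ℕ) {r : ℕ} (z : Fin r → (L (i + 1)).G) (μ : Fin r → ℝ) (w : ℕ) :
    0 ≤ sg L sd i z μ w :=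
  Finset.sum_nonneg fun v _ => mul_nonneg (abs_nonneg _) ((sd i).χ_nonneg _ _)

end A9_aux

/-- [QB-A9a] basic estimates: `|Λ_w| ≤ sg w`, `m_w` is a point of `|K^(3)|`, the sum of the tests is `1` -/
theorem abs_Lam_le (i : ℕ) {r : ℕ} (z : Fin r → (L (i + 1)).G) (μ : Fin r → ℝ) (w : ℕ) (hw : w < (L (i + 1)).wn i) :
    |Lam L i z μ w| ≤ sg L sd i z μ w := by
  unfold Lam sg
  refine (Finset.abs_sum_le_sum_abs _ _).trans (Finset.sum_le_sum fun v _ => ?_)
  rw [abs_mul, abs_of_nonneg ((sd i).th_nonneg w (z v))]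
  exact mul_le_mul_of_nonneg_left (th_le_chi L sd i w hw (z v)) (abs_nonneg _)

theorem mw_mem (i : ℕ) {r : ℕ} (z : Fin r → (L (i + 1)).G) (μ : Fin r → ℝ)
    (hμ : (Finset.univ.filter fun v => μ v ≠ 0).card ≤ mm (i + 1)) (w : ℕ)
    (hw : w < (L (i + 1)).wn i) (hs : 0 < sg L sd i z μ w) :
    mw L sd i z μ w ∈ ((L i).K.skel 3).real := by
  unfold mw
  rw [if_pos hs]
  exact (sd i).sel_mem z (fun v => |μ v|) w hw (abs_wts hμ) hs

namespace A9_aux

theorem mw_mem_real (i : ℕ) {r : ℕ} (z : Fin r → (L (i + 1)).G) (μ : Fin r → ℝ)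
    (hμ : (Finset.univ.filter fun v => μ v ≠ 0).card ≤ mm (i + 1)) (w : ℕ)
    (hw : w < (L (i + 1)).wn i) (hs : 0 < sg L sd i z μ w) :
    mw L sd i z μ w ∈ (L i).K.real := by
  obtain ⟨s, h1, h2⟩ := mw_mem L sd i z μ hμ w hw hs
  exact ⟨s, (Finset.mem_filter.1 h1).1, h2⟩

theorem mw_abs_le_one (i : ℕ) {r : ℕ} (z : Fin r → (L (i + 1)).G) (μ : Fin r → ℝ)
    (hμ : (Finset.univ.filter fun v => μ v ≠ 0).card ≤ mm (i + 1)) (w : ℕ)
    (hw : w < (L (i + 1)).wn i) (a : ℕ) : |mw L sd i z μ w a| ≤ 1 := by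
  by_cases hs : 0 < sg L sd i z μ w
  · have h1 := mw_mem_real L sd i z μ hμ w hw hs
    rw [abs_of_nonneg (real_nonneg h1 a)]
    exact real_le_one h1 a
  · unfold mw
    rw [if_neg hs]; simp

end A9_aux

theorem mw_l1 (i : ℕ) {r : ℕ} (z : Fin r → (L (i + 1)).G) (μ : Fin r → ℝ)
    (hμ : (Finset.univ.filter fun v => μ v ≠ 0).card ≤ mm (i + 1)) (w : ℕ)
    (hw : w < (L (i + 1)).wn i) :
    ∑ a ∈ (L i).K.vert, |mw L sd i z μ w a| ≤ 1 := by
  by_cases hs : 0 < sg L sd i z μ w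
  · exact (real_abs_sum (mw_mem_real L sd i z μ hμ w hw hs)).le
  · unfold mw
    rw [if_neg hs]; simp

/-- [QB-A9b] the insignificant part -/
theorem Lam_small (i : ℕ) {r : ℕ} (z : Fin r → (L (i + 1)).G) (μ : Fin r → ℝ)
    (hμ : (Finset.univ.filter fun v => μ v ≠ 0).card ≤ mm (i + 1)) :
    ∑ w ∈ (Finset.range ((L (i + 1)).wn i)).filter (fun w => ¬ eta L sd i ≤ sg L sd i z μ w),
      |Lam L i z μ w| ≤ ee i := by
  classical
  have hee : 0 < ee i := by unfold ee; positivity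
  set R := (Finset.range ((L (i + 1)).wn i)).filter
    (fun w => ¬ eta L sd i ≤ sg L sd i z μ w) with hR
  set T : Finset ℕ := (Finset.univ.filter fun v => μ v ≠ 0).biUnion fun v =>
    (Finset.range ((L (i + 1)).wn i)).filter fun w => (L (i + 1)).th i w (z v) ≠ 0 with hT
  have hTc : T.card ≤ mm (i + 1) * (sd i).D := by
    calc T.card ≤ ∑ v ∈ (Finset.univ.filter fun v => μ v ≠ 0),
          ((Finset.range ((L (i + 1)).wn i)).filter
            fun w => (L (i + 1)).th i w (z v) ≠ 0).card := Finset.card_biUnion_le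
      _ ≤ ∑ v ∈ (Finset.univ.filter fun v => μ v ≠ 0), (sd i).D :=
          Finset.sum_le_sum fun v _ => (sd i).hD (z v)
      _ = (Finset.univ.filter fun v => μ v ≠ 0).card * (sd i).D := by
          rw [Finset.sum_const, smul_eq_mul]
      _ ≤ mm (i + 1) * (sd i).D := Nat.mul_le_mul_right _ hμ
  have heta : 0 ≤ eta L sd i := by unfold eta; positivity
  have h1 : ∑ w ∈ R, |Lam L i z μ w| ≤ ∑ w ∈ R ∩ T, eta L sd i := by
    have h2 : ∑ w ∈ R, |Lam L i z μ w| = ∑ w ∈ R ∩ T, |Lam L i z μ w| := by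
      refine (Finset.sum_subset Finset.inter_subset_left fun w hw hwT => ?_).symm
      have hwT' : w ∉ T := fun h => hwT (Finset.mem_inter.2 ⟨hw, h⟩)
      have hw' : w ∈ Finset.range ((L (i + 1)).wn i) := (Finset.mem_filter.1 hw).1
      rw [abs_eq_zero]
      unfold Lam
      refine Finset.sum_eq_zero fun v _ => ?_
      by_cases hv : μ v = 0
      · rw [hv, zero_mul]
      · by_cases hth : (L (i + 1)).th i w (z v) = 0
        · rw [hth, mul_zero]
        · exfalso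
          apply hwT'
          rw [hT, Finset.mem_biUnion]
          exact ⟨v, by simp [hv], by simpa [hth] using hw'⟩
    rw [h2]
    refine Finset.sum_le_sum fun w hw => ?_
    have hwR := (Finset.mem_inter.1 hw).1
    rw [hR, Finset.mem_filter, Finset.mem_range] at hwR
    exact (abs_Lam_le L sd i z μ w hwR.1).trans (le_of_lt (not_le.1 hwR.2))
  have h3 : ((R ∩ T).card : ℝ) ≤ mm (i + 1) * (sd i).D := by
    exact_mod_cast (Finset.card_le_card Finset.inter_subset_right).trans hTc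
  rw [Finset.sum_const, nsmul_eq_mul] at h1
  refine h1.trans ((mul_le_mul_of_nonneg_right h3 heta).trans ?_)
  unfold eta
  rcases Nat.eq_zero_or_pos (sd i).D with hD | hD
  · rw [hD]; simp [hee.le]
  · have hD' : (0 : ℝ) < (sd i).D := by exact_mod_cast hD
    have hm : (0 : ℝ) ≤ mm (i + 1) := Nat.cast_nonneg _
    have : (mm (i + 1) : ℝ) * (sd i).D * (ee i / ((mm (i + 1) + 1) * (sd i).D)) =
      (mm (i + 1) / (mm (i + 1) + 1)) * ee i := by
      field_simp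
    rw [this]
    have h4 : (mm (i + 1) : ℝ) / (mm (i + 1) + 1) ≤ 1 := by
      rw [div_le_one (by positivity)]; linarith
    nlinarith

end Pool.QB
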