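import Pool.Agent.MP_c51823_gt.QB.ADef
import Pool.Agent.MP_c51823_gt.QB.A9

/-!
# [QB-A3a]
-/

set_option autoImplicit false
open Topology

namespace Pool.QB

variable {h : HT} {u : h.H 0 (absP S4)} (L : ℕ → Level h u)
  (sd : ∀ i, StepData i (L (i + 1)) (L i))

/-- [QB-A3a] `ν` depends continuously on parameters -/
theorem continuous_nu (i : ℕ) {r : ℕ} (z : Fin r → (L (i + 1)).G) {X : Type}
    [TopologicalSpace X] (μ : Fin r → C(X, ℝ))
    (hμ : ∀ x, (Finset.univ.filter fun v => μ v x ≠ 0).card ≤ mm (i + 1)) (a : ℕ) :
    Continuous fun x => nu L sd i z (fun v => μ v x) a := by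
  classical
  unfold nu
  refine continuous_finsetSum _ fun w hw => ?_
  rw [Finset.mem_range] at hw
  have hLam : Continuous fun x => Lam L i z (fun v => μ v x) w := by
    unfold Lam
    exact continuous_finsetSum _ fun v _ => (μ v).continuous.mul continuous_const
  have hsg : Continuous fun x => sg L sd i z (fun v => μ v x) w := by
    unfold sg
    exact continuous_finsetSum _ fun v _ => (μ v).continuous.abs.mul continuous_const
  rw [continuous_iff_continuousAt]
  intro x0
  by_cases hs : 0 < sg L sd i z (fun v => μ v x0) w
  · refine ContinuousAt.mul hLam.continuousAt ?_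
    have hopen : IsOpen {x | 0 < sg L sd i z (fun v => μ v x) w} :=
      isOpen_lt continuous_const hsg
    have hcont : ContinuousOn (fun x => mw L sd i z (fun v => μ v x) w a)
        {x | 0 < sg L sd i z (fun v => μ v x) w} := by
      have h1 : ContinuousOn (fun x => (sd i).sel z (fun v => |μ v x|) w)
          {x | 0 < sg L sd i z (fun v => μ v x) w} := by
        refine ((sd i).sel_cont z w hw).comp (f := fun x => fun v => |μ v x|) ?_ ?_
        · exact (continuous_pi fun v => (μ v).continuous.abs).continuousOn
        · intro x hx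
          exact ⟨A9_aux.abs_wts (hμ x), hx⟩
      have h2 : ContinuousOn (fun x => (sd i).sel z (fun v => |μ v x|) w a)
          {x | 0 < sg L sd i z (fun v => μ v x) w} :=
        (continuous_apply a).comp_continuousOn h1
      refine h2.congr fun x hx => ?_
      have hx' : 0 < sg L sd i z (fun v => μ v x) w := hx
      simp only [mw, if_pos hx']
    exact hcont.continuousAt (hopen.mem_nhds hs)
  · have h0 : sg L sd i z (fun v => μ v x0) w = 0 :=
      le_antisymm (not_lt.1 hs) (A9_aux.sg_nonneg L sd i z _ w)
    have hL0 : Lam L i z (fun v => μ v x0) w = 0 := by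
      have := abs_Lam_le L sd i z (fun v => μ v x0) w hw
      rw [h0] at this
      exact abs_eq_zero.1 (le_antisymm this (abs_nonneg _))
    have hval : Lam L i z (fun v => μ v x0) w * mw L sd i z (fun v => μ v x0) w a = 0 := by
      rw [hL0, zero_mul]
    unfold ContinuousAt
    beta_reduce
    rw [hval]
    refine squeeze_zero_norm (a := fun x => |Lam L i z (fun v => μ v x) w|) (fun x => ?_) ?_
    · rw [Real.norm_eq_abs, abs_mul]
      have h1 := A9_aux.mw_abs_le_one L sd i z (fun v => μ v x) (hμ x) w hw a
      have h2 := abs_nonneg (Lam L i z (fun v => μ v x) w)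
      nlinarith
    · have := hLam.abs.tendsto x0
      simpa [hL0] using this

end Pool.QB
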