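import Pool.Agent.MP_c51823_gt.QB.ADef
import Pool.Agent.MP_c51823_gt.QB.C2
import Pool.Agent.MP_c51823_gt.QB.A9

/-!
# [QB-A3b] If `Λ_w ≠ 0` then some `θ_w(z v) ≠ 0` with `μ v ≠ 0`, so `sg > 0` and `m_w` is a probability vector.
-/

set_option autoImplicit false
open Topology

namespace Pool.QB

variable {h : HT} {u : h.H 0 (absP S4)} (L : ℕ → Level h u)
  (sd : ∀ i, StepData i (L (i + 1)) (L i))

/-- [QB-A3b] total mass -/
theorem nu_mass (i : ℕ) {r : ℕ} (z : Fin r → (L (i + 1)).G) (μ : Fin r → ℝ)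
    (hμ : (Finset.univ.filter fun v => μ v ≠ 0).card ≤ mm (i + 1)) :
    ∑ a ∈ (L i).K.vert, nu L sd i z μ a = ∑ v, μ v := by
  classical
  unfold nu
  rw [Finset.sum_comm]
  have h1 : ∀ w ∈ Finset.range ((L (i + 1)).wn i),
      ∑ a ∈ (L i).K.vert, Lam L i z μ w * mw L sd i z μ w a = Lam L i z μ w := by
    intro w hw
    rw [Finset.mem_range] at hw
    rw [← Finset.mul_sum]
    by_cases h0 : Lam L i z μ w = 0
    · rw [h0, zero_mul]
    · have hs : 0 < sg L sd i z μ w :=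
        lt_of_lt_of_le (abs_pos.2 h0) (abs_Lam_le L sd i z μ w hw)
      rw [A9_aux.real_sum (A9_aux.mw_mem_real L sd i z μ hμ w hw hs), mul_one]
  rw [Finset.sum_congr rfl h1]
  unfold Lam
  rw [Finset.sum_comm]
  refine Finset.sum_congr rfl fun v _ => ?_
  rw [← Finset.mul_sum, (sd i).th_sum, mul_one]

end Pool.QB
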