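import Pool.Agent.MP_c51823_gt.QB.A10
import Pool.Agent.MP_c51823_gt.QB.A11
import Pool.Agent.MP_c51823_gt.QB.A12
import Pool.Agent.MP_c51823_gt.QB.A2a

/-!
# [QB-A3c] Proof: QB_PROOF.md section 10 (a), (b), (c): A12, A2a for `Ψ = Psi` (A10), A11 at `x` and at the ends of
the `n ≤ nn i` dipoles; `MM i = 4 (2 nn i + 1)`.
-/

set_option autoImplicit false
open Topology

namespace Pool.QB

namespace A3c_aux

theorem skel_three (K : Cx) {m : ℕ → ℝ} (hm : m ∈ (K.skel 3).real) (V : Finset ℕ) :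
    (V.filter fun a => m a ≠ 0).card ≤ 4 ∧ ∑ a ∈ V, |m a| ≤ 1 := by
  obtain ⟨s, hs, h0, h1, h2⟩ := hm
  have hs4 : s.card ≤ 4 := (Finset.mem_filter.1 hs).2
  have hsub : V.filter (fun a => m a ≠ 0) ⊆ s := by
    intro a ha
    by_contra hcon
    exact (Finset.mem_filter.1 ha).2 (h1 a hcon)
  refine ⟨(Finset.card_le_card hsub).trans hs4, ?_⟩
  calc ∑ a ∈ V, |m a| = ∑ a ∈ V.filter (fun a => m a ≠ 0), |m a| := by
        rw [Finset.sum_filter]
        refine Finset.sum_congr rfl fun a _ => ?_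
        split_ifs with h
        · rfl
        · rw [not_not.1 h, abs_zero]
    _ ≤ ∑ a ∈ s, |m a| := Finset.sum_le_sum_of_subset_of_nonneg hsub fun _ _ _ => abs_nonneg _
    _ = ∑ a ∈ s, m a := Finset.sum_congr rfl fun a _ => abs_of_nonneg (h0 a)
    _ = 1 := h2

/-- The combinatorial part. -/
theorem combine (V : Finset ℕ) {n N : ℕ} (hn : n ≤ N) (c : Fin n → ℝ) (C₀ : ℝ) (m₀ : ℕ → ℝ)
    (C₁ C₂ : Fin n → ℝ) (m₁ m₂ : Fin n → ℕ → ℝ)
    (h0 : 0 ≤ C₀ ∧ C₀ ≤ 1) (h1 : ∀ e, 0 ≤ C₁ e ∧ C₁ e ≤ 1) (h2 : ∀ e, 0 ≤ C₂ e ∧ C₂ e ≤ 1)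
    (k0 : (V.filter fun a => m₀ a ≠ 0).card ≤ 4 ∧ ∑ a ∈ V, |m₀ a| ≤ 1)
    (k1 : ∀ e, (V.filter fun a => m₁ e a ≠ 0).card ≤ 4 ∧ ∑ a ∈ V, |m₁ e a| ≤ 1)
    (k2 : ∀ e, (V.filter fun a => m₂ e a ≠ 0).card ≤ 4 ∧ ∑ a ∈ V, |m₂ e a| ≤ 1) :
    (V.filter fun a => C₀ * m₀ a - ∑ e, c e * (C₁ e * m₁ e a - C₂ e * m₂ e a) ≠ 0).card ≤
      4 * (2 * N + 1) ∧
    ∑ a ∈ V, |C₀ * m₀ a - ∑ e, c e * (C₁ e * m₁ e a - C₂ e * m₂ e a)| ≤ 1 + 2 * ∑ e, |c e| := by
  classical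
  constructor
  · have hsub : (V.filter fun a => C₀ * m₀ a - ∑ e, c e * (C₁ e * m₁ e a - C₂ e * m₂ e a) ≠ 0) ⊆
        (V.filter fun a => m₀ a ≠ 0) ∪ (Finset.univ.biUnion fun e : Fin n =>
          (V.filter fun a => m₁ e a ≠ 0) ∪ (V.filter fun a => m₂ e a ≠ 0)) := by
      intro a ha
      obtain ⟨haV, ha⟩ := Finset.mem_filter.1 ha
      by_contra hcon
      rw [Finset.mem_union, not_or] at hcon
      obtain ⟨g1, g2⟩ := hcon
      have e1 : m₀ a = 0 := by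
        by_contra h
        exact g1 (Finset.mem_filter.2 ⟨haV, h⟩)
      have e2 : ∀ e, m₁ e a = 0 := by
        intro e
        by_contra h
        exact g2 (Finset.mem_biUnion.2 ⟨e, Finset.mem_univ _,
          Finset.mem_union_left _ (Finset.mem_filter.2 ⟨haV, h⟩)⟩)
      have e3 : ∀ e, m₂ e a = 0 := by
        intro e
        by_contra h
        exact g2 (Finset.mem_biUnion.2 ⟨e, Finset.mem_univ _,
          Finset.mem_union_right _ (Finset.mem_filter.2 ⟨haV, h⟩)⟩)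
      apply ha
      rw [e1]
      simp [e2, e3]
    refine (Finset.card_le_card hsub).trans ((Finset.card_union_le _ _).trans ?_)
    have h3 : (Finset.univ.biUnion fun e : Fin n =>
        (V.filter fun a => m₁ e a ≠ 0) ∪ (V.filter fun a => m₂ e a ≠ 0)).card ≤ n * 8 := by
      refine Finset.card_biUnion_le.trans ?_
      have h4 : ∀ e ∈ (Finset.univ : Finset (Fin n)),
          ((V.filter fun a => m₁ e a ≠ 0) ∪ (V.filter fun a => m₂ e a ≠ 0)).card ≤ 8 := by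
        intro e _
        refine (Finset.card_union_le _ _).trans ?_
        have := (k1 e).1
        have := (k2 e).1
        omega
      refine (Finset.sum_le_sum h4).trans ?_
      rw [Finset.sum_const, Finset.card_univ, Fintype.card_fin, smul_eq_mul]
    have := k0.1
    omega
  · have hb : ∀ a, |C₀ * m₀ a - ∑ e, c e * (C₁ e * m₁ e a - C₂ e * m₂ e a)| ≤
        |m₀ a| + ∑ e, |c e| * (|m₁ e a| + |m₂ e a|) := by
      intro a
      refine (abs_sub _ _).trans (add_le_add ?_ ?_)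
      · rw [abs_mul, abs_of_nonneg h0.1]
        exact mul_le_of_le_one_left (abs_nonneg _) h0.2
      · refine (Finset.abs_sum_le_sum_abs _ _).trans (Finset.sum_le_sum fun e _ => ?_)
        rw [abs_mul]
        refine mul_le_mul_of_nonneg_left ((abs_sub _ _).trans (add_le_add ?_ ?_)) (abs_nonneg _)
        · rw [abs_mul, abs_of_nonneg (h1 e).1]
          exact mul_le_of_le_one_left (abs_nonneg _) (h1 e).2
        · rw [abs_mul, abs_of_nonneg (h2 e).1]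
          exact mul_le_of_le_one_left (abs_nonneg _) (h2 e).2
    refine (Finset.sum_le_sum fun a _ => hb a).trans ?_
    rw [Finset.sum_add_distrib, Finset.sum_comm, Finset.mul_sum]
    refine add_le_add k0.2 (Finset.sum_le_sum fun e _ => ?_)
    rw [← Finset.mul_sum, Finset.sum_add_distrib]
    have := (k1 e).2
    have := (k2 e).2
    nlinarith [abs_nonneg (c e)]

/-- The error part. -/
theorem error (V : Finset ℕ) {n : ℕ} (c : Fin n → ℝ) (P₀ Q₀ : ℕ → ℝ) (P₁ Q₁ P₂ Q₂ : Fin n → ℕ → ℝ)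
    (δ : ℝ) (h0 : ∑ a ∈ V, |P₀ a - Q₀ a| ≤ δ) (h1 : ∀ e, ∑ a ∈ V, |P₁ e a - Q₁ e a| ≤ δ)
    (h2 : ∀ e, ∑ a ∈ V, |P₂ e a - Q₂ e a| ≤ δ) :
    ∑ a ∈ V, |(P₀ a - ∑ e, c e * (P₁ e a - P₂ e a)) - (Q₀ a - ∑ e, c e * (Q₁ e a - Q₂ e a))| ≤
      (1 + 2 * ∑ e, |c e|) * δ := by
  have hb : ∀ a, |(P₀ a - ∑ e, c e * (P₁ e a - P₂ e a)) -
      (Q₀ a - ∑ e, c e * (Q₁ e a - Q₂ e a))| ≤
        |P₀ a - Q₀ a| + ∑ e, |c e| * (|P₁ e a - Q₁ e a| + |P₂ e a - Q₂ e a|) := by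
    intro a
    have he : (P₀ a - ∑ e, c e * (P₁ e a - P₂ e a)) - (Q₀ a - ∑ e, c e * (Q₁ e a - Q₂ e a)) =
        (P₀ a - Q₀ a) - ∑ e, c e * ((P₁ e a - Q₁ e a) - (P₂ e a - Q₂ e a)) := by
      have h3 : ∑ e, c e * ((P₁ e a - Q₁ e a) - (P₂ e a - Q₂ e a)) =
          ∑ e, c e * (P₁ e a - P₂ e a) - ∑ e, c e * (Q₁ e a - Q₂ e a) := by
        rw [← Finset.sum_sub_distrib]
        exact Finset.sum_congr rfl fun e _ => by ring
      rw [h3]
      ring
    rw [he]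
    refine (abs_sub _ _).trans (add_le_add le_rfl ?_)
    refine (Finset.abs_sum_le_sum_abs _ _).trans (Finset.sum_le_sum fun e _ => ?_)
    rw [abs_mul]
    exact mul_le_mul_of_nonneg_left (abs_sub _ _) (abs_nonneg _)
  refine (Finset.sum_le_sum fun a _ => hb a).trans ?_
  rw [Finset.sum_add_distrib, Finset.sum_comm, add_mul, one_mul, Finset.mul_sum, Finset.sum_mul]
  refine add_le_add h0 (Finset.sum_le_sum fun e _ => ?_)
  rw [← Finset.mul_sum, Finset.sum_add_distrib]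
  have := h1 e
  have := h2 e
  nlinarith [abs_nonneg (c e)]

end A3c_aux

variable {h : HT} {u : h.H 0 (absP S4)} (L : ℕ → Level h u)
  (sd : ∀ i, StepData i (L (i + 1)) (L i))

/-- [QB-A3c] main estimate, `i ≥ 1` -/
theorem nu_estimate (i : ℕ) (hi : 1 ≤ i) {r : ℕ} (z : Fin r → (L (i + 1)).G) (μ : Fin r → ℝ)
    (hμ : (Finset.univ.filter fun v => μ v ≠ 0).card ≤ mm (i + 1)) (hB : ∑ v, |μ v| ≤ BB (i + 1))
    (x : Lim L sd) (Y : Finset (Lim L sd)) (β : Lim L sd → ℝ) (E : ℝ)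
    (hrep : Rep Lim.U (Finsupp.single x (1 : ℝ) - ∑ y ∈ Y, β y • Finsupp.single y (1 : ℝ))
      (1 / 10))
    (hE : ∑ w ∈ Finset.range ((L (i + 1)).wn i), |Lam L i z μ w -
      ∑ y ∈ Y, β y * (L (i + 1)).th i w (Lim.p (i + 1) y)| ≤ E) :
    ∃ g : ℕ → ℝ, ((L i).K.vert.filter fun a => g a ≠ 0).card ≤ MM i ∧
      ∑ a ∈ (L i).K.vert, |g a| ≤ 1 + 2 * (4 ^ i / 100) ∧
      ∑ a ∈ (L i).K.vert, |nu L sd i z μ a - g a| ≤ E + 5 * ee i := by
  have h12 := nu_Psi L sd i z μ hμ Y β E hE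
  obtain ⟨n, c, s, t, hn, hc, hd⟩ := dipole Lim.U x Y β hrep (L i).K.vert (Psi L sd i z μ)
    (fun p => Psi_le L sd i z μ hμ p) i (fun j hj p p' hp => Psi_fine L sd i z μ hμ j hj p p' hp)
  have hnear := fun p => Psi_near L sd i z μ hμ hB p
  choose C m hC0 hC1 hm hsup hclose using hnear
  have hsk : ∀ p, (((L i).K.vert.filter fun a => m p a ≠ 0).card ≤ 4 ∧
      ∑ a ∈ (L i).K.vert, |m p a| ≤ 1) := fun p => A3c_aux.skel_three (L i).K (hm p) _
  obtain ⟨hg1, hg2⟩ := A3c_aux.combine (L i).K.vert hn c (C x) (m x) (fun e => C (s e))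
    (fun e => C (t e)) (fun e => m (s e)) (fun e => m (t e)) ⟨hC0 x, hC1 x⟩
    (fun e => ⟨hC0 _, hC1 _⟩) (fun e => ⟨hC0 _, hC1 _⟩) (hsk x) (fun e => hsk _) (fun e => hsk _)
  refine ⟨fun a => C x * m x a - ∑ e, c e * (C (s e) * m (s e) a - C (t e) * m (t e) a),
    hg1, hg2.trans (by linarith), ?_⟩
  have herr := A3c_aux.error (L i).K.vert c (Psi L sd i z μ x) (fun a => C x * m x a)
    (fun e => Psi L sd i z μ (s e)) (fun e a => C (s e) * m (s e) a)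
    (fun e => Psi L sd i z μ (t e)) (fun e a => C (t e) * m (t e) a)
    (ee i / (1 + 2 * (4 ^ i / 100))) (hclose x) (fun e => hclose _) (fun e => hclose _)
  have hee : 0 < ee i := by
    unfold ee
    positivity
  have hpos : (0 : ℝ) < 1 + 2 * (4 ^ i / 100) := by positivity
  have herr2 : (1 + 2 * ∑ e, |c e|) * (ee i / (1 + 2 * (4 ^ i / 100))) ≤ ee i := by
    have h3 : (1 + 2 * ∑ e, |c e|) * (ee i / (1 + 2 * (4 ^ i / 100))) ≤
        (1 + 2 * (4 ^ i / 100)) * (ee i / (1 + 2 * (4 ^ i / 100))) :=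
      mul_le_mul_of_nonneg_right (by linarith) (by positivity)
    have h4 : (1 + 2 * ((4 : ℝ) ^ i / 100)) * (ee i / (1 + 2 * (4 ^ i / 100))) = ee i := by
      field_simp
    rw [h4] at h3
    exact h3
  have htri : ∀ a ∈ (L i).K.vert, |nu L sd i z μ a -
      (C x * m x a - ∑ e, c e * (C (s e) * m (s e) a - C (t e) * m (t e) a))| ≤
      |nu L sd i z μ a - ∑ y ∈ Y, β y * Psi L sd i z μ y a| +
      |∑ y ∈ Y, β y * Psi L sd i z μ y a - (Psi L sd i z μ x a -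
        ∑ e, c e * (Psi L sd i z μ (s e) a - Psi L sd i z μ (t e) a))| +
      |(Psi L sd i z μ x a - ∑ e, c e * (Psi L sd i z μ (s e) a - Psi L sd i z μ (t e) a)) -
        (C x * m x a - ∑ e, c e * (C (s e) * m (s e) a - C (t e) * m (t e) a))| := by
    intro a _
    refine le_trans (le_of_eq ?_) (abs_add_three _ _ _)
    congr 1
    ring
  refine (Finset.sum_le_sum htri).trans ?_
  rw [Finset.sum_add_distrib, Finset.sum_add_distrib]
  linarith

end Pool.QB
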