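import Pool.Agent.MP_c51823_gt.QB.A10
import Pool.Agent.MP_c51823_gt.QB.A11
import Pool.Agent.MP_c51823_gt.QB.A12
import Pool.Agent.MP_c51823_gt.QB.A2b

/-!
# [QB-A3d] Proof: QB_PROOF.md section 10 (a), (b), (e): A12, A2b for `Ψ = Psi` (A10), A11 at `x`.
-/

set_option autoImplicit false
open Topology

namespace Pool.QB

variable {h : HT} {u : h.H 0 (absP S4)} (L : ℕ → Level h u)
  (sd : ∀ i, StepData i (L (i + 1)) (L i))

/-- [QB-A3d] main estimate, `i = 0` -/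
theorem nu_estimate_zero {r : ℕ} (z : Fin r → (L (0 + 1)).G) (μ : Fin r → ℝ)
    (hμ : (Finset.univ.filter fun v => μ v ≠ 0).card ≤ mm (0 + 1)) (hB : ∑ v, |μ v| ≤ BB (0 + 1))
    (x : Lim L sd) (Y : Finset (Lim L sd)) (β : Lim L sd → ℝ) (E : ℝ)
    (hrep : Rep Lim.U (Finsupp.single x (1 : ℝ) - ∑ y ∈ Y, β y • Finsupp.single y (1 : ℝ))
      (1 / 10))
    (hE : ∑ w ∈ Finset.range ((L (0 + 1)).wn 0), |Lam L 0 z μ w -
      ∑ y ∈ Y, β y * (L (0 + 1)).th 0 w (Lim.p (0 + 1) y)| ≤ E) :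
    ∃ (c : ℝ) (m : ℕ → ℝ), 0 ≤ c ∧ m ∈ ((L 0).K.skel 3).real ∧
      fsupp m ⊆ fsupp ((L 0).κ (Lim.p 0 x)).1 ∧
      ∑ a ∈ (L 0).K.vert, |nu L sd 0 z μ a - c * m a| ≤ E + 3 * ee 0 + 2 / 100 := by
  have h12 := nu_Psi L sd 0 z μ hμ Y β E hE
  have hd := dipole_zero Lim.U x Y β hrep (L 0).K.vert (Psi L sd 0 z μ)
    (fun p => Psi_le L sd 0 z μ hμ p) (fun j hj p p' hp => Psi_fine L sd 0 z μ hμ j hj p p' hp)
  obtain ⟨C, m, hC0, hC1, hm, hsup, hclose⟩ := Psi_near L sd 0 z μ hμ hB x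
  refine ⟨C, m, hC0, hm, hsup, ?_⟩
  have hee : 0 < ee 0 := by
    unfold ee
    positivity
  have hle : ee 0 / (1 + 2 * (4 ^ 0 / 100)) ≤ ee 0 := by
    apply div_le_self hee.le
    norm_num
  have htri : ∀ a ∈ (L 0).K.vert, |nu L sd 0 z μ a - C * m a| ≤
      |nu L sd 0 z μ a - ∑ y ∈ Y, β y * Psi L sd 0 z μ y a| +
      |∑ y ∈ Y, β y * Psi L sd 0 z μ y a - Psi L sd 0 z μ x a| +
      |Psi L sd 0 z μ x a - C * m a| := by
    intro a _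
    refine le_trans (le_of_eq ?_) (abs_add_three _ _ _)
    congr 1
    ring
  refine (Finset.sum_le_sum htri).trans ?_
  rw [Finset.sum_add_distrib, Finset.sum_add_distrib]
  linarith

end Pool.QB
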