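import Pool.Agent.MP_c51823_gt.QB.ADef
import Pool.Agent.MP_c51823_gt.QB.A2c
import Pool.Agent.MP_c51823_gt.QB.C2

/-!
# [QB-A4] Proof: QB_PROOF.md section 10 (d), last part.
-/

set_option autoImplicit false
open Topology

namespace Pool.QB

variable {h : HT} {u : h.H 0 (absP S4)} (L : ℕ → Level h u)
  (sd : ∀ i, StepData i (L (i + 1)) (L i))

namespace A4_aux

/-- a point of the realization is a probability vector on the vertices -/
theorem real_sum (K : Cx) {x : ℕ → ℝ} (hx : x ∈ K.real) : ∑ a ∈ K.vert, x a = 1 := by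
  obtain ⟨s, hs, _, h2, h3⟩ := hx
  rw [← h3]
  symm
  apply Finset.sum_subset
  · intro a ha
    exact Finset.mem_biUnion.2 ⟨s, hs, ha⟩
  · intro a _ ha
    exact h2 a ha

theorem real_nonneg (K : Cx) {x : ℕ → ℝ} (hx : x ∈ K.real) (a : ℕ) : 0 ≤ x a := by
  obtain ⟨s, hs, h1, _, _⟩ := hx
  exact h1 a

theorem abs_wts {m r : ℕ} {μ : Fin r → ℝ}
    (hμ : (Finset.univ.filter fun v => μ v ≠ 0).card ≤ m) : (fun v => |μ v|) ∈ Wts m := by
  refine ⟨fun v => abs_nonneg _, ?_⟩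
  have : (Finset.univ.filter fun v => |μ v| ≠ 0) = (Finset.univ.filter fun v => μ v ≠ 0) := by
    ext v; simp
  rw [this]; exact hμ

/-- the facts on `m_u` -/
theorem mw_facts (i : ℕ) {r : ℕ} (z : Fin r → (L (i + 1)).G) (μ : Fin r → ℝ)
    (hμ : (Finset.univ.filter fun v => μ v ≠ 0).card ≤ mm (i + 1)) (w : ℕ)
    (hw : w < (L (i + 1)).wn i) (v : Fin r) (hv : μ v * (L (i + 1)).th i w (z v) ≠ 0) :
    (∑ a ∈ (L i).K.vert, mw L sd i z μ w a = 1) ∧ (∀ a, 0 ≤ mw L sd i z μ w a) ∧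
      ∀ a, mw L sd i z μ w a ≠ 0 → ((L i).κ ((sd i).π (z v))).1 a ≠ 0 := by
  have h1 : μ v ≠ 0 := fun h0 => hv (by rw [h0, zero_mul])
  have h2 : (L (i + 1)).th i w (z v) ≠ 0 := fun h0 => hv (by rw [h0, mul_zero])
  have hsg : 0 < sg L sd i z μ w := by
    unfold sg
    refine lt_of_lt_of_le (abs_pos.2 h1) ?_
    have h3 : |μ v| = |μ v| * (sd i).χ w (z v) := by rw [(sd i).χ_one w (z v) h2, mul_one]
    rw [h3]
    exact Finset.single_le_sum (f := fun v => |μ v| * (sd i).χ w (z v))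
      (fun v _ => mul_nonneg (abs_nonneg _) ((sd i).χ_nonneg w (z v))) (Finset.mem_univ v)
  have hmw : mw L sd i z μ w = (sd i).sel z (fun v => |μ v|) w := by
    unfold mw
    rw [if_pos hsg]
  rw [hmw]
  have hW := abs_wts hμ
  have hm := (sd i).sel_mem z (fun v => |μ v|) w hw hW hsg
  have hs := (sd i).sel_supp z (fun v => |μ v|) w hw hW hsg (z v) h2
  rw [mem_skel_real] at hm
  refine ⟨real_sum _ hm.1, real_nonneg _ hm.1, ?_⟩
  intro a ha
  have h3 : a ∈ fsupp ((sd i).sel z (fun v => |μ v|) w) := (mem_fsupp _ hm.1 a).2 ha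
  exact (mem_fsupp _ ((L i).κ ((sd i).π (z v))).2 a).1 (hs h3)

end A4_aux

/-- [QB-A4] tests of `ν` (`i = i'+1`) -/
theorem nu_test (i' : ℕ) (k : ℕ) (hk : k ≤ i') {r : ℕ} (z : Fin r → (L (i' + 1 + 1)).G)
    (μ : Fin r → ℝ) (hμ : (Finset.univ.filter fun v => μ v ≠ 0).card ≤ mm (i' + 1 + 1))
    (hB : ∑ v, |μ v| ≤ BB (i' + 1 + 1)) :
    ∑ w ∈ Finset.range ((L (i' + 1)).wn k),
      |∑ a ∈ (L (i' + 1)).K.vert, nu L sd (i' + 1) z μ a * (L (i' + 1)).th k w ((L (i' + 1)).pt a) -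
        ∑ v, μ v * (L (i' + 1)).th k w ((sd (i' + 1)).π (z v))| ≤ ee (i' + 1) := by
  classical
  set W := Finset.range ((L (i' + 1 + 1)).wn (i' + 1)) with hWdef
  set W' := Finset.range ((L (i' + 1)).wn k) with hW'def
  set V := (L (i' + 1)).K.vert with hVdef
  set m : ℕ → ℕ → ℝ := fun w a => mw L sd (i' + 1) z μ w a with hm
  set φ : ℕ → Fin r → ℝ := fun w v => (L (i' + 1 + 1)).th (i' + 1) w (z v) with hφ
  set θ : ℕ → ℕ → ℝ := fun w a => (L (i' + 1)).th k w ((L (i' + 1)).pt a) with hθ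
  set θ' : ℕ → Fin r → ℝ := fun w v => (L (i' + 1)).th k w ((sd (i' + 1)).π (z v)) with hθ'
  have hφ0 : ∀ w v, 0 ≤ φ w v := fun w v => (sd (i' + 1)).th_nonneg w (z v)
  have hφ1 : ∀ v, ∑ w ∈ W, φ w v = 1 := fun v => (sd (i' + 1)).th_sum (z v)
  -- step B
  have hB1 : ∀ w ∈ W, ∀ v, μ v * φ w v ≠ 0 →
      ∑ w' ∈ W', |∑ a ∈ V, m w a * θ w' a - θ' w' v| ≤ om (i' + 1) / 2 := by
    intro w hw v hv
    obtain ⟨h1, h2, h3⟩ := A4_aux.mw_facts L sd (i' + 1) z μ hμ w (Finset.mem_range.1 hw) v hv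
    have h4 : ∀ w', |∑ a ∈ V, m w a * θ w' a - θ' w' v| ≤
        ∑ a ∈ V, m w a * |θ' w' v - θ w' a| := by
      intro w'
      have h5 : ∑ a ∈ V, m w a * θ w' a - θ' w' v = ∑ a ∈ V, m w a * (θ w' a - θ' w' v) := by
        simp only [mul_sub]
        rw [Finset.sum_sub_distrib, ← Finset.sum_mul, h1, one_mul]
      rw [h5]
      refine (Finset.abs_sum_le_sum_abs _ _).trans (Finset.sum_le_sum fun a _ => ?_)
      rw [abs_mul, abs_of_nonneg (h2 a), abs_sub_comm]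
    refine (Finset.sum_le_sum fun w' _ => h4 w').trans ?_
    rw [Finset.sum_comm]
    have h6 : ∀ a ∈ V, ∑ w' ∈ W', m w a * |θ' w' v - θ w' a| ≤ m w a * (om (i' + 1) / 2) := by
      intro a _
      rw [← Finset.mul_sum]
      by_cases ha : m w a = 0
      · rw [ha, zero_mul, zero_mul]
      · exact mul_le_mul_of_nonneg_left
          ((sd i').fine ((sd (i' + 1)).π (z v)) a (h3 a ha) k hk) (h2 a)
    refine (Finset.sum_le_sum h6).trans ?_
    rw [← Finset.sum_mul]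
    have h7 : ∑ a ∈ V, m w a = 1 := h1
    rw [h7, one_mul]
  -- the difference
  have hC : ∀ w', ∑ a ∈ V, nu L sd (i' + 1) z μ a * θ w' a - ∑ v, μ v * θ' w' v =
      ∑ w ∈ W, ∑ v, (μ v * φ w v) * (∑ a ∈ V, m w a * θ w' a - θ' w' v) := by
    intro w'
    have h1 : ∑ v, μ v * θ' w' v = ∑ w ∈ W, ∑ v, (μ v * φ w v) * θ' w' v := by
      rw [Finset.sum_comm]
      refine Finset.sum_congr rfl fun v _ => ?_
      have h2 : ∑ w ∈ W, μ v * φ w v * θ' w' v = μ v * θ' w' v * ∑ w ∈ W, φ w v := by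
        rw [Finset.mul_sum]
        exact Finset.sum_congr rfl fun w _ => by ring
      rw [h2, hφ1, mul_one]
    have h3 : ∑ a ∈ V, nu L sd (i' + 1) z μ a * θ w' a =
        ∑ w ∈ W, ∑ v, (μ v * φ w v) * ∑ a ∈ V, m w a * θ w' a := by
      have h4 : ∀ a, nu L sd (i' + 1) z μ a = ∑ w ∈ W, (∑ v, μ v * φ w v) * m w a := fun a => rfl
      simp only [h4]
      have h5 : ∀ w ∈ W, ∑ v, (μ v * φ w v) * ∑ a ∈ V, m w a * θ w' a =
          ∑ a ∈ V, (∑ v, μ v * φ w v) * m w a * θ w' a := by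
        intro w _
        rw [← Finset.sum_mul, Finset.mul_sum]
        exact Finset.sum_congr rfl fun a _ => by ring
      rw [Finset.sum_congr rfl h5, Finset.sum_comm]
      refine Finset.sum_congr rfl fun a _ => ?_
      rw [Finset.sum_mul]
    rw [h1, h3, ← Finset.sum_sub_distrib]
    refine Finset.sum_congr rfl fun w _ => ?_
    rw [← Finset.sum_sub_distrib]
    refine Finset.sum_congr rfl fun v _ => ?_
    ring
  have hD : ∀ w' ∈ W', |∑ a ∈ V, nu L sd (i' + 1) z μ a * θ w' a - ∑ v, μ v * θ' w' v| ≤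
      ∑ w ∈ W, ∑ v, (|μ v| * φ w v) * |∑ a ∈ V, m w a * θ w' a - θ' w' v| := by
    intro w' _
    rw [hC]
    refine (Finset.abs_sum_le_sum_abs _ _).trans (Finset.sum_le_sum fun w _ => ?_)
    refine (Finset.abs_sum_le_sum_abs _ _).trans (Finset.sum_le_sum fun v _ => ?_)
    rw [abs_mul, abs_mul, abs_of_nonneg (hφ0 w v)]
  refine (Finset.sum_le_sum hD).trans ?_
  rw [Finset.sum_comm]
  have hE : ∀ w ∈ W, ∑ w' ∈ W', ∑ v, (|μ v| * φ w v) * |∑ a ∈ V, m w a * θ w' a - θ' w' v| ≤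
      ∑ v, (|μ v| * φ w v) * (om (i' + 1) / 2) := by
    intro w hw
    rw [Finset.sum_comm]
    refine Finset.sum_le_sum fun v _ => ?_
    rw [← Finset.mul_sum]
    by_cases hv : μ v * φ w v = 0
    · have h0 : |μ v| * φ w v = 0 := by
        rw [← abs_of_nonneg (hφ0 w v), ← abs_mul, hv, abs_zero]
      rw [h0, zero_mul, zero_mul]
    · exact mul_le_mul_of_nonneg_left (hB1 w hw v hv) (mul_nonneg (abs_nonneg _) (hφ0 w v))
  refine (Finset.sum_le_sum hE).trans ?_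
  rw [Finset.sum_comm]
  have hF : ∀ v, ∑ w ∈ W, (|μ v| * φ w v) * (om (i' + 1) / 2) = |μ v| * (om (i' + 1) / 2) := by
    intro v
    have : ∑ w ∈ W, (|μ v| * φ w v) * (om (i' + 1) / 2) =
        |μ v| * (om (i' + 1) / 2) * ∑ w ∈ W, φ w v := by
      rw [Finset.mul_sum]
      exact Finset.sum_congr rfl fun w _ => by ring
    rw [this, hφ1, mul_one]
  simp only [hF]
  rw [← Finset.sum_mul]
  have hom := om_BB (i' + 1)
  have hompos : 0 ≤ om (i' + 1) := by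
    unfold om ee; positivity
  have hee : 0 ≤ ee (i' + 1) := by
    unfold ee; positivity
  have hG : (∑ v, |μ v|) * (om (i' + 1) / 2) ≤ BB (i' + 1 + 1) * (om (i' + 1) / 2) :=
    mul_le_mul_of_nonneg_right hB (by positivity)
  linarith

end Pool.QB
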