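import Pool.Agent.MP_c51823_gt.QB.ADef

/-!
# [QB-A5] `V_I = Y`, `I ≥ #Y` and `BB I ≥ sup ∑ |b_y|`.
-/

set_option autoImplicit false
open Topology

namespace Pool.QB

variable {h : HT} {u : h.H 0 (absP S4)} (L : ℕ → Level h u)
  (sd : ∀ i, StepData i (L (i + 1)) (L i))

/-- [QB-A5] start of the induction -/
theorem exists_start (Y : Finset (Lim L sd)) (b : Lim L sd → C(Lim L sd, ℝ)) :
    ∃ I : ℕ, 1 ≤ I ∧ Nonempty (St L sd Y b I 0) := by
  classical
  have hc : Continuous fun x : Lim L sd => ∑ y ∈ Y, |b y x| :=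
    continuous_finsetSum _ fun y _ => (b y).continuous.abs
  obtain ⟨M, hM⟩ : ∃ M : ℝ, ∀ x, ∑ y ∈ Y, |b y x| ≤ M := by
    obtain ⟨M, hM⟩ := (isCompact_range hc).bddAbove
    exact ⟨M, fun x => hM ⟨x, rfl⟩⟩
  obtain ⟨n, hn⟩ := exists_nat_ge M
  refine ⟨Y.card + n + 1, by omega, ⟨?_⟩⟩
  let e := Y.equivFin
  refine
    { r := Y.card
      z := fun v => Lim.p (Y.card + n + 1) (e.symm v).1
      μ := fun v => b (e.symm v).1
      card := ?_
      bound := ?_
      test := ?_ }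
  · intro x
    refine (Finset.card_filter_le _ _).trans ?_
    rw [Finset.card_univ, Fintype.card_fin]
    unfold mm
    have : 0 ≤ MM (Y.card + n + 1) * (1 + 10 ^ (Y.card + n + 1 + 4)) := Nat.zero_le _
    omega
  · intro x
    have h1 : ∑ v : Fin Y.card, |b (e.symm v).1 x| = ∑ y ∈ Y, |b y x| := by
      rw [← Finset.sum_coe_sort Y]
      exact Equiv.sum_comp e.symm (fun y : Y => |b y.1 x|)
    rw [h1]
    refine (hM x).trans (hn.trans ?_)
    unfold BB
    have h2 : ((Y.card + n + 1 : ℕ) : ℝ) ≤ 4 ^ (Y.card + n + 1) := by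
      have := Nat.lt_pow_self (show 1 < 4 by norm_num) (n := Y.card + n + 1)
      exact_mod_cast this.le
    have h3 : (n : ℝ) ≤ ((Y.card + n + 1 : ℕ) : ℝ) := by
      exact_mod_cast (by omega : n ≤ Y.card + n + 1)
    have h4 : (0 : ℝ) ≤ 4 ^ (Y.card + n + 1) := by positivity
    linarith
  · intro k _ x
    refine le_of_eq (Finset.sum_eq_zero fun w _ => ?_)
    have h1 : ∑ v : Fin Y.card, b (e.symm v).1 x *
        (L (Y.card + n + 1)).th k w (Lim.p (Y.card + n + 1) (e.symm v).1) =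
        ∑ y ∈ Y, b y x * (L (Y.card + n + 1)).th k w (Lim.p (Y.card + n + 1) y) := by
      rw [← Finset.sum_coe_sort Y]
      exact Equiv.sum_comp e.symm (fun y : Y => b y.1 x *
        (L (Y.card + n + 1)).th k w (Lim.p (Y.card + n + 1) y.1))
    rw [h1, sub_self, abs_zero]

end Pool.QB
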