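import Pool.Agent.MP_c51823_gt.QB.A1
import Pool.Agent.MP_c51823_gt.QB.A2c
import Pool.Agent.MP_c51823_gt.QB.A3a
import Pool.Agent.MP_c51823_gt.QB.A3c
import Pool.Agent.MP_c51823_gt.QB.A4
import Pool.Agent.MP_c51823_gt.QB.A0

/-!
# [QB-A6] Proof: QB_PROOF.md section 10 (d): threshold `τ = ee i / MM i`.
-/

set_option autoImplicit false
open Topology

namespace Pool.QB

variable {h : HT} {u : h.H 0 (absP S4)} (L : ℕ → Level h u)
  (sd : ∀ i, StepData i (L (i + 1)) (L i))

/-- sums over the enumeration of a finset -/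
theorem A6_aux.sum_enum (V : Finset ℕ) (F : ℕ → ℝ) :
    ∑ v : Fin V.card, F ((V.equivFin.symm v : V) : ℕ) = ∑ a ∈ V, F a := by
  rw [← Finset.sum_coe_sort V F]
  exact Equiv.sum_comp V.equivFin.symm (fun a : V => F (a : ℕ))

theorem A6_aux.card_enum (V : Finset ℕ) (F : ℕ → ℝ) :
    (Finset.univ.filter fun v : Fin V.card => F ((V.equivFin.symm v : V) : ℕ) ≠ 0).card =
      (V.filter fun a => F a ≠ 0).card := by
  refine Finset.card_bij (fun v _ => ((V.equivFin.symm v : V) : ℕ)) ?_ ?_ ?_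
  · intro v hv
    exact Finset.mem_filter.2 ⟨(V.equivFin.symm v).2, (Finset.mem_filter.1 hv).2⟩
  · intro v _ w _ hvw
    exact V.equivFin.symm.injective (Subtype.ext hvw)
  · intro a ha
    obtain ⟨h1, h2⟩ := Finset.mem_filter.1 ha
    refine ⟨V.equivFin ⟨a, h1⟩, Finset.mem_filter.2 ⟨Finset.mem_univ _, ?_⟩, ?_⟩
    · simpa using h2
    · simp

theorem A6_aux.ee_pos (i : ℕ) : 0 < ee i := by
  unfold ee; positivity

theorem A6_aux.MM_pos (i : ℕ) : (0 : ℝ) < MM i := by
  have : 0 < MM i := by unfold MM; positivity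
  exact_mod_cast this

theorem A6_aux.p_succ (i : ℕ) (y : Lim L sd) :
    (sd i).π (Lim.p (i + 1) y) = Lim.p i y := y.2 i

include sd in
/-- a change of the weights is seen by the tests at most by its total mass -/
theorem A6_aux.test_change (k i : ℕ) (hk : k + 1 ≤ i) (V : Finset ℕ) (P : ℕ → (L i).G)
    (d : ℕ → ℝ) :
    ∑ w ∈ Finset.range ((L i).wn k), |∑ a ∈ V, d a * (L i).th k w (P a)| ≤ ∑ a ∈ V, |d a| := by
  calc ∑ w ∈ Finset.range ((L i).wn k), |∑ a ∈ V, d a * (L i).th k w (P a)|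
      ≤ ∑ w ∈ Finset.range ((L i).wn k), ∑ a ∈ V, |d a| * (L i).th k w (P a) := by
        refine Finset.sum_le_sum fun w _ => (Finset.abs_sum_le_sum_abs _ _).trans ?_
        refine Finset.sum_le_sum fun a _ => ?_
        rw [abs_mul, abs_of_nonneg (th_nonneg_all L sd k i hk w (P a))]
    _ = ∑ a ∈ V, ∑ w ∈ Finset.range ((L i).wn k), |d a| * (L i).th k w (P a) :=
        Finset.sum_comm
    _ = ∑ a ∈ V, |d a| := by
        refine Finset.sum_congr rfl fun a _ => ?_
        rw [← Finset.mul_sum, th_sum_all L sd k i hk, mul_one]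

/-- [QB-A6] induction step `i+1 → i`, `i ≥ 1` -/
theorem St_step (Y : Finset (Lim L sd)) (b : Lim L sd → C(Lim L sd, ℝ))
    (happ : ∀ x, Rep Lim.U (Finsupp.single x (1 : ℝ) - ∑ y ∈ Y, b y x • Finsupp.single y (1 : ℝ))
      (1 / 10)) (i : ℕ) (hi : 1 ≤ i) (E : ℝ) (hE0 : 0 ≤ E) (hE : E + 5 * ee i ≤ 1)
    (s : St L sd Y b (i + 1) E) : Nonempty (St L sd Y b i (2 * E + 7 * ee i)) := by
  have hee := A6_aux.ee_pos i
  have hMM := A6_aux.MM_pos i
  set τ : ℝ := ee i / MM i with hτdef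
  have hτ : 0 < τ := div_pos hee hMM
  set V := (L i).K.vert with hV
  set ν : Lim L sd → ℕ → ℝ := fun x a => nu L sd i s.z (fun v => s.μ v x) a with hν
  -- the main estimate at each point
  have main : ∀ x, ∃ g : ℕ → ℝ, (V.filter fun a => g a ≠ 0).card ≤ MM i ∧
      ∑ a ∈ V, |g a| ≤ 1 + 2 * (4 ^ i / 100) ∧
      ∑ a ∈ V, |ν x a - g a| ≤ E + 5 * ee i := by
    intro x
    refine nu_estimate L sd i hi s.z (fun v => s.μ v x) (s.card x) (s.bound x) x Y
      (fun y => b y x) E (happ x) ?_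
    exact s.test i (Nat.lt_succ_self i) x
  have hcont : ∀ a, Continuous fun x => soft τ (ν x a) := fun a =>
    (continuous_soft τ).comp (continuous_nu L sd i s.z s.μ s.card a)
  refine ⟨⟨V.card, fun v => (L i).pt ((V.equivFin.symm v : V) : ℕ),
    fun v => ⟨fun x => soft τ (ν x ((V.equivFin.symm v : V) : ℕ)), hcont _⟩, ?_, ?_, ?_⟩⟩
  · intro x
    obtain ⟨g, hg1, hg2, hg3⟩ := main x
    have h1 := soft_count V (ν x) g (MM i) hg1 hτ hg3
    have h2 : (E + 5 * ee i) / τ ≤ MM i / ee i := by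
      rw [hτdef, div_div_eq_mul_div]
      gcongr
      nlinarith
    have h3 := (mm_ge i).1
    have h4 : ((V.filter fun a => soft τ (ν x a) ≠ 0).card : ℝ) ≤ mm i := by linarith
    have h5 : (V.filter fun a => soft τ (ν x a) ≠ 0).card ≤ mm i := by exact_mod_cast h4
    have h6 := A6_aux.card_enum V (fun a => soft τ (ν x a))
    exact (le_of_eq h6).trans h5
  · intro x
    obtain ⟨g, hg1, hg2, hg3⟩ := main x
    have h6 := A6_aux.sum_enum V (fun a => |soft τ (ν x a)|)
    refine (le_of_eq h6).trans ?_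
    calc ∑ a ∈ V, |soft τ (ν x a)| ≤ ∑ a ∈ V, (|g a| + |ν x a - g a|) := by
          refine Finset.sum_le_sum fun a _ => (abs_soft_le hτ.le _).trans ?_
          have := abs_add_le (g a) (ν x a - g a)
          simpa using this
      _ = ∑ a ∈ V, |g a| + ∑ a ∈ V, |ν x a - g a| := Finset.sum_add_distrib
      _ ≤ BB i := by
          have := BB_ge i
          linarith
  · intro k hk x
    obtain ⟨g, hg1, hg2, hg3⟩ := main x
    obtain ⟨i', rfl⟩ : ∃ i', i = i' + 1 := ⟨i - 1, by omega⟩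
    have hnt := nu_test L sd i' k (by omega) s.z (fun v => s.μ v x) (s.card x) (s.bound x)
    have hst := s.test k (by omega) x
    have hwn : (L (i' + 1 + 1)).wn k = (L (i' + 1)).wn k := (sd (i' + 1)).wn_eq k hk
    have hth : ∀ w, (L (i' + 1 + 1)).th k w = ((L (i' + 1)).th k w).comp (sd (i' + 1)).π :=
      (sd (i' + 1)).th_eq k hk
    have hsd := soft_dist V (ν x) g (MM (i' + 1)) hg1 hτ hg3
    have hch := A6_aux.test_change L sd k (i' + 1) (by omega) V (fun a => (L (i' + 1)).pt a)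
      (fun a => soft τ (ν x a) - ν x a)
    have hτM : τ * MM (i' + 1) = ee (i' + 1) := by
      rw [hτdef]; field_simp
    rw [hwn] at hst
    calc ∑ w ∈ Finset.range ((L (i' + 1)).wn k),
          |∑ v : Fin V.card, soft τ (ν x ((V.equivFin.symm v : V) : ℕ)) *
            (L (i' + 1)).th k w ((L (i' + 1)).pt ((V.equivFin.symm v : V) : ℕ)) -
            ∑ y ∈ Y, b y x * (L (i' + 1)).th k w (Lim.p (i' + 1) y)|
        ≤ ∑ w ∈ Finset.range ((L (i' + 1)).wn k),
          (|∑ a ∈ V, (soft τ (ν x a) - ν x a) * (L (i' + 1)).th k w ((L (i' + 1)).pt a)| +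
          |∑ a ∈ V, ν x a * (L (i' + 1)).th k w ((L (i' + 1)).pt a) -
            ∑ v, s.μ v x * (L (i' + 1)).th k w ((sd (i' + 1)).π (s.z v))| +
          |∑ v, s.μ v x * (L (i' + 1 + 1)).th k w (s.z v) -
            ∑ y ∈ Y, b y x * (L (i' + 1 + 1)).th k w (Lim.p (i' + 1 + 1) y)|) := by
          refine Finset.sum_le_sum fun w _ => ?_
          have e1 := A6_aux.sum_enum V (fun a => soft τ (ν x a) *
            (L (i' + 1)).th k w ((L (i' + 1)).pt a))
          rw [e1]
          have e2 : ∑ v, s.μ v x * (L (i' + 1 + 1)).th k w (s.z v) =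
              ∑ v, s.μ v x * (L (i' + 1)).th k w ((sd (i' + 1)).π (s.z v)) := by
            refine Finset.sum_congr rfl fun v _ => ?_
            rw [hth]; rfl
          have e3 : ∑ y ∈ Y, b y x * (L (i' + 1 + 1)).th k w (Lim.p (i' + 1 + 1) y) =
              ∑ y ∈ Y, b y x * (L (i' + 1)).th k w (Lim.p (i' + 1) y) := by
            refine Finset.sum_congr rfl fun y _ => ?_
            rw [hth]
            show b y x * (L (i' + 1)).th k w ((sd (i' + 1)).π (Lim.p (i' + 1 + 1) y)) = _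
            rw [A6_aux.p_succ]
          rw [e2, e3]
          have e4 : ∑ a ∈ V, (soft τ (ν x a) - ν x a) * (L (i' + 1)).th k w ((L (i' + 1)).pt a) =
              ∑ a ∈ V, soft τ (ν x a) * (L (i' + 1)).th k w ((L (i' + 1)).pt a) -
              ∑ a ∈ V, ν x a * (L (i' + 1)).th k w ((L (i' + 1)).pt a) := by
            rw [← Finset.sum_sub_distrib]
            exact Finset.sum_congr rfl fun a _ => by ring
          rw [e4]
          refine le_trans (le_of_eq ?_) (abs_add_three _ _ _)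
          congr 1
          ring
      _ = ∑ w ∈ Finset.range ((L (i' + 1)).wn k),
          |∑ a ∈ V, (soft τ (ν x a) - ν x a) * (L (i' + 1)).th k w ((L (i' + 1)).pt a)| +
          ∑ w ∈ Finset.range ((L (i' + 1)).wn k),
          |∑ a ∈ V, ν x a * (L (i' + 1)).th k w ((L (i' + 1)).pt a) -
            ∑ v, s.μ v x * (L (i' + 1)).th k w ((sd (i' + 1)).π (s.z v))| +
          ∑ w ∈ Finset.range ((L (i' + 1)).wn k),
          |∑ v, s.μ v x * (L (i' + 1 + 1)).th k w (s.z v) -
            ∑ y ∈ Y, b y x * (L (i' + 1 + 1)).th k w (Lim.p (i' + 1 + 1) y)| := by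
          rw [Finset.sum_add_distrib, Finset.sum_add_distrib]
      _ ≤ 2 * E + 7 * ee (i' + 1) := by
          have h1 : ∑ w ∈ Finset.range ((L (i' + 1)).wn k),
              |∑ a ∈ V, (soft τ (ν x a) - ν x a) * (L (i' + 1)).th k w ((L (i' + 1)).pt a)| ≤
              ee (i' + 1) + (E + 5 * ee (i' + 1)) := by
            refine hch.trans (hsd.trans ?_)
            rw [hτM]
          linarith

end Pool.QB
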