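import Pool.Agent.MP_c51823_gt.QB.A3a
import Pool.Agent.MP_c51823_gt.QB.A3b
import Pool.Agent.MP_c51823_gt.QB.A3d
import Pool.Agent.MP_c51823_gt.QB.C2
import Pool.Agent.MP_c51823_gt.QB.A0

/-!
# [QB-A7] Proof: QB_PROOF.md section 10 (e): threshold `1/20` and normalisation.
-/

set_option autoImplicit false
open Topology

namespace Pool.QB

variable {h : HT} {u : h.H 0 (absP S4)} (L : ℕ → Level h u)
  (sd : ∀ i, StepData i (L (i + 1)) (L i))

/-- a point of the realization has total mass one on the vertices -/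
theorem A7_aux.sum_vert (K : Cx) {m : ℕ → ℝ} (hm : m ∈ K.real) : ∑ a ∈ K.vert, m a = 1 := by
  obtain ⟨t, ht, h1, h2, h3⟩ := hm
  rw [← h3]
  symm
  refine Finset.sum_subset ?_ ?_
  · intro a ha
    exact Finset.mem_biUnion.2 ⟨t, ht, ha⟩
  · intro a _ ha
    exact h2 a ha

theorem A7_aux.fsupp_subset_vert (K : Cx) {m : ℕ → ℝ} (hm : m ∈ K.real) : fsupp m ⊆ K.vert := by
  intro a ha
  exact Finset.mem_biUnion.2 ⟨fsupp m, fsupp_mem K hm, ha⟩

/-- the pointwise statement: threshold and normalisation -/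
theorem A7_aux.pointwise (K : Cx) (ν : ℕ → ℝ) (c : ℝ) (m : ℕ → ℝ) (hc : 0 ≤ c)
    (hm : m ∈ (K.skel 3).real) (hd : ∑ a ∈ K.vert, |ν a - c * m a| ≤ 3 / 100)
    (hmass : 99 / 100 ≤ ∑ a ∈ K.vert, ν a) :
    0 < ∑ a ∈ K.vert, max (ν a - 1 / 20) 0 ∧
    (fun a => if a ∈ K.vert then max (ν a - 1 / 20) 0 / ∑ a ∈ K.vert, max (ν a - 1 / 20) 0 else 0)
      ∈ simp (fsupp m) := by
  have hmK : m ∈ K.real := ((mem_skel_real K 3).1 hm).1
  have hcard : (fsupp m).card ≤ 4 := ((mem_skel_real K 3).1 hm).2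
  have hsum := A7_aux.sum_vert K hmK
  have hsub := A7_aux.fsupp_subset_vert K hmK
  have hpt : ∀ a ∈ K.vert, |ν a - c * m a| ≤ 3 / 100 := fun a ha =>
    (Finset.single_le_sum (f := fun a => |ν a - c * m a|) (fun b _ => abs_nonneg _) ha).trans hd
  have hcbig : 96 / 100 ≤ c := by
    have h1 : ∑ a ∈ K.vert, ν a - ∑ a ∈ K.vert, c * m a ≤ 3 / 100 := by
      rw [← Finset.sum_sub_distrib]
      exact (Finset.sum_le_sum fun a _ => le_abs_self _).trans hd
    rw [← Finset.mul_sum, hsum, mul_one] at h1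
    linarith
  have hmsimp := mem_simp_fsupp K hmK
  obtain ⟨hm0, hmz, hm1⟩ := hmsimp
  -- some coordinate of `m` is at least `1/4`
  obtain ⟨a0, ha0, hbig⟩ : ∃ a ∈ fsupp m, 1 / 4 ≤ m a := by
    by_contra hcon
    push Not at hcon
    have hne : (fsupp m).Nonempty := fsupp_nonempty ⟨hm0, hmz, hm1⟩
    have h1 : ∑ a ∈ fsupp m, m a < ∑ a ∈ fsupp m, (1 / 4 : ℝ) :=
      Finset.sum_lt_sum_of_nonempty hne fun a ha => hcon a ha
    rw [hm1, Finset.sum_const, nsmul_eq_mul] at h1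
    have h2 : ((fsupp m).card : ℝ) ≤ 4 := by exact_mod_cast hcard
    linarith
  have hpos : 0 < ∑ a ∈ K.vert, max (ν a - 1 / 20) 0 := by
    refine Finset.sum_pos' (fun a _ => le_max_right _ _) ⟨a0, hsub ha0, ?_⟩
    have h1 := (abs_le.1 (hpt a0 (hsub ha0))).1
    have h2 : 96 / 100 * (1 / 4) ≤ c * m a0 := mul_le_mul hcbig hbig (by norm_num) hc
    exact lt_max_of_lt_left (by linarith)
  refine ⟨hpos, ?_, ?_, ?_⟩
  · intro a
    dsimp only
    split_ifs
    · exact div_nonneg (le_max_right _ _) hpos.le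
    · exact le_rfl
  · intro a ha
    dsimp only
    split_ifs with hav
    · have h1 := (abs_le.1 (hpt a hav)).2
      rw [hmz a ha, mul_zero, sub_zero] at h1
      rw [max_eq_right (by linarith), zero_div]
    · rfl
  · have h1 : ∑ a ∈ fsupp m, (if a ∈ K.vert then max (ν a - 1 / 20) 0 /
        ∑ a ∈ K.vert, max (ν a - 1 / 20) 0 else 0) =
        ∑ a ∈ K.vert, max (ν a - 1 / 20) 0 / ∑ a ∈ K.vert, max (ν a - 1 / 20) 0 := by
      have h2 : ∑ a ∈ fsupp m, (if a ∈ K.vert then max (ν a - 1 / 20) 0 /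
        ∑ a ∈ K.vert, max (ν a - 1 / 20) 0 else 0) = ∑ a ∈ fsupp m, max (ν a - 1 / 20) 0 /
        ∑ a ∈ K.vert, max (ν a - 1 / 20) 0 := by
        refine Finset.sum_congr rfl fun a ha => ?_
        rw [if_pos (hsub ha)]
      rw [h2]
      refine Finset.sum_subset hsub ?_
      intro a hav ha
      have h1 := (abs_le.1 (hpt a hav)).2
      rw [hmz a ha, mul_zero, sub_zero] at h1
      rw [max_eq_right (by linarith), zero_div]
    rw [h1, ← Finset.sum_div, div_self hpos.ne']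

/-- [QB-A7] final step -/
theorem St_final (hK : (L 0).K = Cx.bd (Finset.range 6)) (hκ : ∀ x, ((L 0).κ x).1 = ((L 0).f x).1)
    (Y : Finset (Lim L sd)) (b : Lim L sd → C(Lim L sd, ℝ)) (hb : ∀ x, ∑ y ∈ Y, b y x = 1)
    (happ : ∀ x, Rep Lim.U (Finsupp.single x (1 : ℝ) - ∑ y ∈ Y, b y x • Finsupp.single y (1 : ℝ))
      (1 / 10)) (s : St L sd Y b 1 (1 / 1000)) :
    ∃ g : C(Lim L sd, S4), ∀ x, (fsupp (g x).1).card ≤ 4 ∧
      fsupp (g x).1 ⊆ fsupp ((L 0).f (Lim.p 0 x)).1 := by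
  set K := (L 0).K with hKdef
  set ν : Lim L sd → ℕ → ℝ := fun x a => nu L sd 0 s.z (fun v => s.μ v x) a with hν
  have hcont : ∀ a, Continuous fun x => ν x a := fun a =>
    continuous_nu L sd 0 s.z s.μ s.card a
  have main : ∀ x, ∃ (c : ℝ) (m : ℕ → ℝ), 0 ≤ c ∧ m ∈ (K.skel 3).real ∧
      fsupp m ⊆ fsupp ((L 0).κ (Lim.p 0 x)).1 ∧
      ∑ a ∈ K.vert, |ν x a - c * m a| ≤ 1 / 1000 + 3 * ee 0 + 2 / 100 := fun x =>
    nu_estimate_zero L sd s.z (fun v => s.μ v x) (s.card x) (s.bound x) x Y (fun y => b y x)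
      (1 / 1000) (happ x) (s.test 0 (by norm_num) x)
  have hmass : ∀ x, 99 / 100 ≤ ∑ a ∈ K.vert, ν x a := by
    intro x
    have h1 : ∑ a ∈ K.vert, ν x a = ∑ v, s.μ v x :=
      nu_mass L sd 0 s.z (fun v => s.μ v x) (s.card x)
    have h2 := s.test 0 (by norm_num) x
    have h3 : |∑ w ∈ Finset.range ((L 1).wn 0), (∑ v, s.μ v x * (L 1).th 0 w (s.z v) -
        ∑ y ∈ Y, b y x * (L 1).th 0 w (Lim.p 1 y))| ≤ 1 / 1000 :=
      (Finset.abs_sum_le_sum_abs _ _).trans h2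
    have h4 : ∑ w ∈ Finset.range ((L 1).wn 0), (∑ v, s.μ v x * (L 1).th 0 w (s.z v) -
        ∑ y ∈ Y, b y x * (L 1).th 0 w (Lim.p 1 y)) = ∑ v, s.μ v x - 1 := by
      have e1 : ∑ w ∈ Finset.range ((L 1).wn 0), ∑ v, s.μ v x * (L 1).th 0 w (s.z v) =
          ∑ v, s.μ v x := by
        rw [Finset.sum_comm]
        refine Finset.sum_congr rfl fun v _ => ?_
        rw [← Finset.mul_sum, th_sum_all L sd 0 1 le_rfl, mul_one]
      have e2 : ∑ w ∈ Finset.range ((L 1).wn 0), ∑ y ∈ Y, b y x * (L 1).th 0 w (Lim.p 1 y) =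
          1 := by
        rw [Finset.sum_comm]
        refine Eq.trans (Finset.sum_congr rfl fun v _ => ?_) (hb x)
        rw [← Finset.mul_sum, th_sum_all L sd 0 1 le_rfl, mul_one]
      rw [Finset.sum_sub_distrib, e1, e2]
    rw [h4] at h3
    rw [h1]
    have := (abs_le.1 h3).1
    linarith
  have key : ∀ x, ∃ m : ℕ → ℝ, m ∈ (K.skel 3).real ∧
      fsupp m ⊆ fsupp ((L 0).κ (Lim.p 0 x)).1 ∧
      0 < ∑ a ∈ K.vert, max (ν x a - 1 / 20) 0 ∧
      (fun a => if a ∈ K.vert then max (ν x a - 1 / 20) 0 /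
        ∑ a ∈ K.vert, max (ν x a - 1 / 20) 0 else 0) ∈ simp (fsupp m) := by
    intro x
    obtain ⟨c, m, hc, hm, hsupp, hd⟩ := main x
    have hd' : ∑ a ∈ K.vert, |ν x a - c * m a| ≤ 3 / 100 := by
      refine hd.trans ?_
      unfold ee; norm_num
    obtain ⟨h1, h2⟩ := A7_aux.pointwise K (ν x) c m hc hm hd' (hmass x)
    exact ⟨m, hm, hsupp, h1, h2⟩
  have hmem : ∀ x, (fun a => if a ∈ K.vert then max (ν x a - 1 / 20) 0 /
        ∑ a ∈ K.vert, max (ν x a - 1 / 20) 0 else 0) ∈ S4 := by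
    intro x
    obtain ⟨m, hm, hsupp, h1, h2⟩ := key x
    have h3 : fsupp m ∈ K.S := fsupp_mem K ((mem_skel_real K 3).1 hm).1
    unfold S4
    rw [← hK]
    exact ⟨fsupp m, h3, h2⟩
  refine ⟨⟨fun x => ⟨_, hmem x⟩, ?_⟩, ?_⟩
  · refine Continuous.subtype_mk (continuous_pi fun a => ?_) _
    by_cases ha : a ∈ K.vert
    · simp only [ha, if_true]
      refine Continuous.div ?_ ?_ ?_
      · exact ((hcont a).sub continuous_const).max continuous_const
      · exact continuous_finsetSum _ fun a _ =>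
          ((hcont a).sub continuous_const).max continuous_const
      · intro x
        obtain ⟨m, hm, hsupp, h1, h2⟩ := key x
        exact h1.ne'
    · simp only [ha, if_false]
      exact continuous_const
  · intro x
    obtain ⟨m, hm, hsupp, h1, h2⟩ := key x
    have h3 := fsupp_subset_of_simp h2
    refine ⟨(Finset.card_le_card h3).trans ((mem_skel_real K 3).1 hm).2, ?_⟩
    refine h3.trans (hsupp.trans ?_)
    rw [hκ]

end Pool.QB
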