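import Pool.Agent.MP_c51823_gt.QB.A5
import Pool.Agent.MP_c51823_gt.QB.A6
import Pool.Agent.MP_c51823_gt.QB.A7

/-!
# [QB-A8] Assembly of the measure argument: `E_i = 2 E_{i+1} + 7 ee i`, `E_i ≤ 10 ee i`.
-/

set_option autoImplicit false
open Topology

namespace Pool.QB

variable {h : HT} {u : h.H 0 (absP S4)}

namespace A8_aux

theorem ee_succ (i : ℕ) : 10 * ee (i + 1) = ee i := by
  unfold ee
  rw [show i + 1 + 4 = (i + 4) + 1 by ring, pow_succ]
  ring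

theorem ee_pos (i : ℕ) : 0 < ee i := by unfold ee; positivity

theorem ee_le (i : ℕ) : ee i ≤ 1 / 10000 := by
  unfold ee
  rw [pow_add]
  have h1 : (1 / 10 : ℝ) ^ i ≤ 1 := pow_le_one₀ (by norm_num) (by norm_num)
  have h2 : (1 / 10 : ℝ) ^ 4 = 1 / 10000 := by norm_num
  rw [h2]
  linarith

end A8_aux

open A8_aux

/-- [QB-A8] The measure argument (section 10). -/
theorem measure_argument (L : ℕ → Level h u) (sd : ∀ i, StepData i (L (i + 1)) (L i))
    (hK : (L 0).K = Cx.bd (Finset.range 6)) (hκ : ∀ x, ((L 0).κ x).1 = ((L 0).f x).1)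
    (Y : Finset (Lim L sd)) (b : Lim L sd → C(Lim L sd, ℝ)) (hb : ∀ x, ∑ y ∈ Y, b y x = 1)
    (happ : ∀ x, Rep Lim.U (Finsupp.single x (1 : ℝ) - ∑ y ∈ Y, b y x • Finsupp.single y (1 : ℝ))
      (1 / 10)) :
    ∃ g : C(Lim L sd, S4), ∀ x, (fsupp (g x).1).card ≤ 4 ∧
      fsupp (g x).1 ⊆ fsupp ((L 0).f (Lim.p 0 x)).1 := by
  obtain ⟨I, hI, ⟨s0⟩⟩ := exists_start L sd Y b
  have key : ∀ d : ℕ, (∃ E : ℝ, 0 ≤ E ∧ E ≤ 10 * ee (d + 1) ∧ Nonempty (St L sd Y b (d + 1) E)) →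
      ∃ E : ℝ, 0 ≤ E ∧ E ≤ 10 * ee 1 ∧ Nonempty (St L sd Y b 1 E) := by
    intro d
    induction d with
    | zero => exact fun hE => hE
    | succ d ih =>
      rintro ⟨E, hE0, hE1, ⟨s⟩⟩
      apply ih
      have h1 : 10 * ee (d + 1 + 1) = ee (d + 1) := ee_succ (d + 1)
      have h2 := ee_pos (d + 1)
      have h3 := ee_le (d + 1)
      have h4 := St_step L sd Y b happ (d + 1) (by omega) E hE0 (by linarith) s
      exact ⟨2 * E + 7 * ee (d + 1), by positivity, by linarith, h4⟩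
  obtain ⟨d, rfl⟩ : ∃ d, I = d + 1 := ⟨I - 1, by omega⟩
  obtain ⟨E, hE0, hE1, ⟨s⟩⟩ := key d ⟨0, le_rfl, by have := ee_pos (d + 1); positivity, ⟨s0⟩⟩
  have h1 : E ≤ 1 / 1000 := by
    have := ee_le 1
    linarith
  exact St_final L sd hK hκ Y b hb happ
    { r := s.r, z := s.z, μ := s.μ, card := s.card, bound := s.bound,
      test := fun k hk x => (s.test k hk x).trans h1 }

end Pool.QB
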