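import Pool.Agent.MP_c51823_gt.QB.LimDef

/-!
# [QB] The measures `ν`: definitions
-/

set_option autoImplicit false
open Topology

namespace Pool.QB

variable {h : HT} {u : h.H 0 (absP S4)} (L : ℕ → Level h u)
  (sd : ∀ i, StepData i (L (i + 1)) (L i))

/-- `Λ_w` -/
noncomputable def Lam (i : ℕ) {r : ℕ} (z : Fin r → (L (i + 1)).G) (μ : Fin r → ℝ) (w : ℕ) : ℝ :=
  ∑ v, μ v * (L (i + 1)).th i w (z v)

/-- significance -/
noncomputable def sg (i : ℕ) {r : ℕ} (z : Fin r → (L (i + 1)).G) (μ : Fin r → ℝ) (w : ℕ) : ℝ :=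
  ∑ v, |μ v| * (sd i).χ w (z v)

open Classical in
/-- `m_w` -/
noncomputable def mw (i : ℕ) {r : ℕ} (z : Fin r → (L (i + 1)).G) (μ : Fin r → ℝ) (w : ℕ) :
    ℕ → ℝ :=
  if 0 < sg L sd i z μ w then (sd i).sel z (fun v => |μ v|) w else 0

/-- `ν` -/
noncomputable def nu (i : ℕ) {r : ℕ} (z : Fin r → (L (i + 1)).G) (μ : Fin r → ℝ) (a : ℕ) : ℝ :=
  ∑ w ∈ Finset.range ((L (i + 1)).wn i), Lam L i z μ w * mw L sd i z μ w a

/-- The induction statement at level `i` with error `E`. -/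
structure St (Y : Finset (Lim L sd)) (b : Lim L sd → C(Lim L sd, ℝ)) (i : ℕ) (E : ℝ) where
  r : ℕ
  z : Fin r → (L i).G
  μ : Fin r → C(Lim L sd, ℝ)
  card : ∀ x, (Finset.univ.filter fun v => μ v x ≠ 0).card ≤ mm i
  bound : ∀ x, ∑ v, |μ v x| ≤ BB i
  test : ∀ k < i, ∀ x, ∑ w ∈ Finset.range ((L i).wn k), |∑ v, μ v x * (L i).th k w (z v) -
    ∑ y ∈ Y, b y x * (L i).th k w (Lim.p i y)| ≤ E

/-- the significance threshold -/
noncomputable def eta (i : ℕ) : ℝ := ee i / ((mm (i + 1) + 1) * (sd i).D)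

/-- the significant part of the test functions, applied to the selected vectors -/
noncomputable def Psi (i : ℕ) {r : ℕ} (z : Fin r → (L (i + 1)).G) (μ : Fin r → ℝ)
    (x : Lim L sd) (a : ℕ) : ℝ :=
  ∑ w ∈ (Finset.range ((L (i + 1)).wn i)).filter (fun w => eta L sd i ≤ sg L sd i z μ w),
    (L (i + 1)).th i w (Lim.p (i + 1) x) * mw L sd i z μ w a

end Pool.QB
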