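import Mathlib

/-!
# [QB] The standard simplex `Dl n`, its boundary and its face maps
-/

set_option autoImplicit false
open Topology

namespace Pool.QB

/-- `Δ^n`. -/
abbrev Dl (n : ℕ) : Type := stdSimplex ℝ (Fin (n + 1))

/-- boundary of `Δ^n` -/
def bdD (n : ℕ) : Set (Dl n) := {x | ∃ i, x.1 i = 0}

theorem isClosed_bdD (n : ℕ) : IsClosed (bdD n) := by
  have : bdD n = ⋃ i : Fin (n + 1), {x : Dl n | x.1 i = 0} := by ext; simp [bdD]
  rw [this]
  refine isClosed_iUnion_of_finite fun i => ?_
  exact isClosed_eq ((continuous_apply i).comp continuous_subtype_val) continuous_const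

/-- The `i`-th face map `Δ^n → Δ^{n+1}`. -/
noncomputable def face {n : ℕ} (i : Fin (n + 2)) : C(Dl n, Dl (n + 1)) where
  toFun x := ⟨i.insertNth (0 : ℝ) x.1, by
    refine ⟨fun j => ?_, ?_⟩
    · refine Fin.succAboveCases i ?_ (fun k => ?_) j
      · simp
      · simpa using x.2.1 k
    · rw [Fin.sum_univ_succAbove _ i]
      simpa using x.2.2⟩
  continuous_toFun := by
    refine Continuous.subtype_mk ?_ _
    refine continuous_pi fun j => ?_
    refine Fin.succAboveCases i ?_ (fun k => ?_) j
    · simpa using continuous_const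
    · have : Continuous fun a : Dl n => a.1 k := (continuous_apply k).comp continuous_subtype_val
      simpa using this

/-- restriction of a map on the boundary to the `i`-th facet -/
noncomputable def bdFace {Y : Type} [TopologicalSpace Y] {n : ℕ} (f : C(bdD (n + 1), Y))
    (i : Fin (n + 2)) : C(Dl n, Y) :=
  ⟨fun x => f ⟨face i x, ⟨i, by simp [face]⟩⟩, by
    exact f.continuous.comp (Continuous.subtype_mk (face i).continuous _)⟩

/-- `Y` is `(t-1)`-connected. -/
def Conn (Y : Type) [TopologicalSpace Y] (t : ℕ) : Prop :=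
  Nonempty Y ∧ ∀ k < t, ∀ f : C(bdD (k + 1), Y), ∃ F : C(Dl (k + 1), Y), ∀ x, F x.1 = f x

end Pool.QB
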