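import Pool.Agent.MP_c51823_gt.QB.Core
import Pool.Agent.MP_c51823_gt.QB.Simplex

/-!
# [QB] Simplices, suspension pairs: definitions (QB_PROOF.md section 2)
-/

set_option autoImplicit false
open Topology

namespace Pool.QB

/-- The pair `Y × (Δ^n, ∂Δ^n)`. -/
def SP (Y : Type) [TopologicalSpace Y] [CompactSpace Y] [T2Space Y] (n : ℕ) : CPair :=
  ⟨Y × Dl n, {p | p.2 ∈ bdD n}, (isClosed_bdD n).preimage continuous_snd⟩

/-- functoriality of `SP` in `Y` -/
def SPmap {Y Y' : Type} [TopologicalSpace Y] [CompactSpace Y] [T2Space Y] [TopologicalSpace Y']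
    [CompactSpace Y'] [T2Space Y'] (g : C(Y', Y)) (n : ℕ) : CPair.Map (SP Y' n) (SP Y n) :=
  ⟨⟨fun p => (g p.1, p.2), by fun_prop⟩, fun _ h => h⟩

section
variable {X : Type} [TopologicalSpace X] [CompactSpace X] [T2Space X]

/-- the pair `(B, A ∩ B)` -/
def subP (B A : Set X) (hB : IsClosed B) (hA : IsClosed A) : CPair :=
  haveI : CompactSpace B := isCompact_iff_compactSpace.mp hB.isCompact
  ⟨B, Subtype.val ⁻¹' A, hA.preimage continuous_subtype_val⟩

/-- the inclusion `(B, A ∩ B) → (X, A)` -/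
def subPi (B A : Set X) (hB : IsClosed B) (hA : IsClosed A) :
    CPair.Map (subP B A hB hA) ⟨X, A, hA⟩ :=
  ⟨⟨Subtype.val, continuous_subtype_val⟩, fun _ h => h⟩
end

/-! ## Suspension isomorphisms -/

section
variable (Y : Type) [TopologicalSpace Y] [CompactSpace Y] [T2Space Y]

/-- the triple `(Y × Δ^{n+1}, Y × ∂Δ^{n+1}, Y × horn_i)` where `horn_i` is the union of all facets
except the `i`-th one. -/
def hornT (n : ℕ) (i : Fin (n + 2)) : CTriple where
  X := Y × Dl (n + 1)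
  B := {p | p.2 ∈ bdD (n + 1)}
  A := {p | ∃ j, j ≠ i ∧ p.2.1 j = 0}
  closedB := (isClosed_bdD _).preimage continuous_snd
  closedA := by
    have : {p : Y × Dl (n + 1) | ∃ j, j ≠ i ∧ p.2.1 j = 0}
        = ⋃ j : {j : Fin (n + 2) // j ≠ i}, {p : Y × Dl (n + 1) | p.2.1 j.1 = 0} := by
      ext; simp
    rw [this]
    refine isClosed_iUnion_of_finite fun j => ?_
    exact isClosed_eq ((continuous_apply j.1).comp (continuous_subtype_val.comp continuous_snd))
      continuous_const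
  sub := fun p ⟨j, _, hj⟩ => ⟨j, hj⟩

/-- `Y × (Δ^n, ∂Δ^n) → Y × (∂Δ^{n+1}, horn_i)`, the inclusion of the `i`-th facet. -/
noncomputable def toHorn (n : ℕ) (i : Fin (n + 2)) : CPair.Map (SP Y n) (hornT Y n i).BA :=
  ⟨⟨fun p => ⟨(p.1, face i p.2), ⟨i, by simp [face]⟩⟩, by
      exact Continuous.subtype_mk (by fun_prop) _⟩,
    fun p hp => by
      obtain ⟨j, hj⟩ := hp
      exact ⟨i.succAbove j, Fin.succAbove_ne i j, by simpa [face] using hj⟩⟩
end

/-- The map of pairs `Y × (Δ^n, ∂Δ^n) → (B, A)` obtained by restricting `χ` to the `i`-th facet. -/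
noncomputable def faceRestr {Y : Type} [TopologicalSpace Y] [CompactSpace Y] [T2Space Y] {n : ℕ}
    {T : CTriple} (χ : C(Y × Dl (n + 1), T.X))
    (hB : ∀ (y : Y) (x : Dl (n + 1)), (∃ i, x.1 i = 0) → χ (y, x) ∈ T.B)
    (hA : ∀ (y : Y) (x : Dl (n + 1)), (∃ i j, i ≠ j ∧ x.1 i = 0 ∧ x.1 j = 0) → χ (y, x) ∈ T.A)
    (i : Fin (n + 2)) : CPair.Map (SP Y n) T.BA :=
  ⟨⟨fun p => ⟨χ (p.1, face i p.2), hB _ _ ⟨i, by simp [face]⟩⟩, by
      exact Continuous.subtype_mk (by fun_prop) _⟩,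
    fun p hp => by
      obtain ⟨j, hj⟩ := hp
      exact hA _ _ ⟨i, i.succAbove j, (Fin.succAbove_ne i j).symm, by simp [face],
        by simpa [face] using hj⟩⟩

end Pool.QB
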