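import Pool.Agent.MP_c51823_gt.QB.C2
import Pool.Agent.MP_c51823_gt.QB.FDef

/-!
# [QB] affine simplices: definition of the coordinates
-/

set_option autoImplicit false
open Topology

namespace Pool.QB

/-- coordinates of the affine simplex `[v_0, …, v_n]` -/
def affV {n : ℕ} (v : Fin (n + 1) → ℕ) (x : Fin (n + 1) → ℝ) : ℕ → ℝ := fun i =>
  ∑ j, if v j = i then x j else 0

end Pool.QB
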