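import Pool.Agent.MP_c51823_gt.QB.BDef

/-!
# [QB-B1] Properties of the colourings, QB_PROOF.md 6.2
-/

set_option autoImplicit false
open Topology

namespace Pool.QB

theorem continuous_shf (A₀ r : ℕ) (b : Fin 5) : Continuous fun v => shf A₀ r v b := by
  unfold shf
  fun_prop

theorem col_max (A₀ r : ℕ) (v : Fin 5 → ℝ) (c : Fin 5) :
    shf A₀ r v c ≤ shf A₀ r v (col A₀ r v) :=
  (Finite.exists_max (shf A₀ r v)).choose_spec c

theorem col_eq_of_lt {A₀ r : ℕ} {v : Fin 5 → ℝ} {b : Fin 5}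
    (h : ∀ c, c ≠ b → shf A₀ r v c < shf A₀ r v b) : col A₀ r v = b := by
  by_contra hne
  exact absurd (col_max A₀ r v b) (not_le.2 (h _ hne))

theorem not_mem_Dr_of_lt {A₀ r : ℕ} {v : Fin 5 → ℝ} {b : Fin 5}
    (h : ∀ c, c ≠ b → shf A₀ r v c < shf A₀ r v b) : v ∉ Dr A₀ r := by
  rintro ⟨c, c', hcc, heq, hmax⟩
  have hc : c = b := by
    by_contra hne
    exact absurd (hmax b) (not_le.2 (h _ hne))
  have hc' : c' = b := by
    by_contra hne
    have := hmax b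
    rw [heq] at this
    exact absurd this (not_le.2 (h _ hne))
  exact hcc (hc.trans hc'.symm)

/-- [QB-B1] Properties of the colourings. -/
theorem isClosed_Dr (A₀ r : ℕ) : IsClosed (Dr A₀ r) := by
  have h1 : Dr A₀ r = ⋃ b : Fin 5, ⋃ b' : Fin 5, {v | b ≠ b' ∧ shf A₀ r v b = shf A₀ r v b' ∧
      ∀ c, shf A₀ r v c ≤ shf A₀ r v b} := by
    ext v
    simp only [Set.mem_iUnion, Set.mem_setOf_eq, Dr]
  rw [h1]
  refine isClosed_iUnion_of_finite fun b => isClosed_iUnion_of_finite fun b' => ?_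
  by_cases hb : b = b'
  · have : {v | b ≠ b' ∧ shf A₀ r v b = shf A₀ r v b' ∧ ∀ c, shf A₀ r v c ≤ shf A₀ r v b} = ∅ := by
      ext v
      simp [hb]
    rw [this]
    exact isClosed_empty
  · have : {v | b ≠ b' ∧ shf A₀ r v b = shf A₀ r v b' ∧ ∀ c, shf A₀ r v c ≤ shf A₀ r v b} =
        {v | shf A₀ r v b = shf A₀ r v b'} ∩ ⋂ c, {v | shf A₀ r v c ≤ shf A₀ r v b} := by
      ext v
      simp [hb]
    rw [this]
    exact (isClosed_eq (continuous_shf _ _ _) (continuous_shf _ _ _)).inter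
      (isClosed_iInter fun c => isClosed_le (continuous_shf _ _ _) (continuous_shf _ _ _))

theorem col_locconst (A₀ r : ℕ) (v : Fin 5 → ℝ) (hv : v ∉ Dr A₀ r) :
    ∀ᶠ w in 𝓝 v, col A₀ r w = col A₀ r v := by
  have h1 : ∀ c, c ≠ col A₀ r v → shf A₀ r v c < shf A₀ r v (col A₀ r v) := by
    intro c hc
    refine lt_of_le_of_ne (col_max A₀ r v c) fun heq => hv ?_
    exact ⟨col A₀ r v, c, hc.symm, heq.symm, col_max A₀ r v⟩
  have h2 : ∀ c, ∀ᶠ w in 𝓝 v, c ≠ col A₀ r v → shf A₀ r w c < shf A₀ r w (col A₀ r v) := by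
    intro c
    by_cases hc : c = col A₀ r v
    · exact Filter.Eventually.of_forall fun w h => absurd hc h
    · have := (isOpen_lt (continuous_shf A₀ r c) (continuous_shf A₀ r (col A₀ r v))).mem_nhds
        (h1 c hc)
      filter_upwards [this] with w hw _
      exact hw
  have h3 := Filter.eventually_all.2 h2
  filter_upwards [h3] with w hw
  exact col_eq_of_lt hw

theorem eps_small (A₀ r : ℕ) (hr : r ≤ 10 * A₀) (b : Fin 5) :
    0 ≤ (r : ℝ) * (b : ℝ) / (200 * (A₀ + 1)) ∧ (r : ℝ) * (b : ℝ) / (200 * (A₀ + 1)) ≤ 1 / 5 := by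
  have h1 : (r : ℝ) ≤ 10 * A₀ := by exact_mod_cast hr
  have h2 : ((b : ℕ) : ℝ) ≤ 4 := by
    have : (b : ℕ) ≤ 4 := by omega
    exact_mod_cast this
  have h3 : (0 : ℝ) ≤ A₀ := Nat.cast_nonneg _
  have h4 : (0 : ℝ) ≤ r := Nat.cast_nonneg _
  have h5 : (0 : ℝ) ≤ ((b : ℕ) : ℝ) := Nat.cast_nonneg _
  refine ⟨by positivity, ?_⟩
  rw [div_le_iff₀ (by positivity)]
  have : (r : ℝ) * ((b : ℕ) : ℝ) ≤ 10 * A₀ * 4 := mul_le_mul h1 h2 h5 (by positivity)
  linarith

theorem col_star (A₀ r : ℕ) (hr : r ≤ 10 * A₀) : star ∉ Dr A₀ r ∧ col A₀ r star = 4 := by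
  have h1 : ∀ c, c ≠ (4 : Fin 5) → shf A₀ r star c < shf A₀ r star 4 := by
    intro c hc
    have h2 : star c = 0 := by
      unfold star
      rw [Pi.single_eq_of_ne hc]
    have h3 : star (4 : Fin 5) = 1 := by
      unfold star
      rw [Pi.single_eq_same]
    unfold shf
    rw [h2, h3]
    have h4 := (eps_small A₀ r hr c).1
    have h5 := (eps_small A₀ r hr 4).2
    linarith
  exact ⟨not_mem_Dr_of_lt h1, col_eq_of_lt h1⟩

theorem col_supp (A₀ r : ℕ) (hr : r ≤ 10 * A₀) (v : Fin 5 → ℝ) (hv : v ∈ Yset) :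
    v (col A₀ r v) ≠ 0 := by
  intro h0
  obtain ⟨h1, h2, i, hi⟩ := hv
  have h3 : ∀ c, v c < 1 / 4 := by
    intro c
    have h4 := col_max A₀ r v c
    unfold shf at h4
    rw [h0] at h4
    have h5 := (eps_small A₀ r hr (col A₀ r v)).1
    have h6 := (eps_small A₀ r hr c).2
    linarith
  have h7 : ∑ c, v c < 1 := by
    have h8 : ∑ c, v c = ∑ c ∈ Finset.univ.erase i, v c := by
      rw [← Finset.add_sum_erase Finset.univ v (Finset.mem_univ i), hi, zero_add]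
    rw [h8]
    have h9 : (Finset.univ.erase i).card = 4 := by
      rw [Finset.card_erase_of_mem (Finset.mem_univ _)]
      rfl
    have h10 : (Finset.univ.erase i).Nonempty := by
      rw [← Finset.card_pos, h9]
      norm_num
    calc ∑ c ∈ Finset.univ.erase i, v c < ∑ c ∈ Finset.univ.erase i, (1 / 4 : ℝ) :=
          Finset.sum_lt_sum_of_nonempty h10 fun c _ => h3 c
      _ = 1 := by rw [Finset.sum_const, h9]; norm_num
  linarith

theorem exists_free (A₀ : ℕ) (M : Multiset (Fin 5 → ℝ)) (hM : M.card ≤ A₀) :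
    ∃ r ≤ 10 * A₀, ∀ v ∈ M, v ∉ Dr A₀ r := by
  classical
  by_contra hcon
  push Not at hcon
  -- for every `r` a vector and a pair
  have h1 : ∀ r : ℕ, r ≤ 10 * A₀ → ∃ q : (Fin 5 → ℝ) × (Fin 5 × Fin 5), q.1 ∈ M ∧ q.2.1 < q.2.2 ∧
      shf A₀ r q.1 q.2.1 = shf A₀ r q.1 q.2.2 := by
    intro r hr
    obtain ⟨v, hv, b, b', hbb, heq, _⟩ := hcon r hr
    rcases lt_or_gt_of_ne hbb with h | h
    · exact ⟨(v, b, b'), hv, h, heq⟩
    · exact ⟨(v, b', b), hv, h, heq.symm⟩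
  choose! q hq1 hq2 hq3 using h1
  let P : Finset (Fin 5 × Fin 5) := Finset.univ.filter fun p => p.1 < p.2
  have hP : P.card = 10 := by decide
  have hmaps : ∀ r ∈ Finset.range (10 * A₀ + 1), q r ∈ M.toFinset ×ˢ P := by
    intro r hr
    have hr' : r ≤ 10 * A₀ := Nat.lt_succ_iff.1 (Finset.mem_range.1 hr)
    rw [Finset.mem_product, Multiset.mem_toFinset, Finset.mem_filter]
    exact ⟨hq1 r hr', Finset.mem_univ _, hq2 r hr'⟩
  have hinj : Set.InjOn q (Finset.range (10 * A₀ + 1)) := by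
    intro r hr r' hr' heq
    have hr1 : r ≤ 10 * A₀ := Nat.lt_succ_iff.1 (Finset.mem_range.1 (Finset.mem_coe.1 hr))
    have hr2 : r' ≤ 10 * A₀ := Nat.lt_succ_iff.1 (Finset.mem_range.1 (Finset.mem_coe.1 hr'))
    have e1 := hq3 r hr1
    have e2 := hq3 r' hr2
    have hlt := hq2 r hr1
    rw [← heq] at e2
    unfold shf at e1 e2
    have hpos : (0 : ℝ) < 200 * ((A₀ : ℝ) + 1) := by positivity
    have hb : (((q r).2.1 : ℕ) : ℝ) < (((q r).2.2 : ℕ) : ℝ) := by exact_mod_cast hlt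
    have e3 : (r : ℝ) * ((((q r).2.2 : ℕ) : ℝ) - (((q r).2.1 : ℕ) : ℝ)) =
        (r' : ℝ) * ((((q r).2.2 : ℕ) : ℝ) - (((q r).2.1 : ℕ) : ℝ)) := by
      have f1 : (r : ℝ) * (((q r).2.2 : ℕ) : ℝ) / (200 * ((A₀ : ℝ) + 1)) -
          (r : ℝ) * (((q r).2.1 : ℕ) : ℝ) / (200 * ((A₀ : ℝ) + 1)) =
          (r' : ℝ) * (((q r).2.2 : ℕ) : ℝ) / (200 * ((A₀ : ℝ) + 1)) -
          (r' : ℝ) * (((q r).2.1 : ℕ) : ℝ) / (200 * ((A₀ : ℝ) + 1)) := by linarith
      rw [← sub_div, ← sub_div, div_left_inj' hpos.ne'] at f1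
      linarith
    have h4 := mul_right_cancel₀ (sub_ne_zero.2 hb.ne') e3
    exact_mod_cast h4
  have hcard := Finset.card_le_card_of_injOn q hmaps hinj
  rw [Finset.card_range, Finset.card_product, hP] at hcard
  have := (Multiset.toFinset_card_le M).trans hM
  omega

end Pool.QB
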