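import Pool.Agent.MP_c51823_gt.QB.Core

/-!
# [QB-B5] Nerve + partition of unity. `K` = sets `s` of codes with a common point of the `V w`;
`κ(x)_{code w} = f_w(x)`, `f` a partition of unity subordinate to `V` (`PartitionOfUnity`, normal space).
-/

set_option autoImplicit false
open Topology

namespace Pool.QB

/-- [QB-B5] The nerve of a finite open cover as a complex with prescribed vertex codes, and a
subordinate partition of unity as a map to its realization. -/
theorem exists_nerve {T : Type} [TopologicalSpace T] [CompactSpace T] [T2Space T] {r : ℕ}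
    (V : Fin r → Set T) (hV : ∀ w, IsOpen (V w)) (hcov : ∀ x, ∃ w, x ∈ V w) (code : Fin r → ℕ)
    (hcode : Function.Injective code) :
    ∃ (K : Cx) (κ : C(T, K.real)),
      (∀ s ∈ K.S, (∀ i ∈ s, ∃ w, code w = i) ∧ ∃ x, ∀ w, code w ∈ s → x ∈ V w) ∧
      ∀ (x : T) (i : ℕ), (κ x).1 i ≠ 0 → ∃ w, code w = i ∧ x ∈ V w := by
  classical
  obtain ⟨f, hf⟩ := PartitionOfUnity.exists_isSubordinate (s := (Set.univ : Set T)) isClosed_univ V
    hV (fun x _ => Set.mem_iUnion.2 (hcov x))
  have hsum : ∀ x, ∑ w, f w x = 1 := by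
    intro x
    rw [← finsum_eq_sum_of_fintype]
    exact f.sum_eq_one (Set.mem_univ x)
  have hfV : ∀ w x, f w x ≠ 0 → x ∈ V w := fun w x h => hf w (subset_tsupport _ h)
  let K : Cx :=
    { S := (Finset.univ.image code).powerset.filter
        fun s => s.Nonempty ∧ ∃ x : T, ∀ w, code w ∈ s → x ∈ V w
      ne := fun s hs => (Finset.mem_filter.1 hs).2.1
      down := fun s hs t ht hn => by
        obtain ⟨h1, _, x, hx⟩ := Finset.mem_filter.1 hs
        exact Finset.mem_filter.2 ⟨Finset.mem_powerset.2 (ht.trans (Finset.mem_powerset.1 h1)), hn,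
          x, fun w hw => hx w (ht hw)⟩ }
  let k : T → ℕ → ℝ := fun x i => ∑ w, if code w = i then f w x else 0
  have hk0 : ∀ x i, k x i ≠ 0 → ∃ w, code w = i ∧ f w x ≠ 0 := by
    intro x i h
    obtain ⟨w, _, hw⟩ := Finset.exists_ne_zero_of_sum_ne_zero h
    by_cases hc : code w = i
    · refine ⟨w, hc, ?_⟩
      simpa [hc] using hw
    · simp [hc] at hw
  have hkmem : ∀ x, k x ∈ K.real := by
    intro x
    refine ⟨(Finset.univ.filter fun w => f w x ≠ 0).image code, ?_, ?_, ?_, ?_⟩
    · refine Finset.mem_filter.2 ⟨Finset.mem_powerset.2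
        (Finset.image_subset_image (Finset.filter_subset _ _)), ?_, x, ?_⟩
      · have : ∃ w, f w x ≠ 0 := by
          by_contra hcon
          push Not at hcon
          have := hsum x
          simp [hcon] at this
        obtain ⟨w, hw⟩ := this
        exact ⟨code w, Finset.mem_image_of_mem _ (Finset.mem_filter.2 ⟨Finset.mem_univ _, hw⟩)⟩
      · intro w hw
        obtain ⟨w', hw', he⟩ := Finset.mem_image.1 hw
        rw [← hcode he]
        exact hfV _ _ (Finset.mem_filter.1 hw').2
    · intro i
      refine Finset.sum_nonneg fun w _ => ?_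
      split_ifs
      · exact f.nonneg w x
      · exact le_rfl
    · intro i hi
      by_contra hne
      obtain ⟨w, hw, hw'⟩ := hk0 x i hne
      exact hi (Finset.mem_image.2 ⟨w, Finset.mem_filter.2 ⟨Finset.mem_univ _, hw'⟩, hw⟩)
    · change ∑ i ∈ _, ∑ w, (if code w = i then f w x else 0) = 1
      rw [Finset.sum_comm, ← hsum x]
      refine Finset.sum_congr rfl fun w _ => ?_
      rw [Finset.sum_ite_eq]
      split_ifs with h
      · rfl
      · by_contra hne
        exact h (Finset.mem_image_of_mem _ (Finset.mem_filter.2 ⟨Finset.mem_univ _, Ne.symm hne⟩))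
  have hkcont : Continuous k := by
    refine continuous_pi fun i => ?_
    refine continuous_finsetSum _ fun w _ => ?_
    by_cases hc : code w = i
    · simp only [hc, if_true]
      exact (f w).continuous
    · simp only [hc, if_false]
      exact continuous_const
  refine ⟨K, ⟨fun x => ⟨k x, hkmem x⟩, hkcont.subtype_mk _⟩, ?_, ?_⟩
  · intro s hs
    obtain ⟨h1, _, x, hx⟩ := Finset.mem_filter.1 hs
    refine ⟨?_, x, hx⟩
    intro i hi
    obtain ⟨w, _, hw⟩ := Finset.mem_image.1 (Finset.mem_powerset.1 h1 hi)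
    exact ⟨w, hw⟩
  · intro x i hi
    obtain ⟨w, hw, hw'⟩ := hk0 x i hi
    exact ⟨w, hw, hfV _ _ hw'⟩

end Pool.QB
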