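import Pool.Agent.MP_c51823_gt.QB.FDef

/-!
# [QB-F6]
-/

set_option autoImplicit false
open Topology

namespace Pool.QB

/-- [QB-F6] `H q ∅ = 0` (exactness for the triple `(∅, ∅, ∅)`). -/
theorem HT.nonempty_of_ne_zero (h : HT) (q : ℕ) {X : Type} [TopologicalSpace X] [CompactSpace X]
    [T2Space X] (x : h.H q (absP X)) (hx : x ≠ 0) : Nonempty X := by
  by_contra hne
  have hE : IsEmpty X := not_nonempty_iff.1 hne
  let T : CTriple := ⟨X, ∅, ∅, isClosed_empty, isClosed_empty, le_rfl⟩
  -- `x` restricts to zero on `∅`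
  have h1 : h.map q T.i x = 0 := by
    rw [h.exact_xa q T x]
    exact ⟨x, h.map_id q (absP X) x⟩
  -- the inverse of the inclusion
  have hc : Continuous fun y : X => ((hE.false y).elim : (∅ : Set X)) :=
    continuous_iff_continuousAt.2 fun y => (hE.false y).elim
  let g : CPair.Map T.XA T.BA := ⟨⟨fun y => (hE.false y).elim, hc⟩, fun y hy => hy.elim⟩
  have h3 : T.i.comp g = CPair.Map.id (absP X) := by
    have h4 : (T.i.comp g).f = (CPair.Map.id (absP X)).f :=
      ContinuousMap.ext fun y => (hE.false y).elim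
    exact congrArg (fun f => (⟨f, fun _ hy => hy.elim⟩ : CPair.Map (absP X) (absP X))) h4
  have e1 : h.map q (T.i.comp g) x = h.map q g (h.map q T.i x) := h.map_comp q T.i g x
  rw [h1, map_zero] at e1
  have e2 : h.map q (T.i.comp g) x = x := by
    rw [h3]
    exact h.map_id q (absP X) x
  exact hx (e2.symm.trans e1)

end Pool.QB
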