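import Pool.Agent.MP_c51823_gt.QB.B4
import Pool.Agent.MP_c51823_gt.QB.F6
import Pool.Agent.MP_c51823_gt.QB.B5
import Pool.Agent.MP_c51823_gt.QB.C2

/-!
# [QB-B10] Proof: QB_PROOF.md 6.5. Nerve lemma (B4), then B5 with `code w = (σ (lab w)).sup id * R + w`,
`R` = number of sets of the cover (`T` is nonempty by F6), `φ i = i / R`, `car s = ⋃ σ(lb i)`, `lb i`, `ctr i`, `Sw i` = data
of the `w` with `code w = i`. `S'.G = T`, `r.π = π`, `κ'` from B5.
-/

set_option autoImplicit false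
open Topology

namespace Pool.QB

open Classical in
/-- the index of a code -/
private noncomputable def wOf {r : ℕ} (code : Fin r → ℕ) (w0 : Fin r) (i : ℕ) : Fin r :=
  if h : ∃ w, code w = i then h.choose else w0

private theorem wOf_code {r : ℕ} {code : Fin r → ℕ} (hc : Function.Injective code) (w0 : Fin r)
    (w : Fin r) : wOf code w0 (code w) = w := by
  have h : ∃ w', code w' = code w := ⟨w, rfl⟩
  unfold wOf
  rw [dif_pos h]
  exact hc h.choose_spec

/-- [QB-B10] From a labelled open cover of a compact space `T` over `S.G` to a refinement of stages.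
`φ i = max (σ (lb i))`, `car s = ⋃ σ (lb i)`. -/
theorem exists_refine_of_cover {h : HT} {u : h.H 0 (absP S4)} (S : Stage h u) (T : Type)
    [TopologicalSpace T] [CompactSpace T] [T2Space T] (π : C(T, S.G))
    (hess : h.map 0 (absMap (S.f.comp π)) u ≠ 0) (Λ : Type) [Fintype Λ] [DecidableEq Λ]
    (σ : Λ → Finset ℕ) (W : Λ → Set T) (hW : ∀ l, IsOpen (W l)) (hcov : ∀ x, ∃ l, x ∈ W l)
    (hσ : ∀ l x, x ∈ W l → (σ l).Nonempty ∧ σ l ⊆ fsupp (S.κ (π x)).1)
    (N : T → Finset Λ → Set T)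
    (hN : ∀ (x : T) (s : Finset Λ), s.Nonempty → (∀ l ∈ s, x ∈ W l) → N x s ∈ 𝓝 x) :
    ∃ (S' : Stage h u) (r : Refine S' S) (lb : ℕ → Λ) (ctr : ℕ → T) (Sw : ℕ → Finset Λ),
      (∀ s ∈ S'.K.S, ∀ i ∈ s, r.φ i = (σ (lb i)).sup id) ∧
      (∀ s ∈ S'.K.S, r.car s = s.biUnion fun i => σ (lb i)) ∧
      (∀ s ∈ S'.K.S, ∀ i ∈ s, ∀ l ∈ Sw i, ctr i ∈ W l) ∧
      (∀ s ∈ S'.K.S, ∀ i ∈ s, ∀ j ∈ s, lb j ∈ Sw i) ∧
      ∀ s ∈ S'.K.S, ∃ x : T, ∀ i ∈ s, x ∈ W (lb i) ∧ x ∈ N (ctr i) (Sw i) := by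
  obtain ⟨x0⟩ : Nonempty T :=
    HT.nonempty_of_ne_zero h 0 (X := T) (h.map 0 (absMap (S.f.comp π)) u) hess
  obtain ⟨R, ctr, lab, Sw, V, hVo, hVc, hV⟩ := nerve_lemma W hW hcov N hN
  obtain ⟨w0, -⟩ := hVc x0
  have hR : 0 < R := lt_of_le_of_lt (Nat.zero_le _) w0.isLt
  obtain ⟨code, hcode⟩ : ∃ code : Fin R → ℕ, ∀ w, code w = (σ (lab w)).sup id * R + (w : ℕ) :=
    ⟨_, fun _ => rfl⟩
  have hdiv : ∀ w, code w / R = (σ (lab w)).sup id := by
    intro w
    rw [hcode, Nat.add_comm, Nat.add_mul_div_right _ _ hR, Nat.div_eq_of_lt w.isLt, Nat.zero_add]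
  have hinj : Function.Injective code := by
    intro a b hab
    have h1 : code a % R = a := by
      rw [hcode, Nat.add_comm, Nat.add_mul_mod_self_right, Nat.mod_eq_of_lt a.isLt]
    have h2 : code b % R = b := by
      rw [hcode, Nat.add_comm, Nat.add_mul_mod_self_right, Nat.mod_eq_of_lt b.isLt]
    exact Fin.ext (by rw [← h1, ← h2, hab])
  obtain ⟨K, κ, hK, hκ⟩ := exists_nerve V hVo hVc code hinj
  have hwof : ∀ w, wOf code w0 (code w) = w := wOf_code hinj w0
  -- the point of a simplex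
  have hpt : ∀ s ∈ K.S, ∃ x : T, ∀ i ∈ s, code (wOf code w0 i) = i ∧ x ∈ V (wOf code w0 i) := by
    intro s hs
    obtain ⟨h1, x, hx⟩ := hK s hs
    refine ⟨x, fun i hi => ?_⟩
    obtain ⟨w, rfl⟩ := h1 i hi
    rw [hwof]
    exact ⟨rfl, hx w hi⟩
  have hVW : ∀ w, V w ⊆ W (lab w) := fun w => (hV w).2.2.2.1
  let S' : Stage h u :=
    { G := T
      f := S.f.comp π
      ess := hess
      K := K
      κ := κ }
  let r : Refine S' S :=
    { φ := fun i => i / R
      car := fun s => s.biUnion fun i => σ (lab (wOf code w0 i))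
      mono := fun a b hab => Nat.div_le_div_right hab
      car_mem := by
        intro s hs
        obtain ⟨x, hx⟩ := hpt s hs
        have hx' : ∀ i ∈ s, (σ (lab (wOf code w0 i))).Nonempty ∧
            σ (lab (wOf code w0 i)) ⊆ fsupp (S.κ (π x)).1 := fun i hi =>
          hσ _ x (hVW _ (hx i hi).2)
        refine S.K.down _ (fsupp_mem S.K (S.κ (π x)).2) _ ?_ ?_
        · intro j hj
          obtain ⟨i, hi, hj⟩ := Finset.mem_biUnion.1 hj
          exact (hx' i hi).2 hj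
        · obtain ⟨i, hi⟩ := K.ne s hs
          obtain ⟨j, hj⟩ := (hx' i hi).1
          exact ⟨j, Finset.mem_biUnion.2 ⟨i, hi, hj⟩⟩
      φ_sub := by
        intro s hs j hj
        obtain ⟨i, hi, rfl⟩ := Finset.mem_image.1 hj
        obtain ⟨x, hx⟩ := hpt s hs
        have hne : (σ (lab (wOf code w0 i))).Nonempty := (hσ _ x (hVW _ (hx i hi).2)).1
        obtain ⟨a, ha, hae⟩ := Finset.exists_mem_eq_sup _ hne id
        refine Finset.mem_biUnion.2 ⟨i, hi, ?_⟩
        have h2 := hdiv (wOf code w0 i)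
        rw [(hx i hi).1] at h2
        simp only [h2, hae]
        exact ha
      car_mono := fun s _ t ht _ => Finset.biUnion_subset_biUnion_of_subset_left _ ht
      π := π
      f_eq := fun x => rfl
      κ_car := by
        intro x j hj
        obtain ⟨i, hi, hj⟩ := Finset.mem_biUnion.1 hj
        have hi' := (mem_fsupp K (κ x).2 i).1 hi
        obtain ⟨w, rfl, hw⟩ := hκ x i hi'
        rw [hwof] at hj
        exact (hσ _ x (hVW _ hw)).2 hj }
  refine ⟨S', r, fun i => lab (wOf code w0 i), fun i => ctr (wOf code w0 i),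
    fun i => Sw (wOf code w0 i), ?_, ?_, ?_, ?_, ?_⟩
  · intro s hs i hi
    obtain ⟨x, hx⟩ := hpt s hs
    have h2 := hdiv (wOf code w0 i)
    rw [(hx i hi).1] at h2
    exact h2
  · intro s hs
    rfl
  · intro s hs i hi l hl
    exact (hV (wOf code w0 i)).2.1 l hl
  · intro s hs i hi j hj
    obtain ⟨x, hx⟩ := hpt s hs
    exact (hV (wOf code w0 i)).2.2.2.2.2 _ ⟨x, (hx i hi).2, (hx j hj).2⟩
  · intro s hs
    obtain ⟨x, hx⟩ := hpt s hs
    exact ⟨x, fun i hi => ⟨hVW _ (hx i hi).2, (hV (wOf code w0 i)).2.2.1 (hx i hi).2⟩⟩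

end Pool.QB
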