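import Pool.Agent.MP_c51823_gt.QB.E1a

/-!
# [QB-E3] Face identities (4.2)
-/

set_option autoImplicit false
open Topology

namespace Pool.QB

theorem E3_aux.cum_face_le {k : ℕ} (i : Fin (k + 2)) (x : Dl k) (m : ℕ) (hm : m ≤ i) :
    cum (face i x) m = cum x m := by
  unfold cum face
  dsimp only [ContinuousMap.coe_mk]
  rw [Fin.sum_univ_succAbove _ i]
  simp only [Fin.insertNth_apply_same, Fin.insertNth_apply_succAbove, ite_self, zero_add]
  refine Finset.sum_congr rfl fun l _ => ?_
  have h : ((i.succAbove l : Fin (k + 2)) : ℕ) < m ↔ (l : ℕ) < m := by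
    rw [Fin.succAbove]
    split_ifs with h1
    · simp
    · rw [Fin.lt_def] at h1
      simp only [Fin.val_castSucc, Fin.val_succ] at h1 ⊢
      omega
  simp only [h]

theorem E3_aux.cum_face_gt {k : ℕ} (i : Fin (k + 2)) (x : Dl k) (m : ℕ) (hm : (i : ℕ) ≤ m) :
    cum (face i x) (m + 1) = cum x m := by
  unfold cum face
  dsimp only [ContinuousMap.coe_mk]
  rw [Fin.sum_univ_succAbove _ i]
  simp only [Fin.insertNth_apply_same, Fin.insertNth_apply_succAbove, ite_self, zero_add]
  refine Finset.sum_congr rfl fun l _ => ?_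
  have h : ((i.succAbove l : Fin (k + 2)) : ℕ) < m + 1 ↔ (l : ℕ) < m := by
    rw [Fin.succAbove]
    split_ifs with h1
    · rw [Fin.lt_def] at h1
      simp only [Fin.val_castSucc] at h1 ⊢
      omega
    · simp
  simp only [h]

theorem E3_aux.cum_zero {k : ℕ} (x : Dl k) : cum x 0 = 0 := by
  simp [cum]

theorem E3_aux.cum_last {k : ℕ} (x : Dl k) : cum x (k + 1) = 1 := by
  unfold cum
  rw [← x.2.2]
  refine Finset.sum_congr rfl fun l _ => ?_
  rw [if_pos l.2]

/-- [QB-E3] -/
theorem chi_face {k b b' : ℕ} (hb : 2 * b' ≤ b) (i : Fin (k + 2)) (x : Dl k)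
    (f : Fin (k + 1) → CP b') : chi (face i x) f = chi x (dW hb i f) := by
  unfold chi
  refine Prod.ext ?_ ?_
  · funext h
    dsimp only
    apply le_antisymm
    · refine Finset.sup'_le _ _ fun m _ => ?_
      by_cases hm : (m : ℕ) ≤ i
      · rw [E3_aux.cum_face_le i x m hm]
        exact Finset.le_sup' (f := fun i : Fin (k + 2) => h (cum x i))
          (Finset.mem_univ (⟨m, by omega⟩ : Fin (k + 2)))
      · obtain ⟨m', hm'⟩ : ∃ m', (m : ℕ) = m' + 1 := ⟨m - 1, by omega⟩
        rw [hm', E3_aux.cum_face_gt i x m' (by omega)]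
        exact Finset.le_sup' (f := fun i : Fin (k + 2) => h (cum x i))
          (Finset.mem_univ (⟨m', by omega⟩ : Fin (k + 2)))
    · refine Finset.sup'_le _ _ fun m _ => ?_
      by_cases hm : (m : ℕ) ≤ i
      · rw [← E3_aux.cum_face_le i x m hm]
        exact Finset.le_sup' (f := fun j : Fin (k + 1 + 2) => h (cum (face i x) j))
          (Finset.mem_univ (⟨m, by omega⟩ : Fin (k + 1 + 2)))
      · rw [← E3_aux.cum_face_gt i x m (by omega)]
        exact Finset.le_sup' (f := fun j : Fin (k + 1 + 2) => h (cum (face i x) j))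
          (Finset.mem_univ (⟨m + 1, by omega⟩ : Fin (k + 1 + 2)))
  · funext F
    dsimp only
    set G : Fin (k + 1) → ℝ := fun j =>
      ((rts (f j).1).map fun z => F.F (cum (face i x) (j + 1), z)).sum with hG
    have h0 : (if (i : ℕ) ≤ ((0 : Fin (k + 1)) : ℕ) then G 0 else 0) = 0 := by
      split_ifs with h
      · rw [hG]
        dsimp only
        have e : cum (face i x) (((0 : Fin (k + 1)) : ℕ) + 1) = 0 := by
          rw [E3_aux.cum_face_gt i x _ h]
          exact E3_aux.cum_zero x
        rw [e]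
        simp [F.zero]
      · rfl
    have h1 : (if ((Fin.last k : Fin (k + 1)) : ℕ) + 1 ≤ i then G (Fin.last k) else 0) = 0 := by
      split_ifs with h
      · rw [hG]
        dsimp only
        have e : cum (face i x) (((Fin.last k : Fin (k + 1)) : ℕ) + 1) = 1 := by
          rw [E3_aux.cum_face_le i x _ h]
          exact E3_aux.cum_last x
        rw [e]
        simp [F.one]
      · rfl
    have h2 : ∀ m : Fin (k + 1), G m = (if (m : ℕ) + 1 ≤ i then G m else 0) +
        (if (i : ℕ) ≤ m then G m else 0) := by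
      intro m
      by_cases h : (m : ℕ) + 1 ≤ i
      · rw [if_pos h, if_neg (by omega), add_zero]
      · rw [if_neg h, if_pos (by omega), zero_add]
    have h3 : ∑ m, G m = (∑ j : Fin k, if (j : ℕ) + 1 ≤ i then G j.castSucc else 0) +
        (∑ j : Fin k, if (i : ℕ) ≤ j + 1 then G j.succ else 0) := by
      rw [Finset.sum_congr rfl fun m _ => h2 m, Finset.sum_add_distrib, Fin.sum_univ_castSucc,
        h1, add_zero]
      congr 1
      rw [Fin.sum_univ_succ, h0, zero_add]
      rfl
    change ∑ m, G m = _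
    rw [h3, ← Finset.sum_add_distrib]
    refine Finset.sum_congr rfl fun j _ => ?_
    have h4 : (j : ℕ) + 1 ≤ i → G j.castSucc =
        ((rts (f j.castSucc).1).map fun z => F.F (cum x (j + 1), z)).sum := by
      intro h
      rw [hG]
      dsimp only
      rw [Fin.val_castSucc, E3_aux.cum_face_le i x _ h]
    have h5 : (i : ℕ) ≤ j + 1 → G j.succ =
        ((rts (f j.succ).1).map fun z => F.F (cum x (j + 1), z)).sum := by
      intro h
      rw [hG]
      dsimp only
      rw [Fin.val_succ, E3_aux.cum_face_gt i x _ h]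
    unfold dW
    dsimp only [ContinuousMap.coe_mk]
    by_cases c1 : (j : ℕ) + 1 < i
    · rw [if_pos c1, if_pos c1.le, if_neg (by omega), add_zero, h4 c1.le]
    · by_cases c2 : (j : ℕ) + 1 = i
      · rw [if_neg c1, if_pos c2, if_pos c2.le, if_pos c2.ge, h4 c2.le, h5 c2.ge, rts_mulCP,
          Multiset.map_add, Multiset.sum_add]
      · rw [if_neg c1, if_neg c2, if_neg (by omega), if_pos (by omega), zero_add, h5 (by omega)]

end Pool.QB
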