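import Pool.Agent.MP_c51823_gt.QB.E1a

/-!
# [QB-E4] Injectivity of the characteristic maps on the interior (4.3)
-/

set_option autoImplicit false
open Topology

namespace Pool.QB

namespace E4_aux

theorem exists_bump {E : Type} [MetricSpace E] (A : Finset E) (t : E) :
    ∃ φ : C(E, ℝ), φ t = 1 ∧ (∀ a ∈ A, a ≠ t → φ a = 0) ∧ (∀ z, 1 ≤ dist z t → φ z = 0) ∧
      ∀ z, 0 ≤ φ z := by
  classical
  have h1 : ((A.erase t : Finset E) : Set E)ᶜ ∈ 𝓝 t :=
    (A.erase t).finite_toSet.isClosed.isOpen_compl.mem_nhds (by simp)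
  obtain ⟨ε, hε, hball⟩ := Metric.mem_nhds_iff.1 h1
  have hε' : 0 < min ε 1 := lt_min hε one_pos
  refine ⟨⟨fun z => max 0 (1 - dist z t / min ε 1), by fun_prop⟩, ?_, ?_, ?_, ?_⟩
  · simp
  · intro a ha hat
    have h2 : ε ≤ dist a t := by
      by_contra h3
      have h4 := hball (Metric.mem_ball.2 (not_le.1 h3))
      exact h4 (by simp [ha, hat])
    change max 0 (1 - dist a t / min ε 1) = 0
    refine max_eq_left ?_
    rw [sub_nonpos, le_div_iff₀ hε', one_mul]
    exact (min_le_left _ _).trans h2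
  · intro z hz
    change max 0 (1 - dist z t / min ε 1) = 0
    refine max_eq_left ?_
    rw [sub_nonpos, le_div_iff₀ hε', one_mul]
    exact (min_le_right _ _).trans hz
  · intro z
    exact le_max_left _ _

theorem cum_lt {k : ℕ} {x : Dl k} (hx : x ∉ bdD k) {i j : ℕ} (hij : i < j) (hj : j ≤ k + 1) :
    cum x i < cum x j := by
  have hpos : ∀ l, 0 < x.1 l := fun l =>
    lt_of_le_of_ne (x.2.1 l) fun h => hx ⟨l, h.symm⟩
  unfold cum
  refine Finset.sum_lt_sum (fun l _ => ?_) ⟨⟨i, by omega⟩, Finset.mem_univ _, ?_⟩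
  · by_cases h1 : (l : ℕ) < i
    · rw [if_pos h1, if_pos (h1.trans hij)]
    · rw [if_neg h1]
      split_ifs
      · exact (hpos l).le
      · exact le_refl _
  · rw [if_neg (lt_irrefl _), if_pos hij]
    exact hpos _

theorem cum_zero {k : ℕ} (x : Dl k) : cum x 0 = 0 := by
  unfold cum
  simp

theorem cum_last {k : ℕ} (x : Dl k) : cum x (k + 1) = 1 := by
  unfold cum
  rw [← x.2.2]
  exact Finset.sum_congr rfl fun l _ => if_pos l.isLt

theorem cum_succ_sub {k : ℕ} (x : Dl k) (l : Fin (k + 1)) :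
    cum x ((l : ℕ) + 1) - cum x (l : ℕ) = x.1 l := by
  unfold cum
  rw [← Finset.sum_sub_distrib]
  have : ∀ m : Fin (k + 1), ((if (m : ℕ) < (l : ℕ) + 1 then x.1 m else 0) -
      if (m : ℕ) < (l : ℕ) then x.1 m else 0) = if m = l then x.1 m else 0 := by
    intro m
    by_cases h1 : m = l
    · subst h1
      simp
    · have h2 : (m : ℕ) ≠ (l : ℕ) := fun h => h1 (Fin.ext h)
      rw [if_neg h1]
      by_cases h3 : (m : ℕ) < (l : ℕ)
      · rw [if_pos h3, if_pos (by omega), sub_self]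
      · rw [if_neg h3, if_neg (by omega), sub_self]
  rw [Finset.sum_congr rfl fun m _ => this m, Finset.sum_ite_eq' Finset.univ l]
  simp

theorem exists_cum {k l b b' : ℕ} {x : Dl k} {y : Dl l} {f : Fin k → CP b} {g : Fin l → CP b'}
    (h : chi x f = chi y g) (i : Fin (k + 2)) : ∃ i' : Fin (l + 2), cum y i' = cum x i := by
  by_contra hne
  push Not at hne
  obtain ⟨φ, h1, h2, -, h4⟩ := exists_bump (Finset.univ.image fun i' : Fin (l + 2) => cum y i')
    (cum x i)
  have h5 : (chi x f).1 φ = (chi y g).1 φ := by rw [h]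
  have h6 : 1 ≤ (chi x f).1 φ := by
    rw [← h1]
    exact Finset.le_sup' (fun i : Fin (k + 2) => φ (cum x i)) (Finset.mem_univ i)
  have h7 : (chi y g).1 φ ≤ 0 := by
    refine Finset.sup'_le ⟨0, Finset.mem_univ _⟩ (fun i : Fin (l + 2) => φ (cum y i))
      fun i' _ => ?_
    rw [h2 _ (Finset.mem_image_of_mem _ (Finset.mem_univ i')) (hne i')]
  linarith

theorem sum_eq_count {φ : ℂ → ℝ} {z : ℂ} (h1 : φ z = 1) (s : Multiset ℂ)
    (hs : ∀ a ∈ s, a ≠ z → φ a = 0) : (s.map φ).sum = s.count z := by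
  classical
  induction s using Multiset.induction_on with
  | empty => simp
  | cons a s ih =>
    rw [Multiset.map_cons, Multiset.sum_cons, ih fun b hb => hs b (Multiset.mem_cons_of_mem hb),
      Multiset.count_cons]
    by_cases h2 : z = a
    · subst h2
      rw [h1, if_pos rfl]
      push_cast
      ring
    · rw [if_neg h2, hs a (Multiset.mem_cons_self _ _) fun h => h2 h.symm]
      simp

/-- product test functions -/
noncomputable def prodF (φ : C(ℝ, ℝ)) (ψ : C(ℂ, ℝ)) (h0 : φ 0 = 0) (h1 : φ 1 = 0) (z0 : ℂ)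
    (hψ : ∀ z, 1 ≤ dist z z0 → ψ z = 0) : FFn where
  F := ⟨fun p => φ p.1 * ψ p.2, by fun_prop⟩
  zero z := by simp [h0]
  one z := by simp [h1]
  dec ε hε := by
    refine ⟨‖z0‖ + 1, fun s _ z hz => ?_⟩
    have h2 : 1 ≤ dist z z0 := by
      rw [dist_eq_norm]
      have := norm_sub_norm_le z z0
      linarith
    simp [hψ z h2, hε]

theorem cum_strictMono {k : ℕ} {x : Dl k} (hx : x ∉ bdD k) :
    StrictMono fun i : Fin (k + 2) => cum x (i : ℕ) := by
  intro i j hij
  exact cum_lt hx hij (by omega)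

end E4_aux

open E4_aux

/-- [QB-E4a] -/
theorem chi_inj {k b : ℕ} (x y : Dl k) (f g : Fin k → CP b) (hx : x ∉ bdD k) (hy : y ∉ bdD k)
    (h : chi x f = chi y g) : x = y ∧ f = g := by
  classical
  have hcum : (fun i : Fin (k + 2) => cum x (i : ℕ)) = fun i : Fin (k + 2) => cum y (i : ℕ) := by
    refine (StrictMono.range_inj (cum_strictMono hx) (cum_strictMono hy)).1 ?_
    refine Set.Subset.antisymm ?_ ?_
    · rintro _ ⟨i, rfl⟩
      obtain ⟨i', hi'⟩ := exists_cum h i
      exact ⟨i', hi'⟩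
    · rintro _ ⟨i, rfl⟩
      obtain ⟨i', hi'⟩ := exists_cum h.symm i
      exact ⟨i', hi'⟩
  have hxy : x = y := by
    refine Subtype.ext ?_
    funext l
    have h1 := congrFun hcum l.succ
    have h2 := congrFun hcum l.castSucc
    simp only [Fin.val_succ, Fin.val_castSucc] at h1 h2
    rw [← cum_succ_sub x l, ← cum_succ_sub y l, h1, h2]
  refine ⟨hxy, ?_⟩
  subst hxy
  funext j
  refine rts_inj _ _ (Multiset.ext.2 fun z => ?_)
  obtain ⟨φ, hφ1, hφ2, -, -⟩ :=
    exists_bump (Finset.univ.image fun i : Fin (k + 2) => cum x (i : ℕ)) (cum x ((j : ℕ) + 1))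
  obtain ⟨ψ, hψ1, hψ2, hψ3, -⟩ := exists_bump (rts (f j).1 + rts (g j).1).toFinset z
  have hmem : ∀ i : ℕ, i ≤ k + 1 → i ≠ (j : ℕ) + 1 → φ (cum x i) = 0 := by
    intro i hi hij
    refine hφ2 _ (Finset.mem_image.2 ⟨⟨i, by omega⟩, Finset.mem_univ _, rfl⟩) ?_
    intro h1
    rcases lt_or_gt_of_ne hij with h2 | h2
    · exact absurd h1 (cum_lt hx h2 (by omega)).ne
    · exact absurd h1 (cum_lt hx h2 hi).ne'
  have h0 : φ 0 = 0 := by
    have := hmem 0 (by omega) (by omega)
    rwa [cum_zero x] at this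
  have h1 : φ 1 = 0 := by
    have := hmem (k + 1) le_rfl (by omega)
    rwa [cum_last x] at this
  have key : ∀ f' : Fin k → CP b, (∀ a ∈ rts (f' j).1, a ≠ z → ψ a = 0) →
      (chi x f').2 (prodF φ ψ h0 h1 z hψ3) = (rts (f' j).1).count z := by
    intro f' hf'
    change ∑ l : Fin k, ((rts (f' l).1).map fun z => φ (cum x ((l : ℕ) + 1)) * ψ z).sum = _
    rw [Finset.sum_eq_single j]
    · rw [hφ1]
      simp only [one_mul]
      exact sum_eq_count hψ1 _ hf'
    · intro l _ hl
      rw [hmem ((l : ℕ) + 1) (by omega) (fun h => hl (Fin.ext (by omega)))]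
      simp
    · intro hj
      exact absurd (Finset.mem_univ j) hj
  have h2 := key f (fun a ha haz => hψ2 a (by simp [ha]) haz)
  have h3 := key g (fun a ha haz => hψ2 a (by simp [ha]) haz)
  rw [h] at h2
  exact_mod_cast h2.symm.trans h3

/-- [QB-E4b] -/
theorem chi_ne {k l b b' : ℕ} (hl : l < k) (x : Dl k) (y : Dl l) (f : Fin k → CP b)
    (g : Fin l → CP b') (hx : x ∉ bdD k) : chi x f ≠ chi y g := by
  intro h
  choose e he using fun i => exists_cum h i
  have hinj : Function.Injective e := by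
    intro i j hij
    refine (cum_strictMono hx).injective ?_
    rw [← he i, ← he j, hij]
  have := Fintype.card_le_of_injective e hinj
  simp only [Fintype.card_fin] at this
  omega

end Pool.QB
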