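import Pool.Agent.MP_c51823_gt.QB.E2c
import Pool.Agent.MP_c51823_gt.QB.E3
import Pool.Agent.MP_c51823_gt.QB.E4

/-!
# [QB] instances for `Es`
-/

set_option autoImplicit false
open Topology

namespace Pool.QB

instance (N m : ℕ) : CompactSpace (Es N m) := isCompact_iff_compactSpace.mp (isCompact_Es N m)

/-- inclusion -/
def inclE {N N' m m' : ℕ} (hN : N ≤ N') (hm : m ≤ m') : C(Es N m, Es N' m') :=
  ⟨Set.inclusion (Es_mono hN hm), continuous_inclusion _⟩

end Pool.QB
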