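import Pool.Agent.MP_c51823_gt.QB.J1b
import Pool.Agent.MP_c51823_gt.QB.ESpace

/-!
# [QB] `FFb` and the configuration `JJ`
-/

set_option autoImplicit false
open Topology

namespace Pool.QB

/-- the test function `F' ∘ β` -/
noncomputable def FFb {m : ℝ} (hm : 0 < m) (hm' : m ≤ 1 / 8) (F : C(Fin 5 → ℝ, ℝ))
    (h0 : F star = 0) : FFn where
  F := ⟨fun p => F (bet m p.1 p.2), F.continuous.comp (continuous_bet hm hm')⟩
  zero z := by simp [bet_zero hm hm', h0]
  one z := by simp [bet_one hm hm', h0]
  dec := bet_dec hm hm' F h0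

open Classical in
/-- the configuration `J(e)` -/
noncomputable def JJ (m : ℝ) (e : VV) : Multiset (Fin 5 → ℝ) :=
  if h : ∃ (k b : ℕ) (x : Dl k) (f : Fin k → CP b), e = chi x f then
    (∑ j : Fin h.choose, (rts (h.choose_spec.choose_spec.choose_spec.choose j).1).map
      (fun z => bet m (cum h.choose_spec.choose_spec.choose (j + 1)) z)).filter (· ≠ star)
  else 0

end Pool.QB
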