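import Pool.Agent.MP_c51823_gt.QB.BDef
import Pool.Agent.MP_c51823_gt.QB.JDef2

/-!
# [QB] colour tuples, prism sums: definitions
-/

set_option autoImplicit false
open Topology

namespace Pool.QB

/-- the colour tuple of a point -/
noncomputable def colT {n : ℕ} (A₀ : ℕ) (rr : Fin n → ℕ) (v : Fin 5 → ℝ) : Fin n → Fin 5 :=
  fun j => col A₀ (rr j) v

/-- the prism sum at a point `x ∈ |A|` -/
noncomputable def PrS (y : Coch 4 ℤ) (m : ℝ) (A₀ : ℕ) (rr vs : Fin 3 → ℕ) (x : ℕ → ℝ) : ℤ :=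
  ∑ p ∈ ctri (fsupp x), xi y (fsupp x) p *
    prism (colT A₀ rr (gm m (ub x p))) (fun j => bl p (vs j))

end Pool.QB
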