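import Pool.Agent.MP_c51823_gt.QB.N3d

/-!
# [QB-N3] Nullity. Proof: QB_PROOF.md 4.4, induction on `n`; `E(N,n) = Es N (n+1)`. `n = 0`: `Es N 1` is a point. `n = k+1`,
`M = N+1`: induction hypothesis for `(k, M)`, subtract `pr^* z`, N3c, N3d.
-/

set_option autoImplicit false
open Topology

namespace Pool.QB

namespace N3_aux

theorem map_abs_abs (h : HT) (q : ℕ) {X Y W : Type} [TopologicalSpace X] [CompactSpace X]
    [T2Space X] [TopologicalSpace Y] [CompactSpace Y] [T2Space Y] [TopologicalSpace W]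
    [CompactSpace W] [T2Space W] (g : C(Y, W)) (f : C(X, Y)) (x : h.H q (absP W)) :
    h.map q (absMap f) (h.map q (absMap g) x) = h.map q (absMap (g.comp f)) x :=
  (h.map_comp q (absMap g) (absMap f) x).symm

theorem Es_one_subsingleton {N : ℕ} {a b : VV} (ha : a ∈ Es N 1) (hb : b ∈ Es N 1) : a = b := by
  obtain ⟨k, hk, x, f, rfl⟩ := ha
  obtain ⟨l, hl, y, g, rfl⟩ := hb
  obtain rfl : k = 0 := by omega
  obtain rfl : l = 0 := by omega
  have hxy : x = y := Subsingleton.elim _ _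
  have hfg : f = g := Subsingleton.elim _ _
  rw [hxy, hfg]

end N3_aux

open N3_aux

/-- [QB-N3] Nullity (4.4). -/
theorem HT.nullity (h : HT) (n N : ℕ) (hn : n ≤ N) (q : ℕ) (hq : 1 ≤ q) (Z : Type)
    [TopologicalSpace Z] [CompactSpace Z] [T2Space Z]
    (y : h.H q (absP (Z × Es (N + n + 1) (n + 2)))) :
    ∃ z : h.H q (absP Z),
      h.map q (absMap (idProd Z (inclE (show N ≤ N + n + 1 by omega)
        (show n + 1 ≤ n + 2 by omega)))) y = h.map q (absMap (prFst Z (Es N (n + 1)))) z := by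
  induction n generalizing N with
  | zero =>
    -- the point of `Es N 1`
    have hne : ∃ e : VV, e ∈ Es N 1 := by
      refine ⟨chi (k := 0) (b := 2 ^ (N - 0) - 1) ⟨fun _ => 1, ?_, ?_⟩ (fun j => j.elim0), 0,
        Nat.one_pos, _, _, rfl⟩
      · intro _; norm_num
      · simp
    obtain ⟨e, he⟩ := hne
    have he' : e ∈ Es (N + 0 + 1) (0 + 2) := Es_mono (by omega) (by omega) he
    let s : C(Z, Z × Es (N + 0 + 1) (0 + 2)) := ⟨fun z => (z, ⟨e, he'⟩), by fun_prop⟩
    refine ⟨h.map q (absMap s) y, ?_⟩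
    rw [map_abs_abs]
    have hs : idProd Z (inclE (show N ≤ N + 0 + 1 by omega) (show 0 + 1 ≤ 0 + 2 by omega)) =
        s.comp (prFst Z (Es N (0 + 1))) := by
      refine ContinuousMap.ext fun p => Prod.ext rfl (Subtype.ext ?_)
      exact Es_one_subsingleton p.2.2 he
    rw [hs]
  | succ k ih =>
    obtain ⟨q', rfl⟩ : ∃ q', q = q' + 1 := ⟨q - 1, by omega⟩
    obtain ⟨z, hz⟩ := ih (N + 1) (by omega)
      (h.map (q' + 1) (absMap (idProd Z (inclE (show N + 1 + k + 1 ≤ N + (k + 1) + 1 by omega)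
        (show k + 2 ≤ k + 3 by omega)))) y)
    rw [map_abs_abs] at hz
    set y₁ : h.H (q' + 1) (absP (Z × Es (N + 1) (k + 3))) :=
      h.map (q' + 1) (absMap (idProd Z (inclE (show N + 1 ≤ N + (k + 1) + 1 by omega)
        (le_refl (k + 3))))) y - h.map (q' + 1) (absMap (prFst Z (Es (N + 1) (k + 3)))) z
      with hy₁
    have h0 : h.map (q' + 1) (absMap (idProd Z (inclE (le_refl (N + 1))
        (show k + 1 ≤ (k + 1) + 2 by omega)))) y₁ = 0 := by
      rw [hy₁, map_sub, map_abs_abs, map_abs_abs, sub_eq_zero]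
      exact hz
    have hb : 2 * (2 ^ (N + 1 - (k + 1 + 1)) - 1) ≤ 2 ^ (N + 1 - (k + 1)) - 1 := by
      have h1 : N + 1 - (k + 1) = (N + 1 - (k + 1 + 1)) + 1 := by omega
      rw [h1, pow_succ]
      omega
    obtain ⟨e, he1, he2⟩ := h.null_lift q' ((q' + 1) + (k + 1)) Z (N + 1) (k + 1) rfl hb y₁ h0
    have h3 := h.null_kill (q' + 1) ((q' + 1) + (k + 1)) Z N k hn rfl hb e he2
    refine ⟨z, ?_⟩
    rw [he1, map_abs_abs, hy₁, map_sub, map_abs_abs, map_abs_abs, sub_eq_zero] at h3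
    exact h3

end Pool.QB
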