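import Pool.Agent.MP_c51823_gt.QB.J2

/-!
# [QB-J3] The configuration is well defined (J2: test with functions `F` with `F * = 0`)
-/

set_option autoImplicit false
open Topology

namespace Pool.QB

open Classical in
/-- the unfiltered configuration attached to a representation -/
noncomputable def J3_pre (m : ℝ) {k b : ℕ} (x : Dl k) (f : Fin k → CP b) :
    Multiset (Fin 5 → ℝ) :=
  ∑ j : Fin k, (rts (f j).1).map (fun z => bet m (cum x (j + 1)) z)

theorem J3_filter_map_sum {X : Type} (o : X) [DecidablePred fun x : X => x ≠ o]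
    (M : Multiset X) (F : X → ℝ) (h0 : F o = 0) :
    ((M.filter (· ≠ o)).map F).sum = (M.map F).sum := by
  induction M using Multiset.induction_on with
  | empty => simp
  | cons a s ih =>
    by_cases h : a = o
    · rw [Multiset.filter_cons_of_neg _ (by simpa using h)]
      simp [ih, h, h0]
    · rw [Multiset.filter_cons_of_pos _ (by simpa using h)]
      simp [ih]

theorem J3_pre_sum {m : ℝ} (hm : 0 < m) (hm' : m ≤ 1 / 8) {k b : ℕ} (x : Dl k)
    (f : Fin k → CP b) (F : C(Fin 5 → ℝ, ℝ)) (h0 : F star = 0) :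
    ((J3_pre m x f).map F).sum = (chi x f).2 (FFb hm hm' F h0) := by
  unfold J3_pre chi FFb
  simp only [ContinuousMap.coe_mk]
  rw [← Multiset.coe_mapAddMonoidHom, map_sum, ← Multiset.coe_sumAddMonoidHom, map_sum]
  refine Finset.sum_congr rfl fun j _ => ?_
  simp [Multiset.map_map]

open Classical in
theorem J3_unique {m : ℝ} (hm : 0 < m) (hm' : m ≤ 1 / 8) {k b : ℕ} (x : Dl k)
    (f : Fin k → CP b) {k' b' : ℕ} (x' : Dl k') (f' : Fin k' → CP b')
    (h : chi x f = chi x' f') :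
    (J3_pre m x f).filter (· ≠ star) = (J3_pre m x' f').filter (· ≠ star) := by
  refine multiset_unique star _ _ (by simp) (by simp) fun F hF => ?_
  rw [J3_filter_map_sum _ _ _ hF, J3_filter_map_sum _ _ _ hF, J3_pre_sum hm hm' x f F hF,
    J3_pre_sum hm hm' x' f' F hF, h]

open Classical in
/-- [QB-J3a] -/
theorem JJ_chi {m : ℝ} (hm : 0 < m) (hm' : m ≤ 1 / 8) {k b : ℕ} (x : Dl k) (f : Fin k → CP b) :
    JJ m (chi x f) = (∑ j : Fin k, (rts (f j).1).map
      (fun z => bet m (cum x (j + 1)) z)).filter (· ≠ star) := by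
  have h : ∃ (k' b' : ℕ) (x' : Dl k') (f' : Fin k' → CP b'), chi x f = chi x' f' :=
    ⟨k, b, x, f, rfl⟩
  unfold JJ
  rw [dif_pos h]
  exact J3_unique hm hm' _ _ x f h.choose_spec.choose_spec.choose_spec.choose_spec.symm

/-- [QB-J3b] -/
theorem JJ_sum {m : ℝ} (hm : 0 < m) (hm' : m ≤ 1 / 8) {N n : ℕ} (e : Es N n)
    (F : C(Fin 5 → ℝ, ℝ)) (h0 : F star = 0) :
    ((JJ m e.1).map F).sum = e.1.2 (FFb hm hm' F h0) := by
  classical
  obtain ⟨e, k, hk, x, f, rfl⟩ := e
  simp only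
  rw [JJ_chi hm hm', J3_filter_map_sum _ _ _ h0]
  exact J3_pre_sum hm hm' x f F h0

/-- [QB-J3c] -/
theorem JJ_mem {m : ℝ} (hm : 0 < m) (hm' : m ≤ 1 / 8) {N n : ℕ} (e : Es N n) :
    (∀ v ∈ JJ m e.1, v ∈ Yset ∧ v ≠ star) ∧ (JJ m e.1).card ≤ n * 2 ^ N := by
  classical
  obtain ⟨e, k, hk, x, f, rfl⟩ := e
  simp only
  rw [JJ_chi hm hm']
  refine ⟨fun v hv => ?_, ?_⟩
  · rw [Multiset.mem_filter] at hv
    refine ⟨?_, hv.2⟩
    obtain ⟨j, -, hj⟩ := Multiset.mem_sum.1 hv.1
    obtain ⟨z, -, rfl⟩ := Multiset.mem_map.1 hj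
    exact bet_mem hm hm' _ _
  · refine (Multiset.card_le_card (Multiset.filter_le _ _)).trans ?_
    rw [Multiset.card_sum]
    calc ∑ j : Fin k, Multiset.card ((rts (f j).1).map (fun z => bet m (cum x (j + 1)) z))
        ≤ ∑ _j : Fin k, 2 ^ N := by
          refine Finset.sum_le_sum fun j _ => ?_
          rw [Multiset.card_map]
          refine (card_rts (f j)).trans ?_
          exact (Nat.sub_le _ _).trans (Nat.pow_le_pow_right (by norm_num) (Nat.sub_le _ _))
      _ = k * 2 ^ N := by simp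
      _ ≤ n * 2 ^ N := Nat.mul_le_mul_right _ hk.le

end Pool.QB
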