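import Pool.Agent.MP_c51823_gt.QB.EDef

/-!
# [QB-E1a] Roots of lines of polynomials
-/

set_option autoImplicit false
open Topology

namespace Pool.QB

/-- [QB-E1a] -/
theorem rts_line {p : Polynomial ℂ} (hp : p ≠ 0) : rts (line p) = p.roots := by
  have h : ∃ q : Polynomial ℂ, q ≠ 0 ∧ line p = line q := ⟨p, hp, rfl⟩
  unfold rts
  rw [dif_pos h]
  obtain ⟨hq, hl⟩ := h.choose_spec
  obtain ⟨c, hc, hcq⟩ := (line_eq_iff hp hq).1 hl
  rw [hcq, Polynomial.roots_C_mul _ hc]

/-- [QB-E1b] -/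
theorem card_rts {b : ℕ} (e : CP b) : (rts e.1).card ≤ b := by
  obtain ⟨e, p, hp, hd, rfl⟩ := e
  show (rts (line p)).card ≤ b
  rw [rts_line hp]
  exact (Polynomial.card_roots' p).trans hd

/-- [QB-E1c] -/
theorem rts_mulCP {b b' : ℕ} (hb : 2 * b' ≤ b) (e e' : CP b') :
    rts (mulCP hb (e, e')).1 = rts e.1 + rts e'.1 := by
  obtain ⟨e, p, hp, hpd, rfl⟩ := e
  obtain ⟨e', q, hq, hqd, rfl⟩ := e'
  have h := mu_line p q hp hq hpd hqd
  have h2 : rts (mu b' b' (⟨line p, line_mem hp hpd⟩, ⟨line q, line_mem hq hqd⟩)).1 =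
      rts (line p) + rts (line q) := by
    rw [h, rts_line (mul_ne_zero hp hq), rts_line hp, rts_line hq,
      Polynomial.roots_mul (mul_ne_zero hp hq)]
  exact h2

/-- [QB-E1d] lines of polynomials of degree `≤ b` are determined by their roots -/
theorem rts_inj {b : ℕ} (e e' : CP b) (h : rts e.1 = rts e'.1) : e = e' := by
  obtain ⟨e, p, hp, hpd, rfl⟩ := e
  obtain ⟨e', q, hq, hqd, rfl⟩ := e'
  apply Subtype.ext
  show line p = line q
  have h' : rts (line p) = rts (line q) := h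
  rw [rts_line hp, rts_line hq] at h'
  rw [line_eq_iff hp hq]
  have hlp : p.leadingCoeff ≠ 0 := Polynomial.leadingCoeff_ne_zero.2 hp
  have hlq : q.leadingCoeff ≠ 0 := Polynomial.leadingCoeff_ne_zero.2 hq
  have e1 := (IsAlgClosed.splits p).eq_prod_roots
  have e2 := (IsAlgClosed.splits q).eq_prod_roots
  rw [← h'] at e2
  refine ⟨q.leadingCoeff / p.leadingCoeff, div_ne_zero hlq hlp, ?_⟩
  generalize p.leadingCoeff = u at *
  generalize q.leadingCoeff = v at *
  generalize (p.roots.map fun x => Polynomial.X - Polynomial.C x).prod = w at *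
  rw [e2, e1, ← mul_assoc, ← Polynomial.C_mul, div_mul_cancel₀ _ hlp]

end Pool.QB
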