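import Pool.Agent.MP_c51823_gt.QB.J1a

/-!
# [QB-J1b] Facts about `β`. `m ↦ *` uniformly: `min u ≤ 1/(3 + a + b - 3k)`.
-/

set_option autoImplicit false
open Topology

namespace Pool.QB

/-- the number `k = min(re z, im z, 0)` -/
noncomputable def J1b_k (z : ℂ) : ℝ := min (min z.re z.im) 0

/-- the denominator `d` -/
noncomputable def J1b_d (z : ℂ) : ℝ := 3 + z.re + z.im - 3 * J1b_k z

theorem J1b_k_nonpos (z : ℂ) : J1b_k z ≤ 0 := min_le_right _ _

theorem J1b_k_re (z : ℂ) : J1b_k z ≤ z.re := (min_le_left _ _).trans (min_le_left _ _)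

theorem J1b_k_im (z : ℂ) : J1b_k z ≤ z.im := (min_le_left _ _).trans (min_le_right _ _)

theorem J1b_d_ge (z : ℂ) : 3 ≤ J1b_d z := by
  have := J1b_k_nonpos z
  have := J1b_k_re z
  have := J1b_k_im z
  unfold J1b_d
  linarith

theorem J1b_norm_le (z : ℂ) : ‖z‖ ≤ 2 * J1b_d z := by
  have h0 := J1b_k_nonpos z
  have h1 := J1b_k_re z
  have h2 := J1b_k_im z
  have hre : |z.re| ≤ J1b_d z := by
    rw [abs_le]; unfold J1b_d; constructor <;> linarith
  have him : |z.im| ≤ J1b_d z := by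
    rw [abs_le]; unfold J1b_d; constructor <;> linarith
  linarith [Complex.norm_le_abs_re_add_abs_im z]

theorem J1b_uOf (s : ℝ) (z : ℂ) : uOf s z = ![s, (1 - s) * (1 + z.re - J1b_k z) / J1b_d z,
    (1 - s) * (1 + z.im - J1b_k z) / J1b_d z, (1 - s) * (1 - J1b_k z) / J1b_d z] := rfl

/-- `(s, z) ↦ u ↦ (s, z)` -/
theorem uOf_mem {s : ℝ} (hs : s ∈ Set.Icc (0 : ℝ) 1) (z : ℂ) :
    (∀ i, 0 ≤ uOf s z i) ∧ ∑ i, uOf s z i = 1 := by
  have h0 := J1b_k_nonpos z
  have h1 := J1b_k_re z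
  have h2 := J1b_k_im z
  have hd := J1b_d_ge z
  have hd0 : 0 < J1b_d z := by linarith
  have hs1 : 0 ≤ 1 - s := sub_nonneg.2 hs.2
  rw [J1b_uOf]
  constructor
  · intro i
    fin_cases i
    · exact hs.1
    · exact div_nonneg (mul_nonneg hs1 (by linarith)) hd0.le
    · exact div_nonneg (mul_nonneg hs1 (by linarith)) hd0.le
    · exact div_nonneg (mul_nonneg hs1 (by linarith)) hd0.le
  · simp only [Fin.sum_univ_four, Matrix.cons_val_zero, Matrix.cons_val_one, Matrix.cons_val]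
    have h3 : (1 + z.re - J1b_k z) + (1 + z.im - J1b_k z) + (1 - J1b_k z) = J1b_d z := by
      unfold J1b_d; ring
    have h4 : (1 - s) * (1 + z.re - J1b_k z) / J1b_d z + (1 - s) * (1 + z.im - J1b_k z) / J1b_d z +
        (1 - s) * (1 - J1b_k z) / J1b_d z = 1 - s := by
      rw [← add_div, ← add_div, ← mul_add, ← mul_add, h3]
      exact mul_div_cancel_right₀ _ hd0.ne'
    linarith

theorem uOf_eq {u : Fin 4 → ℝ} (hu : ∀ i, 0 < u i) (hs : ∑ i, u i = 1) :
    uOf (u 0) (((u 1 - u 3 : ℝ) + (u 2 - u 3 : ℝ) * Complex.I) /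
      ((min (min (u 1) (u 2)) (u 3) : ℝ) : ℂ)) = u := by
  set w : ℝ := min (min (u 1) (u 2)) (u 3) with hw
  have hw0 : 0 < w := lt_min (lt_min (hu 1) (hu 2)) (hu 3)
  set z : ℂ := ((u 1 - u 3 : ℝ) + (u 2 - u 3 : ℝ) * Complex.I) / (w : ℂ) with hz
  have hre : z.re = (u 1 - u 3) / w := by
    rw [hz, Complex.div_ofReal_re]; simp
  have him : z.im = (u 2 - u 3) / w := by
    rw [hz, Complex.div_ofReal_im]; simp
  have hk : J1b_k z = (w - u 3) / w := by
    unfold J1b_k
    rw [hre, him]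
    have h0 : (0 : ℝ) = (u 3 - u 3) / w := by simp
    rw [h0, min_div_div_right hw0.le, min_div_div_right hw0.le, min_sub_sub_right,
      min_sub_sub_right]
  have hsum : u 1 + u 2 + u 3 = 1 - u 0 := by
    rw [Fin.sum_univ_four] at hs; linarith
  have hd : J1b_d z = (1 - u 0) / w := by
    unfold J1b_d
    rw [hre, him, hk, ← hsum]
    field_simp
    ring
  have hpos : 0 < 1 - u 0 := by rw [← hsum]; linarith [hu 1, hu 2, hu 3]
  have e1 : 1 + z.re - J1b_k z = u 1 / w := by rw [hre, hk]; field_simp; ring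
  have e2 : 1 + z.im - J1b_k z = u 2 / w := by rw [him, hk]; field_simp; ring
  have e3 : 1 - J1b_k z = u 3 / w := by rw [hk]; field_simp; ring
  rw [J1b_uOf, e1, e2, e3, hd]
  have key : ∀ a : ℝ, (1 - u 0) * (a / w) / ((1 - u 0) / w) = a := by
    intro a; field_simp
  rw [key, key, key]
  funext i
  fin_cases i <;> rfl

theorem J1b_clamp (s : ℝ) : max 0 (min 1 s) ∈ Set.Icc (0 : ℝ) 1 :=
  ⟨le_max_left _ _, max_le zero_le_one (min_le_left _ _)⟩

theorem bet_zero {m : ℝ} (hm : 0 < m) (hm' : m ≤ 1 / 8) (z : ℂ) : bet m 0 z = star := by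
  unfold bet
  have h := uOf_mem (J1b_clamp 0) z
  rw [gm_eq_star_iff hm hm' h.1 h.2]
  exact ⟨0, by rw [J1b_uOf]; simp⟩

theorem bet_one {m : ℝ} (hm : 0 < m) (hm' : m ≤ 1 / 8) (z : ℂ) : bet m 1 z = star := by
  unfold bet
  have h := uOf_mem (J1b_clamp 1) z
  rw [gm_eq_star_iff hm hm' h.1 h.2]
  exact ⟨1, by rw [J1b_uOf]; simp⟩

theorem bet_mem {m : ℝ} (hm : 0 < m) (hm' : m ≤ 1 / 8) (s : ℝ) (z : ℂ) :
    bet m s z ∈ Yset := by
  have h := uOf_mem (J1b_clamp s) z
  exact gm_mem hm hm' h.1 h.2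

theorem continuous_bet {m : ℝ} (hm : 0 < m) (hm' : m ≤ 1 / 8) :
    Continuous fun p : ℝ × ℂ => bet m p.1 p.2 := by
  unfold bet
  refine (continuous_gm hm hm').comp ?_
  have hk : Continuous fun p : ℝ × ℂ => J1b_k p.2 := by
    unfold J1b_k
    have := Complex.continuous_re
    have := Complex.continuous_im
    fun_prop
  have hd : Continuous fun p : ℝ × ℂ => J1b_d p.2 := by
    unfold J1b_d
    have := Complex.continuous_re
    have := Complex.continuous_im
    fun_prop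
  have hd0 : ∀ p : ℝ × ℂ, J1b_d p.2 ≠ 0 := fun p => by
    have := J1b_d_ge p.2
    linarith
  have hre : Continuous fun p : ℝ × ℂ => p.2.re := Complex.continuous_re.comp continuous_snd
  have him : Continuous fun p : ℝ × ℂ => p.2.im := Complex.continuous_im.comp continuous_snd
  refine continuous_pi fun i => ?_
  fin_cases i
  · change Continuous fun p : ℝ × ℂ => max 0 (min 1 p.1)
    fun_prop
  · change Continuous fun p : ℝ × ℂ =>
      (1 - max 0 (min 1 p.1)) * (1 + p.2.re - J1b_k p.2) / J1b_d p.2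
    exact Continuous.div (by fun_prop) hd hd0
  · change Continuous fun p : ℝ × ℂ =>
      (1 - max 0 (min 1 p.1)) * (1 + p.2.im - J1b_k p.2) / J1b_d p.2
    exact Continuous.div (by fun_prop) hd hd0
  · change Continuous fun p : ℝ × ℂ =>
      (1 - max 0 (min 1 p.1)) * (1 - J1b_k p.2) / J1b_d p.2
    exact Continuous.div (by fun_prop) hd hd0

theorem J1b_mn4_le {s : ℝ} (hs : s ∈ Set.Icc (0 : ℝ) 1) (z : ℂ) :
    mn4 (uOf s z) ≤ 1 / J1b_d z := by
  have hd := J1b_d_ge z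
  have hd0 : 0 < J1b_d z := by linarith
  have hs1 : 1 - s ≤ 1 := by linarith [hs.1]
  have key : ∀ (i : Fin 4), uOf s z i = (1 - s) * 1 / J1b_d z → mn4 (uOf s z) ≤ 1 / J1b_d z := by
    intro i hi
    refine (J1a_mn4_le _ i).trans ?_
    rw [hi]
    gcongr
    linarith
  rcases min_choice (min z.re z.im) 0 with h | h
  · rcases min_choice z.re z.im with h' | h'
    · refine key 1 ?_
      have : J1b_k z = z.re := by unfold J1b_k; rw [h, h']
      rw [J1b_uOf]
      simp [this]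
    · refine key 2 ?_
      have : J1b_k z = z.im := by unfold J1b_k; rw [h, h']
      rw [J1b_uOf]
      simp [this]
  · refine key 3 ?_
    have : J1b_k z = 0 := h
    rw [J1b_uOf]
    simp [this]

theorem J1b_gm_dist {m : ℝ} (hm : 0 < m) (hm' : m ≤ 1 / 8) {u : Fin 4 → ℝ} (hu : ∀ i, 0 ≤ u i)
    (hs : ∑ i, u i = 1) : dist (gm m u) star ≤ 2 * mn4 u / m := by
  have hmu0 : 0 ≤ min (mn4 u) m := le_min (J1a_mn4_nonneg hu) hm.le
  have hmum : min (mn4 u) m ≤ m := min_le_right _ _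
  have hmul : min (mn4 u) m ≤ mn4 u := min_le_left _ _
  have hn0 : 0 ≤ mn4 u := J1a_mn4_nonneg hu
  have hd : 1 / 2 ≤ 1 - 4 * min (mn4 u) m := by linarith
  have hle1 : ∀ b, u b ≤ 1 := fun b => by
    rw [← hs]
    exact Finset.single_le_sum (fun i _ => hu i) (Finset.mem_univ b)
  rw [dist_pi_le_iff (by positivity)]
  intro i
  refine Fin.lastCases ?_ (fun b => ?_) i
  · change dist (gm m u 4) (star 4) ≤ _
    rw [J1a_gm_four, J1a_star_four, Real.dist_eq]
    have : 1 - min (mn4 u) m / m - 1 = -(min (mn4 u) m / m) := by ring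
    rw [this, abs_neg, abs_of_nonneg (by positivity)]
    gcongr
    linarith
  · rw [J1a_gm_castSucc, J1a_star_castSucc, Real.dist_eq, sub_zero]
    have h1 : 0 ≤ u b - min (mn4 u) m :=
      sub_nonneg.2 ((min_le_left _ _).trans (J1a_mn4_le u b))
    rw [abs_of_nonneg (by
      have : 0 < 1 - 4 * min (mn4 u) m := by linarith
      positivity)]
    rw [div_le_iff₀ (by linarith)]
    have h2 : min (mn4 u) m / m * (u b - min (mn4 u) m) ≤ mn4 u / m * 1 := by
      apply mul_le_mul _ _ h1 (by positivity)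
      · gcongr
      · linarith [hle1 b]
    have h3 : mn4 u / m * 1 ≤ 2 * mn4 u / m * (1 - 4 * min (mn4 u) m) := by
      have h4 : 0 ≤ mn4 u / m := by positivity
      calc mn4 u / m * 1 = 2 * (mn4 u / m) * (1 / 2) := by ring
        _ ≤ 2 * (mn4 u / m) * (1 - 4 * min (mn4 u) m) := by gcongr
        _ = _ := by ring
    exact h2.trans h3

/-- `β → *` uniformly as `z → ∞`; tested on continuous functions -/
theorem bet_dec {m : ℝ} (hm : 0 < m) (hm' : m ≤ 1 / 8) (F : C(Fin 5 → ℝ, ℝ)) (h0 : F star = 0) :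
    ∀ ε > 0, ∃ R : ℝ, ∀ s ∈ Set.Icc (0 : ℝ) 1, ∀ z : ℂ, R < ‖z‖ → |F (bet m s z)| < ε := by
  intro ε hε
  obtain ⟨δ, hδ, hF⟩ := Metric.continuous_iff.1 F.continuous star ε hε
  refine ⟨4 / (m * δ), fun s hs z hz => ?_⟩
  have hR : 0 < 4 / (m * δ) := by positivity
  have hz0 : 0 < ‖z‖ := hR.trans hz
  have hcl : max 0 (min 1 s) = s := by
    rw [min_eq_right hs.2, max_eq_right hs.1]
  have hmem := uOf_mem hs z
  have hdist : dist (bet m s z) star < δ := by
    unfold bet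
    rw [hcl]
    refine (J1b_gm_dist hm hm' hmem.1 hmem.2).trans_lt ?_
    have hd := J1b_d_ge z
    have hd0 : 0 < J1b_d z := by linarith
    have h1 := J1b_mn4_le hs z
    have h2 := J1b_norm_le z
    have h3 : 1 / J1b_d z ≤ 2 / ‖z‖ := by
      rw [div_le_div_iff₀ hd0 hz0]; linarith
    have h4 : 2 * mn4 (uOf s z) / m ≤ 2 * (2 / ‖z‖) / m := by
      gcongr
      exact h1.trans h3
    refine h4.trans_lt ?_
    rw [div_lt_iff₀ hm]
    rw [div_lt_iff₀ (by positivity)] at hz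
    have : 2 * (2 / ‖z‖) = 4 / ‖z‖ := by ring
    rw [this, div_lt_iff₀ hz0]
    linarith
  have := hF _ hdist
  rwa [h0, Real.dist_eq, sub_zero] at this

end Pool.QB
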