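import Pool.Agent.MP_c51823_gt.QB.PDef
import Pool.Agent.MP_c51823_gt.QB.C2

/-!
# [QB-P4b] Proofs: QB_PROOF.md (5.2a) (telescoping of `N`), 5.4.
-/

set_option autoImplicit false
open Topology

namespace Pool.QB

namespace P4b_aux

/-! ### the value of `ι` on increasing tuples -/

theorem iota_mono {β : Fin 4 → Fin 5} (h01 : β 0 ≤ β 1) (h12 : β 1 ≤ β 2) (h23 : β 2 ≤ β 3)
    (h4 : ∀ i, β i ≠ 4) :
    iota β = if (β 0 : ℕ) = 0 ∧ (β 1 : ℕ) = 1 ∧ (β 2 : ℕ) = 2 ∧ (β 3 : ℕ) = 3 then 1 else 0 := by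
  unfold iota
  rw [if_neg (by push Not; exact h4)]
  rw [Fin.le_def] at h01 h12 h23
  have hlt : ∀ i, (β i : ℕ) ≠ 4 := fun i h => h4 i (Fin.ext h)
  split_ifs with h
  · obtain ⟨h0, h1, h2, h3⟩ := h
    rw [h0, h1, h2, h3]
    rfl
  · have hcases : (β 0 : ℕ) = (β 1 : ℕ) ∨ (β 1 : ℕ) = (β 2 : ℕ) ∨ (β 2 : ℕ) = (β 3 : ℕ) := by
      have := (β 3).2
      have := hlt 3
      omega
    rcases hcases with h' | h' | h' <;> rw [h'] <;> simp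

theorem bl_val {p : ℕ × ℕ × ℕ} (hp : p.1 < p.2.1) (hp' : p.2.1 < p.2.2) (v : ℕ) :
    (v < p.1 ∧ (bl p v : ℕ) = 0) ∨ (p.1 ≤ v ∧ v < p.2.1 ∧ (bl p v : ℕ) = 1) ∨
      (p.2.1 ≤ v ∧ v < p.2.2 ∧ (bl p v : ℕ) = 2) ∨ (p.2.2 ≤ v ∧ (bl p v : ℕ) = 3) := by
  unfold bl
  split_ifs with h1 h2 h3
  · left; exact ⟨h1, rfl⟩
  · right; left; exact ⟨by omega, h2, rfl⟩
  · right; right; left; exact ⟨by omega, h3, rfl⟩
  · right; right; right; exact ⟨by omega, rfl⟩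

theorem iota_bl {p : ℕ × ℕ × ℕ} (hp : p.1 < p.2.1) (hp' : p.2.1 < p.2.2) {v : Fin 4 → ℕ}
    (hv : Monotone v) : iota (fun i => bl p (v i)) =
      if (v 0 < p.1 ∧ p.1 ≤ v 1) ∧ (v 1 < p.2.1 ∧ p.2.1 ≤ v 2) ∧ (v 2 < p.2.2 ∧ p.2.2 ≤ v 3)
      then 1 else 0 := by
  have h01 : v 0 ≤ v 1 := hv (by decide)
  have h12 : v 1 ≤ v 2 := hv (by decide)
  have h23 : v 2 ≤ v 3 := hv (by decide)
  have b0 := bl_val hp hp' (v 0)
  have b1 := bl_val hp hp' (v 1)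
  have b2 := bl_val hp hp' (v 2)
  have b3 := bl_val hp hp' (v 3)
  rw [iota_mono]
  · congr 1
    apply propext
    constructor
    · rintro ⟨h0, h1, h2, h3⟩
      omega
    · rintro ⟨h0, h1, h2⟩
      omega
  · rw [Fin.le_def]; omega
  · rw [Fin.le_def]; omega
  · rw [Fin.le_def]; omega
  · intro i hi
    have bi := bl_val hp hp' (v i)
    have : (bl p (v i) : ℕ) = 4 := congrArg Fin.val hi
    omega

/-! ### telescoping -/

theorem prd_mem {τ : Finset ℕ} {a : ℕ} (ha : a ∈ cuts τ) : prd τ a ∈ τ ∧ prd τ a < a := by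
  unfold cuts at ha
  rw [Finset.mem_filter] at ha
  obtain ⟨haτ, b, hb, hba⟩ := ha
  have hne : (τ.filter (· < a)).Nonempty := ⟨b, Finset.mem_filter.2 ⟨hb, hba⟩⟩
  have h1 : prd τ a ∈ τ.filter (· < a) := by
    unfold prd
    obtain ⟨i, hi, hi'⟩ := Finset.exists_mem_eq_sup (τ.filter (· < a)) hne id
    rw [hi']
    exact hi
  rw [Finset.mem_filter] at h1
  exact h1

theorem le_prd {τ : Finset ℕ} {a b : ℕ} (hb : b ∈ τ) (hba : b < a) : b ≤ prd τ a := by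
  unfold prd
  exact Finset.le_sup (f := id) (Finset.mem_filter.2 ⟨hb, hba⟩)

theorem telescope (τ : Finset ℕ) (F : ℕ → ℕ → ℤ) (u : ℕ) (hu : u ∈ τ) (w : ℕ) :
    w ∈ τ → u ≤ w → F u u = 0 →
    (∀ y ∈ τ, ∀ z ∈ τ, u ≤ y → y ≤ z → z ≤ w → F u z = F u y + F y z) →
    ∑ a ∈ (cuts τ).filter (fun a => u < a ∧ a ≤ w), F (prd τ a) a = F u w := by
  induction w using Nat.strong_induction_on with
  | _ w ih =>
    intro hw huw h0 hadd
    rcases huw.eq_or_lt with h | h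
    · subst h
      rw [h0]
      apply Finset.sum_eq_zero
      intro a ha
      rw [Finset.mem_filter] at ha
      omega
    · have hwc : w ∈ cuts τ := by
        unfold cuts
        exact Finset.mem_filter.2 ⟨hw, u, hu, h⟩
      obtain ⟨hp1, hp2⟩ := prd_mem hwc
      have hup : u ≤ prd τ w := le_prd hu h
      have hfil : (cuts τ).filter (fun a => u < a ∧ a ≤ w) =
          insert w ((cuts τ).filter (fun a => u < a ∧ a ≤ prd τ w)) := by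
        ext a
        rw [Finset.mem_insert, Finset.mem_filter, Finset.mem_filter]
        constructor
        · rintro ⟨h1, h2, h3⟩
          by_cases haw : a = w
          · left; exact haw
          · right
            refine ⟨h1, h2, ?_⟩
            unfold cuts at h1
            exact le_prd (Finset.mem_filter.1 h1).1 (by omega)
        · rintro (h1 | ⟨h1, h2, h3⟩)
          · rw [h1]; exact ⟨hwc, h, le_rfl⟩
          · exact ⟨h1, h2, by omega⟩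
      rw [hfil, Finset.sum_insert, ih (prd τ w) hp2 hp1 hup h0, add_comm,
        hadd (prd τ w) hp1 w hw hup hp2.le le_rfl]
      · intro y hy z hz h1 h2 h3
        exact hadd y hy z hz h1 h2 (by omega)
      · intro hc
        rw [Finset.mem_filter] at hc
        omega

/-! ### normalised cocycles -/

theorem mono4 {a b c d : ℕ} (h1 : a ≤ b) (h2 : b ≤ c) (h3 : c ≤ d) : Monotone ![a, b, c, d] := by
  intro i j hij
  fin_cases i <;> fin_cases j <;> simp at hij ⊢ <;> omega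

theorem mono5 {a b c d e : ℕ} (h1 : a ≤ b) (h2 : b ≤ c) (h3 : c ≤ d) (h4 : d ≤ e) :
    Monotone ![a, b, c, d, e] := by
  intro i j hij
  fin_cases i <;> fin_cases j <;> simp at hij ⊢ <;> omega

theorem adm_of {A : Cx} {τ : Finset ℕ} (hτ : τ ∈ A.S) {n : ℕ} {v : Fin (n + 1) → ℕ}
    (hv : Monotone v) (hvτ : ∀ i, v i ∈ τ) : adm A v := by
  refine ⟨hv, A.down τ hτ _ ?_ ?_⟩
  · intro x hx
    rw [Finset.mem_image] at hx
    obtain ⟨i, -, rfl⟩ := hx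
    exact hvτ i
  · exact ⟨v 0, Finset.mem_image_of_mem _ (Finset.mem_univ _)⟩

theorem mem4 {τ : Finset ℕ} {a b c d : ℕ} (ha : a ∈ τ) (hb : b ∈ τ) (hc : c ∈ τ) (hd : d ∈ τ)
    (i : Fin 4) : ![a, b, c, d] i ∈ τ := by
  fin_cases i <;> assumption

theorem mem5 {τ : Finset ℕ} {a b c d e : ℕ} (ha : a ∈ τ) (hb : b ∈ τ) (hc : c ∈ τ) (hd : d ∈ τ)
    (he : e ∈ τ) (i : Fin 5) : ![a, b, c, d, e] i ∈ τ := by
  fin_cases i <;> assumption

theorem nor4 {A : Cx} {y : Coch 4 ℤ} (hy : NCoc A y) {τ : Finset ℕ} (hτ : τ ∈ A.S)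
    {a b c d : ℕ} (ha : a ∈ τ) (hb : b ∈ τ) (hc : c ∈ τ) (hd : d ∈ τ) (h1 : a ≤ b) (h2 : b ≤ c)
    (h3 : c ≤ d) (h : a = b ∨ b = c ∨ c = d) : y ![a, b, c, d] = 0 := by
  apply hy.nor _ (adm_of hτ (mono4 h1 h2 h3) (mem4 ha hb hc hd))
  intro hs
  have s1 : a < b := hs (show (0 : Fin 4) < 1 by decide)
  have s2 : b < c := hs (show (1 : Fin 4) < 2 by decide)
  have s3 : c < d := hs (show (2 : Fin 4) < 3 by decide)
  omega

theorem coc5 {A : Cx} {y : Coch 4 ℤ} (hy : NCoc A y) {τ : Finset ℕ} (hτ : τ ∈ A.S)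
    {a b c d e : ℕ} (ha : a ∈ τ) (hb : b ∈ τ) (hc : c ∈ τ) (hd : d ∈ τ) (he : e ∈ τ)
    (h1 : a ≤ b) (h2 : b ≤ c) (h3 : c ≤ d) (h4 : d ≤ e) :
    y ![b, c, d, e] - y ![a, c, d, e] + y ![a, b, d, e] - y ![a, b, c, e] + y ![a, b, c, d] = 0 := by
  have h := hy.coc ![a, b, c, d, e] (adm_of hτ (mono5 h1 h2 h3 h4) (mem5 ha hb hc hd he))
  unfold dd at h
  rw [Fin.sum_univ_five] at h
  have e0 : (fun j : Fin 4 => ![a, b, c, d, e] ((0 : Fin 5).succAbove j)) = ![b, c, d, e] := by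
    ext j; fin_cases j <;> rfl
  have e1 : (fun j : Fin 4 => ![a, b, c, d, e] ((1 : Fin 5).succAbove j)) = ![a, c, d, e] := by
    ext j; fin_cases j <;> rfl
  have e2 : (fun j : Fin 4 => ![a, b, c, d, e] ((2 : Fin 5).succAbove j)) = ![a, b, d, e] := by
    ext j; fin_cases j <;> rfl
  have e3 : (fun j : Fin 4 => ![a, b, c, d, e] ((3 : Fin 5).succAbove j)) = ![a, b, c, e] := by
    ext j; fin_cases j <;> rfl
  have e4 : (fun j : Fin 4 => ![a, b, c, d, e] ((4 : Fin 5).succAbove j)) = ![a, b, c, d] := by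
    ext j; fin_cases j <;> rfl
  rw [e0, e1, e2, e3, e4] at h
  have f0 : (-1 : ℤ) ^ ((0 : Fin 5) : ℕ) = 1 := by norm_num
  have f1 : (-1 : ℤ) ^ ((1 : Fin 5) : ℕ) = -1 := by norm_num
  have f2 : (-1 : ℤ) ^ ((2 : Fin 5) : ℕ) = 1 := by norm_num
  have f3 : (-1 : ℤ) ^ ((3 : Fin 5) : ℕ) = -1 := by norm_num
  have f4 : (-1 : ℤ) ^ ((4 : Fin 5) : ℕ) = 1 := by norm_num
  rw [f0, f1, f2, f3, f4] at h
  simp only [smul_eq_mul] at h
  linarith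

/-- additivity of `N` in the first interval -/
theorem NN_add {A : Cx} {y : Coch 4 ℤ} (hy : NCoc A y) {τ : Finset ℕ} (hτ : τ ∈ A.S)
    {a₁ a₂ a₃ b₁ b₂ c₁ c₂ : ℕ} (ha₁ : a₁ ∈ τ) (ha₂ : a₂ ∈ τ) (ha₃ : a₃ ∈ τ) (hb₁ : b₁ ∈ τ)
    (hb₂ : b₂ ∈ τ) (hc₁ : c₁ ∈ τ) (hc₂ : c₂ ∈ τ) (h1 : a₁ ≤ a₂) (h2 : a₂ ≤ a₃) (h3 : a₃ ≤ b₁)
    (h4 : b₁ ≤ b₂) (h5 : b₂ ≤ c₁) (h6 : c₁ ≤ c₂) :
    NN y a₁ a₃ b₁ b₂ c₁ c₂ = NN y a₁ a₂ b₁ b₂ c₁ c₂ + NN y a₂ a₃ b₁ b₂ c₁ c₂ := by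
  unfold NN
  have k1 := coc5 hy hτ ha₁ ha₂ ha₃ hb₂ hc₂ h1 h2 (h3.trans h4) (h5.trans h6)
  have k2 := coc5 hy hτ ha₁ ha₂ ha₃ hb₂ hc₁ h1 h2 (h3.trans h4) h5
  have k3 := coc5 hy hτ ha₁ ha₂ ha₃ hb₁ hc₂ h1 h2 h3 ((h4.trans h5).trans h6)
  have k4 := coc5 hy hτ ha₁ ha₂ ha₃ hb₁ hc₁ h1 h2 h3 (h4.trans h5)
  linarith

/-! ### block masses -/

theorem XX_mono {τ : Finset ℕ} {x : ℕ → ℝ} (hx : x ∈ simp τ) {a b : ℕ} (h : a ≤ b) :
    XX x a ≤ XX x b := by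
  unfold XX
  exact Finset.sum_le_sum_of_subset_of_nonneg (Finset.range_mono h) fun i _ _ => hx.1 i

theorem XX_succ (x : ℕ → ℝ) (a : ℕ) : XX x (a + 1) = XX x a + x a := by
  unfold XX
  rw [Finset.sum_range_succ]

theorem XX_nonneg {τ : Finset ℕ} {x : ℕ → ℝ} (hx : x ∈ simp τ) (a : ℕ) : 0 ≤ XX x a :=
  Finset.sum_nonneg fun i _ => hx.1 i

theorem XX_le_one {τ : Finset ℕ} {x : ℕ → ℝ} (hx : x ∈ simp τ) (a : ℕ) : XX x a ≤ 1 := by
  rw [← hx.2.2]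
  unfold XX
  have h1 : ∑ i ∈ Finset.range a, x i = ∑ i ∈ (Finset.range a).filter (· ∈ τ), x i := by
    symm
    apply Finset.sum_filter_of_ne
    intro i _ hi
    by_contra hn
    exact hi (hx.2.1 i hn)
  rw [h1]
  apply Finset.sum_le_sum_of_subset_of_nonneg
  · intro i hi
    exact (Finset.mem_filter.1 hi).2
  · intro i _ _
    exact hx.1 i

end P4b_aux

open P4b_aux

/-- [QB-P4b] (5.2a) -/
theorem y_eq_sum (A : Cx) (y : Coch 4 ℤ) (hy : NCoc A y) (τ : Finset ℕ) (hτ : τ ∈ A.S)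
    (v : Fin 4 → ℕ) (hv : Monotone v) (hvτ : ∀ i, v i ∈ τ) :
    y v = ∑ p ∈ ctri τ, xi y τ p * iota (fun i => bl p (v i)) := by
  have h01 : v 0 ≤ v 1 := hv (by decide)
  have h12 : v 1 ≤ v 2 := hv (by decide)
  have h23 : v 2 ≤ v 3 := hv (by decide)
  -- rewrite the right side as a triple sum
  have hR : ∑ p ∈ ctri τ, xi y τ p * iota (fun i => bl p (v i)) =
      ∑ a ∈ (cuts τ).filter (fun a => v 0 < a ∧ a ≤ v 1),
        ∑ b ∈ (cuts τ).filter (fun b => v 1 < b ∧ b ≤ v 2),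
          ∑ c ∈ (cuts τ).filter (fun c => v 2 < c ∧ c ≤ v 3),
            NN y (prd τ a) a (prd τ b) b (prd τ c) c := by
    have h1 : ∑ p ∈ ctri τ, xi y τ p * iota (fun i => bl p (v i)) =
        ∑ p ∈ ((cuts τ).filter (fun a => v 0 < a ∧ a ≤ v 1)) ×ˢ
          ((cuts τ).filter (fun b => v 1 < b ∧ b ≤ v 2)) ×ˢ
          ((cuts τ).filter (fun c => v 2 < c ∧ c ≤ v 3)), xi y τ p := by
      have h2 : ∀ p ∈ ctri τ, xi y τ p * iota (fun i => bl p (v i)) =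
          if (v 0 < p.1 ∧ p.1 ≤ v 1) ∧ (v 1 < p.2.1 ∧ p.2.1 ≤ v 2) ∧ (v 2 < p.2.2 ∧ p.2.2 ≤ v 3)
          then xi y τ p else 0 := by
        intro p hp
        unfold ctri at hp
        rw [Finset.mem_filter] at hp
        rw [iota_bl hp.2.1 hp.2.2 hv]
        split_ifs
        · rw [mul_one]
        · rw [mul_zero]
      rw [Finset.sum_congr rfl h2, ← Finset.sum_filter]
      apply Finset.sum_congr _ fun _ _ => rfl
      ext p
      unfold ctri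
      simp only [Finset.mem_filter, Finset.mem_product]
      constructor
      · rintro ⟨⟨⟨h1, h2, h3⟩, h4⟩, h5, h6, h7⟩
        exact ⟨⟨h1, h5⟩, ⟨h2, h6⟩, ⟨h3, h7⟩⟩
      · rintro ⟨⟨h1, h5⟩, ⟨h2, h6⟩, ⟨h3, h7⟩⟩
        exact ⟨⟨⟨h1, h2, h3⟩, by omega⟩, h5, h6, h7⟩
    rw [h1, Finset.sum_product]
    apply Finset.sum_congr rfl
    intro a _
    rw [Finset.sum_product]
    rfl
  rw [hR]
  -- the sum over `c`
  have hC : ∀ a b : ℕ, ∑ c ∈ (cuts τ).filter (fun c => v 2 < c ∧ c ≤ v 3),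
      NN y (prd τ a) a (prd τ b) b (prd τ c) c = NN y (prd τ a) a (prd τ b) b (v 2) (v 3) := by
    intro a b
    apply telescope τ (fun c₁ c₂ => NN y (prd τ a) a (prd τ b) b c₁ c₂) (v 2) (hvτ 2) (v 3)
      (hvτ 3) h23
    · unfold NN; ring
    · intro y' _ z' _ _ _ _
      unfold NN; ring
  have hB : ∀ a : ℕ, ∑ b ∈ (cuts τ).filter (fun b => v 1 < b ∧ b ≤ v 2),
      NN y (prd τ a) a (prd τ b) b (v 2) (v 3) = NN y (prd τ a) a (v 1) (v 2) (v 2) (v 3) := by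
    intro a
    apply telescope τ (fun b₁ b₂ => NN y (prd τ a) a b₁ b₂ (v 2) (v 3)) (v 1) (hvτ 1) (v 2)
      (hvτ 2) h12
    · unfold NN; ring
    · intro y' _ z' _ _ _ _
      unfold NN; ring
  have hA : ∑ a ∈ (cuts τ).filter (fun a => v 0 < a ∧ a ≤ v 1),
      NN y (prd τ a) a (v 1) (v 2) (v 2) (v 3) = NN y (v 0) (v 1) (v 1) (v 2) (v 2) (v 3) := by
    apply telescope τ (fun a₁ a₂ => NN y a₁ a₂ (v 1) (v 2) (v 2) (v 3)) (v 0) (hvτ 0) (v 1)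
      (hvτ 1) h01
    · unfold NN
      rw [nor4 hy hτ (hvτ 0) (hvτ 0) (hvτ 2) (hvτ 3) le_rfl (h01.trans h12) h23 (Or.inl rfl),
        nor4 hy hτ (hvτ 0) (hvτ 0) (hvτ 2) (hvτ 2) le_rfl (h01.trans h12) le_rfl (Or.inl rfl),
        nor4 hy hτ (hvτ 0) (hvτ 0) (hvτ 1) (hvτ 3) le_rfl h01 (h12.trans h23) (Or.inl rfl),
        nor4 hy hτ (hvτ 0) (hvτ 0) (hvτ 1) (hvτ 2) le_rfl h01 h12 (Or.inl rfl)]
      ring
    · intro a₂ ha₂ a₃ ha₃ h1 h2 h3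
      exact NN_add hy hτ (hvτ 0) ha₂ ha₃ (hvτ 1) (hvτ 2) (hvτ 2) (hvτ 3) h1 h2 h3 h12 le_rfl h23
  have h1 : ∀ a ∈ (cuts τ).filter (fun a => v 0 < a ∧ a ≤ v 1),
      ∑ b ∈ (cuts τ).filter (fun b => v 1 < b ∧ b ≤ v 2),
          ∑ c ∈ (cuts τ).filter (fun c => v 2 < c ∧ c ≤ v 3),
            NN y (prd τ a) a (prd τ b) b (prd τ c) c =
        NN y (prd τ a) a (v 1) (v 2) (v 2) (v 3) := by
    intro a _
    rw [Finset.sum_congr rfl fun b _ => hC a b]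
    exact hB a
  rw [Finset.sum_congr rfl h1, hA]
  unfold NN
  rw [nor4 hy hτ (hvτ 0) (hvτ 1) (hvτ 2) (hvτ 2) h01 h12 le_rfl (Or.inr (Or.inr rfl)),
    nor4 hy hτ (hvτ 0) (hvτ 1) (hvτ 1) (hvτ 3) h01 le_rfl (h12.trans h23) (Or.inr (Or.inl rfl)),
    nor4 hy hτ (hvτ 0) (hvτ 1) (hvτ 1) (hvτ 2) h01 le_rfl h12 (Or.inr (Or.inl rfl))]
  have hvv : v = ![v 0, v 1, v 2, v 3] := by
    ext i; fin_cases i <;> rfl
  rw [← hvv]
  ring

/-- block masses of a point of the simplex -/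
theorem ub_mem {τ : Finset ℕ} {x : ℕ → ℝ} (hx : x ∈ simp τ) {p : ℕ × ℕ × ℕ} (hp : p.1 < p.2.1)
    (hp' : p.2.1 < p.2.2) : (∀ i, 0 ≤ ub x p i) ∧ ∑ i, ub x p i = 1 := by
  have h1 := XX_mono hx hp.le
  have h2 := XX_mono hx hp'.le
  have h3 := XX_le_one hx p.2.2
  have h0 := XX_nonneg hx p.1
  constructor
  · intro i
    fin_cases i
    · show 0 ≤ XX x p.1
      exact h0
    · show 0 ≤ XX x p.2.1 - XX x p.1
      linarith
    · show 0 ≤ XX x p.2.2 - XX x p.2.1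
      linarith
    · show 0 ≤ 1 - XX x p.2.2
      linarith
  · rw [Fin.sum_univ_four]
    show XX x p.1 + (XX x p.2.1 - XX x p.1) + (XX x p.2.2 - XX x p.2.1) + (1 - XX x p.2.2) = 1
    ring

/-- `u_{bl(v)} ≥ x_v` -/
theorem le_ub {τ : Finset ℕ} {x : ℕ → ℝ} (hx : x ∈ simp τ) {p : ℕ × ℕ × ℕ} (hp : p.1 < p.2.1)
    (hp' : p.2.1 < p.2.2) (v : ℕ) (k : Fin 4) (hk : bl p v = k.castSucc) : x v ≤ ub x p k := by
  have hs := XX_succ x v
  have h0 := XX_nonneg hx v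
  have hb := bl_val hp hp' v
  have hk' : (bl p v : ℕ) = (k : ℕ) := by rw [hk]; rfl
  rw [hk'] at hb
  fin_cases k
  · show x v ≤ XX x p.1
    have h1 : v < p.1 := by simpa using hb
    have := XX_mono hx (show v + 1 ≤ p.1 by omega)
    linarith
  · show x v ≤ XX x p.2.1 - XX x p.1
    have h1 : p.1 ≤ v ∧ v < p.2.1 := by simpa using hb
    have := XX_mono hx (show v + 1 ≤ p.2.1 by omega)
    have := XX_mono hx h1.1
    linarith
  · show x v ≤ XX x p.2.2 - XX x p.2.1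
    have h1 : p.2.1 ≤ v ∧ v < p.2.2 := by simpa using hb
    have := XX_mono hx (show v + 1 ≤ p.2.2 by omega)
    have := XX_mono hx h1.1
    linarith
  · show x v ≤ 1 - XX x p.2.2
    have h1 : p.2.2 ≤ v := by simpa using hb
    have := XX_le_one hx (v + 1)
    have := XX_mono hx h1
    linarith

end Pool.QB
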