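import Pool.Agent.MP_c51823_gt.QB.P5a
import Pool.Agent.MP_c51823_gt.QB.P4b
import Pool.Agent.MP_c51823_gt.QB.J1b
import Pool.Agent.MP_c51823_gt.QB.E1a

/-!
# [QB-P5c] Proof: QB_PROOF.md 5.5 (polynomials `D_j(x)`).
-/

set_option autoImplicit false
open Topology

namespace Pool.QB

/-- partial sums through the enumeration of the support -/
theorem p5c_XX {τ : Finset ℕ} {k : ℕ} (h : τ.card = k + 1) {x : ℕ → ℝ} (hx : x ∈ simp τ) (v : ℕ) :
    XX x v = ∑ l : Fin (k + 1), if τ.orderEmbOfFin h l < v then x (τ.orderEmbOfFin h l) else 0 := by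
  classical
  have h1 : XX x v = ∑ u ∈ τ, if u < v then x u else 0 := by
    unfold XX
    rw [← Finset.sum_filter]
    have h2 : τ.filter (· < v) = (Finset.range v).filter (· ∈ τ) := by
      ext u
      simp only [Finset.mem_filter, Finset.mem_range]
      tauto
    rw [h2, Finset.sum_filter]
    refine Finset.sum_congr rfl fun u _ => ?_
    split_ifs with hu
    · rfl
    · exact hx.2.1 u hu
  rw [h1]
  conv_lhs => rw [← τ.map_orderEmbOfFin_univ h]
  rw [Finset.sum_map]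
  rfl

/-- the point of the simplex of dimension `k` -/
noncomputable def p5cX {τ : Finset ℕ} {k : ℕ} (h : τ.card = k + 1) {x : ℕ → ℝ} (hx : x ∈ simp τ) :
    Dl k :=
  ⟨fun l => x (τ.orderEmbOfFin h l), fun l => hx.1 _, by
    have h1 : ∑ u ∈ τ, x u = 1 := hx.2.2
    rw [← τ.map_orderEmbOfFin_univ h, Finset.sum_map] at h1
    exact h1⟩

theorem p5c_cum {τ : Finset ℕ} {k : ℕ} (h : τ.card = k + 1) {x : ℕ → ℝ} (hx : x ∈ simp τ) (v i : ℕ)
    (hvi : ∀ l : Fin (k + 1), τ.orderEmbOfFin h l < v ↔ (l : ℕ) < i) :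
    cum (p5cX h hx) i = XX x v := by
  rw [p5c_XX h hx v]
  unfold cum
  refine Finset.sum_congr rfl fun l _ => ?_
  by_cases hl : (l : ℕ) < i
  · rw [if_pos hl, if_pos ((hvi l).2 hl)]; rfl
  · rw [if_neg hl, if_neg fun h' => hl ((hvi l).1 h')]

theorem p5c_cum_mem {τ : Finset ℕ} {k : ℕ} (h : τ.card = k + 1) {x : ℕ → ℝ} (hx : x ∈ simp τ)
    (i : Fin (k + 1)) : cum (p5cX h hx) i = XX x (τ.orderEmbOfFin h i) :=
  p5c_cum h hx _ _ fun l => by
    rw [(τ.orderEmbOfFin h).lt_iff_lt]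
    exact Fin.lt_def

/-- the first coordinate -/
theorem p5c_fst {τ : Finset ℕ} {k : ℕ} (h : τ.card = k + 1) {x : ℕ → ℝ} (hx : x ∈ simp τ) (M : ℕ)
    (hM : ∀ v ∈ τ, v < M) (g : C(ℝ, ℝ)) :
    Finset.univ.sup' ⟨0, Finset.mem_univ _⟩ (fun i : Fin (k + 2) => g (cum (p5cX h hx) i)) =
      (Finset.range (M + 1)).sup' ⟨0, by simp⟩ (fun v => g (XX x v)) := by
  apply le_antisymm
  · refine Finset.sup'_le _ _ fun i _ => ?_
    rcases Nat.lt_or_ge i (k + 1) with hi | hi
    · have h1 := p5c_cum_mem h hx ⟨i, hi⟩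
      have h2 : τ.orderEmbOfFin h ⟨i, hi⟩ < M := hM _ (τ.orderEmbOfFin_mem h _)
      simp only at h1
      rw [h1]
      exact Finset.le_sup' (fun v => g (XX x v)) (Finset.mem_range.2 (by omega))
    · have h1 : cum (p5cX h hx) i = XX x M := p5c_cum h hx _ _ fun l => by
        constructor
        · intro _; have := l.2; omega
        · intro _; exact hM _ (τ.orderEmbOfFin_mem h _)
      rw [h1]
      exact Finset.le_sup' (fun v => g (XX x v)) (Finset.mem_range.2 (by omega))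
  · refine Finset.sup'_le _ _ fun v _ => ?_
    have hex : ∃ n : ℕ, k + 1 ≤ n ∨ ∃ hn : n < k + 1, v ≤ τ.orderEmbOfFin h ⟨n, hn⟩ :=
      ⟨k + 1, Or.inl le_rfl⟩
    classical
    have h1 := Nat.find_spec hex
    have h2 : Nat.find hex ≤ k + 1 := Nat.find_min' hex (Or.inl le_rfl)
    have h3 : cum (p5cX h hx) (Nat.find hex) = XX x v := p5c_cum h hx _ _ fun l => by
      constructor
      · intro hl
        by_contra hc
        rw [not_lt] at hc
        rcases h1 with h1 | ⟨hn, h1⟩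
        · have := l.2; omega
        · have h4 : (⟨Nat.find hex, hn⟩ : Fin (k + 1)) ≤ l := hc
          have h5 := (τ.orderEmbOfFin h).monotone h4
          omega
      · intro hl
        have h4 := Nat.find_min hex hl
        push Not at h4
        exact h4.2 l.2
    rw [← h3]
    exact Finset.le_sup' (fun i : Fin (k + 2) => g (cum (p5cX h hx) i))
      (Finset.mem_univ (⟨Nat.find hex, by omega⟩ : Fin (k + 2)))

/-- positivity of the block masses at a cut triple of the support -/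
theorem p5c_pos {τ : Finset ℕ} {x : ℕ → ℝ} (hx : x ∈ simp τ) (hp : ∀ v ∈ τ, 0 < x v)
    {p : ℕ × ℕ × ℕ} (h : p ∈ ctri τ) : (∀ i, 0 < ub x p i) ∧ ∑ i, ub x p i = 1 := by
  unfold ctri at h
  simp only [Finset.mem_filter, Finset.mem_product] at h
  obtain ⟨⟨ha, hb, hc⟩, h1, h2⟩ := h
  unfold cuts at ha hb hc
  simp only [Finset.mem_filter] at ha hb hc
  obtain ⟨ha, a', ha', haa⟩ := ha
  obtain ⟨hsum, htot⟩ := ub_mem hx h1 h2
  refine ⟨fun i => ?_, htot⟩
  have key : ∀ v ∈ τ, ∀ k : Fin 4, bl p v = k.castSucc → 0 < ub x p k := fun v hv k hk =>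
    lt_of_lt_of_le (hp v hv) (le_ub hx h1 h2 v k hk)
  fin_cases i
  · exact key a' ha' 0 (by unfold bl; rw [if_pos haa]; rfl)
  · exact key p.1 ha 1 (by unfold bl; rw [if_neg (lt_irrefl _), if_pos h1]; rfl)
  · exact key p.2.1 hb.1 2 (by
      unfold bl; rw [if_neg (by omega), if_neg (lt_irrefl _), if_pos h2]; rfl)
  · exact key p.2.2 hc.1 3 (by
      unfold bl; rw [if_neg (by omega), if_neg (by omega), if_neg (lt_irrefl _)]; rfl)

/-- the root -/
noncomputable def p5cz (u : Fin 4 → ℝ) : ℂ :=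
  ((u 1 - u 3 : ℝ) + (u 2 - u 3 : ℝ) * Complex.I) / ((min (min (u 1) (u 2)) (u 3) : ℝ) : ℂ)

/-- the polynomials `D_j` -/
noncomputable def p5cP (y : Coch 4 ℤ) (τ : Finset ℕ) (x : ℕ → ℝ) (a : ℕ) : Polynomial ℂ :=
  ∏ p ∈ (ctri τ).filter (fun p => p.1 = a),
    (Polynomial.X - Polynomial.C (p5cz (ub x p))) ^ (xi y τ p).toNat

theorem p5cP_ne (y : Coch 4 ℤ) (τ : Finset ℕ) (x : ℕ → ℝ) (a : ℕ) : p5cP y τ x a ≠ 0 :=
  Finset.prod_ne_zero_iff.2 fun p _ => pow_ne_zero _ (Polynomial.X_sub_C_ne_zero _)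

theorem p5cP_deg (y : Coch 4 ℤ) (τ : Finset ℕ) (x : ℕ → ℝ) (a : ℕ) :
    (p5cP y τ x a).natDegree ≤ ∑ p ∈ ctri τ, (xi y τ p).toNat := by
  unfold p5cP
  refine (Polynomial.natDegree_prod_le _ _).trans ?_
  refine (Finset.sum_le_sum (g := fun p => (xi y τ p).toNat) fun _ _ => ?_).trans
    (Finset.sum_le_sum_of_subset (Finset.filter_subset _ _))
  refine (Polynomial.natDegree_pow_le).trans ?_
  rw [Polynomial.natDegree_X_sub_C, mul_one]

theorem p5cP_roots (y : Coch 4 ℤ) (τ : Finset ℕ) (x : ℕ → ℝ) (a : ℕ) :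
    (p5cP y τ x a).roots = ∑ p ∈ (ctri τ).filter (fun p => p.1 = a),
      Multiset.replicate (xi y τ p).toNat (p5cz (ub x p)) := by
  have h := p5cP_ne y τ x a
  unfold p5cP at h ⊢
  rw [Polynomial.roots_prod _ _ h]
  refine Finset.sum_congr rfl fun p _ => ?_
  rw [Polynomial.roots_pow, Polynomial.roots_X_sub_C, Multiset.nsmul_singleton]

/-- reindexing -/
theorem p5c_reindex {τ : Finset ℕ} {k : ℕ} (h : τ.card = k + 1) {R : Type*} [AddCommMonoid R]
    (g : ℕ × ℕ × ℕ → R) :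
    ∑ j : Fin k, ∑ p ∈ (ctri τ).filter (fun p => p.1 = τ.orderEmbOfFin h j.succ), g p =
      ∑ p ∈ ctri τ, g p := by
  classical
  simp only [Finset.sum_filter]
  rw [Finset.sum_comm]
  refine Finset.sum_congr rfl fun p hp => ?_
  unfold ctri at hp
  simp only [Finset.mem_filter, Finset.mem_product] at hp
  obtain ⟨⟨ha, -, -⟩, -, -⟩ := hp
  unfold cuts at ha
  rw [Finset.mem_filter] at ha
  obtain ⟨ha, a', ha', haa⟩ := ha
  have h1 : p.1 ∈ Set.range (τ.orderEmbOfFin h) := by rw [τ.range_orderEmbOfFin h]; exact ha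
  have h2 : a' ∈ Set.range (τ.orderEmbOfFin h) := by rw [τ.range_orderEmbOfFin h]; exact ha'
  obtain ⟨i, hi⟩ := h1
  obtain ⟨i', hi'⟩ := h2
  have h3 : i' < i := by
    rw [← (τ.orderEmbOfFin h).lt_iff_lt, hi, hi']; exact haa
  have h4 : i ≠ 0 := fun h0 => by rw [h0] at h3; exact absurd h3 (Fin.not_lt_zero _)
  obtain ⟨j, rfl⟩ := Fin.exists_succ_eq.2 h4
  rw [Finset.sum_eq_single j]
  · rw [if_pos hi.symm]
  · intro j' _ hj'
    refine if_neg fun h5 => hj' ?_
    rw [← hi] at h5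
    exact (Fin.succ_injective _ ((τ.orderEmbOfFin h).injective h5)).symm
  · intro h5; exact absurd (Finset.mem_univ _) h5

theorem p5c_map_sum {ι α β : Type*} (s : Finset ι) (f : ι → Multiset α) (g : α → β) :
    (∑ i ∈ s, f i).map g = ∑ i ∈ s, (f i).map g := by
  have h := map_sum (Multiset.mapAddMonoidHom g) f s
  exact h

theorem p5c_sum_sum {ι : Type*} (s : Finset ι) (f : ι → Multiset ℝ) :
    (∑ i ∈ s, f i).sum = ∑ i ∈ s, (f i).sum := by
  have h := map_sum (Multiset.sumAddMonoidHom : Multiset ℝ →+ ℝ) f s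
  exact h

open Classical in
/-- [QB-P5c] `Φ_y(x)` is in the image of a characteristic map (the polynomials `D_j(x)`), and its
configuration. -/
theorem PhiV_chi (A : Cx) (y : Coch 4 ℤ) (hy : NCoc A y)
    (hpos : ∀ τ ∈ A.S, ∀ p ∈ ctri τ, 0 ≤ xi y τ p) (M : ℕ) (hM : ∀ τ ∈ A.S, ∀ v ∈ τ, v < M)
    {m : ℝ} (hm : 0 < m) (hm' : m ≤ 1 / 8) (x : ℕ → ℝ) (hx : x ∈ A.real) (b : ℕ)
    (hb : ∑ p ∈ ctri (fsupp x), (xi y (fsupp x) p).toNat ≤ b) :
    ∃ (k : ℕ) (X : Dl k) (f : Fin k → CP b), k + 1 = (fsupp x).card ∧ chi X f = PhiV y M x ∧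
      (∑ j : Fin k, (rts (f j).1).map (fun z => bet m (cum X (j + 1)) z)).filter (· ≠ star) =
        ((ctri (fsupp x)).val.bind fun p =>
          Multiset.replicate (xi y (fsupp x) p).toNat (gm m (ub x p))).filter (· ≠ star) := by
  have hτ : fsupp x ∈ A.S := fsupp_mem A hx
  have hxs : x ∈ simp (fsupp x) := mem_simp_fsupp A hx
  have hxp : ∀ v ∈ fsupp x, 0 < x v := fun v hv => (mem_fsupp_iff_pos A hx v).1 hv
  set τ := fsupp x with hτd
  have hne : τ.Nonempty := A.ne τ hτ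
  obtain ⟨k, hk⟩ : ∃ k, τ.card = k + 1 := Nat.exists_eq_succ_of_ne_zero hne.card_pos.ne'
  have hrts : ∀ a, rts (line (p5cP y τ x a)) = ∑ p ∈ (ctri τ).filter (fun p => p.1 = a),
      Multiset.replicate (xi y τ p).toNat (p5cz (ub x p)) := fun a => by
    rw [rts_line (p5cP_ne y τ x a), p5cP_roots]
  -- the first coordinate of the block masses
  have hu0 : ∀ p, ub x p 0 = XX x p.1 := fun p => rfl
  refine ⟨k, p5cX hk hxs, fun j => ⟨line (p5cP y τ x (τ.orderEmbOfFin hk j.succ)),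
    line_mem (p5cP_ne _ _ _ _) ((p5cP_deg _ _ _ _).trans hb)⟩, hk.symm, ?_, ?_⟩
  · unfold chi PhiV
    refine Prod.ext ?_ ?_
    · funext g
      exact p5c_fst hk hxs M (hM τ hτ) g
    · funext F
      simp only
      rw [← hτd, ← p5c_reindex hk (fun p => (xi y τ p : ℝ) * Fh F (ub x p))]
      refine Finset.sum_congr rfl fun j _ => ?_
      rw [hrts, p5c_map_sum, p5c_sum_sum]
      refine Finset.sum_congr rfl fun p hp => ?_
      rw [Finset.mem_filter] at hp
      obtain ⟨hp, hp1⟩ := hp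
      rw [Multiset.map_replicate, Multiset.sum_replicate, nsmul_eq_mul]
      obtain ⟨hup, hut⟩ := p5c_pos hxs hxp hp
      have h1 : cum (p5cX hk hxs) (j + 1) = ub x p 0 := by
        rw [hu0, hp1]
        exact p5c_cum_mem hk hxs j.succ
      unfold Fh
      rw [if_pos hup, h1]
      congr 1
      have h2 := hpos τ hτ p hp
      have h3 : (((xi y τ p).toNat : ℤ) : ℝ) = (xi y τ p : ℝ) := by rw [Int.toNat_of_nonneg h2]
      rw [← h3]
      push_cast
      rfl
  · congr 1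
    have h0 : ((ctri τ).val.bind fun p => Multiset.replicate (xi y τ p).toNat (gm m (ub x p))) =
        ∑ p ∈ ctri τ, Multiset.replicate (xi y τ p).toNat (gm m (ub x p)) := rfl
    rw [h0, ← p5c_reindex hk (fun p => Multiset.replicate (xi y τ p).toNat (gm m (ub x p)))]
    refine Finset.sum_congr rfl fun j _ => ?_
    rw [hrts, p5c_map_sum]
    refine Finset.sum_congr rfl fun p hp => ?_
    rw [Finset.mem_filter] at hp
    obtain ⟨hp, hp1⟩ := hp
    rw [Multiset.map_replicate]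
    congr 1
    obtain ⟨hup, hut⟩ := p5c_pos hxs hxp hp
    have h1 : cum (p5cX hk hxs) (j + 1) = ub x p 0 := by
      rw [hu0, hp1]
      exact p5c_cum_mem hk hxs j.succ
    have h2 : ub x p 0 ≤ 1 := by
      rw [← hut]
      exact Finset.single_le_sum (f := ub x p) (fun i _ => (hup i).le) (Finset.mem_univ 0)
    unfold bet
    rw [h1, min_eq_right h2, max_eq_right (hup 0).le]
    congr 1
    exact uOf_eq hup hut

end Pool.QB
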