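import Pool.Agent.MP_c51823_gt.QB.P5b
import Pool.Agent.MP_c51823_gt.QB.P5c
import Pool.Agent.MP_c51823_gt.QB.J3

/-!
# [QB-P5] From P5b, P5c, J3: `n` = max card, `N` with `2^{N-n}-1 ≥` all totals.
-/

set_option autoImplicit false
open Topology

namespace Pool.QB

open Classical in
/-- [QB-P5] The map `Φ_y : |A| → E(N,n)` (5.5). -/
theorem exists_Phi (A : Cx) (y : Coch 4 ℤ) (hy : NCoc A y)
    (hpos : ∀ τ ∈ A.S, ∀ p ∈ ctri τ, 0 ≤ xi y τ p) {m : ℝ} (hm : 0 < m) (hm' : m ≤ 1 / 8) :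
    ∃ N n : ℕ, n ≤ N ∧ ∃ Φ : C(A.real, Es N (n + 1)), ∀ x : A.real,
      JJ m (Φ x).1 = ((ctri (fsupp x.1)).val.bind fun p =>
        Multiset.replicate (xi y (fsupp x.1) p).toNat (gm m (ub x.1 p))).filter (· ≠ star) := by
  obtain ⟨M, hM⟩ : ∃ M : ℕ, ∀ τ ∈ A.S, ∀ v ∈ τ, v < M := by
    refine ⟨A.S.sup (fun τ => τ.sup id) + 1, fun τ hτ v hv => ?_⟩
    have h1 : v ≤ τ.sup id := Finset.le_sup (f := id) hv
    have h2 : τ.sup id ≤ A.S.sup (fun τ => τ.sup id) := Finset.le_sup (f := fun τ => τ.sup id) hτ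
    omega
  obtain ⟨n, hn⟩ : ∃ n : ℕ, ∀ τ ∈ A.S, τ.card ≤ n :=
    ⟨A.S.sup Finset.card, fun τ hτ => Finset.le_sup (f := Finset.card) hτ⟩
  obtain ⟨b, hb⟩ : ∃ b : ℕ, ∀ τ ∈ A.S, ∑ p ∈ ctri τ, (xi y τ p).toNat ≤ b :=
    ⟨A.S.sup (fun τ => ∑ p ∈ ctri τ, (xi y τ p).toNat), fun τ hτ =>
      Finset.le_sup (f := fun τ => ∑ p ∈ ctri τ, (xi y τ p).toNat) hτ⟩
  have hkey : ∀ x : A.real, ∃ (k : ℕ) (X : Dl k) (f : Fin k → CP (2 ^ (n + b + 1 - k) - 1)),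
      k < n + 1 ∧ chi X f = PhiV y M x.1 ∧
      (∑ j : Fin k, (rts (f j).1).map (fun z => bet m (cum X (j + 1)) z)).filter (· ≠ star) =
        ((ctri (fsupp x.1)).val.bind fun p =>
          Multiset.replicate (xi y (fsupp x.1) p).toNat (gm m (ub x.1 p))).filter (· ≠ star) := by
    intro x
    have hx : fsupp x.1 ∈ A.S := fsupp_mem A x.2
    have h1 := hn _ hx
    have h2 := hb _ hx
    have h3 : b ≤ 2 ^ (n + b + 1 - ((fsupp x.1).card - 1)) - 1 := by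
      have h4 : b < 2 ^ b := Nat.lt_two_pow_self
      have h5 : 2 ^ b ≤ 2 ^ (n + b + 1 - ((fsupp x.1).card - 1)) :=
        Nat.pow_le_pow_right (by norm_num) (by omega)
      omega
    obtain ⟨k, X, f, hk, h6, h7⟩ := PhiV_chi A y hy hpos M hM hm hm' x.1 x.2 _ (h2.trans h3)
    have hk' : (fsupp x.1).card - 1 = k := by omega
    subst hk'
    exact ⟨_, X, f, by omega, h6, h7⟩
  have hmem : ∀ x : A.real, PhiV y M x.1 ∈ Es (n + b + 1) (n + 1) := by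
    intro x
    obtain ⟨k, X, f, hk, h6, -⟩ := hkey x
    exact ⟨k, hk, X, f, h6.symm⟩
  refine ⟨n + b + 1, n, by omega, ⟨fun x => ⟨PhiV y M x.1, hmem x⟩,
    Continuous.subtype_mk (continuous_PhiV A y hy M hM) hmem⟩, ?_⟩
  intro x
  obtain ⟨k, X, f, hk, h6, h7⟩ := hkey x
  change JJ m (PhiV y M x.1) = _
  rw [← h6, JJ_chi hm hm', h7]

end Pool.QB
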