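import Pool.Agent.MP_c51823_gt.QB.T1Def

/-!
# [QB-T1a]
-/

set_option autoImplicit false
open Topology

namespace Pool.QB

/-- [QB-T1a] -/
theorem isClosed_blow {T E : Type} [TopologicalSpace T] [TopologicalSpace E] [T2Space E]
    {Z P : Set T} (hZ : IsClosed Z) (hP : IsClosed P) (φ : C(P, E)) : IsClosed (blow Z P φ) := by
  have h1 : IsClosed {p : T × E | p.1 ∈ Z} := hZ.preimage continuous_fst
  have hemb : IsClosedEmbedding (Prod.map (Subtype.val : P → T) (id : E → E)) :=
    hP.isClosedEmbedding_subtypeVal.prodMap IsClosedEmbedding.id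
  have hg : IsClosed {q : P × E | q.2 = φ q.1} :=
    isClosed_eq continuous_snd (φ.continuous.comp continuous_fst)
  have h2 : IsClosed (Prod.map (Subtype.val : P → T) (id : E → E) '' {q : P × E | q.2 = φ q.1}) :=
    hemb.isClosedMap _ hg
  have he : blow Z P φ = {p : T × E | p.1 ∈ Z} ∪
      Prod.map (Subtype.val : P → T) (id : E → E) '' {q : P × E | q.2 = φ q.1} := by
    ext p
    constructor
    · rintro (h | ⟨h, h'⟩)
      · exact Or.inl h
      · exact Or.inr ⟨(⟨p.1, h⟩, p.2), h', rfl⟩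
    · rintro (h | ⟨q, hq, rfl⟩)
      · exact Or.inl h
      · exact Or.inr ⟨q.1.2, hq⟩
  rw [he]
  exact h1.union h2

end Pool.QB
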