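import Pool.Agent.MP_c51823_gt.QB.T1Def
import Pool.Agent.MP_c51823_gt.QB.F6

/-!
# [QB-T1b] Blow-up lemma. Proof: QB_PROOF.md section 3.
-/

set_option autoImplicit false
open Topology

namespace Pool.QB

namespace T1b_aux

/-- the triple `(T, Z, ∅)` -/
def tT {T : Type} [TopologicalSpace T] [CompactSpace T] [T2Space T] (Z : Set T)
    (hZ : IsClosed Z) : CTriple := ⟨T, Z, ∅, hZ, isClosed_empty, Set.empty_subset _⟩

/-- the triple `(P, P ∩ Z, ∅)` -/
def tP {T : Type} [TopologicalSpace T] [CompactSpace T] [T2Space T] (Z P : Set T)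
    (hZ : IsClosed Z) (hP : IsClosed P) : CTriple :=
  haveI : CompactSpace P := isCompact_iff_compactSpace.mp hP.isCompact
  ⟨P, Subtype.val ⁻¹' Z, ∅, hZ.preimage continuous_subtype_val, isClosed_empty,
    Set.empty_subset _⟩

/-- the triple `(T', Z × E, ∅)` -/
def tB {T E : Type} [TopologicalSpace T] [T2Space T] [TopologicalSpace E]
    [T2Space E] (Z P : Set T) (φ : C(P, E)) [CompactSpace (blow Z P φ)] (hZ : IsClosed Z) :
    CTriple :=
  ⟨blow Z P φ, {p | p.1.1 ∈ Z}, ∅, hZ.preimage (by fun_prop), isClosed_empty,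
    Set.empty_subset _⟩

/-- `π : (T', Z × E) → (T, Z)` -/
def mB {T E : Type} [TopologicalSpace T] [CompactSpace T] [T2Space T] [TopologicalSpace E]
    [T2Space E] (Z P : Set T) (φ : C(P, E)) [CompactSpace (blow Z P φ)] (hZ : IsClosed Z) :
    CTriple.Map (tB Z P φ hZ) (tT Z hZ) :=
  ⟨blowPi Z P φ, fun _ h => h, fun _ h => h.elim⟩

/-- `(P, P ∩ Z) → (T', Z × E)` -/
def mP {T E : Type} [TopologicalSpace T] [CompactSpace T] [T2Space T] [TopologicalSpace E]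
    [T2Space E] (Z P : Set T) (φ : C(P, E)) [CompactSpace (blow Z P φ)] (hZ : IsClosed Z)
    (hP : IsClosed P) : CTriple.Map (tP Z P hZ hP) (tB Z P φ hZ) :=
  ⟨⟨fun x : P => (⟨(x.1, φ x), Or.inr ⟨x.2, rfl⟩⟩ : blow Z P φ), by
    exact Continuous.subtype_mk (by fun_prop) _⟩, fun _ h => h, fun _ h => h.elim⟩

/-- `(P, P ∩ Z) → (T, Z)` -/
def mI {T : Type} [TopologicalSpace T] [CompactSpace T] [T2Space T] (Z P : Set T)
    (hZ : IsClosed Z) (hP : IsClosed P) : CTriple.Map (tP Z P hZ hP) (tT Z hZ) :=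
  ⟨⟨fun x : P => x.1, continuous_subtype_val⟩, fun _ h => h, fun _ h => h.elim⟩

end T1b_aux

open T1b_aux

/-- [QB-T1b] The blow-up lemma. `E₀ → E` need not be injective. -/
theorem HT.blow_injective (h : HT) {T E E₀ : Type} [TopologicalSpace T] [CompactSpace T]
    [T2Space T] [TopologicalSpace E] [CompactSpace E] [T2Space E] [Nonempty E]
    [TopologicalSpace E₀] [CompactSpace E₀] [T2Space E₀] (Z P : Set T) (hZ : IsClosed Z)
    (hP : IsClosed P) [CompactSpace Z] (hcov : ∀ x, x ∈ Z ∨ x ∈ P) (j : C(E₀, E)) (φ₀ : C(P, E₀))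
    [CompactSpace (blow Z P (j.comp φ₀))]
    (hN : ∀ y : h.H 1 (absP (Z × E)), ∃ z : h.H 1 (absP Z),
      h.map 1 (absMap (⟨fun p => (p.1, j p.2), by fun_prop⟩ : C(Z × E₀, Z × E))) y =
        h.map 1 (absMap (⟨Prod.fst, continuous_fst⟩ : C(Z × E₀, Z))) z) :
    Function.Injective (h.map 0 (absMap (blowPi Z P (j.comp φ₀)))) := by
  set φ := j.comp φ₀ with hφ
  rw [injective_iff_map_eq_zero]
  intro a ha
  obtain ⟨e⟩ := ‹Nonempty E›
  -- `a` vanishes on `Z`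
  have h1 : h.map 0 (tT Z hZ).i a = 0 := by
    have h2 : (tT Z hZ).i = (absMap (blowPi Z P φ)).comp
        (absMap (⟨fun x : Z => (⟨(x.1, e), Or.inl x.2⟩ : blow Z P φ), by
          exact Continuous.subtype_mk (by fun_prop) _⟩ : C(Z, blow Z P φ))) := rfl
    rw [h2]
    refine (h.map_comp 0 _ _ a).trans ?_
    rw [ha, map_zero]
  obtain ⟨b, hb⟩ := (h.exact_xa 0 (tT Z hZ) a).1 h1
  -- `π^* b` comes from `c`
  have h3 : h.map 0 (tB Z P φ hZ).j (h.map 0 (mB Z P φ hZ).xb b) = 0 := by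
    rw [← h.map_comp]
    have h4 : (mB Z P φ hZ).xb.comp (tB Z P φ hZ).j =
        (tT Z hZ).j.comp (absMap (blowPi Z P φ)) := rfl
    rw [h4]
    refine (h.map_comp 0 _ _ b).trans ?_
    rw [hb]
    exact ha
  obtain ⟨c, hc⟩ := (h.exact_xb 0 (tB Z P φ hZ) _).1 h3
  -- transport `c` to `Z × E`
  let θ : CPair.Map (absP (Z × E)) (tB Z P φ hZ).BA :=
    ⟨⟨fun p : Z × E => (⟨(⟨(p.1.1, p.2), Or.inl p.1.2⟩ : blow Z P φ), p.1.2⟩ :
      {p : blow Z P φ | p.1.1 ∈ Z}), by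
        exact Continuous.subtype_mk (Continuous.subtype_mk (by fun_prop) _) _⟩,
      fun _ hx => hx.elim⟩
  let θ' : CPair.Map (tB Z P φ hZ).BA (absP (Z × E)) :=
    ⟨⟨fun p : {p : blow Z P φ | p.1.1 ∈ Z} => ((⟨p.1.1.1, p.2⟩ : Z), p.1.1.2), by
        exact (Continuous.subtype_mk (by fun_prop) _).prodMk (by fun_prop)⟩,
      fun _ hx => hx.elim⟩
  have hθ : θ.comp θ' = CPair.Map.id _ := rfl
  obtain ⟨z, hz⟩ := hN (h.map 1 θ c)
  have hc' : c = h.map 1 θ' (h.map 1 θ c) := by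
    rw [← h.map_comp, hθ, h.map_id]
  -- the restriction of `c` to `P ∩ Z`
  have h5 : h.map 1 (mP Z P φ hZ hP).ba c = h.map 1 (mI Z P hZ hP).ba z := by
    let ψ : CPair.Map (tP Z P hZ hP).BA (absP (Z × E₀)) :=
      ⟨⟨fun p : {p : P | p.1 ∈ Z} => ((⟨p.1.1, p.2⟩ : Z), φ₀ p.1), by
        exact (Continuous.subtype_mk (by fun_prop) _).prodMk (by fun_prop)⟩,
      fun _ hx => hx.elim⟩
    rw [hc', ← h.map_comp]
    have h6 : θ'.comp (mP Z P φ hZ hP).ba =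
      (absMap (⟨fun p => (p.1, j p.2), by fun_prop⟩ : C(Z × E₀, Z × E))).comp ψ := rfl
    have h7 : (mI Z P hZ hP).ba =
      (absMap (⟨Prod.fst, continuous_fst⟩ : C(Z × E₀, Z))).comp ψ := rfl
    rw [h6, h.map_comp, hz, h7]
    exact (h.map_comp 1 _ _ z).symm
  have h8 : h.map 0 (mI Z P hZ hP).xb b = h.map 0 (mI Z P hZ hP).xb (h.δ 0 (tT Z hZ) z) := by
    rw [h.δ_nat, ← h5, ← h.δ_nat, hc, ← h.map_comp]
    rfl
  have hexc : Function.Bijective (h.map 0 (mI Z P hZ hP).xb) := by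
    refine h.excision 0 _ (fun _ hx => hx) ⟨fun x hx => hx, fun x _ y _ hxy => ?_, fun x hx => ?_⟩
    · exact Subtype.ext hxy
    · rcases hcov x with hx' | hx'
      · exact absurd hx' hx
      · exact ⟨⟨x, hx'⟩, hx, rfl⟩
  have h9 : b = h.δ 0 (tT Z hZ) z := hexc.1 h8
  rw [← hb]
  exact (h.exact_xb 0 (tT Z hZ) b).2 ⟨z, h9.symm⟩

end Pool.QB
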