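import Pool.Agent.MP_c51823_gt.QB.B3
import Pool.Agent.MP_c51823_gt.QB.P5
import Pool.Agent.MP_c51823_gt.QB.N3
import Pool.Agent.MP_c51823_gt.QB.T1a
import Pool.Agent.MP_c51823_gt.QB.T1b
import Pool.Agent.MP_c51823_gt.QB.F6
import Pool.Agent.MP_c51823_gt.QB.B6Def

/-!
# [QB-B11] Proof: QB_PROOF.md 6.5. `P = {a(κ) ≥ c}`, `Z = {a(κ) ≤ c}`, `Φ : |A| → E₀ = Es N (n+1)` (P5),
`φ₀ = Φ ∘ ρ ∘ κ`, `E = Es (N+n+1) (n+2)`, `j = inclE`, `T = blow Z P (j ∘ φ₀)`, `ε = Prod.snd`; `f ∘ π` is essential by T1b, (N) is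
N3 with `q = 1`. If `a(κ(π x)) > c` then `x ∉ Z`, so `x.2 = j (φ₀ x.1)`.
-/

set_option autoImplicit false
open Topology

namespace Pool.QB

theorem b11_nonempty (N n : ℕ) : Nonempty (Es N (n + 1)) :=
  ⟨⟨chi (k := 0) (b := 2 ^ (N - 0) - 1) ⟨fun _ => 1, fun _ => zero_le_one, by simp⟩
    (fun i => i.elim0), 0, Nat.succ_pos n, _, _, rfl⟩⟩

open Classical in
/-- [QB-B11] The blow-up over a stage, with the map to `E(N', n')` which over `{a(κ) > c}` is
`Φ_y ∘ ρ ∘ κ`. -/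
theorem exists_blowup (h : HT) (u : h.H 0 (absP S4)) (S : Stage h u) (A : Cx)
    (hA : A.S ⊆ S.K.S) (Vt : Finset ℕ) (hVt : ∀ s ∈ S.K.S, s ⊆ Vt) (y : Coch 4 ℤ) (hy : NCoc A y)
    (hpos : ∀ τ ∈ A.S, ∀ p ∈ ctri τ, 0 ≤ xi y τ p) {m : ℝ} (hm : 0 < m) (hm' : m ≤ 1 / 8)
    (c : ℝ) (hc : 0 < c) :
    ∃ (T : Type) (_ : TopologicalSpace T) (_ : CompactSpace T) (_ : T2Space T) (π : C(T, S.G))
      (N n : ℕ) (ε : C(T, Es N n)), h.map 0 (absMap (S.f.comp π)) u ≠ 0 ∧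
      ∀ x : T, c < aA A Vt (S.κ (π x)).1 → JJ m (ε x).1 =
        ((ctri (fsupp (rhoA A Vt (S.κ (π x)).1))).val.bind fun p =>
          Multiset.replicate (xi y (fsupp (rhoA A Vt (S.κ (π x)).1)) p).toNat
            (gm m (ub (rhoA A Vt (S.κ (π x)).1) p))).filter (· ≠ star) := by
  obtain ⟨N, n, hn, Φ, hΦ⟩ := exists_Phi A y hy hpos hm hm'
  have hac : Continuous fun x : S.G => aA A Vt (S.κ x).1 :=
    (continuous_aA A Vt).comp (continuous_subtype_val.comp S.κ.continuous)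
  set P : Set S.G := {x | c ≤ aA A Vt (S.κ x).1} with hP
  set Z : Set S.G := {x | aA A Vt (S.κ x).1 ≤ c} with hZ
  have hPc : IsClosed P := isClosed_le continuous_const hac
  have hZc : IsClosed Z := isClosed_le hac continuous_const
  have hcov : ∀ x, x ∈ Z ∨ x ∈ P := fun x => le_total (aA A Vt (S.κ x).1) c
  have hrm : ∀ x : S.G, x ∈ P → rhoA A Vt (S.κ x).1 ∈ A.real := fun x hx =>
    rhoA_mem S.K A hA Vt hVt _ (S.κ x).2 (lt_of_lt_of_le hc hx)
  have hrc : Continuous fun x : P => (⟨rhoA A Vt (S.κ x.1).1, hrm x.1 x.2⟩ : A.real) := by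
    refine Continuous.subtype_mk ?_ _
    have h1 : ContinuousOn (fun x : S.G => rhoA A Vt (S.κ x).1) P :=
      (continuousOn_rhoA A Vt).comp
        (continuous_subtype_val.comp S.κ.continuous).continuousOn
        (fun x hx => lt_of_lt_of_le hc hx)
    exact h1.restrict
  let φ₀ : C(P, Es N (n + 1)) :=
    ⟨fun x => Φ ⟨rhoA A Vt (S.κ x.1).1, hrm x.1 x.2⟩, Φ.continuous.comp hrc⟩
  let j : C(Es N (n + 1), Es (N + n + 1) (n + 2)) :=
    inclE (show N ≤ N + n + 1 by omega) (show n + 1 ≤ n + 2 by omega)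
  have hTc : IsClosed (blow Z P (j.comp φ₀)) := isClosed_blow hZc hPc _
  have hcT : CompactSpace (blow Z P (j.comp φ₀)) := isCompact_iff_compactSpace.mp hTc.isCompact
  have hcZ : CompactSpace Z := isCompact_iff_compactSpace.mp hZc.isCompact
  have hne : Nonempty (Es (N + n + 1) (n + 2)) := b11_nonempty _ _
  have hinj := h.blow_injective Z P hZc hPc hcov j φ₀
    (fun y => h.nullity n N hn 1 le_rfl Z y)
  refine ⟨blow Z P (j.comp φ₀), inferInstance, hcT, inferInstance, blowPi Z P (j.comp φ₀),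
    N + n + 1, n + 2, ⟨fun x => x.1.2, by fun_prop⟩, ?_, ?_⟩
  · intro h0
    have h1 : absMap (S.f.comp (blowPi Z P (j.comp φ₀))) =
      (absMap S.f).comp (absMap (blowPi Z P (j.comp φ₀))) := rfl
    rw [h1, h.map_comp] at h0
    refine S.ess (hinj ?_)
    rw [h0, map_zero]
  · intro x hx
    rcases x.2 with h1 | ⟨h1, h2⟩
    · exact absurd hx (not_lt.2 h1)
    · have h3 : ((⟨fun x => x.1.2, by fun_prop⟩ :
          C(blow Z P (j.comp φ₀), Es (N + n + 1) (n + 2))) x).1 =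
          (Φ ⟨rhoA A Vt (S.κ x.1.1).1, hrm x.1.1 h1⟩).1 := by
        have h4 := congrArg Subtype.val h2
        exact h4
      rw [h3, hΦ]
      rfl

end Pool.QB
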