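import Pool.Agent.MP_c51823_gt.QB.BDef
import Pool.Agent.MP_c51823_gt.QB.C2

/-!
# [QB-B2] Layer cake coordinates, QB_PROOF.md 6.3
-/

set_option autoImplicit false
open Topology

namespace Pool.QB

namespace B2_aux

/-- `max(0, max_{Vt \ σ} p)` -/
noncomputable def MX (Vt σ : Finset ℕ) (p : ℕ → ℝ) : ℝ := (Vt \ σ).fold max 0 p

theorem MX_nonneg (Vt σ : Finset ℕ) (p : ℕ → ℝ) : 0 ≤ MX Vt σ p :=
  Finset.le_fold_max _ |>.2 (Or.inl le_rfl)

theorem MX_le_iff {Vt σ : Finset ℕ} {p : ℕ → ℝ} {c : ℝ} :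
    MX Vt σ p ≤ c ↔ 0 ≤ c ∧ ∀ i ∈ Vt \ σ, p i ≤ c := Finset.fold_max_le _

theorem le_MX {Vt σ : Finset ℕ} {p : ℕ → ℝ} {i : ℕ} (hi : i ∈ Vt) (hs : i ∉ σ) :
    p i ≤ MX Vt σ p :=
  (MX_le_iff.1 le_rfl).2 i (Finset.mem_sdiff.2 ⟨hi, hs⟩)

theorem kk_of_ne {Vt σ : Finset ℕ} {p : ℕ → ℝ} (h : σ.Nonempty) :
    kk Vt σ p = max 0 (σ.inf' h p - MX Vt σ p) := by
  unfold kk
  rw [dif_pos h]
  rfl

theorem kk_pos {Vt σ : Finset ℕ} {p : ℕ → ℝ} (h : 0 < kk Vt σ p) :
    ∀ i ∈ σ, MX Vt σ p < p i := by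
  by_cases hσ : σ.Nonempty
  · rw [kk_of_ne hσ] at h
    intro i hi
    have h1 : 0 < σ.inf' hσ p - MX Vt σ p := by
      rcases lt_max_iff.1 h with h1 | h1
      · exact absurd h1 (lt_irrefl _)
      · exact h1
    have h2 : σ.inf' hσ p ≤ p i := Finset.inf'_le p hi
    linarith
  · rw [Finset.not_nonempty_iff_eq_empty] at hσ
    subst hσ
    intro i hi
    simp at hi

/-- the values `t` at which `σ` is the superlevel set -/
noncomputable def IV (Vt σ : Finset ℕ) (p : ℕ → ℝ) : Set ℝ :=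
  if h : σ.Nonempty then Set.Ico (MX Vt σ p) (σ.inf' h p) else ∅

theorem measurable_IV (Vt σ : Finset ℕ) (p : ℕ → ℝ) : MeasurableSet (IV Vt σ p) := by
  unfold IV
  split_ifs
  · exact measurableSet_Ico
  · exact MeasurableSet.empty

theorem vol_IV (Vt σ : Finset ℕ) (p : ℕ → ℝ) :
    MeasureTheory.volume.real (IV Vt σ p) = kk Vt σ p := by
  by_cases h : σ.Nonempty
  · rw [kk_of_ne h]
    unfold IV
    rw [dif_pos h, Real.volume_real_Ico, max_comm]
  · unfold IV kk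
    rw [dif_neg h, dif_neg h]
    simp

theorem vol_IV_ne (Vt σ : Finset ℕ) (p : ℕ → ℝ) :
    MeasureTheory.volume (IV Vt σ p) ≠ ⊤ := by
  unfold IV
  split_ifs
  · rw [Real.volume_Ico]; exact ENNReal.ofReal_ne_top
  · simp

theorem mem_IV {Vt σ : Finset ℕ} {p : ℕ → ℝ} (hσ : σ ⊆ Vt) (hne : σ.Nonempty) {t : ℝ} :
    t ∈ IV Vt σ p ↔ 0 ≤ t ∧ σ = Vt.filter (fun i => t < p i) := by
  unfold IV
  rw [dif_pos hne, Set.mem_Ico, MX_le_iff, Finset.lt_inf'_iff]
  constructor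
  · rintro ⟨⟨h0, h1⟩, h2⟩
    refine ⟨h0, ?_⟩
    ext i
    rw [Finset.mem_filter]
    constructor
    · intro hi
      exact ⟨hσ hi, h2 i hi⟩
    · rintro ⟨hi, hti⟩
      by_contra hn
      exact absurd (h1 i (Finset.mem_sdiff.2 ⟨hi, hn⟩)) (not_le.2 hti)
  · rintro ⟨h0, h1⟩
    refine ⟨⟨h0, ?_⟩, ?_⟩
    · intro i hi
      rw [Finset.mem_sdiff] at hi
      by_contra hn
      apply hi.2
      rw [h1, Finset.mem_filter]
      exact ⟨hi.1, not_le.1 hn⟩
    · intro i hi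
      rw [h1, Finset.mem_filter] at hi
      exact hi.2

end B2_aux

open B2_aux

/-- [QB-B2] Facts about `k_σ`. -/
theorem continuous_kk (Vt σ : Finset ℕ) : Continuous (kk Vt σ) := by
  by_cases h : σ.Nonempty
  · have h1 : kk Vt σ = fun p => max 0 (σ.inf' h p - (Vt \ σ).fold max 0 p) := by
      ext p
      unfold kk
      rw [dif_pos h]
    rw [h1]
    refine continuous_const.max (Continuous.sub ?_ ?_)
    · exact Continuous.finset_inf'_apply h (fun i _ => continuous_apply i)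
    · generalize Vt \ σ = s
      induction s using Finset.induction with
      | empty => simpa using continuous_const
      | insert a s ha ih =>
        have h2 : (fun p : ℕ → ℝ => (insert a s).fold max 0 p) =
            fun p => max (p a) (s.fold max 0 p) := by
          ext p
          rw [Finset.fold_insert ha]
        rw [h2]
        exact (continuous_apply a).max ih
  · have h1 : kk Vt σ = fun _ => 0 := by
      ext p
      unfold kk
      rw [dif_neg h]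
    rw [h1]
    exact continuous_const

theorem kk_nonneg (Vt σ : Finset ℕ) (p : ℕ → ℝ) : 0 ≤ kk Vt σ p := by
  unfold kk
  split_ifs
  · exact le_max_left _ _
  · exact le_rfl

theorem kk_sub {Vt σ : Finset ℕ} {p : ℕ → ℝ} (hp : ∀ i, 0 ≤ p i)
    (hVt : ∀ i, p i ≠ 0 → i ∈ Vt) (h : 0 < kk Vt σ p) : ∀ i ∈ σ, 0 < p i :=
  fun i hi => lt_of_le_of_lt (MX_nonneg Vt σ p) (kk_pos h i hi)

theorem kk_chain {Vt σ σ' : Finset ℕ} {p : ℕ → ℝ} (hp : ∀ i, 0 ≤ p i)
    (hVt : ∀ i, p i ≠ 0 → i ∈ Vt) (h : 0 < kk Vt σ p) (h' : 0 < kk Vt σ' p) :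
    σ ⊆ σ' ∨ σ' ⊆ σ := by
  by_contra hcon
  rw [not_or, Finset.not_subset, Finset.not_subset] at hcon
  obtain ⟨⟨a, ha, ha'⟩, ⟨b, hb, hb'⟩⟩ := hcon
  have h1 : p a ≤ MX Vt σ' p := le_MX (hVt a (kk_sub hp hVt h a ha).ne') ha'
  have h2 : p b ≤ MX Vt σ p := le_MX (hVt b (kk_sub hp hVt h' b hb).ne') hb'
  have h3 := kk_pos h a ha
  have h4 := kk_pos h' b hb
  linarith

/-- layer cake: `p_v = ∑_{σ ∋ v} k_σ(p)` -/
theorem kk_sum (K : Cx) (Vt : Finset ℕ) (hVt : ∀ s ∈ K.S, s ⊆ Vt) (p : ℕ → ℝ) (hp : p ∈ K.real)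
    (v : ℕ) : ∑ σ ∈ K.S.filter (fun σ => v ∈ σ), kk Vt σ p = p v := by
  obtain ⟨s, hs, hps⟩ := hp
  obtain ⟨hp0, hpz, hp1⟩ := hps
  have h1 : ∑ σ ∈ K.S.filter (fun σ => v ∈ σ), kk Vt σ p =
      MeasureTheory.volume.real (⋃ σ ∈ K.S.filter (fun σ => v ∈ σ), IV Vt σ p) := by
    rw [MeasureTheory.measureReal_biUnion_finset (h := fun σ _ => vol_IV_ne Vt σ p)]
    · exact Finset.sum_congr rfl fun σ _ => (vol_IV Vt σ p).symm
    · intro σ hσ σ' hσ' hne
      rw [Finset.mem_coe, Finset.mem_filter] at hσ hσ'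
      rw [Function.onFun, Set.disjoint_left]
      intro t ht ht'
      apply hne
      rw [mem_IV (hVt σ hσ.1) (K.ne σ hσ.1)] at ht
      rw [mem_IV (hVt σ' hσ'.1) (K.ne σ' hσ'.1)] at ht'
      rw [ht.2, ht'.2]
    · intro σ _
      exact measurable_IV Vt σ p
  have h2 : (⋃ σ ∈ K.S.filter (fun σ => v ∈ σ), IV Vt σ p) = Set.Ico 0 (p v) := by
    ext t
    simp only [Set.mem_iUnion, exists_prop]
    constructor
    · rintro ⟨σ, hσ, ht⟩
      rw [Finset.mem_filter] at hσ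
      rw [mem_IV (hVt σ hσ.1) (K.ne σ hσ.1)] at ht
      refine ⟨ht.1, ?_⟩
      have h3 := hσ.2
      rw [ht.2, Finset.mem_filter] at h3
      exact h3.2
    · rintro ⟨ht0, htv⟩
      have hsub : Vt.filter (fun i => t < p i) ⊆ s := by
        intro i hi
        rw [Finset.mem_filter] at hi
        by_contra hn
        have := hpz i hn
        rw [this] at hi
        linarith [hi.2]
      have hvs : v ∈ s := by
        by_contra hn
        have := hpz v hn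
        rw [this] at htv
        linarith
      have hvL : v ∈ Vt.filter (fun i => t < p i) :=
        Finset.mem_filter.2 ⟨hVt s hs hvs, htv⟩
      have hLne : (Vt.filter (fun i => t < p i)).Nonempty := ⟨v, hvL⟩
      have hLK : Vt.filter (fun i => t < p i) ∈ K.S := K.down s hs _ hsub hLne
      refine ⟨Vt.filter (fun i => t < p i), Finset.mem_filter.2 ⟨hLK, hvL⟩, ?_⟩
      rw [mem_IV (hVt _ hLK) hLne]
      exact ⟨ht0, rfl⟩
  rw [h1, h2, Real.volume_real_Ico_of_le (hp0 v), sub_zero]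

theorem kk_card_sum (K : Cx) (Vt : Finset ℕ) (hVt : ∀ s ∈ K.S, s ⊆ Vt) (p : ℕ → ℝ)
    (hp : p ∈ K.real) : ∑ σ ∈ K.S, (σ.card : ℝ) * kk Vt σ p = 1 := by
  have h1 : ∀ σ ∈ K.S, (σ.card : ℝ) * kk Vt σ p = ∑ v ∈ Vt, if v ∈ σ then kk Vt σ p else 0 := by
    intro σ hσ
    rw [← Finset.sum_filter, Finset.sum_const, nsmul_eq_mul]
    congr 2
    congr 1
    ext v
    rw [Finset.mem_filter]
    exact ⟨fun h => ⟨hVt σ hσ h, h⟩, fun h => h.2⟩
  rw [Finset.sum_congr rfl h1, Finset.sum_comm]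
  have h2 : ∀ v ∈ Vt, (∑ σ ∈ K.S, if v ∈ σ then kk Vt σ p else 0) = p v := by
    intro v _
    rw [← Finset.sum_filter]
    exact kk_sum K Vt hVt p hp v
  rw [Finset.sum_congr rfl h2]
  obtain ⟨s, hs, hps⟩ := hp
  rw [← hps.2.2]
  symm
  apply Finset.sum_subset (hVt s hs)
  intro i _ hi
  exact hps.2.1 i hi

theorem exists_kk (K : Cx) (Vt : Finset ℕ) (hVt : ∀ s ∈ K.S, s ⊆ Vt) (D : ℕ) (hD : 1 ≤ D)
    (hK : ∀ s ∈ K.S, s.card ≤ D) (p : ℕ → ℝ) (hp : p ∈ K.real) :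
    ∃ σ ∈ K.S, 1 / (D : ℝ) ^ 2 ≤ kk Vt σ p := by
  by_contra hcon
  push Not at hcon
  have hsum := kk_card_sum K Vt hVt p hp
  have hp0 : ∀ i, 0 ≤ p i := by
    obtain ⟨s, hs, hps⟩ := hp
    exact hps.1
  have hpV : ∀ i, p i ≠ 0 → i ∈ Vt := by
    obtain ⟨s, hs, hps⟩ := hp
    intro i hi
    by_contra hn
    exact hi (hps.2.1 i fun h => hn (hVt s hs h))
  set P := K.S.filter (fun σ => 0 < kk Vt σ p) with hP
  have h1 : ∑ σ ∈ P, (σ.card : ℝ) * kk Vt σ p = 1 := by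
    rw [← hsum, hP]
    apply Finset.sum_filter_of_ne
    intro σ _ hne
    rcases (kk_nonneg Vt σ p).lt_or_eq with h | h
    · exact h
    · exfalso; apply hne; rw [← h, mul_zero]
  have hDpos : (0 : ℝ) < D := by exact_mod_cast hD
  have hPne : P.Nonempty := by
    rw [Finset.nonempty_iff_ne_empty]
    intro h
    rw [h, Finset.sum_empty] at h1
    exact zero_ne_one h1
  have h2 : ∀ σ ∈ P, (σ.card : ℝ) * kk Vt σ p < 1 / D := by
    intro σ hσ
    rw [hP, Finset.mem_filter] at hσ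
    have h3 : (σ.card : ℝ) ≤ D := by exact_mod_cast hK σ hσ.1
    have h4 := hcon σ hσ.1
    have h5 : (D : ℝ) * (1 / (D : ℝ) ^ 2) = 1 / D := by
      field_simp
    calc (σ.card : ℝ) * kk Vt σ p ≤ D * kk Vt σ p :=
          mul_le_mul_of_nonneg_right h3 (kk_nonneg _ _ _)
      _ < D * (1 / (D : ℝ) ^ 2) := mul_lt_mul_of_pos_left h4 hDpos
      _ = 1 / D := h5
  have hcard : P.card ≤ D := by
    have h6 : P.card = (P.image Finset.card).card := by
      rw [Finset.card_image_of_injOn]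
      intro σ hσ σ' hσ' heq
      rw [Finset.mem_coe, hP, Finset.mem_filter] at hσ hσ'
      rcases kk_chain hp0 hpV hσ.2 hσ'.2 with h | h
      · exact Finset.eq_of_subset_of_card_le h heq.symm.le
      · exact (Finset.eq_of_subset_of_card_le h heq.le).symm
    rw [h6]
    have h7 : P.image Finset.card ⊆ Finset.Icc 1 D := by
      intro n hn
      rw [Finset.mem_image] at hn
      obtain ⟨σ, hσ, rfl⟩ := hn
      rw [hP, Finset.mem_filter] at hσ
      rw [Finset.mem_Icc]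
      exact ⟨Finset.card_pos.2 (K.ne σ hσ.1), hK σ hσ.1⟩
    calc (P.image Finset.card).card ≤ (Finset.Icc 1 D).card := Finset.card_le_card h7
      _ = D := by simp
  have h8 : ∑ σ ∈ P, (σ.card : ℝ) * kk Vt σ p < ∑ σ ∈ P, (1 / (D : ℝ)) :=
    Finset.sum_lt_sum_of_nonempty hPne h2
  rw [h1, Finset.sum_const, nsmul_eq_mul] at h8
  have h9 : (P.card : ℝ) * (1 / D) ≤ 1 := by
    have h10 : (P.card : ℝ) ≤ D := by exact_mod_cast hcard
    calc (P.card : ℝ) * (1 / D) ≤ D * (1 / D) :=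
          mul_le_mul_of_nonneg_right h10 (by positivity)
      _ = 1 := by field_simp
  linarith

end Pool.QB
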