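import Pool.Agent.MP_c51823_gt.QB.B2

/-!
# [QB-B3] The map `ρ`, QB_PROOF.md 6.3
-/

set_option autoImplicit false
open Topology

namespace Pool.QB

/-- [QB-B3] -/
theorem continuous_aA (A : Cx) (Vt : Finset ℕ) : Continuous (aA A Vt) := by
  unfold aA
  exact continuous_finsetSum _ fun σ _ => continuous_const.mul (continuous_kk Vt σ)

theorem rhoA_mem (K A : Cx) (hA : A.S ⊆ K.S) (Vt : Finset ℕ) (hVt : ∀ s ∈ K.S, s ⊆ Vt)
    (p : ℕ → ℝ) (hp : p ∈ K.real) (ha : 0 < aA A Vt p) : rhoA A Vt p ∈ A.real := by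
  have hp0 : ∀ i, 0 ≤ p i := by
    obtain ⟨s, hs, hps⟩ := hp
    exact hps.1
  have hpV : ∀ i, p i ≠ 0 → i ∈ Vt := by
    obtain ⟨s, hs, hps⟩ := hp
    intro i hi
    by_contra hn
    exact hi (hps.2.1 i fun h => hn (hVt s hs h))
  set P := A.S.filter (fun σ => 0 < kk Vt σ p) with hP
  have hzero : ∀ σ ∈ A.S, σ ∉ P → kk Vt σ p = 0 := by
    intro σ hσ hn
    rcases (kk_nonneg Vt σ p).lt_or_eq with h | h
    · exact absurd (Finset.mem_filter.2 ⟨hσ, h⟩) hn
    · exact h.symm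
  have hPne : P.Nonempty := by
    rw [Finset.nonempty_iff_ne_empty]
    intro h
    have : aA A Vt p = 0 := by
      unfold aA
      apply Finset.sum_eq_zero
      intro σ hσ
      rw [hzero σ hσ (by rw [h]; simp), mul_zero]
    linarith
  obtain ⟨s, hsP, hmax⟩ := P.exists_max_image Finset.card hPne
  have hsub : ∀ σ ∈ P, σ ⊆ s := by
    intro σ hσ
    rcases kk_chain hp0 hpV (Finset.mem_filter.1 hσ).2 (Finset.mem_filter.1 hsP).2 with h | h
    · exact h
    · rw [Finset.eq_of_subset_of_card_le h (hmax σ hσ)]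
  have hsA : s ∈ A.S := (Finset.mem_filter.1 hsP).1
  refine ⟨s, hsA, ?_, ?_, ?_⟩
  · intro v
    unfold rhoA
    exact div_nonneg (Finset.sum_nonneg fun σ _ => kk_nonneg Vt σ p) ha.le
  · intro v hv
    unfold rhoA
    rw [Finset.sum_eq_zero, zero_div]
    intro σ hσ
    rw [Finset.mem_filter] at hσ
    apply hzero σ hσ.1
    intro h
    exact hv (hsub σ h hσ.2)
  · unfold rhoA
    rw [← Finset.sum_div, div_eq_one_iff_eq ha.ne']
    unfold aA
    have h1 : ∀ v ∈ s, ∑ σ ∈ A.S.filter (fun σ => v ∈ σ), kk Vt σ p =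
        ∑ σ ∈ A.S, if v ∈ σ then kk Vt σ p else 0 := by
      intro v _
      rw [Finset.sum_filter]
    rw [Finset.sum_congr rfl h1, Finset.sum_comm]
    apply Finset.sum_congr rfl
    intro σ hσ
    by_cases h : σ ∈ P
    · rw [← Finset.sum_filter, Finset.sum_const, nsmul_eq_mul]
      congr 2
      congr 1
      ext v
      rw [Finset.mem_filter]
      exact ⟨fun h' => h'.2, fun h' => ⟨hsub σ h h', h'⟩⟩
    · rw [hzero σ hσ h]
      simp

theorem le_rhoA (K A : Cx) (hA : A.S ⊆ K.S) (Vt : Finset ℕ) (hVt : ∀ s ∈ K.S, s ⊆ Vt)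
    (p : ℕ → ℝ) (hp : p ∈ K.real) (ha : 0 < aA A Vt p) (σ : Finset ℕ) (hσ : σ ∈ A.S) (v : ℕ)
    (hv : v ∈ σ) : kk Vt σ p ≤ rhoA A Vt p v := by
  have ha1 : aA A Vt p ≤ 1 := by
    rw [← kk_card_sum K Vt hVt p hp]
    unfold aA
    exact Finset.sum_le_sum_of_subset_of_nonneg hA
      fun σ _ _ => mul_nonneg (Nat.cast_nonneg _) (kk_nonneg Vt σ p)
  have h1 : kk Vt σ p ≤ ∑ σ ∈ A.S.filter (fun σ => v ∈ σ), kk Vt σ p :=
    Finset.single_le_sum (f := fun σ => kk Vt σ p) (fun σ _ => kk_nonneg Vt σ p)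
      (Finset.mem_filter.2 ⟨hσ, hv⟩)
  unfold rhoA
  rw [le_div_iff₀ ha]
  calc kk Vt σ p * aA A Vt p ≤ kk Vt σ p * 1 :=
        mul_le_mul_of_nonneg_left ha1 (kk_nonneg Vt σ p)
    _ = kk Vt σ p := mul_one _
    _ ≤ _ := h1

theorem continuousOn_rhoA (A : Cx) (Vt : Finset ℕ) :
    ContinuousOn (rhoA A Vt) {p | 0 < aA A Vt p} := by
  rw [continuousOn_pi]
  intro v
  unfold rhoA
  apply ContinuousOn.div
  · exact (continuous_finsetSum _ fun σ _ => continuous_kk Vt σ).continuousOn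
  · exact (continuous_aA A Vt).continuousOn
  · intro p hp
    exact (show (0 : ℝ) < aA A Vt p from hp).ne'

end Pool.QB
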