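import Pool.Agent.MP_c51823_gt.QB.Core

/-!
# [QB-B4] Nerve lemma. Proof: QB_PROOF.md 6.4.
-/

set_option autoImplicit false
open Topology

namespace Pool.QB

/-- [QB-B4] Nerve lemma. -/
theorem nerve_lemma {T Λ : Type} [TopologicalSpace T] [CompactSpace T] [T2Space T] [Fintype Λ]
    [DecidableEq Λ] (W : Λ → Set T) (hW : ∀ l, IsOpen (W l)) (hcov : ∀ x, ∃ l, x ∈ W l)
    (N : T → Finset Λ → Set T)
    (hN : ∀ (x : T) (S : Finset Λ), S.Nonempty → (∀ l ∈ S, x ∈ W l) → N x S ∈ 𝓝 x) :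
    ∃ (r : ℕ) (ctr : Fin r → T) (lab : Fin r → Λ) (Sw : Fin r → Finset Λ) (V : Fin r → Set T),
      (∀ w, IsOpen (V w)) ∧ (∀ x, ∃ w, x ∈ V w) ∧ ∀ w, lab w ∈ Sw w ∧ (∀ l ∈ Sw w, ctr w ∈ W l) ∧
        V w ⊆ N (ctr w) (Sw w) ∧ V w ⊆ W (lab w) ∧ (V w).Nonempty ∧
        ∀ w', (V w ∩ V w').Nonempty → lab w' ∈ Sw w := by
  classical
  obtain ⟨W', hW'cov, hW'o, hW'c⟩ := exists_iUnion_eq_closure_subset hW
    (fun x => Set.toFinite _) (Set.eq_univ_of_forall fun x => Set.mem_iUnion.2 (hcov x))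
  have hcov' : ∀ x, ∃ l, x ∈ W' l := fun x => by
    have : x ∈ ⋃ l, W' l := by rw [hW'cov]; trivial
    exact Set.mem_iUnion.1 this
  let Sx : T → Finset Λ := fun x => Finset.univ.filter fun l => x ∈ closure (W' l)
  have hSx : ∀ x l, l ∈ Sx x ↔ x ∈ closure (W' l) := fun x l => by simp [Sx]
  let Nx : T → Set T := fun x => interior (N x (Sx x)) ∩ ⋂ l ∈ (Finset.univ \ Sx x), (closure (W' l))ᶜ
  have hNo : ∀ x, IsOpen (Nx x) := fun x =>
    isOpen_interior.inter (isOpen_biInter_finset fun l _ => isClosed_closure.isOpen_compl)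
  have hNx : ∀ x, x ∈ Nx x := by
    intro x
    refine ⟨?_, ?_⟩
    · rw [mem_interior_iff_mem_nhds]
      refine hN x _ ?_ ?_
      · obtain ⟨l, hl⟩ := hcov' x
        exact ⟨l, (hSx x l).2 (subset_closure hl)⟩
      · intro l hl
        exact hW'c l ((hSx x l).1 hl)
    · simp only [Set.mem_iInter]
      intro l hl hx
      rw [Finset.mem_sdiff] at hl
      exact hl.2 ((hSx x l).2 hx)
  let I := {p : T × Λ // p.1 ∈ W' p.2}
  let U : I → Set T := fun p => Nx p.1.1 ∩ W' p.1.2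
  have hUo : ∀ p, IsOpen (U p) := fun p => (hNo _).inter (hW'o _)
  have hUc : (Set.univ : Set T) ⊆ ⋃ p, U p := by
    intro x _
    obtain ⟨l, hl⟩ := hcov' x
    exact Set.mem_iUnion.2 ⟨⟨(x, l), hl⟩, hNx x, hl⟩
  obtain ⟨t, ht⟩ := isCompact_univ.elim_finite_subcover U hUo hUc
  let e := t.equivFin
  refine ⟨t.card, fun w => (e.symm w).1.1.1, fun w => (e.symm w).1.1.2,
    fun w => Sx (e.symm w).1.1.1, fun w => U (e.symm w).1, fun w => hUo _, ?_, ?_⟩
  · intro x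
    have hx := ht (Set.mem_univ x)
    simp only [Set.mem_iUnion] at hx
    obtain ⟨p, hp, hxp⟩ := hx
    refine ⟨e ⟨p, hp⟩, ?_⟩
    simpa using hxp
  · intro w
    refine ⟨(hSx _ _).2 (subset_closure (e.symm w).1.2), ?_, ?_, ?_, ?_, ?_⟩
    · intro l hl
      exact hW'c l ((hSx _ l).1 hl)
    · intro z hz
      exact interior_subset hz.1.1
    · intro z hz
      exact hW'c _ (subset_closure hz.2)
    · exact ⟨(e.symm w).1.1.1, hNx _, (e.symm w).1.2⟩
    · rintro w' ⟨z, hz, hz'⟩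
      by_contra hcon
      have h1 := hz.1.2
      simp only [Set.mem_iInter] at h1
      have h2 := h1 (e.symm w').1.1.2 (by
        rw [Finset.mem_sdiff]
        exact ⟨Finset.mem_univ _, hcon⟩)
      exact h2 (subset_closure hz'.2)

end Pool.QB
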