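import Pool.Agent.MP_c51823_gt.QB.J3

/-!
# [QB-J4]
-/

set_option autoImplicit false
open Topology

namespace Pool.QB

namespace J4_aux

theorem finite_mem {X : Type} (M : Multiset X) : {v | v ∈ M}.Finite := by
  classical
  exact M.toFinset.finite_toSet.subset fun v hv => by simpa using hv

theorem cont_eval {m : ℝ} (hm : 0 < m) (hm' : m ≤ 1 / 8) {N n : ℕ}
    (F : C(Fin 5 → ℝ, ℝ)) (h0 : F star = 0) :
    Continuous (fun e : Es N n => e.1.2 (FFb hm hm' F h0)) :=
  (continuous_apply _).comp (continuous_snd.comp continuous_subtype_val)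

end J4_aux

open J4_aux

/-- [QB-J4] Locality of configurations: if `U` is an open neighbourhood of `J(e₀) ∪ {*}` then
`J(e) ⊆ U` for `e` near `e₀`; and sums over `J(e)` of a function which is (near `J(e₀) ∪ {*}`)
locally constant, with value `0` near `*`, are locally constant. -/
theorem JJ_local {m : ℝ} (hm : 0 < m) (hm' : m ≤ 1 / 8) {N n : ℕ} (e₀ : Es N n)
    (U : Set (Fin 5 → ℝ)) (hU : IsOpen U) (hs : star ∈ U) (hJ : ∀ v ∈ JJ m e₀.1, v ∈ U) :
    ∀ᶠ e : Es N n in 𝓝 e₀, ∀ v ∈ JJ m e.1, v ∈ U := by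
  have hfin : (insert star {v | v ∈ JJ m e₀.1} : Set (Fin 5 → ℝ)).Finite :=
    (finite_mem _).insert _
  have hdisj : Disjoint (insert star {v | v ∈ JJ m e₀.1} : Set (Fin 5 → ℝ)) Uᶜ := by
    rw [Set.disjoint_compl_right_iff_subset]
    rintro v (rfl | hv)
    · exact hs
    · exact hJ v hv
  obtain ⟨F, hF0, hF1, hF01⟩ :=
    exists_continuous_zero_one_of_isClosed hfin.isClosed hU.isClosed_compl hdisj
  have h0 : F star = 0 := hF0 (Set.mem_insert _ _)
  have he0 : e₀.1.2 (FFb hm hm' F h0) < 1 := by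
    rw [← JJ_sum hm hm' e₀ F h0]
    have : ((JJ m e₀.1).map F).sum = 0 := by
      apply Multiset.sum_eq_zero
      intro x hx
      obtain ⟨v, hv, rfl⟩ := Multiset.mem_map.1 hx
      exact hF0 (Set.mem_insert_of_mem _ hv)
    rw [this]; exact one_pos
  filter_upwards [(cont_eval hm hm' F h0).continuousAt.eventually_lt_const he0] with e he v hv
  by_contra hvU
  have h1 : F v = 1 := hF1 hvU
  have h2 : F v ≤ ((JJ m e.1).map F).sum := by
    apply Multiset.single_le_sum
    · intro x hx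
      obtain ⟨w, _, rfl⟩ := Multiset.mem_map.1 hx
      exact (hF01 w).1
    · exact Multiset.mem_map_of_mem _ hv
  rw [JJ_sum hm hm' e F h0, h1] at h2
  linarith

theorem JJ_locconst {m : ℝ} (hm : 0 < m) (hm' : m ≤ 1 / 8) {N n : ℕ} (e₀ : Es N n)
    (c : (Fin 5 → ℝ) → ℤ) (hstar : ∀ᶠ v in 𝓝 star, c v = 0)
    (hJ : ∀ v ∈ JJ m e₀.1, ∀ᶠ w in 𝓝 v, c w = c v) :
    ∀ᶠ e : Es N n in 𝓝 e₀, ((JJ m e.1).map c).sum = ((JJ m e₀.1).map c).sum := by
  have hcs : c star = 0 := hstar.self_of_nhds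
  -- the open set where `c` is locally constant
  have hLopen : IsOpen {v : Fin 5 → ℝ | ∀ᶠ w in 𝓝 v, c w = c v} := by
    rw [isOpen_iff_mem_nhds]
    intro v hv
    have h1 : ∀ᶠ w in 𝓝 v, ∀ᶠ z in 𝓝 w, c z = c v := eventually_eventually_nhds.2 hv
    filter_upwards [h1, hv] with w hw hwv
    filter_upwards [hw] with z hz
    rw [hz, hwv]
  have hfin : (insert star {v | v ∈ JJ m e₀.1} : Set (Fin 5 → ℝ)).Finite :=
    (finite_mem _).insert _
  have hsub : (insert star {v | v ∈ JJ m e₀.1} : Set (Fin 5 → ℝ)) ⊆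
      {v | ∀ᶠ w in 𝓝 v, c w = c v} := by
    rintro v (rfl | hv)
    · filter_upwards [hstar] with w hw
      rw [hw, hcs]
    · exact hJ v hv
  obtain ⟨W, hWo, hSW, hWL⟩ := normal_exists_closure_subset hfin.isClosed hLopen hsub
  have hcontOn : ContinuousOn (fun v => (c v : ℝ)) (closure W) := by
    intro v hv
    apply ContinuousAt.continuousWithinAt
    have h1 : (fun w => (c w : ℝ)) =ᶠ[𝓝 v] fun _ => (c v : ℝ) := by
      filter_upwards [hWL hv] with w hw
      rw [hw]
    exact continuousAt_const.congr h1.symm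
  let f : C(closure W, ℝ) := ⟨fun v => (c v.1 : ℝ), hcontOn.domRestrict⟩
  obtain ⟨F, hF⟩ := ContinuousMap.exists_restrict_eq isClosed_closure f
  have hFc : ∀ v ∈ closure W, F v = c v := by
    intro v hv
    have := congrArg (fun g : C(closure W, ℝ) => g ⟨v, hv⟩) hF
    exact this
  have h0 : F star = 0 := by
    rw [hFc star (subset_closure (hSW (Set.mem_insert _ _))), hcs]
    exact Int.cast_zero
  have hsum : ∀ e : Es N n, (∀ v ∈ JJ m e.1, v ∈ W) →
      ((((JJ m e.1).map c).sum : ℤ) : ℝ) = e.1.2 (FFb hm hm' F h0) := by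
    intro e he
    rw [← JJ_sum hm hm' e F h0]
    have hcast : ((((JJ m e.1).map c).sum : ℤ) : ℝ) =
        ((JJ m e.1).map (fun v => (c v : ℝ))).sum := by
      have := map_multiset_sum (Int.castAddHom ℝ) ((JJ m e.1).map c)
      rw [Multiset.map_map] at this
      exact this
    rw [hcast]
    congr 1
    apply Multiset.map_congr rfl
    intro v hv
    rw [hFc v (subset_closure (he v hv))]
  have hJW : ∀ v ∈ JJ m e₀.1, v ∈ W := fun v hv => hSW (Set.mem_insert_of_mem _ hv)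
  have h1 := JJ_local hm hm' e₀ W hWo (hSW (Set.mem_insert _ _)) hJW
  have h2 : ∀ᶠ e : Es N n in 𝓝 e₀,
      e.1.2 (FFb hm hm' F h0) < e₀.1.2 (FFb hm hm' F h0) + 1 :=
    (cont_eval hm hm' F h0).continuousAt.eventually_lt_const (by linarith)
  have h3 : ∀ᶠ e : Es N n in 𝓝 e₀,
      e₀.1.2 (FFb hm hm' F h0) - 1 < e.1.2 (FFb hm hm' F h0) :=
    (cont_eval hm hm' F h0).continuousAt.eventually_const_lt (by linarith)
  filter_upwards [h1, h2, h3] with e e1 e2 e3
  rw [← hsum e e1, ← hsum e₀ hJW] at e2 e3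
  have e2' : ((JJ m e.1).map c).sum < ((JJ m e₀.1).map c).sum + 1 := by exact_mod_cast e2
  have e3' : ((JJ m e₀.1).map c).sum - 1 < ((JJ m e.1).map c).sum := by exact_mod_cast e3
  omega

end Pool.QB
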