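import Pool.Agent.MP_c51823_gt.QB.PDef

/-!
# [QB-P1] The cocycle `ι` (finite checks)
-/

set_option autoImplicit false
open Topology

namespace Pool.QB

namespace P1_aux

/-- sign of the difference of two elements of `Fin 5` -/
def sg5 (a b : Fin 5) : ℤ := if a = b then 0 else if b < a then 1 else -1

lemma sg5_eq : ∀ a b : Fin 5, Int.sign ((a : ℤ) - (b : ℤ)) = sg5 a b := by decide

/-- `ι` as a function of four variables -/
def I4 (a b c d : Fin 5) : ℤ :=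
  if a = 4 ∨ b = 4 ∨ c = 4 ∨ d = 4 then 0
  else sg5 b a * sg5 c a * sg5 d a * sg5 c b * sg5 d b * sg5 d c

lemma iota_eq (b : Fin 4 → Fin 5) : iota b = I4 (b 0) (b 1) (b 2) (b 3) := by
  unfold iota I4
  simp only [sg5_eq]
  have : (∃ i, b i = 4) ↔ (b 0 = 4 ∨ b 1 = 4 ∨ b 2 = 4 ∨ b 3 = 4) := by
    rw [Fin.exists_fin_succ, Fin.exists_fin_succ, Fin.exists_fin_succ, Fin.exists_fin_one]
    rfl
  by_cases h : ∃ i, b i = 4
  · rw [if_pos h, if_pos (this.1 h)]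
  · rw [if_neg h, if_neg (fun h' => h (this.2 h'))]

/-- the check for `iota_cocycle` as a Boolean -/
def chk (v a b c d e : Fin 5) : Bool :=
  (a == v || b == v || c == v || d == v || e == v) ||
    (I4 b c d e - I4 a c d e + I4 a b d e - I4 a b c e + I4 a b c d == 0)

lemma chk_all : ∀ v a b c d e : Fin 5, chk v a b c d e = true := by
  decide +kernel

lemma I4_cocycle (v a b c d e : Fin 5) (ha : a ≠ v) (hb : b ≠ v) (hc : c ≠ v) (hd : d ≠ v)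
    (he : e ≠ v) : I4 b c d e - I4 a c d e + I4 a b d e - I4 a b c e + I4 a b c d = 0 := by
  have h := chk_all v a b c d e
  unfold chk at h
  rw [beq_false_of_ne ha, beq_false_of_ne hb, beq_false_of_ne hc, beq_false_of_ne hd,
    beq_false_of_ne he] at h
  simpa using h

/-- the check for `iota_eq_zero` as a Boolean -/
def chk0 (v a b c d : Fin 5) : Bool :=
  (v == 4 || a == v || b == v || c == v || d == v) || (I4 a b c d == 0)

lemma chk0_all : ∀ v a b c d : Fin 5, chk0 v a b c d = true := by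
  decide +kernel

lemma I4_zero (v a b c d : Fin 5) (hv : v ≠ 4) (ha : a ≠ v) (hb : b ≠ v) (hc : c ≠ v)
    (hd : d ≠ v) : I4 a b c d = 0 := by
  have h := chk0_all v a b c d
  unfold chk0 at h
  rw [beq_false_of_ne hv, beq_false_of_ne ha, beq_false_of_ne hb, beq_false_of_ne hc,
    beq_false_of_ne hd] at h
  simpa using h

end P1_aux

open P1_aux

/-- [QB-P1a] `ι` is a cocycle on `∂Δ^4`: 5-tuples which miss a vertex. -/
theorem iota_cocycle (c : Fin 5 → Fin 5) (hc : ∃ v, ∀ i, c i ≠ v) :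
    ∑ i : Fin 5, (-1 : ℤ) ^ (i : ℕ) * iota (fun j => c (i.succAbove j)) = 0 := by
  obtain ⟨v, hv⟩ := hc
  rw [Fin.sum_univ_five]
  simp only [iota_eq]
  have h := I4_cocycle v (c 0) (c 1) (c 2) (c 3) (c 4) (hv 0) (hv 1) (hv 2) (hv 3) (hv 4)
  have e0 : (-1 : ℤ) ^ ((0 : Fin 5) : ℕ) = 1 := by decide
  have e1 : (-1 : ℤ) ^ ((1 : Fin 5) : ℕ) = -1 := by decide
  have e2 : (-1 : ℤ) ^ ((2 : Fin 5) : ℕ) = 1 := by decide
  have e3 : (-1 : ℤ) ^ ((3 : Fin 5) : ℕ) = -1 := by decide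
  have e4 : (-1 : ℤ) ^ ((4 : Fin 5) : ℕ) = 1 := by decide
  rw [e0, e1, e2, e3, e4]
  have f0 : (0 : Fin 5).succAbove (0 : Fin 4) = 1 := by decide
  have f1 : (0 : Fin 5).succAbove (1 : Fin 4) = 2 := by decide
  have f2 : (0 : Fin 5).succAbove (2 : Fin 4) = 3 := by decide
  have f3 : (0 : Fin 5).succAbove (3 : Fin 4) = 4 := by decide
  have g0 : (1 : Fin 5).succAbove (0 : Fin 4) = 0 := by decide
  have g1 : (1 : Fin 5).succAbove (1 : Fin 4) = 2 := by decide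
  have g2 : (1 : Fin 5).succAbove (2 : Fin 4) = 3 := by decide
  have g3 : (1 : Fin 5).succAbove (3 : Fin 4) = 4 := by decide
  have h0 : (2 : Fin 5).succAbove (0 : Fin 4) = 0 := by decide
  have h1 : (2 : Fin 5).succAbove (1 : Fin 4) = 1 := by decide
  have h2 : (2 : Fin 5).succAbove (2 : Fin 4) = 3 := by decide
  have h3 : (2 : Fin 5).succAbove (3 : Fin 4) = 4 := by decide
  have i0 : (3 : Fin 5).succAbove (0 : Fin 4) = 0 := by decide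
  have i1 : (3 : Fin 5).succAbove (1 : Fin 4) = 1 := by decide
  have i2 : (3 : Fin 5).succAbove (2 : Fin 4) = 2 := by decide
  have i3 : (3 : Fin 5).succAbove (3 : Fin 4) = 4 := by decide
  have j0 : (4 : Fin 5).succAbove (0 : Fin 4) = 0 := by decide
  have j1 : (4 : Fin 5).succAbove (1 : Fin 4) = 1 := by decide
  have j2 : (4 : Fin 5).succAbove (2 : Fin 4) = 2 := by decide
  have j3 : (4 : Fin 5).succAbove (3 : Fin 4) = 3 := by decide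
  rw [f0, f1, f2, f3, g0, g1, g2, g3, h0, h1, h2, h3, i0, i1, i2, i3, j0, j1, j2, j3]
  linarith

/-- `ι` vanishes unless all of `0,1,2,3` occur -/
theorem iota_eq_zero (b : Fin 4 → Fin 5) (v : Fin 5) (hv : v ≠ 4) (h : ∀ i, b i ≠ v) :
    iota b = 0 := by
  rw [iota_eq]
  exact I4_zero v _ _ _ _ hv (h 0) (h 1) (h 2) (h 3)

namespace P1_aux

lemma prism_eq (β₀ β₁ : Fin 3 → Fin 5) : prism β₀ β₁ =
    I4 (β₀ 0) (β₁ 0) (β₁ 1) (β₁ 2) - I4 (β₀ 0) (β₀ 1) (β₁ 1) (β₁ 2)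
      + I4 (β₀ 0) (β₀ 1) (β₀ 2) (β₁ 2) := by
  unfold prism
  rw [Fin.sum_univ_three]
  simp only [iota_eq]
  have e0 : (-1 : ℤ) ^ ((0 : Fin 3) : ℕ) = 1 := by decide
  have e1 : (-1 : ℤ) ^ ((1 : Fin 3) : ℕ) = -1 := by decide
  have e2 : (-1 : ℤ) ^ ((2 : Fin 3) : ℕ) = 1 := by decide
  rw [e0, e1, e2]
  have a0 : prismT β₀ β₁ 0 0 = β₀ 0 := rfl
  have a1 : prismT β₀ β₁ 0 1 = β₁ 0 := rfl
  have a2 : prismT β₀ β₁ 0 2 = β₁ 1 := rfl
  have a3 : prismT β₀ β₁ 0 3 = β₁ 2 := rfl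
  have b0 : prismT β₀ β₁ 1 0 = β₀ 0 := rfl
  have b1 : prismT β₀ β₁ 1 1 = β₀ 1 := rfl
  have b2 : prismT β₀ β₁ 1 2 = β₁ 1 := rfl
  have b3 : prismT β₀ β₁ 1 3 = β₁ 2 := rfl
  have c0 : prismT β₀ β₁ 2 0 = β₀ 0 := rfl
  have c1 : prismT β₀ β₁ 2 1 = β₀ 1 := rfl
  have c2 : prismT β₀ β₁ 2 2 = β₀ 2 := rfl
  have c3 : prismT β₀ β₁ 2 3 = β₁ 2 := rfl
  rw [a0, a1, a2, a3, b0, b1, b2, b3, c0, c1, c2, c3]
  ring

end P1_aux

/-- [QB-P1b] Prism identity. -/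
theorem prism_identity (β₀ β₁ : Fin 4 → Fin 5) (h : ∃ v, ∀ i, β₀ i ≠ v ∧ β₁ i ≠ v) :
    ∑ i : Fin 4, (-1 : ℤ) ^ (i : ℕ) *
      prism (fun j => β₀ (i.succAbove j)) (fun j => β₁ (i.succAbove j)) = iota β₁ - iota β₀ := by
  obtain ⟨v, hv⟩ := h
  rw [Fin.sum_univ_four]
  simp only [iota_eq, prism_eq]
  have e0 : (-1 : ℤ) ^ ((0 : Fin 4) : ℕ) = 1 := by decide
  have e1 : (-1 : ℤ) ^ ((1 : Fin 4) : ℕ) = -1 := by decide
  have e2 : (-1 : ℤ) ^ ((2 : Fin 4) : ℕ) = 1 := by decide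
  have e3 : (-1 : ℤ) ^ ((3 : Fin 4) : ℕ) = -1 := by decide
  rw [e0, e1, e2, e3]
  have f0 : (0 : Fin 4).succAbove (0 : Fin 3) = 1 := by decide
  have f1 : (0 : Fin 4).succAbove (1 : Fin 3) = 2 := by decide
  have f2 : (0 : Fin 4).succAbove (2 : Fin 3) = 3 := by decide
  have g0 : (1 : Fin 4).succAbove (0 : Fin 3) = 0 := by decide
  have g1 : (1 : Fin 4).succAbove (1 : Fin 3) = 2 := by decide
  have g2 : (1 : Fin 4).succAbove (2 : Fin 3) = 3 := by decide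
  have h0 : (2 : Fin 4).succAbove (0 : Fin 3) = 0 := by decide
  have h1 : (2 : Fin 4).succAbove (1 : Fin 3) = 1 := by decide
  have h2 : (2 : Fin 4).succAbove (2 : Fin 3) = 3 := by decide
  have i0 : (3 : Fin 4).succAbove (0 : Fin 3) = 0 := by decide
  have i1 : (3 : Fin 4).succAbove (1 : Fin 3) = 1 := by decide
  have i2 : (3 : Fin 4).succAbove (2 : Fin 3) = 2 := by decide
  rw [f0, f1, f2, g0, g1, g2, h0, h1, h2, i0, i1, i2]
  have k0 := I4_cocycle v (β₀ 0) (β₁ 0) (β₁ 1) (β₁ 2) (β₁ 3) (hv 0).1 (hv 0).2 (hv 1).2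
    (hv 2).2 (hv 3).2
  have k1 := I4_cocycle v (β₀ 0) (β₀ 1) (β₁ 1) (β₁ 2) (β₁ 3) (hv 0).1 (hv 1).1 (hv 1).2
    (hv 2).2 (hv 3).2
  have k2 := I4_cocycle v (β₀ 0) (β₀ 1) (β₀ 2) (β₁ 2) (β₁ 3) (hv 0).1 (hv 1).1 (hv 2).1
    (hv 2).2 (hv 3).2
  have k3 := I4_cocycle v (β₀ 0) (β₀ 1) (β₀ 2) (β₀ 3) (β₁ 3) (hv 0).1 (hv 1).1 (hv 2).1
    (hv 3).1 (hv 3).2
  linarith

end Pool.QB
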