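import Pool.Agent.MP_c51823_gt.QB.B6Def
import Pool.Agent.MP_c51823_gt.QB.B1
import Pool.Agent.MP_c51823_gt.QB.J4
import Pool.Agent.MP_c51823_gt.QB.P1

/-!
# [QB-B6] QB_PROOF.md 6.2, 6.5: from J4 (locality), B1, P1.
-/

set_option autoImplicit false
open Topology

namespace Pool.QB

namespace B6_aux

theorem sum_map {ι α : Type} [Fintype ι] (M : Multiset α) (a : ι → ℤ) (f : ι → α → ℤ) :
    ∑ i, a i * (M.map (f i)).sum = (M.map fun v => ∑ i, a i * f i v).sum := by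
  induction M using Multiset.induction with
  | empty => simp
  | cons x M ih =>
    simp only [Multiset.map_cons, Multiset.sum_cons, mul_add, Finset.sum_add_distrib]
    rw [ih]

end B6_aux

/-- [QB-B6a] openness of freeness -/
theorem free_open {m : ℝ} (hm : 0 < m) (hm' : m ≤ 1 / 8) {N n : ℕ} (A₀ r : ℕ)
    (hr : r ≤ 10 * A₀) (e₀ : Es N n) (h : ∀ v ∈ JJ m e₀.1, v ∉ Dr A₀ r) :
    ∀ᶠ e : Es N n in 𝓝 e₀, ∀ v ∈ JJ m e.1, v ∉ Dr A₀ r :=
  JJ_local hm hm' e₀ (Dr A₀ r)ᶜ (isClosed_Dr A₀ r).isOpen_compl (col_star A₀ r hr).1 h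

/-- [QB-B6b] local constancy of `I(r₀,…,r₃; e)` -/
theorem I_locconst {m : ℝ} (hm : 0 < m) (hm' : m ≤ 1 / 8) {N n : ℕ} (A₀ : ℕ) (rr : Fin 4 → ℕ)
    (hr : ∀ j, rr j ≤ 10 * A₀) (e₀ : Es N n) (h : ∀ j, ∀ v ∈ JJ m e₀.1, v ∉ Dr A₀ (rr j)) :
    ∀ᶠ e : Es N n in 𝓝 e₀, ((JJ m e.1).map fun v => iota (colT A₀ rr v)).sum =
      ((JJ m e₀.1).map fun v => iota (colT A₀ rr v)).sum := by
  apply JJ_locconst hm hm' e₀ (fun v => iota (colT A₀ rr v))
  · filter_upwards [col_locconst A₀ (rr 0) star (col_star A₀ (rr 0) (hr 0)).1] with v hv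
    unfold iota
    rw [if_pos]
    refine ⟨0, ?_⟩
    show col A₀ (rr 0) v = 4
    rw [hv]
    exact (col_star A₀ (rr 0) (hr 0)).2
  · intro v hv
    have h1 : ∀ᶠ w in 𝓝 v, ∀ j, col A₀ (rr j) w = col A₀ (rr j) v := by
      rw [Filter.eventually_all]
      intro j
      exact col_locconst A₀ (rr j) v (h j v hv)
    filter_upwards [h1] with w hw
    have h2 : colT A₀ rr w = colT A₀ rr v := by
      ext j
      exact congrArg Fin.val (hw j)
    rw [h2]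

/-- [QB-B6c] the cocycle identity for `I` -/
theorem I_cocycle {m : ℝ} (hm : 0 < m) (hm' : m ≤ 1 / 8) {N n : ℕ} (A₀ : ℕ) (rr : Fin 5 → ℕ)
    (hr : ∀ j, rr j ≤ 10 * A₀) (e : Es N n) :
    ∑ i : Fin 5, (-1 : ℤ) ^ (i : ℕ) *
      ((JJ m e.1).map fun v => iota (colT A₀ (fun j => rr (i.succAbove j)) v)).sum = 0 := by
  rw [B6_aux.sum_map (JJ m e.1) (fun i : Fin 5 => (-1 : ℤ) ^ (i : ℕ))
    (fun i v => iota (colT A₀ (fun j => rr (i.succAbove j)) v))]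
  apply Multiset.sum_eq_zero
  intro z hz
  rw [Multiset.mem_map] at hz
  obtain ⟨v, hv, rfl⟩ := hz
  have hY := ((JJ_mem hm hm' e).1 v hv).1
  obtain ⟨-, -, i, hi⟩ := id hY
  exact iota_cocycle (colT A₀ rr v) ⟨i, fun j hj => col_supp A₀ (rr j) (hr j) v hY (by
    show v (col A₀ (rr j) v) = 0
    have h1 : col A₀ (rr j) v = i := hj
    rw [h1]
    exact hi)⟩

end Pool.QB
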