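import Pool.Agent.MP_c51823_gt.QB.JDef1

/-!
# [QB-J1a] Facts about `g_m`
-/

set_option autoImplicit false
open Topology

namespace Pool.QB

theorem J1a_mn4_le (u : Fin 4 → ℝ) (i : Fin 4) : mn4 u ≤ u i := by
  unfold mn4
  fin_cases i <;> simp

theorem J1a_mn4_eq (u : Fin 4 → ℝ) : ∃ i, mn4 u = u i := by
  unfold mn4
  rcases min_choice (min (u 0) (u 1)) (min (u 2) (u 3)) with h | h
  · rcases min_choice (u 0) (u 1) with h' | h'
    · exact ⟨0, by rw [h, h']⟩
    · exact ⟨1, by rw [h, h']⟩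
  · rcases min_choice (u 2) (u 3) with h' | h'
    · exact ⟨2, by rw [h, h']⟩
    · exact ⟨3, by rw [h, h']⟩

theorem J1a_mn4_nonneg {u : Fin 4 → ℝ} (hu : ∀ i, 0 ≤ u i) : 0 ≤ mn4 u := by
  obtain ⟨i, hi⟩ := J1a_mn4_eq u
  rw [hi]; exact hu i

theorem J1a_gm_castSucc (m : ℝ) (u : Fin 4 → ℝ) (b : Fin 4) :
    gm m u b.castSucc = (min (mn4 u) m / m) * (u b - min (mn4 u) m) / (1 - 4 * min (mn4 u) m) := by
  unfold gm
  have : ((b.castSucc : Fin 5) : ℕ) < 4 := by simp
  rw [dif_pos this]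
  rfl

theorem J1a_gm_four (m : ℝ) (u : Fin 4 → ℝ) : gm m u 4 = 1 - min (mn4 u) m / m := by
  unfold gm
  rw [dif_neg (by decide)]

theorem J1a_star_castSucc (b : Fin 4) : star b.castSucc = 0 := by
  unfold star
  have : (b.castSucc : Fin 5) ≠ 4 := by
    intro h
    have := congrArg Fin.val h
    simp at this
    omega
  simp [Pi.single_eq_of_ne this]

theorem J1a_star_four : star 4 = 1 := by simp [star]

/-- [QB-J1] Facts about `g_m` and `β`. -/
theorem gm_min {m : ℝ} (hm : 0 < m) {u : Fin 4 → ℝ} (k : Fin 4) (hk : u k = mn4 u)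
    (hlt : u k ≤ m) : gm m u (k.castSucc) = 0 := by
  rw [J1a_gm_castSucc, min_eq_left (by rw [← hk]; exact hlt), hk]
  simp

/-- if `min u ≥ m` then the last coordinate of `g_m(u)` vanishes -/
theorem gm_last {m : ℝ} (hm : 0 < m) {u : Fin 4 → ℝ} (h : m ≤ mn4 u) : gm m u 4 = 0 := by
  rw [J1a_gm_four, min_eq_right h, div_self hm.ne', sub_self]

theorem gm_mem {m : ℝ} (hm : 0 < m) (hm' : m ≤ 1 / 8) {u : Fin 4 → ℝ} (hu : ∀ i, 0 ≤ u i)
    (hs : ∑ i, u i = 1) : gm m u ∈ Yset := by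
  have hmu0 : 0 ≤ min (mn4 u) m := le_min (J1a_mn4_nonneg hu) hm.le
  have hmum : min (mn4 u) m ≤ m := min_le_right _ _
  have hd : 0 < 1 - 4 * min (mn4 u) m := by linarith
  refine ⟨fun i => ?_, ?_, ?_⟩
  · refine Fin.lastCases ?_ (fun b => ?_) i
    · change 0 ≤ gm m u 4
      rw [J1a_gm_four]
      have : min (mn4 u) m / m ≤ 1 := (div_le_one hm).2 hmum
      linarith
    · rw [J1a_gm_castSucc]
      have h1 : 0 ≤ u b - min (mn4 u) m :=
        sub_nonneg.2 ((min_le_left _ _).trans (J1a_mn4_le u b))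
      positivity
  · rw [Fin.sum_univ_castSucc]
    change ∑ b : Fin 4, gm m u b.castSucc + gm m u 4 = 1
    rw [J1a_gm_four]
    have h1 : ∑ b : Fin 4, gm m u b.castSucc = min (mn4 u) m / m := by
      simp_rw [J1a_gm_castSucc]
      rw [← Finset.sum_div, ← Finset.mul_sum, Finset.sum_sub_distrib, hs]
      simp only [Finset.sum_const, Finset.card_univ, Fintype.card_fin, nsmul_eq_mul, Nat.cast_ofNat]
      exact mul_div_cancel_right₀ _ hd.ne'
    rw [h1]; ring
  · rcases le_total (mn4 u) m with h | h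
    · obtain ⟨k, hk⟩ := J1a_mn4_eq u
      exact ⟨k.castSucc, gm_min hm k hk.symm (hk ▸ h)⟩
    · exact ⟨4, gm_last hm h⟩

theorem gm_eq_star_iff {m : ℝ} (hm : 0 < m) (hm' : m ≤ 1 / 8) {u : Fin 4 → ℝ}
    (hu : ∀ i, 0 ≤ u i) (hs : ∑ i, u i = 1) : gm m u = star ↔ ∃ i, u i = 0 := by
  constructor
  · intro h
    have h4 := congrFun h 4
    rw [J1a_gm_four, J1a_star_four] at h4
    have h5 : min (mn4 u) m / m = 0 := by linarith
    rw [div_eq_zero_iff] at h5
    rcases h5 with h5 | h5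
    · obtain ⟨k, hk⟩ := J1a_mn4_eq u
      rcases min_choice (mn4 u) m with h6 | h6
      · exact ⟨k, by rw [← hk, ← h6, h5]⟩
      · rw [h6] at h5; exact absurd h5 hm.ne'
    · exact absurd h5 hm.ne'
  · rintro ⟨k, hk⟩
    have h0 : mn4 u = 0 := le_antisymm (hk ▸ J1a_mn4_le u k) (J1a_mn4_nonneg hu)
    have h1 : min (mn4 u) m = 0 := by rw [h0]; exact min_eq_left hm.le
    funext i
    refine Fin.lastCases ?_ (fun b => ?_) i
    · change gm m u 4 = star 4
      rw [J1a_gm_four, J1a_star_four, h1]; simp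
    · rw [J1a_gm_castSucc, J1a_star_castSucc, h1]; simp

theorem J1a_continuous_mn4 : Continuous mn4 := by
  unfold mn4
  fun_prop

theorem continuous_gm {m : ℝ} (hm : 0 < m) (hm' : m ≤ 1 / 8) : Continuous (gm m) := by
  refine continuous_pi fun i => ?_
  have h4 := J1a_continuous_mn4
  refine Fin.lastCases ?_ (fun b => ?_) i
  · change Continuous fun u => gm m u 4
    simp_rw [J1a_gm_four]
    fun_prop
  · simp_rw [J1a_gm_castSucc]
    refine Continuous.div (by fun_prop) (by fun_prop) fun u => ?_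
    have : min (mn4 u) m ≤ m := min_le_right _ _
    have : 0 < 1 - 4 * min (mn4 u) m := by linarith
    exact this.ne'

end Pool.QB
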