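import Pool.Agent.MP_c51823_gt.QB.PDef
import Pool.Agent.MP_c51823_gt.QB.C2

/-!
# [QB-P4a] Regrouping lemma. Proof: QB_PROOF.md 5.2, 5.4.
-/

set_option autoImplicit false
open Topology

namespace Pool.QB

namespace P4a_aux

theorem mem_cuts {τ : Finset ℕ} {a : ℕ} : a ∈ cuts τ ↔ a ∈ τ ∧ ∃ b ∈ τ, b < a := by
  simp [cuts]

theorem prd_lt {τ : Finset ℕ} {a : ℕ} (h : ∃ b ∈ τ, b < a) : prd τ a ∈ τ ∧ prd τ a < a := by
  obtain ⟨b, hb, hba⟩ := h
  have hne : (τ.filter (· < a)).Nonempty := ⟨b, Finset.mem_filter.2 ⟨hb, hba⟩⟩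
  obtain ⟨c, hc, hce⟩ := Finset.exists_mem_eq_sup _ hne (id : ℕ → ℕ)
  unfold prd
  rw [hce]
  exact Finset.mem_filter.1 hc

theorem le_prd {τ : Finset ℕ} {a b : ℕ} (hb : b ∈ τ) (hba : b < a) : b ≤ prd τ a := by
  unfold prd
  exact Finset.le_sup (f := id) (Finset.mem_filter.2 ⟨hb, hba⟩)

theorem prd_mem {τ : Finset ℕ} {a : ℕ} (h : a ∈ cuts τ) : prd τ a ∈ τ :=
  (prd_lt (mem_cuts.1 h).2).1

theorem prd_lt' {τ : Finset ℕ} {a : ℕ} (h : a ∈ cuts τ) : prd τ a < a :=
  (prd_lt (mem_cuts.1 h).2).2

/-- characterisation of the predecessor -/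
theorem prd_eq {τ : Finset ℕ} {a c : ℕ} (hc : c ∈ τ) (hca : c < a)
    (h : ∀ b ∈ τ, b < a → b ≤ c) : prd τ a = c := by
  have h1 := prd_lt (τ := τ) (a := a) ⟨c, hc, hca⟩
  exact le_antisymm (h _ h1.1 h1.2) (le_prd hc hca)

/-- the one dimensional statement -/
theorem one_dim {M : Type} [AddCommGroup M] (σ : Finset ℕ) (w : ℕ) (hw : w ∉ σ)
    (hne : σ.Nonempty) (h : ℕ → ℕ → ℤ) (G : ℕ → M)
    (hA : (∀ v ∈ σ, v < w) → G w = 0)
    (hB : ∀ m ∈ σ, (∀ v ∈ σ, m ≤ v) → w < m → G m = 0)
    (hC : ∀ s ∈ σ, w < s → (∀ v ∈ σ, w < v → s ≤ v) → (∃ v ∈ σ, v < w) →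
      G w = G s ∧ (G s ≠ 0 → h (prd σ w) w + h w s = h (prd σ w) s)) :
    ∑ a ∈ cuts (insert w σ), h (prd (insert w σ) a) a • G a =
      ∑ a ∈ cuts σ, h (prd σ a) a • G a := by
  by_cases c1 : ∀ v ∈ σ, v < w
  · -- `w` is the maximum
    have hcuts : cuts (insert w σ) = insert w (cuts σ) := by
      ext a
      simp only [mem_cuts, Finset.mem_insert]
      constructor
      · rintro ⟨rfl | ha, b, hb | hb, hba⟩
        · exact Or.inl rfl
        · exact Or.inl rfl
        · rw [hb] at hba; exact absurd (c1 a ha) (by omega)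
        · exact Or.inr ⟨ha, b, hb, hba⟩
      · rintro (rfl | ⟨ha, b, hb, hba⟩)
        · obtain ⟨v, hv⟩ := hne
          exact ⟨Or.inl rfl, v, Or.inr hv, c1 v hv⟩
        · exact ⟨Or.inr ha, b, Or.inr hb, hba⟩
    have hwc : w ∉ cuts σ := fun h' => hw (mem_cuts.1 h').1
    rw [hcuts, Finset.sum_insert hwc, hA c1, smul_zero, zero_add]
    refine Finset.sum_congr rfl fun a ha => ?_
    have h1 : prd (insert w σ) a = prd σ a := by
      apply prd_eq (Finset.mem_insert_of_mem (prd_mem ha)) (prd_lt' ha)
      intro b hb hba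
      rw [Finset.mem_insert] at hb
      rcases hb with rfl | hb
      · exact absurd (c1 a (mem_cuts.1 ha).1) (by omega)
      · exact le_prd hb hba
    rw [h1]
  · push Not at c1
    obtain ⟨v0, hv0, hv0w⟩ := c1
    -- the successor of `w`
    have hne2 : (σ.filter (fun v => w < v)).Nonempty :=
      ⟨v0, Finset.mem_filter.2 ⟨hv0, lt_of_le_of_ne hv0w (fun h' => hw (h' ▸ hv0))⟩⟩
    obtain ⟨s, hs, hsmin⟩ := Finset.exists_min_image _ (id : ℕ → ℕ) hne2
    rw [Finset.mem_filter] at hs
    obtain ⟨hsσ, hws⟩ := hs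
    have hsmin' : ∀ v ∈ σ, w < v → s ≤ v := fun v hv hwv =>
      hsmin v (Finset.mem_filter.2 ⟨hv, hwv⟩)
    by_cases c2 : ∃ v ∈ σ, v < w
    · -- `w` is in the middle
      obtain ⟨hG, hh⟩ := hC s hsσ hws hsmin' c2
      have hcuts : cuts (insert w σ) = insert w (cuts σ) := by
        ext a
        simp only [mem_cuts, Finset.mem_insert]
        constructor
        · rintro ⟨rfl | ha, b, hb | hb, hba⟩
          · exact Or.inl rfl
          · exact Or.inl rfl
          · right
            obtain ⟨v, hv, hvw⟩ := c2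
            exact ⟨ha, v, hv, by omega⟩
          · exact Or.inr ⟨ha, b, hb, hba⟩
        · rintro (rfl | ⟨ha, b, hb, hba⟩)
          · obtain ⟨v, hv, hvw⟩ := c2
            exact ⟨Or.inl rfl, v, Or.inr hv, hvw⟩
          · exact ⟨Or.inr ha, b, Or.inr hb, hba⟩
      have hwc : w ∉ cuts σ := fun h' => hw (mem_cuts.1 h').1
      have hsc : s ∈ cuts σ := by
        obtain ⟨v, hv, hvw⟩ := c2
        exact mem_cuts.2 ⟨hsσ, v, hv, by omega⟩
      have e1 : prd (insert w σ) w = prd σ w := by
        apply prd_eq (Finset.mem_insert_of_mem (prd_lt c2).1) (prd_lt c2).2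
        intro b hb hba
        rw [Finset.mem_insert] at hb
        rcases hb with rfl | hb
        · omega
        · exact le_prd hb hba
      have e2 : prd (insert w σ) s = w := by
        apply prd_eq (Finset.mem_insert_self _ _) hws
        intro b hb hba
        rw [Finset.mem_insert] at hb
        rcases hb with rfl | hb
        · exact le_rfl
        · by_contra hlt
          have := hsmin' b hb (by omega)
          omega
      have e3 : prd σ s = prd σ w := by
        apply prd_eq (prd_lt c2).1 (lt_trans (prd_lt c2).2 hws)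
        intro b hb hba
        apply le_prd hb
        by_contra hlt
        have hbw : b ≠ w := fun h' => hw (h' ▸ hb)
        have := hsmin' b hb (by omega)
        omega
      have e4 : ∀ a ∈ (cuts σ).erase s, prd (insert w σ) a = prd σ a := by
        intro a ha
        rw [Finset.mem_erase] at ha
        obtain ⟨has, ha⟩ := ha
        apply prd_eq (Finset.mem_insert_of_mem (prd_mem ha)) (prd_lt' ha)
        intro b hb hba
        rw [Finset.mem_insert] at hb
        rcases hb with rfl | hb
        · have h1 := hsmin' a (mem_cuts.1 ha).1 hba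
          have h2 : s ≤ prd σ a := le_prd hsσ (by omega)
          omega
        · exact le_prd hb hba
      rw [hcuts, Finset.sum_insert hwc, ← Finset.add_sum_erase _ _ hsc,
        ← Finset.add_sum_erase (cuts σ) (fun a => h (prd σ a) a • G a) hsc, ← add_assoc,
        Finset.sum_congr rfl (fun a ha => by rw [e4 a ha])]
      congr 1
      rw [e1, e2, e3, hG, ← add_smul]
      by_cases hz : G s = 0
      · rw [hz, smul_zero, smul_zero]
      · rw [hh hz]
    · -- `w` is the minimum
      push Not at c2
      have hcuts : cuts (insert w σ) = σ := by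
        ext a
        simp only [mem_cuts, Finset.mem_insert]
        constructor
        · rintro ⟨rfl | ha, b, hb | hb, hba⟩
          · omega
          · exact absurd (c2 b hb) (by omega)
          · exact ha
          · exact ha
        · intro ha
          exact ⟨Or.inr ha, w, Or.inl rfl,
            lt_of_le_of_ne (c2 a ha) (fun h' => hw (h' ▸ ha))⟩
      have hmin : ∀ v ∈ σ, s ≤ v := fun v hv =>
        hsmin' v hv (lt_of_le_of_ne (c2 v hv) (fun h' => hw (h' ▸ hv)))
      have hcs : cuts σ = σ.erase s := by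
        ext a
        simp only [mem_cuts, Finset.mem_erase]
        constructor
        · rintro ⟨ha, b, hb, hba⟩
          have := hmin b hb
          exact ⟨by omega, ha⟩
        · rintro ⟨has, ha⟩
          exact ⟨ha, s, hsσ, lt_of_le_of_ne (hmin a ha) (Ne.symm has)⟩
      rw [hcuts, ← Finset.add_sum_erase _ _ hsσ, hB s hsσ hmin hws, smul_zero, zero_add, ← hcs]
      refine Finset.sum_congr rfl fun a ha => ?_
      have h1 : prd (insert w σ) a = prd σ a := by
        apply prd_eq (Finset.mem_insert_of_mem (prd_mem ha)) (prd_lt' ha)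
        intro b hb hba
        rw [Finset.mem_insert] at hb
        rcases hb with rfl | hb
        · have := hmin _ (prd_mem ha)
          omega
        · exact le_prd hb hba
      rw [h1]

/-- the triple sum -/
def TT {M : Type} [AddCommGroup M] (y : Coch 4 ℤ) (g : ℕ → ℕ → ℕ → M) (α β γ : Finset ℕ) : M :=
  ∑ a ∈ cuts α, ∑ b ∈ cuts β, ∑ c ∈ cuts γ,
    NN y (prd α a) a (prd β b) b (prd γ c) c • g a b c

/-- the weight -/
def gw {M : Type} [AddCommGroup M] (x : ℕ → ℝ) {r : ℕ} (vs : Fin r → ℕ)
    (Θ : (Fin 4 → ℝ) → (Fin r → Fin 5) → M) (a b c : ℕ) : M :=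
  if a < b ∧ b < c then Θ (ub x (a, b, c)) (fun j => bl (a, b, c) (vs j)) else 0

theorem sum_eq_TT {M : Type} [AddCommGroup M] (y : Coch 4 ℤ) (τ : Finset ℕ) (x : ℕ → ℝ) {r : ℕ}
    (vs : Fin r → ℕ) (Θ : (Fin 4 → ℝ) → (Fin r → Fin 5) → M) :
    ∑ p ∈ ctri τ, xi y τ p • Θ (ub x p) (fun j => bl p (vs j)) = TT y (gw x vs Θ) τ τ τ := by
  unfold ctri TT gw
  rw [Finset.sum_filter, Finset.sum_product]
  refine Finset.sum_congr rfl fun a _ => ?_
  rw [Finset.sum_product]
  refine Finset.sum_congr rfl fun b _ => Finset.sum_congr rfl fun c _ => ?_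
  by_cases h : a < b ∧ b < c
  · rw [if_pos h, if_pos h]; rfl
  · rw [if_neg h, if_neg h, smul_zero]

theorem XX_eq {x : ℕ → ℝ} {σ : Finset ℕ} (hx : x ∈ simp σ) {a b : ℕ} (hab : a ≤ b)
    (h : ∀ v ∈ σ, a ≤ v → b ≤ v) : XX x a = XX x b := by
  unfold XX
  rw [Finset.sum_subset (Finset.range_mono hab)]
  intro v hv hv'
  rw [Finset.mem_range] at hv hv'
  apply hx.2.1
  intro hvs
  exact absurd (h v hvs (by omega)) (by omega)

theorem XX_zero {x : ℕ → ℝ} {σ : Finset ℕ} (hx : x ∈ simp σ) {a : ℕ} (h : ∀ v ∈ σ, a ≤ v) :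
    XX x a = 0 := by
  unfold XX
  apply Finset.sum_eq_zero
  intro v hv
  rw [Finset.mem_range] at hv
  apply hx.2.1
  intro hvs
  exact absurd (h v hvs) (by omega)

theorem XX_one {x : ℕ → ℝ} {σ : Finset ℕ} (hx : x ∈ simp σ) {a : ℕ} (h : ∀ v ∈ σ, v < a) :
    XX x a = 1 := by
  unfold XX
  rw [← hx.2.2]
  symm
  apply Finset.sum_subset (fun v hv => Finset.mem_range.2 (h v hv))
  intro v _ hv'
  exact hx.2.1 v hv'

/-- additivity of `NN` in the first interval -/
theorem NN_add {A : Cx} {y : Coch 4 ℤ} (hy : IsCocyc A y) {τ : Finset ℕ} (hτ : τ ∈ A.S)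
    {a1 a2 a3 b1 b2 c1 c2 : ℕ} (h1 : a1 ∈ τ) (h2 : a2 ∈ τ) (h3 : a3 ∈ τ) (h4 : b1 ∈ τ)
    (h5 : b2 ∈ τ) (h6 : c1 ∈ τ) (h7 : c2 ∈ τ) (l1 : a1 ≤ a2) (l2 : a2 ≤ a3) (l3 : a3 ≤ b1)
    (l4 : b1 ≤ b2) (l5 : b2 ≤ c1) (l6 : c1 ≤ c2) :
    NN y a1 a2 b1 b2 c1 c2 + NN y a2 a3 b1 b2 c1 c2 = NN y a1 a3 b1 b2 c1 c2 := by
  have key : ∀ b c, b ∈ τ → c ∈ τ → a3 ≤ b → b ≤ c →
      y ![a2, a3, b, c] - y ![a1, a3, b, c] + y ![a1, a2, b, c] - y ![a1, a2, a3, c]
        + y ![a1, a2, a3, b] = 0 := by
    intro b c hb hc lb lc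
    have hadm : adm A ![a1, a2, a3, b, c] := by
      constructor
      · rw [Fin.monotone_iff_le_succ]
        intro i
        fin_cases i <;> simp <;> omega
      · apply A.down τ hτ
        · intro v hv
          rw [Finset.mem_image] at hv
          obtain ⟨i, _, rfl⟩ := hv
          fin_cases i <;> simp <;> assumption
        · exact ⟨a1, Finset.mem_image.2 ⟨0, Finset.mem_univ _, rfl⟩⟩
    have h := hy _ hadm
    unfold dd at h
    rw [Fin.sum_univ_five] at h
    have t0 : (fun j => (![a1, a2, a3, b, c] : Fin 5 → ℕ) (Fin.succAbove 0 j)) = ![a2, a3, b, c] := by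
      funext j; fin_cases j <;> rfl
    have t1 : (fun j => (![a1, a2, a3, b, c] : Fin 5 → ℕ) (Fin.succAbove 1 j)) = ![a1, a3, b, c] := by
      funext j; fin_cases j <;> rfl
    have t2 : (fun j => (![a1, a2, a3, b, c] : Fin 5 → ℕ) (Fin.succAbove 2 j)) = ![a1, a2, b, c] := by
      funext j; fin_cases j <;> rfl
    have t3 : (fun j => (![a1, a2, a3, b, c] : Fin 5 → ℕ) (Fin.succAbove 3 j)) = ![a1, a2, a3, c] := by
      funext j; fin_cases j <;> rfl
    have t4 : (fun j => (![a1, a2, a3, b, c] : Fin 5 → ℕ) (Fin.succAbove 4 j)) = ![a1, a2, a3, b] := by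
      funext j; fin_cases j <;> rfl
    rw [t0, t1, t2, t3, t4] at h
    simp only [Fin.val_zero, Fin.val_one, Fin.val_two, pow_zero, pow_one, smul_eq_mul, one_mul,
      neg_mul] at h
    norm_num [show ((3 : Fin 5) : ℕ) = 3 from rfl, show ((4 : Fin 5) : ℕ) = 4 from rfl] at h
    linarith
  have k1 := key b2 c2 h5 h7 (by omega) (by omega)
  have k2 := key b2 c1 h5 h6 (by omega) (by omega)
  have k3 := key b1 c2 h4 h7 (by omega) (by omega)
  have k4 := key b1 c1 h4 h6 (by omega) (by omega)
  unfold NN
  linarith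

theorem one_step {M : Type} [AddCommGroup M] (A : Cx) (y : Coch 4 ℤ) (hy : IsCocyc A y)
    (σ : Finset ℕ) (w : ℕ) (hw : w ∉ σ) (hne : σ.Nonempty) (hτ : insert w σ ∈ A.S)
    (x : ℕ → ℝ) (hx : x ∈ simp σ) {r : ℕ} (vs : Fin r → ℕ) (hvs : ∀ j, vs j ∈ σ)
    (Θ : (Fin 4 → ℝ) → (Fin r → Fin 5) → M) (hΘ : ∀ u k, (∃ i, u i = 0) → Θ u k = 0) :
    TT y (gw x vs Θ) (insert w σ) (insert w σ) (insert w σ) = TT y (gw x vs Θ) σ σ σ := by
  have hmem : ∀ v ∈ insert w σ, v = w ∨ v ∈ σ := fun v hv => Finset.mem_insert.1 hv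
  -- step 1
  have s1 : TT y (gw x vs Θ) (insert w σ) (insert w σ) (insert w σ) =
      TT y (gw x vs Θ) σ (insert w σ) (insert w σ) := by
    unfold TT
    rw [Finset.sum_comm, Finset.sum_comm (s := cuts σ)]
    refine Finset.sum_congr rfl fun b hb => ?_
    rw [Finset.sum_comm, Finset.sum_comm (s := cuts σ)]
    refine Finset.sum_congr rfl fun c hc => ?_
    apply one_dim σ w hw hne (fun p a => NN y p a (prd (insert w σ) b) b (prd (insert w σ) c) c)
      (fun a => gw x vs Θ a b c)
    · intro h
      unfold gw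
      rw [if_neg]
      rintro ⟨h1, _⟩
      rcases hmem b (mem_cuts.1 hb).1 with h2 | h2
      · omega
      · have := h b h2; omega
    · intro m hm hmin _
      unfold gw
      split_ifs
      · exact hΘ _ _ ⟨0, XX_zero hx hmin⟩
      · rfl
    · intro s hs hws hsm hex
      have hXX : XX x w = XX x s := XX_eq hx hws.le (fun v hv hwv => hsm v hv
        (lt_of_le_of_ne hwv (fun h' => hw (h' ▸ hv))))
      constructor
      · show gw x vs Θ w b c = gw x vs Θ s b c
        unfold gw
        by_cases hbc : b < c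
        · by_cases hsb : s < b
          · rw [if_pos ⟨by omega, hbc⟩, if_pos ⟨hsb, hbc⟩]
            have hu : ub x (w, b, c) = ub x (s, b, c) := by
              unfold ub; simp only [hXX]
            rw [hu]
            congr 1
            funext j
            have hj := hvs j
            have hjw : vs j < w ↔ vs j < s := by
              constructor
              · intro h; omega
              · intro h; by_contra h'
                have : vs j ≠ w := fun h'' => hw (h'' ▸ hj)
                have := hsm _ hj (by omega); omega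
            unfold bl
            simp only [hjw]
          · rw [if_neg (show ¬(s < b ∧ b < c) from fun h => hsb h.1)]
            split_ifs with h
            · rcases hmem b (mem_cuts.1 hb).1 with h2 | h2
              · omega
              · have h3 := hsm b h2 h.1
                have h4 : b = s := by omega
                apply hΘ
                refine ⟨1, ?_⟩
                show XX x b - XX x w = 0
                rw [h4, hXX, sub_self]
            · rfl
        · rw [if_neg (fun h => hbc h.2), if_neg (fun h => hbc h.2)]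
      · intro hG
        have hcond : s < b ∧ b < c := by
          by_contra h'
          apply hG
          show gw x vs Θ s b c = 0
          unfold gw
          rw [if_neg h']
        have m1 : prd σ w ∈ insert w σ := Finset.mem_insert_of_mem (prd_lt hex).1
        have m2 : s ∈ insert w σ := Finset.mem_insert_of_mem hs
        exact NN_add hy hτ m1 (Finset.mem_insert_self _ _) m2 (prd_mem hb) (mem_cuts.1 hb).1
          (prd_mem hc) (mem_cuts.1 hc).1 (prd_lt hex).2.le hws.le (le_prd m2 hcond.1)
          (prd_lt' hb).le (le_prd (mem_cuts.1 hb).1 hcond.2) (prd_lt' hc).le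
  -- step 2
  have s2 : TT y (gw x vs Θ) σ (insert w σ) (insert w σ) =
      TT y (gw x vs Θ) σ σ (insert w σ) := by
    unfold TT
    refine Finset.sum_congr rfl fun a ha => ?_
    rw [Finset.sum_comm, Finset.sum_comm (s := cuts σ)]
    refine Finset.sum_congr rfl fun c hc => ?_
    apply one_dim σ w hw hne (fun p b => NN y (prd σ a) a p b (prd (insert w σ) c) c)
      (fun b => gw x vs Θ a b c)
    · intro h
      unfold gw
      rw [if_neg]
      rintro ⟨_, h1⟩
      rcases hmem c (mem_cuts.1 hc).1 with h2 | h2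
      · omega
      · have := h c h2; omega
    · intro m hm hmin _
      unfold gw
      rw [if_neg]
      rintro ⟨h1, _⟩
      have := hmin a (mem_cuts.1 ha).1
      omega
    · intro s hs hws hsm hex
      have hXX : XX x w = XX x s := XX_eq hx hws.le (fun v hv hwv => hsm v hv
        (lt_of_le_of_ne hwv (fun h' => hw (h' ▸ hv))))
      have haσ := (mem_cuts.1 ha).1
      have haw : a ≠ w := fun h' => hw (h' ▸ haσ)
      constructor
      · show gw x vs Θ a w c = gw x vs Θ a s c
        unfold gw
        have hiff : a < w ↔ a < s := by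
          constructor
          · intro h; omega
          · intro h; by_contra h'
            have := hsm _ haσ (by omega); omega
        by_cases haw' : a < w
        · by_cases hsc : s < c
          · rw [if_pos ⟨haw', by omega⟩, if_pos ⟨hiff.1 haw', hsc⟩]
            have hu : ub x (a, w, c) = ub x (a, s, c) := by
              unfold ub; simp only [hXX]
            rw [hu]
            congr 1
            funext j
            have hj := hvs j
            have hjw : vs j < w ↔ vs j < s := by
              constructor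
              · intro h; omega
              · intro h; by_contra h'
                have : vs j ≠ w := fun h'' => hw (h'' ▸ hj)
                have := hsm _ hj (by omega); omega
            unfold bl
            simp only [hjw]
          · rw [if_neg (show ¬(a < s ∧ s < c) from fun h => hsc h.2)]
            split_ifs with h
            · rcases hmem c (mem_cuts.1 hc).1 with h2 | h2
              · omega
              · have h3 := hsm c h2 h.2
                have h4 : c = s := by omega
                apply hΘ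
                refine ⟨2, ?_⟩
                show XX x c - XX x w = 0
                rw [h4, hXX, sub_self]
            · rfl
        · rw [if_neg (fun h => haw' h.1), if_neg (fun h => haw' (hiff.2 h.1))]
      · intro _
        show NN y (prd σ a) a (prd σ w) w _ c + NN y (prd σ a) a w s _ c =
          NN y (prd σ a) a (prd σ w) s _ c
        unfold NN
        ring
  -- step 3
  have s3 : TT y (gw x vs Θ) σ σ (insert w σ) = TT y (gw x vs Θ) σ σ σ := by
    unfold TT
    refine Finset.sum_congr rfl fun a ha => Finset.sum_congr rfl fun b hb => ?_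
    apply one_dim σ w hw hne (fun p c => NN y (prd σ a) a (prd σ b) b p c)
      (fun c => gw x vs Θ a b c)
    · intro h
      show gw x vs Θ a b w = 0
      unfold gw
      split_ifs
      · apply hΘ
        refine ⟨3, ?_⟩
        show 1 - XX x w = 0
        rw [XX_one hx h, sub_self]
      · rfl
    · intro m hm hmin _
      show gw x vs Θ a b m = 0
      unfold gw
      rw [if_neg]
      rintro ⟨_, h1⟩
      have := hmin b (mem_cuts.1 hb).1
      omega
    · intro s hs hws hsm hex
      have hXX : XX x w = XX x s := XX_eq hx hws.le (fun v hv hwv => hsm v hv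
        (lt_of_le_of_ne hwv (fun h' => hw (h' ▸ hv))))
      have hbσ := (mem_cuts.1 hb).1
      have hbw : b ≠ w := fun h' => hw (h' ▸ hbσ)
      constructor
      · show gw x vs Θ a b w = gw x vs Θ a b s
        unfold gw
        have hiff : b < w ↔ b < s := by
          constructor
          · intro h; omega
          · intro h; by_contra h'
            have := hsm _ hbσ (by omega); omega
        have hiff2 : (a < b ∧ b < w) ↔ (a < b ∧ b < s) := and_congr_right fun _ => hiff
        apply if_congr hiff2 _ rfl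
        have hu : ub x (a, b, w) = ub x (a, b, s) := by
          unfold ub; simp only [hXX]
        rw [hu]
        congr 1
        funext j
        have hj := hvs j
        have hjw : vs j < w ↔ vs j < s := by
          constructor
          · intro h; omega
          · intro h; by_contra h'
            have : vs j ≠ w := fun h'' => hw (h'' ▸ hj)
            have := hsm _ hj (by omega); omega
        unfold bl
        simp only [hjw]
      · intro _
        show NN y (prd σ a) a (prd σ b) b (prd σ w) w + NN y (prd σ a) a (prd σ b) b w s =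
          NN y (prd σ a) a (prd σ b) b (prd σ w) s
        unfold NN
        ring
  rw [s1, s2, s3]

end P4a_aux

open P4a_aux in
/-- [QB-P4a] Regrouping lemma (5.4). -/
theorem regroup (A : Cx) (y : Coch 4 ℤ) (hy : NCoc A y) (τ τ' : Finset ℕ) (hτ : τ ∈ A.S)
    (hτ' : τ' ⊆ τ) (hne : τ'.Nonempty) (x : ℕ → ℝ) (hx : x ∈ simp τ') {r : ℕ} (vs : Fin r → ℕ)
    (hvs : ∀ j, vs j ∈ τ') {M : Type} [AddCommGroup M] (Θ : (Fin 4 → ℝ) → (Fin r → Fin 5) → M)
    (hΘ : ∀ u k, (∃ i, u i = 0) → Θ u k = 0) :
    ∑ p ∈ ctri τ, xi y τ p • Θ (ub x p) (fun j => bl p (vs j)) =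
      ∑ p ∈ ctri τ', xi y τ' p • Θ (ub x p) (fun j => bl p (vs j)) := by
  rw [sum_eq_TT, sum_eq_TT]
  have main : ∀ (n : ℕ) (τ : Finset ℕ), τ ∈ A.S → τ' ⊆ τ → (τ \ τ').card = n →
      TT y (gw x vs Θ) τ τ τ = TT y (gw x vs Θ) τ' τ' τ' := by
    intro n
    induction n with
    | zero =>
      intro τ _ hsub hcard
      have : τ ⊆ τ' := Finset.sdiff_eq_empty_iff_subset.1 (Finset.card_eq_zero.1 hcard)
      rw [Finset.Subset.antisymm this hsub]
    | succ n ih =>
      intro τ hτA hsub hcard
      obtain ⟨w, hw⟩ : (τ \ τ').Nonempty := by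
        rw [← Finset.card_pos, hcard]; omega
      rw [Finset.mem_sdiff] at hw
      have hins : insert w (τ.erase w) = τ := Finset.insert_erase hw.1
      have hsub' : τ' ⊆ τ.erase w := fun v hv =>
        Finset.mem_erase.2 ⟨fun h => hw.2 (h ▸ hv), hsub hv⟩
      have hne' : (τ.erase w).Nonempty := hne.mono hsub'
      have hstep := one_step A y hy.coc (τ.erase w) w (Finset.notMem_erase w τ) hne'
        (by rw [hins]; exact hτA) x (simp_mono hsub' hx) vs (fun j => hsub' (hvs j)) Θ hΘ
      rw [hins] at hstep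
      rw [hstep]
      apply ih _ (A.down τ hτA _ (Finset.erase_subset _ _) hne') hsub'
      have : τ.erase w \ τ' = (τ \ τ').erase w := by
        ext v; simp only [Finset.mem_sdiff, Finset.mem_erase]; tauto
      rw [this, Finset.card_erase_of_mem (Finset.mem_sdiff.2 hw), hcard]
      rfl
  exact main _ τ hτ hτ' rfl

end Pool.QB
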