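import Pool.Agent.MP_c51823_gt.QB.B6Def
import Pool.Agent.MP_c51823_gt.QB.B1
import Pool.Agent.MP_c51823_gt.QB.J1a
import Pool.Agent.MP_c51823_gt.QB.P4a
import Pool.Agent.MP_c51823_gt.QB.P4b

/-!
# [QB-B7] For `x′` near `x` in `|A|` compare through `τ′ = fsupp x′ ⊇ fsupp x` (regrouping lemma,
`Θ u k = prism (colours of gm m u) k`, zero on the boundary because then `gm m u = *` has colour `4`), and
local constancy of the colours (B1) at the finitely many points `gm m (ub x p)`, `ξ ≠ 0` (for τ′).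
-/

set_option autoImplicit false
open Topology

namespace Pool.QB

theorem b7_prism_four (β₀ β₁ : Fin 3 → Fin 5) (h : β₀ 0 = 4) : prism β₀ β₁ = 0 := by
  unfold prism
  refine Finset.sum_eq_zero fun j _ => ?_
  have h1 : iota (prismT β₀ β₁ j) = 0 := by
    unfold iota
    refine if_pos ⟨0, ?_⟩
    unfold prismT
    simp only [Fin.val_zero, Nat.zero_le, dif_pos]
    exact h
  rw [h1, mul_zero]

theorem b7_cont_ub (A : Cx) (p : ℕ × ℕ × ℕ) : Continuous fun x : A.real => ub x.1 p := by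
  have h : ∀ a, Continuous fun x : A.real => XX x.1 a := fun a => by
    unfold XX
    exact continuous_finsetSum _ fun v _ => (continuous_apply v).comp continuous_subtype_val
  unfold ub
  refine continuous_pi fun i => ?_
  fin_cases i
  · exact h _
  · exact (h _).sub (h _)
  · exact (h _).sub (h _)
  · exact continuous_const.sub (h _)

theorem b7_ctri_lt {τ : Finset ℕ} {p : ℕ × ℕ × ℕ} (hp : p ∈ ctri τ) :
    p.1 < p.2.1 ∧ p.2.1 < p.2.2 := by
  unfold ctri at hp
  exact (Finset.mem_filter.1 hp).2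

/-- [QB-B7] local constancy of the prism sums (regrouping lemma on each closed simplex `|τ|`) -/
theorem PrS_locconst (A : Cx) (y : Coch 4 ℤ) (hy : NCoc A y)
    (hpos : ∀ τ ∈ A.S, ∀ p ∈ ctri τ, 0 ≤ xi y τ p) {m : ℝ} (hm : 0 < m) (hm' : m ≤ 1 / 8) (A₀ : ℕ) (rr vs : Fin 3 → ℕ) (hrr : ∀ j, rr j ≤ 10 * A₀) (x : A.real)
    (hvs : ∀ j, vs j ∈ fsupp x.1)
    (hfree : ∀ p ∈ ctri (fsupp x.1), xi y (fsupp x.1) p ≠ 0 → ∀ j,
      gm m (ub x.1 p) ∉ Dr A₀ (rr j)) :
    ∀ᶠ x' : A.real in 𝓝 x, PrS y m A₀ rr vs x'.1 = PrS y m A₀ rr vs x.1 := by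
  classical
  set τ := fsupp x.1 with hτd
  have hτ : τ ∈ A.S := fsupp_mem A x.2
  have hxs : x.1 ∈ simp τ := mem_simp_fsupp A x.2
  have hne : τ.Nonempty := A.ne τ hτ
  -- eventually the support contains `τ`
  have h1 : ∀ᶠ x' : A.real in 𝓝 x, ∀ v ∈ τ, v ∈ fsupp x'.1 := by
    refine (Filter.eventually_all_finset τ).2 fun v hv => ?_
    have hc : Continuous fun x' : A.real => x'.1 v :=
      (continuous_apply v).comp continuous_subtype_val
    have h0 : 0 < x.1 v := (mem_fsupp_iff_pos A x.2 v).1 hv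
    filter_upwards [hc.continuousAt.eventually (lt_mem_nhds h0)] with x' hx'
    exact (mem_fsupp_iff_pos A x'.2 v).2 hx'
  -- freeness for larger simplices
  have hstar : ∀ r ≤ 10 * A₀, star ∉ Dr A₀ r := fun r hr => (col_star A₀ r hr).1
  have h2 : ∀ τ' ∈ A.S, τ ⊆ τ' → ∀ p ∈ ctri τ', xi y τ' p ≠ 0 → ∀ j,
      gm m (ub x.1 p) ∉ Dr A₀ (rr j) := by
    intro τ' hτ' hsub p hp hxi j
    obtain ⟨hp1, hp2⟩ := b7_ctri_lt hp
    obtain ⟨hu, hus⟩ := ub_mem hxs hp1 hp2
    by_cases hz : ∃ i, ub x.1 p i = 0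
    · rw [(gm_eq_star_iff hm hm' hu hus).2 hz]
      exact hstar _ (hrr j)
    · have hreg := regroup A y hy τ' τ hτ' hsub hne x.1 hxs (r := 0) Fin.elim0
        (fun j => j.elim0) (M := ℤ) (fun u _ => if u = ub x.1 p then 1 else 0) (by
          rintro u _ ⟨i, hi⟩
          refine if_neg ?_
          rintro rfl
          exact hz ⟨i, hi⟩)
      simp only [smul_eq_mul, mul_ite, mul_one, mul_zero] at hreg
      have hlhs : 0 < ∑ q ∈ ctri τ', if ub x.1 q = ub x.1 p then xi y τ' q else 0 := by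
        refine Finset.sum_pos' (fun q hq => ?_) ⟨p, hp, ?_⟩
        · split_ifs
          · exact hpos τ' hτ' q hq
          · exact le_rfl
        · rw [if_pos rfl]
          exact lt_of_le_of_ne (hpos τ' hτ' p hp) (Ne.symm hxi)
      rw [hreg] at hlhs
      obtain ⟨q, hq, hq'⟩ := Finset.exists_ne_zero_of_sum_ne_zero hlhs.ne'
      by_cases hqe : ub x.1 q = ub x.1 p
      · rw [if_pos hqe] at hq'
        rw [← hqe]
        exact hfree q hq hq' j
      · rw [if_neg hqe] at hq'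
        exact absurd rfl hq'
  -- local constancy of the colours
  have h3 : ∀ᶠ x' : A.real in 𝓝 x, ∀ τ' ∈ A.S, ∀ p ∈ ctri τ', τ ⊆ τ' → xi y τ' p ≠ 0 → ∀ j,
      col A₀ (rr j) (gm m (ub x'.1 p)) = col A₀ (rr j) (gm m (ub x.1 p)) := by
    refine (Filter.eventually_all_finset A.S).2 fun τ' hτ' => ?_
    refine (Filter.eventually_all_finset (ctri τ')).2 fun p hp => ?_
    by_cases hc : τ ⊆ τ' ∧ xi y τ' p ≠ 0
    · have h4 : ∀ j, ∀ᶠ x' : A.real in 𝓝 x,
          col A₀ (rr j) (gm m (ub x'.1 p)) = col A₀ (rr j) (gm m (ub x.1 p)) := fun j => by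
        have h5 := col_locconst A₀ (rr j) _ (h2 τ' hτ' hc.1 p hp hc.2 j)
        have h6 : Continuous fun x' : A.real => gm m (ub x'.1 p) :=
          (continuous_gm hm hm').comp (b7_cont_ub A p)
        exact h6.continuousAt.eventually h5
      filter_upwards [Filter.eventually_all.2 h4] with x' hx' _ _ j
      exact hx' j
    · refine Filter.Eventually.of_forall fun x' ha hb => ?_
      exact absurd ⟨ha, hb⟩ hc
  filter_upwards [h1, h3] with x' h1' h3'
  have hsub : τ ⊆ fsupp x'.1 := h1'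
  have hτ' : fsupp x'.1 ∈ A.S := fsupp_mem A x'.2
  -- the function Θ
  set Θ : (Fin 4 → ℝ) → (Fin 3 → Fin 5) → ℤ := fun u k =>
    if ∃ i, u i = 0 then 0 else prism (colT A₀ rr (gm m u)) k with hΘ
  have hΘe : ∀ u : Fin 4 → ℝ, (∀ i, 0 ≤ u i) → ∑ i, u i = 1 → ∀ k,
      Θ u k = prism (colT A₀ rr (gm m u)) k := by
    intro u hu hus k
    rw [hΘ]
    simp only
    by_cases hz : ∃ i, u i = 0
    · rw [if_pos hz]
      refine (b7_prism_four _ _ ?_).symm
      unfold colT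
      rw [(gm_eq_star_iff hm hm' hu hus).2 hz]
      exact (col_star A₀ _ (hrr 0)).2
    · rw [if_neg hz]
  have hreg := regroup A y hy (fsupp x'.1) τ hτ' hsub hne x.1 hxs vs hvs Θ
    (fun u k hz => if_pos hz)
  have e1 : ∑ p ∈ ctri τ, xi y τ p • Θ (ub x.1 p) (fun j => bl p (vs j)) =
      PrS y m A₀ rr vs x.1 := by
    unfold PrS
    rw [← hτd]
    refine Finset.sum_congr rfl fun p hp => ?_
    obtain ⟨hp1, hp2⟩ := b7_ctri_lt hp
    obtain ⟨hu, hus⟩ := ub_mem hxs hp1 hp2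
    rw [hΘe _ hu hus, smul_eq_mul]
  rw [← e1, ← hreg]
  unfold PrS
  refine Finset.sum_congr rfl fun p hp => ?_
  obtain ⟨hp1, hp2⟩ := b7_ctri_lt hp
  obtain ⟨hu, hus⟩ := ub_mem hxs hp1 hp2
  rw [hΘe _ hu hus, smul_eq_mul]
  by_cases hxi : xi y (fsupp x'.1) p = 0
  · rw [hxi, zero_mul, zero_mul]
  · have h4 : colT A₀ rr (gm m (ub x'.1 p)) = colT A₀ rr (gm m (ub x.1 p)) := by
      funext j
      exact h3' _ hτ' p hp hsub hxi j
    rw [h4]

end Pool.QB
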