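import Pool.Agent.MP_c51823_gt.QB.B6Def
import Pool.Agent.MP_c51823_gt.QB.B1
import Pool.Agent.MP_c51823_gt.QB.J1a
import Pool.Agent.MP_c51823_gt.QB.P1
import Pool.Agent.MP_c51823_gt.QB.P4b

/-!
# [QB-B8] CLAIM of 6.5 and prism identity (P1) summed over cut triples; `y_eq_sum` (P4b).
-/

set_option autoImplicit false
open Topology

namespace Pool.QB

/-- [QB-B8a] the CLAIM of 6.5: a vertex of `∂Δ^4` is missed -/
theorem missing_vertex {τ : Finset ℕ} {x : ℕ → ℝ} (hx : x ∈ simp τ) {m : ℝ} (hm : 0 < m)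
    (hm' : m ≤ 1 / 8) (A₀ : ℕ) {n : ℕ} (rr vs : Fin n → ℕ) (hrr : ∀ j, rr j ≤ 10 * A₀)
    (hvs : ∀ j, m < x (vs j)) (p : ℕ × ℕ × ℕ) (hp : p.1 < p.2.1) (hp' : p.2.1 < p.2.2) :
    ∃ c : Fin 5, ∀ j, colT A₀ rr (gm m (ub x p)) j ≠ c ∧ bl p (vs j) ≠ c := by
  obtain ⟨hu0, hu1⟩ := ub_mem hx hp hp'
  have hY : gm m (ub x p) ∈ Yset := gm_mem hm hm' hu0 hu1
  by_cases h : m ≤ mn4 (ub x p)
  · refine ⟨4, fun j => ⟨?_, ?_⟩⟩
    · intro hc
      have h1 := col_supp A₀ (rr j) (hrr j) _ hY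
      rw [show col A₀ (rr j) (gm m (ub x p)) = 4 from hc] at h1
      exact h1 (gm_last hm h)
    · unfold bl
      split_ifs <;> decide
  · push Not at h
    have hk : ∃ k : Fin 4, ub x p k = mn4 (ub x p) := by
      unfold mn4
      rcases min_choice (min (ub x p 0) (ub x p 1)) (min (ub x p 2) (ub x p 3)) with h1 | h1
      · rcases min_choice (ub x p 0) (ub x p 1) with h2 | h2
        · exact ⟨0, by rw [h1, h2]⟩
        · exact ⟨1, by rw [h1, h2]⟩
      · rcases min_choice (ub x p 2) (ub x p 3) with h2 | h2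
        · exact ⟨2, by rw [h1, h2]⟩
        · exact ⟨3, by rw [h1, h2]⟩
    obtain ⟨k, hk⟩ := hk
    have hkm : ub x p k < m := by rw [hk]; exact h
    refine ⟨k.castSucc, fun j => ⟨?_, ?_⟩⟩
    · intro hc
      have h1 := col_supp A₀ (rr j) (hrr j) _ hY
      rw [show col A₀ (rr j) (gm m (ub x p)) = k.castSucc from hc] at h1
      exact h1 (gm_min hm k hk hkm.le)
    · intro hc
      have h1 := le_ub hx hp hp' (vs j) k hc
      have h2 := hvs j
      linarith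

/-- [QB-B8b] the coboundary of the prism sum at one point -/
theorem PrS_dd (A : Cx) (y : Coch 4 ℤ) (hy : NCoc A y) {m : ℝ} (hm : 0 < m) (hm' : m ≤ 1 / 8)
    (A₀ : ℕ) (rr vs : Fin 4 → ℕ) (hrr : ∀ j, rr j ≤ 10 * A₀) (x : A.real)
    (hvs : ∀ j, m < x.1 (vs j)) (hmono : Monotone vs) :
    ∑ i : Fin 4, (-1 : ℤ) ^ (i : ℕ) *
        PrS y m A₀ (fun j => rr (i.succAbove j)) (fun j => vs (i.succAbove j)) x.1 =
      y vs - ∑ p ∈ ctri (fsupp x.1), xi y (fsupp x.1) p * iota (colT A₀ rr (gm m (ub x.1 p))) := by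
  have hτ : fsupp x.1 ∈ A.S := fsupp_mem A x.2
  have hsimp : x.1 ∈ simp (fsupp x.1) := mem_simp_fsupp A x.2
  have hvτ : ∀ i, vs i ∈ fsupp x.1 := fun i =>
    (mem_fsupp_iff_pos A x.2 (vs i)).2 (lt_trans hm (hvs i))
  rw [y_eq_sum A y hy (fsupp x.1) hτ vs hmono hvτ, ← Finset.sum_sub_distrib]
  unfold PrS
  simp only [Finset.mul_sum]
  rw [Finset.sum_comm]
  refine Finset.sum_congr rfl fun p hp => ?_
  have hp2 := (Finset.mem_filter.1 hp).2
  have hmiss := missing_vertex hsimp hm hm' A₀ rr vs hrr hvs p hp2.1 hp2.2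
  have hprism := prism_identity (colT A₀ rr (gm m (ub x.1 p))) (fun i => bl p (vs i)) hmiss
  rw [← mul_sub, ← hprism, Finset.mul_sum]
  refine Finset.sum_congr rfl fun i _ => ?_
  rw [mul_left_comm]
  rfl

end Pool.QB
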