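import Pool.Agent.MP_c51823_gt.QB.B6Def
import Pool.Agent.MP_c51823_gt.QB.B1
import Pool.Agent.MP_c51823_gt.QB.C2

/-!
# [QB-B9] `iota` of the colours vanishes at `*`; multiplicities are `toNat` of nonnegative integers.
-/

set_option autoImplicit false
open Topology

namespace Pool.QB

namespace B9_aux

theorem sum_filter_ne {X : Type} (a : X) [DecidablePred fun v : X => v ≠ a] (f : X → ℤ)
    (hf : f a = 0) (M : Multiset X) :
    ((M.filter (fun v => v ≠ a)).map f).sum = (M.map f).sum := by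
  induction M using Multiset.induction_on with
  | empty => simp
  | cons b M ih =>
    by_cases hb : b = a
    · subst hb
      rw [Multiset.filter_cons_of_neg (p := fun v => v ≠ b) M (by simp), Multiset.map_cons,
        Multiset.sum_cons, ih, hf, zero_add]
    · rw [Multiset.filter_cons_of_pos (p := fun v => v ≠ a) M hb, Multiset.map_cons,
        Multiset.sum_cons, Multiset.map_cons, Multiset.sum_cons, ih]

theorem iota_star (A₀ : ℕ) (rr : Fin 4 → ℕ) (hrr : ∀ j, rr j ≤ 10 * A₀) :
    iota (colT A₀ rr star) = 0 := by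
  unfold iota
  rw [if_pos ⟨0, (col_star A₀ _ (hrr 0)).2⟩]

end B9_aux

open Classical in
/-- [QB-B9] comparison of the two ways of summing `ι` over the configuration of `Φ_y(x)` -/
theorem JJ_iota_sum (A : Cx) (y : Coch 4 ℤ) (hpos : ∀ τ ∈ A.S, ∀ p ∈ ctri τ, 0 ≤ xi y τ p)
    {m : ℝ} (A₀ : ℕ) (rr : Fin 4 → ℕ) (hrr : ∀ j, rr j ≤ 10 * A₀) (x : ℕ → ℝ) (hx : x ∈ A.real)
    (J : Multiset (Fin 5 → ℝ)) (hJ : J = ((ctri (fsupp x)).val.bind fun p =>
      Multiset.replicate (xi y (fsupp x) p).toNat (gm m (ub x p))).filter (· ≠ star)) :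
    (J.map fun v => iota (colT A₀ rr v)).sum =
      ∑ p ∈ ctri (fsupp x), xi y (fsupp x) p * iota (colT A₀ rr (gm m (ub x p))) := by
  have hτ : fsupp x ∈ A.S := fsupp_mem A hx
  rw [hJ, B9_aux.sum_filter_ne star (fun v => iota (colT A₀ rr v)) (B9_aux.iota_star A₀ rr hrr),
    Multiset.map_bind, Multiset.sum_bind]
  show (Multiset.map _ (ctri (fsupp x)).val).sum = (Multiset.map _ (ctri (fsupp x)).val).sum
  congr 1
  refine Multiset.map_congr rfl fun p hp => ?_
  have hp' : p ∈ ctri (fsupp x) := hp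
  rw [Multiset.map_replicate, Multiset.sum_replicate, nsmul_eq_mul]
  congr 1
  exact Int.toNat_of_nonneg (hpos _ hτ p hp')

end Pool.QB
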