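import Pool.Agent.MP_c51823_gt.QB.EDef

/-!
# [QB] Configurations, definitions (4.5)
-/

set_option autoImplicit false
open Topology

namespace Pool.QB

/-- the base point `*` (vertex 4) of `Y = |∂Δ^4|` -/
def star : Fin 5 → ℝ := Pi.single 4 1

/-- `Y = |∂Δ^4|` -/
def Yset : Set (Fin 5 → ℝ) := {v | (∀ i, 0 ≤ v i) ∧ ∑ i, v i = 1 ∧ ∃ i, v i = 0}

/-- minimum of four numbers -/
noncomputable def mn4 (u : Fin 4 → ℝ) : ℝ := min (min (u 0) (u 1)) (min (u 2) (u 3))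

/-- `g_m : |Δ^3| → Y` -/
noncomputable def gm (m : ℝ) (u : Fin 4 → ℝ) : Fin 5 → ℝ := fun b =>
  if hb : (b : ℕ) < 4 then
    (min (mn4 u) m / m) * (u ⟨b, hb⟩ - min (mn4 u) m) / (1 - 4 * min (mn4 u) m)
  else 1 - min (mn4 u) m / m

/-- the inverse coordinates `(s, z) ↦ u` -/
noncomputable def uOf (s : ℝ) (z : ℂ) : Fin 4 → ℝ :=
  let k := min (min z.re z.im) 0
  let d := 3 + z.re + z.im - 3 * k
  ![s, (1 - s) * (1 + z.re - k) / d, (1 - s) * (1 + z.im - k) / d, (1 - s) * (1 - k) / d]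

/-- `β(s, z)`, with `s` clamped to `[0,1]` -/
noncomputable def bet (m s : ℝ) (z : ℂ) : Fin 5 → ℝ := gm m (uOf (max 0 (min 1 s)) z)

end Pool.QB
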