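import Pool.Agent.MP_c51823_gt.QB.PDef
import Pool.Agent.MP_c51823_gt.QB.JDef1

/-!
# [QB] Colourings and subdivision coordinates: definitions (6.2, 6.3)
-/

set_option autoImplicit false
open Topology

namespace Pool.QB

/-! ## Colourings (6.2) -/

/-- shifted coordinates `v_b - ε₀ r b`, `ε₀ = 1/(200 (A₀+1))` -/
noncomputable def shf (A₀ : ℕ) (r : ℕ) (v : Fin 5 → ℝ) (b : Fin 5) : ℝ :=
  v b - (r : ℝ) * (b : ℝ) / (200 * (A₀ + 1))

/-- the colour `b^r(v)`: an index at which the shifted coordinate is maximal -/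
noncomputable def col (A₀ : ℕ) (r : ℕ) (v : Fin 5 → ℝ) : Fin 5 :=
  (Finite.exists_max (shf A₀ r v)).choose

/-- `D_r`: the maximum is attained at least twice -/
def Dr (A₀ : ℕ) (r : ℕ) : Set (Fin 5 → ℝ) :=
  {v | ∃ b b', b ≠ b' ∧ shf A₀ r v b = shf A₀ r v b' ∧ ∀ c, shf A₀ r v c ≤ shf A₀ r v b}

/-! ## Subdivision coordinates (6.3) -/

/-- `k_σ(p) = (min_σ p - max_{Vt \ σ} p)_+`, `Vt` a finite set of vertices outside of which `p = 0`. -/
noncomputable def kk (Vt σ : Finset ℕ) (p : ℕ → ℝ) : ℝ :=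
  if h : σ.Nonempty then max 0 (σ.inf' h p - (Vt \ σ).fold max 0 p) else 0

/-- total weight of the simplices of the subcomplex `A` -/
noncomputable def aA (A : Cx) (Vt : Finset ℕ) (p : ℕ → ℝ) : ℝ :=
  ∑ σ ∈ A.S, (σ.card : ℝ) * kk Vt σ p

/-- the retraction-like map `ρ` -/
noncomputable def rhoA (A : Cx) (Vt : Finset ℕ) (p : ℕ → ℝ) : ℕ → ℝ := fun v =>
  (∑ σ ∈ A.S.filter (fun σ => v ∈ σ), kk Vt σ p) / aA A Vt p

end Pool.QB
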