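import Pool.Agent.MP_c51823_gt.QB.CxDef

/-!
# [QB-C1] compactness
-/

set_option autoImplicit false
open Topology

namespace Pool.QB

/-- [QB-C1a] -/
theorem isCompact_simp (s : Finset ℕ) : IsCompact (simp s) := by
  have hK : IsCompact (Set.pi Set.univ fun _ : ℕ => Set.Icc (0 : ℝ) 1) :=
    isCompact_univ_pi fun _ => isCompact_Icc
  refine hK.of_isClosed_subset ?_ ?_
  · have h1 : IsClosed {x : ℕ → ℝ | ∀ i, 0 ≤ x i} := by
      rw [Set.ofPred_forall]
      exact isClosed_iInter fun i => isClosed_le continuous_const (continuous_apply i)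
    have h2 : IsClosed {x : ℕ → ℝ | ∀ i, i ∉ s → x i = 0} := by
      rw [Set.ofPred_forall]
      refine isClosed_iInter fun i => ?_
      rw [Set.ofPred_forall]
      exact isClosed_iInter fun _ => isClosed_eq (continuous_apply i) continuous_const
    have h3 : IsClosed {x : ℕ → ℝ | ∑ i ∈ s, x i = 1} :=
      isClosed_eq (continuous_finsetSum _ fun i _ => continuous_apply i) continuous_const
    exact h1.inter (h2.inter h3)
  · rintro x ⟨h1, h2, h3⟩ i -
    refine ⟨h1 i, ?_⟩
    by_cases hi : i ∈ s
    · rw [← h3]
      exact Finset.single_le_sum (fun j _ => h1 j) hi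
    · rw [h2 i hi]
      exact zero_le_one

/-- [QB-C1b] `|K|` is the finite union of its closed simplices. -/
theorem isCompact_real (K : Cx) : IsCompact K.real := by
  have h : K.real = ⋃ s ∈ K.S, simp s := by
    ext x
    simp only [Cx.real, Set.mem_ofPred_eq, Set.mem_iUnion, exists_prop]
  rw [h]
  exact K.S.isCompact_biUnion fun s _ => isCompact_simp s

end Pool.QB
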