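import Pool.Agent.MP_c51823_gt.QB.C2

/-!
# [QB-C3] Straight lines
-/

set_option autoImplicit false
open Topology

namespace Pool.QB

namespace C3_aux

theorem line_mem_simp (K : Cx) {x y : ℕ → ℝ} (hx : x ∈ K.real) (hy : y ∈ K.real)
    (t : ℝ) (ht : t ∈ Set.Icc (0 : ℝ) 1) :
    (fun i => (1 - t) * x i + t * y i) ∈ simp (fsupp x ∪ fsupp y) := by
  have h1 := simp_mono (t := fsupp x ∪ fsupp y) Finset.subset_union_left (mem_simp_fsupp K hx)
  have h2 := simp_mono (t := fsupp x ∪ fsupp y) Finset.subset_union_right (mem_simp_fsupp K hy)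
  exact simp_convex _ h1 h2 (sub_nonneg.2 ht.2) ht.1 (by ring)

end C3_aux

/-- [QB-C3] the straight line in the simplex spanned by two points of a common simplex:
`supp ((1-t) x + t y) ⊆ supp x ∪ supp y`. -/
theorem line_mem_real (K : Cx) {x y : ℕ → ℝ} (hx : x ∈ K.real) (hy : y ∈ K.real)
    (h : fsupp x ∪ fsupp y ∈ K.S) (t : ℝ) (ht : t ∈ Set.Icc (0 : ℝ) 1) :
    (fun i => (1 - t) * x i + t * y i) ∈ K.real :=
  simp_subset_real K h (C3_aux.line_mem_simp K hx hy t ht)

/-- [QB-C4] straight line homotopy -/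
theorem line_homotopy (K : Cx) {C : Type} [TopologicalSpace C] (f g : C(C, K.real))
    (h : ∀ x, fsupp (f x).1 ∪ fsupp (g x).1 ∈ K.S) :
    ∃ H : C(C × unitInterval, K.real), (∀ x, H (x, 0) = f x) ∧ (∀ x, H (x, 1) = g x) ∧
      ∀ x t, fsupp (H (x, t)).1 ⊆ fsupp (f x).1 ∪ fsupp (g x).1 := by
  refine ⟨⟨fun q => ⟨fun i => (1 - (q.2 : ℝ)) * (f q.1).1 i + (q.2 : ℝ) * (g q.1).1 i,
    line_mem_real K (f q.1).2 (g q.1).2 (h q.1) q.2 q.2.2⟩, ?_⟩, ?_, ?_, ?_⟩
  · refine Continuous.subtype_mk (continuous_pi fun i => ?_) _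
    have e2 : Continuous fun q : C × unitInterval => (q.2 : ℝ) :=
      continuous_subtype_val.comp continuous_snd
    have e3 : Continuous fun q : C × unitInterval => (f q.1).1 i :=
      (continuous_apply i).comp (continuous_subtype_val.comp (f.continuous.comp continuous_fst))
    have e4 : Continuous fun q : C × unitInterval => (g q.1).1 i :=
      (continuous_apply i).comp (continuous_subtype_val.comp (g.continuous.comp continuous_fst))
    exact ((continuous_const.sub e2).mul e3).add (e2.mul e4)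
  · intro x
    refine Subtype.ext (funext fun i => ?_)
    simp
  · intro x
    refine Subtype.ext (funext fun i => ?_)
    simp
  · intro x t
    exact fsupp_subset_of_simp (C3_aux.line_mem_simp K (f x).2 (g x).2 t t.2)

end Pool.QB
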