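import Pool.Agent.MP_c51823_gt.QB.CPair

/-!
# [QB] complex projective spaces as rank one projections: definitions
-/

set_option autoImplicit false
open Topology

namespace Pool.QB

/-! ### Complex projective spaces (as rank one projections, polynomials up to scalars) -/

/-- The rank one projection (as an infinite matrix) onto the line of coefficient vectors spanned by
the polynomial `p`; junk `0` when `p = 0`. -/
noncomputable def line (p : Polynomial ℂ) : ℕ → ℕ → ℂ := fun i j =>
  p.coeff i * (starRingEnd ℂ) (p.coeff j) / ((∑ k ∈ p.support, ‖p.coeff k‖ ^ 2 : ℝ) : ℂ)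

/-- `CP^a`: nonzero polynomials of degree `≤ a` up to scalars. -/
def CP (a : ℕ) : Set (ℕ → ℕ → ℂ) := {e | ∃ p : Polynomial ℂ, p ≠ 0 ∧ p.natDegree ≤ a ∧ e = line p}

theorem line_mem {a : ℕ} {p : Polynomial ℂ} (hp : p ≠ 0) (hd : p.natDegree ≤ a) : line p ∈ CP a :=
  ⟨p, hp, hd, rfl⟩

theorem CP_mono {a b : ℕ} (h : a ≤ b) : CP a ⊆ CP b := fun _ ⟨p, h0, h1, h2⟩ =>
  ⟨p, h0, h1.trans h, h2⟩

end Pool.QB
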