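import Mathlib

/-!
# [QB] compact pairs and triples
-/

set_option autoImplicit false
open Topology

namespace Pool.QB

/-- A compact Hausdorff pair `(X, A)`. -/
structure CPair : Type 1 where
  X : Type
  [top : TopologicalSpace X]
  [cpt : CompactSpace X]
  [t2 : T2Space X]
  A : Set X
  closed : IsClosed A

attribute [instance] CPair.top CPair.cpt CPair.t2

/-- Maps of pairs. -/
structure CPair.Map (P Q : CPair) where
  f : C(P.X, Q.X)
  maps : ∀ x ∈ P.A, f x ∈ Q.A

def CPair.Map.id (P : CPair) : CPair.Map P P := ⟨ContinuousMap.id _, fun _ h => h⟩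

def CPair.Map.comp {P Q R : CPair} (g : CPair.Map Q R) (f : CPair.Map P Q) : CPair.Map P R :=
  ⟨g.f.comp f.f, fun x hx => g.maps _ (f.maps x hx)⟩

/-- The pair `(X, ∅)`. -/
def absP (X : Type) [TopologicalSpace X] [CompactSpace X] [T2Space X] : CPair :=
  ⟨X, ∅, isClosed_empty⟩

/-- A continuous map as a map of pairs `(X, ∅) → (Y, ∅)`. -/
def absMap {X Y : Type} [TopologicalSpace X] [CompactSpace X] [T2Space X]
    [TopologicalSpace Y] [CompactSpace Y] [T2Space Y] (f : C(X, Y)) :
    CPair.Map (absP X) (absP Y) := ⟨f, fun _ h => h.elim⟩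

/-- A compact Hausdorff triple `A ⊆ B ⊆ X`. -/
structure CTriple : Type 1 where
  X : Type
  [top : TopologicalSpace X]
  [cpt : CompactSpace X]
  [t2 : T2Space X]
  B : Set X
  A : Set X
  closedB : IsClosed B
  closedA : IsClosed A
  sub : A ⊆ B

attribute [instance] CTriple.top CTriple.cpt CTriple.t2

namespace CTriple

/-- the pair `(X, A)` -/
def XA (T : CTriple) : CPair := ⟨T.X, T.A, T.closedA⟩
/-- the pair `(X, B)` -/
def XB (T : CTriple) : CPair := ⟨T.X, T.B, T.closedB⟩
/-- the pair `(B, A)`; the underlying space is the subtype `↥B`. -/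
def BA (T : CTriple) : CPair :=
  haveI : CompactSpace T.B := isCompact_iff_compactSpace.mp T.closedB.isCompact
  ⟨T.B, Subtype.val ⁻¹' T.A, T.closedA.preimage continuous_subtype_val⟩

/-- `(B, A) → (X, A)` -/
def i (T : CTriple) : CPair.Map T.BA T.XA :=
  ⟨⟨Subtype.val, continuous_subtype_val⟩, fun _ h => h⟩
/-- `(X, A) → (X, B)` -/
def j (T : CTriple) : CPair.Map T.XA T.XB :=
  ⟨ContinuousMap.id _, fun _ h => T.sub h⟩

/-- Maps of triples. -/
structure Map (T U : CTriple) where
  f : C(T.X, U.X)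
  mapsB : ∀ x ∈ T.B, f x ∈ U.B
  mapsA : ∀ x ∈ T.A, f x ∈ U.A

/-- the induced map `(X, B) → (X', B')` -/
def Map.xb {T U : CTriple} (m : Map T U) : CPair.Map T.XB U.XB := ⟨m.f, m.mapsB⟩
/-- the induced map `(X, A) → (X', A')` -/
def Map.xa {T U : CTriple} (m : Map T U) : CPair.Map T.XA U.XA := ⟨m.f, m.mapsA⟩
/-- the induced map `(B, A) → (B', A')` -/
def Map.ba {T U : CTriple} (m : Map T U) : CPair.Map T.BA U.BA :=
  ⟨⟨fun x => ⟨m.f x.1, m.mapsB x.1 x.2⟩, by
      exact (m.f.continuous.comp continuous_subtype_val).subtype_mk _⟩,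
    fun x hx => m.mapsA x.1 hx⟩

end CTriple

end Pool.QB
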