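import Pool.Agent.MP_c51823_gt.QB.C1

/-!
# [QB] Core definitions: cochains, refinements, stages, EB, RK (QB_PROOF.md section 1)
-/

set_option autoImplicit false
open Topology

namespace Pool.QB

/-! ## Cochains -/

/-- Cochains on `n`-tuples of vertices (degree `n - 1`). Only admissible tuples matter. -/
abbrev Coch (n : ℕ) (P : Type) := (Fin n → ℕ) → P

/-- admissible tuples: weakly increasing and spanning a simplex. -/
def adm (K : Cx) {n : ℕ} (v : Fin n → ℕ) : Prop :=
  Monotone v ∧ Finset.univ.image v ∈ K.S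

/-- coboundary -/
def dd {P : Type} [AddCommGroup P] {n : ℕ} (c : Coch n P) : Coch (n + 1) P := fun v =>
  ∑ i : Fin (n + 1), (-1 : ℤ) ^ (i : ℕ) • c (fun j => v (i.succAbove j))

/-- `c` is a cocycle on `K`. -/
def IsCocyc {P : Type} [AddCommGroup P] {n : ℕ} (K : Cx) (c : Coch n P) : Prop :=
  ∀ v : Fin (n + 1) → ℕ, adm K v → dd c v = 0

/-! ## Refinement data -/

/-- Refinement data `K' → K`: a monotone vertex map and a carrier map. -/
structure RefData (K' K : Cx) where
  φ : ℕ → ℕ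
  car : Finset ℕ → Finset ℕ
  mono : Monotone φ
  car_mem : ∀ s ∈ K'.S, car s ∈ K.S
  φ_sub : ∀ s ∈ K'.S, s.image φ ⊆ car s
  car_mono : ∀ s ∈ K'.S, ∀ t ⊆ s, t.Nonempty → car t ⊆ car s

/-- identity -/
def RefData.id (K : Cx) : RefData K K where
  φ := _root_.id
  car := _root_.id
  mono := monotone_id
  car_mem _ h := h
  φ_sub s _ := by simp
  car_mono _ _ _ h _ := h

/-- composition -/
def RefData.comp {K'' K' K : Cx} (a : RefData K' K) (b : RefData K'' K') : RefData K'' K where
  φ := a.φ ∘ b.φ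
  car := a.car ∘ b.car
  mono := a.mono.comp b.mono
  car_mem s hs := a.car_mem _ (b.car_mem s hs)
  φ_sub s hs := by
    refine Finset.Subset.trans ?_ (a.φ_sub _ (b.car_mem s hs))
    rw [← Finset.image_image]
    exact Finset.image_subset_image (b.φ_sub s hs)
  car_mono s hs t ht hn := a.car_mono _ (b.car_mem s hs) _ (b.car_mono s hs t ht hn)
    (K'.ne _ (b.car_mem t (K''.down s hs t ht hn)))

/-- The preimage subcomplex `A' = {s ∈ K' : car s ∈ A}`. -/
def RefData.pull {K' K : Cx} (r : RefData K' K) (A : Cx) : Cx where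
  S := K'.S.filter fun s => r.car s ∈ A.S
  ne s hs := K'.ne s (Finset.mem_filter.1 hs).1
  down s hs t ht hn := by
    obtain ⟨h1, h2⟩ := Finset.mem_filter.1 hs
    have h3 := K'.down s h1 t ht hn
    exact Finset.mem_filter.2 ⟨h3, A.down _ h2 _ (r.car_mono s h1 t ht hn) (K.ne _ (r.car_mem t h3))⟩

/-! ## Stages -/

/-- `S4 = |∂Δ^5|` (vertices `0, …, 5`). -/
def S4 : Set (ℕ → ℝ) := (Cx.bd (Finset.range 6)).real

instance (K : Cx) : CompactSpace K.real := isCompact_iff_compactSpace.mp (isCompact_real K)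

instance : CompactSpace S4 := isCompact_iff_compactSpace.mp (isCompact_real _)

/-- A stage over the theory `h` and the class `u` (QB_PROOF.md section 1). -/
structure Stage (h : HT) (u : h.H 0 (absP S4)) : Type 1 where
  G : Type
  [top : TopologicalSpace G]
  [cpt : CompactSpace G]
  [t2 : T2Space G]
  f : C(G, S4)
  ess : h.map 0 (absMap f) u ≠ 0
  K : Cx
  κ : C(G, K.real)

attribute [instance] Stage.top Stage.cpt Stage.t2

/-- Refinements of stages. -/
structure Refine {h : HT} {u : h.H 0 (absP S4)} (S' S : Stage h u) extends RefData S'.K S.K where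
  π : C(S'.G, S.G)
  f_eq : ∀ x, S'.f x = S.f (π x)
  κ_car : ∀ x, car (fsupp (S'.κ x).1) ⊆ fsupp (S.κ (π x)).1

/-! ## The three properties of sections 6, 7 -/

/-- `EB_{n-1}(P)`: cocycles on subcomplexes extend after a refinement. -/
def EB (h : HT) (u : h.H 0 (absP S4)) (n : ℕ) (P : Type) [AddCommGroup P] : Prop :=
  ∀ (S : Stage h u) (A : Cx), A.S ⊆ S.K.S → ∀ y : Coch n P, IsCocyc A y →
    ∃ (S' : Stage h u) (r : Refine S' S) (y' : Coch n P), IsCocyc S'.K y' ∧
      ∀ v : Fin n → ℕ, adm (r.pull A) v → y' v = y (r.φ ∘ v)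

/-- `RK_{n-1}(P)`: relative `n`-cocycles (on `n+1`-tuples) become relative coboundaries. -/
def RK (h : HT) (u : h.H 0 (absP S4)) (n : ℕ) (P : Type) [AddCommGroup P] : Prop :=
  ∀ (S : Stage h u) (X B : Cx), X.S ⊆ S.K.S → B.S ⊆ X.S → ∀ z : Coch (n + 1) P, IsCocyc X z →
    (∀ v : Fin (n + 1) → ℕ, adm B v → z v = 0) →
    ∃ (S' : Stage h u) (r : Refine S' S) (w : Coch n P),
      (∀ v : Fin n → ℕ, adm (r.pull B) v → w v = 0) ∧
      ∀ v : Fin (n + 1) → ℕ, adm (r.pull X) v → dd w v = z (r.φ ∘ v)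

end Pool.QB
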