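import Pool.Agent.MP_c51823_gt.QB.HT

/-!
# [QB] Complexes: definitions
-/

set_option autoImplicit false
open Topology

namespace Pool.QB

/-! ## Complexes -/

/-- Finite simplicial complex with vertices in `ℕ`. -/
@[ext] structure Cx where
  S : Finset (Finset ℕ)
  ne : ∀ s ∈ S, s.Nonempty
  down : ∀ s ∈ S, ∀ t ⊆ s, t.Nonempty → t ∈ S

/-- The closed simplex spanned by `s`, in barycentric coordinates. -/
def simp (s : Finset ℕ) : Set (ℕ → ℝ) :=
  {x | (∀ i, 0 ≤ x i) ∧ (∀ i, i ∉ s → x i = 0) ∧ ∑ i ∈ s, x i = 1}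

/-- The geometric realization of `K`, a subset of `ℕ → ℝ`. -/
def Cx.real (K : Cx) : Set (ℕ → ℝ) := {x | ∃ s ∈ K.S, x ∈ simp s}

open Classical in
/-- The support of `x` as a finset (junk `∅` if infinite). -/
noncomputable def fsupp (x : ℕ → ℝ) : Finset ℕ :=
  if h : (Function.support x).Finite then h.toFinset else ∅

/-- `t`-skeleton. -/
def Cx.skel (K : Cx) (t : ℕ) : Cx where
  S := K.S.filter fun s => s.card ≤ t + 1
  ne s hs := K.ne s (Finset.mem_filter.1 hs).1
  down s hs r hr hn := Finset.mem_filter.2 ⟨K.down s (Finset.mem_filter.1 hs).1 r hr hn,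
    (Finset.card_le_card hr).trans (Finset.mem_filter.1 hs).2⟩

/-- The full simplex on `s` as a complex (all nonempty subsets). -/
def Cx.full (s : Finset ℕ) : Cx where
  S := s.powerset.filter fun r => r.Nonempty
  ne r hr := (Finset.mem_filter.1 hr).2
  down r hr q hq hn := Finset.mem_filter.2 ⟨Finset.mem_powerset.2
    (hq.trans (Finset.mem_powerset.1 (Finset.mem_filter.1 hr).1)), hn⟩

/-- The boundary of the simplex `s`. -/
def Cx.bd (s : Finset ℕ) : Cx where
  S := s.powerset.filter fun r => r.Nonempty ∧ r ≠ s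
  ne r hr := (Finset.mem_filter.1 hr).2.1
  down r hr q hq hn := by
    obtain ⟨h1, h2, h3⟩ := Finset.mem_filter.1 hr
    refine Finset.mem_filter.2 ⟨Finset.mem_powerset.2 (hq.trans (Finset.mem_powerset.1 h1)), hn, ?_⟩
    rintro rfl
    exact h3 (Finset.Subset.antisymm (Finset.mem_powerset.1 h1) hq)

end Pool.QB
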