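import Pool.Agent.MP_c51823_gt.QB.E1a

/-!
# [QB-E1b] Continuity of roots. The map `[0,1] × (CP 1)^b → [0,1] × CP b` (product of linear forms) is a
continuous closed surjection (fundamental theorem of algebra), the composite is
`(t, l_i) ↦ ∑ Fbar(t, l_i)`, `Fbar(t, line (A X - B)) = F(t, B/A)` and `0` if `A = 0`, continuous on `[0,1] × CP 1`.
-/

set_option autoImplicit false
open Topology

namespace Pool.QB

namespace E1b_aux

open Polynomial

theorem norm_sum {p : Polynomial ℂ} (hd : p.natDegree ≤ 1) :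
    ∑ k ∈ p.support, ‖p.coeff k‖ ^ 2 = ‖p.coeff 0‖ ^ 2 + ‖p.coeff 1‖ ^ 2 := by
  have h : ∑ k ∈ p.support, ‖p.coeff k‖ ^ 2 = ∑ k ∈ Finset.range 2, ‖p.coeff k‖ ^ 2 := by
    apply Finset.sum_subset
    · intro k hk
      rw [Finset.mem_range]
      have := le_natDegree_of_mem_supp k hk
      omega
    · intro k _ hk
      rw [notMem_support_iff] at hk
      rw [hk]; simp
  rw [h, Finset.sum_range_succ, Finset.sum_range_one]

/-- structure of the points of `CP 1` -/
theorem cp1 (e : CP 1) : ∃ c0 c1 : ℂ, 0 < ‖c0‖ ^ 2 + ‖c1‖ ^ 2 ∧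
    e.1 1 1 = ((‖c1‖ ^ 2 / (‖c0‖ ^ 2 + ‖c1‖ ^ 2) : ℝ) : ℂ) ∧
    (c1 ≠ 0 → e.1 0 1 / e.1 1 1 = c0 / c1) ∧
    (c1 = 0 → rts e.1 = 0) ∧ (c1 ≠ 0 → rts e.1 = {-(c0 / c1)}) := by
  obtain ⟨e, p, hp, hd, rfl⟩ := e
  have hS := norm_sum hd
  have hpos : 0 < ‖p.coeff 0‖ ^ 2 + ‖p.coeff 1‖ ^ 2 := by
    rcases eq_or_ne (p.coeff 1) 0 with h1 | h1
    · have h0 : p.coeff 0 ≠ 0 := by
        intro h0
        apply hp
        rw [eq_X_add_C_of_natDegree_le_one hd, h0, h1]
        simp
      have := norm_pos_iff.2 h0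
      positivity
    · have := norm_pos_iff.2 h1
      positivity
  refine ⟨p.coeff 0, p.coeff 1, hpos, ?_, ?_, ?_, ?_⟩
  · show line p 1 1 = _
    unfold line
    rw [hS, Complex.mul_conj, Complex.normSq_eq_norm_sq]
    push_cast
    ring
  · intro h1
    show line p 0 1 / line p 1 1 = _
    unfold line
    rw [hS]
    have hS0 : (((‖p.coeff 0‖ ^ 2 + ‖p.coeff 1‖ ^ 2 : ℝ) : ℂ)) ≠ 0 := by
      exact_mod_cast hpos.ne'
    have hc : (starRingEnd ℂ) (p.coeff 1) ≠ 0 := by
      rwa [ne_eq, map_eq_zero]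
    field_simp
  · intro h1
    show rts (line p) = 0
    rw [rts_line hp, eq_X_add_C_of_natDegree_le_one hd, h1]
    simp
  · intro h1
    show rts (line p) = _
    rw [rts_line hp]
    conv_lhs => rw [eq_X_add_C_of_natDegree_le_one hd]
    rw [roots_C_mul_X_add_C _ h1]
    congr 1
    field_simp

/-- the function on `[0,1] × CP 1` -/
theorem continuous_one (F : FFn) :
    Continuous fun p : Set.Icc (0 : ℝ) 1 × CP 1 =>
      ((rts p.2.1).map fun z => F.F ((p.1 : ℝ), z)).sum := by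
  have key : ∀ p : Set.Icc (0 : ℝ) 1 × CP 1, p.2.1 1 1 ≠ 0 →
      ((rts p.2.1).map fun z => F.F ((p.1 : ℝ), z)).sum =
        F.F ((p.1 : ℝ), -(p.2.1 0 1 / p.2.1 1 1)) := by
    intro p hp
    obtain ⟨c0, c1, hpos, h11, hq, -, hr⟩ := cp1 p.2
    have h1 : c1 ≠ 0 := by
      intro h1
      apply hp
      rw [h11, h1]; simp
    rw [hr h1, hq h1]
    simp
  have hc11 : Continuous fun p : Set.Icc (0 : ℝ) 1 × CP 1 => p.2.1 1 1 :=
    (continuous_apply 1).comp ((continuous_apply 1).comp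
      (continuous_subtype_val.comp continuous_snd))
  have hc01 : Continuous fun p : Set.Icc (0 : ℝ) 1 × CP 1 => p.2.1 0 1 :=
    (continuous_apply 1).comp ((continuous_apply 0).comp
      (continuous_subtype_val.comp continuous_snd))
  rw [continuous_iff_continuousAt]
  intro p0
  by_cases h0 : p0.2.1 1 1 = 0
  · -- at infinity
    have hval : ((rts p0.2.1).map fun z => F.F ((p0.1 : ℝ), z)).sum = 0 := by
      obtain ⟨c0, c1, hpos, h11, -, hr, -⟩ := cp1 p0.2
      have h1 : c1 = 0 := by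
        rw [h0] at h11
        have h2 : ‖c1‖ ^ 2 / (‖c0‖ ^ 2 + ‖c1‖ ^ 2) = 0 := by exact_mod_cast h11.symm
        rw [div_eq_zero_iff] at h2
        rcases h2 with h2 | h2
        · rw [← norm_eq_zero]
          exact pow_eq_zero_iff (two_ne_zero) |>.1 h2
        · exact absurd h2 hpos.ne'
      rw [hr h1]; simp
    rw [ContinuousAt, hval, Metric.tendsto_nhds]
    intro ε hε
    obtain ⟨R, hR⟩ := F.dec ε hε
    have hδ : (0 : ℝ) < 1 / (R ^ 2 + 1) := by positivity
    have hev : ∀ᶠ p : Set.Icc (0 : ℝ) 1 × CP 1 in 𝓝 p0, ‖p.2.1 1 1‖ < 1 / (R ^ 2 + 1) := by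
      have : ContinuousAt (fun p : Set.Icc (0 : ℝ) 1 × CP 1 => ‖p.2.1 1 1‖) p0 :=
        hc11.norm.continuousAt
      apply this.eventually_lt_const
      show ‖p0.2.1 1 1‖ < 1 / (R ^ 2 + 1)
      rw [h0, norm_zero]
      exact hδ
    filter_upwards [hev] with p hp
    rw [Real.dist_eq, sub_zero]
    obtain ⟨c0, c1, hpos, h11, hq, hr0, hr1⟩ := cp1 p.2
    by_cases h1 : c1 = 0
    · rw [hr0 h1]; simpa using hε
    · rw [hr1 h1]
      rw [Multiset.map_singleton, Multiset.sum_singleton]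
      apply hR _ p.1.2
      have hc1 : 0 < ‖c1‖ := norm_pos_iff.2 h1
      rw [h11, Complex.norm_real, Real.norm_of_nonneg (by positivity), div_lt_div_iff₀ hpos
        (by positivity)] at hp
      have h3 : (R * ‖c1‖) ^ 2 < ‖c0‖ ^ 2 := by nlinarith
      have h4 : R * ‖c1‖ < ‖c0‖ := lt_of_pow_lt_pow_left₀ 2 (norm_nonneg _) h3
      rw [norm_neg, norm_div, lt_div_iff₀ hc1]
      exact h4
  · -- finite points
    have hev : ∀ᶠ p : Set.Icc (0 : ℝ) 1 × CP 1 in 𝓝 p0, p.2.1 1 1 ≠ 0 :=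
      hc11.continuousAt.eventually_ne h0
    have hcont : ContinuousAt (fun p : Set.Icc (0 : ℝ) 1 × CP 1 =>
        F.F ((p.1 : ℝ), -(p.2.1 0 1 / p.2.1 1 1))) p0 := by
      apply F.F.continuous.continuousAt.comp
      apply ContinuousAt.prodMk
      · exact (continuous_subtype_val.comp continuous_fst).continuousAt
      · exact (hc01.continuousAt.div hc11.continuousAt h0).neg
    refine hcont.congr ?_
    filter_upwards [hev] with p hp
    exact (key p hp).symm

theorem rts_mu {a b : ℕ} (e : CP a) (e' : CP b) :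
    rts (mu a b (e, e')).1 = rts e.1 + rts e'.1 := by
  obtain ⟨e, p, hp, hpd, rfl⟩ := e
  obtain ⟨e', q, hq, hqd, rfl⟩ := e'
  have h := mu_line p q hp hq hpd hqd
  have h2 : rts (mu a b (⟨line p, line_mem hp hpd⟩, ⟨line q, line_mem hq hqd⟩)).1 =
      rts (line p) + rts (line q) := by
    rw [h, rts_line (mul_ne_zero hp hq), rts_line hp, rts_line hq,
      roots_mul (mul_ne_zero hp hq)]
  exact h2

theorem mu_surj (b : ℕ) : Function.Surjective (mu b 1) := by
  rintro ⟨e, p, hp, hd, rfl⟩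
  by_cases h : p.natDegree ≤ b
  · refine ⟨(⟨line p, line_mem hp h⟩, ⟨line 1, line_mem one_ne_zero (by simp)⟩), ?_⟩
    apply Subtype.ext
    rw [mu_line p 1 hp one_ne_zero h (by simp), mul_one]
  · have hdeg : p.degree ≠ 0 := by
      intro h0
      have := natDegree_eq_of_degree_eq_some (n := 0) (by simpa using h0)
      omega
    obtain ⟨z, hz⟩ := IsAlgClosed.exists_root p hdeg
    obtain ⟨q, hq⟩ := dvd_iff_isRoot.2 hz
    have hq0 : q ≠ 0 := by
      rintro rfl
      apply hp
      rw [hq, mul_zero]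
    have hx : (X - C z : Polynomial ℂ) ≠ 0 := X_sub_C_ne_zero z
    have hqd : q.natDegree ≤ b := by
      have h1 := natDegree_mul hx hq0
      rw [← hq, natDegree_X_sub_C] at h1
      omega
    refine ⟨(⟨line q, line_mem hq0 hqd⟩, ⟨line (X - C z), line_mem hx (natDegree_X_sub_C z).le⟩), ?_⟩
    apply Subtype.ext
    rw [mu_line q (X - C z) hq0 hx hqd (natDegree_X_sub_C z).le]
    show line (q * (X - C z)) = line p
    rw [hq, mul_comm]

end E1b_aux

open E1b_aux in
/-- [QB-E1e] Continuity of roots, tested on functions. (Compose with the closed surjection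
`[0,1] × (CP^1)^b → [0,1] × CP^b`.) -/
theorem continuous_rts_sum (b : ℕ) (F : FFn) :
    Continuous fun p : Set.Icc (0 : ℝ) 1 × CP b =>
      ((rts p.2.1).map fun z => F.F ((p.1 : ℝ), z)).sum := by
  induction b with
  | zero =>
    have : (fun p : Set.Icc (0 : ℝ) 1 × CP 0 =>
        ((rts p.2.1).map fun z => F.F ((p.1 : ℝ), z)).sum) = fun _ => 0 := by
      funext p
      have h := card_rts p.2
      rw [Nat.le_zero, Multiset.card_eq_zero] at h
      rw [h]; simp
    rw [this]
    exact continuous_const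
  | succ b ih =>
    let q : Set.Icc (0 : ℝ) 1 × (CP b × CP 1) → Set.Icc (0 : ℝ) 1 × CP (b + 1) :=
      Prod.map id (mu b 1)
    have hqc : Continuous q := continuous_id.prodMap (mu b 1).continuous
    have hqs : Function.Surjective q := Function.surjective_id.prodMap (mu_surj b)
    have hq : IsQuotientMap q := hqc.isClosedMap.isQuotientMap hqc hqs
    rw [hq.continuous_iff]
    have hE : ((fun p : Set.Icc (0 : ℝ) 1 × CP (b + 1) =>
        ((rts p.2.1).map fun z => F.F ((p.1 : ℝ), z)).sum) ∘ q) =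
        fun p => ((rts p.2.1.1).map fun z => F.F ((p.1 : ℝ), z)).sum +
          ((rts p.2.2.1).map fun z => F.F ((p.1 : ℝ), z)).sum := by
      funext p
      show ((rts (mu b 1 p.2).1).map fun z => F.F ((p.1 : ℝ), z)).sum = _
      rw [show p.2 = (p.2.1, p.2.2) from rfl, rts_mu, Multiset.map_add, Multiset.sum_add]
    rw [hE]
    apply Continuous.add
    · exact ih.comp (continuous_fst.prodMk (continuous_fst.comp continuous_snd))
    · exact (continuous_one F).comp (continuous_fst.prodMk (continuous_snd.comp continuous_snd))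

end Pool.QB
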