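import Pool.Agent.MP_c51823_gt.QB.E1b

/-!
# [QB-E2a]
-/

set_option autoImplicit false
open Topology

namespace Pool.QB

namespace E2a_aux

theorem cum_mem {k : ℕ} (x : Dl k) (i : ℕ) : cum x i ∈ Set.Icc (0 : ℝ) 1 := by
  unfold cum
  constructor
  · apply Finset.sum_nonneg
    intro l _
    split_ifs
    · exact x.2.1 l
    · exact le_rfl
  · rw [← x.2.2]
    apply Finset.sum_le_sum
    intro l _
    split_ifs
    · exact le_rfl
    · exact x.2.1 l

theorem continuous_cum (k i : ℕ) : Continuous fun x : Dl k => cum x i := by
  unfold cum
  apply continuous_finsetSum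
  intro l _
  split_ifs
  · exact (continuous_apply l).comp continuous_subtype_val
  · exact continuous_const

end E2a_aux

open E2a_aux in
/-- [QB-E2a] -/
theorem continuous_chi (k b : ℕ) :
    Continuous fun p : Dl k × (Fin k → CP b) => chi p.1 p.2 := by
  unfold chi
  apply Continuous.prodMk
  · apply continuous_pi
    intro h
    apply Continuous.finset_sup'_apply
    intro i _
    exact h.continuous.comp ((continuous_cum k i).comp continuous_fst)
  · apply continuous_pi
    intro F
    apply continuous_finsetSum
    intro j _
    have h1 : Continuous fun p : Dl k × (Fin k → CP b) =>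
        ((⟨cum p.1 (j + 1), cum_mem p.1 (j + 1)⟩ : Set.Icc (0 : ℝ) 1), p.2 j) := by
      apply Continuous.prodMk
      · exact ((continuous_cum k (j + 1)).comp continuous_fst).subtype_mk _
      · exact (continuous_apply j).comp continuous_snd
    exact (continuous_rts_sum b F).comp h1

/-- [QB-E2b] -/
theorem chi_incl {k b b' : ℕ} (hb : b' ≤ b) (x : Dl k) (f : Fin k → CP b') :
    chi x (inclW hb f) = chi x f := rfl

end Pool.QB
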