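import Pool.Agent.MP_c51823_gt.QB.E2a

/-!
# [QB-E2c]
-/

set_option autoImplicit false
open Topology

namespace Pool.QB

/-- [QB-E2c] -/
theorem isCompact_Es (N m : ℕ) : IsCompact (Es N m) := by
  have h : Es N m = ⋃ k ∈ Finset.range m,
      Set.range fun p : Dl k × (Fin k → CP (2 ^ (N - k) - 1)) => chi p.1 p.2 := by
    ext e
    simp only [Es, Set.mem_ofPred_eq, Set.mem_iUnion, Finset.mem_range, Set.mem_range, Prod.exists,
      exists_prop]
    constructor
    · rintro ⟨k, hk, x, f, rfl⟩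
      exact ⟨k, hk, x, f, rfl⟩
    · rintro ⟨k, hk, x, f, rfl⟩
      exact ⟨k, hk, x, f, rfl⟩
  rw [h]
  apply Finset.isCompact_biUnion
  intro k _
  exact isCompact_range (continuous_chi k _)

/-- [QB-E2d] -/
theorem Es_mono {N N' m m' : ℕ} (hN : N ≤ N') (hm : m ≤ m') : Es N m ⊆ Es N' m' := by
  rintro e ⟨k, hk, x, f, rfl⟩
  have hb : 2 ^ (N - k) - 1 ≤ 2 ^ (N' - k) - 1 :=
    Nat.sub_le_sub_right (Nat.pow_le_pow_right (by norm_num) (by omega)) 1
  exact ⟨k, by omega, x, inclW hb f, (chi_incl hb x f).symm⟩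

end Pool.QB
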