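import Pool.Agent.MP_c51823_gt.QB.PDef

/-!
# [QB-P2] Normalisation. Explicit formula in QB_PROOF.md 5.1.
-/

set_option autoImplicit false
open Topology

namespace Pool.QB

namespace P2_aux

variable {P : Type} [AddCommGroup P]

lemma dd3 (w : Coch 3 P) (v : Fin 4 → ℕ) :
    dd w v = w ![v 1, v 2, v 3] - w ![v 0, v 2, v 3] + w ![v 0, v 1, v 3]
      - w ![v 0, v 1, v 2] := by
  have h0 : (fun j : Fin 3 => v ((0 : Fin 4).succAbove j)) = ![v 1, v 2, v 3] := by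
    funext j; fin_cases j <;> rfl
  have h1 : (fun j : Fin 3 => v ((1 : Fin 4).succAbove j)) = ![v 0, v 2, v 3] := by
    funext j; fin_cases j <;> rfl
  have h2 : (fun j : Fin 3 => v ((2 : Fin 4).succAbove j)) = ![v 0, v 1, v 3] := by
    funext j; fin_cases j <;> rfl
  have h3 : (fun j : Fin 3 => v ((3 : Fin 4).succAbove j)) = ![v 0, v 1, v 2] := by
    funext j; fin_cases j <;> rfl
  unfold dd
  rw [Fin.sum_univ_four, h0, h1, h2, h3]
  have e0 : (-1 : ℤ) ^ ((0 : Fin 4) : ℕ) = 1 := by decide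
  have e1 : (-1 : ℤ) ^ ((1 : Fin 4) : ℕ) = -1 := by decide
  have e2 : (-1 : ℤ) ^ ((2 : Fin 4) : ℕ) = 1 := by decide
  have e3 : (-1 : ℤ) ^ ((3 : Fin 4) : ℕ) = -1 := by decide
  rw [e0, e1, e2, e3]
  simp only [one_smul, neg_smul]
  abel

lemma dd4 (c : Coch 4 P) (v : Fin 5 → ℕ) :
    dd c v = c ![v 1, v 2, v 3, v 4] - c ![v 0, v 2, v 3, v 4] + c ![v 0, v 1, v 3, v 4]
      - c ![v 0, v 1, v 2, v 4] + c ![v 0, v 1, v 2, v 3] := by
  have h0 : (fun j : Fin 4 => v ((0 : Fin 5).succAbove j)) = ![v 1, v 2, v 3, v 4] := by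
    funext j; fin_cases j <;> rfl
  have h1 : (fun j : Fin 4 => v ((1 : Fin 5).succAbove j)) = ![v 0, v 2, v 3, v 4] := by
    funext j; fin_cases j <;> rfl
  have h2 : (fun j : Fin 4 => v ((2 : Fin 5).succAbove j)) = ![v 0, v 1, v 3, v 4] := by
    funext j; fin_cases j <;> rfl
  have h3 : (fun j : Fin 4 => v ((3 : Fin 5).succAbove j)) = ![v 0, v 1, v 2, v 4] := by
    funext j; fin_cases j <;> rfl
  have h4 : (fun j : Fin 4 => v ((4 : Fin 5).succAbove j)) = ![v 0, v 1, v 2, v 3] := by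
    funext j; fin_cases j <;> rfl
  unfold dd
  rw [Fin.sum_univ_five, h0, h1, h2, h3, h4]
  have e0 : (-1 : ℤ) ^ ((0 : Fin 5) : ℕ) = 1 := by decide
  have e1 : (-1 : ℤ) ^ ((1 : Fin 5) : ℕ) = -1 := by decide
  have e2 : (-1 : ℤ) ^ ((2 : Fin 5) : ℕ) = 1 := by decide
  have e3 : (-1 : ℤ) ^ ((3 : Fin 5) : ℕ) = -1 := by decide
  have e4 : (-1 : ℤ) ^ ((4 : Fin 5) : ℕ) = 1 := by decide
  rw [e0, e1, e2, e3, e4]
  simp only [one_smul, neg_smul]
  abel

lemma dd4' (c : Coch 4 P) (a b d e f : ℕ) :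
    dd c ![a, b, d, e, f] = c ![b, d, e, f] - c ![a, d, e, f] + c ![a, b, e, f]
      - c ![a, b, d, f] + c ![a, b, d, e] := dd4 c _

lemma dd_dd (w : Coch 3 P) (v : Fin 5 → ℕ) : dd (dd w) v = 0 := by
  rw [dd4]
  simp only [dd3]
  have e : ∀ a b d e : ℕ, (![a, b, d, e] : Fin 4 → ℕ) 0 = a ∧
      (![a, b, d, e] : Fin 4 → ℕ) 1 = b ∧ (![a, b, d, e] : Fin 4 → ℕ) 2 = d ∧
      (![a, b, d, e] : Fin 4 → ℕ) 3 = e := fun a b d e => ⟨rfl, rfl, rfl, rfl⟩
  simp only [(e _ _ _ _).1, (e _ _ _ _).2.1, (e _ _ _ _).2.2.1, (e _ _ _ _).2.2.2]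
  abel

lemma dd_add {n : ℕ} (c e : Coch n P) (v : Fin (n + 1) → ℕ) :
    dd (fun v => c v + e v) v = dd c v + dd e v := by
  unfold dd
  rw [← Finset.sum_add_distrib]
  exact Finset.sum_congr rfl fun i _ => smul_add _ _ _

lemma adm5 (A : Cx) (v : Fin 4 → ℕ) (h : adm A v) (i : Fin 5 → Fin 4) (hi : Monotone i) :
    adm A (v ∘ i) := by
  refine ⟨h.1.comp hi, A.down _ h.2 _ ?_ ?_⟩
  · intro x hx
    obtain ⟨j, _, rfl⟩ := Finset.mem_image.1 hx
    exact Finset.mem_image.2 ⟨i j, Finset.mem_univ _, rfl⟩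
  · exact ⟨(v ∘ i) 0, Finset.mem_image.2 ⟨0, Finset.mem_univ _, rfl⟩⟩

/-- the cocycle identity at the tuple `(v i₀, …, v i₄)` -/
lemma coc (A : Cx) (c : Coch 4 P) (hc : IsCocyc A c) (v : Fin 4 → ℕ) (h : adm A v)
    (i₀ i₁ i₂ i₃ i₄ : Fin 4) (h01 : i₀ ≤ i₁) (h12 : i₁ ≤ i₂) (h23 : i₂ ≤ i₃) (h34 : i₃ ≤ i₄) :
    c ![v i₁, v i₂, v i₃, v i₄] - c ![v i₀, v i₂, v i₃, v i₄] + c ![v i₀, v i₁, v i₃, v i₄]
      - c ![v i₀, v i₁, v i₂, v i₄] + c ![v i₀, v i₁, v i₂, v i₃] = 0 := by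
  have hm : Monotone (![i₀, i₁, i₂, i₃, i₄] : Fin 5 → Fin 4) := by
    rw [Fin.monotone_iff_le_succ]
    intro j
    fin_cases j
    · exact h01
    · exact h12
    · exact h23
    · exact h34
  have h1 := hc _ (adm5 A v h _ hm)
  rw [dd4] at h1
  exact h1

end P2_aux

open P2_aux

/-- [QB-P2] Normalisation (5.1). -/
theorem normalise {P : Type} [AddCommGroup P] (A : Cx) (c : Coch 4 P) (hc : IsCocyc A c) :
    ∃ w : Coch 3 P, IsCocyc A (fun v => c v + dd w v) ∧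
      ∀ v : Fin 4 → ℕ, adm A v → ¬ StrictMono v → c v + dd w v = 0 := by
  refine ⟨fun t => - c ![t 0, t 0, t 1, t 2] + c ![t 0, t 1, t 1, t 2] - c ![t 1, t 1, t 1, t 2],
    ?_, ?_⟩
  · intro v hv
    rw [dd_add, hc v hv, dd_dd, add_zero]
  · intro v hv hs
    have hvv : c v = c ![v 0, v 1, v 2, v 3] := by
      congr 1
      funext j; fin_cases j <;> rfl
    rw [dd3, hvv]
    have ht : ∀ a b d : ℕ, (![a, b, d] : Fin 3 → ℕ) 0 = a ∧
      (![a, b, d] : Fin 3 → ℕ) 1 = b ∧ (![a, b, d] : Fin 3 → ℕ) 2 = d :=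
      fun a b d => ⟨rfl, rfl, rfl⟩
    simp only [(ht _ _ _).1, (ht _ _ _).2.1, (ht _ _ _).2.2]
    have hcase : v 0 = v 1 ∨ v 1 = v 2 ∨ v 2 = v 3 := by
      by_contra hcon
      push Not at hcon
      apply hs
      rw [Fin.strictMono_iff_lt_succ]
      intro j
      have hm := hv.1
      fin_cases j
      · exact lt_of_le_of_ne (hm (by decide)) hcon.1
      · exact lt_of_le_of_ne (hm (by decide)) hcon.2.1
      · exact lt_of_le_of_ne (hm (by decide)) hcon.2.2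
    rcases hcase with h | h | h
    · -- v 0 = v 1
      have i1 := coc A c hc v hv 0 0 0 2 3 (by decide) (by decide) (by decide) (by decide)
      rw [← h]
      have : c ![v 0, v 0, v 2, v 3] - c ![v 0, v 0, v 0, v 3] + c ![v 0, v 0, v 0, v 2] = 0 := by
        rw [← i1]; abel
      rw [← this]; abel
    · -- v 1 = v 2
      have i1 := coc A c hc v hv 1 1 1 1 3 (by decide) (by decide) (by decide) (by decide)
      have i2 := coc A c hc v hv 0 1 1 1 3 (by decide) (by decide) (by decide) (by decide)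
      have i3 := coc A c hc v hv 0 0 1 1 1 (by decide) (by decide) (by decide) (by decide)
      have j1 : c ![v 1, v 1, v 1, v 1] = 0 := by rw [← i1]; abel
      have j2 : c ![v 1, v 1, v 1, v 3] - c ![v 0, v 1, v 1, v 3] + c ![v 0, v 1, v 1, v 1] = 0 := by
        rw [← i2]; abel
      have j3 : c ![v 0, v 0, v 1, v 1] = 0 := by rw [← i3]; abel
      rw [← h, j1, j3]
      have e : ∀ x : P, x = -(c ![v 1, v 1, v 1, v 3] - c ![v 0, v 1, v 1, v 3] +
          c ![v 0, v 1, v 1, v 1]) → x = 0 := by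
        intro x hx; rw [hx, j2, neg_zero]
      apply e
      abel
    · -- v 2 = v 3
      have i1 := coc A c hc v hv 0 1 2 2 2 (by decide) (by decide) (by decide) (by decide)
      have i2 := coc A c hc v hv 0 0 2 2 2 (by decide) (by decide) (by decide) (by decide)
      have i3 := coc A c hc v hv 1 1 2 2 2 (by decide) (by decide) (by decide) (by decide)
      have j1 : c ![v 1, v 2, v 2, v 2] - c ![v 0, v 2, v 2, v 2] + c ![v 0, v 1, v 2, v 2] = 0 := by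
        rw [← i1]; abel
      have j2 : c ![v 0, v 0, v 2, v 2] = 0 := by rw [← i2]; abel
      have j3 : c ![v 1, v 1, v 2, v 2] = 0 := by rw [← i3]; abel
      rw [← h, j2, j3, ← j1]
      abel

end Pool.QB
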