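import Pool.Agent.MP_c51823_gt.QB.PDef
import Pool.Agent.MP_c51823_gt.QB.P2

/-!
# [QB-P3] Positivity. QB_PROOF.md 5.3: `N_z = (a₂-a₁)(b₂-b₁)(c₂-c₁) ≥ 1`; `M` = a bound for the finitely many `-ξ`.
-/

set_option autoImplicit false
open Topology

namespace Pool.QB

/-- [QB-P3a] -/
theorem zz_eq (v : Fin 4 → ℕ) : zz v = dd ww v := by
  rw [P2_aux.dd3]
  unfold zz ww
  have ht : ∀ a b d : ℕ, (![a, b, d] : Fin 3 → ℕ) 0 = a ∧
      (![a, b, d] : Fin 3 → ℕ) 1 = b ∧ (![a, b, d] : Fin 3 → ℕ) 2 = d :=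
    fun a b d => ⟨rfl, rfl, rfl⟩
  simp only [(ht _ _ _).1, (ht _ _ _).2.1, (ht _ _ _).2.2]
  ring

namespace P3_aux

lemma NN_add (y : Coch 4 ℤ) (M : ℤ) (a₁ a₂ b₁ b₂ c₁ c₂ : ℕ) :
    NN (fun v => y v + M * zz v) a₁ a₂ b₁ b₂ c₁ c₂ =
      NN y a₁ a₂ b₁ b₂ c₁ c₂ + M * (((a₂ : ℤ) - a₁) * ((b₂ : ℤ) - b₁) * ((c₂ : ℤ) - c₁)) := by
  unfold NN zz
  have ht : ∀ a b d e : ℕ, (![a, b, d, e] : Fin 4 → ℕ) 0 = a ∧
      (![a, b, d, e] : Fin 4 → ℕ) 1 = b ∧ (![a, b, d, e] : Fin 4 → ℕ) 2 = d ∧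
      (![a, b, d, e] : Fin 4 → ℕ) 3 = e := fun a b d e => ⟨rfl, rfl, rfl, rfl⟩
  simp only [(ht _ _ _ _).1, (ht _ _ _ _).2.1, (ht _ _ _ _).2.2.1, (ht _ _ _ _).2.2.2]
  ring

lemma prd_lt (τ : Finset ℕ) (a : ℕ) (h : a ∈ cuts τ) : prd τ a < a := by
  obtain ⟨_, b, hb, hba⟩ := Finset.mem_filter.1 h
  unfold prd
  rw [Finset.sup_lt_iff (show (⊥ : ℕ) < a by exact lt_of_le_of_lt bot_le hba)]
  intro x hx
  exact (Finset.mem_filter.1 hx).2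

end P3_aux

open P3_aux

/-- [QB-P3b] Positivity (5.3). -/
theorem exists_pos (A : Cx) (y : Coch 4 ℤ) (hy : NCoc A y) :
    ∃ M : ℤ, NCoc A (fun v => y v + M * zz v) ∧
      ∀ τ ∈ A.S, ∀ p ∈ ctri τ, 0 ≤ xi (fun v => y v + M * zz v) τ p := by
  refine ⟨∑ τ ∈ A.S, ∑ p ∈ ctri τ, |xi y τ p|, ⟨?_, ?_⟩, ?_⟩
  · intro v hv
    generalize (∑ τ ∈ A.S, ∑ p ∈ ctri τ, |xi y τ p|) = M
    have e : (fun v : Fin 4 → ℕ => y v + M * zz v) = fun v => y v + dd (fun t => M * ww t) v := by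
      funext v
      rw [zz_eq, P2_aux.dd3, P2_aux.dd3]
      ring
    rw [e, P2_aux.dd_add, hy.coc v hv, P2_aux.dd_dd, add_zero]
  · intro v hv hs
    have hz : zz v = 0 := by
      have hcase : v 0 = v 1 ∨ v 1 = v 2 ∨ v 2 = v 3 := by
        by_contra hcon
        push Not at hcon
        apply hs
        rw [Fin.strictMono_iff_lt_succ]
        intro j
        have hm := hv.1
        fin_cases j
        · exact lt_of_le_of_ne (hm (by decide)) hcon.1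
        · exact lt_of_le_of_ne (hm (by decide)) hcon.2.1
        · exact lt_of_le_of_ne (hm (by decide)) hcon.2.2
      unfold zz
      rcases hcase with h | h | h <;> rw [h] <;> ring
    rw [hy.nor v hv hs, hz, mul_zero, add_zero]
  · intro τ hτ p hp
    obtain ⟨h1, _⟩ := Finset.mem_filter.1 hp
    obtain ⟨ha, h2⟩ := Finset.mem_product.1 h1
    obtain ⟨hb, hc⟩ := Finset.mem_product.1 h2
    have ka := prd_lt τ _ ha
    have kb := prd_lt τ _ hb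
    have kc := prd_lt τ _ hc
    have hM : |xi y τ p| ≤ ∑ τ ∈ A.S, ∑ p ∈ ctri τ, |xi y τ p| := by
      refine le_trans ?_ (Finset.single_le_sum (f := fun τ => ∑ p ∈ ctri τ, |xi y τ p|)
        (fun t _ => Finset.sum_nonneg fun q _ => abs_nonneg _) hτ)
      exact Finset.single_le_sum (f := fun p => |xi y τ p|) (fun q _ => abs_nonneg _) hp
    generalize (∑ τ ∈ A.S, ∑ p ∈ ctri τ, |xi y τ p|) = M at hM ⊢
    have hM0 : 0 ≤ M := le_trans (abs_nonneg _) hM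
    have hxi : xi (fun v => y v + M * zz v) τ p = xi y τ p +
        M * (((p.1 : ℤ) - prd τ p.1) * ((p.2.1 : ℤ) - prd τ p.2.1) *
          ((p.2.2 : ℤ) - prd τ p.2.2)) := by
      unfold xi
      exact NN_add y M _ _ _ _ _ _
    rw [hxi]
    have g1 : (1 : ℤ) ≤ (p.1 : ℤ) - prd τ p.1 := by omega
    have g2 : (1 : ℤ) ≤ (p.2.1 : ℤ) - prd τ p.2.1 := by omega
    have g3 : (1 : ℤ) ≤ (p.2.2 : ℤ) - prd τ p.2.2 := by omega
    have g4 : (1 : ℤ) ≤ ((p.1 : ℤ) - prd τ p.1) * ((p.2.1 : ℤ) - prd τ p.2.1) :=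
      one_le_mul_of_one_le_of_one_le g1 g2
    have g5 : (1 : ℤ) ≤ ((p.1 : ℤ) - prd τ p.1) * ((p.2.1 : ℤ) - prd τ p.2.1) *
        ((p.2.2 : ℤ) - prd τ p.2.2) := one_le_mul_of_one_le_of_one_le g4 g3
    have g6 : M ≤ M * (((p.1 : ℤ) - prd τ p.1) * ((p.2.1 : ℤ) - prd τ p.2.1) *
        ((p.2.2 : ℤ) - prd τ p.2.2)) := le_mul_of_one_le_right hM0 g5
    have g7 := neg_abs_le (xi y τ p)
    linarith

end Pool.QB
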