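import Pool.Agent.MP_c51823_gt.QB.EB3a
import Pool.Agent.MP_c51823_gt.QB.P2
import Pool.Agent.MP_c51823_gt.QB.P3

/-!
# [QB-EB3] From EB3a by normalisation (P2) and positivity (P3): if `y₁′` works for `y + dd w` then
`y₁′ - dd (w ∘ φ)` works for `y` (extend `w` by `0` outside `A`).
-/

set_option autoImplicit false
open Topology

namespace Pool.QB

namespace EB3_aux

theorem dd_dd (W : Coch 3 ℤ) (v : Fin 5 → ℕ) : dd (dd W) v = 0 := by
  have key : ∀ (a : Fin 5) (b : Fin 4) (c : Fin 5) (d : Fin 4),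
      (∀ j : Fin 3, a.succAbove (b.succAbove j) = c.succAbove (d.succAbove j)) →
      W (fun j => v (a.succAbove (b.succAbove j))) = W (fun j => v (c.succAbove (d.succAbove j))) := by
    intro a b c d h
    congr 1
    funext j
    rw [h]
  have e01 := key 1 0 0 0 (by decide)
  have e02 := key 2 0 0 1 (by decide)
  have e03 := key 3 0 0 2 (by decide)
  have e04 := key 4 0 0 3 (by decide)
  have e12 := key 2 1 1 1 (by decide)
  have e13 := key 3 1 1 2 (by decide)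
  have e14 := key 4 1 1 3 (by decide)
  have e23 := key 3 2 2 2 (by decide)
  have e24 := key 4 2 2 3 (by decide)
  have e34 := key 4 3 3 3 (by decide)
  have hexp : dd (dd W) v = ∑ i : Fin 5, (-1 : ℤ) ^ (i : ℕ) • ∑ k : Fin 4, (-1 : ℤ) ^ (k : ℕ) •
      W (fun j => v (i.succAbove (k.succAbove j))) := rfl
  rw [hexp, Fin.sum_univ_five]
  simp only [Fin.sum_univ_four]
  rw [e01, e02, e03, e04, e12, e13, e14, e23, e24, e34]
  simp only [smul_eq_mul]
  have v0 : ((0 : Fin 5) : ℕ) = 0 := rfl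
  have v1 : ((1 : Fin 5) : ℕ) = 1 := rfl
  have v2 : ((2 : Fin 5) : ℕ) = 2 := rfl
  have v3 : ((3 : Fin 5) : ℕ) = 3 := rfl
  have v4 : ((4 : Fin 5) : ℕ) = 4 := rfl
  have w0 : ((0 : Fin 4) : ℕ) = 0 := rfl
  have w1 : ((1 : Fin 4) : ℕ) = 1 := rfl
  have w2 : ((2 : Fin 4) : ℕ) = 2 := rfl
  have w3 : ((3 : Fin 4) : ℕ) = 3 := rfl
  simp only [v0, v1, v2, v3, v4, w0, w1, w2, w3]
  ring

theorem dd_add {n : ℕ} (a b : Coch n ℤ) (v : Fin (n + 1) → ℕ) :
    dd (fun t => a t + b t) v = dd a v + dd b v := by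
  unfold dd
  rw [← Finset.sum_add_distrib]
  exact Finset.sum_congr rfl fun i _ => by rw [smul_add]

theorem dd_sub {n : ℕ} (a b : Coch n ℤ) (v : Fin (n + 1) → ℕ) :
    dd (fun t => a t - b t) v = dd a v - dd b v := by
  unfold dd
  rw [← Finset.sum_sub_distrib]
  exact Finset.sum_congr rfl fun i _ => by rw [smul_sub]

theorem dd_mul {n : ℕ} (M : ℤ) (a : Coch n ℤ) (v : Fin (n + 1) → ℕ) :
    dd (fun t => M * a t) v = M * dd a v := by
  unfold dd
  rw [Finset.mul_sum]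
  exact Finset.sum_congr rfl fun i _ => by simp only [smul_eq_mul]; ring

theorem dd_comp {n : ℕ} (a : Coch n ℤ) (φ : ℕ → ℕ) (v : Fin (n + 1) → ℕ) :
    dd (fun t => a (φ ∘ t)) v = dd a (φ ∘ v) := rfl

end EB3_aux

open EB3_aux

/-- [QB-EB3] -/
theorem EB_three (h : HT) (u : h.H 0 (absP S4)) : EB h u 4 ℤ := by
  intro S A hA y hy
  obtain ⟨w, hw1, hw2⟩ := normalise A y hy
  have hN : NCoc A (fun v => y v + dd w v) := ⟨hw1, hw2⟩
  obtain ⟨M, hM1, hM2⟩ := exists_pos A _ hN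
  obtain ⟨S', r, y₁, hy₁, hext⟩ := EB_three_core h u S A hA _ hM1 hM2
  refine ⟨S', r, fun v => y₁ v - dd (fun t => (fun s => w s + M * ww s) (r.φ ∘ t)) v, ?_, ?_⟩
  · intro v hv
    rw [dd_sub, hy₁ v hv, dd_dd, sub_zero]
  · intro v hv
    show y₁ v - dd (fun t => (fun s => w s + M * ww s) (r.φ ∘ t)) v = _
    have h1 : dd (fun t => (fun s => w s + M * ww s) (r.φ ∘ t)) v =
        dd (fun s => w s + M * ww s) (r.φ ∘ v) := rfl
    rw [hext v hv, h1, dd_add, dd_mul, zz_eq]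
    ring

end Pool.QB
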