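import Pool.Agent.MP_c51823_gt.QB.B1
import Pool.Agent.MP_c51823_gt.QB.B2
import Pool.Agent.MP_c51823_gt.QB.B3
import Pool.Agent.MP_c51823_gt.QB.B6
import Pool.Agent.MP_c51823_gt.QB.B7
import Pool.Agent.MP_c51823_gt.QB.B8
import Pool.Agent.MP_c51823_gt.QB.B9
import Pool.Agent.MP_c51823_gt.QB.B10
import Pool.Agent.MP_c51823_gt.QB.B11
import Pool.Agent.MP_c51823_gt.QB.C2
import Pool.Agent.MP_c51823_gt.QB.J3

/-!
# [QB-EB3a] Proof: QB_PROOF.md 6.5. B11 with `m = min(c/2,1/8)`, `c = 1/(2D²)`, `c/2` for `c`; labels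
`(r,σ) ∈ {0..10 A₀} × K`, `A₀ = n 2^N` (J3 `JJ_mem`), `W = {r free for J(ε x), k_σ(κ(π x)) > c}`; `N x S` = set of `x'` at which the
finitely many integers `I(l₀..l₃; ·)`, and `PrS(l₀,l₁,l₂; ρ(κ(π ·)))` for `σ_j ∈ A`, take the same values as at `x`; B10;
`y' v = I(v; ctr v₀) + dd Pr v`.
-/

set_option autoImplicit false
open Topology

namespace Pool.QB

namespace EB3a_aux

/-- the integer `I(r₀,…,r₃; e)` -/
noncomputable def II (m : ℝ) (A₀ : ℕ) (rr : Fin 4 → ℕ) (e : VV) : ℤ :=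
  ((JJ m e).map fun v => iota (colT A₀ rr v)).sum

theorem dd_dd_three (c : Coch 3 ℤ) (v : Fin 5 → ℕ) : dd (dd c) v = 0 := by
  have key : ∀ (i : Fin 5) (j : Fin 4),
      (fun k => v (i.succAbove (j.succAbove k))) =
        ![v (i.succAbove (j.succAbove 0)), v (i.succAbove (j.succAbove 1)),
          v (i.succAbove (j.succAbove 2))] := by
    intro i j
    funext k
    fin_cases k <;> rfl
  have e : dd (dd c) v = ∑ i : Fin 5, (-1 : ℤ) ^ (i : ℕ) • ∑ j : Fin 4, (-1 : ℤ) ^ (j : ℕ) •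
      c ![v (i.succAbove (j.succAbove 0)), v (i.succAbove (j.succAbove 1)),
          v (i.succAbove (j.succAbove 2))] := by
    unfold dd
    refine Finset.sum_congr rfl fun i _ => ?_
    congr 1
    refine Finset.sum_congr rfl fun j _ => ?_
    rw [← key i j]
  rw [e]
  simp only [Fin.sum_univ_five, Fin.sum_univ_four]
  have h0 : ∀ i : Fin 4, (0 : Fin 5).succAbove i = i.succ := by decide
  have h10 : (1 : Fin 5).succAbove 0 = 0 := by decide
  have h11 : (1 : Fin 5).succAbove 1 = 2 := by decide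
  have h12 : (1 : Fin 5).succAbove 2 = 3 := by decide
  have h13 : (1 : Fin 5).succAbove 3 = 4 := by decide
  have h20 : (2 : Fin 5).succAbove 0 = 0 := by decide
  have h21 : (2 : Fin 5).succAbove 1 = 1 := by decide
  have h22 : (2 : Fin 5).succAbove 2 = 3 := by decide
  have h23 : (2 : Fin 5).succAbove 3 = 4 := by decide
  have h30 : (3 : Fin 5).succAbove 0 = 0 := by decide
  have h31 : (3 : Fin 5).succAbove 1 = 1 := by decide
  have h32 : (3 : Fin 5).succAbove 2 = 2 := by decide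
  have h33 : (3 : Fin 5).succAbove 3 = 4 := by decide
  have h40 : (4 : Fin 5).succAbove 0 = 0 := by decide
  have h41 : (4 : Fin 5).succAbove 1 = 1 := by decide
  have h42 : (4 : Fin 5).succAbove 2 = 2 := by decide
  have h43 : (4 : Fin 5).succAbove 3 = 3 := by decide
  have h00 : (0 : Fin 5).succAbove 0 = 1 := by decide
  have h01 : (0 : Fin 5).succAbove 1 = 2 := by decide
  have h02 : (0 : Fin 5).succAbove 2 = 3 := by decide
  have h03 : (0 : Fin 5).succAbove 3 = 4 := by decide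
  have g00 : (0 : Fin 4).succAbove 0 = 1 := by decide
  have g01 : (0 : Fin 4).succAbove 1 = 2 := by decide
  have g02 : (0 : Fin 4).succAbove 2 = 3 := by decide
  have g10 : (1 : Fin 4).succAbove 0 = 0 := by decide
  have g11 : (1 : Fin 4).succAbove 1 = 2 := by decide
  have g12 : (1 : Fin 4).succAbove 2 = 3 := by decide
  have g20 : (2 : Fin 4).succAbove 0 = 0 := by decide
  have g21 : (2 : Fin 4).succAbove 1 = 1 := by decide
  have g22 : (2 : Fin 4).succAbove 2 = 3 := by decide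
  have g30 : (3 : Fin 4).succAbove 0 = 0 := by decide
  have g31 : (3 : Fin 4).succAbove 1 = 1 := by decide
  have g32 : (3 : Fin 4).succAbove 2 = 2 := by decide
  simp only [g00, g01, g02, g10, g11, g12, g20, g21, g22, g30, g31, g32,
    h00, h01, h02, h03, h10, h11, h12, h13, h20, h21, h22, h23, h30, h31, h32, h33,
    h40, h41, h42, h43]
  simp only [smul_eq_mul]
  have e0 : ((0 : Fin 5) : ℕ) = 0 := rfl
  have e1 : ((1 : Fin 5) : ℕ) = 1 := rfl
  have e2 : ((2 : Fin 5) : ℕ) = 2 := rfl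
  have e3 : ((3 : Fin 5) : ℕ) = 3 := rfl
  have e4 : ((4 : Fin 5) : ℕ) = 4 := rfl
  have f0 : ((0 : Fin 4) : ℕ) = 0 := rfl
  have f1 : ((1 : Fin 4) : ℕ) = 1 := rfl
  have f2 : ((2 : Fin 4) : ℕ) = 2 := rfl
  have f3 : ((3 : Fin 4) : ℕ) = 3 := rfl
  rw [e0, e1, e2, e3, e4, f0, f1, f2, f3]
  ring

theorem dd_add {n : ℕ} (a b : Coch n ℤ) (v : Fin (n + 1) → ℕ) :
    dd (fun w => a w + b w) v = dd a v + dd b v := by
  unfold dd
  rw [← Finset.sum_add_distrib]
  exact Finset.sum_congr rfl fun i _ => by rw [smul_add]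

theorem sup_mem (s : Finset ℕ) (hs : s.Nonempty) : s.sup id ∈ s := by
  obtain ⟨i, hi, h⟩ := Finset.exists_mem_eq_sup s hs id
  rw [h]; exact hi

theorem kk_le_aA (A : Cx) (Vt : Finset ℕ) (p : ℕ → ℝ) (σ : Finset ℕ) (hσ : σ ∈ A.S) :
    kk Vt σ p ≤ aA A Vt p := by
  unfold aA
  have h1 : (σ.card : ℝ) * kk Vt σ p ≤ ∑ σ ∈ A.S, (σ.card : ℝ) * kk Vt σ p :=
    Finset.single_le_sum (f := fun σ : Finset ℕ => (σ.card : ℝ) * kk Vt σ p)
      (fun τ _ => mul_nonneg (Nat.cast_nonneg _) (kk_nonneg _ _ _)) hσ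
  refine le_trans ?_ h1
  have h2 : (1 : ℝ) ≤ σ.card := by exact_mod_cast Finset.card_pos.2 (A.ne σ hσ)
  nlinarith [kk_nonneg Vt σ p]

/-- neighbourhoods for the prism sums -/
theorem nhd_PrS (K A : Cx) (hA : A.S ⊆ K.S) (Vt : Finset ℕ) (hVt : ∀ s ∈ K.S, s ⊆ Vt)
    (y : Coch 4 ℤ) (hy : NCoc A y) (hpos : ∀ τ ∈ A.S, ∀ p ∈ ctri τ, 0 ≤ xi y τ p)
    {m : ℝ} (hm : 0 < m) (hm' : m ≤ 1 / 8) {c : ℝ} (hc : 0 < c)
    {T : Type} [TopologicalSpace T] (κ : T → K.real) (hκ : Continuous κ) (A₀ : ℕ)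
    (rr vs : Fin 3 → ℕ) (σs : Fin 3 → Finset ℕ) (hrr : ∀ j, rr j ≤ 10 * A₀)
    (hσ : ∀ j, σs j ∈ A.S) (hvs : ∀ j, vs j ∈ σs j) (x : T)
    (hx2 : ∀ j, c < kk Vt (σs j) (κ x).1)
    (hfree : ∀ p ∈ ctri (fsupp (rhoA A Vt (κ x).1)),
      xi y (fsupp (rhoA A Vt (κ x).1)) p ≠ 0 → ∀ j,
        gm m (ub (rhoA A Vt (κ x).1) p) ∉ Dr A₀ (rr j)) :
    ∀ᶠ x' in 𝓝 x, PrS y m A₀ rr vs (rhoA A Vt (κ x').1) =
      PrS y m A₀ rr vs (rhoA A Vt (κ x).1) := by
  have ha : ∀ σ ∈ A.S, c < kk Vt σ (κ x).1 → 0 < aA A Vt (κ x).1 := fun σ hs h =>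
    hc.trans (h.trans_le (kk_le_aA A Vt _ σ hs))
  have ha0 : 0 < aA A Vt (κ x).1 := ha _ (hσ 0) (hx2 0)
  have hmem : rhoA A Vt (κ x).1 ∈ A.real := rhoA_mem K A hA Vt hVt _ (κ x).2 ha0
  have hloc := PrS_locconst A y hy hpos hm hm' A₀ rr vs hrr ⟨_, hmem⟩ (by
    intro j
    rw [mem_fsupp_iff_pos A hmem]
    exact hc.trans ((hx2 j).trans_le (le_rhoA K A hA Vt hVt _ (κ x).2 ha0 _ (hσ j) _ (hvs j))))
    hfree
  rw [nhds_subtype_eq_comap, Filter.eventually_comap] at hloc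
  have hUo : IsOpen {p : ℕ → ℝ | 0 < aA A Vt p} := isOpen_lt continuous_const (continuous_aA A Vt)
  have hct : ContinuousAt (fun x' => rhoA A Vt (κ x').1) x := by
    have h1 : ContinuousAt (rhoA A Vt) (κ x).1 :=
      (continuousOn_rhoA A Vt).continuousAt (hUo.mem_nhds ha0)
    exact ContinuousAt.comp (f := fun x' => (κ x').1) (g := rhoA A Vt) h1
      (continuous_subtype_val.comp hκ).continuousAt
  have hU : ∀ᶠ x' in 𝓝 x, 0 < aA A Vt (κ x').1 :=
    (continuous_subtype_val.comp hκ).continuousAt.eventually (hUo.mem_nhds ha0)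
  filter_upwards [hct.eventually hloc, hU] with x' h1 h2
  exact h1 ⟨_, rhoA_mem K A hA Vt hVt _ (κ x').2 h2⟩ rfl

end EB3a_aux

open EB3a_aux in
/-- [QB-EB3a] Theorem 6.5 for normalised cocycles with nonnegative `ξ`. -/
theorem EB_three_core (h : HT) (u : h.H 0 (absP S4)) (S : Stage h u) (A : Cx)
    (hA : A.S ⊆ S.K.S) (y : Coch 4 ℤ) (hy : NCoc A y)
    (hpos : ∀ τ ∈ A.S, ∀ p ∈ ctri τ, 0 ≤ xi y τ p) :
    ∃ (S' : Stage h u) (r : Refine S' S) (y' : Coch 4 ℤ), IsCocyc S'.K y' ∧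
      ∀ v : Fin 4 → ℕ, adm (r.pull A) v → y' v = y (r.φ ∘ v) := by
  classical
  -- the constants
  obtain ⟨Vt, hVt⟩ : ∃ Vt : Finset ℕ, ∀ s ∈ S.K.S, s ⊆ Vt :=
    ⟨S.K.S.biUnion id, fun s hs => Finset.subset_biUnion_of_mem id hs⟩
  obtain ⟨D, hD, hK⟩ : ∃ D : ℕ, 1 ≤ D ∧ ∀ s ∈ S.K.S, s.card ≤ D :=
    ⟨Vt.card + 1, by omega, fun s hs => (Finset.card_le_card (hVt s hs)).trans (Nat.le_succ _)⟩
  obtain ⟨c, hc, hcD⟩ : ∃ c : ℝ, 0 < c ∧ c < 1 / (D : ℝ) ^ 2 := by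
    have h1 : (0 : ℝ) < 1 / (D : ℝ) ^ 2 := by
      have : (0 : ℝ) < D := by exact_mod_cast hD
      positivity
    exact ⟨1 / (D : ℝ) ^ 2 / 2, half_pos h1, half_lt_self h1⟩
  obtain ⟨m, hm, hm', hmc⟩ : ∃ m : ℝ, 0 < m ∧ m ≤ 1 / 8 ∧ m < c :=
    ⟨min (c / 2) (1 / 8), lt_min (half_pos hc) (by norm_num), min_le_right _ _,
      (min_le_left _ _).trans_lt (half_lt_self hc)⟩
  obtain ⟨T, iT1, iT2, iT3, π, N, n, ε, hess, hJ⟩ :=
    exists_blowup h u S A hA Vt hVt y hy hpos hm hm' (c / 2) (half_pos hc)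
  obtain ⟨A₀, hA₀⟩ : ∃ A₀ : ℕ, A₀ = n * 2 ^ N := ⟨_, rfl⟩
  -- abbreviations
  let Λ : Type := Fin (10 * A₀ + 1) × {σ // σ ∈ S.K.S}
  let rl : Λ → ℕ := fun l => l.1.1
  let sl : Λ → Finset ℕ := fun l => l.2.1
  have hrl : ∀ l, rl l ≤ 10 * A₀ := fun l => Nat.lt_succ_iff.1 l.1.2
  have hsl : ∀ l, sl l ∈ S.K.S := fun l => l.2.2
  let kp : T → S.K.real := fun x => S.κ (π x)
  have hkp : Continuous kp := S.κ.continuous.comp π.continuous
  let W : Λ → Set T := fun l =>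
    {x | (∀ v ∈ JJ m (ε x).1, v ∉ Dr A₀ (rl l)) ∧ c < kk Vt (sl l) (kp x).1}
  have hW : ∀ l, IsOpen (W l) := by
    intro l
    refine IsOpen.inter ?_ ?_
    · rw [isOpen_iff_eventually]
      intro x hx
      exact ε.continuous.continuousAt.eventually (free_open hm hm' A₀ (rl l) (hrl l) (ε x) hx)
    · exact isOpen_lt continuous_const
        ((continuous_kk Vt (sl l)).comp (continuous_subtype_val.comp hkp))
  have hcov : ∀ x, ∃ l, x ∈ W l := by
    intro x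
    obtain ⟨σ, hσ, h1⟩ := exists_kk S.K Vt hVt D hD hK (kp x).1 (kp x).2
    obtain ⟨r, hr, h2⟩ := exists_free A₀ (JJ m (ε x).1) (by
      rw [hA₀]; exact (JJ_mem hm hm' (ε x)).2)
    exact ⟨(⟨r, Nat.lt_succ_iff.2 hr⟩, ⟨σ, hσ⟩), h2, hcD.trans_le h1⟩
  have hnn : ∀ p ∈ S.K.real, ∀ i, 0 ≤ p i := fun p ⟨s, _, hs⟩ => hs.1
  have hsuppV : ∀ p ∈ S.K.real, ∀ i, p i ≠ 0 → i ∈ Vt := by
    rintro p ⟨s, hs, h1, h2, h3⟩ i hi
    by_contra hcon
    exact hi (h2 i fun hi' => hcon (hVt s hs hi'))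
  have hσ : ∀ l x, x ∈ W l → (sl l).Nonempty ∧ sl l ⊆ fsupp (S.κ (π x)).1 := by
    intro l x hx
    refine ⟨S.K.ne _ (hsl l), fun i hi => ?_⟩
    rw [mem_fsupp_iff_pos S.K (S.κ (π x)).2]
    exact kk_sub (hnn _ (kp x).2) (hsuppV _ (kp x).2) (hc.trans hx.2) i hi
  -- the two kinds of integers
  let I4 : (Fin 4 → Λ) → T → ℤ := fun q x => II m A₀ (fun j => rl (q j)) (ε x).1
  let I3 : (Fin 3 → Λ) → T → ℤ := fun q x =>
    PrS y m A₀ (fun j => rl (q j)) (fun j => (sl (q j)).sup id) (rhoA A Vt (kp x).1)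
  let Nn : T → Finset Λ → Set T := fun x s =>
    {x' | (∀ q : Fin 4 → Λ, (∀ j, q j ∈ s) → I4 q x' = I4 q x) ∧
      ∀ q : Fin 3 → Λ, (∀ j, q j ∈ s) → (∀ j, sl (q j) ∈ A.S) → I3 q x' = I3 q x}
  have haA : ∀ l x, x ∈ W l → sl l ∈ A.S → c < aA A Vt (kp x).1 := fun l x hx hs =>
    hx.2.trans_le (kk_le_aA A Vt _ _ hs)
  have hN : ∀ (x : T) (s : Finset Λ), s.Nonempty → (∀ l ∈ s, x ∈ W l) → Nn x s ∈ 𝓝 x := by
    intro x s _ hs
    have h1 : ∀ᶠ x' in 𝓝 x, ∀ q : Fin 4 → Λ, (∀ j, q j ∈ s) → I4 q x' = I4 q x := by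
      rw [Filter.eventually_all]
      intro q
      rw [Filter.eventually_imp_distrib_left]
      intro hq
      exact ε.continuous.continuousAt.eventually
        (I_locconst hm hm' A₀ (fun j => rl (q j)) (fun j => hrl _) (ε x)
          fun j => (hs _ (hq j)).1)
    have h2 : ∀ᶠ x' in 𝓝 x, ∀ q : Fin 3 → Λ, (∀ j, q j ∈ s) → (∀ j, sl (q j) ∈ A.S) →
        I3 q x' = I3 q x := by
      rw [Filter.eventually_all]
      intro q
      rw [Filter.eventually_imp_distrib_left]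
      intro hq
      rw [Filter.eventually_imp_distrib_left]
      intro hqA
      refine nhd_PrS S.K A hA Vt hVt y hy hpos hm hm' hc kp hkp A₀ (fun j => rl (q j))
        (fun j => (sl (q j)).sup id) (fun j => sl (q j)) (fun j => hrl _) hqA
        (fun j => sup_mem _ (S.K.ne _ (hsl _))) x (fun j => (hs _ (hq j)).2) ?_
      intro p hp hxi j
      by_cases hstar : gm m (ub (rhoA A Vt (kp x).1) p) = star
      · rw [hstar]
        exact (col_star A₀ _ (hrl _)).1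
      · refine (hs _ (hq j)).1 _ ?_
        have hca : c / 2 < aA A Vt (S.κ (π x)).1 :=
          (half_lt_self hc).trans (haA _ x (hs _ (hq 0)) (hqA 0))
        have hca0 : 0 < aA A Vt (S.κ (π x)).1 := (half_pos hc).trans hca
        rw [hJ x hca, Multiset.mem_filter]
        refine ⟨?_, hstar⟩
        rw [Multiset.mem_bind]
        refine ⟨p, hp, ?_⟩
        rw [Multiset.mem_replicate]
        refine ⟨?_, rfl⟩
        have hfs : fsupp (rhoA A Vt (S.κ (π x)).1) ∈ A.S :=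
          fsupp_mem A (rhoA_mem S.K A hA Vt hVt _ (S.κ (π x)).2 hca0)
        have hge := hpos _ hfs p hp
        have hne : xi y (fsupp (rhoA A Vt (S.κ (π x)).1)) p ≠ 0 := hxi
        omega
    exact h1.and h2
  obtain ⟨S', r, lb, ctr, Sw, hφ, hcar, hctr, hSw, hpt⟩ :=
    exists_refine_of_cover S T π hess Λ sl W hW hcov hσ Nn hN
  -- the cochains
  let y₁ : Coch 4 ℤ := fun v => I4 (fun j => lb (v j)) (ctr (v 0))
  let Pr : Coch 3 ℤ := fun v =>
    if ∀ j, sl (lb (v j)) ∈ A.S then I3 (fun j => lb (v j)) (ctr (v 0)) else 0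
  refine ⟨S', r, fun v => y₁ v + dd Pr v, ?_, ?_⟩
  · intro v hv
    rw [dd_add, dd_dd_three, add_zero]
    obtain ⟨x, hx⟩ := hpt _ hv.2
    have hmem : ∀ j, v j ∈ Finset.univ.image v := fun j =>
      Finset.mem_image_of_mem v (Finset.mem_univ j)
    have hy₁ : ∀ i : Fin 5, y₁ (fun j => v (i.succAbove j)) =
        II m A₀ (fun j => rl (lb (v (i.succAbove j)))) (ε x).1 := by
      intro i
      have h1 := (hx _ (hmem (i.succAbove 0))).2
      have h2 := h1.1 (fun j => lb (v (i.succAbove j))) fun j => hSw _ hv.2 _ (hmem _) _ (hmem _)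
      exact h2.symm
    have h3 := I_cocycle hm hm' A₀ (fun j => rl (lb (v j))) (fun j => hrl _) (ε x)
    rw [← h3]
    unfold dd
    refine Finset.sum_congr rfl fun i _ => ?_
    rw [hy₁ i]
    rfl
  · intro v hv
    have hs := Finset.mem_filter.1 hv.2
    have hsK : Finset.univ.image v ∈ S'.K.S := hs.1
    have hsA : r.car (Finset.univ.image v) ∈ A.S := hs.2
    obtain ⟨x, hx⟩ := hpt _ hsK
    have hmem : ∀ j, v j ∈ Finset.univ.image v := fun j =>
      Finset.mem_image_of_mem v (Finset.mem_univ j)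
    have hlA : ∀ j, sl (lb (v j)) ∈ A.S := by
      intro j
      refine A.down _ hsA _ ?_ (S.K.ne _ (hsl _))
      rw [hcar _ hsK]
      exact Finset.subset_biUnion_of_mem (fun i => sl (lb i)) (hmem j)
    have hvφ : ∀ j, r.φ (v j) = (sl (lb (v j))).sup id := fun j => hφ _ hsK _ (hmem j)
    have hxW : ∀ j, x ∈ W (lb (v j)) := fun j => (hx _ (hmem j)).1
    have hy₁ : y₁ v = II m A₀ (fun j => rl (lb (v j))) (ε x).1 :=
      (((hx _ (hmem 0)).2).1 (fun j => lb (v j)) fun j => hSw _ hsK _ (hmem _) _ (hmem _)).symm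
    have hPr : ∀ i : Fin 4, Pr (fun j => v (i.succAbove j)) =
        I3 (fun j => lb (v (i.succAbove j))) x := by
      intro i
      have h0 : Pr (fun j => v (i.succAbove j)) =
          I3 (fun j => lb (v (i.succAbove j))) (ctr (v (i.succAbove 0))) :=
        if_pos fun j => hlA _
      rw [h0]
      exact (((hx _ (hmem (i.succAbove 0))).2).2 (fun j => lb (v (i.succAbove j)))
        (fun j => hSw _ hsK _ (hmem _) _ (hmem _)) fun j => hlA _).symm
    have hca : c < aA A Vt (S.κ (π x)).1 := haA _ x (hxW 0) (hlA 0)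
    have hca0 : 0 < aA A Vt (S.κ (π x)).1 := hc.trans hca
    have hρ : rhoA A Vt (S.κ (π x)).1 ∈ A.real :=
      rhoA_mem S.K A hA Vt hVt _ (S.κ (π x)).2 hca0
    have hdd := PrS_dd A y hy hm hm' A₀ (fun j => rl (lb (v j))) (r.φ ∘ v) (fun j => hrl _)
      ⟨_, hρ⟩ (by
        intro j
        have h1 := le_rhoA S.K A hA Vt hVt _ (S.κ (π x)).2 hca0 _ (hlA j) _
          (sup_mem _ (S.K.ne _ (hsl (lb (v j)))))
        have h2 : (r.φ ∘ v) j = (sl (lb (v j))).sup id := hvφ j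
        rw [h2]
        exact hmc.trans ((hxW j).2.trans_le h1)) (r.mono.comp hv.1)
    have hsum := JJ_iota_sum A y hpos A₀ (fun j => rl (lb (v j))) (fun j => hrl _) _ hρ
      (JJ m (ε x).1) (hJ x ((half_lt_self hc).trans hca))
    have hddPr : dd Pr v = ∑ i : Fin 4, (-1 : ℤ) ^ (i : ℕ) *
        PrS y m A₀ (fun j => rl (lb (v (i.succAbove j)))) (fun j => (r.φ ∘ v) (i.succAbove j))
          (rhoA A Vt (S.κ (π x)).1) := by
      unfold dd
      refine Finset.sum_congr rfl fun i _ => ?_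
      rw [hPr i]
      have : (fun j => (r.φ ∘ v) (i.succAbove j)) =
          fun j => (sl (lb (v (i.succAbove j)))).sup id := by
        funext j
        exact hvφ _
      rw [this]
      rfl
    show y₁ v + dd Pr v = y (r.φ ∘ v)
    rw [hy₁, hddPr]
    have hII : II m A₀ (fun j => rl (lb (v j))) (ε x).1 =
        ∑ p ∈ ctri (fsupp (rhoA A Vt (S.κ (π x)).1)),
          xi y (fsupp (rhoA A Vt (S.κ (π x)).1)) p *
            iota (colT A₀ (fun j => rl (lb (v j))) (gm m (ub (rhoA A Vt (S.κ (π x)).1) p))) := hsum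
    rw [hII]
    have := hdd
    simp only at this
    rw [this]
    ring

end Pool.QB
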