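import Pool.Agent.MP_c51823_gt.QB.FDef

/-!
# [QB] The spaces `E(N,n)`: definitions (QB_PROOF.md 4.1, 4.2)
-/

set_option autoImplicit false
open Topology

namespace Pool.QB

/-! ## Roots -/

open Classical in
/-- The multiset of (finite) roots of a line of polynomials. -/
noncomputable def rts (e : ℕ → ℕ → ℂ) : Multiset ℂ :=
  if h : ∃ p : Polynomial ℂ, p ≠ 0 ∧ e = line p then h.choose.roots else 0

/-- Test functions on `[0,1] × ℂ`, vanishing for `s = 0, 1` and at infinity. -/
structure FFn where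
  F : C(ℝ × ℂ, ℝ)
  zero : ∀ z, F (0, z) = 0
  one : ∀ z, F (1, z) = 0
  dec : ∀ ε > 0, ∃ R : ℝ, ∀ s ∈ Set.Icc (0 : ℝ) 1, ∀ z : ℂ, R < ‖z‖ → |F (s, z)| < ε

/-- Multiplication of lines of polynomials with a prescribed target degree. -/
noncomputable def mulCP {b b' : ℕ} (hb : 2 * b' ≤ b) : C(CP b' × CP b', CP b) :=
  ⟨fun p => ⟨(mu b' b' p).1, CP_mono (by omega) (mu b' b' p).2⟩, by
    exact Continuous.subtype_mk (continuous_subtype_val.comp (mu b' b').continuous) _⟩

/-! ## The characteristic maps -/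

/-- cumulative sums `t_i = x_0 + ... + x_{i-1}` of barycentric coordinates -/
noncomputable def cum {k : ℕ} (x : Dl k) (i : ℕ) : ℝ :=
  ∑ l : Fin (k + 1), if (l : ℕ) < i then x.1 l else 0

/-- The ambient function space. -/
abbrev VV : Type := (C(ℝ, ℝ) → ℝ) × (FFn → ℝ)

/-- `χ_k(t; f)`. -/
noncomputable def chi {k b : ℕ} (x : Dl k) (f : Fin k → CP b) : VV :=
  (fun h => Finset.univ.sup' ⟨0, Finset.mem_univ _⟩ (fun i : Fin (k + 2) => h (cum x i)),
   fun F => ∑ j : Fin k, ((rts (f j).1).map fun z => F.F (cum x (j + 1), z)).sum)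

/-- The face operators `d^i` of the bar construction. For `i = 0` drop the first entry, for `i = k+1`
drop the last one, otherwise multiply the entries `i-1` and `i`. -/
noncomputable def dW {k b b' : ℕ} (hb : 2 * b' ≤ b) (i : Fin (k + 2)) :
    C(Fin (k + 1) → CP b', Fin k → CP b) :=
  ⟨fun f j =>
    if (j : ℕ) + 1 < i then ⟨(f j.castSucc).1, CP_mono (by omega) (f j.castSucc).2⟩
    else if (j : ℕ) + 1 = i then mulCP hb (f j.castSucc, f j.succ)
    else ⟨(f j.succ).1, CP_mono (by omega) (f j.succ).2⟩, by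
    refine continuous_pi fun j => ?_
    split_ifs
    · exact Continuous.subtype_mk (continuous_subtype_val.comp (continuous_apply _)) _
    · exact (mulCP hb).continuous.comp ((continuous_apply _).prodMk (continuous_apply _))
    · exact Continuous.subtype_mk (continuous_subtype_val.comp (continuous_apply _)) _⟩

/-- inclusion `(CP^{b'})^k → (CP^b)^k` -/
def inclW {k b b' : ℕ} (hb : b' ≤ b) : C(Fin k → CP b', Fin k → CP b) :=
  ⟨fun f j => ⟨(f j).1, CP_mono hb (f j).2⟩, by
    refine continuous_pi fun j => ?_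
    exact Continuous.subtype_mk (continuous_subtype_val.comp (continuous_apply _)) _⟩

/-- The `(m-1)`-skeleton `E(N, m-1)` of the truncated (fat) bar construction. -/
def Es (N m : ℕ) : Set VV :=
  {e | ∃ k, k < m ∧ ∃ (x : Dl k) (f : Fin k → CP (2 ^ (N - k) - 1)), e = chi x f}

end Pool.QB
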