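import Pool.Agent.MP_c51823_gt.QB.FDef

/-!
# [QB-F1] Additivity. Proof: QB_PROOF.md (2.2). Induction on the number of pieces; exactness for
triples and excision. NB `ι` may be empty (then `A = X` and `H q (X, X) = 0`, by exactness).
-/

set_option autoImplicit false
open Topology

namespace Pool.QB

namespace F1_aux

/-- `H q (X, X) = 0`. -/
theorem eq_zero_of_univ (h : HT) (q : ℕ) (P : CPair) (hP : ∀ x, x ∈ P.A) (x : h.H q P) :
    x = 0 := by
  let T : CTriple := ⟨P.X, P.A, P.A, P.closed, P.closed, fun _ h => h⟩
  have h1 : h.map q T.i x = 0 := (h.exact_xa q T x).2 ⟨x, h.map_id q P x⟩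
  have h2 : Function.Injective (h.map q T.i) := by
    refine (h.excision q T.i (fun x hx => hx) ?_).1
    have e1 : (T.BA.A)ᶜ = ∅ := by
      rw [Set.compl_empty_iff]
      exact Set.eq_univ_of_forall fun y => hP y.1
    have e2 : (T.XA.A)ᶜ = ∅ := by
      rw [Set.compl_empty_iff]
      exact Set.eq_univ_of_forall fun y => hP y
    rw [e1, e2]
    exact Set.bijOn_empty _
  exact h2 (h1.trans (map_zero (h.map q T.i)).symm)

/-- restriction from a larger relative part. -/
def inclR {X : Type} [TopologicalSpace X] [CompactSpace X] [T2Space X] {A C : Set X}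
    (hA : IsClosed A) (hC : IsClosed C) (hAC : A ⊆ C) :
    CPair.Map ⟨X, A, hA⟩ ⟨X, C, hC⟩ := ⟨ContinuousMap.id _, fun _ h => hAC h⟩

/-- the excision `(F, F ∩ A) → (X, C)` if `A ⊆ C`, `F ∩ C ⊆ A`, `F ∪ C = X`. -/
theorem exc (h : HT) (q : ℕ) {X : Type} [TopologicalSpace X] [CompactSpace X]
    [T2Space X] {A C : Set X} (hA : IsClosed A) (hC : IsClosed C) (hAC : A ⊆ C) (F : Set X)
    (hF : IsClosed F) (h1 : ∀ x ∈ F, x ∈ C → x ∈ A) (h2 : ∀ x, x ∈ C ∨ x ∈ F) :
    Function.Bijective (h.map q ((inclR hA hC hAC).comp (subPi F A hF hA))) := by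
  refine h.excision q _ ?_ ⟨?_, ?_, ?_⟩
  · intro x hx
    exact h1 x.1 x.2 hx
  · intro x hx hx'
    exact hx (h1 x.1 x.2 hx')
  · intro x _ y _ hxy
    exact Subtype.ext hxy
  · intro x hx
    have hxF : x ∈ F := (h2 x).resolve_left hx
    exact ⟨⟨x, hxF⟩, fun hx' => hx (hAC hx'), rfl⟩

end F1_aux

open F1_aux

/-- [QB-F1] Additivity (2.2). -/
theorem HT.additivity (h : HT) (q : ℕ) (X : Type) [TopologicalSpace X] [CompactSpace X]
    [T2Space X] (A : Set X) (hA : IsClosed A) {ι : Type} [Fintype ι] (F : ι → Set X)
    (hF : ∀ i, IsClosed (F i)) (hcov : ∀ x, x ∈ A ∨ ∃ i, x ∈ F i)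
    (hdisj : ∀ i j, i ≠ j → ∀ x, x ∈ F i → x ∈ F j → x ∈ A) :
    Function.Bijective (fun (x : h.H q ⟨X, A, hA⟩) (i : ι) =>
      (h.map q (subPi (F i) A (hF i) hA) x : h.H q (subP (F i) A (hF i) hA))) := by
  classical
  constructor
  · -- injectivity
    -- the additive version
    have key : ∀ x : h.H q ⟨X, A, hA⟩, (∀ i, h.map q (subPi (F i) A (hF i) hA) x = 0) → x = 0 := by
      intro x hx
      have step : ∀ S : Finset ι, ∀ (hAS : IsClosed (A ∪ ⋃ i ∈ S, F i)),
          ∃ y : h.H q ⟨X, A ∪ ⋃ i ∈ S, F i, hAS⟩,
            h.map q (inclR hA hAS Set.subset_union_left) y = x := by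
        intro S
        induction S using Finset.induction_on with
        | empty =>
          intro hAS
          have e : A ∪ ⋃ i ∈ (∅ : Finset ι), F i = A := by simp
          -- excision, or `subst`
          have hb : Function.Bijective (h.map q (inclR hA hAS Set.subset_union_left)) := by
            refine h.excision q _ (fun y hy => ?_) ?_
            · have : y ∈ A ∪ ⋃ i ∈ (∅ : Finset ι), F i := hy
              rw [e] at this
              exact this
            · show Set.BijOn (ContinuousMap.id X) Aᶜ (A ∪ ⋃ i ∈ (∅ : Finset ι), F i)ᶜ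
              rw [e]
              exact Set.bijOn_id _
          exact hb.2 x
        | insert m S hm ih =>
          intro hAS'
          have hAS : IsClosed (A ∪ ⋃ i ∈ S, F i) :=
            hA.union (isClosed_biUnion_finset fun i _ => hF i)
          obtain ⟨y, hy⟩ := ih hAS
          have hsub : (A ∪ ⋃ i ∈ S, F i) ⊆ (A ∪ ⋃ i ∈ insert m S, F i) := by
            refine Set.union_subset_union_right _ ?_
            exact Set.biUnion_subset_biUnion_left (by
              intro i hi; exact Finset.mem_insert_of_mem hi)
          let T : CTriple := ⟨X, A ∪ ⋃ i ∈ insert m S, F i, A ∪ ⋃ i ∈ S, F i, hAS', hAS, hsub⟩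
          have hFm : F m ⊆ A ∪ ⋃ i ∈ insert m S, F i := by
            refine Set.subset_union_of_subset_right ?_ _
            exact Set.subset_biUnion_of_mem (u := fun i => F i) (Finset.mem_insert_self m S)
          -- the map `(F m, F m ∩ A) → (A ∪ F_S', A ∪ F_S)`
          let g : CPair.Map (subP (F m) A (hF m) hA) T.BA :=
            ⟨⟨fun z => ⟨z.1, hFm z.2⟩, by
              exact continuous_subtype_val.subtype_mk _⟩, fun z hz => Or.inl hz⟩
          have hbij : Function.Bijective (h.map q g) := by
            refine h.excision q g ?_ ⟨?_, ?_, ?_⟩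
            · intro z hz
              have hz' : z.1 ∈ A ∪ ⋃ i ∈ S, F i := hz
              rcases hz' with h1 | h1
              · exact h1
              · simp only [Set.mem_iUnion] at h1
                obtain ⟨i, hi, hzi⟩ := h1
                exact hdisj m i (fun hmi => hm (hmi ▸ hi)) z.1 z.2 hzi
            · intro z hz hz'
              apply hz
              have hz' : z.1 ∈ A ∪ ⋃ i ∈ S, F i := hz'
              rcases hz' with h1 | h1
              · exact h1
              · simp only [Set.mem_iUnion] at h1
                obtain ⟨i, hi, hzi⟩ := h1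
                exact hdisj m i (fun hmi => hm (hmi ▸ hi)) z.1 z.2 hzi
            · intro z _ z' _ hzz
              have := congrArg Subtype.val hzz
              exact Subtype.ext this
            · intro z hz
              have hz1 : z.1 ∉ A ∪ ⋃ i ∈ S, F i := hz
              have hz2 : z.1 ∈ A ∪ ⋃ i ∈ insert m S, F i := z.2
              have hzm : z.1 ∈ F m := by
                rcases hz2 with h1 | h1
                · exact (hz1 (Or.inl h1)).elim
                · simp only [Set.mem_iUnion, Finset.mem_insert] at h1
                  obtain ⟨i, hi | hi, hzi⟩ := h1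
                  · exact hi ▸ hzi
                  · exact (hz1 (Or.inr (by
                      simp only [Set.mem_iUnion]; exact ⟨i, hi, hzi⟩))).elim
              exact ⟨⟨z.1, hzm⟩, fun h1 => hz1 (Or.inl h1), Subtype.ext rfl⟩
          have h0 : h.map q T.i y = 0 := by
            apply hbij.1
            rw [map_zero]
            have e1 : T.i.comp g = (inclR hA hAS Set.subset_union_left).comp
                (subPi (F m) A (hF m) hA) := rfl
            have e2 : h.map q g (h.map q T.i y) = h.map q (T.i.comp g) y :=
              (h.map_comp q T.i g y).symm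
            have e3 : h.map q ((inclR hA hAS Set.subset_union_left).comp
                (subPi (F m) A (hF m) hA)) y
                = h.map q (subPi (F m) A (hF m) hA)
                  (h.map q (inclR hA hAS Set.subset_union_left) y) :=
              h.map_comp q _ _ y
            refine e2.trans (Eq.trans ?_ (hx m))
            refine Eq.trans (e3 : _) ?_
            exact congrArg (h.map q (subPi (F m) A (hF m) hA)) hy
          obtain ⟨y', hy'⟩ := (h.exact_xa q T y).1 h0
          refine ⟨y', ?_⟩
          have e4 : inclR hA hAS' Set.subset_union_left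
              = T.j.comp (inclR hA hAS Set.subset_union_left) := rfl
          have e5 : h.map q (T.j.comp (inclR hA hAS Set.subset_union_left)) y'
              = h.map q (inclR hA hAS Set.subset_union_left) (h.map q T.j y') :=
            h.map_comp q _ _ y'
          refine Eq.trans e5 ?_
          refine Eq.trans (congrArg (h.map q (inclR hA hAS Set.subset_union_left)) hy') ?_
          exact hy
      have hAS : IsClosed (A ∪ ⋃ i ∈ (Finset.univ : Finset ι), F i) :=
        hA.union (isClosed_biUnion_finset fun i _ => hF i)
      obtain ⟨y, hy⟩ := step Finset.univ hAS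
      have hy0 : y = 0 := by
        refine eq_zero_of_univ h q _ (fun z => ?_) y
        rcases hcov z with h1 | ⟨i, hi⟩
        · exact Or.inl h1
        · refine Or.inr ?_
          simp only [Set.mem_iUnion]
          exact ⟨i, Finset.mem_univ i, hi⟩
      rw [← hy, hy0, map_zero]
    intro x x' hxx
    have : x - x' = 0 := by
      apply key
      intro i
      rw [map_sub]
      have := congrFun hxx i
      simp only at this
      rw [this, sub_self]
    exact sub_eq_zero.mp this
  · -- surjectivity
    intro c
    have hC : ∀ i : ι, IsClosed (A ∪ ⋃ j ∈ (Finset.univ.erase i), F j) := fun i =>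
      hA.union (isClosed_biUnion_finset fun j _ => hF j)
    have hex : ∀ i : ι, ∃ x : h.H q ⟨X, A, hA⟩,
        h.map q (subPi (F i) A (hF i) hA) x = c i ∧
        ∀ j, j ≠ i → h.map q (subPi (F j) A (hF j) hA) x = 0 := by
      intro i
      have hb := exc h q hA (hC i) Set.subset_union_left (F i) (hF i) (by
        intro z hz hz'
        rcases hz' with h1 | h1
        · exact h1
        · simp only [Set.mem_iUnion] at h1
          obtain ⟨j, hj, hzj⟩ := h1
          exact hdisj i j (Finset.ne_of_mem_erase hj).symm z hz hzj) (by
        intro z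
        rcases hcov z with h1 | ⟨j, hj⟩
        · exact Or.inl (Or.inl h1)
        · by_cases hji : j = i
          · exact Or.inr (hji ▸ hj)
          · refine Or.inl (Or.inr ?_)
            simp only [Set.mem_iUnion]
            exact ⟨j, Finset.mem_erase.mpr ⟨hji, Finset.mem_univ j⟩, hj⟩)
      obtain ⟨y, hy⟩ := hb.2 (c i)
      refine ⟨h.map q (inclR hA (hC i) Set.subset_union_left) y, ?_, ?_⟩
      · rw [← hy]
        exact (h.map_comp q _ _ y).symm
      · intro j hji
        have hFj : F j ⊆ A ∪ ⋃ k ∈ (Finset.univ.erase i), F k := by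
          refine Set.subset_union_of_subset_right ?_ _
          exact Set.subset_biUnion_of_mem (u := fun i => F i)
            (Finset.mem_erase.mpr ⟨hji, Finset.mem_univ j⟩)
        -- factor through `(F j, F j)`
        let r : CPair.Map (subP (F j) A (hF j) hA) (subP (F j) Set.univ (hF j) isClosed_univ) :=
          ⟨ContinuousMap.id _, fun _ _ => Set.mem_univ _⟩
        let s : CPair.Map (subP (F j) Set.univ (hF j) isClosed_univ)
            ⟨X, A ∪ ⋃ k ∈ (Finset.univ.erase i), F k, hC i⟩ :=
          ⟨⟨Subtype.val, continuous_subtype_val⟩, fun z _ => hFj z.2⟩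
        have e1 : h.map q (subPi (F j) A (hF j) hA)
            (h.map q (inclR hA (hC i) Set.subset_union_left) y) = h.map q r (h.map q s y) := by
          have e2 : h.map q (subPi (F j) A (hF j) hA)
              (h.map q (inclR hA (hC i) Set.subset_union_left) y)
              = h.map q ((inclR hA (hC i) Set.subset_union_left).comp
                (subPi (F j) A (hF j) hA)) y := (h.map_comp q _ _ y).symm
          have e3 : h.map q r (h.map q s y) = h.map q (s.comp r) y := (h.map_comp q _ _ y).symm
          rw [e2, e3]
          rfl
        rw [e1, eq_zero_of_univ h q _ (fun z => Set.mem_univ _) (h.map q s y), map_zero]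
    choose e he1 he2 using hex
    refine ⟨∑ i, e i, ?_⟩
    funext j
    show h.map q (subPi (F j) A (hF j) hA) (∑ i, e i) = c j
    rw [map_sum, Finset.sum_eq_single j]
    · exact he1 j
    · intro i _ hij
      exact he2 i j hij.symm
    · intro hj
      exact (hj (Finset.mem_univ j)).elim

end Pool.QB
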