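import Pool.Agent.MP_c51823_gt.QB.FDef

/-!
# [QB-F2b] Excision. `H q (X, X) = 0`: exactness for the triple `(X, X, X)`, or excision from `(∅, ∅)`.
-/

set_option autoImplicit false
open Topology

namespace Pool.QB

/-- [QB-F2b] `toHorn` is a relative homeomorphism. -/
theorem HT.toHorn_bij (h : HT) (q n : ℕ) (Y : Type) [TopologicalSpace Y] [CompactSpace Y]
    [T2Space Y] (i : Fin (n + 2)) : Function.Bijective (h.map q (toHorn Y n i)) := by
  have hface : ∀ (x : Dl n) (k : Fin (n + 1)), (face i x).1 (i.succAbove k) = x.1 k := by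
    intro x k; simp [face]
  have hA : ∀ p : (SP Y n).X, (toHorn Y n i).f p ∈ (hornT Y n i).BA.A → p ∈ (SP Y n).A := by
    rintro ⟨y, x⟩ ⟨j, hj, hx⟩
    obtain ⟨k, rfl⟩ := Fin.exists_succAbove_eq hj
    refine ⟨k, ?_⟩
    have hx' : (face i x).1 (i.succAbove k) = 0 := hx
    rwa [hface] at hx'
  refine h.excision q _ hA ⟨?_, ?_, ?_⟩
  · intro p hp hq
    exact hp (hA p hq)
  · rintro ⟨y, x⟩ _ ⟨y', x'⟩ _ hpp
    have h1 : ((y, face i x) : Y × Dl (n + 1)) = (y', face i x') := congrArg Subtype.val hpp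
    have h2 : y = y' := congrArg Prod.fst h1
    have h3 : face i x = face i x' := congrArg Prod.snd h1
    refine Prod.ext h2 (Subtype.ext (funext fun k => ?_))
    change x.1 k = x'.1 k
    rw [← hface x k, ← hface x' k, h3]
  · rintro ⟨⟨y, x⟩, hb⟩ hnot
    have hne : ∀ j, j ≠ i → x.1 j ≠ 0 := fun j hj h0 => hnot ⟨j, hj, h0⟩
    have hi : x.1 i = 0 := by
      obtain ⟨j, hj⟩ := hb
      by_cases hji : j = i
      · subst hji; exact hj
      · exact (hne j hji hj).elim
    have hsum : ∑ k, x.1 (i.succAbove k) = 1 := by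
      have := x.2.2
      rw [Fin.sum_univ_succAbove _ i, hi, zero_add] at this
      exact this
    refine ⟨(y, ⟨fun k => x.1 (i.succAbove k), fun k => x.2.1 _, hsum⟩), ?_, ?_⟩
    · rintro ⟨k, hk⟩
      exact hne _ (Fin.succAbove_ne i k) hk
    · refine Subtype.ext (Prod.ext rfl (Subtype.ext (funext fun j => ?_)))
      change (i.insertNth (0 : ℝ) (fun k => x.1 (i.succAbove k)) : Fin (n + 2) → ℝ) j = x.1 j
      refine Fin.succAboveCases i ?_ (fun k => ?_) j
      · simp [hi]
      · simp

/-- the pair `(X, X)` has trivial cohomology -/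
theorem HT.self_zero (h : HT) (q : ℕ) (P : CPair) (hP : ∀ x, x ∈ P.A) (x : h.H q P) : x = 0 := by
  let T : CTriple := { X := P.X, B := P.A, A := P.A, closedB := P.closed, closedA := P.closed,
                       sub := fun _ h => h }
  have hexc : Function.Bijective (h.map q T.i) := by
    refine h.excision q _ (fun x _ => hP _) ?_
    have e1 : (T.BA.A)ᶜ = ∅ := by
      ext x
      simp only [Set.mem_compl_iff, Set.mem_empty_iff_false, iff_false, not_not]
      exact hP _
    have e2 : (T.XA.A)ᶜ = ∅ := by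
      ext x
      simp only [Set.mem_compl_iff, Set.mem_empty_iff_false, iff_false, not_not]
      exact hP _
    rw [e1, e2]
    exact Set.bijOn_empty _
  have h1 : h.map q T.i x = 0 := by
    refine (h.exact_xa q T x).2 ⟨x, ?_⟩
    exact h.map_id q T.XA x
  exact hexc.1 (h1.trans (map_zero _).symm)

end Pool.QB
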