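import Pool.Agent.MP_c51823_gt.QB.F1
import Pool.Agent.MP_c51823_gt.QB.F2b

/-!
# [QB-F2c] FACE LEMMA. Proof: QB_PROOF.md (2.3). `s : Δ^{n+1} → Δ^n` adds the coordinates `i` and `i+1`, `Q^ = s⁻¹(∂)`;
`r = (s^* c)|(∂, Q^)` has `δ r = 0` (exactness for `(Δ^{n+1}, ∂, Q^)`), and `r = w|(∂,Q^) + w'|(∂,Q^)` by additivity (F1: `∂ = Q^ ∪ F_i ∪ F_{i+1}`;
`w|F_{i+1} = 0` because `F_{i+1} ⊆ horn_i`, `self_zero`); naturality of `δ`; `x + x = 0`.
-/

set_option autoImplicit false
open Topology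

namespace Pool.QB

namespace F2c_aux

theorem map_ext {P Q : CPair} {f g : CPair.Map P Q} (h : ∀ x, f.f x = g.f x) : f = g := by
  obtain ⟨f, hf⟩ := f
  obtain ⟨g, hg⟩ := g
  have : f = g := ContinuousMap.ext h
  subst this
  rfl

/-- the degeneracy `Δ^{n+1} → Δ^n` adding the coordinates `i` and `i + 1` -/
noncomputable def sdeg {n : ℕ} (i : Fin (n + 1)) : C(Dl (n + 1), Dl n) where
  toFun x := ⟨fun k => x.1 (i.castSucc.succAbove k) + if k = i then x.1 i.castSucc else 0, by
    refine ⟨fun k => ?_, ?_⟩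
    · refine add_nonneg (x.2.1 _) ?_
      split_ifs
      · exact x.2.1 _
      · exact le_rfl
    · rw [Finset.sum_add_distrib, Finset.sum_ite_eq', if_pos (Finset.mem_univ _), add_comm,
        ← Fin.sum_univ_succAbove (fun k => x.1 k) i.castSucc]
      exact x.2.2⟩
  continuous_toFun := by
    refine Continuous.subtype_mk (continuous_pi fun k => ?_) _
    refine ((continuous_apply _).comp continuous_subtype_val).add ?_
    split_ifs
    · exact (continuous_apply _).comp continuous_subtype_val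
    · exact continuous_const

theorem sdeg_apply {n : ℕ} (i : Fin (n + 1)) (x : Dl (n + 1)) (k : Fin (n + 1)) :
    (sdeg i x).1 k = x.1 (i.castSucc.succAbove k) + if k = i then x.1 i.castSucc else 0 := rfl

theorem sdeg_zero {n : ℕ} {i : Fin (n + 1)} {x : Dl (n + 1)} {k : Fin (n + 1)}
    (h : (sdeg i x).1 k = 0) :
    x.1 (i.castSucc.succAbove k) = 0 ∧ (k = i → x.1 i.castSucc = 0) := by
  rw [sdeg_apply] at h
  have h1 := x.2.1 (i.castSucc.succAbove k)
  have h2 := x.2.1 i.castSucc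
  split_ifs at h with hk
  · have h1' : (0 : ℝ) ≤ x.1 (i.castSucc.succAbove k) := h1
    have h2' : (0 : ℝ) ≤ x.1 i.castSucc := h2
    exact ⟨by linarith, fun _ => by linarith⟩
  · rw [add_zero] at h
    exact ⟨h, fun hh => absurd hh hk⟩

theorem succAbove_self {n : ℕ} (i : Fin (n + 1)) : i.castSucc.succAbove i = i.succ :=
  Fin.succAbove_castSucc_self i

theorem succAbove_ne_succ {n : ℕ} (i k : Fin (n + 1)) (h : k ≠ i) :
    i.castSucc.succAbove k ≠ i.succ := by
  rw [← succAbove_self]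
  exact fun hh => h (Fin.succAbove_right_injective hh)

theorem face_apply_same {n : ℕ} (p : Fin (n + 2)) (x : Dl n) : (face p x).1 p = 0 := by
  simp [face]

theorem face_apply_succAbove {n : ℕ} (p : Fin (n + 2)) (x : Dl n) (k : Fin (n + 1)) :
    (face p x).1 (p.succAbove k) = x.1 k := by
  simp [face]

theorem face_sdeg_castSucc {n : ℕ} (i : Fin (n + 1)) (x : Dl (n + 1)) (hx : x.1 i.castSucc = 0) :
    face i.castSucc (sdeg i x) = x := by
  apply Subtype.ext
  funext j
  refine Fin.succAboveCases i.castSucc ?_ (fun k => ?_) j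
  · rw [face_apply_same, hx]
  · rw [face_apply_succAbove, sdeg_apply, hx]
    simp

theorem face_sdeg_succ {n : ℕ} (i : Fin (n + 1)) (x : Dl (n + 1)) (hx : x.1 i.succ = 0) :
    face i.succ (sdeg i x) = x := by
  apply Subtype.ext
  funext j
  refine Fin.succAboveCases i.succ ?_ (fun k => ?_) j
  · rw [face_apply_same, hx]
  · rw [face_apply_succAbove, sdeg_apply]
    by_cases hk : k = i
    · subst hk
      rw [if_pos rfl, succAbove_self, hx, zero_add]
      exact congrArg x.1 (Fin.succAbove_succ_self k).symm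
    · rw [if_neg hk, add_zero]
      rcases lt_or_gt_of_ne hk with h | h
      · rw [Fin.succAbove_of_castSucc_lt _ _ (Fin.castSucc_lt_castSucc_iff.2 h),
          Fin.succAbove_of_castSucc_lt _ _ (Fin.castSucc_lt_succ_iff.2 h.le)]
      · rw [Fin.succAbove_of_lt_succ _ _ (Fin.castSucc_lt_succ_iff.2 h.le),
          Fin.succAbove_of_lt_succ _ _ (Fin.succ_lt_succ_iff.2 h)]

/-- the triple `(Δ^{n+1}, ∂, Q^)` -/
def qT (Y : Type) [TopologicalSpace Y] [CompactSpace Y] [T2Space Y] (n : ℕ) (i : Fin (n + 1)) :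
    CTriple where
  X := Y × Dl (n + 1)
  B := {p | p.2 ∈ bdD (n + 1)}
  A := {p | sdeg i p.2 ∈ bdD n}
  closedB := (isClosed_bdD _).preimage continuous_snd
  closedA := (isClosed_bdD _).preimage ((sdeg i).continuous.comp continuous_snd)
  sub := fun _ ⟨_, hk⟩ => ⟨_, (sdeg_zero hk).1⟩

/-- `(Δ^{n+1}, Q^) → (Δ^n, ∂)` -/
noncomputable def Smap (Y : Type) [TopologicalSpace Y] [CompactSpace Y] [T2Space Y] (n : ℕ)
    (i : Fin (n + 1)) : CPair.Map (qT Y n i).XA (SP Y n) :=
  ⟨⟨fun p => (p.1, sdeg i p.2), by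
      exact continuous_fst.prodMk ((sdeg i).continuous.comp continuous_snd)⟩, fun _ h => h⟩

/-- to the horn opposite to the facet `i` -/
def m₁ (Y : Type) [TopologicalSpace Y] [CompactSpace Y] [T2Space Y] (n : ℕ) (i : Fin (n + 1)) :
    CTriple.Map (qT Y n i) (hornT Y n i.castSucc) :=
  ⟨ContinuousMap.id _, fun _ h => h, fun _ ⟨_, hk⟩ => ⟨_, Fin.succAbove_ne _ _, (sdeg_zero hk).1⟩⟩

/-- to the horn opposite to the facet `i + 1` -/
def m₂ (Y : Type) [TopologicalSpace Y] [CompactSpace Y] [T2Space Y] (n : ℕ) (i : Fin (n + 1)) :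
    CTriple.Map (qT Y n i) (hornT Y n i.succ) :=
  ⟨ContinuousMap.id _, fun _ h => h, fun _ ⟨k, hk⟩ => by
    by_cases h : k = i
    · exact ⟨i.castSucc, (Fin.castSucc_lt_succ).ne, (sdeg_zero hk).2 h⟩
    · exact ⟨_, succAbove_ne_succ i k h, (sdeg_zero hk).1⟩⟩

section
variable (Y : Type) [TopologicalSpace Y] [CompactSpace Y] [T2Space Y] (n : ℕ) (i : Fin (n + 1))
  (p : Fin (n + 2))

/-- the facet `x_p = 0` of the boundary -/
def Fp : Set (qT Y n i).BA.X := {x : (qT Y n i).B | x.1.2.1 p = 0}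

theorem isClosed_Fp : IsClosed (Fp Y n i p) := by
  have : Continuous fun x : (qT Y n i).B => x.1.2.1 p :=
    (continuous_apply p).comp (continuous_subtype_val.comp
      (continuous_snd.comp continuous_subtype_val))
  exact isClosed_eq this continuous_const

/-- restriction to the facet `x_p = 0` -/
def rp : CPair.Map (subP (Fp Y n i p) (qT Y n i).BA.A (isClosed_Fp Y n i p) (qT Y n i).BA.closed)
    (qT Y n i).BA :=
  subPi (Fp Y n i p) (qT Y n i).BA.A (isClosed_Fp Y n i p) (qT Y n i).BA.closed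

theorem restr_eq (h : HT) (q : ℕ)
    (hp2 : ∀ x : Dl (n + 1), x.1 p = 0 → face p (sdeg i x) = x)
    (m : CTriple.Map (qT Y n i) (hornT Y n p)) (hm : ∀ x, m.f x = x)
    (w : h.H q (hornT Y n p).BA) :
    h.map q (rp Y n i p) (h.map q m.ba w) =
      h.map q (rp Y n i p) (h.map q (qT Y n i).i (h.map q (Smap Y n i)
        (h.map q (toHorn Y n p) w))) := by
  rw [← h.map_comp, ← h.map_comp, ← h.map_comp, ← h.map_comp]
  have : m.ba.comp (rp Y n i p) =
      ((toHorn Y n p).comp (Smap Y n i)).comp ((qT Y n i).i.comp (rp Y n i p)) := by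
    refine map_ext fun x => ?_
    refine Subtype.ext ?_
    change m.f x.1.1 = (x.1.1.1, face p (sdeg i x.1.1.2))
    rw [hm, hp2 x.1.1.2 x.2]
    rfl
  rw [this]
  rfl

theorem restr_zero (h : HT) (q : ℕ) (p' : Fin (n + 2)) (hpp : p ≠ p')
    (m : CTriple.Map (qT Y n i) (hornT Y n p')) (hm : ∀ x, m.f x = x)
    (w : h.H q (hornT Y n p').BA) :
    h.map q (rp Y n i p) (h.map q m.ba w) = 0 := by
  let P₀ : CPair := ⟨(subP (Fp Y n i p) (qT Y n i).BA.A (isClosed_Fp Y n i p)
    (qT Y n i).BA.closed).X, Set.univ, isClosed_univ⟩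
  let f : CPair.Map (subP (Fp Y n i p) (qT Y n i).BA.A (isClosed_Fp Y n i p)
    (qT Y n i).BA.closed) P₀ := ⟨ContinuousMap.id _, fun _ _ => trivial⟩
  let g : CPair.Map P₀ (hornT Y n p').BA := ⟨(m.ba.comp (rp Y n i p)).f, fun x _ => by
    refine ⟨p, hpp, ?_⟩
    change (m.f x.1.1).2.1 p = 0
    rw [hm]
    exact x.2⟩
  rw [← h.map_comp]
  have : m.ba.comp (rp Y n i p) = g.comp f := map_ext fun x => rfl
  rw [this, h.map_comp, h.self_zero q P₀ (fun _ => trivial) (h.map q g w), map_zero]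

end

end F2c_aux

open F2c_aux

/-- [QB-F2c] FACE LEMMA. -/
theorem HT.face_lemma (h : HT) (q n : ℕ) (Y : Type) [TopologicalSpace Y] [CompactSpace Y]
    [T2Space Y] (i : Fin (n + 1)) (w : h.H (q + 1) (hornT Y n i.castSucc).BA)
    (w' : h.H (q + 1) (hornT Y n i.succ).BA)
    (hw : h.map (q + 1) (toHorn Y n i.castSucc) w = h.map (q + 1) (toHorn Y n i.succ) w') :
    (h.δ q (hornT Y n i.castSucc) w : h.H q (SP Y (n + 1))) = h.δ q (hornT Y n i.succ) w' := by
  have h1 : (h.δ q (hornT Y n i.castSucc) w : h.H q (SP Y (n + 1))) =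
      h.δ q (qT Y n i) (h.map (q + 1) (m₁ Y n i).ba w) :=
    (h.map_id q (SP Y (n + 1)) (h.δ q (hornT Y n i.castSucc) w)).symm.trans
      (h.δ_nat q (m₁ Y n i) w)
  have h2 : (h.δ q (hornT Y n i.succ) w' : h.H q (SP Y (n + 1))) =
      h.δ q (qT Y n i) (h.map (q + 1) (m₂ Y n i).ba w') :=
    (h.map_id q (SP Y (n + 1)) (h.δ q (hornT Y n i.succ) w')).symm.trans
      (h.δ_nat q (m₂ Y n i) w')
  have hr : h.map (q + 1) (m₁ Y n i).ba w + h.map (q + 1) (m₂ Y n i).ba w' =
      h.map (q + 1) (qT Y n i).i (h.map (q + 1) (Smap Y n i)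
        (h.map (q + 1) (toHorn Y n i.castSucc) w)) := by
    have hadd := h.additivity (q + 1) (qT Y n i).BA.X (qT Y n i).BA.A (qT Y n i).BA.closed
      (fun b : Bool => Fp Y n i (if b then i.castSucc else i.succ))
      (fun b => isClosed_Fp Y n i _) ?_ ?_
    · refine hadd.1 (funext fun b => ?_)
      cases b
      · change h.map (q + 1) (rp Y n i i.succ) _ = h.map (q + 1) (rp Y n i i.succ) _
        rw [map_add, restr_zero Y n i i.succ h (q + 1) i.castSucc (Fin.castSucc_lt_succ).ne'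
          (m₁ Y n i) (fun _ => rfl) w, zero_add, hw]
        exact restr_eq Y n i i.succ h (q + 1) (face_sdeg_succ i) (m₂ Y n i) (fun _ => rfl) w'
      · change h.map (q + 1) (rp Y n i i.castSucc) _ = h.map (q + 1) (rp Y n i i.castSucc) _
        rw [map_add, restr_zero Y n i i.castSucc h (q + 1) i.succ (Fin.castSucc_lt_succ).ne
          (m₂ Y n i) (fun _ => rfl) w', add_zero]
        exact restr_eq Y n i i.castSucc h (q + 1) (face_sdeg_castSucc i) (m₁ Y n i)
          (fun _ => rfl) w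
    · intro x
      obtain ⟨⟨y, x⟩, j, hj⟩ := x
      have hj' : x.1 j = 0 := hj
      by_cases hj1 : j = i.castSucc
      · right
        exact ⟨true, by subst hj1; exact hj'⟩
      by_cases hj2 : j = i.succ
      · right
        exact ⟨false, by subst hj2; exact hj'⟩
      · left
        obtain ⟨k, rfl⟩ := Fin.exists_succAbove_eq hj1
        refine ⟨k, ?_⟩
        change (sdeg i x).1 k = 0
        have hk : k ≠ i := by
          rintro rfl
          exact hj2 (succAbove_self k)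
        rw [sdeg_apply, if_neg hk, add_zero, hj']
    · intro b b' hbb x hx hx'
      have hkey : x.1.2.1 i.castSucc = 0 ∧ x.1.2.1 i.succ = 0 := by
        cases b <;> cases b'
        · exact absurd rfl hbb
        · exact ⟨hx', hx⟩
        · exact ⟨hx, hx'⟩
        · exact absurd rfl hbb
      refine ⟨i, ?_⟩
      rw [sdeg_apply, if_pos rfl, succAbove_self, hkey.1, hkey.2, add_zero]
  have h3 : h.δ q (qT Y n i) (h.map (q + 1) (m₁ Y n i).ba w + h.map (q + 1) (m₂ Y n i).ba w') =
      0 := by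
    rw [hr]
    exact (h.exact_ba q (qT Y n i) _).2 ⟨_, rfl⟩
  rw [map_add] at h3
  have key : ∀ a b : h.H q (SP Y (n + 1)), a + b = 0 → a = b := fun a b hab =>
    add_right_cancel (hab.trans (h.two q (SP Y (n + 1)) b).symm)
  rw [h1, h2]
  exact key _ _ h3

end Pool.QB
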