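import Pool.Agent.MP_c51823_gt.QB.F2a
import Pool.Agent.MP_c51823_gt.QB.F2c

/-!
# [QB-F2] One-step suspensions: assembly of F2a, F2b, F2c. `σ = δ ∘ (toHorn_0^*)⁻¹`; for general `i` induction by
the FACE LEMMA; naturality in `Y` from naturality of `δ` and of `toHorn`.
-/

set_option autoImplicit false
open Topology

namespace Pool.QB

namespace F2_aux

/-- the triple map induced by `g` -/
def hmap {Y Y' : Type} [TopologicalSpace Y] [CompactSpace Y] [T2Space Y] [TopologicalSpace Y']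
    [CompactSpace Y'] [T2Space Y'] (g : C(Y', Y)) (n : ℕ) (i : Fin (n + 2)) :
    CTriple.Map (hornT Y' n i) (hornT Y n i) where
  f := ⟨fun p => (g p.1, p.2), by
    exact (g.continuous.comp continuous_fst).prodMk continuous_snd⟩
  mapsB := fun _ h => h
  mapsA := fun _ h => h

theorem hmap_comp {Y Y' : Type} [TopologicalSpace Y] [CompactSpace Y] [T2Space Y]
    [TopologicalSpace Y'] [CompactSpace Y'] [T2Space Y'] (g : C(Y', Y)) (n : ℕ) (i : Fin (n + 2)) :
    ((hmap g n i).ba).comp (toHorn Y' n i) = (toHorn Y n i).comp (SPmap g n) := rfl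

theorem hmap_xb {Y Y' : Type} [TopologicalSpace Y] [CompactSpace Y] [T2Space Y]
    [TopologicalSpace Y'] [CompactSpace Y'] [T2Space Y'] (g : C(Y', Y)) (n : ℕ) (i : Fin (n + 2)) :
    ((hmap g n i).xb : CPair.Map (SP Y' (n + 1)) (SP Y (n + 1))) = SPmap g (n + 1) := rfl

/-- the suspension isomorphism -/
noncomputable def sig (h : HT) (q n : ℕ) (Y : Type) [TopologicalSpace Y] [CompactSpace Y]
    [T2Space Y] : h.H (q + 1) (SP Y n) ≃+ h.H q (SP Y (n + 1)) :=
  (AddEquiv.ofBijective (h.map (q + 1) (toHorn Y n 0)) (HT.toHorn_bij h (q + 1) n Y 0)).symm.trans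
    (AddEquiv.ofBijective (h.δ q (hornT Y n 0)) (HT.horn_delta_bij h q n Y 0))

theorem sig_zero (h : HT) (q n : ℕ) (Y : Type) [TopologicalSpace Y] [CompactSpace Y]
    [T2Space Y] (w : h.H (q + 1) (hornT Y n 0).BA) :
    (h.δ q (hornT Y n 0) w : h.H q (SP Y (n + 1))) =
      sig h q n Y (h.map (q + 1) (toHorn Y n 0) w) := by
  have e : (AddEquiv.ofBijective (h.map (q + 1) (toHorn Y n 0))
      (HT.toHorn_bij h (q + 1) n Y 0)).symm (h.map (q + 1) (toHorn Y n 0) w) = w :=
    AddEquiv.symm_apply_apply (AddEquiv.ofBijective (h.map (q + 1) (toHorn Y n 0))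
      (HT.toHorn_bij h (q + 1) n Y 0)) w
  unfold sig
  rw [AddEquiv.trans_apply, e]
  rfl

theorem sig_all (h : HT) (q n : ℕ) (Y : Type) [TopologicalSpace Y] [CompactSpace Y]
    [T2Space Y] (i : Fin (n + 2)) : ∀ (w : h.H (q + 1) (hornT Y n i).BA),
    (h.δ q (hornT Y n i) w : h.H q (SP Y (n + 1))) =
      sig h q n Y (h.map (q + 1) (toHorn Y n i) w) := by
  induction i using Fin.induction with
  | zero => exact sig_zero h q n Y
  | succ i ih =>
    intro w'
    obtain ⟨w, hw⟩ := (HT.toHorn_bij h (q + 1) n Y i.castSucc).2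
      (h.map (q + 1) (toHorn Y n i.succ) w')
    rw [← HT.face_lemma h q n Y i w w' hw, ih w, hw]

end F2_aux

open F2_aux in
/-- [QB-F2] One-step suspensions (2.3): `σ_i` is an isomorphism, characterised by
`δ w = σ_i (w | F_i)` for `w ∈ H (q+1) (Y × (∂Δ^{n+1}, horn_i))`; it is natural in `Y` and
independent of `i` (FACE LEMMA). -/
theorem HT.exists_sigma (h : HT) :
    ∃ σ : ∀ (q n : ℕ) (Y : Type) [TopologicalSpace Y] [CompactSpace Y] [T2Space Y],
        h.H (q + 1) (SP Y n) ≃+ h.H q (SP Y (n + 1)),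
      (∀ (q n : ℕ) (Y : Type) [TopologicalSpace Y] [CompactSpace Y] [T2Space Y] (i : Fin (n + 2))
        (w : h.H (q + 1) (hornT Y n i).BA),
        (h.δ q (hornT Y n i) w : h.H q (SP Y (n + 1))) =
          σ q n Y (h.map (q + 1) (toHorn Y n i) w)) ∧
      (∀ (q n : ℕ) (Y Y' : Type) [TopologicalSpace Y] [CompactSpace Y] [T2Space Y]
        [TopologicalSpace Y'] [CompactSpace Y'] [T2Space Y'] (g : C(Y', Y))
        (x : h.H (q + 1) (SP Y n)),
        h.map q (SPmap g (n + 1)) (σ q n Y x) = σ q n Y' (h.map (q + 1) (SPmap g n) x)) := by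
  refine ⟨fun q n Y => sig h q n Y, fun q n Y _ _ _ i w => sig_all h q n Y i w, ?_⟩
  intro q n Y Y' _ _ _ _ _ _ g x
  obtain ⟨w, rfl⟩ := (HT.toHorn_bij h (q + 1) n Y 0).2 x
  rw [← sig_zero h q n Y w]
  have h1 : h.map q (SPmap g (n + 1)) (h.δ q (hornT Y n 0) w) =
      h.δ q (hornT Y' n 0) (h.map (q + 1) (hmap g n 0).ba w) := h.δ_nat q (hmap g n 0) w
  have h2 : h.map (q + 1) (toHorn Y' n 0) (h.map (q + 1) (hmap g n 0).ba w) =
      h.map (q + 1) (SPmap g n) (h.map (q + 1) (toHorn Y n 0) w) := by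
    rw [← h.map_comp, hmap_comp, h.map_comp]
  exact h1.trans ((sig_zero h q n Y' _).trans (by rw [h2]))

end Pool.QB
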