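import Pool.Agent.MP_c51823_gt.QB.FDef

/-!
# [QB-F2a] Horns. Exactness for `(X, horn, ∅)` and homotopy invariance; then exactness for `hornT`.
-/

set_option autoImplicit false
open Topology

namespace Pool.QB

namespace F2a_aux

/-- the triple `(X, X, X)` -/
def fullT (X : Type) [TopologicalSpace X] [CompactSpace X] [T2Space X] : CTriple where
  X := X
  B := Set.univ
  A := Set.univ
  closedB := isClosed_univ
  closedA := isClosed_univ
  sub := fun _ h => h

/-- `H q (X, X) = 0` -/
theorem zero_full (h : HT) (q : ℕ) (X : Type) [TopologicalSpace X] [CompactSpace X] [T2Space X]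
    (x : h.H q ⟨X, Set.univ, isClosed_univ⟩) : x = 0 := by
  have hexc : Function.Bijective (h.map q (fullT X).i) := by
    refine h.excision q _ (fun x _ => Set.mem_univ _) ?_
    have e1 : ((fullT X).BA.A)ᶜ = ∅ := by
      ext x
      simp only [Set.mem_compl_iff, Set.mem_empty_iff_false, iff_false, not_not]
      exact Set.mem_univ _
    have e2 : ((fullT X).XA.A)ᶜ = ∅ := by
      ext x
      simp only [Set.mem_compl_iff, Set.mem_empty_iff_false, iff_false, not_not]
      exact Set.mem_univ _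
    rw [e1, e2]
    exact Set.bijOn_empty _
  have h1 : h.map q (fullT X).i x = 0 := by
    refine (h.exact_xa q (fullT X) x).2 ⟨x, ?_⟩
    exact h.map_id q (fullT X).XA x
  exact hexc.1 (h1.trans (map_zero _).symm)

/-- the vertex `x_i = 1` -/
def vtx {n : ℕ} (i : Fin (n + 2)) : Dl (n + 1) :=
  ⟨Pi.single i 1, single_mem_stdSimplex ℝ i⟩

/-- the straight line from `x` to the vertex -/
def lin {n : ℕ} (i : Fin (n + 2)) (x : Dl (n + 1)) (t : unitInterval) : Dl (n + 1) :=
  ⟨(1 - t.1) • x.1 + t.1 • (vtx i).1,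
    (convex_stdSimplex ℝ (Fin (n + 2))) x.2 (vtx i).2 (by linarith [t.2.2]) t.2.1 (by ring)⟩

end F2a_aux

open F2a_aux in
/-- [QB-F2a] `H q (Y × (Δ^{n+1}, horn_i)) = 0`: both `Δ^{n+1}` and the horn contract linearly to the vertex
opposite to the `i`-th facet (the vertex `x_i = 1`). -/
theorem HT.horn_zero (h : HT) (q n : ℕ) (Y : Type) [TopologicalSpace Y] [CompactSpace Y]
    [T2Space Y] (i : Fin (n + 2)) (x : h.H q (hornT Y n i).XA) : x = 0 := by
  let P' : CPair := ⟨Y, Set.univ, isClosed_univ⟩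
  let f : CPair.Map (hornT Y n i).XA P' := ⟨⟨fun p => p.1, continuous_fst⟩, fun _ _ => Set.mem_univ _⟩
  let g : CPair.Map P' (hornT Y n i).XA := ⟨⟨fun y => (y, vtx i), by fun_prop⟩, fun y _ => by
    obtain ⟨j, hj⟩ := exists_ne i
    exact ⟨j, hj, by simp [vtx, hj]⟩⟩
  have hom : h.map q (CPair.Map.id (hornT Y n i).XA) = h.map q (g.comp f) := by
    refine h.homotopy q _ _ ⟨fun p => (p.1.1, lin i p.1.2 p.2), ?_⟩ ?_ ?_ ?_
    · refine Continuous.prodMk (by fun_prop) ?_
      refine Continuous.subtype_mk ?_ _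
      fun_prop
    · rintro ⟨y, x⟩
      refine Prod.ext rfl (Subtype.ext ?_)
      simp [lin, CPair.Map.id]
    · rintro ⟨y, x⟩
      refine Prod.ext rfl (Subtype.ext ?_)
      simp [lin, CPair.Map.comp, g, f]
    · rintro ⟨y, x⟩ ⟨j, hj, hx⟩ t
      refine ⟨j, hj, ?_⟩
      have hx' : x.1 j = 0 := hx
      change (1 - t.1) * x.1 j + t.1 * (Pi.single i (1 : ℝ) : Fin (n + 2) → ℝ) j = 0
      rw [hx', Pi.single_eq_of_ne hj]; ring
  calc x = h.map q (CPair.Map.id _) x := (h.map_id q _ x).symm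
    _ = h.map q (g.comp f) x := by rw [hom]
    _ = h.map q f (h.map q g x) := h.map_comp q g f x
    _ = 0 := by rw [zero_full h q Y (h.map q g x), map_zero]

theorem HT.horn_delta_bij (h : HT) (q n : ℕ) (Y : Type) [TopologicalSpace Y] [CompactSpace Y]
    [T2Space Y] (i : Fin (n + 2)) : Function.Bijective (h.δ q (hornT Y n i)) := by
  constructor
  · rw [injective_iff_map_eq_zero]
    intro x hx
    obtain ⟨y, rfl⟩ := (h.exact_ba q (hornT Y n i) x).1 hx
    rw [HT.horn_zero h (q + 1) n Y i y, map_zero]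
  · intro x
    exact (h.exact_xb q (hornT Y n i) x).1 (HT.horn_zero h q n Y i _)

end Pool.QB
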