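import Pool.Agent.MP_c51823_gt.QB.F2

/-!
# [QB-F3] Iterated suspensions and the face formula. Proof: QB_PROOF.md (2.4).
`S q n m = σ ∘ … ∘ σ`; for the formula decompose the class on `(∂Δ^{n+1}, sk)` by additivity (F1).
-/

set_option autoImplicit false
open Topology

namespace Pool.QB

namespace F3_aux

theorem face_self {n : ℕ} (i : Fin (n + 2)) (x : Dl n) : (face i x).1 i = 0 := by simp [face]

theorem face_succAbove {n : ℕ} (i : Fin (n + 2)) (x : Dl n) (j : Fin (n + 1)) :
    (face i x).1 (i.succAbove j) = x.1 j := by simp [face]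

theorem dl0_coord (x : Dl 0) (i : Fin (0 + 1)) : x.1 i = 1 := by
  have h1 : ∑ j : Fin (0 + 1), x.1 j = 1 := x.2.2
  have hi : i = 0 := Subsingleton.elim (α := Fin 1) i 0
  subst hi
  simpa using h1

theorem dl0_eq (x x' : Dl 0) : x = x' := by
  apply Subtype.ext
  funext i
  rw [dl0_coord x i, dl0_coord x' i]

/-- The projection `(Y × Δ^0, ∅) → (Y, ∅)`. -/
def pr0 (Y : Type) [TopologicalSpace Y] [CompactSpace Y] [T2Space Y] :
    CPair.Map (SP Y 0) (absP Y) :=
  ⟨⟨Prod.fst, continuous_fst⟩, fun p hp => by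
    obtain ⟨i, hi⟩ := hp
    rw [dl0_coord p.2 i] at hi
    exact absurd hi one_ne_zero⟩

theorem pr0_bij (h : HT) (q : ℕ) (Y : Type) [TopologicalSpace Y] [CompactSpace Y] [T2Space Y] :
    Function.Bijective (h.map q (pr0 Y)) := by
  refine h.excision q _ (fun x hx => hx.elim) ⟨?_, ?_, ?_⟩
  · intro x _ hx
    exact hx.elim
  · intro x _ y _ hxy
    exact Prod.ext hxy (dl0_eq _ _)
  · intro y _
    refine ⟨(y, ⟨fun _ => 1, fun _ => zero_le_one, by simp⟩), ?_, rfl⟩
    rintro ⟨i, hi⟩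
    exact one_ne_zero hi

/-- iterated suspension -/
noncomputable def Sus (h : HT) (σ : ∀ (q n : ℕ) (Y : Type) [TopologicalSpace Y] [CompactSpace Y]
    [T2Space Y], h.H (q + 1) (SP Y n) ≃+ h.H q (SP Y (n + 1))) :
    ∀ (n q m : ℕ) (_ : m = q + n) (Y : Type) [TopologicalSpace Y] [CompactSpace Y] [T2Space Y],
      h.H m (absP Y) ≃+ h.H q (SP Y n)
  | 0, q, m, hm, Y, _, _, _ => by
    have hm' : m = q := hm
    subst hm'
    exact AddEquiv.ofBijective (h.map m (pr0 Y)) (pr0_bij h m Y)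
  | n + 1, q, m, hm, Y, _, _, _ => (Sus h σ n (q + 1) m (by omega) Y).trans (σ q n Y)

theorem Sus_nat (h : HT) (σ : ∀ (q n : ℕ) (Y : Type) [TopologicalSpace Y] [CompactSpace Y]
    [T2Space Y], h.H (q + 1) (SP Y n) ≃+ h.H q (SP Y (n + 1)))
    (hσ : ∀ (q n : ℕ) (Y Y' : Type) [TopologicalSpace Y] [CompactSpace Y] [T2Space Y]
        [TopologicalSpace Y'] [CompactSpace Y'] [T2Space Y'] (g : C(Y', Y))
        (x : h.H (q + 1) (SP Y n)),
        h.map q (SPmap g (n + 1)) (σ q n Y x) = σ q n Y' (h.map (q + 1) (SPmap g n) x)) :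
    ∀ (n q m : ℕ) (hm : m = q + n) (Y Y' : Type) [TopologicalSpace Y] [CompactSpace Y]
        [T2Space Y] [TopologicalSpace Y'] [CompactSpace Y'] [T2Space Y'] (g : C(Y', Y))
        (x : h.H m (absP Y)),
        h.map q (SPmap g n) (Sus h σ n q m hm Y x)
          = Sus h σ n q m hm Y' (h.map m (absMap g) x) := by
  intro n
  induction n with
  | zero =>
    intro q m hm Y Y' _ _ _ _ _ _ g x
    have hm' : m = q := hm
    subst hm'
    show h.map m (SPmap g 0) (h.map m (pr0 Y) x) = h.map m (pr0 Y') (h.map m (absMap g) x)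
    have e1 : h.map m (SPmap g 0) (h.map m (pr0 Y) x)
        = h.map m ((pr0 Y).comp (SPmap g 0)) x := (h.map_comp m _ _ x).symm
    have e2 : h.map m (pr0 Y') (h.map m (absMap g) x)
        = h.map m ((absMap g).comp (pr0 Y')) x := (h.map_comp m _ _ x).symm
    rw [e1, e2]
    rfl
  | succ n ih =>
    intro q m hm Y Y' _ _ _ _ _ _ g x
    show h.map q (SPmap g (n + 1)) (σ q n Y (Sus h σ n (q + 1) m (by omega) Y x))
      = σ q n Y' (Sus h σ n (q + 1) m (by omega) Y' (h.map m (absMap g) x))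
    rw [hσ, ih]

/-- the triple `(Y × Δ^{n+1}, Y × ∂Δ^{n+1}, Y × sk)` -/
def skT (Y : Type) [TopologicalSpace Y] [CompactSpace Y] [T2Space Y] (n : ℕ) : CTriple where
  X := Y × Dl (n + 1)
  B := {p | p.2 ∈ bdD (n + 1)}
  A := {p | ∃ i j, i ≠ j ∧ p.2.1 i = 0 ∧ p.2.1 j = 0}
  closedB := (isClosed_bdD _).preimage continuous_snd
  closedA := by
    have : {p : Y × Dl (n + 1) | ∃ i j, i ≠ j ∧ p.2.1 i = 0 ∧ p.2.1 j = 0}
        = ⋃ i : Fin (n + 2), ⋃ j : {j : Fin (n + 2) // i ≠ j},
          ({p : Y × Dl (n + 1) | p.2.1 i = 0} ∩ {p : Y × Dl (n + 1) | p.2.1 j.1 = 0}) := by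
      ext p
      simp only [Set.mem_ofPred_eq, Set.mem_iUnion, Set.mem_inter_iff, Subtype.exists, exists_prop]
    rw [this]
    refine isClosed_iUnion_of_finite fun i => isClosed_iUnion_of_finite fun j => ?_
    exact (isClosed_eq ((continuous_apply i).comp (continuous_subtype_val.comp continuous_snd))
      continuous_const).inter
      (isClosed_eq ((continuous_apply j.1).comp (continuous_subtype_val.comp continuous_snd))
      continuous_const)
  sub := fun p ⟨i, _, _, hi, _⟩ => ⟨i, hi⟩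

/-- the inclusion of the `i`-th facet -/
noncomputable def fr (Y : Type) [TopologicalSpace Y] [CompactSpace Y] [T2Space Y] (n : ℕ)
    (i : Fin (n + 2)) : CPair.Map (SP Y n) (skT Y n).BA :=
  ⟨⟨fun p => ⟨(p.1, face i p.2), ⟨i, face_self i p.2⟩⟩, by
      exact Continuous.subtype_mk (by fun_prop) _⟩,
    fun p hp => by
      obtain ⟨j, hj⟩ := hp
      exact ⟨i, i.succAbove j, (Fin.succAbove_ne i j).symm, face_self i p.2,
        (face_succAbove i p.2 j).trans hj⟩⟩

/-- the map of triples `(Y × Δ^{n+1}, ∂, sk) → (Y × Δ^{n+1}, ∂, horn_i)` -/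
def toHT (Y : Type) [TopologicalSpace Y] [CompactSpace Y] [T2Space Y] (n : ℕ)
    (i : Fin (n + 2)) : CTriple.Map (skT Y n) (hornT Y n i) :=
  ⟨ContinuousMap.id _, fun _ h => h, fun p ⟨a, b, hab, ha, hb⟩ => by
    by_cases hai : a = i
    · exact ⟨b, fun hbi => hab (hai.trans hbi.symm), hb⟩
    · exact ⟨a, hai, ha⟩⟩

theorem delta_sk (h : HT) (σ : ∀ (q n : ℕ) (Y : Type) [TopologicalSpace Y] [CompactSpace Y]
    [T2Space Y], h.H (q + 1) (SP Y n) ≃+ h.H q (SP Y (n + 1)))
    (hσ : ∀ (q n : ℕ) (Y : Type) [TopologicalSpace Y] [CompactSpace Y] [T2Space Y]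
        (i : Fin (n + 2)) (w : h.H (q + 1) (hornT Y n i).BA),
        (h.δ q (hornT Y n i) w : h.H q (SP Y (n + 1))) =
          σ q n Y (h.map (q + 1) (toHorn Y n i) w))
    (q n : ℕ) (Y : Type) [TopologicalSpace Y] [CompactSpace Y] [T2Space Y]
    (x : h.H (q + 1) (skT Y n).BA) :
    (h.δ q (skT Y n) x : h.H q (SP Y (n + 1)))
      = ∑ i : Fin (n + 2), σ q n Y (h.map (q + 1) (fr Y n i) x) := by
  -- the classes on the horns
  have hw : ∀ i : Fin (n + 2), ∃ w : h.H (q + 1) (hornT Y n i).BA,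
      h.map (q + 1) (toHorn Y n i) w = h.map (q + 1) (fr Y n i) x :=
    fun i => (h.toHorn_bij (q + 1) n Y i).2 _
  choose w hw using hw
  let z : Fin (n + 2) → h.H (q + 1) (skT Y n).BA := fun i => h.map (q + 1) (toHT Y n i).ba (w i)
  have hz1 : ∀ i, h.map (q + 1) (fr Y n i) (z i) = h.map (q + 1) (fr Y n i) x := by
    intro i
    have e1 : h.map (q + 1) (fr Y n i) (z i)
        = h.map (q + 1) ((toHT Y n i).ba.comp (fr Y n i)) (w i) :=
      (h.map_comp (q + 1) (toHT Y n i).ba (fr Y n i) (w i)).symm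
    refine e1.trans (Eq.trans ?_ (hw i))
    rfl
  have hz2 : ∀ i j, j ≠ i → h.map (q + 1) (fr Y n j) (z i) = 0 := by
    intro i j hji
    -- factor through `(Y × Δ^n, Y × Δ^n)`
    let P : CPair := ⟨Y × Dl n, Set.univ, isClosed_univ⟩
    let r : CPair.Map (SP Y n) P := ⟨ContinuousMap.id _, fun _ _ => Set.mem_univ _⟩
    let s : CPair.Map P (hornT Y n i).BA :=
      ⟨⟨fun p => ⟨(p.1, face j p.2), ⟨j, face_self j p.2⟩⟩, by
        exact Continuous.subtype_mk (by fun_prop) _⟩,
      fun p _ => ⟨j, hji, face_self j p.2⟩⟩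
    have e1 : h.map (q + 1) (fr Y n j) (z i)
        = h.map (q + 1) ((toHT Y n i).ba.comp (fr Y n j)) (w i) :=
      (h.map_comp (q + 1) (toHT Y n i).ba (fr Y n j) (w i)).symm
    have e2 : h.map (q + 1) r (h.map (q + 1) s (w i)) = h.map (q + 1) (s.comp r) (w i) :=
      (h.map_comp (q + 1) s r (w i)).symm
    have e3 : h.map (q + 1) ((toHT Y n i).ba.comp (fr Y n j)) (w i)
        = h.map (q + 1) (s.comp r) (w i) := rfl
    have e4 : h.map (q + 1) s (w i) = 0 := h.self_zero (q + 1) P (fun y => Set.mem_univ y) _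
    rw [e1, e3, ← e2, e4, map_zero]
  -- additivity
  have hx : x = ∑ i, z i := by
    let B' : Set (Y × Dl (n + 1)) := {p | p.2 ∈ bdD (n + 1)}
    have hB' : IsClosed B' := (isClosed_bdD _).preimage continuous_snd
    have : CompactSpace B' := isCompact_iff_compactSpace.mp hB'.isCompact
    let A' : Set B' := Subtype.val ⁻¹' (skT Y n).A
    have hA' : IsClosed A' := (skT Y n).closedA.preimage continuous_subtype_val
    let F : Fin (n + 2) → Set B' := fun i => {p | p.1.2.1 i = 0}
    have hF : ∀ i, IsClosed (F i) := fun i =>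
      isClosed_eq ((continuous_apply i).comp (continuous_subtype_val.comp
        (continuous_snd.comp continuous_subtype_val))) continuous_const
    have add := h.additivity (q + 1) B' A' hA' F hF
      (fun p => Or.inr (by
        obtain ⟨i, hi⟩ := p.2
        exact ⟨i, hi⟩))
      (fun i j hij p hi hj => ⟨i, j, hij, hi, hj⟩)
    apply add.1
    funext j
    -- the homeomorphism `(Y × Δ^n, ∂) → (F_j, F_j ∩ sk)`
    let g : CPair.Map (SP Y n) (subP (F j) A' (hF j) hA') :=
      ⟨⟨fun p => ⟨(fr Y n j).f p, by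
          exact face_self j p.2⟩, by
        exact Continuous.subtype_mk (fr Y n j).f.continuous _⟩,
      fun p hp => (fr Y n j).maps p hp⟩
    have hg : Function.Injective (h.map (q + 1) g) := by
      refine (h.excision (q + 1) g ?_ ⟨?_, ?_, ?_⟩).1
      · intro p hp
        obtain ⟨a, b, hab, ha, hb⟩ := hp
        have ha' : (face j p.2).1 a = 0 := ha
        have hb' : (face j p.2).1 b = 0 := hb
        by_cases haj : a = j
        · have hbj : b ≠ j := fun hbj => hab (haj.trans hbj.symm)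
          obtain ⟨k, hk⟩ := Fin.exists_succAbove_eq hbj
          refine ⟨k, ?_⟩
          rw [← hk] at hb'
          exact (face_succAbove j p.2 k).symm.trans hb'
        · obtain ⟨k, hk⟩ := Fin.exists_succAbove_eq haj
          refine ⟨k, ?_⟩
          rw [← hk] at ha'
          exact (face_succAbove j p.2 k).symm.trans ha'
      · intro p hp hp'
        apply hp
        obtain ⟨a, b, hab, ha, hb⟩ := hp'
        have ha' : (face j p.2).1 a = 0 := ha
        have hb' : (face j p.2).1 b = 0 := hb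
        by_cases haj : a = j
        · have hbj : b ≠ j := fun hbj => hab (haj.trans hbj.symm)
          obtain ⟨k, hk⟩ := Fin.exists_succAbove_eq hbj
          refine ⟨k, ?_⟩
          rw [← hk] at hb'
          exact (face_succAbove j p.2 k).symm.trans hb'
        · obtain ⟨k, hk⟩ := Fin.exists_succAbove_eq haj
          refine ⟨k, ?_⟩
          rw [← hk] at ha'
          exact (face_succAbove j p.2 k).symm.trans ha'
      · intro p _ p' _ hpp
        have h1 : ((p.1, face j p.2) : Y × Dl (n + 1)) = (p'.1, face j p'.2) :=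
          congrArg (fun t : F j => t.1.1) hpp
        have h2 : p.1 = p'.1 := (Prod.ext_iff.mp h1).1
        have h3 : face j p.2 = face j p'.2 := (Prod.ext_iff.mp h1).2
        refine Prod.ext h2 (Subtype.ext (funext fun k => ?_))
        have h4 : (face j p.2).1 (j.succAbove k) = (face j p'.2).1 (j.succAbove k) := by rw [h3]
        exact (face_succAbove j p.2 k).symm.trans (h4.trans (face_succAbove j p'.2 k))
      · rintro ⟨⟨⟨y, t⟩, hB⟩, hFj⟩ hA2
        have hFj' : t.1 j = 0 := hFj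
        let t' : Dl n := ⟨fun k => t.1 (j.succAbove k), fun k => t.2.1 _, by
          have := t.2.2
          rw [Fin.sum_univ_succAbove _ j, hFj', zero_add] at this
          exact this⟩
        have ht' : face j t' = t := by
          apply Subtype.ext
          funext k
          refine Fin.succAboveCases j ?_ (fun l => ?_) k
          · simp [face, hFj']
          · simp [face, t']
        refine ⟨(y, t'), ?_, ?_⟩
        · rintro ⟨k, hk⟩
          exact hA2 ⟨j, j.succAbove k, (Fin.succAbove_ne j k).symm, hFj', hk⟩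
        · apply Subtype.ext
          apply Subtype.ext
          exact Prod.ext rfl ht'
    apply hg
    have e1 : ∀ v : h.H (q + 1) (skT Y n).BA,
        h.map (q + 1) g (h.map (q + 1) (subPi (F j) A' (hF j) hA') v)
          = h.map (q + 1) (fr Y n j) v := by
      intro v
      exact (h.map_comp (q + 1) (subPi (F j) A' (hF j) hA') g v).symm
    refine (e1 x).trans (Eq.trans ?_ (e1 (∑ i, z i)).symm)
    rw [map_sum, Finset.sum_eq_single j]
    · exact (hz1 j).symm
    · intro i _ hij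
      exact hz2 i j hij.symm
    · intro hj
      exact (hj (Finset.mem_univ j)).elim
  have hd : ∀ i, (h.δ q (skT Y n) (z i) : h.H q (SP Y (n + 1)))
      = σ q n Y (h.map (q + 1) (fr Y n i) x) := by
    intro i
    have e1 := h.δ_nat q (toHT Y n i) (w i)
    have e2 : h.map q (toHT Y n i).xb (h.δ q (hornT Y n i) (w i))
        = (h.δ q (hornT Y n i) (w i) : h.H q (SP Y (n + 1))) :=
      h.map_id q (SP Y (n + 1)) _
    have e3 := hσ q n Y i (w i)
    rw [hw i] at e3
    exact (e1.symm.trans e2).trans e3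
  have e5 : (h.δ q (skT Y n) x : h.H q (SP Y (n + 1)))
      = ∑ i, (h.δ q (skT Y n) (z i) : h.H q (SP Y (n + 1))) :=
    (congrArg (h.δ q (skT Y n)) hx).trans (map_sum (h.δ q (skT Y n)) z Finset.univ)
  rw [e5]
  exact Finset.sum_congr rfl fun i _ => hd i

end F3_aux

open F3_aux

/-- [QB-F3] Face formula (2.4) and iterated suspensions: there are isomorphisms
`Σ^n : H m Y ≃ H q (Y × (Δ^n, ∂Δ^n))`, `m = q + n`, natural in `Y`, trivial for `n = 0`, and for every
triple `T` and `χ : Y × Δ^{n+1} → T.X` mapping the boundary to `T.B` and the codimension 2 skeleton to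
`T.A`, `(Σ^{n+1})^{-1} χ^* δ x = ∑_i (Σ^n)^{-1} (χ|F_i)^* x`. -/
theorem HT.exists_susp (h : HT) :
    ∃ S : ∀ (q n m : ℕ) (_ : m = q + n) (Y : Type) [TopologicalSpace Y] [CompactSpace Y]
        [T2Space Y], h.H m (absP Y) ≃+ h.H q (SP Y n),
      (∀ (q n m : ℕ) (hm : m = q + n) (Y Y' : Type) [TopologicalSpace Y] [CompactSpace Y]
        [T2Space Y] [TopologicalSpace Y'] [CompactSpace Y'] [T2Space Y'] (g : C(Y', Y))
        (x : h.H m (absP Y)),
        h.map q (SPmap g n) (S q n m hm Y x) = S q n m hm Y' (h.map m (absMap g) x)) ∧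
      (∀ (q n m : ℕ) (h1 : m = q + (n + 1)) (h2 : m = (q + 1) + n) (Y : Type)
        [TopologicalSpace Y] [CompactSpace Y] [T2Space Y] (T : CTriple)
        (χ : C(Y × Dl (n + 1), T.X))
        (hB : ∀ (y : Y) (x : Dl (n + 1)), (∃ i, x.1 i = 0) → χ (y, x) ∈ T.B)
        (hA : ∀ (y : Y) (x : Dl (n + 1)), (∃ i j, i ≠ j ∧ x.1 i = 0 ∧ x.1 j = 0) →
          χ (y, x) ∈ T.A) (x : h.H (q + 1) T.BA),
        (S q (n + 1) m h1 Y).symm (h.map q (⟨χ, fun p hp => hB p.1 p.2 hp⟩ :
            CPair.Map (SP Y (n + 1)) T.XB) (h.δ q T x)) =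
          ∑ i : Fin (n + 2), (S (q + 1) n m h2 Y).symm (h.map (q + 1) (faceRestr χ hB hA i) x)) := by
  obtain ⟨σ, hσ1, hσ2⟩ := h.exists_sigma
  refine ⟨fun q n m hm Y => Sus h σ n q m hm Y, ?_, ?_⟩
  · intro q n m hm Y Y' _ _ _ _ _ _ g x
    exact Sus_nat h σ hσ2 n q m hm Y Y' g x
  · intro q n m h1 h2 Y _ _ _ T χ hB hA x
    -- the map of triples
    let M : CTriple.Map (skT Y n) T := ⟨χ, fun p hp => hB p.1 p.2 hp, fun p hp => hA p.1 p.2 hp⟩
    have e1 : (h.map q (⟨χ, fun p hp => hB p.1 p.2 hp⟩ :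
            CPair.Map (SP Y (n + 1)) T.XB) (h.δ q T x))
        = (h.δ q (skT Y n) (h.map (q + 1) M.ba x) : h.H q (SP Y (n + 1))) := h.δ_nat q M x
    have e2 := delta_sk h σ hσ1 q n Y (h.map (q + 1) M.ba x)
    have e3 : ∀ i, h.map (q + 1) (fr Y n i) (h.map (q + 1) M.ba x)
        = h.map (q + 1) (faceRestr χ hB hA i) x := by
      intro i
      exact (h.map_comp (q + 1) M.ba (fr Y n i) x).symm
    have e4 : ∀ v : h.H q (SP Y (n + 1)), (Sus h σ (n + 1) q m h1 Y).symm v
        = (Sus h σ n (q + 1) m h2 Y).symm ((σ q n Y).symm v) := fun v => rfl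
    show (Sus h σ (n + 1) q m h1 Y).symm _ = ∑ i, (Sus h σ n (q + 1) m h2 Y).symm _
    rw [e1, e2, e4, map_sum, map_sum]
    refine Finset.sum_congr rfl fun i _ => ?_
    rw [AddEquiv.symm_apply_apply, e3 i]

end Pool.QB
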