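import Pool.Agent.MP_c51823_gt.QB.F3

/-!
# [QB-F4] The sphere class. Proof: QB_PROOF.md (2.5). `S4 ≃ ∂Δ^5`; `H 0 (∂Δ^5, horn) ≃ H 0 (Δ^4, ∂Δ^4) ≃ H 4 pt`,
which is `≠ 0` by `h.pt4`, injects into `H 0 (∂Δ^5)` as the horn is contractible; every point of `S4` can be joined
to a point of the horn.
-/

set_option autoImplicit false
open Topology

namespace Pool.QB

/-- the vertices of the standard simplex -/
noncomputable def f4vert {n : ℕ} (i : Fin (n + 1)) : Dl n :=
  ⟨fun j => if j = i then 1 else 0, fun j => by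
    change (0 : ℝ) ≤ if j = i then 1 else 0
    split_ifs <;> norm_num, by simp⟩

/-- straight lines in the standard simplex -/
noncomputable def f4line {n : ℕ} (v : Dl n) : C(Dl n × unitInterval, Dl n) where
  toFun p := ⟨fun j => (1 - (p.2 : ℝ)) * p.1.1 j + (p.2 : ℝ) * v.1 j, by
    refine ⟨fun j => ?_, ?_⟩
    · have h1 : (0 : ℝ) ≤ 1 - (p.2 : ℝ) := sub_nonneg.2 p.2.2.2
      have h2 : (0 : ℝ) ≤ (p.2 : ℝ) := p.2.2.1
      have h3 : (0 : ℝ) ≤ p.1.1 j := p.1.2.1 j
      have h4 : (0 : ℝ) ≤ v.1 j := v.2.1 j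
      positivity
    · rw [Finset.sum_add_distrib, ← Finset.mul_sum, ← Finset.mul_sum]
      have h1 : ∑ j, p.1.1 j = 1 := p.1.2.2
      have h2 : ∑ j, v.1 j = 1 := v.2.2
      rw [h1, h2]
      ring⟩
  continuous_toFun := by
    refine Continuous.subtype_mk (continuous_pi fun j => ?_) _
    have h1 : Continuous fun p : Dl n × unitInterval => (p.2 : ℝ) :=
      continuous_subtype_val.comp continuous_snd
    have h2 : Continuous fun p : Dl n × unitInterval => p.1.1 j :=
      (continuous_apply j).comp (continuous_subtype_val.comp continuous_fst)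
    exact ((continuous_const.sub h1).mul h2).add (h1.mul continuous_const)

theorem f4line_apply {n : ℕ} (v x : Dl n) (t : unitInterval) (j : Fin (n + 1)) :
    (f4line v (x, t)).1 j = (1 - (t : ℝ)) * x.1 j + (t : ℝ) * v.1 j := rfl

theorem f4line_zero {n : ℕ} (v x : Dl n) : f4line v (x, 0) = x := by
  refine Subtype.ext (funext fun j => ?_)
  rw [f4line_apply]
  simp

theorem f4line_one {n : ℕ} (v x : Dl n) : f4line v (x, 1) = v := by
  refine Subtype.ext (funext fun j => ?_)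
  rw [f4line_apply]
  simp

/-- the triple `(X, A, ∅)` -/
def f4trip (P : CPair) : CTriple where
  X := P.X
  B := P.A
  A := ∅
  closedB := P.closed
  closedA := isClosed_empty
  sub := Set.empty_subset _

/-- the pair `(∂Δ^5, horn)` (times a point) -/
noncomputable abbrev f4P : CPair := (hornT PUnit 4 0).BA

/-- the coordinates of a point of the horn -/
noncomputable def f4val : C((f4trip f4P).BA.X, PUnit × Dl 5) :=
  (hornT PUnit 4 0).i.f.comp (f4trip f4P).i.f

/-- the contraction of the horn -/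
noncomputable def f4F : C((f4trip f4P).BA.X × unitInterval, (f4trip f4P).BA.X) where
  toFun p := ⟨⟨(p.1.1.1.1, f4line (f4vert 0) (p.1.1.1.2, p.2)), by
      obtain ⟨j, hj0, hj⟩ := p.1.2
      refine ⟨j, ?_⟩
      change (1 - (p.2 : ℝ)) * p.1.1.1.2.1 j + (p.2 : ℝ) * (if j = 0 then 1 else 0) = 0
      rw [hj, if_neg hj0]
      ring⟩, by
      obtain ⟨j, hj0, hj⟩ := p.1.2
      refine ⟨j, hj0, ?_⟩
      change (1 - (p.2 : ℝ)) * p.1.1.1.2.1 j + (p.2 : ℝ) * (if j = 0 then 1 else 0) = 0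
      rw [hj, if_neg hj0]
      ring⟩
  continuous_toFun := by
    refine Continuous.subtype_mk (Continuous.subtype_mk ?_ _) _
    have h1 : Continuous fun p : (f4trip f4P).BA.X × unitInterval => f4val p.1 :=
      f4val.continuous.comp continuous_fst
    exact (continuous_fst.comp h1).prodMk
      ((f4line (f4vert 0)).continuous.comp ((continuous_snd.comp h1).prodMk continuous_snd))

/-- the vertex of the horn -/
noncomputable def f4pt : (f4trip f4P).BA.X :=
  ⟨⟨(PUnit.unit, f4vert 0), ⟨1, by simp [f4vert]⟩⟩, ⟨1, by decide, by simp [f4vert]⟩⟩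

/-- the constant map to the horn -/
noncomputable def f4cst : CPair.Map (absP PUnit) (f4trip f4P).BA :=
  ⟨⟨fun _ => f4pt, continuous_const⟩, fun _ h => h.elim⟩

/-- `(∂Δ^5, ∅) → pt` -/
def f4c : CPair.Map (f4trip f4P).XA (absP PUnit) :=
  ⟨⟨fun _ => PUnit.unit, continuous_const⟩, fun _ h => h.elim⟩

theorem f4_horn (h : HT) (q : ℕ) (y : h.H q (f4trip f4P).BA) :
    h.map q (f4trip f4P).i (h.map q f4c (h.map q f4cst y)) = y := by
  rw [← h.map_comp, ← h.map_comp]
  have key : h.map q (CPair.Map.id (f4trip f4P).BA) =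
      h.map q (f4cst.comp (f4c.comp (f4trip f4P).i)) := by
    refine h.homotopy q _ _ f4F ?_ ?_ ?_
    · intro x
      refine Subtype.ext (Subtype.ext (Prod.ext rfl ?_))
      exact f4line_zero _ _
    · intro x
      refine Subtype.ext (Subtype.ext (Prod.ext rfl ?_))
      exact f4line_one _ _
    · intro x hx
      exact False.elim hx
  have h2 := h.map_id q (f4trip f4P).BA y
  rw [key] at h2
  exact h2

theorem f4_inj (h : HT) (x : h.H 0 (f4trip f4P).XB) (hx : h.map 0 (f4trip f4P).j x = 0) : x = 0 := by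
  obtain ⟨y, hy⟩ := (h.exact_xb 0 (f4trip f4P) x).1 hx
  rw [← hy]
  exact (h.exact_ba 0 (f4trip f4P) y).2 ⟨_, f4_horn h 1 y⟩

theorem f4_mem_S4 (x : S4) : ∃ i ∈ Finset.range 6, x.1 i = 0 := by
  obtain ⟨s, hs, h0, h1, h2⟩ := x.2
  obtain ⟨hs1, hs2, hs3⟩ := Finset.mem_filter.1 hs
  have hsub := Finset.mem_powerset.1 hs1
  obtain ⟨i, hi, his⟩ := Finset.exists_of_ssubset (Finset.ssubset_iff_subset_ne.2 ⟨hsub, hs3⟩)
  exact ⟨i, hi, h1 i his⟩

theorem f4_sum_S4 (x : S4) : ∑ i : Fin 6, x.1 i = 1 := by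
  obtain ⟨s, hs, h0, h1, h2⟩ := x.2
  obtain ⟨hs1, hs2, hs3⟩ := Finset.mem_filter.1 hs
  have hsub := Finset.mem_powerset.1 hs1
  rw [Fin.sum_univ_eq_sum_range (fun i => x.1 i) 6, ← h2]
  exact (Finset.sum_subset hsub fun i _ hi => h1 i hi).symm

theorem f4_nonneg_S4 (x : S4) (i : ℕ) : 0 ≤ x.1 i := by
  obtain ⟨s, hs, h0, h1, h2⟩ := x.2
  exact h0 i

/-- `S4 → ∂Δ^5` -/
noncomputable def f4phi : CPair.Map (absP S4) (f4trip f4P).XA :=
  ⟨⟨fun x => ⟨(PUnit.unit, ⟨fun i : Fin 6 => x.1 i, fun i => f4_nonneg_S4 x i,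
      f4_sum_S4 x⟩), by
      obtain ⟨i, hi, h⟩ := f4_mem_S4 x
      exact ⟨⟨i, Finset.mem_range.1 hi⟩, h⟩⟩, by
    refine Continuous.subtype_mk (Continuous.prodMk continuous_const
      (Continuous.subtype_mk (continuous_pi fun i => ?_) _)) _
    exact (continuous_apply (i : ℕ)).comp continuous_subtype_val⟩, fun _ h => h.elim⟩

theorem f4_mem (x : Dl 5) (hx : x ∈ bdD 5) :
    (fun n => if h : n < 6 then x.1 ⟨n, h⟩ else 0) ∈ S4 := by
  obtain ⟨i, hi⟩ := hx
  refine ⟨(Finset.range 6).erase i, ?_, ?_, ?_, ?_⟩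
  · refine Finset.mem_filter.2 ⟨Finset.mem_powerset.2 (Finset.erase_subset _ _), ?_, ?_⟩
    · rw [← Finset.card_pos, Finset.card_erase_of_mem (Finset.mem_range.2 i.2),
        Finset.card_range]
      norm_num
    · intro h
      have : (i : ℕ) ∈ (Finset.range 6).erase i := by
        rw [h]
        exact Finset.mem_range.2 i.2
      exact (Finset.notMem_erase _ _) this
  · intro n
    change (0 : ℝ) ≤ if h : n < 6 then x.1 ⟨n, h⟩ else 0
    split_ifs with h
    · exact x.2.1 ⟨n, h⟩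
    · exact le_rfl
  · intro n hn
    change (if h : n < 6 then x.1 ⟨n, h⟩ else 0) = 0
    by_cases h : n < 6
    · have hni : n = i := by
        by_contra hne
        exact hn (Finset.mem_erase.2 ⟨hne, Finset.mem_range.2 h⟩)
      rw [dif_pos h]
      have : (⟨n, h⟩ : Fin 6) = i := Fin.ext hni
      rw [this]
      exact hi
    · rw [dif_neg h]
  · have h6 : ((i : Fin 6) : ℕ) < 6 := i.2
    have e1 : ∑ n ∈ (Finset.range 6).erase i,
        (if h : n < 6 then x.1 ⟨n, h⟩ else 0) =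
        ∑ n ∈ Finset.range 6, (if h : n < 6 then x.1 ⟨n, h⟩ else 0) := by
      refine Finset.sum_erase _ ?_
      rw [dif_pos h6]
      exact hi
    rw [e1, ← Fin.sum_univ_eq_sum_range
      (fun n => if h : n < 6 then x.1 ⟨n, h⟩ else 0) 6]
    have e2 : ∀ j : Fin 6, (if h : (j : ℕ) < 6 then x.1 ⟨j, h⟩ else 0) = x.1 j :=
      fun j => dif_pos j.2
    rw [Finset.sum_congr rfl fun j _ => e2 j]
    exact x.2.2

/-- `∂Δ^5 → S4` -/
noncomputable def f4psi : CPair.Map (f4trip f4P).XA (absP S4) :=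
  ⟨⟨fun y => ⟨fun n => if h : n < 6 then ((hornT PUnit 4 0).i.f y).2.1 ⟨n, h⟩ else 0,
      f4_mem _ y.2⟩, by
    refine Continuous.subtype_mk (continuous_pi fun n => ?_) _
    by_cases h : n < 6
    · simp only [dif_pos h]
      exact (continuous_apply (⟨n, h⟩ : Fin 6)).comp (continuous_subtype_val.comp
        (continuous_snd.comp (hornT PUnit 4 0).i.f.continuous))
    · simp only [dif_neg h]
      exact continuous_const⟩, fun _ h => h.elim⟩

theorem f4_phi_psi : f4phi.comp f4psi = CPair.Map.id (f4trip f4P).XA := by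
  have : (f4phi.comp f4psi).f = ContinuousMap.id (f4trip f4P).XA.X := by
    ext1 y
    refine Subtype.ext (Prod.ext rfl (Subtype.ext (funext fun j => ?_)))
    change (if h : ((j : Fin 6) : ℕ) < 6 then y.1.2.1 ⟨j, h⟩ else 0) = y.1.2.1 j
    exact dif_pos j.2
  cases hm : f4phi.comp f4psi with
  | mk f maps =>
    rw [hm] at this
    simp only at this
    subst this
    rfl

/-- every point of `∂Δ^5` can be joined to a point of the horn -/
theorem f4_path (y : f4P.X) : ∃ F : C(unitInterval, f4P.X), F 0 = y ∧ F 1 ∈ f4P.A := by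
  by_cases hy : y ∈ f4P.A
  · exact ⟨ContinuousMap.const _ y, rfl, hy⟩
  · obtain ⟨i, hi⟩ := y.2
    have hi0 : i = 0 := by
      by_contra hne
      exact hy ⟨i, hne, hi⟩
    subst hi0
    have hF : ∀ t : unitInterval, (f4line (f4vert 1) (y.1.2, t)).1 0 = 0 := by
      intro t
      rw [f4line_apply, hi]
      simp [f4vert]
    refine ⟨⟨fun t => ⟨(y.1.1, f4line (f4vert 1) (y.1.2, t)), ⟨0, hF t⟩⟩, ?_⟩, ?_, ?_⟩
    · refine Continuous.subtype_mk (continuous_const.prodMk ?_) _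
      exact (f4line (f4vert 1)).continuous.comp (continuous_const.prodMk continuous_id)
    · refine Subtype.ext (Prod.ext rfl ?_)
      exact f4line_zero _ _
    · refine ⟨2, by decide, ?_⟩
      change (f4line (f4vert 1) (y.1.2, 1)).1 2 = 0
      rw [f4line_one]
      simp [f4vert]

/-- [QB-F4] The sphere class (2.5). -/
theorem HT.exists_u (h : HT) : ∃ u : h.H 0 (absP S4), u ≠ 0 ∧
    ∀ f : C(PUnit, S4), h.map 0 (absMap f) u = 0 := by
  obtain ⟨w4, hw4⟩ := h.pt4
  obtain ⟨S, -, -⟩ := h.exists_susp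
  have hS : S 0 4 4 rfl PUnit w4 ≠ 0 := by
    intro h0
    exact hw4 ((S 0 4 4 rfl PUnit).map_eq_zero_iff.1 h0)
  obtain ⟨w1, hw1⟩ := (h.toHorn_bij 0 4 PUnit 0).2 (S 0 4 4 rfl PUnit w4)
  have hw1' : w1 ≠ 0 := by
    intro h0
    rw [h0, map_zero] at hw1
    exact hS hw1.symm
  obtain ⟨w, hw0⟩ : ∃ w : h.H 0 (f4trip f4P).XB, w ≠ 0 := ⟨w1, hw1'⟩
  have hj : h.map 0 (f4trip f4P).j w ≠ 0 := fun h0 => hw0 (f4_inj h w h0)
  refine ⟨h.map 0 f4phi (h.map 0 (f4trip f4P).j w), ?_, ?_⟩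
  · intro h0
    apply hj
    have h1 : h.map 0 f4psi (h.map 0 f4phi (h.map 0 (f4trip f4P).j w)) = 0 := by
      rw [h0, map_zero]
    rw [← h.map_comp, f4_phi_psi, h.map_id] at h1
    exact h1
  · intro f
    rw [← h.map_comp, ← h.map_comp]
    obtain ⟨F, hF0, hF1⟩ := f4_path ((f4phi.f) (f PUnit.unit))
    let Q : CPair := ⟨PUnit, Set.univ, isClosed_univ⟩
    let m1 : CPair.Map (absP PUnit) Q := ⟨ContinuousMap.id _, fun _ _ => trivial⟩
    let m2 : CPair.Map Q (f4trip f4P).XB := ⟨⟨fun _ => F 1, continuous_const⟩, fun _ _ => hF1⟩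
    have key : h.map 0 ((f4trip f4P).j.comp (f4phi.comp (absMap f))) =
        h.map 0 (m2.comp m1) := by
      refine h.homotopy 0 _ _ (F.comp ⟨Prod.snd, continuous_snd⟩) ?_ ?_ ?_
      · intro x
        exact hF0
      · intro x
        rfl
      · intro x hx
        exact False.elim hx
    rw [key, h.map_comp, h.self_zero 0 Q (fun _ => trivial) (h.map 0 m2 w), map_zero]

end Pool.QB
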