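import Pool.Agent.MP_c51823_gt.QB.FDef

/-!
# [QB-F5] Line operators. Proofs: QB_PROOF.md (2.1). (a) apply `L` on `X × [0,1]`; (b) `mu` is symmetric;
(c) `g' = mu(g, line 1)` up to the equality of degrees, `L_mul`, `L_const`; (d) `(L-1)^{2^j} = L^{2^j} - 1` as `2 = 0`.
-/

set_option autoImplicit false
open Topology

namespace Pool.QB

theorem mapExt {P Q : CPair} {f g : CPair.Map P Q} (h : ∀ x, f.f x = g.f x) : f = g := by
  cases f with
  | mk f hf =>
    cases g with
    | mk g hg =>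
      have : f = g := ContinuousMap.ext h
      subst this
      rfl

theorem two_pow_sub {A : Type*} [AddCommGroup A] (h2 : ∀ x : A, x + x = 0) (f : A →+ A) (j : ℕ)
    (x : A) : (fun y => f y - y)^[2 ^ j] x = f^[2 ^ j] x - x := by
  induction j generalizing x with
  | zero => simp
  | succ j ih =>
    rw [pow_succ, mul_two, Function.iterate_add_apply, Function.iterate_add_apply, ih, ih,
      iterate_map_sub]
    have h3 : ∀ y : A, -y = y := fun y => by
      rw [neg_eq_iff_add_eq_zero]; exact h2 y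
    have h4 : f^[2 ^ j] (f^[2 ^ j] x) - f^[2 ^ j] x - (f^[2 ^ j] x - x) =
        f^[2 ^ j] (f^[2 ^ j] x) + x - (f^[2 ^ j] x + f^[2 ^ j] x) := by abel
    rw [h4, h2, sub_zero, sub_eq_add_neg, h3]

section
variable (h : HT) (q : ℕ) {X : Type} [TopologicalSpace X] [CompactSpace X] [T2Space X]

theorem HT.L_cast {n m : ℕ} (hnm : n = m) (g : C(X, CP n)) (g' : C(X, CP m))
    (hg : ∀ x, (g' x).1 = (g x).1) : h.L q g' = h.L q g := by
  subst hnm
  have : g' = g := ContinuousMap.ext fun x => Subtype.ext (hg x)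
  rw [this]

/-- [QB-F5a] homotopy invariance of `L` -/
theorem HT.L_homotopy {a : ℕ} (g g' : C(X, CP a)) (F : C(X × unitInterval, CP a))
    (h0 : ∀ x, F (x, 0) = g x) (h1 : ∀ x, F (x, 1) = g' x) : h.L q g = h.L q g' := by
  let i0 : C(X, X × unitInterval) := ⟨fun x => (x, 0), by fun_prop⟩
  let i1 : C(X, X × unitInterval) := ⟨fun x => (x, 1), by fun_prop⟩
  let pr : C(X × unitInterval, X) := ⟨Prod.fst, continuous_fst⟩
  have e0 : F.comp i0 = g := ContinuousMap.ext h0
  have e1 : F.comp i1 = g' := ContinuousMap.ext h1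
  have p0 : (absMap pr).comp (absMap i0) = CPair.Map.id (absP X) := mapExt fun x => rfl
  have p1 : (absMap pr).comp (absMap i1) = CPair.Map.id (absP X) := mapExt fun x => rfl
  have hh : h.map q (absMap i0) = h.map q (absMap i1) :=
    h.homotopy q (absMap i0) (absMap i1)
      (⟨fun p => (p.1, p.2), by exact (continuous_fst.prodMk continuous_snd)⟩ :
        C((absP X).X × unitInterval, (absP (X × unitInterval)).X))
      (fun x => rfl) (fun x => rfl) (fun x hx => hx.elim)
  ext x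
  have k0 : h.map q (absMap i0) (h.map q (absMap pr) x) = x := by
    rw [← h.map_comp, p0, h.map_id]
  have k1 : h.map q (absMap i1) (h.map q (absMap pr) x) = x := by
    rw [← h.map_comp, p1, h.map_id]
  have l0 := h.L_nat q i0 F (h.map q (absMap pr) x)
  have l1 := h.L_nat q i1 F (h.map q (absMap pr) x)
  rw [k0, e0] at l0
  rw [k1, e1] at l1
  rw [← l0, ← l1, hh]

/-- [QB-F5b] the operators commute -/
theorem HT.L_comm {a b : ℕ} (g : C(X, CP a)) (g' : C(X, CP b)) (x : h.H q (absP X)) :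
    h.L q g (h.L q g' x) = h.L q g' (h.L q g x) := by
  rw [← h.L_mul, ← h.L_mul]
  rw [h.L_cast q (Nat.add_comm b a) ((mu b a).comp (g'.prodMk g)) ((mu a b).comp (g.prodMk g'))]
  intro y
  obtain ⟨p, hp, hpa, hep⟩ := (g y).2
  obtain ⟨r, hr, hrb, her⟩ := (g' y).2
  have e1 : g y = ⟨line p, line_mem hp hpa⟩ := Subtype.ext hep
  have e2 : g' y = ⟨line r, line_mem hr hrb⟩ := Subtype.ext her
  show (mu a b (g y, g' y)).1 = (mu b a (g' y, g y)).1
  rw [e1, e2, mu_line p r hp hr hpa hrb, mu_line r p hr hp hrb hpa, mul_comm]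

/-- [QB-F5c] enlarging the projective space -/
theorem HT.L_incl {a b : ℕ} (hab : a ≤ b) (g : C(X, CP a)) (g' : C(X, CP b))
    (hg : ∀ x, (g' x).1 = (g x).1) : h.L q g' = h.L q g := by
  have h1 : (1 : Polynomial ℂ) ≠ 0 := one_ne_zero
  let c : C(X, CP (b - a)) := ContinuousMap.const X ⟨line 1, line_mem h1 (by simp)⟩
  rw [h.L_cast q (show a + (b - a) = b by omega) ((mu a (b - a)).comp (g.prodMk c)) g']
  · ext x
    rw [h.L_mul, h.L_const q c x (fun _ _ => rfl)]
  · intro y
    obtain ⟨p, hp, hpa, hep⟩ := (g y).2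
    have e1 : g y = ⟨line p, line_mem hp hpa⟩ := Subtype.ext hep
    show (g' y).1 = (mu a (b - a) (g y, c y)).1
    have e2 : c y = ⟨line 1, line_mem h1 (by simp)⟩ := rfl
    rw [hg, e1, e2, mu_line p 1 hp h1 hpa (by simp), mul_one]

/-- [QB-F5d] `L^{2^j} = 1` on `CP^{2^j-1}`. -/
theorem HT.L_pow {j : ℕ} (g : C(X, CP (2 ^ j - 1))) (x : h.H q (absP X)) :
    (h.L q g)^[2 ^ j] x = x := by
  have h1 := h.L_nil q g x
  have h2 : 2 ^ j - 1 + 1 = 2 ^ j := Nat.sub_add_cancel Nat.one_le_two_pow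
  rw [h2, two_pow_sub (h.two q (absP X))] at h1
  exact sub_eq_zero.1 h1

end

end Pool.QB
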