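import Pool.Agent.MP_c51823_gt.QB.L0

/-!
# [QB-L2] Compactness: the closed sets `{y ∈ G (i+k) : ∃ t, g (tr y, t) ≥ c}` would form an inverse system of
nonempty compact sets, whose limit gives a point of `lim`.
-/

set_option autoImplicit false
open Topology

namespace Pool.QB

/-- extend a point of `G N` downwards (and by `d` upwards) -/
noncomputable def Sys.l2down (S : Sys) (d : ∀ j, S.G j) : ∀ N, S.G N → ∀ j, S.G j
  | 0, y => Function.update d 0 y
  | (N + 1), y => Function.update (Sys.l2down S d N (S.π N y)) (N + 1) y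

theorem Sys.l2down_self (S : Sys) (d : ∀ j, S.G j) (N : ℕ) (y : S.G N) :
    S.l2down d N y N = y := by
  cases N with
  | zero => simp [Sys.l2down]
  | succ N => simp [Sys.l2down]

theorem Sys.l2down_chain (S : Sys) (d : ∀ j, S.G j) (N : ℕ) (y : S.G N) :
    ∀ j, j < N → S.π j (S.l2down d N y (j + 1)) = S.l2down d N y j := by
  induction N with
  | zero => intro j hj; exact absurd hj (Nat.not_lt_zero _)
  | succ N ih =>
    intro j hj
    have h1 : j ≠ N + 1 := by omega
    rcases Nat.lt_or_ge j N with h2 | h2
    · have h3 : j + 1 ≠ N + 1 := by omega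
      simp only [Sys.l2down, Function.update_of_ne h1, Function.update_of_ne h3]
      exact ih _ j h2
    · have h3 : j = N := by omega
      subst h3
      simp only [Sys.l2down, Function.update_of_ne h1, Function.update_self]
      rw [S.l2down_self]

theorem Sys.l2down_tr (S : Sys) (d : ∀ j, S.G j) (i k : ℕ) (y : S.G (i + k)) :
    S.l2down d (i + k) y i = S.tr i k y := by
  induction k with
  | zero => exact S.l2down_self d i y
  | succ k ih =>
    have h1 : i ≠ i + k + 1 := by omega
    change Function.update (S.l2down d (i + k) (S.π (i + k) y)) (i + k + 1) y i = _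
    rw [Function.update_of_ne h1, ih]
    rfl

/-- [QB-L2] An open condition which holds on the limit holds on `G (i+k)` for large `k`. -/
theorem Sys.eventually (S : Sys) (i : ℕ) (g : C(S.G i × unitInterval, ℝ)) (c : ℝ)
    (h : ∀ x t, g (S.p i x, t) < c) :
    ∃ k₀, ∀ k ≥ k₀, ∀ (y : S.G (i + k)) (t : unitInterval), g (S.tr i k y, t) < c := by
  classical
  by_contra hcon
  push Not at hcon
  -- all spaces are nonempty
  have hne : ∀ j, Nonempty (S.G j) := by
    intro j
    obtain ⟨k, hk, y, -⟩ := hcon j
    have hdown : ∀ m N, N = j + m → S.G N → Nonempty (S.G j) := by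
      intro m
      induction m with
      | zero => intro N hN z; subst hN; exact ⟨z⟩
      | succ m ih => intro N hN z; subst hN; exact ih _ rfl (S.π (j + m) z)
    exact hdown (i + k - j) (i + k) (by omega) y
  let d : ∀ j, S.G j := fun j => (hne j).some
  let C : ℕ → Set ((∀ j, S.G j) × unitInterval) := fun k =>
    {q | (∀ j, j < i + k → S.π j (q.1 (j + 1)) = q.1 j) ∧ c ≤ g (q.1 i, q.2)}
  have hclosed : ∀ k, IsClosed (C k) := by
    intro k
    have h1 : C k = (⋂ j, ⋂ (_ : j < i + k), {q : (∀ j, S.G j) × unitInterval |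
        S.π j (q.1 (j + 1)) = q.1 j}) ∩ {q | c ≤ g (q.1 i, q.2)} := by
      ext q
      simp [C]
    rw [h1]
    refine IsClosed.inter (isClosed_iInter fun j => isClosed_iInter fun _ => ?_) ?_
    · exact isClosed_eq ((S.π j).continuous.comp ((continuous_apply (j + 1)).comp continuous_fst))
        ((continuous_apply j).comp continuous_fst)
    · exact isClosed_le continuous_const
        (g.continuous.comp (((continuous_apply i).comp continuous_fst).prodMk continuous_snd))
  have hanti : ∀ k, C (k + 1) ⊆ C k := by
    rintro k q ⟨h1, h2⟩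
    exact ⟨fun j hj => h1 j (by omega), h2⟩
  have hnonempty : ∀ k, (C k).Nonempty := by
    intro k
    obtain ⟨k', hk, y, t, hy⟩ := hcon k
    refine ⟨(S.l2down d (i + k') y, t), fun j hj => S.l2down_chain d _ y j (by omega), ?_⟩
    change c ≤ g (S.l2down d (i + k') y i, t)
    rw [S.l2down_tr]
    exact hy
  obtain ⟨q, hq⟩ := IsCompact.nonempty_iInter_of_sequence_nonempty_isCompact_isClosed C hanti
    hnonempty (hclosed 0).isCompact hclosed
  rw [Set.mem_iInter] at hq
  have hx : ∀ j, S.π j (q.1 (j + 1)) = q.1 j := fun j => (hq (j + 1)).1 j (by omega)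
  exact absurd (h ⟨q.1, hx⟩ q.2) (not_lt.2 (hq 0).2)

end Pool.QB
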