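import Pool.Agent.MP_c51823_gt.QB.L3Def

/-!
# [QB-L3]
-/

set_option autoImplicit false
open Topology

namespace Pool.QB

namespace L3_aux

/-- the minimum of the first six coordinates -/
noncomputable def mn (y : ℕ → ℝ) : ℝ := (Finset.range 6).inf' ⟨0, by simp⟩ y

/-- the normalising denominator -/
noncomputable def dn (y : ℕ → ℝ) : ℝ := ∑ j ∈ Finset.range 6, (y j - mn y)

theorem ret6_eq (y : ℕ → ℝ) : ret6 y = fun i => if i < 6 then (y i - mn y) / dn y else 0 := rfl

theorem mem_S4 (x : ℕ → ℝ) : x ∈ S4 ↔ (∀ i, 0 ≤ x i) ∧ (∀ i, 6 ≤ i → x i = 0) ∧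
    ∑ i ∈ Finset.range 6, x i = 1 ∧ ∃ i < 6, x i = 0 := by
  constructor
  · rintro ⟨s, hs, h0, h1, h2⟩
    have hs' := Finset.mem_filter.1 hs
    have hsub : s ⊆ Finset.range 6 := Finset.mem_powerset.1 hs'.1
    refine ⟨h0, ?_, ?_, ?_⟩
    · intro i hi
      apply h1
      intro his
      have := Finset.mem_range.1 (hsub his)
      omega
    · rw [← h2]
      symm
      exact Finset.sum_subset hsub fun i _ hi => h1 i hi
    · by_contra hcon
      push Not at hcon
      apply hs'.2.2
      apply Finset.Subset.antisymm hsub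
      intro i hi
      by_contra his
      exact hcon i (Finset.mem_range.1 hi) (h1 i his)
  · rintro ⟨h0, h1, h2, i, hi, hxi⟩
    refine ⟨(Finset.range 6).erase i, ?_, h0, ?_, ?_⟩
    · refine Finset.mem_filter.2 ⟨Finset.mem_powerset.2 (Finset.erase_subset _ _), ?_, ?_⟩
      · rw [← Finset.card_pos, Finset.card_erase_of_mem (Finset.mem_range.2 hi)]
        simp
      · intro h
        have h3 : i ∈ (Finset.range 6).erase i := by rw [h]; exact Finset.mem_range.2 hi
        exact Finset.notMem_erase i _ h3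
    · intro j hj
      rw [Finset.mem_erase, not_and_or] at hj
      rcases hj with hj | hj
      · rw [not_not] at hj
        rw [hj]; exact hxi
      · rw [Finset.mem_range, not_lt] at hj
        exact h1 j hj
    · rw [← h2]
      exact Finset.sum_erase _ hxi

theorem mn_le (y : ℕ → ℝ) {i : ℕ} (hi : i < 6) : mn y ≤ y i :=
  Finset.inf'_le _ (Finset.mem_range.2 hi)

theorem exists_mn (y : ℕ → ℝ) : ∃ i < 6, mn y = y i := by
  obtain ⟨i, hi, h⟩ := Finset.exists_mem_eq_inf' (s := Finset.range 6) ⟨0, by simp⟩ y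
  exact ⟨i, Finset.mem_range.1 hi, h⟩

theorem dn_pos {y x : ℕ → ℝ} (hx : x ∈ S4) (hy : ∀ i < 6, |y i - x i| < 1 / 20) : 0 < dn y := by
  obtain ⟨h0, h1, h2, i, hi, hxi⟩ := (mem_S4 x).1 hx
  -- a large coordinate
  obtain ⟨j, hj, hxj⟩ : ∃ j < 6, 1 / 6 ≤ x j := by
    by_contra hcon
    push Not at hcon
    have h3 : ∑ i ∈ Finset.range 6, x i < ∑ i ∈ Finset.range 6, (1 / 6 : ℝ) :=
      Finset.sum_lt_sum_of_nonempty ⟨0, by simp⟩ fun i hi => hcon i (Finset.mem_range.1 hi)
    rw [h2] at h3
    norm_num at h3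
  have h4 : 0 < y j - mn y := by
    have a1 := mn_le y hi
    have a2 := abs_lt.1 (hy i hi)
    have a3 := abs_lt.1 (hy j hj)
    rw [hxi] at a2
    linarith [a2.1, a2.2, a3.1, a3.2]
  refine lt_of_lt_of_le h4 ?_
  exact Finset.single_le_sum (f := fun j => y j - mn y)
    (fun k hk => sub_nonneg.2 (mn_le y (Finset.mem_range.1 hk))) (Finset.mem_range.2 hj)

theorem mn_cont : Continuous mn := by
  unfold mn
  exact Continuous.finset_inf'_apply _ fun i _ => continuous_apply i

theorem dn_cont : Continuous dn := by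
  unfold dn
  exact continuous_finsetSum _ fun i _ => (continuous_apply i).sub mn_cont

end L3_aux

open L3_aux

/-- [QB-L3a] -/
theorem ret6_mem (y : ℕ → ℝ) (x : ℕ → ℝ) (hx : x ∈ S4)
    (hy : ∀ i < 6, |y i - x i| < 1 / 20) : ret6 y ∈ S4 := by
  have hD := dn_pos hx hy
  rw [mem_S4, ret6_eq]
  refine ⟨?_, ?_, ?_, ?_⟩
  · intro i
    change 0 ≤ if i < 6 then (y i - mn y) / dn y else 0
    split_ifs with hi
    · exact div_nonneg (sub_nonneg.2 (mn_le y hi)) hD.le
    · exact le_refl 0
  · intro i hi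
    change (if i < 6 then (y i - mn y) / dn y else 0) = 0
    rw [if_neg (by omega)]
  · rw [Finset.sum_congr rfl (fun i hi => if_pos (Finset.mem_range.1 hi)), ← Finset.sum_div]
    exact div_self hD.ne'
  · obtain ⟨i, hi, h⟩ := exists_mn y
    refine ⟨i, hi, ?_⟩
    change (if i < 6 then (y i - mn y) / dn y else 0) = 0
    rw [if_pos hi, h, sub_self, zero_div]

theorem ret6_id (x : ℕ → ℝ) (hx : x ∈ S4) : ret6 x = x := by
  obtain ⟨h0, h1, h2, i, hi, hxi⟩ := (mem_S4 x).1 hx
  have hm : mn x = 0 := by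
    apply le_antisymm
    · rw [← hxi]; exact mn_le x hi
    · obtain ⟨j, -, h⟩ := exists_mn x
      rw [h]; exact h0 j
  have hd : dn x = 1 := by
    unfold dn
    rw [hm]
    simpa using h2
  rw [ret6_eq]
  funext j
  split_ifs with hj
  · rw [hm, hd, sub_zero, div_one]
  · exact (h1 j (by omega)).symm

theorem ret6_cont : ContinuousOn ret6
    {y | ∃ x ∈ S4, ∀ i < 6, |y i - x i| < 1 / 20} := by
  have h : ret6 = fun y i => if i < 6 then (y i - mn y) / dn y else 0 := by
    funext y; exact ret6_eq y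
  rw [h]
  refine continuousOn_pi.2 fun i => ?_
  by_cases hi : i < 6
  · simp only [if_pos hi]
    refine ContinuousOn.div ?_ dn_cont.continuousOn ?_
    · exact ((continuous_apply i).sub mn_cont).continuousOn
    · rintro y ⟨x, hx, hy⟩
      exact (dn_pos hx hy).ne'
  · simp only [if_neg hi]
    exact continuousOn_const

/-- [QB-L3b] close maps to `S4` are homotopic -/
theorem close_homotopic {G : Type} [TopologicalSpace G] (f g : C(G, S4))
    (h : ∀ x, ∀ i < 6, |(f x).1 i - (g x).1 i| < 1 / 20) :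
    ∃ H : C(G × unitInterval, S4), (∀ x, H (x, 0) = f x) ∧ ∀ x, H (x, 1) = g x := by
  set F : G × unitInterval → (ℕ → ℝ) :=
    fun p i => (1 - (p.2 : ℝ)) * (f p.1).1 i + (p.2 : ℝ) * (g p.1).1 i with hF
  have hclose : ∀ p, ∃ x ∈ S4, ∀ i < 6, |F p i - x i| < 1 / 20 := by
    intro p
    refine ⟨(f p.1).1, (f p.1).2, fun i hi => ?_⟩
    have e : F p i - (f p.1).1 i = -((p.2 : ℝ) * ((f p.1).1 i - (g p.1).1 i)) := by
      rw [hF]; ring
    rw [e, abs_neg, abs_mul, abs_of_nonneg p.2.2.1]
    calc (p.2 : ℝ) * |(f p.1).1 i - (g p.1).1 i| ≤ 1 * |(f p.1).1 i - (g p.1).1 i| :=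
          mul_le_mul_of_nonneg_right p.2.2.2 (abs_nonneg _)
      _ = |(f p.1).1 i - (g p.1).1 i| := one_mul _
      _ < 1 / 20 := h p.1 i hi
  have hFc : Continuous F := by
    rw [hF]
    refine continuous_pi fun i => ?_
    have hf : Continuous fun p : G × unitInterval => (f p.1).1 i :=
      (continuous_apply i).comp (continuous_subtype_val.comp (f.continuous.comp continuous_fst))
    have hg : Continuous fun p : G × unitInterval => (g p.1).1 i :=
      (continuous_apply i).comp (continuous_subtype_val.comp (g.continuous.comp continuous_fst))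
    have ht : Continuous fun p : G × unitInterval => (p.2 : ℝ) :=
      continuous_subtype_val.comp continuous_snd
    exact ((continuous_const.sub ht).mul hf).add (ht.mul hg)
  refine ⟨⟨fun p => ⟨ret6 (F p), ?_⟩, ?_⟩, ?_, ?_⟩
  · obtain ⟨x, hx, hy⟩ := hclose p
    exact ret6_mem _ x hx hy
  · exact (ret6_cont.comp_continuous hFc hclose).subtype_mk _
  · intro x
    apply Subtype.ext
    change ret6 (F (x, 0)) = (f x).1
    have e : F (x, 0) = (f x).1 := by
      funext i
      rw [hF]
      simp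
    rw [e]
    exact ret6_id _ (f x).2
  · intro x
    apply Subtype.ext
    change ret6 (F (x, 1)) = (g x).1
    have e : F (x, 1) = (g x).1 := by
      funext i
      rw [hF]
      simp
    rw [e]
    exact ret6_id _ (g x).2

end Pool.QB
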