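import Pool.Agent.MP_c51823_gt.QB.L1
import Pool.Agent.MP_c51823_gt.QB.L2
import Pool.Agent.MP_c51823_gt.QB.L3

/-!
# [QB-L4] Proof: QB_PROOF.md section 12. Approximate the six coordinates of `H` by functions `H′` on
`G i × [0,1]` (L1); by L2 for large `k` the vector `H′(tr y, t)` is `1/20`-close to `S4` [test function
`(y,t) ↦ dist(H′(y,t), S4)`], `H′(tr y, 0)` is close to `f₀(tr 0 (i+k) y)` and `H′(tr y,1)` close to `c`; apply `ret6` and
`close_homotopic`.
-/

set_option autoImplicit false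
open Topology

namespace Pool.QB

namespace L4_aux

/-- transport between levels -/
def castG (S : Sys) {n m : ℕ} (h : n = m) : C(S.G n, S.G m) := by
  subst h
  exact ContinuousMap.id _

theorem pi_castG (S : Sys) {n m : ℕ} (h : n = m) (h' : n + 1 = m + 1) (y : S.G (n + 1)) :
    S.π m (castG S h' y) = castG S h (S.π n y) := by
  subst h
  rfl

theorem tr_add (S : Sys) (i a b : ℕ) (h : i + (a + b) = (i + a) + b) (y : S.G (i + (a + b))) :
    S.tr i (a + b) y = S.tr i a (S.tr (i + a) b (castG S h y)) := by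
  induction b with
  | zero => rfl
  | succ b ih =>
    have h' : i + (a + b) = (i + a) + b := (Nat.add_assoc i a b).symm
    change S.tr i (a + b) (S.π (i + (a + b)) y) =
      S.tr i a (S.tr (i + a) b (S.π ((i + a) + b) (castG S h y)))
    rw [pi_castG S h' h, ← ih h']

theorem tr_p (S : Sys) (i k : ℕ) (x : S.lim) : S.tr i k (S.p (i + k) x) = S.p i x := by
  induction k with
  | zero => rfl
  | succ k ih =>
    change S.tr i k (S.π (i + k) (x.1 (i + k + 1))) = _
    rw [x.2 (i + k)]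
    exact ih

theorem approx_ge (S : Sys) (F : C(S.lim × unitInterval, ℝ)) (ε : ℝ) (hε : 0 < ε) :
    ∃ i : ℕ, ∀ n, i ≤ n → ∃ F' : C(S.G n × unitInterval, ℝ),
      ∀ x t, |F (x, t) - F' (S.p n x, t)| < ε := by
  obtain ⟨i, F', hF'⟩ := S.approx F ε hε
  refine ⟨i, fun n hn => ?_⟩
  obtain ⟨k, rfl⟩ := Nat.exists_eq_add_of_le hn
  refine ⟨F'.comp ((S.tr i k).prodMap (ContinuousMap.id _)), fun x t => ?_⟩
  change |F (x, t) - F' (S.tr i k (S.p (i + k) x), t)| < ε
  rw [tr_p]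
  exact hF' x t

/-- restriction to the first six coordinates -/
def r6 (x : ℕ → ℝ) : Fin 6 → ℝ := fun j => x j

theorem continuous_r6 : Continuous r6 := continuous_pi fun j => continuous_apply (j : ℕ)

/-- extension by zero -/
def e6 (v : Fin 6 → ℝ) : ℕ → ℝ := fun j => if h : j < 6 then v ⟨j, h⟩ else 0

theorem continuous_e6 : Continuous e6 := by
  refine continuous_pi fun j => ?_
  by_cases h : j < 6
  · have : (fun v : Fin 6 → ℝ => e6 v j) = fun v => v ⟨j, h⟩ := by
      funext v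
      simp [e6, h]
    rw [this]
    exact continuous_apply _
  · have : (fun v : Fin 6 → ℝ => e6 v j) = fun _ => 0 := by
      funext v
      simp [e6, h]
    rw [this]
    exact continuous_const

theorem e6_apply (v : Fin 6 → ℝ) (j : ℕ) (h : j < 6) : e6 v j = v ⟨j, h⟩ := by
  simp [e6, h]

theorem approx_vec (S : Sys) (H : C(S.lim × unitInterval, S4)) (ε : ℝ) (hε : 0 < ε) :
    ∃ (M : ℕ) (v : C(S.G (0 + M) × unitInterval, Fin 6 → ℝ)),
      ∀ x t, dist (v (S.p (0 + M) x, t)) (r6 (H (x, t)).1) < ε := by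
  have hF : ∀ j : Fin 6, Continuous fun z : S.lim × unitInterval => (H z).1 (j : ℕ) := fun j =>
    (continuous_apply (j : ℕ)).comp (continuous_subtype_val.comp H.continuous)
  choose i hi using fun j : Fin 6 => approx_ge S ⟨_, hF j⟩ ε hε
  have hM : ∀ j, i j ≤ 0 + ∑ l, i l := by
    intro j
    rw [Nat.zero_add]
    exact Finset.single_le_sum (f := i) (fun _ _ => Nat.zero_le _) (Finset.mem_univ j)
  choose F' hF' using fun j : Fin 6 => hi j (0 + ∑ l, i l) (hM j)
  refine ⟨∑ l, i l, ⟨fun z j => F' j z, continuous_pi fun j => (F' j).continuous⟩, fun x t => ?_⟩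
  rw [dist_pi_lt_iff hε]
  intro j
  rw [dist_comm, Real.dist_eq]
  exact hF' j x t

theorem S4_facts {x : ℕ → ℝ} (hx : x ∈ S4) :
    (∀ i, 0 ≤ x i) ∧ (∃ j < 6, x j = 0) ∧ ∑ i ∈ Finset.range 6, x i = 1 := by
  obtain ⟨s, hs, h1, h2, h3⟩ := hx
  obtain ⟨h4, h5, h6⟩ := Finset.mem_filter.1 hs
  have h7 : s ⊆ Finset.range 6 := Finset.mem_powerset.1 h4
  refine ⟨h1, ?_, ?_⟩
  · by_contra hcon
    push Not at hcon
    refine h6 (Finset.Subset.antisymm h7 fun j hj => ?_)
    by_contra hjs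
    exact hcon j (Finset.mem_range.1 hj) (h2 j hjs)
  · rw [← h3]
    exact (Finset.sum_subset h7 fun j _ hj => h2 j hj).symm

theorem ret6_close {s : ℕ → ℝ} (hs : s ∈ S4) (y : ℕ → ℝ)
    (hy : ∀ i < 6, |y i - s i| < 1 / 1000) : ∀ i < 6, |ret6 y i - s i| < 1 / 20 := by
  obtain ⟨h0, ⟨j, hj, hj0⟩, h1⟩ := S4_facts hs
  intro i hi
  set m := (Finset.range 6).inf' ⟨0, by simp⟩ y with hm
  have hm1 : m < 1 / 1000 := by
    have h2 : m ≤ y j := Finset.inf'_le _ (Finset.mem_range.2 hj)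
    have h3 := hy j hj
    rw [hj0, sub_zero] at h3
    have := (abs_lt.1 h3).2
    linarith
  have hm2 : -(1 / 1000) < m := by
    rw [hm, Finset.lt_inf'_iff]
    intro k hk
    have h3 := (abs_lt.1 (hy k (Finset.mem_range.1 hk))).1
    have := h0 k
    linarith
  set Dn := ∑ k ∈ Finset.range 6, (y k - m) with hDn
  have hD : |Dn - 1| ≤ 12 / 1000 := by
    have h3 : Dn - 1 = ∑ k ∈ Finset.range 6, (y k - m - s k) := by
      rw [Finset.sum_sub_distrib, h1, hDn]
    rw [h3]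
    refine (Finset.abs_sum_le_sum_abs _ _).trans ?_
    have h4 : ∑ k ∈ Finset.range 6, |y k - m - s k| ≤ ∑ _k ∈ Finset.range 6, (2 / 1000 : ℝ) := by
      refine Finset.sum_le_sum fun k hk => ?_
      have h5 := abs_lt.1 (hy k (Finset.mem_range.1 hk))
      rw [abs_le]
      constructor <;> linarith [h5.1, h5.2]
    refine h4.trans ?_
    rw [Finset.sum_const, Finset.card_range]
    norm_num
  have hDl := (abs_le.1 hD)
  have hDpos : 0 < Dn := by linarith [hDl.1]
  have hret : ret6 y i = (y i - m) / Dn := by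
    rw [ret6, if_pos hi]
  have hsi : s i ≤ 1 := by
    rw [← h1]
    exact Finset.single_le_sum (fun k _ => h0 k) (Finset.mem_range.2 hi)
  have h6 : ret6 y i - s i = ((y i - m - s i) - s i * (Dn - 1)) / Dn := by
    rw [hret]
    field_simp
    ring
  rw [h6, abs_div, abs_of_pos hDpos, div_lt_iff₀ hDpos]
  have h7 := abs_lt.1 (hy i hi)
  have h8 := h0 i
  have h9 : |s i * (Dn - 1)| ≤ 12 / 1000 := by
    rw [abs_mul, abs_of_nonneg h8]
    calc s i * |Dn - 1| ≤ 1 * (12 / 1000) := mul_le_mul hsi hD (abs_nonneg _) zero_le_one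
      _ = 12 / 1000 := one_mul _
  have h10 : |y i - m - s i| ≤ 2 / 1000 := by
    rw [abs_le]
    constructor <;> linarith [h7.1, h7.2]
  have h11 := abs_sub (y i - m - s i) (s i * (Dn - 1))
  linarith [hDl.1]

end L4_aux

open L4_aux

/-- [QB-L4] If `f₀ ∘ p₀` is null homotopic then `f₀ ∘ tr 0 k` and a constant map are joined by a finite
chain of homotopies for some `k`; formulated for a functional `Q` on maps to `S4` invariant under
homotopy. -/
theorem Sys.descend (S : Sys) (f₀ : C(S.G 0, S4)) (H : C(S.lim × unitInterval, S4))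
    (h0 : ∀ x, H (x, 0) = f₀ (S.p 0 x)) (c : S4) (h1 : ∀ x, H (x, 1) = c) :
    ∃ (k : ℕ) (g₀ g₁ : C(S.G (0 + k), S4)) (H₁ H₂ H₃ : C(S.G (0 + k) × unitInterval, S4)),
      (∀ x, H₁ (x, 0) = f₀ (S.tr 0 k x)) ∧ (∀ x, H₁ (x, 1) = g₀ x) ∧
      (∀ x, H₂ (x, 0) = g₀ x) ∧ (∀ x, H₂ (x, 1) = g₁ x) ∧
      (∀ x, H₃ (x, 0) = g₁ x) ∧ (∀ x, H₃ (x, 1) = c) := by
  obtain ⟨M, v, hv⟩ := approx_vec S H (1 / 1000) (by norm_num)
  -- the three test functions
  let T : Set (Fin 6 → ℝ) := r6 '' S4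
  have hTne : T.Nonempty := ⟨r6 c.1, c.1, c.2, rfl⟩
  let t1 : C(S.G (0 + M) × unitInterval, ℝ) :=
    ⟨fun z => Metric.infDist (v z) T, (Metric.continuous_infDist_pt T).comp v.continuous⟩
  let t2 : C(S.G (0 + M) × unitInterval, ℝ) :=
    ⟨fun z => dist (v (z.1, 0)) (r6 (f₀ (S.tr 0 M z.1)).1),
      (v.continuous.comp (continuous_fst.prodMk continuous_const)).dist
        (continuous_r6.comp (continuous_subtype_val.comp (f₀.continuous.comp
          ((S.tr 0 M).continuous.comp continuous_fst))))⟩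
  let t3 : C(S.G (0 + M) × unitInterval, ℝ) :=
    ⟨fun z => dist (v (z.1, 1)) (r6 c.1),
      (v.continuous.comp (continuous_fst.prodMk continuous_const)).dist continuous_const⟩
  obtain ⟨k1, hk1⟩ := S.eventually (0 + M) t1 (1 / 1000) (fun x t =>
    (Metric.infDist_le_dist_of_mem (show r6 (H (x, t)).1 ∈ T from
      ⟨_, (H (x, t)).2, rfl⟩)).trans_lt (hv x t))
  obtain ⟨k2, hk2⟩ := S.eventually (0 + M) t2 (1 / 1000) (fun x t => by
    change dist (v (S.p (0 + M) x, 0)) (r6 (f₀ (S.tr 0 M (S.p (0 + M) x))).1) < _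
    rw [tr_p, ← h0 x]
    exact hv x 0)
  obtain ⟨k3, hk3⟩ := S.eventually (0 + M) t3 (1 / 1000) (fun x t => by
    change dist (v (S.p (0 + M) x, 1)) (r6 c.1) < _
    rw [← h1 x]
    exact hv x 1)
  set k := k1 + k2 + k3 with hk
  have hk1 := hk1 k (by omega)
  have hk2 := hk2 k (by omega)
  have hk3 := hk3 k (by omega)
  have hass : 0 + (M + k) = (0 + M) + k := (Nat.add_assoc 0 M k).symm
  let τ : C(S.G (0 + (M + k)), S.G (0 + M)) := (S.tr (0 + M) k).comp (castG S hass)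
  have hτ : ∀ y, S.tr 0 (M + k) y = S.tr 0 M (τ y) := fun y => tr_add S 0 M k hass y
  let w : S.G (0 + (M + k)) × unitInterval → ℕ → ℝ := fun z => e6 (v (τ z.1, z.2))
  have hw : Continuous w := continuous_e6.comp
    (v.continuous.comp ((τ.continuous.comp continuous_fst).prodMk continuous_snd))
  have hclose : ∀ z, ∃ x ∈ S4, ∀ i < 6, |w z i - x i| < 1 / 20 := by
    intro z
    obtain ⟨_, ⟨x, hx, rfl⟩, hd⟩ := (Metric.infDist_lt_iff hTne).1 (hk1 (castG S hass z.1) z.2)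
    refine ⟨x, hx, fun i hi => ?_⟩
    rw [dist_pi_lt_iff (by norm_num)] at hd
    have h2 := hd ⟨i, hi⟩
    rw [Real.dist_eq] at h2
    change |e6 _ i - x i| < _
    rw [e6_apply _ i hi]
    exact h2.trans (by norm_num)
  have hmem : ∀ z, ret6 (w z) ∈ S4 := fun z => by
    obtain ⟨x, hx, h2⟩ := hclose z
    exact ret6_mem (w z) x hx h2
  let K : C(S.G (0 + (M + k)) × unitInterval, S4) :=
    ⟨fun z => ⟨ret6 (w z), hmem z⟩, (ret6_cont.comp_continuous hw hclose).subtype_mk hmem⟩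
  let g₀ : C(S.G (0 + (M + k)), S4) :=
    K.comp ((ContinuousMap.id _).prodMk (ContinuousMap.const _ (0 : unitInterval)))
  let g₁ : C(S.G (0 + (M + k)), S4) :=
    K.comp ((ContinuousMap.id _).prodMk (ContinuousMap.const _ (1 : unitInterval)))
  obtain ⟨H₁, hH₁, hH₁'⟩ := close_homotopic (f₀.comp (S.tr 0 (M + k))) g₀ (fun y i hi => by
    have h2 := hk2 (castG S hass y) 0
    change dist (v (τ y, 0)) (r6 (f₀ (S.tr 0 M (τ y))).1) < _ at h2
    rw [dist_pi_lt_iff (by norm_num)] at h2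
    rw [abs_sub_comm]
    refine ret6_close (f₀ (S.tr 0 (M + k) y)).2 (w (y, 0)) (fun l hl => ?_) i hi
    have h3 := h2 ⟨l, hl⟩
    rw [Real.dist_eq] at h3
    change |e6 _ l - _| < _
    rw [e6_apply _ l hl, hτ y]
    exact h3)
  obtain ⟨H₃, hH₃, hH₃'⟩ := close_homotopic g₁ (ContinuousMap.const _ c) (fun y i hi => by
    have h2 := hk3 (castG S hass y) 0
    change dist (v (τ y, 1)) (r6 c.1) < _ at h2
    rw [dist_pi_lt_iff (by norm_num)] at h2
    refine ret6_close c.2 (w (y, 1)) (fun l hl => ?_) i hi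
    have h3 := h2 ⟨l, hl⟩
    rw [Real.dist_eq] at h3
    change |e6 _ l - _| < _
    rw [e6_apply _ l hl]
    exact h3)
  exact ⟨M + k, g₀, g₁, H₁, K, H₃, hH₁, hH₁', fun _ => rfl, fun _ => rfl, hH₃, hH₃'⟩

end Pool.QB
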