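import Pool.Agent.MP_c51823_gt.QB.LimDef
import Pool.Agent.MP_c51823_gt.QB.L4

/-!
# [QB-L5] From L4: `(L (0+k)).f = (L 0).f ∘ tr 0 k`; homotopic maps induce the same map in `h`; a constant map
factors through a point.
-/

set_option autoImplicit false
open Topology

namespace Pool.QB

variable {h : HT} {u : h.H 0 (absP S4)}

namespace L5_aux

/-- homotopic maps induce the same homomorphism -/
theorem map_eq {X : Type} [TopologicalSpace X] [CompactSpace X] [T2Space X] (f g : C(X, S4))
    (F : C(X × unitInterval, S4)) (h0 : ∀ x, F (x, 0) = f x) (h1 : ∀ x, F (x, 1) = g x) :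
    h.map 0 (absMap f) u = h.map 0 (absMap g) u := by
  have h2 : h.map 0 (absMap f) = h.map 0 (absMap g) :=
    h.homotopy 0 (absMap f) (absMap g) F h0 h1 (fun _ hx => hx.elim)
  rw [h2]

/-- a constant map induces zero -/
theorem map_const {X : Type} [TopologicalSpace X] [CompactSpace X] [T2Space X]
    (hu : ∀ f : C(PUnit, S4), h.map 0 (absMap f) u = 0) (c : S4) :
    h.map 0 (absMap (ContinuousMap.const X c)) u = 0 := by
  have h1 : absMap (ContinuousMap.const X c) =
      (absMap (ContinuousMap.const PUnit c)).comp (absMap (ContinuousMap.const X PUnit.unit)) := rfl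
  rw [h1, h.map_comp, hu, map_zero]

/-- the system of the tower -/
def sys (L : ℕ → Level h u) (sd : ∀ i, StepData i (L (i + 1)) (L i)) : Sys :=
  ⟨fun i => (L i).G, fun i => (sd i).π⟩

theorem f_tr (L : ℕ → Level h u) (sd : ∀ i, StepData i (L (i + 1)) (L i)) (k : ℕ) :
    ∀ x : (L (0 + k)).G, (L (0 + k)).f x = (L 0).f ((sys L sd).tr 0 k x) := by
  induction k with
  | zero => intro x; rfl
  | succ k ih =>
    intro x
    have h1 : (L (0 + (k + 1))).f x = (L (0 + k)).f ((sd (0 + k)).π x) := (sd (0 + k)).f_eq x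
    rw [h1, ih]
    rfl

end L5_aux

open L5_aux

/-- [QB-L5] Inverse limits and null homotopies (section 12). -/
theorem limit_contradiction (L : ℕ → Level h u) (sd : ∀ i, StepData i (L (i + 1)) (L i))
    (hu : ∀ f : C(PUnit, S4), h.map 0 (absMap f) u = 0)
    (H : C(Lim L sd × unitInterval, S4)) (h0 : ∀ x, H (x, 0) = (L 0).f (Lim.p 0 x)) (c : S4)
    (h1 : ∀ x, H (x, 1) = c) : False := by
  obtain ⟨k, g₀, g₁, H₁, H₂, H₃, a1, a2, b1, b2, c1, c2⟩ :=
    (sys L sd).descend (L 0).f H h0 c h1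
  let f' : C((sys L sd).G (0 + k), S4) := (L (0 + k)).f
  have e1 : h.map 0 (absMap f') u = h.map 0 (absMap g₀) u :=
    map_eq f' g₀ H₁ (fun x => (a1 x).trans (f_tr L sd k x).symm) a2
  have e2 : h.map 0 (absMap g₀) u = h.map 0 (absMap g₁) u := map_eq g₀ g₁ H₂ b1 b2
  have e3 : h.map 0 (absMap g₁) u =
      h.map 0 (absMap (ContinuousMap.const ((sys L sd).G (0 + k)) c)) u :=
    map_eq g₁ (ContinuousMap.const _ c) H₃ c1 c2
  exact (L (0 + k)).ess (e1.trans (e2.trans (e3.trans (map_const hu c))))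

end Pool.QB
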