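import Pool.Agent.MP_c51823_gt.QB.S3

/-!
# [QB-S4] STEP: compose `STEP_3, …, STEP_{m-1}` (8.4); for `m ≤ 3` take the identity.
-/

set_option autoImplicit false
open Topology

namespace Pool.QB

namespace S4_aux

/-- the inclusion of a smaller skeleton -/
theorem small {h : HT} {u : h.H 0 (absP S4)} (m : ℕ) (hm : m ≤ 3) (S : Stage h u) :
    ∃ (S' : Stage h u) (r : Refine S' S) (F : C((S'.K.skel m).real, (S.K.skel 3).real)),
      CarBy r.car F := by
  have hsub : (S.K.skel m).S ⊆ (S.K.skel 3).S := by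
    intro s hs
    have h1 := Finset.mem_filter.1 hs
    exact Finset.mem_filter.2 ⟨h1.1, by have := h1.2; omega⟩
  exact ⟨S, Refine.id S, ⟨fun x => ⟨x.1, real_mono hsub x.2⟩,
    Continuous.subtype_mk continuous_subtype_val _⟩, fun x => Finset.Subset.refl _⟩

end S4_aux

/-- [QB-S4] STEP (8.4). -/
theorem STEP {h : HT} {u : h.H 0 (absP S4)} (h4 : EB h u 4 ℤ) (m : ℕ) (S : Stage h u) :
    ∃ (S' : Stage h u) (r : Refine S' S) (F : C((S'.K.skel m).real, (S.K.skel 3).real)),
      CarBy r.car F := by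
  by_cases hm : m ≤ 3
  · exact S4_aux.small m hm S
  · obtain ⟨j, rfl⟩ : ∃ j, m = 3 + j := ⟨m - 3, by omega⟩
    clear hm
    induction j with
    | zero => exact S4_aux.small 3 le_rfl S
    | succ j ih =>
      obtain ⟨S', r, F, hF⟩ := ih
      obtain ⟨S'', r', F', hF'⟩ := step_one h4 (3 + j) (by omega) S'
      obtain ⟨c, hc, -⟩ := exists_comp r r'
      refine ⟨S'', c, F.comp F', fun x => ?_⟩
      have h1 : c.car (fsupp x.1) = r.car (r'.car (fsupp x.1)) := by
        rw [hc]
        rfl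
      rw [h1]
      have hx : fsupp x.1 ∈ S''.K.S := skel_sub _ _ (fsupp_mem _ x.2)
      have hy : (fsupp (F' x).1).Nonempty := Cx.ne _ _ (fsupp_mem _ (F' x).2)
      exact (hF (F' x)).trans (r.car_mono _ (r'.car_mem _ hx) _ (hF' x) hy)

end Pool.QB
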