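import Pool.Agent.MP_c51823_gt.QB.B5

/-!
# [QB-TS1] Fine covers with base points
-/

set_option autoImplicit false
open Topology

namespace Pool.QB

/-- [QB-TS1] A fine cover of a compact space `G`, given by a complex `K`, a map `κ : G → |K|` and
points for the vertices: whenever `κ(x)_v ≠ 0`, the point `pt v` is close to `x` for a given
continuous pseudo-distance `ρ` (here: a finite family of real functions). -/
theorem exists_fine {G : Type} [TopologicalSpace G] [CompactSpace G] [T2Space G] [Nonempty G]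
    (n : ℕ) (f : ℕ → C(G, ℝ)) (ε : ℝ) (hε : 0 < ε) :
    ∃ (K : Cx) (κ : C(G, K.real)) (pt : ℕ → G), ∀ (x : G) (v : ℕ), (κ x).1 v ≠ 0 →
      ∑ w ∈ Finset.range n, |f w x - f w (pt v)| ≤ ε := by
  classical
  have hUo : ∀ y : G, IsOpen {x : G | ∑ w ∈ Finset.range n, |f w x - f w y| < ε} := fun y =>
    isOpen_lt (continuous_finsetSum _ fun w _ => ((f w).continuous.sub continuous_const).abs)
      continuous_const
  have hself : ∀ y : G, y ∈ {x : G | ∑ w ∈ Finset.range n, |f w x - f w y| < ε} := by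
    intro y
    simpa using hε
  obtain ⟨t, ht⟩ := isCompact_univ.elim_finite_subcover
    (fun y : G => {x : G | ∑ w ∈ Finset.range n, |f w x - f w y| < ε}) hUo
    (fun y _ => Set.mem_iUnion.2 ⟨y, hself y⟩)
  obtain ⟨K, κ, _, hκ⟩ := exists_nerve (T := G) (r := t.card)
    (fun w => {x : G | ∑ i ∈ Finset.range n, |f i x - f i (t.equivFin.symm w).1| < ε})
    (fun w => hUo _)
    (fun x => by
      obtain ⟨y, hy⟩ := Set.mem_iUnion.1 (ht (Set.mem_univ x))
      obtain ⟨hyt, hxy⟩ := Set.mem_iUnion.1 hy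
      refine ⟨t.equivFin ⟨y, hyt⟩, ?_⟩
      simpa using hxy)
    (fun w => w.1) Fin.val_injective
  refine ⟨K, κ, fun v => if h : v < t.card then (t.equivFin.symm ⟨v, h⟩).1
    else Classical.arbitrary G, ?_⟩
  intro x v hv
  obtain ⟨w, rfl, hw⟩ := hκ x v hv
  have : (if h : (w : ℕ) < t.card then (t.equivFin.symm ⟨w, h⟩).1
    else Classical.arbitrary G) = (t.equivFin.symm w).1 := by
    rw [dif_pos w.2]
  simp only [this]
  exact le_of_lt hw

end Pool.QB
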