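import Pool.Agent.MP_c51823_gt.QB.TVert

/-!
# [QB] tests: definition
-/

set_option autoImplicit false
open Topology

namespace Pool.QB

/-- Tests `θ` and cut-offs `χ` on a space over `|K|` (output of TS2). -/
structure Tests {G : Type} [TopologicalSpace G] (K : Cx) (κ : C(G, K.real)) (δ : ℝ) (W : ℕ)
    (θ χ : ℕ → C(G, ℝ)) : Prop where
  θ_nonneg : ∀ w z, 0 ≤ θ w z
  θ_sum : ∀ z, ∑ w ∈ Finset.range W, θ w z = 1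
  θ_card : ∀ z, ((Finset.range W).filter fun w => θ w z ≠ 0).card ≤ K.vert.card + 1
  χ_range : ∀ w z, 0 ≤ χ w z ∧ χ w z ≤ 1
  χ_one : ∀ w z, θ w z ≠ 0 → χ w z = 1
  χ_close : ∀ w < W, ∀ w' < W, ∀ y, θ w y ≠ 0 → θ w' y ≠ 0 → ∀ z, |χ w z - χ w' z| ≤ δ
  θ_ne : ∀ w < W, ∃ y, θ w y ≠ 0
  χ_loc : ∀ w < W, ∀ y z, θ w y ≠ 0 → χ w z ≠ 0 → ∀ i,
    |(κ y).1 i - (κ z).1 i| < 1 / (2 * K.vert.card)

end Pool.QB
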