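import Pool.Agent.MP_c51823_gt.QB.K1
import Pool.Agent.MP_c51823_gt.QB.TestDef

/-!
# [QB-TS2] Tests and cut-offs, QB_PROOF.md section 9 (`R = 1/(2q)`, `χ(w,b) = clamp(2 - 3|w-b|/R)`, mesh `ρ`).
Kuhn partition of unity (K1) on `ℝ^q`, `q` = number of vertices, scaled.
-/

set_option autoImplicit false
open Topology

namespace Pool.QB

namespace TS2_aux

theorem real_mem {K : Cx} {x : ℕ → ℝ} (hx : x ∈ K.real) :
    (∀ i, 0 ≤ x i) ∧ (∀ i, x i ≤ 1) ∧ (∀ i, i ∉ K.vert → x i = 0) ∧ 0 < K.vert.card := by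
  obtain ⟨s, hs, h0, h1, h2⟩ := hx
  have hsub : s ⊆ K.vert := by
    intro i hi
    rw [Cx.vert, Finset.mem_biUnion]
    exact ⟨s, hs, hi⟩
  refine ⟨h0, fun i => ?_, fun i hi => h1 i (fun h => hi (hsub h)), ?_⟩
  · by_cases hi : i ∈ s
    · rw [← h2]
      exact Finset.single_le_sum (fun j _ => h0 j) hi
    · rw [h1 i hi]
      exact zero_le_one
  · rw [Finset.card_pos]
    exact (K.ne s hs).mono hsub

/-- clamp -/
noncomputable def cl (R D : ℝ) : ℝ := max 0 (min 1 (2 - 3 * D / R))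

theorem cl_range (R D : ℝ) : 0 ≤ cl R D ∧ cl R D ≤ 1 := by
  unfold cl
  exact ⟨le_max_left _ _, max_le zero_le_one (min_le_left _ _)⟩

theorem cl_one {R D : ℝ} (hR : 0 < R) (h : D ≤ R / 3) : cl R D = 1 := by
  have h1 : 3 * D / R ≤ 1 := by
    rw [div_le_one hR]
    linarith
  unfold cl
  rw [min_eq_left (by linarith), max_eq_right zero_le_one]

theorem cl_close {R D D' : ℝ} (hR : 0 < R) : |cl R D - cl R D'| ≤ 3 / R * |D - D'| := by
  have h1 : |cl R D - cl R D'| ≤ |(2 - 3 * D / R) - (2 - 3 * D' / R)| := by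
    unfold cl
    calc |max 0 (min 1 (2 - 3 * D / R)) - max 0 (min 1 (2 - 3 * D' / R))|
        ≤ |min 1 (2 - 3 * D / R) - min 1 (2 - 3 * D' / R)| := by
          have := abs_max_sub_max_le_max 0 (min 1 (2 - 3 * D / R)) 0 (min 1 (2 - 3 * D' / R))
          simpa using this
      _ ≤ |(2 - 3 * D / R) - (2 - 3 * D' / R)| := by
          have := abs_min_sub_min_le_max 1 (2 - 3 * D / R) 1 (2 - 3 * D' / R)
          simpa using this
  refine h1.trans (le_of_eq ?_)
  have h2 : (2 - 3 * D / R) - (2 - 3 * D' / R) = 3 / R * (D' - D) := by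
    field_simp
    ring
  rw [h2, abs_mul, abs_of_pos (by positivity : (0 : ℝ) < 3 / R), abs_sub_comm]

theorem cl_ne {R D : ℝ} (hR : 0 < R) (h : cl R D ≠ 0) : D < 2 * R / 3 := by
  by_contra hc
  push Not at hc
  apply h
  have h1 : 2 ≤ 3 * D / R := by
    rw [le_div_iff₀ hR]
    linarith
  unfold cl
  apply max_eq_left
  exact (min_le_right _ _).trans (by linarith)

theorem cl_cont (R : ℝ) : Continuous (cl R) := by
  unfold cl
  fun_prop

end TS2_aux

open TS2_aux in
/-- [QB-TS2] Test functions and cut-off functions. -/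
theorem exists_tests {G : Type} [TopologicalSpace G] [CompactSpace G] [T2Space G] (K : Cx)
    (κ : C(G, K.real)) (δ : ℝ) (hδ : 0 < δ) :
    ∃ (W : ℕ) (θ χ : ℕ → C(G, ℝ)), Tests K κ δ W θ χ := by
  classical
  rcases isEmpty_or_nonempty G with hG | hG
  · exact ⟨0, fun _ => 0, fun _ => 0,
      { θ_nonneg := fun w z => hG.elim z
        θ_sum := fun z => hG.elim z
        θ_card := fun z => hG.elim z
        χ_range := fun w z => hG.elim z
        χ_one := fun w z => hG.elim z
        χ_close := fun w hw => absurd hw (Nat.not_lt_zero w)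
        θ_ne := fun w hw => absurd hw (Nat.not_lt_zero w)
        χ_loc := fun w hw => absurd hw (Nat.not_lt_zero w) }⟩
  obtain ⟨z0⟩ := hG
  set q : ℕ := K.vert.card with hq
  have hq0 : 0 < q := (real_mem (κ z0).2).2.2.2
  have hqR : (0 : ℝ) < q := by exact_mod_cast hq0
  set R : ℝ := 1 / (2 * q) with hR
  have hR0 : 0 < R := by positivity
  set ρ : ℝ := min (R / 3) (δ * R / 6) with hρ
  have hρ0 : 0 < ρ := by
    rw [hρ, lt_min_iff]
    constructor <;> positivity
  have hρ1 : ρ ≤ R / 3 := min_le_left _ _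
  have hρ2 : ρ ≤ δ * R / 6 := min_le_right _ _
  let e : Fin q ≃ K.vert := K.vert.equivFin.symm
  let x : G → Fin q → ℝ := fun z j => (κ z).1 (e j)
  have hx : Continuous x := by
    refine continuous_pi fun j => ?_
    exact (continuous_apply (e j : ℕ)).comp (continuous_subtype_val.comp κ.continuous)
  let p : G → Fin q → ℝ := fun z j => x z j / ρ
  have hp : Continuous p := by
    refine continuous_pi fun j => ?_
    exact ((continuous_apply j).comp hx).div_const ρ
  -- the support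
  have hsupp : ∀ (v : Fin q → ℤ) (z : G), kuhn v (p z) ≠ 0 → ∀ j, |x z j - ρ * v j| < ρ := by
    intro v z h j
    have h1 := kuhn_supp v (p z) h j
    have h2 : x z j - ρ * v j = ρ * (p z j - v j) := by
      simp only [p]
      field_simp
    rw [h2, abs_mul, abs_of_pos hρ0]
    calc ρ * |p z j - v j| < ρ * 1 := mul_lt_mul_of_pos_left h1 hρ0
      _ = ρ := mul_one ρ
  obtain ⟨M, hM⟩ : ∃ M : ℕ, 1 / ρ + 1 ≤ M := exists_nat_ge _
  set V : Finset (Fin q → ℤ) := (Fintype.piFinset fun _ => Finset.Icc (-(M : ℤ)) M).filter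
    (fun v => ∃ z, kuhn v (p z) ≠ 0) with hV
  have hVmem : ∀ v z, kuhn v (p z) ≠ 0 → v ∈ V := by
    intro v z h
    rw [hV, Finset.mem_filter, Fintype.mem_piFinset]
    refine ⟨fun j => ?_, z, h⟩
    have h1 := abs_lt.1 (kuhn_supp v (p z) h j)
    have h2 := real_mem (κ z).2
    have h3 : 0 ≤ p z j := div_nonneg (h2.1 _) hρ0.le
    have h4 : p z j ≤ 1 / ρ := div_le_div_of_nonneg_right (h2.2.1 _) hρ0.le
    rw [Finset.mem_Icc]
    constructor
    · have h5 : (-(M : ℝ)) ≤ v j := by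
        have : (0 : ℝ) < 1 / ρ := by positivity
        linarith
      exact_mod_cast h5
    · have h5 : (v j : ℝ) ≤ M := by linarith
      exact_mod_cast h5
  let f : Fin V.card ≃ V := V.equivFin.symm
  let D : (Fin q → ℤ) → G → ℝ := fun v z => dist (fun j => ρ * (v j : ℝ)) (x z)
  have hD : ∀ v, Continuous (D v) := fun v => Continuous.dist continuous_const hx
  have hDle : ∀ v z, kuhn v (p z) ≠ 0 → D v z ≤ ρ := by
    intro v z h
    refine (dist_pi_le_iff hρ0.le).2 fun j => ?_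
    rw [Real.dist_eq, abs_sub_comm]
    exact (hsupp v z h j).le
  let θ : ℕ → C(G, ℝ) := fun w =>
    if h : w < V.card then ⟨fun z => kuhn (f ⟨w, h⟩).1 (p z), (continuous_kuhn _).comp hp⟩ else 0
  let χ : ℕ → C(G, ℝ) := fun w =>
    if h : w < V.card then ⟨fun z => cl R (D (f ⟨w, h⟩).1 z), (cl_cont R).comp (hD _)⟩ else 0
  have hθ : ∀ (w : ℕ) (h : w < V.card) z, θ w z = kuhn (f ⟨w, h⟩).1 (p z) := by
    intro w h z
    simp only [θ, dif_pos h]
    rfl
  have hθ0 : ∀ (w : ℕ) (h : ¬ w < V.card) z, θ w z = 0 := by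
    intro w h z
    simp only [θ, dif_neg h]
    rfl
  have hχ : ∀ (w : ℕ) (h : w < V.card) z, χ w z = cl R (D (f ⟨w, h⟩).1 z) := by
    intro w h z
    simp only [χ, dif_pos h]
    rfl
  have hχ0 : ∀ (w : ℕ) (h : ¬ w < V.card) z, χ w z = 0 := by
    intro w h z
    simp only [χ, dif_neg h]
    rfl
  have hne : ∀ w z, θ w z ≠ 0 → ∃ h : w < V.card, kuhn (f ⟨w, h⟩).1 (p z) ≠ 0 := by
    intro w z h
    by_cases hw : w < V.card
    · exact ⟨hw, by rwa [hθ w hw] at h⟩
    · exact absurd (hθ0 w hw z) h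
  refine ⟨V.card, θ, χ, ?_, ?_, ?_, ?_, ?_, ?_, ?_, ?_⟩
  · -- θ_nonneg
    intro w z
    by_cases hw : w < V.card
    · rw [hθ w hw]; exact kuhn_nonneg _ _
    · rw [hθ0 w hw]
  · -- θ_sum
    intro z
    rw [Finset.sum_range]
    have h1 : ∑ i : Fin V.card, θ i z = ∑ i : Fin V.card, kuhn (f i).1 (p z) :=
      Finset.sum_congr rfl fun i _ => hθ i i.2 z
    rw [h1, Equiv.sum_comp f (fun v : V => kuhn v.1 (p z)), Finset.sum_coe_sort V
      (fun v => kuhn v (p z)), ← finsum_eq_sum_of_support_subset, kuhn_sum]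
    intro v hv
    exact hVmem v z hv
  · -- θ_card
    intro z
    obtain ⟨hfin, hcard⟩ := kuhn_finite (p z)
    rw [Set.ncard_eq_toFinset_card _ hfin] at hcard
    refine le_trans ?_ hcard
    let g : ℕ → (Fin q → ℤ) := fun w => if h : w < V.card then (f ⟨w, h⟩).1 else 0
    refine Finset.card_le_card_of_injOn g ?_ ?_
    · intro w hw
      have hw' := (Finset.mem_filter.1 (Finset.mem_coe.1 hw)).2
      obtain ⟨h, h1⟩ := hne w z hw'
      rw [Finset.mem_coe, Set.Finite.mem_toFinset, Set.mem_setOf_eq]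
      simp only [g, dif_pos h]
      exact h1
    · intro w hw w' hw' heq
      have h1 := Finset.mem_range.1 (Finset.mem_filter.1 (Finset.mem_coe.1 hw)).1
      have h2 := Finset.mem_range.1 (Finset.mem_filter.1 (Finset.mem_coe.1 hw')).1
      simp only [g, dif_pos h1, dif_pos h2] at heq
      have h3 := f.injective (Subtype.ext heq)
      exact congrArg Fin.val h3
  · -- χ_range
    intro w z
    by_cases hw : w < V.card
    · rw [hχ w hw]; exact cl_range _ _
    · rw [hχ0 w hw]; exact ⟨le_rfl, zero_le_one⟩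
  · -- χ_one
    intro w z h
    obtain ⟨hw, h1⟩ := hne w z h
    rw [hχ w hw]
    exact cl_one hR0 ((hDle _ z h1).trans hρ1)
  · -- χ_close
    intro w hw w' hw' y hy hy' z
    obtain ⟨_, h1⟩ := hne w y hy
    obtain ⟨_, h2⟩ := hne w' y hy'
    rw [hχ w hw, hχ w' hw']
    refine (cl_close hR0).trans ?_
    have h3 : |D (f ⟨w, hw⟩).1 z - D (f ⟨w', hw'⟩).1 z| ≤ 2 * ρ := by
      have h4 := hDle _ y h1
      have h5 := hDle _ y h2
      refine (abs_dist_sub_le _ _ _).trans ?_
      refine (dist_triangle_right _ _ (x y)).trans ?_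
      linarith
    calc 3 / R * |D (f ⟨w, hw⟩).1 z - D (f ⟨w', hw'⟩).1 z| ≤ 3 / R * (2 * ρ) :=
          mul_le_mul_of_nonneg_left h3 (by positivity)
      _ ≤ 3 / R * (2 * (δ * R / 6)) :=
          mul_le_mul_of_nonneg_left (by linarith) (by positivity)
      _ = δ := by
          field_simp
          norm_num
  · -- θ_ne
    intro w hw
    obtain ⟨z, hz⟩ := (Finset.mem_filter.1 (f ⟨w, hw⟩).2).2
    exact ⟨z, by rw [hθ w hw]; exact hz⟩
  · -- χ_loc
    intro w hw y z hy hz i
    obtain ⟨_, h1⟩ := hne w y hy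
    rw [hχ w hw] at hz
    have h2 := cl_ne hR0 hz
    have h3 := hDle _ y h1
    by_cases hi : i ∈ K.vert
    · have h4 : dist (x y) (x z) < R := by
        calc dist (x y) (x z) ≤ dist (x y) (fun j => ρ * ((f ⟨w, hw⟩).1 j : ℝ)) +
              dist (fun j => ρ * ((f ⟨w, hw⟩).1 j : ℝ)) (x z) := dist_triangle _ _ _
          _ = D (f ⟨w, hw⟩).1 y + D (f ⟨w, hw⟩).1 z := by
              rw [dist_comm (x y)]
          _ < R := by linarith
      have h5 := (dist_le_pi_dist (x y) (x z) (e.symm ⟨i, hi⟩)).trans_lt h4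
      have h6 : ∀ u, x u (e.symm ⟨i, hi⟩) = (κ u).1 i := by
        intro u
        simp only [x, Equiv.apply_symm_apply]
      rw [h6, h6, Real.dist_eq] at h5
      exact h5
    · rw [(real_mem (κ y).2).2.2.1 i hi, (real_mem (κ z).2).2.2.1 i hi, sub_zero, abs_zero]
      exact hR0

end Pool.QB
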