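import Pool.Agent.MP_c51823_gt.QB.Core

/-!
# [QB] carriers of maps
-/

set_option autoImplicit false
open Topology

namespace Pool.QB

/-- `F(|s|) ⊆ |car s|` -/
def CarBy {K' K : Cx} (car : Finset ℕ → Finset ℕ) (F : C(K'.real, K.real)) : Prop :=
  ∀ x, fsupp (F x).1 ⊆ car (fsupp x.1)

end Pool.QB
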