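import Pool.Agent.MP_c51823_gt.QB.TVert

/-!
# [QB-TS3] Averages of vertices, QB_PROOF.md section 10 (*) and (a)
-/

set_option autoImplicit false
open Topology

namespace Pool.QB

theorem ts3_vert_pos (K : Cx) {x : ℕ → ℝ} (hx : x ∈ K.real) : 0 < K.vert.card := by
  obtain ⟨s, hs, -⟩ := hx
  obtain ⟨i, hi⟩ := K.ne s hs
  exact Finset.card_pos.2 ⟨i, Finset.mem_biUnion.2 ⟨s, hs, hi⟩⟩

/-- [QB-TS3a] maximal vertices -/
theorem exists_bmax {G : Type} [TopologicalSpace G] (K : Cx) (κ : C(G, K.real)) :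
    ∃ b : G → ℕ, ∀ z, b z ∈ K.vert ∧ 1 / (K.vert.card : ℝ) ≤ (κ z).1 (b z) := by
  have h : ∀ z : G, ∃ i : ℕ, i ∈ K.vert ∧ 1 / (K.vert.card : ℝ) ≤ (κ z).1 i := by
    intro z
    obtain ⟨s, hs, h0, h1, h2⟩ := (κ z).2
    have hsv : s ⊆ K.vert := fun i hi => Finset.mem_biUnion.2 ⟨s, hs, hi⟩
    have hne := K.ne s hs
    have hcs : (0 : ℝ) < s.card := by exact_mod_cast Finset.card_pos.2 hne
    have hsum : ∑ _i ∈ s, (1 / (s.card : ℝ)) ≤ ∑ i ∈ s, (κ z).1 i := by
      rw [Finset.sum_const, nsmul_eq_mul, h2, mul_one_div_cancel hcs.ne']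
    obtain ⟨i, hi, hle⟩ := Finset.exists_le_of_sum_le hne hsum
    refine ⟨i, hsv hi, le_trans ?_ hle⟩
    have hc : (s.card : ℝ) ≤ K.vert.card := by exact_mod_cast Finset.card_le_card hsv
    exact one_div_le_one_div_of_le hcs hc
  choose b hb using h
  exact ⟨b, hb⟩

/-- [QB-TS3b] `Z` lies in the `m`-skeleton, with support in `supp κ(y)` for every `y` near -/
theorem Zav_mem {G : Type} [TopologicalSpace G] (K : Cx) (κ : C(G, K.real)) (b : G → ℕ)
    (hb : ∀ z, 1 / (K.vert.card : ℝ) ≤ (κ z).1 (b z)) (χ : G → ℝ) (hχ : ∀ z, 0 ≤ χ z) (y : G)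
    (hloc : ∀ z, χ z ≠ 0 → ∀ i, |(κ y).1 i - (κ z).1 i| < 1 / (2 * K.vert.card)) {r : ℕ}
    (z : Fin r → G) (c : Fin r → ℝ) (m : ℕ) (hc : c ∈ Wts m) (hs : 0 < ∑ v, c v * χ (z v)) :
    Zav b χ z c ∈ (K.skel m).real ∧ fsupp (Zav b χ z c) ⊆ fsupp (κ y).1 := by
  have hcard : (0 : ℝ) < K.vert.card := by exact_mod_cast ts3_vert_pos K (κ y).2
  have hw : ∀ v, 0 ≤ c v * χ (z v) := fun v => mul_nonneg (hc.1 v) (hχ _)
  have key : ∀ v, c v * χ (z v) ≠ 0 → b (z v) ∈ fsupp (κ y).1 := by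
    intro v hv
    have hχv : χ (z v) ≠ 0 := fun h => hv (by rw [h, mul_zero])
    have h1 := hloc (z v) hχv (b (z v))
    have h2 := hb (z v)
    rw [mem_fsupp_iff_pos K (κ y).2]
    have h3 := (abs_lt.1 h1).1
    have h4 : 1 / (2 * (K.vert.card : ℝ)) = 1 / (K.vert.card : ℝ) / 2 := by
      rw [div_div, mul_comm]
    rw [h4] at h3
    have h5 : 0 < 1 / (K.vert.card : ℝ) := by positivity
    linarith
  have hnn : ∀ i, 0 ≤ Zav b χ z c i := by
    intro i
    refine div_nonneg (Finset.sum_nonneg fun v _ => ?_) hs.le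
    split_ifs
    · exact hw v
    · exact le_rfl
  have hz : ∀ i, i ∉ fsupp (κ y).1 → Zav b χ z c i = 0 := by
    intro i hi
    have : ∑ v, (if b (z v) = i then c v * χ (z v) else 0) = 0 := by
      refine Finset.sum_eq_zero fun v _ => ?_
      split_ifs with h
      · by_contra hne
        exact hi (h ▸ key v hne)
      · rfl
    unfold Zav
    rw [this, zero_div]
  have hsum : ∑ i ∈ fsupp (κ y).1, Zav b χ z c i = 1 := by
    unfold Zav
    rw [← Finset.sum_div, Finset.sum_comm, div_eq_one_iff_eq hs.ne']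
    refine Finset.sum_congr rfl fun v _ => ?_
    rw [Finset.sum_ite_eq]
    split_ifs with h
    · rfl
    · by_contra hne
      exact h (key v (Ne.symm hne))
  have hsimp : Zav b χ z c ∈ simp (fsupp (κ y).1) := ⟨hnn, hz, hsum⟩
  have hreal : Zav b χ z c ∈ K.real := simp_subset_real K (fsupp_mem K (κ y).2) hsimp
  refine ⟨?_, fsupp_subset_of_simp hsimp⟩
  rw [mem_skel_real]
  refine ⟨hreal, ?_⟩
  have hsub : fsupp (Zav b χ z c) ⊆
      (Finset.univ.filter fun v => c v ≠ 0).image fun v => b (z v) := by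
    intro i hi
    rw [mem_fsupp K hreal] at hi
    have : ∃ v, (if b (z v) = i then c v * χ (z v) else 0) ≠ 0 := by
      by_contra hcon
      push Not at hcon
      apply hi
      unfold Zav
      rw [Finset.sum_eq_zero fun v _ => hcon v, zero_div]
    obtain ⟨v, hv⟩ := this
    rw [Finset.mem_image]
    refine ⟨v, ?_, ?_⟩
    · rw [Finset.mem_filter]
      refine ⟨Finset.mem_univ _, fun h => hv ?_⟩
      rw [h, zero_mul, ite_self]
    · by_contra hne
      exact hv (if_neg hne)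
  have h1 := (Finset.card_le_card hsub).trans Finset.card_image_le
  have h2 := hc.2
  omega

/-- [QB-TS3c] closeness of the averages for two cut-offs -/
theorem Zav_close {G : Type} {r : ℕ} (b : G → ℕ) (χ χ' : G → ℝ) (hχ : ∀ z, 0 ≤ χ z)
    (hχ' : ∀ z, 0 ≤ χ' z) (δ B η : ℝ) (hη : 0 < η)
    (hδ : ∀ z, |χ z - χ' z| ≤ δ) (z : Fin r → G) (c : Fin r → ℝ) (hc : ∀ v, 0 ≤ c v)
    (hB : ∑ v, c v ≤ B) (h1 : η ≤ ∑ v, c v * χ (z v)) (h2 : η ≤ ∑ v, c v * χ' (z v))
    (V : Finset ℕ) : ∑ i ∈ V, |Zav b χ z c i - Zav b χ' z c i| ≤ 2 * δ * B / η := by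
  set S := ∑ v, c v * χ (z v) with hS
  set S' := ∑ v, c v * χ' (z v) with hS'
  have hS0 : 0 < S := hη.trans_le h1
  have hS'0 : 0 < S' := hη.trans_le h2
  set A : ℕ → ℝ := fun i => ∑ v, if b (z v) = i then c v * χ (z v) else 0 with hA
  set A' : ℕ → ℝ := fun i => ∑ v, if b (z v) = i then c v * χ' (z v) else 0 with hA'
  have hδ0 : 0 ≤ δ := by
    by_contra hneg
    have : r = 0 := by
      by_contra hr
      have := (abs_nonneg _).trans (hδ (z ⟨0, Nat.pos_of_ne_zero hr⟩))
      exact hneg this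
    subst this
    simp [hS] at hS0
  have hsum_le : ∀ t : Fin r → ℝ, (∀ v, 0 ≤ t v) →
      ∑ i ∈ V, ∑ v, (if b (z v) = i then t v else 0) ≤ ∑ v, t v := by
    intro t ht
    rw [Finset.sum_comm]
    refine Finset.sum_le_sum fun v _ => ?_
    rw [Finset.sum_ite_eq]
    split_ifs
    · exact le_rfl
    · exact ht v
  have hd : ∀ v, |c v * χ (z v) - c v * χ' (z v)| ≤ δ * c v := by
    intro v
    rw [← mul_sub, abs_mul, abs_of_nonneg (hc v), mul_comm]
    exact mul_le_mul_of_nonneg_right (hδ _) (hc v)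
  have hD : ∑ v, |c v * χ (z v) - c v * χ' (z v)| ≤ δ * B := by
    refine (Finset.sum_le_sum fun v _ => hd v).trans ?_
    rw [← Finset.mul_sum]
    exact mul_le_mul_of_nonneg_left hB hδ0
  have hAA : ∑ i ∈ V, |A i - A' i| ≤ δ * B := by
    refine le_trans ?_ hD
    refine le_trans ?_ (hsum_le _ fun v => abs_nonneg _)
    refine Finset.sum_le_sum fun i _ => ?_
    rw [hA, hA']
    simp only
    rw [← Finset.sum_sub_distrib]
    refine (Finset.abs_sum_le_sum_abs _ _).trans (Finset.sum_le_sum fun v _ => ?_)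
    split_ifs
    · exact le_rfl
    · simp
  have hSS : |S - S'| ≤ δ * B := by
    refine le_trans ?_ hD
    rw [hS, hS', ← Finset.sum_sub_distrib]
    exact Finset.abs_sum_le_sum_abs _ _
  have hA'0 : ∀ i, 0 ≤ A' i := by
    intro i
    refine Finset.sum_nonneg fun v _ => ?_
    split_ifs
    · exact mul_nonneg (hc v) (hχ' _)
    · exact le_rfl
  have hA's : ∑ i ∈ V, A' i ≤ S' := hsum_le _ fun v => mul_nonneg (hc v) (hχ' _)
  have hterm : ∀ i, |Zav b χ z c i - Zav b χ' z c i| ≤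
      |A i - A' i| / S + A' i * (|S - S'| / (S * S')) := by
    intro i
    have e1 : Zav b χ z c i - Zav b χ' z c i =
        (A i - A' i) / S + A' i * ((S' - S) / (S * S')) := by
      change A i / S - A' i / S' = _
      field_simp
      ring
    rw [e1]
    refine (abs_add_le _ _).trans (le_of_eq ?_)
    rw [abs_div, abs_mul, abs_div, abs_of_pos hS0, abs_of_nonneg (hA'0 i),
      abs_of_pos (mul_pos hS0 hS'0), abs_sub_comm S' S]
  calc ∑ i ∈ V, |Zav b χ z c i - Zav b χ' z c i|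
      ≤ ∑ i ∈ V, (|A i - A' i| / S + A' i * (|S - S'| / (S * S'))) :=
        Finset.sum_le_sum fun i _ => hterm i
    _ = (∑ i ∈ V, |A i - A' i|) / S + (∑ i ∈ V, A' i) * (|S - S'| / (S * S')) := by
        rw [Finset.sum_add_distrib, ← Finset.sum_div, ← Finset.sum_mul]
    _ ≤ δ * B / S + S' * (δ * B / (S * S')) := by
        have hpos : 0 < S * S' := mul_pos hS0 hS'0
        gcongr
    _ = 2 * δ * B / S := by
        field_simp
        ring
    _ ≤ 2 * δ * B / η := by
        have hB0 : 0 ≤ B := (Finset.sum_nonneg fun v _ => hc v).trans hB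
        have : 0 ≤ 2 * δ * B := by positivity
        exact div_le_div_of_nonneg_left this hη h1

/-- [QB-TS3d] continuity of `Z` in the weights -/
theorem Zav_cont {G : Type} {r : ℕ} (b : G → ℕ) (χ : G → ℝ) (z : Fin r → G) :
    ContinuousOn (fun c => Zav b χ z c) {c | 0 < ∑ v, c v * χ (z v)} := by
  refine continuousOn_pi.2 fun i => ?_
  unfold Zav
  refine ContinuousOn.div ?_ ?_ fun c hc => (ne_of_gt hc)
  · refine (continuous_finsetSum _ fun v _ => ?_).continuousOn
    split_ifs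
    · exact (continuous_apply v).mul continuous_const
    · exact continuous_const
  · refine (continuous_finsetSum _ fun v _ => ?_).continuousOn
    exact (continuous_apply v).mul continuous_const

end Pool.QB
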