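import Pool.Agent.MP_c51823_gt.QB.TVert

/-!
# [QB-TS4] uniform continuity
-/

set_option autoImplicit false
open Topology

namespace Pool.QB

/-- [QB-TS4] uniform continuity of a map between realizations in the `ℓ¹`-distances -/
theorem unif_l1 (K L : Cx) (F : C(K.real, L.real)) (ε : ℝ) (hε : 0 < ε) :
    ∃ δ > 0, ∀ x y : K.real, ∑ i ∈ K.vert, |x.1 i - y.1 i| ≤ δ →
      ∑ i ∈ L.vert, |(F x).1 i - (F y).1 i| ≤ ε := by
  have hz : ∀ x : K.real, ∀ i, i ∉ K.vert → x.1 i = 0 := by
    rintro ⟨x, s, hs, hx⟩ i hi
    apply hx.2.1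
    intro h
    exact hi (Finset.mem_biUnion.2 ⟨s, hs, h⟩)
  have hg : Continuous fun p : K.real × K.real =>
      ∑ i ∈ L.vert, |(F p.1).1 i - (F p.2).1 i| := by
    refine continuous_finsetSum _ fun i _ => ?_
    have h1 : Continuous fun p : K.real × K.real => (F p.1).1 i :=
      (continuous_apply i).comp (continuous_subtype_val.comp (F.continuous.comp continuous_fst))
    have h2 : Continuous fun p : K.real × K.real => (F p.2).1 i :=
      (continuous_apply i).comp (continuous_subtype_val.comp (F.continuous.comp continuous_snd))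
    exact (h1.sub h2).abs
  have hd : Continuous fun p : K.real × K.real => ∑ i ∈ K.vert, |p.1.1 i - p.2.1 i| := by
    refine continuous_finsetSum _ fun i _ => ?_
    have h1 : Continuous fun p : K.real × K.real => p.1.1 i :=
      (continuous_apply i).comp (continuous_subtype_val.comp continuous_fst)
    have h2 : Continuous fun p : K.real × K.real => p.2.1 i :=
      (continuous_apply i).comp (continuous_subtype_val.comp continuous_snd)
    exact (h1.sub h2).abs
  let C : Set (K.real × K.real) := {p | ε ≤ ∑ i ∈ L.vert, |(F p.1).1 i - (F p.2).1 i|}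
  have hC : IsCompact C := (isClosed_le continuous_const hg).isCompact
  rcases C.eq_empty_or_nonempty with hCe | hCn
  · refine ⟨1, one_pos, fun x y _ => ?_⟩
    by_contra hcon
    have : (x, y) ∈ C := (not_le.1 hcon).le
    rw [hCe] at this
    exact this
  · obtain ⟨p, hp, hmin⟩ := hC.exists_isMinOn hCn hd.continuousOn
    have hpos : 0 < ∑ i ∈ K.vert, |p.1.1 i - p.2.1 i| := by
      refine lt_of_le_of_ne (Finset.sum_nonneg fun i _ => abs_nonneg _) fun h0 => ?_
      have h1 := (Finset.sum_eq_zero_iff_of_nonneg (fun i _ => abs_nonneg _)).1 h0.symm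
      have h2 : p.1 = p.2 := by
        apply Subtype.ext
        funext i
        by_cases hi : i ∈ K.vert
        · have := h1 i hi
          rw [abs_eq_zero, sub_eq_zero] at this
          exact this
        · rw [hz _ i hi, hz _ i hi]
      have h3 : ε ≤ ∑ i ∈ L.vert, |(F p.1).1 i - (F p.2).1 i| := hp
      rw [h2] at h3
      simp at h3
      linarith
    refine ⟨(∑ i ∈ K.vert, |p.1.1 i - p.2.1 i|) / 2, by positivity, fun x y hxy => ?_⟩
    by_contra hcon
    have hmem : (x, y) ∈ C := (not_le.1 hcon).le
    have h4 : ∑ i ∈ K.vert, |p.1.1 i - p.2.1 i| ≤ ∑ i ∈ K.vert, |x.1 i - y.1 i| := hmin hmem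
    linarith

end Pool.QB
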