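import Pool.Agent.MP_c51823_gt.QB.TestDef
import Pool.Agent.MP_c51823_gt.QB.TS3
import Pool.Agent.MP_c51823_gt.QB.TS4
import Pool.Agent.MP_c51823_gt.QB.SDef

/-!
# [QB-TS5] Selection functions, QB_PROOF.md section 10
-/

set_option autoImplicit false
open Topology

namespace Pool.QB

namespace TS5_aux

theorem vert_sub (K : Cx) (t : ℕ) : K.vert ⊆ (K.skel t).vert := by
  intro v hv
  obtain ⟨s, hs, hvs⟩ := Finset.mem_biUnion.1 hv
  refine Finset.mem_biUnion.2 ⟨{v}, Finset.mem_filter.2 ⟨?_, ?_⟩, Finset.mem_singleton_self v⟩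
  · exact K.down s hs {v} (Finset.singleton_subset_iff.2 hvs) (Finset.singleton_nonempty v)
  · simp

end TS5_aux

/-- [QB-TS5] The selection functions `sel z c w = F (Z_w)`, `Z_w = Zav b (χ w) z c` (with `b` from
TS3a). `δ` is chosen from `unif_l1` (TS4) for `F` and `Zav_close` (TS3c). -/
theorem exists_sel {h : HT} {u : h.H 0 (absP S4)} (S' S : Stage h u) (r : Refine S' S) (m : ℕ)
    (F : C((S'.K.skel m).real, (S.K.skel 3).real)) (hF : CarBy r.car F) (B η ε : ℝ) (hB : 0 ≤ B)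
    (hη : 0 < η) (hε : 0 < ε) :
    ∃ δ > 0, ∀ (W : ℕ) (θ χ : ℕ → C(S'.G, ℝ)), Tests S'.K S'.κ δ W θ χ →
      ∃ sel : ∀ {r : ℕ}, (Fin r → S'.G) → (Fin r → ℝ) → ℕ → (ℕ → ℝ),
        (∀ {r : ℕ} (z : Fin r → S'.G) (c : Fin r → ℝ) (w : ℕ), w < W → c ∈ Wts m →
          0 < ∑ v, c v * χ w (z v) → sel z c w ∈ (S.K.skel 3).real) ∧
        (∀ {r' : ℕ} (z : Fin r' → S'.G) (c : Fin r' → ℝ) (w : ℕ), w < W → c ∈ Wts m →
          0 < ∑ v, c v * χ w (z v) → ∀ y, θ w y ≠ 0 →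
          fsupp (sel z c w) ⊆ fsupp (S.κ (r.π y)).1) ∧
        (∀ {r : ℕ} (z : Fin r → S'.G) (w : ℕ), w < W →
          ContinuousOn (fun c => sel z c w) (Wts m ∩ {c | 0 < ∑ v, c v * χ w (z v)})) ∧
        (∀ {r : ℕ} (z : Fin r → S'.G) (c : Fin r → ℝ) (w w' : ℕ), w < W → w' < W →
          c ∈ Wts m → ∑ v, c v ≤ B → η ≤ ∑ v, c v * χ w (z v) → η ≤ ∑ v, c v * χ w' (z v) →
          ∀ y, θ w y ≠ 0 → θ w' y ≠ 0 →
          ∑ a ∈ S.K.vert, |sel z c w a - sel z c w' a| ≤ ε) := by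
  classical
  obtain ⟨b, hb⟩ := exists_bmax S'.K S'.κ
  obtain ⟨δ₀, hδ₀, hunif⟩ := unif_l1 (S'.K.skel m) (S.K.skel 3) F ε hε
  have hB1 : 0 < B + 1 := by linarith
  refine ⟨δ₀ * η / (2 * (B + 1)), by positivity, ?_⟩
  intro W θ χ hT
  -- membership of the averages
  have key : ∀ {r' : ℕ} (z : Fin r' → S'.G) (c : Fin r' → ℝ) (w : ℕ), c ∈ Wts m →
      0 < ∑ v, c v * χ w (z v) → ∀ y, w < W → θ w y ≠ 0 →
      Zav b (χ w) z c ∈ (S'.K.skel m).real ∧ fsupp (Zav b (χ w) z c) ⊆ fsupp (S'.κ y).1 := by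
    intro r' z c w hc hs y hw hy
    exact Zav_mem S'.K S'.κ b (fun z => (hb z).2) (χ w) (fun z => (hT.χ_range w z).1) y
      (fun z hz i => hT.χ_loc w hw y z hy hz i) z c m hc hs
  have key1 : ∀ {r' : ℕ} (z : Fin r' → S'.G) (c : Fin r' → ℝ) (w : ℕ), w < W → c ∈ Wts m →
      0 < ∑ v, c v * χ w (z v) → Zav b (χ w) z c ∈ (S'.K.skel m).real := by
    intro r' z c w hw hc hs
    obtain ⟨y, hy⟩ := hT.θ_ne w hw
    exact (key z c w hc hs y hw hy).1
  let sel : ∀ {r : ℕ}, (Fin r → S'.G) → (Fin r → ℝ) → ℕ → (ℕ → ℝ) := fun {r} z c w =>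
    if hh : Zav b (χ w) z c ∈ (S'.K.skel m).real then (F ⟨_, hh⟩).1 else 0
  have hsel : ∀ {r' : ℕ} (z : Fin r' → S'.G) (c : Fin r' → ℝ) (w : ℕ)
      (hh : Zav b (χ w) z c ∈ (S'.K.skel m).real), sel z c w = (F ⟨_, hh⟩).1 := by
    intro r' z c w hh
    exact dif_pos hh
  refine ⟨fun {r} => sel (r := r), ?_, ?_, ?_, ?_⟩
  · intro r' z c w hw hc hs
    change sel z c w ∈ _
    rw [hsel z c w (key1 z c w hw hc hs)]
    exact (F _).2
  · intro r' z c w hw hc hs y hy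
    obtain ⟨h1, h2⟩ := key z c w hc hs y hw hy
    change fsupp (sel z c w) ⊆ _
    rw [hsel z c w h1]
    have h3 := hF ⟨_, h1⟩
    have h4 : (fsupp (Zav b (χ w) z c)).Nonempty :=
      (S'.K.skel m).ne _ (fsupp_mem _ h1)
    have h5 : fsupp (S'.κ y).1 ∈ S'.K.S := fsupp_mem _ (S'.κ y).2
    exact (h3.trans (r.car_mono _ h5 _ h2 h4)).trans (r.κ_car y)
  · intro r' z w hw
    rw [continuousOn_iff_continuous_domRestrict]
    have hm : ∀ c : (Wts m ∩ {c : Fin r' → ℝ | 0 < ∑ v, c v * χ w (z v)} : Set (Fin r' → ℝ)),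
        Zav b (χ w) z c.1 ∈ (S'.K.skel m).real := fun c => key1 z c.1 w hw c.2.1 c.2.2
    have hcont : Continuous fun c : (Wts m ∩ {c : Fin r' → ℝ | 0 < ∑ v, c v * χ w (z v)} :
        Set (Fin r' → ℝ)) => (⟨Zav b (χ w) z c.1, hm c⟩ : (S'.K.skel m).real) := by
      refine Continuous.subtype_mk ?_ _
      have h1 := (Zav_cont b (χ w) z).mono
        (Set.inter_subset_right (s := Wts m) (t := {c : Fin r' → ℝ | 0 < ∑ v, c v * χ w (z v)}))
      rw [continuousOn_iff_continuous_domRestrict] at h1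
      exact h1
    have h2 := continuous_subtype_val.comp (F.continuous.comp hcont)
    refine h2.congr ?_
    intro c
    exact (hsel z c.1 w (hm c)).symm
  · intro r' z c w w' hw hw' hc hcB h1 h2 y hy hy'
    have hm1 := key1 z c w hw hc (lt_of_lt_of_le hη h1)
    have hm2 := key1 z c w' hw' hc (lt_of_lt_of_le hη h2)
    have h3 := Zav_close b (χ w) (χ w') (fun z => (hT.χ_range w z).1)
      (fun z => (hT.χ_range w' z).1) (δ₀ * η / (2 * (B + 1))) B η hη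
      (hT.χ_close w hw w' hw' y hy hy') z c hc.1 hcB h1 h2 (S'.K.skel m).vert
    have h4 : 2 * (δ₀ * η / (2 * (B + 1))) * B / η ≤ δ₀ := by
      have : 2 * (δ₀ * η / (2 * (B + 1))) * B / η = δ₀ * (B / (B + 1)) := by
        field_simp
      rw [this]
      have h5 : B / (B + 1) ≤ 1 := by
        rw [div_le_one hB1]; linarith
      nlinarith
    have h6 := hunif ⟨_, hm1⟩ ⟨_, hm2⟩ (h3.trans h4)
    show ∑ a ∈ S.K.vert, |sel z c w a - sel z c w' a| ≤ ε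
    rw [hsel z c w hm1, hsel z c w' hm2]
    refine le_trans ?_ h6
    exact Finset.sum_le_sum_of_subset_of_nonneg (TS5_aux.vert_sub _ _)
      (fun _ _ _ => abs_nonneg _)

end Pool.QB
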