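import Pool.Agent.MP_c51823_gt.QB.TDef
import Pool.Agent.MP_c51823_gt.QB.TS1
import Pool.Agent.MP_c51823_gt.QB.TS2
import Pool.Agent.MP_c51823_gt.QB.TS5
import Pool.Agent.MP_c51823_gt.QB.S4
import Pool.Agent.MP_c51823_gt.QB.F6

/-!
# [QB-T1] One step of the tower, QB_PROOF.md section 9. STEP (S4) with `m = mm (i+1)`; TS5 with `B = BB (i+1)`,
`η = ee i/((mm(i+1)+1) D)`, `D = #vertices + 1`, `ε = ee i/(1+2·4^i/100)` gives `δ`; TS2 for `δ`; new complex and points by TS1 for all
tests (old ones composed with `π`, new ones `θ`).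
-/

set_option autoImplicit false
open Topology

namespace Pool.QB

namespace T1_aux

theorem ee_pos (j : ℕ) : 0 < ee j := by unfold ee; positivity

theorem om_pos (j : ℕ) : 0 < om j := by
  unfold om
  have := ee_pos j
  positivity

/-- a fine cover for a doubly indexed finite family of tests -/
theorem exists_fine' {G : Type} [TopologicalSpace G] [CompactSpace G] [T2Space G] [Nonempty G]
    (i : ℕ) (wn : ℕ → ℕ) (th : ℕ → ℕ → C(G, ℝ)) (ε : ℝ) (hε : 0 < ε) :
    ∃ (K : Cx) (κ : C(G, K.real)) (pt : ℕ → G), ∀ (x : G) (v : ℕ), (κ x).1 v ≠ 0 → ∀ k ≤ i,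
      ∑ w ∈ Finset.range (wn k), |th k w x - th k w (pt v)| ≤ ε := by
  set s : Finset ℕ := (Finset.range (i + 1)).biUnion
    fun k => (Finset.range (wn k)).image fun w => Nat.pair k w with hs
  obtain ⟨K, κ, pt, h⟩ := exists_fine (s.sup id + 1)
    (fun m => th m.unpair.1 m.unpair.2) ε hε
  refine ⟨K, κ, pt, fun x v hv k hk => le_trans ?_ (h x v hv)⟩
  have hinj : Set.InjOn (fun w => Nat.pair k w) (Finset.range (wn k) : Set ℕ) := by
    intro a _ b _ hab
    exact (Nat.pair_eq_pair.1 hab).2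
  have h1 : ∑ w ∈ Finset.range (wn k), |th k w x - th k w (pt v)| =
      ∑ m ∈ (Finset.range (wn k)).image (fun w => Nat.pair k w),
        |th m.unpair.1 m.unpair.2 x - th m.unpair.1 m.unpair.2 (pt v)| := by
    rw [Finset.sum_image hinj]
    simp
  rw [h1]
  refine Finset.sum_le_sum_of_subset_of_nonneg ?_ fun _ _ _ => abs_nonneg _
  intro m hm
  have hms : m ∈ s := by
    rw [hs, Finset.mem_biUnion]
    exact ⟨k, Finset.mem_range.2 (Nat.lt_succ_of_le hk), hm⟩
  exact Finset.mem_range.2 (Nat.lt_succ_of_le (Finset.le_sup (f := id) hms))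

end T1_aux

open T1_aux

variable {h : HT} {u : h.H 0 (absP S4)}

/-- [QB-T1] One step of the tower (uses STEP with `m = mm (i+1)`). -/
theorem exists_stepData (h4 : EB h u 4 ℤ) (i : ℕ) (L : Level h u) :
    ∃ (L' : Level h u), Nonempty (StepData i L' L) := by
  obtain ⟨S', r, F, hF⟩ := STEP h4 (mm (i + 1)) L.toStage
  have hD : (0 : ℝ) < (mm (i + 1) + 1) * ((S'.K.vert.card + 1 : ℕ) : ℝ) := by positivity
  have hη : 0 < ee i / ((mm (i + 1) + 1) * ((S'.K.vert.card + 1 : ℕ) : ℝ)) :=
    div_pos (ee_pos i) hD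
  have hε : 0 < ee i / (1 + 2 * (4 ^ i / 100)) := div_pos (ee_pos i) (by positivity)
  obtain ⟨δ, hδ, hsel⟩ := exists_sel S' L.toStage r (mm (i + 1)) F hF (BB (i + 1)) _ _
    (by unfold BB; positivity) hη hε
  obtain ⟨W, θ, χ, T⟩ := exists_tests S'.K S'.κ δ hδ
  obtain ⟨sel, sel1, sel2, sel3, sel4⟩ := hsel W θ χ T
  have : Nonempty S'.G := HT.nonempty_of_ne_zero h 0 _ S'.ess
  obtain ⟨K', κ', pt', hfine⟩ := exists_fine' i (fun k => if k < i then L.wn k else W)
    (fun k w => if k < i then (L.th k w).comp r.π else θ w) (om (i + 1) / 2)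
    (half_pos (om_pos _))
  refine ⟨{ G := S'.G, f := S'.f, ess := S'.ess, K := K', κ := κ', pt := pt',
            wn := fun k => if k < i then L.wn k else W,
            th := fun k w => if k < i then (L.th k w).comp r.π else θ w }, ⟨?_⟩⟩
  refine { π := r.π, f_eq := r.f_eq, wn_eq := ?_, th_eq := ?_, th_nonneg := ?_, th_sum := ?_,
           D := S'.K.vert.card + 1, hD := ?_, fine := hfine, χ := χ, χ_nonneg := ?_, χ_le := ?_,
           χ_one := ?_, sel := sel, sel_mem := ?_, sel_supp := ?_, sel_cont := ?_,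
           sel_close := ?_ }
  · intro k hk
    simp [hk]
  · intro k hk w
    simp [hk]
  · intro w z
    simpa using T.θ_nonneg w z
  · intro z
    simpa using T.θ_sum z
  · intro z
    simpa using T.θ_card z
  · intro w z
    exact (T.χ_range w z).1
  · intro w z
    exact (T.χ_range w z).2
  · intro w z hz
    refine T.χ_one w z ?_
    simpa using hz
  · intro r z c w hw hc h0
    exact sel1 z c w (by simpa using hw) hc h0
  · intro r z c w hw hc h0 y hy
    exact sel2 z c w (by simpa using hw) hc h0 y (by simpa using hy)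
  · intro r z w hw
    exact sel3 z w (by simpa using hw)
  · intro r z c w w' hw hw' hc hB h1 h2 y hy hy'
    exact sel4 z c w w' (by simpa using hw) (by simpa using hw') hc hB h1 h2 y
      (by simpa using hy) (by simpa using hy')

end Pool.QB
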