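import Pool.Agent.MP_c51823_gt.QB.Core

/-!
# [QB-X2]
-/

set_option autoImplicit false
open Topology

namespace Pool.QB

/-- [QB-X2] The unit ball is bounded. -/
theorem unit_ball_bounded (E : Type) [NormedAddCommGroup E] [Module ℝ E] [ContinuousSMul ℝ E]
    (hsm : ∀ (c : ℝ) (x : E), ‖c • x‖ = Real.sqrt |c| * ‖x‖) :
    Bornology.IsVonNBounded ℝ (Metric.ball (0 : E) 1) := by
  intro V hV
  obtain ⟨r, hr, hrV⟩ := Metric.mem_nhds_iff.1 hV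
  rw [absorbs_iff_norm]
  refine ⟨1 / r ^ 2, fun c hc x hx => ?_⟩
  have hpos : 0 < 1 / r ^ 2 := by positivity
  have hc0 : c ≠ 0 := by
    intro h
    rw [h, norm_zero] at hc
    exact absurd hc (not_le.2 hpos)
  rw [Set.mem_smul_set_iff_inv_smul_mem₀ hc0]
  apply hrV
  rw [mem_ball_zero_iff] at hx ⊢
  rw [hsm]
  have h1 : |c⁻¹| ≤ r ^ 2 := by
    rw [abs_inv, ← Real.norm_eq_abs]
    calc ‖c‖⁻¹ ≤ (1 / r ^ 2)⁻¹ := inv_anti₀ hpos hc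
      _ = r ^ 2 := by rw [one_div, inv_inv]
  have h2 : Real.sqrt |c⁻¹| ≤ r := by
    calc Real.sqrt |c⁻¹| ≤ Real.sqrt (r ^ 2) := Real.sqrt_le_sqrt h1
      _ = r := Real.sqrt_sq hr.le
  have h3 : 0 < Real.sqrt |c⁻¹| := Real.sqrt_pos.2 (abs_pos.2 (inv_ne_zero hc0))
  calc Real.sqrt |c⁻¹| * ‖x‖ < Real.sqrt |c⁻¹| * 1 := mul_lt_mul_of_pos_left hx h3
    _ ≤ r := by rw [mul_one]; exact h2

end Pool.QB
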