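import Pool.Agent.MP_c51823_gt.QB.XDef

/-!
# [QB-X3]
-/

set_option autoImplicit false
open Topology

namespace Pool.QB

theorem X3_rep_pos {C : Type} {U : ℕ → Set (C × C)} {μ : C →₀ ℝ} {c : ℝ} (h : Rep U μ c) :
    0 < c := by
  obtain ⟨n, a, x, y, j, _, _, h3⟩ := h
  refine lt_of_le_of_lt (Finset.sum_nonneg fun e _ => ?_) h3
  positivity

theorem X3_rep_mono {C : Type} {U : ℕ → Set (C × C)} {μ : C →₀ ℝ} {c d : ℝ} (h : Rep U μ c)
    (hcd : c ≤ d) : Rep U μ d := by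
  obtain ⟨n, a, x, y, j, h1, h2, h3⟩ := h
  exact ⟨n, a, x, y, j, h1, h2, lt_of_lt_of_le h3 hcd⟩

theorem X3_rep_zero {C : Type} (U : ℕ → Set (C × C)) {c : ℝ} (hc : 0 < c) :
    Rep U (0 : C →₀ ℝ) c :=
  ⟨0, Fin.elim0, Fin.elim0, Fin.elim0, Fin.elim0, fun e => e.elim0, by simp, by simpa using hc⟩

theorem X3_rep_add {C : Type} {U : ℕ → Set (C × C)} {μ ν : C →₀ ℝ} {c d : ℝ} (h : Rep U μ c)
    (h' : Rep U ν d) : Rep U (μ + ν) (c + d) := by
  obtain ⟨n, a, x, y, j, h1, h2, h3⟩ := h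
  obtain ⟨n', a', x', y', j', h1', h2', h3'⟩ := h'
  refine ⟨n + n', Fin.append a a', Fin.append x x', Fin.append y y', Fin.append j j', ?_, ?_, ?_⟩
  · intro e
    refine Fin.addCases (fun i => ?_) (fun i => ?_) e
    · simpa using h1 i
    · simpa using h1' i
  · rw [Fin.sum_univ_add, h2, h2']
    simp
  · rw [Fin.sum_univ_add]
    simp only [Fin.append_left, Fin.append_right]
    linarith

theorem X3_rep_smul {C : Type} {U : ℕ → Set (C × C)} {μ : C →₀ ℝ} {d : ℝ} (c : ℝ) (hc : c ≠ 0)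
    (h : Rep U μ d) : Rep U (c • μ) (Real.sqrt |c| * d) := by
  obtain ⟨n, a, x, y, j, h1, h2, h3⟩ := h
  refine ⟨n, fun e => c * a e, x, y, j, h1, ?_, ?_⟩
  · rw [h2, Finset.smul_sum]
    refine Finset.sum_congr rfl fun e _ => ?_
    rw [smul_smul]
  · have hpos : 0 < Real.sqrt |c| := Real.sqrt_pos.2 (abs_pos.2 hc)
    have : ∑ e, Real.sqrt |c * a e| / 2 ^ (j e) = Real.sqrt |c| * ∑ e, Real.sqrt |a e| / 2 ^ (j e) := by
      rw [Finset.mul_sum]
      refine Finset.sum_congr rfl fun e _ => ?_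
      rw [abs_mul, Real.sqrt_mul (abs_nonneg c), mul_div_assoc]
    rw [this]
    exact mul_lt_mul_of_pos_left h3 hpos

theorem X3_bdd {C : Type} (U : ℕ → Set (C × C)) (μ : C →₀ ℝ) :
    BddBelow {c : ℝ | Rep U μ c} := ⟨0, fun _ hc => (X3_rep_pos hc).le⟩

theorem X3_exists_rep {C : Type} (U : ℕ → Set (C × C)) (hU : ∀ q, q ∈ U 0) (μ : M0 C) :
    ∃ c, Rep U (μ : C →₀ ℝ) c := by
  classical
  obtain ⟨μ, hμ⟩ := μ
  by_cases h0 : μ = 0
  · subst h0
    exact ⟨1, X3_rep_zero U one_pos⟩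
  · have hne : ∃ v0, v0 ∈ μ.support := by
      by_contra hcon
      push Not at hcon
      apply h0
      rw [← Finsupp.support_eq_empty]
      exact Finset.eq_empty_of_forall_notMem hcon
    obtain ⟨v0, _⟩ := hne
    have hsum : ∑ v ∈ μ.support, μ v = 0 := by
      have h1 : Finsupp.linearCombination ℝ (fun _ : C => (1 : ℝ)) μ = 0 := hμ
      rw [Finsupp.linearCombination_apply, Finsupp.sum] at h1
      simpa using h1
    -- enumerate the support
    let e := μ.support.equivFin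
    refine ⟨∑ i : Fin μ.support.card, Real.sqrt |μ (e.symm i)| / 2 ^ 0 + 1, μ.support.card,
      fun i => μ (e.symm i), fun i => e.symm i, fun _ => v0, fun _ => 0, fun i => hU _, ?_, by
        exact lt_add_one _⟩
    show μ = ∑ i : Fin μ.support.card,
      μ (e.symm i) • (Finsupp.single ((e.symm i : μ.support) : C) (1 : ℝ) - Finsupp.single v0 (1 : ℝ))
    rw [Equiv.sum_comp e.symm (fun v : μ.support =>
      μ v • (Finsupp.single (v : C) (1 : ℝ) - Finsupp.single v0 (1 : ℝ)))]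
    rw [Finset.sum_coe_sort μ.support (fun v =>
      μ v • (Finsupp.single (v : C) (1 : ℝ) - Finsupp.single v0 (1 : ℝ)))]
    simp only [smul_sub]
    rw [Finset.sum_sub_distrib, ← Finset.sum_smul, hsum, zero_smul, sub_zero]
    conv_lhs => rw [← Finsupp.sum_single μ]
    rw [Finsupp.sum]
    refine Finset.sum_congr rfl fun v _ => ?_
    rw [Finsupp.smul_single, smul_eq_mul, mul_one]

/-- [QB-X3] -/
theorem NU_lt_iff {C : Type} (U : ℕ → Set (C × C)) (hU : ∀ q, q ∈ U 0) (μ : M0 C) (c : ℝ) :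
    NU U μ < c ↔ Rep U (μ : C →₀ ℝ) c := by
  constructor
  · intro h
    obtain ⟨d, hd, hdc⟩ := exists_lt_of_csInf_lt (X3_exists_rep U hU μ) h
    exact X3_rep_mono hd hdc.le
  · intro h
    obtain ⟨n, a, x, y, j, h1, h2, h3⟩ := h
    obtain ⟨d, hd1, hd2⟩ := exists_between h3
    exact lt_of_le_of_lt (csInf_le (X3_bdd U μ) ⟨n, a, x, y, j, h1, h2, hd1⟩) hd2

theorem NU_nonneg {C : Type} (U : ℕ → Set (C × C)) (hU : ∀ q, q ∈ U 0) (μ : M0 C) :
    0 ≤ NU U μ := by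
  by_contra hcon
  push Not at hcon
  have := (NU_lt_iff U hU μ 0).1 hcon
  exact lt_irrefl _ (X3_rep_pos this)

theorem NU_add {C : Type} (U : ℕ → Set (C × C)) (hU : ∀ q, q ∈ U 0) (μ ν : M0 C) :
    NU U (μ + ν) ≤ NU U μ + NU U ν := by
  refine le_of_forall_pos_lt_add fun ε hε => ?_
  rw [NU_lt_iff U hU]
  have h1 := (NU_lt_iff U hU μ (NU U μ + ε / 2)).1 (by linarith)
  have h2 := (NU_lt_iff U hU ν (NU U ν + ε / 2)).1 (by linarith)
  exact X3_rep_mono (X3_rep_add h1 h2) (by linarith)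

theorem X3_smul_le {C : Type} (U : ℕ → Set (C × C)) (hU : ∀ q, q ∈ U 0) (c : ℝ) (hc : c ≠ 0)
    (μ : M0 C) : NU U (c • μ) ≤ Real.sqrt |c| * NU U μ := by
  have hpos : 0 < Real.sqrt |c| := Real.sqrt_pos.2 (abs_pos.2 hc)
  by_contra hcon
  push Not at hcon
  have h1 : NU U μ < NU U (c • μ) / Real.sqrt |c| := by
    rw [lt_div_iff₀ hpos, mul_comm]; exact hcon
  have h2 := X3_rep_smul c hc ((NU_lt_iff U hU μ _).1 h1)
  rw [mul_div_cancel₀ _ hpos.ne'] at h2
  have h3 := (NU_lt_iff U hU (c • μ) (NU U (c • μ))).2 h2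
  exact lt_irrefl _ h3

theorem NU_smul {C : Type} (U : ℕ → Set (C × C)) (hU : ∀ q, q ∈ U 0) (c : ℝ) (μ : M0 C) :
    NU U (c • μ) = Real.sqrt |c| * NU U μ := by
  by_cases hc : c = 0
  · subst hc
    rw [abs_zero, Real.sqrt_zero, zero_mul, zero_smul]
    apply le_antisymm
    · by_contra hcon
      push Not at hcon
      have h3 := (NU_lt_iff U hU (0 : M0 C) (NU U (0 : M0 C))).2 (X3_rep_zero U hcon)
      exact lt_irrefl _ h3
    · exact NU_nonneg U hU _
  · refine le_antisymm (X3_smul_le U hU c hc μ) ?_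
    have hpos : 0 < Real.sqrt |c| := Real.sqrt_pos.2 (abs_pos.2 hc)
    have h1 := X3_smul_le U hU c⁻¹ (inv_ne_zero hc) (c • μ)
    rw [smul_smul, inv_mul_cancel₀ hc, one_smul, abs_inv, Real.sqrt_inv] at h1
    rw [← div_eq_inv_mul, le_div_iff₀ hpos] at h1
    linarith

end Pool.QB
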