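import Pool.Agent.MP_c51823_gt.QB.K1
import Pool.Agent.MP_c51823_gt.QB.FDef

/-!
# [QB-Z2] Proof: QB_PROOF.md section 11 (3): uniform continuity, Kuhn partition of small mesh, at most `n+2`
nonzero terms, `‖φ • x‖ = √φ ‖x‖ ≤ ‖x‖`.
-/

set_option autoImplicit false
open Topology

namespace Pool.QB

/-- [QB-Z2] Maps from a simplex to a `1/2`-normed space are approximated by finite rank maps. -/
theorem approx_simplex (E : Type) [NormedAddCommGroup E] [Module ℝ E] [ContinuousSMul ℝ E]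
    (hsm : ∀ (c : ℝ) (x : E), ‖c • x‖ = Real.sqrt |c| * ‖x‖) (n : ℕ) (f : C(Dl n, E)) (η : ℝ)
    (hη : 0 < η) : ∃ (k : ℕ) (φ : Fin k → C(Dl n, ℝ)) (m : Fin k → E),
      (∀ i l, 0 ≤ φ i l ∧ φ i l ≤ 1) ∧ ∀ l, ‖f l - ∑ i, φ i l • m i‖ < η := by
  classical
  -- uniform continuity
  set ε : ℝ := η / (n + 3) with hε
  have hn3 : (0 : ℝ) < n + 3 := by positivity
  have hεpos : 0 < ε := div_pos hη hn3
  have huc : UniformContinuous f := CompactSpace.uniformContinuous_of_continuous f.continuous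
  obtain ⟨δ, hδ, hfδ⟩ := Metric.uniformContinuous_iff.1 huc ε hεpos
  obtain ⟨N, hN⟩ := exists_nat_gt (2 / δ)
  have hN0 : (0 : ℝ) < N := lt_trans (by positivity) hN
  -- the scaled Kuhn functions
  let g : Dl n → Fin (n + 1) → ℝ := fun l i => (N : ℝ) * l.1 i
  have hg : Continuous g := by
    refine continuous_pi fun i => ?_
    exact continuous_const.mul ((continuous_apply i).comp continuous_subtype_val)
  let B : Finset (Fin (n + 1) → ℤ) := Finset.Icc (fun _ => -((N : ℤ) + 1)) (fun _ => (N : ℤ) + 1)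
  let V : Finset (Fin (n + 1) → ℤ) := B.filter fun v => ∃ l : Dl n, kuhn v (g l) ≠ 0
  have hV : ∀ v, v ∈ V ↔ ∃ l : Dl n, kuhn v (g l) ≠ 0 := by
    intro v
    refine ⟨fun h => (Finset.mem_filter.1 h).2, fun h => Finset.mem_filter.2 ⟨?_, h⟩⟩
    obtain ⟨l, hl⟩ := h
    have h0 : ∀ i, 0 ≤ l.1 i := fun i => l.2.1 i
    have h1 : ∀ i, l.1 i ≤ 1 := by
      intro i
      have := l.2.2
      rw [← this]
      exact Finset.single_le_sum (fun j _ => h0 j) (Finset.mem_univ i)
    rw [Finset.mem_Icc]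
    constructor
    · intro i
      have h := abs_lt.1 (kuhn_supp v (g l) hl i)
      have h2 : (0 : ℝ) ≤ g l i := mul_nonneg hN0.le (h0 i)
      have h3 : (-((N : ℝ) + 1)) ≤ v i := by linarith [h.2]
      exact_mod_cast h3
    · intro i
      have h := abs_lt.1 (kuhn_supp v (g l) hl i)
      have h2 : g l i ≤ N := by
        have := mul_le_mul_of_nonneg_left (h1 i) hN0.le
        simpa [g] using this
      have h3 : ((v i : ℤ) : ℝ) ≤ (N : ℝ) + 1 := by linarith [h.1]
      exact_mod_cast h3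
  choose! c hc using fun v (hv : v ∈ V) => (hV v).1 hv
  have hsum : ∀ l : Dl n, ∑ v ∈ V, kuhn v (g l) = 1 := by
    intro l
    rw [← kuhn_sum (g l)]
    symm
    refine finsum_eq_sum_of_support_subset _ fun v hv => ?_
    exact (hV v).2 ⟨l, hv⟩
  have hle1 : ∀ v ∈ V, ∀ l : Dl n, kuhn v (g l) ≤ 1 := by
    intro v hv l
    rw [← hsum l]
    exact Finset.single_le_sum (fun w _ => kuhn_nonneg w (g l)) hv
  let e := V.equivFin
  refine ⟨V.card, fun i => ⟨fun l => kuhn (e.symm i).1 (g l), (continuous_kuhn _).comp hg⟩,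
    fun i => f (c (e.symm i).1), fun i l => ⟨kuhn_nonneg _ _, hle1 _ (e.symm i).2 l⟩, fun l => ?_⟩
  have hs1 : ∑ i, kuhn (e.symm i).1 (g l) • f (c (e.symm i).1) =
      ∑ v ∈ V, kuhn v (g l) • f (c v) := by
    rw [← Finset.sum_coe_sort V]
    exact Equiv.sum_comp e.symm (fun v : V => kuhn v.1 (g l) • f (c v.1))
  have hs2 : f l - ∑ v ∈ V, kuhn v (g l) • f (c v) = ∑ v ∈ V, kuhn v (g l) • (f l - f (c v)) := by
    simp only [smul_sub, Finset.sum_sub_distrib, ← Finset.sum_smul, hsum l, one_smul]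
  change ‖f l - ∑ i, kuhn (e.symm i).1 (g l) • f (c (e.symm i).1)‖ < η
  rw [hs1, hs2]
  let S : Finset (Fin (n + 1) → ℤ) := V.filter fun v => kuhn v (g l) ≠ 0
  have hcard : S.card ≤ n + 2 := by
    have h := (kuhn_finite (g l)).2
    have h1 : (S : Set (Fin (n + 1) → ℤ)) ⊆ {v | kuhn v (g l) ≠ 0} := by
      intro v hv
      exact (Finset.mem_filter.1 (Finset.mem_coe.1 hv)).2
    have h2 := Set.ncard_le_ncard h1 (kuhn_finite (g l)).1
    rw [Set.ncard_coe_finset] at h2
    omega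
  have hterm : ∀ v ∈ V, ‖kuhn v (g l) • (f l - f (c v))‖ ≤ if kuhn v (g l) ≠ 0 then ε else 0 := by
    intro v hv
    by_cases h0 : kuhn v (g l) = 0
    · simp [h0]
    · rw [if_pos h0, hsm, abs_of_nonneg (kuhn_nonneg _ _)]
      have h1 : Real.sqrt (kuhn v (g l)) ≤ 1 := Real.sqrt_le_one.2 (hle1 v hv l)
      have h2 : dist l (c v) < δ := by
        rw [Subtype.dist_eq]
        refine (dist_pi_lt_iff hδ).2 fun i => ?_
        have ha := abs_lt.1 (kuhn_supp v (g l) h0 i)
        have hb := abs_lt.1 (kuhn_supp v (g (c v)) (hc v hv) i)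
        simp only [g] at ha hb
        rw [Real.dist_eq]
        have h3 : |(N : ℝ) * (l.1 i - (c v).1 i)| < 2 := by
          rw [abs_lt]; constructor <;> nlinarith [ha.1, ha.2, hb.1, hb.2]
        rw [abs_mul, abs_of_pos hN0] at h3
        have h4 : 2 < δ * N := by
          rw [div_lt_iff₀ hδ] at hN
          linarith
        by_contra h5
        push Not at h5
        have h6 := mul_le_mul_of_nonneg_left h5 hN0.le
        linarith [mul_comm δ (N : ℝ)]
      have h3 : ‖f l - f (c v)‖ < ε := by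
        rw [← dist_eq_norm]; exact hfδ h2
      calc Real.sqrt (kuhn v (g l)) * ‖f l - f (c v)‖ ≤ 1 * ‖f l - f (c v)‖ :=
            mul_le_mul_of_nonneg_right h1 (norm_nonneg _)
        _ ≤ ε := by rw [one_mul]; exact h3.le
  calc ‖∑ v ∈ V, kuhn v (g l) • (f l - f (c v))‖
      ≤ ∑ v ∈ V, ‖kuhn v (g l) • (f l - f (c v))‖ := norm_sum_le _ _
    _ ≤ ∑ v ∈ V, if kuhn v (g l) ≠ 0 then ε else 0 := Finset.sum_le_sum hterm
    _ = S.card * ε := by
        rw [← Finset.sum_filter, Finset.sum_const, nsmul_eq_mul]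
    _ ≤ (n + 2) * ε := by
        refine mul_le_mul_of_nonneg_right ?_ hεpos.le
        exact_mod_cast hcard
    _ < (n + 3) * ε := by nlinarith
    _ = η := by rw [hε]; field_simp

end Pool.QB
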