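import Pool.Agent.MP_c51823_gt.QB.Z1
import Pool.Agent.MP_c51823_gt.QB.Z2

/-!
# [QB-Z3] Proof: QB_PROOF.md section 11.
-/

set_option autoImplicit false
open Topology

namespace Pool.QB

/-- [QB-Z3] Finite rank approximation (section 11). -/
theorem Z_approx (E H : Type) [NormedAddCommGroup E] [Module ℝ E] [ContinuousSMul ℝ E]
    [NormedAddCommGroup H] [NormedSpace ℝ H]
    (hsm : ∀ (c : ℝ) (x : E), ‖c • x‖ = Real.sqrt |c| * ‖x‖) (e : E ≃ₜ H) (C : Type)
    [TopologicalSpace C] [CompactSpace C] [T2Space C] (δ : C(C, E)) (D : Set E) (hD : Dense D)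
    (η : ℝ) (hη : 0 < η) : ∃ (n : ℕ) (φ : Fin n → C(C, ℝ)) (m : Fin n → E),
      (∀ i, m i ∈ D) ∧ ∀ x, ‖δ x - ∑ i, φ i x • m i‖ < η := by
  classical
  rcases isEmpty_or_nonempty C with hC | hC
  · exact ⟨0, Fin.elim0, Fin.elim0, fun i => i.elim0, fun x => (hC.false x).elim⟩
  -- the map to `H`
  let g : C → H := fun x => e (δ x)
  have hg : Continuous g := e.continuous.comp δ.continuous
  have hK : IsCompact (Set.range g) := isCompact_range hg
  obtain ⟨ρ, hρ, huni⟩ := unif_at_compact (e.symm : H → E) e.symm.continuous (Set.range g) hK (η / 4)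
    (by positivity)
  -- a finite net
  obtain ⟨t, htK, htf, htc⟩ := hK.finite_cover_balls hρ
  lift t to Finset H using htf
  have htne : t.Nonempty := by
    obtain ⟨x⟩ := hC
    obtain ⟨q, hq, _⟩ := Set.mem_iUnion₂.1 (htc ⟨x, rfl⟩)
    exact ⟨q, hq⟩
  obtain ⟨k, hk⟩ : ∃ k, t.card = k + 1 := ⟨t.card - 1, by
    have := Finset.card_pos.2 htne
    omega⟩
  let E1 : Fin (k + 1) ≃ t := (finCongr hk.symm).trans t.equivFin.symm
  let q : Fin (k + 1) → H := fun i => (E1 i).1
  -- bump functions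
  let w : Fin (k + 1) → C → ℝ := fun i x => max 0 (ρ - dist (g x) (q i))
  have hwc : ∀ i, Continuous (w i) := fun i =>
    continuous_const.max (continuous_const.sub (hg.dist continuous_const))
  have hw0 : ∀ i x, 0 ≤ w i x := fun i x => le_max_left _ _
  have hwpos : ∀ x, 0 < ∑ i, w i x := by
    intro x
    obtain ⟨p, hp, hxp⟩ := Set.mem_iUnion₂.1 (htc ⟨x, rfl⟩)
    refine Finset.sum_pos' (fun i _ => hw0 i x) ⟨E1.symm ⟨p, hp⟩, Finset.mem_univ _, ?_⟩
    have h1 : q (E1.symm ⟨p, hp⟩) = p := by simp [q]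
    simp only [w, h1]
    exact lt_max_of_lt_right (sub_pos.2 hxp)
  let l : C → Dl k := fun x => ⟨fun i => w i x / ∑ j, w j x,
    fun i => div_nonneg (hw0 i x) (hwpos x).le, by
      rw [← Finset.sum_div]; exact div_self (hwpos x).ne'⟩
  have hl : Continuous l := by
    refine Continuous.subtype_mk (continuous_pi fun i => ?_) _
    exact (hwc i).div (continuous_finsetSum _ fun j _ => hwc j) fun x => (hwpos x).ne'
  -- the map from the simplex
  let r : Dl k → H := fun u => ∑ i, u.1 i • q i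
  have hr : Continuous r := by
    refine continuous_finsetSum _ fun i _ => ?_
    exact ((continuous_apply i).comp continuous_subtype_val).smul continuous_const
  let f : C(Dl k, E) := ⟨fun u => e.symm (r u), e.symm.continuous.comp hr⟩
  have hrl : ∀ x, dist (g x) (r (l x)) < ρ := by
    intro x
    have h1 : g x - r (l x) = ∑ i, (l x).1 i • (g x - q i) := by
      simp only [smul_sub, Finset.sum_sub_distrib, ← Finset.sum_smul]
      rw [(l x).2.2, one_smul]
    rw [dist_eq_norm, h1]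
    have hterm : ∀ i, ‖(l x).1 i • (g x - q i)‖ ≤ (l x).1 i * ρ := by
      intro i
      rw [norm_smul, Real.norm_of_nonneg ((l x).2.1 i)]
      rcases eq_or_lt_of_le (hw0 i x) with h0 | h0
      · have : (l x).1 i = 0 := by simp [l, ← h0]
        rw [this]; simp
      · refine mul_le_mul_of_nonneg_left ?_ ((l x).2.1 i)
        rw [← dist_eq_norm]
        by_contra h2
        push Not at h2
        have : w i x = 0 := max_eq_left (by linarith)
        linarith
    have hstrict : ∃ i, ‖(l x).1 i • (g x - q i)‖ < (l x).1 i * ρ := by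
      have hex : ∃ i, 0 < w i x := by
        by_contra h
        push Not at h
        have := Finset.sum_nonpos fun i (_ : i ∈ Finset.univ) => h i
        linarith [hwpos x]
      obtain ⟨i, hi⟩ := hex
      refine ⟨i, ?_⟩
      have hli : 0 < (l x).1 i := div_pos hi (hwpos x)
      rw [norm_smul, Real.norm_of_nonneg ((l x).2.1 i)]
      refine mul_lt_mul_of_pos_left ?_ hli
      rw [← dist_eq_norm]
      by_contra h2
      push Not at h2
      have : w i x = 0 := max_eq_left (by linarith)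
      linarith
    calc ‖∑ i, (l x).1 i • (g x - q i)‖ ≤ ∑ i, ‖(l x).1 i • (g x - q i)‖ := norm_sum_le _ _
      _ < ∑ i, (l x).1 i * ρ := by
          obtain ⟨i, hi⟩ := hstrict
          exact Finset.sum_lt_sum (fun i _ => hterm i) ⟨i, Finset.mem_univ i, hi⟩
      _ = ρ := by rw [← Finset.sum_mul, (l x).2.2, one_mul]
  have hfδ : ∀ x, ‖δ x - f (l x)‖ < η / 4 := by
    intro x
    have h1 := huni (g x) ⟨x, rfl⟩ (r (l x)) (hrl x)
    rw [dist_eq_norm] at h1
    simpa [g, f] using h1
  -- finite rank approximation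
  obtain ⟨n, φ, m', hφ, hm'⟩ := approx_simplex E hsm k f (η / 4) (by positivity)
  have hn : (0 : ℝ) < n + 1 := by positivity
  have hex : ∀ i, ∃ y ∈ D, ‖m' i - y‖ < η / (4 * (n + 1)) := by
    intro i
    obtain ⟨y, hy, hyD⟩ := Metric.dense_iff.1 hD (m' i) (η / (4 * (n + 1))) (by positivity)
    refine ⟨y, hyD, ?_⟩
    rw [← dist_eq_norm, dist_comm]
    exact hy
  choose m hmD hm using hex
  refine ⟨n, fun i => (φ i).comp ⟨l, hl⟩, m, hmD, fun x => ?_⟩
  change ‖δ x - ∑ i, φ i (l x) • m i‖ < η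
  have h1 : δ x - ∑ i, φ i (l x) • m i = (δ x - f (l x)) +
      (f (l x) - ∑ i, φ i (l x) • m' i) + ∑ i, φ i (l x) • (m' i - m i) := by
    simp only [smul_sub, Finset.sum_sub_distrib]
    abel
  have h2 : ‖∑ i, φ i (l x) • (m' i - m i)‖ ≤ η / 4 := by
    calc ‖∑ i, φ i (l x) • (m' i - m i)‖ ≤ ∑ i, ‖φ i (l x) • (m' i - m i)‖ := norm_sum_le _ _
      _ ≤ ∑ i : Fin n, η / (4 * (n + 1)) := by
          refine Finset.sum_le_sum fun i _ => ?_
          rw [hsm, abs_of_nonneg (hφ i (l x)).1]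
          have h3 : Real.sqrt (φ i (l x)) ≤ 1 := Real.sqrt_le_one.2 (hφ i (l x)).2
          calc Real.sqrt (φ i (l x)) * ‖m' i - m i‖ ≤ 1 * ‖m' i - m i‖ :=
                mul_le_mul_of_nonneg_right h3 (norm_nonneg _)
            _ ≤ η / (4 * (n + 1)) := by rw [one_mul]; exact (hm i).le
      _ = n * (η / (4 * (n + 1))) := by simp
      _ ≤ η / 4 := by
          rw [mul_div_assoc', div_le_div_iff₀ (by positivity) (by positivity)]
          nlinarith
  calc ‖δ x - ∑ i, φ i (l x) • m i‖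
      ≤ ‖(δ x - f (l x)) + (f (l x) - ∑ i, φ i (l x) • m' i)‖ +
        ‖∑ i, φ i (l x) • (m' i - m i)‖ := by rw [h1]; exact norm_add_le _ _
    _ ≤ ‖δ x - f (l x)‖ + ‖f (l x) - ∑ i, φ i (l x) • m' i‖ +
        ‖∑ i, φ i (l x) • (m' i - m i)‖ := by gcongr; exact norm_add_le _ _
    _ < η := by linarith [hfδ x, hm' (l x)]

end Pool.QB
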