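import Pool.Agent.MP_c51823_gt.QB.C3

/-!
# [QB-Y1] `supp g ∪ supp f` and `supp g ∪ {5}` are simplices of `∂Δ^5`; two straight line homotopies.
-/

set_option autoImplicit false
open Topology

namespace Pool.QB

theorem Y1_aux {C : Type} [TopologicalSpace C] (K : Cx) (hK : K = Cx.bd (Finset.range 6))
    (f g : C(C, K.real))
    (h4 : ∀ x, (fsupp (g x).1).card ≤ 4) (hs : ∀ x, fsupp (g x).1 ⊆ fsupp (f x).1) :
    ∃ (H : C(C × unitInterval, K.real)) (c : K.real), (∀ x, H (x, 0) = f x) ∧
      ∀ x, H (x, 1) = c := by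
  classical
  have hm : ∀ s : Finset ℕ, s ∈ K.S ↔ s ⊆ Finset.range 6 ∧ s.Nonempty ∧ s ≠ Finset.range 6 := by
    intro s
    rw [hK]
    simp only [Cx.bd, Finset.mem_filter, Finset.mem_powerset]
  -- the vertex 5
  have h5 : (Pi.single 5 1 : ℕ → ℝ) ∈ simp {5} := by
    refine ⟨fun i => ?_, fun i hi => ?_, ?_⟩
    · by_cases h : i = 5
      · subst h; simp
      · simp [Pi.single_eq_of_ne h]
    · rw [Finset.mem_singleton] at hi
      simp [Pi.single_eq_of_ne hi]
    · simp
  have h5K : ({5} : Finset ℕ) ∈ K.S := by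
    refine (hm _).2 ⟨by simp, by simp, ?_⟩
    intro h
    have := congrArg Finset.card h
    simp at this
  let c : K.real := ⟨Pi.single 5 1, simp_subset_real K h5K h5⟩
  obtain ⟨H1, a1, b1, -⟩ := line_homotopy K (C := C) f g (fun x => by
    rw [Finset.union_eq_left.2 (hs x)]
    exact fsupp_mem K (f x).2)
  obtain ⟨H2, a2, b2, -⟩ := line_homotopy K (C := C) g (ContinuousMap.const _ c) (fun x => by
    have e1 : fsupp c.1 ⊆ {5} := fsupp_subset_of_simp h5
    have e2 := fsupp_mem K (g x).2
    obtain ⟨e3, e4, -⟩ := (hm _).1 e2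
    have e5 : (fsupp (g x).1 ∪ fsupp c.1).card ≤ 5 := by
      refine (Finset.card_union_le _ _).trans ?_
      have := Finset.card_le_card e1
      rw [Finset.card_singleton] at this
      have := h4 x
      omega
    refine (hm _).2 ⟨Finset.union_subset e3 (e1.trans (by simp)),
      e4.mono Finset.subset_union_left, ?_⟩
    intro h
    have := congrArg Finset.card h
    simp only [Finset.card_range] at this
    simp only [ContinuousMap.const_apply] at this
    omega)
  have F1 : ContinuousMap.Homotopy f g :=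
    { toFun := fun p => H1 (p.2, p.1)
      continuous_toFun := H1.continuous.comp continuous_swap
      map_zero_left := a1
      map_one_left := b1 }
  have F2 : ContinuousMap.Homotopy g (ContinuousMap.const C c) :=
    { toFun := fun p => H2 (p.2, p.1)
      continuous_toFun := H2.continuous.comp continuous_swap
      map_zero_left := a2
      map_one_left := b2 }
  let F := F1.trans F2
  refine ⟨⟨fun p => F (p.2, p.1), F.continuous.comp continuous_swap⟩, c, ?_, ?_⟩
  · intro x
    exact F.map_zero_left x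
  · intro x
    exact F.map_one_left x

theorem S4_homotopy {C : Type} [TopologicalSpace C] (f g : C(C, S4))
    (h4 : ∀ x, (fsupp (g x).1).card ≤ 4) (hs : ∀ x, fsupp (g x).1 ⊆ fsupp (f x).1) :
    ∃ (H : C(C × unitInterval, S4)) (c : S4), (∀ x, H (x, 0) = f x) ∧ ∀ x, H (x, 1) = c :=
  Y1_aux _ rfl f g h4 hs

end Pool.QB
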