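import Pool.Agent.MP_c51823_gt.QB.LimDef

/-!
# [QB-Y2] `κ_j` is continuous and `κ_j(p_j x)_v ≠ 0` for some `v`.
-/

set_option autoImplicit false
open Topology

namespace Pool.QB

theorem Lim.U_nhds {h : HT} {u : h.H 0 (absP S4)} (L : ℕ → Level h u)
    (sd : ∀ i, StepData i (L (i + 1)) (L i)) (j : ℕ) (x : Lim L sd) :
    ∀ᶠ y in 𝓝 x, (x, y) ∈ (Lim.U j : Set (Lim L sd × Lim L sd)) := by
  obtain ⟨s, _, h0, h1, h2⟩ := ((L j).κ (Lim.p j x)).2
  have hex : ∃ v, ((L j).κ (Lim.p j x)).1 v ≠ 0 := by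
    by_contra hcon
    have hz : ∀ v, ((L j).κ (Lim.p j x)).1 v = 0 := fun v => by
      by_contra hv
      exact hcon ⟨v, hv⟩
    rw [Finset.sum_eq_zero fun i _ => hz i] at h2
    exact zero_ne_one h2
  obtain ⟨v, hv⟩ := hex
  have hc : Continuous fun y : Lim L sd => ((L j).κ (Lim.p j y)).1 v :=
    (continuous_apply v).comp
      (continuous_subtype_val.comp ((L j).κ.continuous.comp (Lim.p j).continuous))
  have hev : ∀ᶠ y in 𝓝 x, ((L j).κ (Lim.p j y)).1 v ≠ 0 := hc.continuousAt.eventually_ne hv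
  filter_upwards [hev] with y hy
  exact Or.inr ⟨v, hv, hy⟩

end Pool.QB
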