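import Pool.Agent.MP_c51823_gt.QB.KThm
import Pool.Agent.MP_c51823_gt.QB.F4
import Pool.Agent.MP_c51823_gt.QB.EB3
import Pool.Agent.MP_c51823_gt.QB.T1
import Pool.Agent.MP_c51823_gt.QB.L5
import Pool.Agent.MP_c51823_gt.QB.A8
import Pool.Agent.MP_c51823_gt.QB.X4
import Pool.Agent.MP_c51823_gt.QB.Y1
import Pool.Agent.MP_c51823_gt.QB.Y2

/-!
# [QB] Final assembly
-/

set_option autoImplicit false
open Topology

namespace Pool.QB

/-- The initial level. -/
theorem exists_level0 (h : HT) (u : h.H 0 (absP S4)) (hu : u ≠ 0) :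
    ∃ L : Level h u, L.K = Cx.bd (Finset.range 6) ∧ ∀ x, (L.κ x).1 = (L.f x).1 := by
  refine ⟨{ G := S4, f := ContinuousMap.id _, ess := ?_, K := Cx.bd (Finset.range 6),
            κ := ContinuousMap.id _, pt := fun _ => ?_, wn := fun _ => 0,
            th := fun _ _ => ContinuousMap.const _ 0 }, rfl, fun x => rfl⟩
  · intro h0
    apply hu
    rw [← h0]
    exact (h.map_id 0 _ u).symm
  · exact ⟨fun i => if i = 0 then 1 else 0, {0}, by decide, fun i => by dsimp only; split_ifs <;> norm_num,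
      fun i hi => by simp at hi; simp [hi], by simp⟩

theorem not_Frozen : ¬ Frozen := by
  intro hF
  obtain ⟨h⟩ := exists_HT
  obtain ⟨u, hu, hu0⟩ := h.exists_u
  have h4 := EB_three h u
  obtain ⟨L0, hK, hκ⟩ := exists_level0 h u hu
  choose next hnext using fun (i : ℕ) (L : Level h u) => exists_stepData h4 i L
  let L : ℕ → Level h u := fun i => Nat.rec L0 (fun i L => next i L) i
  let sd : ∀ i, StepData i (L (i + 1)) (L i) := fun i => (hnext i (L i)).some
  obtain ⟨Y, b, hb, happ⟩ := frozen_approx hF (Lim L sd) Lim.U (fun q => Or.inl rfl)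
    (fun j x => Lim.U_nhds L sd j x) (1 / 10) (by norm_num)
  obtain ⟨g, hg⟩ := measure_argument L sd hK hκ Y b hb happ
  obtain ⟨H, c, h0, h1⟩ := S4_homotopy (((L 0).f).comp (Lim.p 0)) g
    (fun x => (hg x).1) (fun x => (hg x).2)
  exact limit_contradiction L sd hu0 H h0 c h1

end Pool.QB
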