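import Pool.Agent.MP_c51823_gt.QB.K0

/-!
# [QB] The axioms `HT` (mod-2 K-theory of compact pairs), QB_PROOF.md section 2
-/

set_option autoImplicit false
open Topology

namespace Pool.QB

noncomputable def mu (a b : ℕ) : C(CP a × CP b, CP (a + b)) := (exists_mu a b).choose

theorem mu_line {a b : ℕ} (p q : Polynomial ℂ) (hp : p ≠ 0) (hq : q ≠ 0) (hpa : p.natDegree ≤ a)
    (hqb : q.natDegree ≤ b) :
    (mu a b (⟨line p, line_mem hp hpa⟩, ⟨line q, line_mem hq hqb⟩)).1 = line (p * q) :=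
  (exists_mu a b).choose_spec p q hp hq hpa hqb

/-- The axioms. -/
structure HT : Type 1 where
  /-- the group in degree `-q` -/
  H : ℕ → CPair → Type
  [grp : ∀ q P, AddCommGroup (H q P)]
  map : ∀ (q : ℕ) {P Q : CPair}, CPair.Map P Q → (H q Q →+ H q P)
  map_id : ∀ (q : ℕ) (P : CPair) (x : H q P), map q (CPair.Map.id P) x = x
  map_comp : ∀ (q : ℕ) {P Q R : CPair} (g : CPair.Map Q R) (f : CPair.Map P Q) (x : H q R),
    map q (g.comp f) x = map q f (map q g x)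
  homotopy : ∀ (q : ℕ) {P Q : CPair} (f g : CPair.Map P Q) (F : C(P.X × unitInterval, Q.X)),
    (∀ x, F (x, 0) = f.f x) → (∀ x, F (x, 1) = g.f x) → (∀ x ∈ P.A, ∀ t, F (x, t) ∈ Q.A) →
    map q f = map q g
  δ : ∀ (q : ℕ) (T : CTriple), H (q + 1) T.BA →+ H q T.XB
  δ_nat : ∀ (q : ℕ) {T U : CTriple} (m : CTriple.Map T U) (x : H (q + 1) U.BA),
    map q m.xb (δ q U x) = δ q T (map (q + 1) m.ba x)
  exact_ba : ∀ (q : ℕ) (T : CTriple) (x : H (q + 1) T.BA),
    δ q T x = 0 ↔ ∃ y : H (q + 1) T.XA, map (q + 1) T.i y = x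
  exact_xb : ∀ (q : ℕ) (T : CTriple) (x : H q T.XB),
    map q T.j x = 0 ↔ ∃ y : H (q + 1) T.BA, δ q T y = x
  exact_xa : ∀ (q : ℕ) (T : CTriple) (x : H q T.XA),
    map q T.i x = 0 ↔ ∃ y : H q T.XB, map q T.j y = x
  excision : ∀ (q : ℕ) {P Q : CPair} (f : CPair.Map P Q), (∀ x, f.f x ∈ Q.A → x ∈ P.A) →
    Set.BijOn f.f P.Aᶜ Q.Aᶜ → Function.Bijective (map q f)
  two : ∀ (q : ℕ) (P : CPair) (x : H q P), x + x = 0
  /-- tensoring with the (pullback of the) tautological line bundle, on absolute groups -/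
  L : ∀ (q : ℕ) {X : Type} [TopologicalSpace X] [CompactSpace X] [T2Space X] {a : ℕ},
    C(X, CP a) → (H q (absP X) →+ H q (absP X))
  L_nat : ∀ (q : ℕ) {X Y : Type} [TopologicalSpace X] [CompactSpace X] [T2Space X]
    [TopologicalSpace Y] [CompactSpace Y] [T2Space Y] {a : ℕ} (f : C(X, Y)) (g : C(Y, CP a))
    (x : H q (absP Y)), map q (absMap f) (L q g x) = L q (g.comp f) (map q (absMap f) x)
  L_const : ∀ (q : ℕ) {X : Type} [TopologicalSpace X] [CompactSpace X] [T2Space X] {a : ℕ}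
    (g : C(X, CP a)) (x : H q (absP X)), (∀ s t, g s = g t) → L q g x = x
  L_mul : ∀ (q : ℕ) {X : Type} [TopologicalSpace X] [CompactSpace X] [T2Space X] {a b : ℕ}
    (g : C(X, CP a)) (g' : C(X, CP b)) (x : H q (absP X)),
    L q ((mu a b).comp (g.prodMk g')) x = L q g (L q g' x)
  L_nil : ∀ (q : ℕ) {X : Type} [TopologicalSpace X] [CompactSpace X] [T2Space X] {a : ℕ}
    (g : C(X, CP a)) (x : H q (absP X)), ((fun y => L q g y - y)^[a + 1]) x = 0
  L_free : ∀ (q : ℕ) (Z : Type) [TopologicalSpace Z] [CompactSpace Z] [T2Space Z] (a : ℕ),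
    Function.Bijective (fun c : Fin (a + 1) → H q (absP Z) =>
      ∑ i : Fin (a + 1), (L q (⟨Prod.snd, continuous_snd⟩ : C(Z × CP a, CP a)))^[(i : ℕ)]
        (map q (absMap (⟨Prod.fst, continuous_fst⟩ : C(Z × CP a, Z))) (c i)))
  pt4 : ∃ w : H 4 (absP PUnit), w ≠ 0

attribute [instance] HT.grp

end Pool.QB
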