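import Pool.Agent.MP_c51823_gt.QB.Final

/-!
# The counterexample with an explicit quasi-norm: a complete `1/2`-normed space which is not
homeomorphic to any normed space.
-/

set_option autoImplicit false
open Topology

namespace Pool.QB

/-- every complete `1/2`-normed real space is homeomorphic to a normed space -/
def HalfNorm : Prop :=
  ∀ (E : Type) [NormedAddCommGroup E] [Module ℝ E] [CompleteSpace E] [ContinuousSMul ℝ E],
    (∀ (c : ℝ) (x : E), ‖c • x‖ = Real.sqrt |c| * ‖x‖) →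
    ∃ (H : Type) (_ : NormedAddCommGroup H) (_ : NormedSpace ℝ H), Nonempty (E ≃ₜ H)

/-- The consequence of `HalfNorm` for a compact space with closeness relations (as `frozen_approx`). -/
theorem half_approx (hF : HalfNorm) (C : Type) [TopologicalSpace C] [CompactSpace C] [T2Space C]
    (U : ℕ → Set (C × C)) (hU0 : ∀ q, q ∈ U 0) (hU : ∀ (j : ℕ) (x : C), ∀ᶠ y in 𝓝 x, (x, y) ∈ U j)
    (ε : ℝ) (hε : 0 < ε) : ∃ (Y : Finset C) (b : C → C(C, ℝ)), (∀ x, ∑ y ∈ Y, b y x = 1) ∧
      ∀ x, Rep U (Finsupp.single x (1 : ℝ) - ∑ y ∈ Y, b y x • Finsupp.single y (1 : ℝ)) ε := by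
  classical
  rcases isEmpty_or_nonempty C with hC | ⟨⟨x₀⟩⟩
  · exact ⟨∅, fun _ => 0, fun x => (hC.false x).elim, fun x => (hC.false x).elim⟩
  obtain ⟨E, _, _, ι, hcomp, hcs, hnorm, hdense, hsm⟩ := exists_completion (M0 C) (NU U)
    (fun x => NU_nonneg U hU0 x) (fun x y => NU_add U hU0 x y) (fun c x => NU_smul U hU0 c x)
  obtain ⟨H, _, _, ⟨e⟩⟩ := hF E hsm
  -- continuity of `δ`
  have hcont : Continuous fun x : C => ι (X4dip x x₀) := by
    rw [continuous_iff_continuousAt]
    intro x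
    rw [ContinuousAt, Metric.tendsto_nhds]
    intro r hr
    obtain ⟨j, hj⟩ := exists_pow_lt_of_lt_one hr (by norm_num : (1 / 2 : ℝ) < 1)
    filter_upwards [hU j x] with y hy
    rw [dist_eq_norm, ← map_sub, hnorm, NU_lt_iff U hU0]
    refine ⟨1, fun _ => -1, fun _ => x, fun _ => y, fun _ => j, fun _ => hy, ?_, ?_⟩
    · simp only [Submodule.coe_sub, X4dip_coe]
      simp
    · simp only [Finset.univ_unique, Finset.sum_singleton, abs_neg, abs_one, Real.sqrt_one]
      rw [one_div_pow] at hj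
      exact hj
  let δ : C(C, E) := ⟨fun x => ι (X4dip x x₀), hcont⟩
  obtain ⟨n, φ, m, hm, happ⟩ := Z_approx E H hsm e C δ (Set.range ι) hdense ε hε
  choose μ hμ using hm
  let Y : Finset C := insert x₀ (Finset.univ.biUnion fun i => ((μ i : M0 C) : C →₀ ℝ).support)
  have hY : ∀ i, ((μ i : M0 C) : C →₀ ℝ).support ⊆ Y := by
    intro i
    refine Finset.Subset.trans ?_ (Finset.subset_insert _ _)
    exact Finset.subset_biUnion_of_mem (fun i => ((μ i : M0 C) : C →₀ ℝ).support)
      (Finset.mem_univ i)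
  have hx₀ : x₀ ∈ Y := Finset.mem_insert_self _ _
  let b : C → C(C, ℝ) := fun y =>
    ⟨fun x => (∑ i, φ i x * ((μ i : M0 C) : C →₀ ℝ) y) + (if y = x₀ then 1 else 0), by fun_prop⟩
  have hb : ∀ y x, b y x = (∑ i, φ i x * ((μ i : M0 C) : C →₀ ℝ) y) + (if y = x₀ then 1 else 0) :=
    fun y x => rfl
  refine ⟨Y, b, ?_, ?_⟩
  · intro x
    simp only [hb]
    rw [Finset.sum_add_distrib, Finset.sum_comm, Finset.sum_ite_eq' Y x₀, if_pos hx₀]
    have : ∑ i, ∑ y ∈ Y, φ i x * ((μ i : M0 C) : C →₀ ℝ) y = 0 := by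
      refine Finset.sum_eq_zero fun i _ => ?_
      rw [← Finset.mul_sum, X4_mass (μ i) Y (hY i), mul_zero]
    rw [this, zero_add]
  · intro x
    have h1 := happ x
    have h2 : δ x - ∑ i, φ i x • m i = ι (X4dip x x₀ - ∑ i, φ i x • μ i) := by
      have e1 : ι (∑ i, φ i x • μ i) = ∑ i, φ i x • m i := by
        rw [map_sum ι]
        refine Finset.sum_congr rfl fun i _ => ?_
        have e3 : ι (φ i x • μ i) = φ i x • ι (μ i) := map_smul ι _ _
        rw [e3, hμ]
      have e2 : ι (X4dip x x₀ - ∑ i, φ i x • μ i) = ι (X4dip x x₀) - ι (∑ i, φ i x • μ i) :=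
        map_sub ι _ _
      rw [e2, e1]
      rfl
    rw [h2, hnorm, NU_lt_iff U hU0] at h1
    have h3 : ((X4dip x x₀ - ∑ i, φ i x • μ i : M0 C) : C →₀ ℝ)
        = Finsupp.single x (1 : ℝ) - ∑ y ∈ Y, b y x • Finsupp.single y (1 : ℝ) := by
      rw [Submodule.coe_sub, X4dip_coe, Submodule.coe_sum, sub_sub]
      congr 1
      have h4 : ∀ i, ((φ i x • μ i : M0 C) : C →₀ ℝ)
          = ∑ y ∈ Y, (φ i x * ((μ i : M0 C) : C →₀ ℝ) y) • Finsupp.single y (1 : ℝ) := by
        intro i
        rw [Submodule.coe_smul]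
        have h5 : ((μ i : M0 C) : C →₀ ℝ)
            = ∑ y ∈ Y, ((μ i : M0 C) : C →₀ ℝ) y • Finsupp.single y (1 : ℝ) := by
          conv_lhs => rw [← Finsupp.sum_single ((μ i : M0 C) : C →₀ ℝ)]
          rw [Finsupp.sum_of_support_subset _ (hY i) _ (by simp)]
          refine Finset.sum_congr rfl fun y _ => ?_
          rw [Finsupp.smul_single, smul_eq_mul, mul_one]
        conv_lhs => rw [h5]
        rw [Finset.smul_sum]
        refine Finset.sum_congr rfl fun y _ => ?_
        rw [smul_smul]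
      rw [Finset.sum_congr rfl fun i _ => h4 i, Finset.sum_comm]
      simp only [hb, add_smul, Finset.sum_smul, Finset.sum_add_distrib]
      rw [add_comm]
      congr 1
      simp only [ite_smul, one_smul, zero_smul]
      rw [Finset.sum_ite_eq' Y x₀, if_pos hx₀]
    rw [h3] at h1
    exact h1


theorem not_HalfNorm : ¬ HalfNorm := by
  intro hF
  obtain ⟨h⟩ := exists_HT
  obtain ⟨u, hu, hu0⟩ := h.exists_u
  have h4 := EB_three h u
  obtain ⟨L0, hK, hκ⟩ := exists_level0 h u hu
  choose next hnext using fun (i : ℕ) (L : Level h u) => exists_stepData h4 i L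
  let L : ℕ → Level h u := fun i => Nat.rec L0 (fun i L => next i L) i
  let sd : ∀ i, StepData i (L (i + 1)) (L i) := fun i => (hnext i (L i)).some
  obtain ⟨Y, b, hb, happ⟩ := half_approx hF (Lim L sd) Lim.U (fun q => Or.inl rfl)
    (fun j x => Lim.U_nhds L sd j x) (1 / 10) (by norm_num)
  obtain ⟨g, hg⟩ := measure_argument L sd hK hκ Y b hb happ
  obtain ⟨H, c, h0, h1⟩ := S4_homotopy (((L 0).f).comp (Lim.p 0)) g
    (fun x => (hg x).1) (fun x => (hg x).2)
  exact limit_contradiction L sd hu0 H h0 c h1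

end Pool.QB
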