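import Pool.Agent.MP_c51823_gt.QB.JDef2

/-!
# [QB-J2]
-/

set_option autoImplicit false
open Topology

namespace Pool.QB

namespace J2_aux

open Classical in
theorem sum_ite {X : Type} (M : Multiset X) (a : X) :
    (M.map (fun x => if x = a then (1 : ℝ) else 0)).sum = (M.count a : ℝ) := by
  induction M using Multiset.induction with
  | empty => simp
  | cons b M ih =>
    rw [Multiset.map_cons, Multiset.sum_cons, ih, Multiset.count_cons]
    by_cases h : b = a
    · rw [if_pos h, if_pos h.symm]
      push_cast
      ring
    · rw [if_neg h, if_neg (fun h' => h h'.symm)]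
      push_cast
      ring

end J2_aux

/-- [QB-J2] Uniqueness of multisets. -/
theorem multiset_unique {X : Type} [TopologicalSpace X] [NormalSpace X] [T2Space X] (o : X)
    (M M' : Multiset X) (hM : o ∉ M) (hM' : o ∉ M')
    (h : ∀ F : C(X, ℝ), F o = 0 → (M.map F).sum = (M'.map F).sum) : M = M' := by
  classical
  ext a
  by_cases hao : a = o
  · rw [hao, Multiset.count_eq_zero_of_notMem hM, Multiset.count_eq_zero_of_notMem hM']
  set S : Finset X := (insert o (M.toFinset ∪ M'.toFinset)).erase a with hS
  have hSc : IsClosed (S : Set X) := S.finite_toSet.isClosed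
  have hac : IsClosed ({a} : Set X) := isClosed_singleton
  have hdis : Disjoint (S : Set X) ({a} : Set X) := by
    rw [Set.disjoint_singleton_right]
    intro hc
    rw [hS, Finset.coe_erase] at hc
    exact hc.2 rfl
  obtain ⟨F, hF0, hF1, -⟩ := exists_continuous_zero_one_of_isClosed hSc hac hdis
  have hFo : F o = 0 := hF0 (by
    rw [hS, Finset.coe_erase]
    exact ⟨by simp, fun hc => hao hc.symm⟩)
  have key : ∀ N : Multiset X, N ⊆ M + M' → (N.map F).sum = (N.count a : ℝ) := by
    intro N hN
    rw [← J2_aux.sum_ite N a]
    congr 1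
    apply Multiset.map_congr rfl
    intro x hx
    by_cases hxa : x = a
    · rw [if_pos hxa, hxa]
      exact hF1 rfl
    · rw [if_neg hxa]
      apply hF0
      rw [hS, Finset.coe_erase]
      refine ⟨?_, hxa⟩
      have h1 := hN hx
      rw [Multiset.mem_add] at h1
      simp only [Finset.coe_insert, Finset.coe_union, Set.mem_insert_iff, Set.mem_union,
        Finset.mem_coe, Multiset.mem_toFinset]
      tauto
  have h1 := key M (Multiset.subset_of_le (Multiset.le_add_right M M'))
  have h2 := key M' (Multiset.subset_of_le (Multiset.le_add_left M' M))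
  have h3 := h F hFo
  rw [h1, h2] at h3
  exact_mod_cast h3

end Pool.QB
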