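import Pool.Agent.MP_c51823_gt.QB.K0a

/-!
# [QB-K0] Multiplication of lines of polynomials:
`μ(e,e′)_{kl} = (∑_{i≤k,j≤l} e_{ij} e′_{k-i,l-j}) / normalisation` where the normalisation is the trace
`∑_k (…)_{kk} ≠ 0`; explicit formula, hence continuous.
-/

set_option autoImplicit false
open Topology

namespace Pool.QB

namespace K0_aux

/-- The squared norm of the coefficient vector. -/
noncomputable def nsq (p : Polynomial ℂ) : ℂ := ((∑ k ∈ p.support, ‖p.coeff k‖ ^ 2 : ℝ) : ℂ)

theorem line_apply (p : Polynomial ℂ) (i j : ℕ) :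
    line p i j = p.coeff i * (starRingEnd ℂ) (p.coeff j) / nsq p := rfl

theorem nsq_ne {p : Polynomial ℂ} (hp : p ≠ 0) : nsq p ≠ 0 := by
  have h1 : 0 < ∑ k ∈ p.support, ‖p.coeff k‖ ^ 2 := by
    refine Finset.sum_pos (fun k hk => ?_) (Polynomial.support_nonempty.2 hp)
    have h2 : p.coeff k ≠ 0 := Polynomial.mem_support_iff.1 hk
    positivity
  unfold nsq
  exact_mod_cast h1.ne'

theorem nsq_eq (p : Polynomial ℂ) {n : ℕ} (hn : p.natDegree ≤ n) :
    ∑ k ∈ Finset.range (n + 1), p.coeff k * (starRingEnd ℂ) (p.coeff k) = nsq p := by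
  have h1 : ∀ k, p.coeff k * (starRingEnd ℂ) (p.coeff k) = ((‖p.coeff k‖ ^ 2 : ℝ) : ℂ) := by
    intro k
    rw [Complex.mul_conj, Complex.normSq_eq_norm_sq]
  unfold nsq
  rw [Complex.ofReal_sum]
  rw [Finset.sum_congr rfl fun k _ => h1 k]
  symm
  refine Finset.sum_subset ?_ ?_
  · intro k hk
    rw [Finset.mem_range]
    have := Polynomial.le_natDegree_of_mem_supp k hk
    omega
  · intro k _ hk
    have h2 : p.coeff k = 0 := Polynomial.notMem_support_iff.1 hk
    rw [h2]
    simp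

/-- The numerator. -/
noncomputable def num (e e' : ℕ → ℕ → ℂ) (k l : ℕ) : ℂ :=
  ∑ x ∈ Finset.HasAntidiagonal.antidiagonal k, ∑ y ∈ Finset.HasAntidiagonal.antidiagonal l, e x.1 y.1 * e' x.2 y.2

/-- The trace. -/
noncomputable def tr (n : ℕ) (e e' : ℕ → ℕ → ℂ) : ℂ :=
  ∑ k ∈ Finset.range (n + 1), num e e' k k

theorem num_line (p q : Polynomial ℂ) (k l : ℕ) :
    num (line p) (line q) k l =
      (p * q).coeff k * (starRingEnd ℂ) ((p * q).coeff l) / (nsq p * nsq q) := by
  rw [Polynomial.coeff_mul, Polynomial.coeff_mul, map_sum, Finset.sum_mul_sum, Finset.sum_div]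
  unfold num
  refine Finset.sum_congr rfl fun x _ => ?_
  rw [Finset.sum_div]
  refine Finset.sum_congr rfl fun y _ => ?_
  rw [line_apply, line_apply, map_mul, div_mul_div_comm]
  congr 1
  ring

theorem tr_line {n : ℕ} (p q : Polynomial ℂ) (hn : (p * q).natDegree ≤ n) :
    tr n (line p) (line q) = nsq (p * q) / (nsq p * nsq q) := by
  unfold tr
  rw [Finset.sum_congr rfl fun k _ => num_line p q k k, ← Finset.sum_div, nsq_eq _ hn]

theorem quot_line {n : ℕ} {p q : Polynomial ℂ} (hp : p ≠ 0) (hq : q ≠ 0)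
    (hn : (p * q).natDegree ≤ n) (k l : ℕ) :
    num (line p) (line q) k l / tr n (line p) (line q) = line (p * q) k l := by
  rw [num_line, tr_line p q hn, line_apply]
  have h1 := nsq_ne hp
  have h2 := nsq_ne hq
  have h3 := nsq_ne (mul_ne_zero hp hq)
  field_simp

theorem deg_le {a b : ℕ} {p q : Polynomial ℂ} (hpa : p.natDegree ≤ a) (hqb : q.natDegree ≤ b) :
    (p * q).natDegree ≤ a + b :=
  Polynomial.natDegree_mul_le.trans (add_le_add hpa hqb)

end K0_aux

open K0_aux in
/-- Multiplication of polynomials `CP^a × CP^b → CP^{a+b}` (module K0). -/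
theorem exists_mu (a b : ℕ) : ∃ μ : C(CP a × CP b, CP (a + b)),
    ∀ (p q : Polynomial ℂ) (hp : p ≠ 0) (hq : q ≠ 0) (hpa : p.natDegree ≤ a)
      (hqb : q.natDegree ≤ b),
      (μ (⟨line p, line_mem hp hpa⟩, ⟨line q, line_mem hq hqb⟩)).1 = line (p * q) := by
  have hne : ∀ x : CP a × CP b, tr (a + b) x.1.1 x.2.1 ≠ 0 := by
    rintro ⟨⟨_, p, hp, hpa, rfl⟩, ⟨_, q, hq, hqb, rfl⟩⟩
    change tr (a + b) (line p) (line q) ≠ 0
    rw [tr_line p q (deg_le hpa hqb)]
    exact div_ne_zero (nsq_ne (mul_ne_zero hp hq)) (mul_ne_zero (nsq_ne hp) (nsq_ne hq))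
  have hmem : ∀ x : CP a × CP b,
      (fun k l => num x.1.1 x.2.1 k l / tr (a + b) x.1.1 x.2.1) ∈ CP (a + b) := by
    rintro ⟨⟨_, p, hp, hpa, rfl⟩, ⟨_, q, hq, hqb, rfl⟩⟩
    refine ⟨p * q, mul_ne_zero hp hq, deg_le hpa hqb, ?_⟩
    funext k l
    exact quot_line hp hq (deg_le hpa hqb) k l
  have hnum : ∀ k l, Continuous fun x : CP a × CP b => num x.1.1 x.2.1 k l := by
    intro k l
    unfold num
    refine continuous_finsetSum _ fun u _ => continuous_finsetSum _ fun v _ => ?_
    refine Continuous.mul ?_ ?_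
    · exact (continuous_apply_apply u.1 v.1).comp (continuous_subtype_val.comp continuous_fst)
    · exact (continuous_apply_apply u.2 v.2).comp (continuous_subtype_val.comp continuous_snd)
  have htr : Continuous fun x : CP a × CP b => tr (a + b) x.1.1 x.2.1 := by
    unfold tr
    exact continuous_finsetSum _ fun k _ => hnum k k
  refine ⟨⟨fun x => ⟨_, hmem x⟩, ?_⟩, ?_⟩
  · refine Continuous.subtype_mk ?_ _
    refine continuous_pi fun k => continuous_pi fun l => ?_
    exact (hnum k l).div htr hne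
  · intro p q hp hq hpa hqb
    funext k l
    exact quot_line hp hq (deg_le hpa hqb) k l

end Pool.QB
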