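import Pool.Agent.MP_c51823_gt.QB.CPDef

/-!
# [QB-K0a] Projective spaces: compactness, equality of lines.
`line p` is the rank one projection onto the coefficient vector of `p`. Compactness: `CP a` is the
image of the compact unit sphere of `Fin (a+1) → ℂ` under `v ↦ (i,j) ↦ v_i conj v_j`.
-/

set_option autoImplicit false
open Topology

namespace Pool.QB

private theorem sum_supp {a : ℕ} {p : Polynomial ℂ} (hd : p.natDegree ≤ a) :
    ∑ k ∈ p.support, ‖p.coeff k‖ ^ 2 = ∑ k : Fin (a + 1), ‖p.coeff k‖ ^ 2 := by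
  rw [Fin.sum_univ_eq_sum_range (fun k => ‖p.coeff k‖ ^ 2) (a + 1)]
  refine Finset.sum_subset ?_ ?_
  · intro k hk
    rw [Finset.mem_range]
    have := Polynomial.le_natDegree_of_mem_supp k hk
    omega
  · intro k _ hk
    rw [Polynomial.notMem_support_iff.1 hk]
    simp

private theorem sum_pos {p : Polynomial ℂ} (hp : p ≠ 0) :
    0 < ∑ k ∈ p.support, ‖p.coeff k‖ ^ 2 := by
  refine Finset.sum_pos (fun k hk => ?_) (Polynomial.support_nonempty.2 hp)
  have := Polynomial.mem_support_iff.1 hk
  positivity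

/-- `CP^a` is compact (module K0). -/
theorem isCompact_CP (a : ℕ) : IsCompact (CP a) := by
  classical
  let F : EuclideanSpace ℂ (Fin (a + 1)) → ℕ → ℕ → ℂ := fun v i j =>
    if h : i < a + 1 ∧ j < a + 1 then v ⟨i, h.1⟩ * (starRingEnd ℂ) (v ⟨j, h.2⟩) else 0
  have hF : Continuous F := by
    refine continuous_pi fun i => continuous_pi fun j => ?_
    by_cases h : i < a + 1 ∧ j < a + 1
    · simp only [F, h, and_self, dite_true]
      have h1 : ∀ k : Fin (a + 1), Continuous fun v : EuclideanSpace ℂ (Fin (a + 1)) => v k :=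
        fun k => (continuous_apply k).comp (PiLp.continuous_ofLp 2 _)
      exact (h1 _).mul (Complex.continuous_conj.comp (h1 _))
    · simp only [F, h, dite_false]
      exact continuous_const
  have himg : CP a = F '' Metric.sphere 0 1 := by
    ext e
    constructor
    · rintro ⟨p, hp, hd, rfl⟩
      have hN := sum_pos hp
      set N := ∑ k ∈ p.support, ‖p.coeff k‖ ^ 2 with hNdef
      have hs : 0 < Real.sqrt N := Real.sqrt_pos.2 hN
      refine ⟨WithLp.toLp 2 fun k : Fin (a + 1) => p.coeff k / (Real.sqrt N : ℂ), ?_, ?_⟩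
      · rw [mem_sphere_zero_iff_norm, EuclideanSpace.norm_eq]
        have h1 : ∀ k : Fin (a + 1), ‖p.coeff k / (Real.sqrt N : ℂ)‖ ^ 2 = ‖p.coeff k‖ ^ 2 / N := by
          intro k
          rw [norm_div, div_pow, Complex.norm_real, Real.norm_eq_abs, sq_abs, Real.sq_sqrt hN.le]
        have h2 : ∑ k : Fin (a + 1), ‖p.coeff k / (Real.sqrt N : ℂ)‖ ^ 2 = 1 := by
          rw [Finset.sum_congr rfl fun k _ => h1 k, ← Finset.sum_div, ← sum_supp hd, ← hNdef,
            div_self hN.ne']
        rw [show ∑ i : Fin (a + 1), ‖(WithLp.toLp 2 fun k : Fin (a + 1) =>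
          p.coeff k / (Real.sqrt N : ℂ)) i‖ ^ 2 = 1 from h2, Real.sqrt_one]
      · funext i j
        by_cases h : i < a + 1 ∧ j < a + 1
        · simp only [F, h, and_self, dite_true]
          change p.coeff i / (Real.sqrt N : ℂ) * (starRingEnd ℂ) (p.coeff j / (Real.sqrt N : ℂ)) = _
          have hsc : (Real.sqrt N : ℂ) * (Real.sqrt N : ℂ) = (N : ℂ) := by
            rw [← Complex.ofReal_mul, Real.mul_self_sqrt hN.le]
          rw [map_div₀, Complex.conj_ofReal, div_mul_div_comm, hsc]
          rfl
        · simp only [F, h, dite_false]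
          symm
          have h3 : p.coeff i = 0 ∨ p.coeff j = 0 := by
            rcases not_and_or.1 h with h4 | h4
            · exact Or.inl (Polynomial.coeff_eq_zero_of_natDegree_lt (by omega))
            · exact Or.inr (Polynomial.coeff_eq_zero_of_natDegree_lt (by omega))
          rcases h3 with h3 | h3 <;> simp [line, h3]
    · rintro ⟨v, hv, rfl⟩
      rw [mem_sphere_zero_iff_norm, EuclideanSpace.norm_eq] at hv
      have hv1 : ∑ k : Fin (a + 1), ‖v k‖ ^ 2 = 1 := by
        have := Real.sqrt_eq_one.1 hv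
        exact this
      let p : Polynomial ℂ := ∑ k : Fin (a + 1), Polynomial.monomial (k : ℕ) (v k)
      have hco : ∀ i, p.coeff i = if h : i < a + 1 then v ⟨i, h⟩ else 0 := by
        intro i
        simp only [p, Polynomial.finsetSum_coeff, Polynomial.coeff_monomial]
        by_cases h : i < a + 1
        · rw [dif_pos h, Finset.sum_eq_single (⟨i, h⟩ : Fin (a + 1))]
          · simp
          · intro b _ hb
            rw [if_neg]
            intro hbi
            exact hb (Fin.ext hbi)
          · intro hb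
            exact absurd (Finset.mem_univ _) hb
        · rw [dif_neg h]
          refine Finset.sum_eq_zero fun k _ => ?_
          rw [if_neg]
          intro hk
          have := k.2
          omega
      have hco' : ∀ k : Fin (a + 1), p.coeff k = v k := by
        intro k
        rw [hco, dif_pos k.2]
      have hd : p.natDegree ≤ a := by
        rw [Polynomial.natDegree_le_iff_coeff_eq_zero]
        intro i hi
        rw [hco, dif_neg (by omega)]
      have hN : ∑ k ∈ p.support, ‖p.coeff k‖ ^ 2 = 1 := by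
        rw [sum_supp hd, ← hv1]
        exact Finset.sum_congr rfl fun k _ => by rw [hco' k]
      have hp : p ≠ 0 := by
        intro h0
        rw [h0] at hN
        simp at hN
      refine ⟨p, hp, hd, ?_⟩
      funext i j
      unfold line
      rw [hN, Complex.ofReal_one, div_one, hco, hco]
      simp only [F]
      by_cases hi : i < a + 1 <;> by_cases hj : j < a + 1 <;> simp [hi, hj]
  rw [himg]
  exact (isCompact_sphere _ _).image hF

noncomputable instance (a : ℕ) : CompactSpace (CP a) :=
  isCompact_iff_compactSpace.mp (isCompact_CP a)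

/-- two polynomials span the same line iff they are proportional (module K0). -/
theorem line_eq_iff {p q : Polynomial ℂ} (hp : p ≠ 0) (hq : q ≠ 0) :
    line p = line q ↔ ∃ c : ℂ, c ≠ 0 ∧ q = Polynomial.C c * p := by
  have hNp := sum_pos hp
  have hNq := sum_pos hq
  have hNp' : ((∑ k ∈ p.support, ‖p.coeff k‖ ^ 2 : ℝ) : ℂ) ≠ 0 := Complex.ofReal_ne_zero.2 hNp.ne'
  have hNq' : ((∑ k ∈ q.support, ‖q.coeff k‖ ^ 2 : ℝ) : ℂ) ≠ 0 := Complex.ofReal_ne_zero.2 hNq.ne'
  constructor
  · intro h
    have hl : ∀ i j, p.coeff i * (starRingEnd ℂ) (p.coeff j) *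
        ((∑ k ∈ q.support, ‖q.coeff k‖ ^ 2 : ℝ) : ℂ) =
        q.coeff i * (starRingEnd ℂ) (q.coeff j) *
        ((∑ k ∈ p.support, ‖p.coeff k‖ ^ 2 : ℝ) : ℂ) := by
      intro i j
      have h1 : line p i j = line q i j := by rw [h]
      simp only [line] at h1
      exact (div_eq_div_iff hNp' hNq').1 h1
    set n := p.natDegree with hn
    have hpn : p.coeff n ≠ 0 := by
      rw [hn, Polynomial.coeff_natDegree]
      exact Polynomial.leadingCoeff_ne_zero.2 hp
    have hpn' : (starRingEnd ℂ) (p.coeff n) ≠ 0 := (map_ne_zero _).2 hpn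
    have hqn : q.coeff n ≠ 0 := by
      intro h0
      have h1 := hl n n
      rw [h0] at h1
      simp only [zero_mul, map_zero, mul_eq_zero] at h1
      rcases h1 with (h1 | h1) | h1
      · exact hpn h1
      · exact hpn' h1
      · exact hNq' h1
    have hqn' : (starRingEnd ℂ) (q.coeff n) ≠ 0 := (map_ne_zero _).2 hqn
    refine ⟨(starRingEnd ℂ) (p.coeff n) * ((∑ k ∈ q.support, ‖q.coeff k‖ ^ 2 : ℝ) : ℂ) /
      ((starRingEnd ℂ) (q.coeff n) * ((∑ k ∈ p.support, ‖p.coeff k‖ ^ 2 : ℝ) : ℂ)),
      div_ne_zero (mul_ne_zero hpn' hNq') (mul_ne_zero hqn' hNp'), ?_⟩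
    ext i
    rw [Polynomial.coeff_C_mul, div_mul_eq_mul_div, eq_div_iff (mul_ne_zero hqn' hNp')]
    have := hl i n
    linear_combination -this
  · rintro ⟨c, hc, rfl⟩
    have hcc : (starRingEnd ℂ) c ≠ 0 := (map_ne_zero _).2 hc
    have hs : (Polynomial.C c * p).support = p.support := by
      ext k
      simp [Polynomial.mem_support_iff, hc]
    have hN : ∑ k ∈ (Polynomial.C c * p).support, ‖(Polynomial.C c * p).coeff k‖ ^ 2 =
        ‖c‖ ^ 2 * ∑ k ∈ p.support, ‖p.coeff k‖ ^ 2 := by
      rw [hs, Finset.mul_sum]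
      refine Finset.sum_congr rfl fun k _ => ?_
      rw [Polynomial.coeff_C_mul, norm_mul, mul_pow]
    have hcn : ((‖c‖ ^ 2 : ℝ) : ℂ) = c * (starRingEnd ℂ) c := by
      rw [Complex.mul_conj, Complex.normSq_eq_norm_sq]
    funext i j
    simp only [line]
    rw [hN, Polynomial.coeff_C_mul, Polynomial.coeff_C_mul, map_mul, Complex.ofReal_mul, hcn]
    rw [div_eq_div_iff hNp' (mul_ne_zero (mul_ne_zero hc hcc) hNp')]
    ring

end Pool.QB
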