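import Pool.Agent.MP_c51823_gt.QB.KuhnDef

/-!
# [QB-K1] Kuhn partition of unity. At `x` the nonzero `φ_v` are those with `v = ⌊x⌋ + 1_S`, `S` a superlevel set
of the fractional parts; then `φ_v(x) = (min_S frac - max_{S^c} frac)_+` (layer cake).
-/

set_option autoImplicit false
open Topology

namespace Pool.QB

namespace K1_aux

/-- the lower end of the layer -/
noncomputable def pp {d : ℕ} (v : Fin d → ℤ) (x : Fin d → ℝ) : ℝ :=
  Finset.univ.fold max 0 fun i => x i - v i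

/-- one minus the upper end of the layer -/
noncomputable def mm {d : ℕ} (v : Fin d → ℤ) (x : Fin d → ℝ) : ℝ :=
  Finset.univ.fold max 0 fun i => (v i : ℝ) - x i

theorem kuhn_eq {d : ℕ} (v : Fin d → ℤ) (x : Fin d → ℝ) :
    kuhn v x = max 0 (1 - pp v x - mm v x) := rfl

theorem continuous_fold {ι X : Type*} [TopologicalSpace X] (s : Finset ι) (f : ι → X → ℝ)
    (hf : ∀ i ∈ s, Continuous (f i)) : Continuous fun x => s.fold max 0 fun i => f i x := by
  classical
  induction s using Finset.induction_on with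
  | empty => simpa using continuous_const
  | insert a s ha ih =>
    simp only [Finset.fold_insert ha]
    exact (hf a (Finset.mem_insert_self _ _)).max
      (ih fun i hi => hf i (Finset.mem_insert_of_mem hi))

theorem pp_le_iff {d : ℕ} (v : Fin d → ℤ) (x : Fin d → ℝ) (t : ℝ) :
    pp v x ≤ t ↔ 0 ≤ t ∧ ∀ i, x i - v i ≤ t := by
  rw [pp, Finset.fold_max_le]
  simp

theorem lt_mm_iff {d : ℕ} (v : Fin d → ℤ) (x : Fin d → ℝ) (t : ℝ) :
    t < 1 - mm v x ↔ t < 1 ∧ ∀ i, t < 1 + (x i - v i) := by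
  have h1 : t < 1 - mm v x ↔ mm v x < 1 - t := by constructor <;> intro h <;> linarith
  rw [h1, mm, Finset.fold_max_lt]
  constructor
  · rintro ⟨h2, h3⟩
    exact ⟨by linarith, fun i => by have := h3 i (Finset.mem_univ i); linarith⟩
  · rintro ⟨h2, h3⟩
    exact ⟨by linarith, fun i _ => by have := h3 i; linarith⟩

/-- the layer of `v` -/
theorem mem_layer {d : ℕ} (v : Fin d → ℤ) (x : Fin d → ℝ) (t : ℝ) :
    t ∈ Set.Ico (pp v x) (1 - mm v x) ↔ t ∈ Set.Ico (0 : ℝ) 1 ∧ ∀ i, v i = ⌈x i - t⌉ := by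
  rw [Set.mem_Ico, Set.mem_Ico, pp_le_iff, lt_mm_iff]
  constructor
  · rintro ⟨⟨h1, h2⟩, h3, h4⟩
    refine ⟨⟨h1, h3⟩, fun i => ?_⟩
    symm
    rw [Int.ceil_eq_iff]
    exact ⟨by have := h4 i; linarith, by have := h2 i; linarith⟩
  · rintro ⟨⟨h1, h3⟩, h2⟩
    have h4 : ∀ i, (v i : ℝ) - 1 < x i - t ∧ x i - t ≤ v i := fun i =>
      Int.ceil_eq_iff.1 (h2 i).symm
    exact ⟨⟨h1, fun i => by have := (h4 i).2; linarith⟩, h3, fun i => by
      have := (h4 i).1; linarith⟩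

theorem kuhn_ne {d : ℕ} (v : Fin d → ℤ) (x : Fin d → ℝ) :
    kuhn v x ≠ 0 ↔ pp v x < 1 - mm v x := by
  rw [kuhn_eq]
  constructor
  · intro h
    by_contra h1
    exact h (max_eq_left (by linarith))
  · intro h
    have : 0 < 1 - pp v x - mm v x := by linarith
    exact (lt_max_of_lt_right this).ne'

theorem kuhn_ne_exists {d : ℕ} (v : Fin d → ℤ) (x : Fin d → ℝ) (h : kuhn v x ≠ 0) :
    ∃ t ∈ Set.Ico (0 : ℝ) 1, ∀ i, v i = ⌈x i - t⌉ := by
  rw [kuhn_ne] at h
  exact ⟨pp v x, (mem_layer v x _).1 ⟨le_refl _, h⟩⟩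

theorem injOn {d : ℕ} (x : Fin d → ℝ) :
    Set.InjOn (fun v : Fin d → ℤ => ∑ i, v i) {v | kuhn v x ≠ 0} := by
  have key : ∀ v v' : Fin d → ℤ, ∀ t t' : ℝ, (∀ i, v i = ⌈x i - t⌉) → (∀ i, v' i = ⌈x i - t'⌉) →
      t ≤ t' → ∑ i, v i = ∑ i, v' i → v = v' := by
    intro v v' t t' h h' htt hs
    have h1 : ∀ i ∈ Finset.univ, v' i ≤ v i := by
      intro i _
      rw [h, h']
      exact Int.ceil_le_ceil (by linarith)
    have h2 := (Finset.sum_eq_sum_iff_of_le h1).1 hs.symm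
    funext i
    exact (h2 i (Finset.mem_univ i)).symm
  intro v hv v' hv' hs
  obtain ⟨t, _, ht⟩ := kuhn_ne_exists v x hv
  obtain ⟨t', _, ht'⟩ := kuhn_ne_exists v' x hv'
  rcases le_total t t' with h | h
  · exact key v v' t t' ht ht' h hs
  · exact (key v' v t' t ht' ht h hs.symm).symm

theorem mapsTo {d : ℕ} (x : Fin d → ℝ) :
    Set.MapsTo (fun v : Fin d → ℤ => ∑ i, v i) {v | kuhn v x ≠ 0}
      (Finset.Icc (∑ i, ⌊x i⌋) (∑ i, ⌊x i⌋ + d) : Finset ℤ) := by
  intro v hv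
  obtain ⟨t, ⟨h0, h1⟩, ht⟩ := kuhn_ne_exists v x hv
  have h2 : ∀ i, ⌊x i⌋ ≤ v i ∧ v i ≤ ⌊x i⌋ + 1 := by
    intro i
    rw [ht i]
    constructor
    · rw [Int.le_ceil_iff]
      have := Int.floor_le (x i)
      linarith
    · rw [Int.ceil_le]
      push_cast
      have := Int.lt_floor_add_one (x i)
      linarith
  simp only [Finset.coe_Icc, Set.mem_Icc]
  constructor
  · exact Finset.sum_le_sum fun i _ => (h2 i).1
  · have h3 : ∑ i, v i ≤ ∑ i, (⌊x i⌋ + 1) := Finset.sum_le_sum fun i _ => (h2 i).2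
    rw [Finset.sum_add_distrib] at h3
    simpa using h3

end K1_aux

open K1_aux

/-- [QB-K1] -/
theorem continuous_kuhn {d : ℕ} (v : Fin d → ℤ) : Continuous (kuhn v) := by
  have h1 : Continuous (pp v) := continuous_fold Finset.univ (fun i (x : Fin d → ℝ) => x i - v i)
    fun i _ => by fun_prop
  have h2 : Continuous (mm v) := continuous_fold Finset.univ
    (fun i (x : Fin d → ℝ) => (v i : ℝ) - x i) fun i _ => by fun_prop
  exact continuous_const.max ((continuous_const.sub h1).sub h2)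

theorem kuhn_nonneg {d : ℕ} (v : Fin d → ℤ) (x : Fin d → ℝ) : 0 ≤ kuhn v x := le_max_left _ _

theorem kuhn_supp {d : ℕ} (v : Fin d → ℤ) (x : Fin d → ℝ) (h : kuhn v x ≠ 0) (i : Fin d) :
    |x i - v i| < 1 := by
  obtain ⟨t, ⟨h0, h1⟩, ht⟩ := kuhn_ne_exists v x h
  have h2 := Int.ceil_eq_iff.1 (ht i).symm
  rw [abs_lt]
  constructor
  · linarith [h2.1]
  · linarith [h2.2]

theorem kuhn_finite {d : ℕ} (x : Fin d → ℝ) : {v | kuhn v x ≠ 0}.Finite ∧
    {v | kuhn v x ≠ 0}.ncard ≤ d + 1 := by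
  refine ⟨Set.Finite.of_injOn (mapsTo x) (injOn x) (Finset.finite_toSet _), ?_⟩
  refine (Set.ncard_le_ncard_of_injOn _ (mapsTo x) (injOn x) (Finset.finite_toSet _)).trans ?_
  rw [Set.ncard_coe_finset, Int.card_Icc]
  omega

theorem kuhn_sum {d : ℕ} (x : Fin d → ℝ) : ∑ᶠ v, kuhn v x = 1 := by
  classical
  have hfin := (kuhn_finite x).1
  rw [finsum_eq_sum_of_support_subset (s := hfin.toFinset) _ (by
    intro v hv
    simpa using hv)]
  have hdis : Set.PairwiseDisjoint (hfin.toFinset : Set (Fin d → ℤ))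
      (fun v => Set.Ico (pp v x) (1 - mm v x)) := by
    intro v _ v' _ hne
    refine Set.disjoint_left.2 ?_
    intro t ht ht'
    apply hne
    funext i
    rw [((mem_layer v x t).1 ht).2 i, ((mem_layer v' x t).1 ht').2 i]
  have hU : (⋃ v ∈ hfin.toFinset, Set.Ico (pp v x) (1 - mm v x)) = Set.Ico (0 : ℝ) 1 := by
    ext t
    simp only [Set.mem_iUnion]
    constructor
    · rintro ⟨v, _, ht⟩
      exact ((mem_layer v x t).1 ht).1
    · intro ht
      have h1 : t ∈ Set.Ico (pp (fun i => ⌈x i - t⌉) x) (1 - mm (fun i => ⌈x i - t⌉) x) :=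
        (mem_layer _ x t).2 ⟨ht, fun i => rfl⟩
      refine ⟨fun i => ⌈x i - t⌉, ?_, h1⟩
      rw [Set.Finite.mem_toFinset, Set.mem_ofPred_eq, kuhn_ne]
      exact lt_of_le_of_lt h1.1 h1.2
  have hm := MeasureTheory.measure_biUnion_finset (μ := MeasureTheory.volume) hdis
    (fun v _ => measurableSet_Ico)
  rw [hU] at hm
  simp only [Real.volume_Ico] at hm
  have h2 : ∀ v : Fin d → ℤ, ENNReal.ofReal (1 - mm v x - pp v x) = ENNReal.ofReal (kuhn v x) := by
    intro v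
    rw [kuhn_eq]
    rcases le_total 0 (1 - pp v x - mm v x) with h | h
    · rw [max_eq_right h]
      congr 1
      ring
    · rw [max_eq_left h, ENNReal.ofReal_zero, ENNReal.ofReal_eq_zero]
      linarith
  rw [Finset.sum_congr rfl (fun v _ => h2 v),
    ← ENNReal.ofReal_sum_of_nonneg (fun v _ => kuhn_nonneg v x)] at hm
  have h3 := (ENNReal.ofReal_eq_ofReal_iff (by norm_num)
    (Finset.sum_nonneg fun v _ => kuhn_nonneg v x)).1 hm
  rw [← h3]
  norm_num

end Pool.QB
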