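import Pool.Agent.MP_c51823_gt.QB.K2a
import Pool.Agent.MP_c51823_gt.QB.K1
import Pool.Agent.MP_c51823_gt.QB.C3

/-!
# [QB-K2] Connectivity of skeleta of a simplex. Proof: QB_PROOF.md 8.2 (`cone_ext` gives `f~`; `g(x) = ∑_v φ_v(L x) e_{b(x_v)}`;
straight lines, `hep_bd`).
-/

set_option autoImplicit false
open Topology

namespace Pool.QB

/-- the scaled projection `Δ^{k+1} → ℝ^{k+1}` -/
noncomputable def K2pr {k : ℕ} (L : ℝ) (x : Dl (k + 1)) : Fin (k + 1) → ℝ :=
  fun i => L * x.1 (Fin.castSucc i)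

theorem continuous_K2pr {k : ℕ} (L : ℝ) : Continuous (K2pr (k := k) L) := by
  refine continuous_pi fun i => continuous_const.mul ?_
  exact (continuous_apply _).comp continuous_subtype_val

theorem K2_coord_mem {n : ℕ} (x : Dl n) (i : Fin (n + 1)) : x.1 i ∈ Set.Icc (0 : ℝ) 1 := by
  refine ⟨x.2.1 i, ?_⟩
  rw [← x.2.2]
  exact Finset.single_le_sum (fun j _ => x.2.1 j) (Finset.mem_univ i)

/-- two points whose projections are in the support of the same Kuhn function are close -/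
theorem K2_close {k : ℕ} {L : ℝ} (hL : 0 < L) (v : Fin (k + 1) → ℤ) (x y : Dl (k + 1))
    (hx : kuhn v (K2pr L x) ≠ 0) (hy : kuhn v (K2pr L y) ≠ 0) :
    dist x y ≤ 2 * (k + 1) / L := by
  have h1 : ∀ i : Fin (k + 1), |x.1 (Fin.castSucc i) - y.1 (Fin.castSucc i)| ≤ 2 / L := by
    intro i
    have hx' := kuhn_supp v _ hx i
    have hy' := kuhn_supp v _ hy i
    have h2 : |L * x.1 (Fin.castSucc i) - L * y.1 (Fin.castSucc i)| ≤ 2 := by
      have e : L * x.1 (Fin.castSucc i) - L * y.1 (Fin.castSucc i)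
          = (K2pr L x i - v i) - (K2pr L y i - v i) := by
        simp only [K2pr]; ring
      rw [e]
      calc |(K2pr L x i - v i) - (K2pr L y i - v i)|
          ≤ |K2pr L x i - v i| + |K2pr L y i - v i| := abs_sub _ _
        _ ≤ 2 := by linarith
    rw [← mul_sub, abs_mul, abs_of_pos hL] at h2
    rw [le_div_iff₀ hL]
    linarith
  have hlast : |x.1 (Fin.last (k + 1)) - y.1 (Fin.last (k + 1))| ≤ 2 * (k + 1) / L := by
    have ex : x.1 (Fin.last (k + 1)) = 1 - ∑ i : Fin (k + 1), x.1 (Fin.castSucc i) := by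
      have := x.2.2
      rw [Fin.sum_univ_castSucc] at this
      linarith
    have ey : y.1 (Fin.last (k + 1)) = 1 - ∑ i : Fin (k + 1), y.1 (Fin.castSucc i) := by
      have := y.2.2
      rw [Fin.sum_univ_castSucc] at this
      linarith
    have e : x.1 (Fin.last (k + 1)) - y.1 (Fin.last (k + 1))
        = -∑ i : Fin (k + 1), (x.1 (Fin.castSucc i) - y.1 (Fin.castSucc i)) := by
      rw [ex, ey, Finset.sum_sub_distrib]; ring
    rw [e, abs_neg]
    calc |∑ i : Fin (k + 1), (x.1 (Fin.castSucc i) - y.1 (Fin.castSucc i))|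
        ≤ ∑ i : Fin (k + 1), |x.1 (Fin.castSucc i) - y.1 (Fin.castSucc i)| :=
          Finset.abs_sum_le_sum_abs _ _
      _ ≤ ∑ _i : Fin (k + 1), 2 / L := Finset.sum_le_sum fun i _ => h1 i
      _ = 2 * (k + 1) / L := by
          rw [Finset.sum_const, Finset.card_univ, Fintype.card_fin, nsmul_eq_mul]
          push_cast
          ring
  rw [Subtype.dist_eq]
  rw [dist_pi_le_iff (by positivity)]
  intro i
  rw [Real.dist_eq]
  refine Fin.lastCases hlast (fun j => ?_) i
  refine (h1 j).trans ?_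
  rw [div_le_div_iff_of_pos_right hL]
  have : (0 : ℝ) ≤ k := Nat.cast_nonneg k
  linarith

theorem K2_exists_vertex {σ : Finset ℕ} (hσ : σ.Nonempty) {x : ℕ → ℝ} (hx : x ∈ simp σ) :
    ∃ j ∈ σ, 1 / (σ.card : ℝ) ≤ x j := by
  have hc : (0 : ℝ) < σ.card := by exact_mod_cast hσ.card_pos
  have h : ∑ _i ∈ σ, 1 / (σ.card : ℝ) ≤ ∑ i ∈ σ, x i := by
    rw [hx.2.2, Finset.sum_const, nsmul_eq_mul]
    rw [mul_one_div_cancel hc.ne']
  obtain ⟨j, hj, h'⟩ := Finset.exists_le_of_sum_le hσ h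
  exact ⟨j, hj, h'⟩

/-- [QB-K2] Connectivity of skeleta of a simplex (8.2). -/
theorem conn_skel (σ : Finset ℕ) (hσ : σ.Nonempty) (t : ℕ) :
    Conn ((Cx.full σ).skel t).real t := by
  classical
  set K : Cx := (Cx.full σ).skel t with hK
  have hmemS : ∀ s : Finset ℕ, s ∈ K.S ↔ (s ⊆ σ ∧ s.Nonempty) ∧ s.card ≤ t + 1 := by
    intro s
    simp [hK, Cx.skel, Cx.full]
  refine ⟨?_, ?_⟩
  · obtain ⟨v, hv⟩ := hσ
    refine ⟨⟨fun i => if i = v then 1 else 0, {v}, (hmemS _).2 ⟨⟨by simpa using hv, by simp⟩, by simp⟩,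
      fun i => by dsimp only; split_ifs <;> norm_num, fun i hi => by simpa using hi, by simp⟩⟩
  intro k hk f
  -- extend into the full simplex
  have hsub : ∀ y : K.real, y.1 ∈ simp σ := by
    intro y
    refine mem_simp_of_fsupp K y.2 ?_
    exact ((hmemS _).1 (fsupp_mem K y.2)).1.1
  let f' : C(bdD (k + 1), simp σ) :=
    ⟨fun x => ⟨(f x).1, hsub (f x)⟩, by
      exact Continuous.subtype_mk (continuous_subtype_val.comp f.continuous) _⟩
  obtain ⟨Ft, hFt⟩ := cone_ext f'
  have hc : (0 : ℝ) < σ.card := by exact_mod_cast hσ.card_pos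
  -- uniform continuity
  obtain ⟨δ, hδ, hunif⟩ : ∃ δ > 0, ∀ x y : Dl (k + 1), dist x y < δ →
      ∀ j ∈ σ, |(Ft x).1 j - (Ft y).1 j| < 1 / (σ.card : ℝ) := by
    have hcont : Continuous fun x : Dl (k + 1) => fun j : σ => (Ft x).1 j := by
      refine continuous_pi fun j => ?_
      exact (continuous_apply _).comp (continuous_subtype_val.comp Ft.continuous)
    have hu := CompactSpace.uniformContinuous_of_continuous hcont
    obtain ⟨δ, hδ, h⟩ := Metric.uniformContinuous_iff.1 hu (1 / (σ.card : ℝ)) (by positivity)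
    refine ⟨δ, hδ, fun x y hxy j hj => ?_⟩
    have h1 := h hxy
    rw [dist_pi_lt_iff (by positivity)] at h1
    simpa [Real.dist_eq] using h1 ⟨j, hj⟩
  obtain ⟨L, hL, hLδ⟩ : ∃ L : ℝ, 0 < L ∧ 2 * ((k : ℝ) + 1) / L < δ := by
    refine ⟨(2 * ((k : ℝ) + 1) + 1) / δ, by positivity, ?_⟩
    rw [div_div_eq_mul_div, div_lt_iff₀ (by positivity)]
    nlinarith
  -- sample points and vertices
  have hne : Nonempty (Dl (k + 1)) := inferInstance
  have hb : ∀ v : Fin (k + 1) → ℤ, ∃ j ∈ σ, ∀ x : Dl (k + 1), kuhn v (K2pr L x) ≠ 0 →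
      0 < (Ft x).1 j := by
    intro v
    by_cases h : ∃ x : Dl (k + 1), kuhn v (K2pr L x) ≠ 0
    · obtain ⟨y, hy⟩ := h
      obtain ⟨j, hj, hj'⟩ := K2_exists_vertex hσ (Ft y).2
      refine ⟨j, hj, fun x hx => ?_⟩
      have h1 := hunif x y ((K2_close hL v x y hx hy).trans_lt hLδ) j hj
      have := (abs_lt.1 h1).1
      linarith
    · obtain ⟨j, hj⟩ := hσ
      push Not at h
      exact ⟨j, hj, fun x hx => absurd (h x) hx⟩
  choose b hbσ hbpos using hb
  set B : Finset (Fin (k + 1) → ℤ) := Fintype.piFinset fun _ => Finset.Icc (-1) (⌈L⌉ + 1) with hB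
  have hBmem : ∀ (x : Dl (k + 1)) (v : Fin (k + 1) → ℤ), kuhn v (K2pr L x) ≠ 0 → v ∈ B := by
    intro x v hv
    rw [hB, Fintype.mem_piFinset]
    intro i
    have h1 := kuhn_supp v _ hv i
    have h2 := K2_coord_mem x (Fin.castSucc i)
    have h3 : 0 ≤ K2pr L x i := mul_nonneg hL.le h2.1
    have h4 : K2pr L x i ≤ L := by
      simp only [K2pr]
      nlinarith [h2.2]
    obtain ⟨h5, h6⟩ := abs_lt.1 h1
    rw [Finset.mem_Icc]
    constructor
    · have : (-1 : ℝ) < v i := by linarith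
      have : (-1 : ℤ) < v i := by exact_mod_cast this
      exact this.le
    · have h7 : (v i : ℝ) < L + 1 := by linarith
      have h8 : (v i : ℝ) < ((⌈L⌉ + 1 : ℤ) : ℝ) := by
        push_cast
        have := Int.le_ceil L
        linarith
      have : v i < ⌈L⌉ + 1 := by exact_mod_cast h8
      exact this.le
  have hsum : ∀ x : Dl (k + 1), ∑ v ∈ B, kuhn v (K2pr L x) = 1 := by
    intro x
    rw [← kuhn_sum (K2pr L x)]
    rw [finsum_eq_sum_of_support_subset]
    intro v hv
    exact hBmem x v hv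
  let g0 : Dl (k + 1) → ℕ → ℝ := fun x j => ∑ v ∈ B, kuhn v (K2pr L x) * (if b v = j then 1 else 0)
  let s : Dl (k + 1) → Finset ℕ := fun x => (B.filter fun v => kuhn v (K2pr L x) ≠ 0).image b
  have hsS : ∀ x, s x ∈ K.S := by
    intro x
    rw [hmemS]
    refine ⟨⟨?_, ?_⟩, ?_⟩
    · intro j hj
      obtain ⟨v, -, rfl⟩ := Finset.mem_image.1 hj
      exact hbσ v
    · rw [Finset.image_nonempty]
      by_contra hemp
      rw [Finset.not_nonempty_iff_eq_empty, Finset.filter_eq_empty_iff] at hemp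
      have h0 : ∑ v ∈ B, kuhn v (K2pr L x) = 0 :=
        Finset.sum_eq_zero fun v hv => not_not.1 (hemp hv)
      rw [hsum x] at h0
      exact one_ne_zero h0
    · refine Finset.card_image_le.trans ?_
      have h1 : (B.filter fun v => kuhn v (K2pr L x) ≠ 0).card
          = ({v | kuhn v (K2pr L x) ≠ 0} : Set (Fin (k + 1) → ℤ)).ncard := by
        rw [← Set.ncard_coe_finset]
        congr 1
        ext v
        simp only [Finset.coe_filter, Set.mem_ofPred_eq]
        exact ⟨fun h => h.2, fun h => ⟨hBmem x v h, h⟩⟩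
      rw [h1]
      exact (kuhn_finite (K2pr L x)).2.trans (by omega)
  have hgs : ∀ x, g0 x ∈ simp (s x) := by
    intro x
    refine ⟨?_, ?_, ?_⟩
    · intro j
      refine Finset.sum_nonneg fun v _ => mul_nonneg (kuhn_nonneg v _) ?_
      split_ifs <;> norm_num
    · intro j hj
      refine Finset.sum_eq_zero fun v hv => ?_
      by_cases h : kuhn v (K2pr L x) = 0
      · rw [h, zero_mul]
      · have hne' : b v ≠ j := by
          rintro rfl
          exact hj (Finset.mem_image.2 ⟨v, Finset.mem_filter.2 ⟨hv, h⟩, rfl⟩)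
        rw [if_neg hne', mul_zero]
    · change ∑ j ∈ s x, ∑ v ∈ B, kuhn v (K2pr L x) * (if b v = j then 1 else 0) = 1
      rw [Finset.sum_comm]
      refine Eq.trans ?_ (hsum x)
      refine Finset.sum_congr rfl fun v hv => ?_
      rw [← Finset.mul_sum]
      by_cases h : kuhn v (K2pr L x) = 0
      · rw [h, zero_mul]
      · have hmem : b v ∈ s x := Finset.mem_image.2 ⟨v, Finset.mem_filter.2 ⟨hv, h⟩, rfl⟩
        rw [Finset.sum_ite_eq, if_pos hmem, mul_one]
  have hg0cont : Continuous g0 := by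
    refine continuous_pi fun j => ?_
    refine continuous_finsetSum _ fun v _ => ?_
    exact ((continuous_kuhn v).comp (continuous_K2pr L)).mul continuous_const
  let G : C(Dl (k + 1), K.real) :=
    ⟨fun x => ⟨g0 x, simp_subset_real K (hsS x) (hgs x)⟩, Continuous.subtype_mk hg0cont _⟩
  let g : C(bdD (k + 1), K.real) := G.comp ⟨Subtype.val, continuous_subtype_val⟩
  have hunion : ∀ x : bdD (k + 1), fsupp (f x).1 ∪ fsupp (g x).1 ∈ K.S := by
    intro x
    have h1 : fsupp (g x).1 ⊆ fsupp (f x).1 := by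
      refine (fsupp_subset_of_simp (hgs x.1)).trans ?_
      intro j hj
      obtain ⟨v, hv, rfl⟩ := Finset.mem_image.1 hj
      have h2 := hbpos v x.1 (Finset.mem_filter.1 hv).2
      rw [mem_fsupp_iff_pos K (f x).2]
      have h3 := hFt x
      have h4 : (Ft x.1).1 = (f x).1 := by rw [h3]; rfl
      rw [← h4]
      exact h2
    rw [Finset.union_eq_left.2 h1]
    exact fsupp_mem K (f x).2
  obtain ⟨H, h0, h1, -⟩ := line_homotopy K f g hunion
  exact hep_bd f g H h0 h1 G (fun x => rfl)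

end Pool.QB
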