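import Pool.Agent.MP_c51823_gt.QB.Simplex
import Pool.Agent.MP_c51823_gt.QB.C2

/-!
# [QB-K2a]
-/

set_option autoImplicit false
open Topology

namespace Pool.QB

namespace K2a_aux

variable {n : ℕ}

/-- smallest barycentric coordinate -/
noncomputable def mn (x : Dl (n + 1)) : ℝ :=
  Finset.univ.inf' Finset.univ_nonempty (fun i => x.1 i)

theorem continuous_mn : Continuous (mn (n := n)) := by
  unfold mn
  refine Continuous.finset_inf'_apply _ fun i _ => ?_
  exact (continuous_apply i).comp continuous_subtype_val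

theorem mn_le (x : Dl (n + 1)) (i : Fin (n + 2)) : mn x ≤ x.1 i :=
  Finset.inf'_le _ (Finset.mem_univ i)

theorem exists_mn (x : Dl (n + 1)) : ∃ i, x.1 i = mn x := by
  obtain ⟨i, _, hi⟩ := Finset.exists_mem_eq_inf' (s := Finset.univ) Finset.univ_nonempty
    (fun i => x.1 i)
  exact ⟨i, hi.symm⟩

theorem mn_nonneg (x : Dl (n + 1)) : 0 ≤ mn x := by
  obtain ⟨i, hi⟩ := exists_mn x
  rw [← hi]
  exact x.2.1 i

/-- radial coordinate -/
noncomputable def lam (x : Dl (n + 1)) : ℝ := ((n : ℝ) + 2) * mn x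

theorem continuous_lam : Continuous (lam (n := n)) := continuous_const.mul continuous_mn

theorem lam_nonneg (x : Dl (n + 1)) : 0 ≤ lam x := mul_nonneg (by positivity) (mn_nonneg x)

theorem lam_eq_zero (x : Dl (n + 1)) (hx : x ∈ bdD (n + 1)) : mn x = 0 := by
  obtain ⟨i, hi⟩ := hx
  exact le_antisymm (hi ▸ mn_le x i) (mn_nonneg x)

/-- the projection to the boundary, on `λ ≤ 1/2` -/
noncomputable def proj (x : Dl (n + 1)) (hx : lam x ≤ 1 / 2) : bdD (n + 1) :=
  ⟨⟨fun i => (x.1 i - mn x) / (1 - lam x), by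
    refine ⟨fun i => div_nonneg (sub_nonneg.2 (mn_le x i)) (by linarith), ?_⟩
    rw [← Finset.sum_div, Finset.sum_sub_distrib, x.2.2]
    have : (1 - ∑ _i : Fin (n + 1 + 1), mn x) = 1 - lam x := by
      rw [Finset.sum_const, Finset.card_univ, Fintype.card_fin, nsmul_eq_mul, lam]
      push_cast
      ring
    rw [this]
    exact div_self (by linarith)⟩, by
    obtain ⟨i, hi⟩ := exists_mn x
    exact ⟨i, by simp [hi]⟩⟩

/-- the dilation by `2`, on `λ ≥ 1/2` -/
noncomputable def dil (x : Dl (n + 1)) (hx : 1 / 2 ≤ lam x) : Dl (n + 1) :=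
  ⟨fun i => 2 * x.1 i - 1 / ((n : ℝ) + 2), by
    have hn : (0 : ℝ) < (n : ℝ) + 2 := by positivity
    refine ⟨fun i => ?_, ?_⟩
    · have h1 := mn_le x i
      have h2 : 1 / ((n : ℝ) + 2) ≤ 2 * mn x := by
        rw [div_le_iff₀ hn]
        unfold lam at hx
        linarith
      linarith
    · rw [Finset.sum_sub_distrib, ← Finset.mul_sum, x.2.2]
      simp
      field_simp
      ring⟩

theorem proj_eq_dil (x : Dl (n + 1)) (hx : lam x ≤ 1 / 2) (hx' : 1 / 2 ≤ lam x) :
    (proj x hx).1 = dil x hx' := by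
  have h : lam x = 1 / 2 := le_antisymm hx hx'
  have hn : (0 : ℝ) < (n : ℝ) + 2 := by positivity
  have h2 : 2 * mn x = 1 / ((n : ℝ) + 2) := by
    rw [eq_div_iff hn.ne']
    unfold lam at h
    linarith
  refine Subtype.ext (funext fun i => ?_)
  change (x.1 i - mn x) / (1 - lam x) = 2 * x.1 i - 1 / ((n : ℝ) + 2)
  rw [h, ← h2]
  ring

end K2a_aux

open K2a_aux in
/-- [QB-K2a] Homotopy extension for `(Δ^{n+1}, ∂Δ^{n+1})`: if `f` is homotopic to `g` and `g` extends then
`f` extends. (Radial coordinates: `λ(x) = (n+2) min x`, `proj x = (x - min x)/(1 - λ)`.) -/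
theorem hep_bd {Y : Type} [TopologicalSpace Y] {n : ℕ} (f g : C(bdD (n + 1), Y))
    (H : C(bdD (n + 1) × unitInterval, Y)) (h0 : ∀ x, H (x, 0) = f x) (h1 : ∀ x, H (x, 1) = g x)
    (G : C(Dl (n + 1), Y)) (hG : ∀ x, G x.1 = g x) : ∃ F : C(Dl (n + 1), Y), ∀ x, F x.1 = f x := by
  classical
  let A : {x : Dl (n + 1) // lam x ≤ 1 / 2} → Y := fun x =>
    H (proj x.1 x.2, ⟨2 * lam x.1, by
      have h1 := lam_nonneg x.1
      have h2 := x.2
      exact ⟨by linarith, by linarith⟩⟩)
  let B : {x : Dl (n + 1) // 1 / 2 ≤ lam x} → Y := fun x => G (dil x.1 x.2)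
  have hA : Continuous A := by
    refine H.continuous.comp (Continuous.prodMk ?_ ?_)
    · refine Continuous.subtype_mk (Continuous.subtype_mk (continuous_pi fun i => ?_) _) _
      refine Continuous.div ?_ ?_ ?_
      · exact ((continuous_apply i).comp (continuous_subtype_val.comp continuous_subtype_val)).sub
          (continuous_mn.comp continuous_subtype_val)
      · exact continuous_const.sub (continuous_lam.comp continuous_subtype_val)
      · intro x
        have h2 := x.2
        linarith
    · exact Continuous.subtype_mk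
        (continuous_const.mul (continuous_lam.comp continuous_subtype_val)) _
  have hB : Continuous B := by
    refine G.continuous.comp ?_
    refine Continuous.subtype_mk (continuous_pi fun i => ?_) _
    exact (continuous_const.mul ((continuous_apply i).comp
      (continuous_subtype_val.comp continuous_subtype_val))).sub continuous_const
  have hAB : ∀ (x : Dl (n + 1)) (hx : lam x ≤ 1 / 2) (hx' : 1 / 2 ≤ lam x),
      A ⟨x, hx⟩ = B ⟨x, hx'⟩ := by
    intro x hx hx'
    have h : lam x = 1 / 2 := le_antisymm hx hx'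
    have e1 : (⟨2 * lam x, by constructor <;> linarith⟩ : unitInterval) = 1 := by
      refine Subtype.ext ?_
      change 2 * lam x = 1
      rw [h]
      norm_num
    change H (proj x hx, (⟨2 * lam x, _⟩ : unitInterval)) = G (dil x hx')
    rw [e1, h1, ← proj_eq_dil x hx hx', hG]
  let F : Dl (n + 1) → Y := fun x => if hx : lam x ≤ 1 / 2 then A ⟨x, hx⟩ else
    B ⟨x, (not_le.1 hx).le⟩
  have hF : Continuous F := by
    have hc1 : IsClosed {x : Dl (n + 1) | lam x ≤ 1 / 2} :=
      isClosed_le continuous_lam continuous_const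
    have hc2 : IsClosed {x : Dl (n + 1) | 1 / 2 ≤ lam x} :=
      isClosed_le continuous_const continuous_lam
    have hu : {x : Dl (n + 1) | lam x ≤ 1 / 2} ∪ {x : Dl (n + 1) | 1 / 2 ≤ lam x} = Set.univ := by
      ext x
      simp only [Set.mem_union, Set.mem_ofPred_eq, Set.mem_univ, iff_true]
      exact le_total _ _
    rw [← continuousOn_univ, ← hu]
    refine ContinuousOn.union_of_isClosed ?_ ?_ hc1 hc2
    · rw [continuousOn_iff_continuous_domRestrict]
      refine hA.congr fun x => ?_
      have hx : lam x.1 ≤ 1 / 2 := x.2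
      change A x = if hx : lam x.1 ≤ 1 / 2 then A ⟨x.1, hx⟩ else B ⟨x.1, (not_le.1 hx).le⟩
      rw [dif_pos hx]
    · rw [continuousOn_iff_continuous_domRestrict]
      refine hB.congr fun x => ?_
      have hx : 1 / 2 ≤ lam x.1 := x.2
      change B x = if hx : lam x.1 ≤ 1 / 2 then A ⟨x.1, hx⟩ else B ⟨x.1, (not_le.1 hx).le⟩
      split_ifs with hx'
      · exact (hAB x.1 hx' hx).symm
      · rfl
  refine ⟨⟨F, hF⟩, fun x => ?_⟩
  have hm := lam_eq_zero x.1 x.2
  have hl : lam x.1 = 0 := by simp [lam, hm]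
  have hx : lam x.1 ≤ 1 / 2 := by rw [hl]; norm_num
  change F x.1 = f x
  simp only [F]
  rw [dif_pos hx]
  have e1 : (⟨2 * lam x.1, by constructor <;> linarith⟩ : unitInterval) = 0 := by
    refine Subtype.ext ?_
    change 2 * lam x.1 = 0
    rw [hl]
    norm_num
  have e2 : proj x.1 hx = x := by
    refine Subtype.ext (Subtype.ext (funext fun i => ?_))
    change (x.1.1 i - mn x.1) / (1 - lam x.1) = x.1.1 i
    rw [hm, hl]
    simp
  change H (proj x.1 hx, (⟨2 * lam x.1, _⟩ : unitInterval)) = f x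
  rw [e1, h0, e2]

/-- maps from the boundary to a closed simplex extend (cone construction, the simplex is convex and
compact) -/
theorem cone_ext {σ : Finset ℕ} {n : ℕ} (f : C(bdD (n + 1), simp σ)) :
    ∃ F : C(Dl (n + 1), simp σ), ∀ x, F x.1 = f x := by
  classical
  -- a boundary point
  let b : bdD (n + 1) := ⟨⟨Pi.single 0 1, by
    refine ⟨fun i => ?_, ?_⟩
    · by_cases h : i = 0
      · subst h; simp
      · simp [Pi.single_eq_of_ne h]
    · simp⟩, ⟨1, by simp⟩⟩
  let p : simp σ := f b
  have hconv := simp_convex σ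
  refine hep_bd f (ContinuousMap.const _ p)
    ⟨fun q => ⟨(1 - q.2.1) • (f q.1).1 + q.2.1 • p.1, hconv (f q.1).2 p.2
      (by linarith [q.2.2.2]) q.2.2.1 (by ring)⟩, ?_⟩ ?_ ?_ (ContinuousMap.const _ p) ?_
  · refine Continuous.subtype_mk ?_ _
    have e2 : Continuous fun q : bdD (n + 1) × unitInterval => (q.2.1 : ℝ) :=
      continuous_subtype_val.comp continuous_snd
    have e1 : Continuous fun q : bdD (n + 1) × unitInterval => (1 - q.2.1 : ℝ) :=
      continuous_const.sub e2
    have e3 : Continuous fun q : bdD (n + 1) × unitInterval => (f q.1).1 :=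
      continuous_subtype_val.comp (f.continuous.comp continuous_fst)
    exact (e1.smul e3).add (e2.smul continuous_const)
  · intro x
    refine Subtype.ext ?_
    simp
  · intro x
    refine Subtype.ext ?_
    simp
  · intro x
    rfl

end Pool.QB
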