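import Pool.Agent.MP_c51823_gt.QB.KTh.Asm5

/-!
# [QB-K] Module K (helper61, helper86)
-/

set_option autoImplicit false
open Topology

namespace Pool.QB

/-- Module K. -/
theorem exists_HT : Nonempty HT := ⟨KTh.theHT⟩

end Pool.QB
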