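import Pool.Agent.MP_c51823_gt.QB.Core

/-!
# [QB] Kuhn partition of unity: definition
-/

set_option autoImplicit false
open Topology

namespace Pool.QB

/-! ## The Kuhn partition of unity -/

/-- `φ_v(x) = (1 - max_i (x_i - v_i)_+ - max_i (v_i - x_i)_+)_+`, `v ∈ ℤ^d`. -/
noncomputable def kuhn {d : ℕ} (v : Fin d → ℤ) (x : Fin d → ℝ) : ℝ :=
  max 0 (1 - (Finset.univ.fold max 0 fun i => x i - v i) -
    (Finset.univ.fold max 0 fun i => (v i : ℝ) - x i))

end Pool.QB
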