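import Pool.Agent.MP_c51823_gt.QB.LDef

/-!
# [QB-L0]
-/

set_option autoImplicit false
open Topology

namespace Pool.QB

/-- [QB-L0] -/
theorem Sys.compact (S : Sys) : CompactSpace S.lim := by
  have h1 : IsClosed {x : ∀ i, S.G i | ∀ i, S.π i (x (i + 1)) = x i} := by
    rw [Set.ofPred_forall]
    refine isClosed_iInter fun i => ?_
    exact isClosed_eq ((S.π i).continuous.comp (continuous_apply (i + 1))) (continuous_apply i)
  have h2 : CompactSpace {x : ∀ i, S.G i // ∀ i, S.π i (x (i + 1)) = x i} :=
    isCompact_iff_compactSpace.mp h1.isCompact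
  exact h2

end Pool.QB
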