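import Pool.Agent.MP_c51823_gt.QB.L0

/-!
# [QB-L1] Stone-Weierstrass: the functions `F′ ∘ (p_i × id)` form a subalgebra separating points.
-/

set_option autoImplicit false
open Topology

namespace Pool.QB

namespace L1_aux

theorem tr_p (S : Sys) (i : ℕ) : ∀ (k : ℕ) (x : S.lim), S.tr i k (S.p (i + k) x) = S.p i x := by
  intro k
  induction k with
  | zero => intro x; rfl
  | succ k ih =>
    intro x
    have h1 : S.tr i (k + 1) (S.p (i + (k + 1)) x) =
        S.tr i k (S.π (i + k) (S.p (i + (k + 1)) x)) := rfl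
    rw [h1]
    have h2 : S.π (i + k) (S.p (i + (k + 1)) x) = S.p (i + k) x := x.2 (i + k)
    rw [h2, ih]

/-- the pull back of a function at level `i` -/
def lift (S : Sys) (i : ℕ) (F' : C(S.G i × unitInterval, ℝ)) : C(S.lim × unitInterval, ℝ) :=
  F'.comp ((S.p i).prodMap (ContinuousMap.id _))

theorem lift_apply (S : Sys) (i : ℕ) (F' : C(S.G i × unitInterval, ℝ)) (x : S.lim)
    (t : unitInterval) : lift S i F' (x, t) = F' (S.p i x, t) := rfl

theorem lift_up (S : Sys) (i k : ℕ) (F' : C(S.G i × unitInterval, ℝ)) :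
    lift S i F' = lift S (i + k) (F'.comp ((S.tr i k).prodMap (ContinuousMap.id _))) := by
  ext ⟨x, t⟩
  rw [lift_apply, lift_apply]
  show _ = F' (S.tr i k (S.p (i + k) x), t)
  rw [tr_p]

theorem lift_up' (S : Sys) {i j : ℕ} (h : i ≤ j) (F' : C(S.G i × unitInterval, ℝ)) :
    ∃ F'' : C(S.G j × unitInterval, ℝ), lift S i F' = lift S j F'' := by
  obtain ⟨k, rfl⟩ := Nat.exists_eq_add_of_le h
  exact ⟨_, lift_up S i k F'⟩

/-- the subalgebra of functions coming from a finite level -/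
def alg (S : Sys) : Subalgebra ℝ C(S.lim × unitInterval, ℝ) where
  carrier := {F | ∃ i, ∃ F' : C(S.G i × unitInterval, ℝ), F = lift S i F'}
  mul_mem' := by
    rintro _ _ ⟨i, F, rfl⟩ ⟨j, G, rfl⟩
    obtain ⟨F2, hF2⟩ := lift_up' S (le_max_left i j) F
    obtain ⟨G2, hG2⟩ := lift_up' S (le_max_right i j) G
    exact ⟨max i j, F2 * G2, by rw [hF2, hG2]; rfl⟩
  add_mem' := by
    rintro _ _ ⟨i, F, rfl⟩ ⟨j, G, rfl⟩
    obtain ⟨F2, hF2⟩ := lift_up' S (le_max_left i j) F
    obtain ⟨G2, hG2⟩ := lift_up' S (le_max_right i j) G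
    exact ⟨max i j, F2 + G2, by rw [hF2, hG2]; rfl⟩
  algebraMap_mem' := fun r => ⟨0, ContinuousMap.const _ r, by ext x; rfl⟩

theorem alg_sep (S : Sys) : (alg S).SeparatesPoints := by
  rintro ⟨x, s⟩ ⟨y, t⟩ hne
  by_cases hst : s = t
  · subst hst
    have hxy : x ≠ y := fun h => hne (by rw [h])
    have hi : ∃ i, x.1 i ≠ y.1 i := by
      by_contra hcon
      push Not at hcon
      exact hxy (Subtype.ext (funext hcon))
    obtain ⟨i, hi⟩ := hi
    obtain ⟨f, hf0, hf1, -⟩ := exists_continuous_zero_one_of_isClosed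
      (isClosed_singleton (x := x.1 i)) (isClosed_singleton (x := y.1 i))
      (by simpa using hi)
    refine ⟨_, ⟨lift S i (f.comp ContinuousMap.fst), ⟨i, _, rfl⟩, rfl⟩, ?_⟩
    show f (x.1 i) ≠ f (y.1 i)
    have h0 : f (x.1 i) = 0 := hf0 rfl
    have h1 : f (y.1 i) = 1 := hf1 rfl
    rw [h0, h1]
    exact zero_ne_one
  · refine ⟨_, ⟨lift S 0 (⟨fun q => (q.2 : ℝ), by fun_prop⟩), ⟨0, _, rfl⟩, rfl⟩, ?_⟩
    show (s : ℝ) ≠ (t : ℝ)
    exact fun h => hst (Subtype.ext h)

end L1_aux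

/-- [QB-L1] Continuous functions on `lim × [0,1]` are approximated by functions coming from a finite
level (Stone-Weierstrass). -/
theorem Sys.approx (S : Sys) (F : C(S.lim × unitInterval, ℝ)) (ε : ℝ) (hε : 0 < ε) :
    ∃ (i : ℕ) (F' : C(S.G i × unitInterval, ℝ)), ∀ x t, |F (x, t) - F' (S.p i x, t)| < ε := by
  have : CompactSpace S.lim := S.compact
  obtain ⟨⟨g, i, F', rfl⟩, hg⟩ :=
    ContinuousMap.exists_mem_subalgebra_near_continuous_of_separatesPoints (L1_aux.alg S)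
      (L1_aux.alg_sep S) F F.continuous ε hε
  refine ⟨i, F', fun x t => ?_⟩
  have h := hg (x, t)
  rw [Real.norm_eq_abs, abs_sub_comm] at h
  exact h

end Pool.QB
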