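import Pool.Agent.MP_c51823_gt.QB.C3

/-!
# [QB] the retraction of `ℝ^6` minus the diagonal onto `|∂Δ^5|`
-/

set_option autoImplicit false
open Topology

namespace Pool.QB

/-- the retraction `y ↦ (y - min y)/∑ (y - min y)` of the nonconstant vectors of `ℝ^6` onto
`|∂Δ^5|` -/
noncomputable def ret6 (y : ℕ → ℝ) : ℕ → ℝ := fun i =>
  if i < 6 then (y i - (Finset.range 6).inf' ⟨0, by simp⟩ y) /
    ∑ j ∈ Finset.range 6, (y j - (Finset.range 6).inf' ⟨0, by simp⟩ y) else 0

end Pool.QB
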