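import Pool.Agent.MP_c51823_gt.QB.Core

/-!
# [QB] Inverse systems: definitions
-/

set_option autoImplicit false
open Topology

namespace Pool.QB

/-- A sequence of compact spaces with bonding maps. -/
structure Sys where
  G : ℕ → Type
  [top : ∀ i, TopologicalSpace (G i)]
  [cpt : ∀ i, CompactSpace (G i)]
  [t2 : ∀ i, T2Space (G i)]
  π : ∀ i, C(G (i + 1), G i)

attribute [instance] Sys.top Sys.cpt Sys.t2

/-- the inverse limit -/
def Sys.lim (S : Sys) : Type := {x : ∀ i, S.G i // ∀ i, S.π i (x (i + 1)) = x i}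

instance (S : Sys) : TopologicalSpace S.lim := inferInstanceAs (TopologicalSpace (Subtype _))
instance (S : Sys) : T2Space S.lim := inferInstanceAs (T2Space (Subtype _))

/-- projections -/
def Sys.p (S : Sys) (i : ℕ) : C(S.lim, S.G i) :=
  ⟨fun x => x.1 i, (continuous_apply i).comp continuous_subtype_val⟩

/-- composed bonding maps `G (i+k) → G i` -/
def Sys.tr (S : Sys) (i : ℕ) : ∀ k, C(S.G (i + k), S.G i)
  | 0 => ContinuousMap.id _
  | (k + 1) => (Sys.tr S i k).comp (S.π (i + k))

end Pool.QB
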