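import Pool.Agent.MP_c51823_gt.QB.TDef
import Pool.Agent.MP_c51823_gt.QB.L0

/-!
# [QB] The inverse limit of a tower; dipole representations
-/

set_option autoImplicit false
open Topology

namespace Pool.QB

variable {h : HT} {u : h.H 0 (absP S4)}

/-- The inverse limit of a sequence of levels. -/
def Lim (L : ℕ → Level h u) (sd : ∀ i, StepData i (L (i + 1)) (L i)) : Type :=
  {x : ∀ i, (L i).G // ∀ i, (sd i).π (x (i + 1)) = x i}

instance (L : ℕ → Level h u) (sd : ∀ i, StepData i (L (i + 1)) (L i)) :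
    TopologicalSpace (Lim L sd) := inferInstanceAs (TopologicalSpace (Subtype _))

instance (L : ℕ → Level h u) (sd : ∀ i, StepData i (L (i + 1)) (L i)) :
    T2Space (Lim L sd) := inferInstanceAs (T2Space (Subtype _))

/-- [QB-T2] -/
instance (L : ℕ → Level h u) (sd : ∀ i, StepData i (L (i + 1)) (L i)) :
    CompactSpace (Lim L sd) :=
  (⟨fun i => (L i).G, fun i => (sd i).π⟩ : Sys).compact

/-- the projections -/
def Lim.p {L : ℕ → Level h u} {sd : ∀ i, StepData i (L (i + 1)) (L i)} (i : ℕ) :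
    C(Lim L sd, (L i).G) :=
  ⟨fun x => x.1 i, (continuous_apply i).comp continuous_subtype_val⟩

/-- closeness at level `j` -/
def Lim.U {L : ℕ → Level h u} {sd : ∀ i, StepData i (L (i + 1)) (L i)} (j : ℕ) :
    Set (Lim L sd × Lim L sd) :=
  {q | j = 0 ∨ ∃ v, ((L j).κ (Lim.p j q.1)).1 v ≠ 0 ∧ ((L j).κ (Lim.p j q.2)).1 v ≠ 0}

/-- A representation of cost `< c` of the signed measure `μ` by dipoles. -/
def Rep {C : Type} (U : ℕ → Set (C × C)) (μ : C →₀ ℝ) (c : ℝ) : Prop :=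
  ∃ (n : ℕ) (a : Fin n → ℝ) (x y : Fin n → C) (j : Fin n → ℕ), (∀ e, (x e, y e) ∈ U (j e)) ∧
    μ = ∑ e, a e • (Finsupp.single (x e) (1 : ℝ) - Finsupp.single (y e) (1 : ℝ)) ∧
    ∑ e, Real.sqrt |a e| / 2 ^ (j e) < c

end Pool.QB
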