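import Pool.Agent.MP_c51823_gt.QB.E3
import Pool.Agent.MP_c51823_gt.QB.ESpace

/-!
# [QB-N0] `x = face i x'` for a boundary point `x`; `chi_face` (E3).
-/

set_option autoImplicit false
open Topology

namespace Pool.QB

/-- [QB-N0] a boundary point of `Δ^k` is mapped to the lower skeleton -/
theorem chi_mem_of_bd (N k : ℕ) (x : Dl k) (f : Fin k → CP (2 ^ (N - k) - 1)) (hx : x ∈ bdD k) :
    chi x f ∈ Es N k := by
  obtain ⟨i, hi⟩ := hx
  cases k with
  | zero =>
    exfalso
    have h1 : ∑ j, x.1 j = 1 := x.2.2
    rw [Fin.sum_univ_succ, Fin.sum_univ_zero, add_zero] at h1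
    have h2 : i = 0 := by
      apply Fin.ext
      have := i.isLt
      simp only [Fin.val_zero]
      omega
    rw [h2] at hi
    rw [hi] at h1
    exact zero_ne_one h1
  | succ k =>
    have hs : ∑ j, x.1 (i.succAbove j) = 1 := by
      have h1 : ∑ j, x.1 j = 1 := x.2.2
      rw [Fin.sum_univ_succAbove _ i, hi, zero_add] at h1
      exact h1
    set x' : Dl k := ⟨fun j => x.1 (i.succAbove j), fun j => x.2.1 _, hs⟩ with hx'
    have hxf : x = face i x' := by
      apply Subtype.ext
      funext j
      refine Fin.succAboveCases i ?_ (fun l => ?_) j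
      · simp [face, hi]
      · simp [face, hx']
    have hb : 2 * (2 ^ (N - (k + 1)) - 1) ≤ 2 ^ (N - k) - 1 := by
      rcases Nat.lt_or_ge k N with h | h
      · have e : N - k = (N - (k + 1)) + 1 := by omega
        rw [e, pow_succ]
        omega
      · have e1 : N - (k + 1) = 0 := by omega
        have e2 : N - k = 0 := by omega
        rw [e1, e2]
        simp
    refine ⟨k, Nat.lt_succ_self k, x', dW hb i f, ?_⟩
    rw [hxf]
    exact chi_face hb i x' f

end Pool.QB
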