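import Pool.Agent.MP_c51823_gt.QB.NDef

/-!
# [QB-N1] The operators `s`. Proof: QB_PROOF.md 4.4 (Algebra): defined by freeness over `Z`;
`L^{2^j} = 1` (F5) reduces arbitrary exponents; (s5): check on `L^i pr^* c`, `L^{2^J} = 1` on `CP^{2^J-1}`.
-/

set_option autoImplicit false
open Topology

namespace Pool.QB

namespace N1_aux

section
variable (h : HT) (q : ℕ)

/-- `L^i pr^* c` -/
noncomputable def mono (j : ℕ) (Z : Type) [TopologicalSpace Z] [CompactSpace Z] [T2Space Z] (i : ℕ) :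
    h.H q (absP Z) →+ h.H q (absP (Z × CP (2 ^ j - 1))) where
  toFun c := (h.L q (prSnd Z (CP (2 ^ j - 1))))^[i] (h.map q (absMap (prFst Z (CP (2 ^ j - 1)))) c)
  map_zero' := by
    rw [map_zero]; exact iterate_map_zero _ _
  map_add' x y := by
    rw [map_add]; exact iterate_map_add _ _ _ _

theorem mono_apply (j : ℕ) (Z : Type) [TopologicalSpace Z] [CompactSpace Z] [T2Space Z] (i : ℕ)
    (c : h.H q (absP Z)) : mono h q j Z i c =
      (h.L q (prSnd Z (CP (2 ^ j - 1))))^[i] (h.map q (absMap (prFst Z (CP (2 ^ j - 1)))) c) := rfl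

/-- The map `Φ`. -/
noncomputable def Phi (j : ℕ) (Z : Type) [TopologicalSpace Z] [CompactSpace Z] [T2Space Z] :
    (Fin (2 ^ j - 1 + 1) → h.H q (absP Z)) →+ h.H q (absP (Z × CP (2 ^ j - 1))) where
  toFun c := ∑ i : Fin (2 ^ j - 1 + 1), mono h q j Z i (c i)
  map_zero' := by simp
  map_add' x y := by
    simp only [Pi.add_apply, map_add, Finset.sum_add_distrib]

theorem Phi_bij (j : ℕ) (Z : Type) [TopologicalSpace Z] [CompactSpace Z] [T2Space Z] :
    Function.Bijective (Phi h q j Z) := h.L_free q Z (2 ^ j - 1)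

noncomputable def e (j : ℕ) (Z : Type) [TopologicalSpace Z] [CompactSpace Z] [T2Space Z] :
    (Fin (2 ^ j - 1 + 1) → h.H q (absP Z)) ≃+ h.H q (absP (Z × CP (2 ^ j - 1))) :=
  AddEquiv.ofBijective (Phi h q j Z) (Phi_bij h q j Z)

/-- Monomials generate. -/
theorem ext_mono (j : ℕ) (Z : Type) [TopologicalSpace Z] [CompactSpace Z] [T2Space Z]
    {G : Type} [AddCommGroup G] (f g : h.H q (absP (Z × CP (2 ^ j - 1))) →+ G)
    (hfg : ∀ (i : ℕ) (c : h.H q (absP Z)), f (mono h q j Z i c) = g (mono h q j Z i c)) : f = g := by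
  ext x
  obtain ⟨c, rfl⟩ := (Phi_bij h q j Z).2 x
  show f (∑ i : Fin (2 ^ j - 1 + 1), mono h q j Z i (c i)) =
    g (∑ i : Fin (2 ^ j - 1 + 1), mono h q j Z i (c i))
  rw [map_sum, map_sum]
  exact Finset.sum_congr rfl fun i _ => hfg _ _

theorem mono_mod (j : ℕ) (Z : Type) [TopologicalSpace Z] [CompactSpace Z] [T2Space Z] (i : ℕ)
    (c : h.H q (absP Z)) : mono h q j Z i c = mono h q j Z (i % 2 ^ j) c := by
  rw [mono_apply, mono_apply]
  conv_lhs => rw [← Nat.mod_add_div i (2 ^ j), Function.iterate_add_apply]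
  congr 1
  generalize h.map q (absMap (prFst Z (CP (2 ^ j - 1)))) c = y
  induction i / 2 ^ j generalizing y with
  | zero => simp
  | succ n ih =>
    rw [Nat.mul_succ, Function.iterate_add_apply, h.L_pow q, ih]

open Classical in
/-- the operator `s` -/
noncomputable def s (J j : ℕ) (Z : Type) [TopologicalSpace Z] [CompactSpace Z] [T2Space Z] :
    h.H q (absP (Z × CP (2 ^ j - 1))) →+ h.H q (absP Z) where
  toFun x := ∑ i : Fin (2 ^ j - 1 + 1), if 2 ^ J ∣ (i : ℕ) then (e h q j Z).symm x i else 0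
  map_zero' := by simp
  map_add' x y := by
    rw [← Finset.sum_add_distrib]
    refine Finset.sum_congr rfl fun i _ => ?_
    split_ifs
    · rw [map_add]; rfl
    · simp

open Classical in
theorem s_mono (J j : ℕ) (hj : J ≤ j) (Z : Type) [TopologicalSpace Z] [CompactSpace Z] [T2Space Z]
    (i : ℕ) (c : h.H q (absP Z)) :
    s h q J j Z (mono h q j Z i c) = if 2 ^ J ∣ i then c else 0 := by
  rw [mono_mod]
  have hlt : i % 2 ^ j < 2 ^ j - 1 + 1 := by
    have := Nat.mod_lt i (show 0 < 2 ^ j by positivity)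
    omega
  have h1 : mono h q j Z (i % 2 ^ j) c = e h q j Z (Pi.single ⟨i % 2 ^ j, hlt⟩ c) := by
    show _ = ∑ k : Fin (2 ^ j - 1 + 1), mono h q j Z k
      ((Pi.single (⟨i % 2 ^ j, hlt⟩ : Fin (2 ^ j - 1 + 1)) c :
        Fin (2 ^ j - 1 + 1) → h.H q (absP Z)) k)
    rw [Finset.sum_eq_single (⟨i % 2 ^ j, hlt⟩ : Fin (2 ^ j - 1 + 1))]
    · simp
    · intro b _ hb
      rw [Pi.single_eq_of_ne hb, map_zero]
    · intro hn
      exact absurd (Finset.mem_univ _) hn
  have h2 : s h q J j Z (mono h q j Z (i % 2 ^ j) c) = ∑ k : Fin (2 ^ j - 1 + 1),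
      if 2 ^ J ∣ (k : ℕ) then (Pi.single (⟨i % 2 ^ j, hlt⟩ : Fin (2 ^ j - 1 + 1)) c :
        Fin (2 ^ j - 1 + 1) → h.H q (absP Z)) k else 0 := by
    show ∑ k : Fin (2 ^ j - 1 + 1), (if 2 ^ J ∣ (k : ℕ) then
      (e h q j Z).symm (mono h q j Z (i % 2 ^ j) c) k else 0) = _
    rw [h1, AddEquiv.symm_apply_apply]
  rw [h2, Finset.sum_eq_single (⟨i % 2 ^ j, hlt⟩ : Fin (2 ^ j - 1 + 1))]
  · have : 2 ^ J ∣ i % 2 ^ j ↔ 2 ^ J ∣ i := Nat.dvd_mod_iff (pow_dvd_pow 2 hj)
    simp only [Pi.single_eq_same, this]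
  · intro b _ hb
    rw [Pi.single_eq_of_ne hb]
    simp
  · intro hn
    exact absurd (Finset.mem_univ _) hn

/-- iterated naturality of `L` -/
theorem L_nat_iter {X Y : Type} [TopologicalSpace X] [CompactSpace X] [T2Space X]
    [TopologicalSpace Y] [CompactSpace Y] [T2Space Y] {a : ℕ} (f : C(X, Y)) (g : C(Y, CP a))
    (i : ℕ) (x : h.H q (absP Y)) :
    h.map q (absMap f) ((h.L q g)^[i] x) = (h.L q (g.comp f))^[i] (h.map q (absMap f) x) := by
  induction i generalizing x with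
  | zero => rfl
  | succ n ih => rw [Function.iterate_succ_apply, ih, h.L_nat, Function.iterate_succ_apply]

theorem map_map {X Y Z : Type} [TopologicalSpace X] [CompactSpace X] [T2Space X]
    [TopologicalSpace Y] [CompactSpace Y] [T2Space Y] [TopologicalSpace Z] [CompactSpace Z]
    [T2Space Z] (f : C(X, Y)) (g : C(Y, Z)) (x : h.H q (absP Z)) :
    h.map q (absMap f) (h.map q (absMap g) x) = h.map q (absMap (g.comp f)) x :=
  (h.map_comp q (absMap g) (absMap f) x).symm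

theorem map_prodId (j : ℕ) (Z Z' : Type) [TopologicalSpace Z] [CompactSpace Z] [T2Space Z]
    [TopologicalSpace Z'] [CompactSpace Z'] [T2Space Z'] (g : C(Z', Z)) (i : ℕ)
    (c : h.H q (absP Z)) :
    h.map q (absMap (prodId g _)) (mono h q j Z i c) =
      mono h q j Z' i (h.map q (absMap g) c) := by
  rw [mono_apply, mono_apply, L_nat_iter, map_map, map_map]
  rfl

theorem map_idProd (j j' : ℕ) (hb : 2 ^ j' - 1 ≤ 2 ^ j - 1) (Z : Type)
    [TopologicalSpace Z] [CompactSpace Z] [T2Space Z] (i : ℕ) (c : h.H q (absP Z)) :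
    h.map q (absMap (idProd Z (inclCP hb))) (mono h q j Z i c) = mono h q j' Z i c := by
  rw [mono_apply, mono_apply, L_nat_iter, map_map]
  rw [h.L_incl q hb (prSnd Z (CP (2 ^ j' - 1)))
    ((prSnd Z (CP (2 ^ j - 1))).comp (idProd Z (inclCP hb))) (fun x => rfl)]
  rfl

theorem map_mulMap (J j : ℕ) (hb : 2 * (2 ^ J - 1) ≤ 2 ^ j - 1) (Z : Type) [TopologicalSpace Z]
    [CompactSpace Z] [T2Space Z] (i : ℕ) (c : h.H q (absP Z)) :
    h.map q (absMap (mulMap Z hb)) (mono h q j Z i c) =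
      mono h q J (Z × CP (2 ^ J - 1)) i (mono h q J Z i c) := by
  rw [mono_apply, mono_apply, mono_apply, L_nat_iter, map_map, L_nat_iter, map_map]
  have hfst : (prFst Z (CP (2 ^ j - 1))).comp (mulMap Z hb) =
      (prFst Z (CP (2 ^ J - 1))).comp (prFst (Z × CP (2 ^ J - 1)) (CP (2 ^ J - 1))) := rfl
  rw [hfst]
  generalize h.map q (absMap ((prFst Z (CP (2 ^ J - 1))).comp
    (prFst (Z × CP (2 ^ J - 1)) (CP (2 ^ J - 1))))) c = y
  set g1 : C((Z × CP (2 ^ J - 1)) × CP (2 ^ J - 1), CP (2 ^ J - 1)) :=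
    (prSnd Z (CP (2 ^ J - 1))).comp (prFst (Z × CP (2 ^ J - 1)) (CP (2 ^ J - 1))) with hg1
  set g2 : C((Z × CP (2 ^ J - 1)) × CP (2 ^ J - 1), CP (2 ^ J - 1)) :=
    prSnd (Z × CP (2 ^ J - 1)) (CP (2 ^ J - 1)) with hg2
  have hL : ∀ y, h.L q ((prSnd Z (CP (2 ^ j - 1))).comp (mulMap Z hb)) y =
      h.L q g2 (h.L q g1 y) := by
    intro y
    rw [h.L_incl q (show (2 ^ J - 1) + (2 ^ J - 1) ≤ 2 ^ j - 1 by omega)
      ((mu (2 ^ J - 1) (2 ^ J - 1)).comp (g1.prodMk g2)) _ (fun x => rfl), h.L_mul, h.L_comm q]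
  have hcomm : Function.Commute (h.L q g2) (h.L q g1) := fun y => h.L_comm q g2 g1 y
  have hfun : (⇑(h.L q ((prSnd Z (CP (2 ^ j - 1))).comp (mulMap Z hb)))) =
      (⇑(h.L q g2)) ∘ (⇑(h.L q g1)) := funext hL
  rw [hfun, hcomm.comp_iterate]
  rfl

end

end N1_aux

open N1_aux in
/-- [QB-N1] The operators `s` (integration over the first variable): for `j ≥ J`,
`s : H q (Z × CP^{2^j-1}) → H q Z`, `s (∑ L^i pr^* c_i) = ∑ [2^J | i] c_i`. -/
theorem HT.exists_s (h : HT) (q J : ℕ) :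
    ∃ s : ∀ (j : ℕ) (_ : J ≤ j) (Z : Type) [TopologicalSpace Z] [CompactSpace Z] [T2Space Z],
        h.H q (absP (Z × CP (2 ^ j - 1))) →+ h.H q (absP Z),
      -- (s2) values on monomials, all exponents
      (∀ (j : ℕ) (hj : J ≤ j) (Z : Type) [TopologicalSpace Z] [CompactSpace Z] [T2Space Z] (i : ℕ)
        (c : h.H q (absP Z)), s j hj Z ((h.L q (prSnd Z (CP (2 ^ j - 1))))^[i]
          (h.map q (absMap (prFst Z (CP (2 ^ j - 1)))) c)) = if 2 ^ J ∣ i then c else 0) ∧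
      -- (s1) naturality in `Z`
      (∀ (j : ℕ) (hj : J ≤ j) (Z Z' : Type) [TopologicalSpace Z] [CompactSpace Z] [T2Space Z]
        [TopologicalSpace Z'] [CompactSpace Z'] [T2Space Z'] (g : C(Z', Z))
        (x : h.H q (absP (Z × CP (2 ^ j - 1)))),
        s j hj Z' (h.map q (absMap (prodId g _)) x) = h.map q (absMap g) (s j hj Z x)) ∧
      -- (s6) restriction to a smaller projective space
      (∀ (j j' : ℕ) (hj : J ≤ j) (hj' : J ≤ j') (hb : 2 ^ j' - 1 ≤ 2 ^ j - 1) (Z : Type)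
        [TopologicalSpace Z] [CompactSpace Z] [T2Space Z]
        (x : h.H q (absP (Z × CP (2 ^ j - 1)))),
        s j' hj' Z (h.map q (absMap (idProd Z (inclCP hb))) x) = s j hj Z x) ∧
      -- (s5) invariance
      (∀ (j : ℕ) (hj : J ≤ j) (hb : 2 * (2 ^ J - 1) ≤ 2 ^ j - 1) (Z : Type) [TopologicalSpace Z]
        [CompactSpace Z] [T2Space Z] (x : h.H q (absP (Z × CP (2 ^ j - 1)))),
        s J le_rfl (Z × CP (2 ^ J - 1)) (h.map q (absMap (mulMap Z hb)) x) =
          h.map q (absMap (prFst Z (CP (2 ^ J - 1)))) (s j hj Z x)) := by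
  refine ⟨fun j _ Z _ _ _ => s h q J j Z, ?_, ?_, ?_, ?_⟩
  · intro j hj Z _ _ _ i c
    have := s_mono h q J j hj Z i c
    rw [mono_apply] at this
    rw [this]
  · intro j hj Z Z' _ _ _ _ _ _ g x
    refine DFunLike.congr_fun (ext_mono h q j Z ((s h q J j Z').comp (h.map q (absMap (prodId g _))))
      ((h.map q (absMap g)).comp (s h q J j Z)) fun i c => ?_) x
    rw [AddMonoidHom.comp_apply, AddMonoidHom.comp_apply, map_prodId, s_mono h q J j hj,
      s_mono h q J j hj]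
    split_ifs
    · rfl
    · rw [map_zero]
  · intro j j' hj hj' hb Z _ _ _ x
    refine DFunLike.congr_fun (ext_mono h q j Z ((s h q J j' Z).comp
      (h.map q (absMap (idProd Z (inclCP hb))))) (s h q J j Z) fun i c => ?_) x
    rw [AddMonoidHom.comp_apply, map_idProd, s_mono h q J j hj, s_mono h q J j' hj']
  · intro j hj hb Z _ _ _ x
    refine DFunLike.congr_fun (ext_mono h q j Z ((s h q J J (Z × CP (2 ^ J - 1))).comp
      (h.map q (absMap (mulMap Z hb)))) ((h.map q (absMap (prFst Z (CP (2 ^ J - 1))))).comp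
      (s h q J j Z)) fun i c => ?_) x
    rw [AddMonoidHom.comp_apply, AddMonoidHom.comp_apply, map_mulMap, s_mono h q J J le_rfl,
      s_mono h q J j hj]
    split_ifs with hi
    · rw [mono_mod, Nat.mod_eq_zero_of_dvd hi, mono_apply]
      rfl
    · rw [map_zero]

end Pool.QB
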