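import Pool.Agent.MP_c51823_gt.QB.N1

/-!
# [QB-N2] The CLAIM of QB_PROOF.md 4.4. Take `G = s F` (first variable). `s((d^0)^*F) = F|`,
`s((d^1)^*F) = (d^0)^*(sF)` by (s5), `s((d^{i+1})^*F) = (d^i)^*(sF)` by naturality (s1).
-/

set_option autoImplicit false
set_option synthInstance.maxSize 4096
open Topology

namespace Pool.QB

theorem mulCP_comm {b b' : ℕ} (hb : 2 * b' ≤ b) (x y : CP b') :
    mulCP hb (x, y) = mulCP hb (y, x) := by
  obtain ⟨x, p, hp, hpd, rfl⟩ := x
  obtain ⟨y, q, hq, hqd, rfl⟩ := y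
  apply Subtype.ext
  change (mu b' b' (⟨line p, _⟩, ⟨line q, _⟩)).1 = (mu b' b' (⟨line q, _⟩, ⟨line p, _⟩)).1
  rw [mu_line p q hp hq hpd hqd, mu_line q p hq hp hqd hpd, mul_comm]

theorem absMap_congr {X Y : Type} [TopologicalSpace X] [CompactSpace X] [T2Space X]
    [TopologicalSpace Y] [CompactSpace Y] [T2Space Y] {f g : C(X, Y)} (hfg : ∀ x, f x = g x) :
    absMap f = absMap g := by
  rw [ContinuousMap.ext hfg]

/-- splitting off the first variable -/
def consMap (Z : Type) [TopologicalSpace Z] (k b : ℕ) :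
    C((Z × (Fin k → CP b)) × CP b, Z × (Fin (k + 1) → CP b)) :=
  ⟨fun p => (p.1.1, Fin.cons p.2 p.1.2), by
    refine (continuous_fst.comp continuous_fst).prodMk (continuous_pi fun j => ?_)
    refine Fin.cases ?_ (fun j => ?_) j
    · exact continuous_snd
    · exact (continuous_apply j).comp (continuous_snd.comp continuous_fst)⟩

/-- `(z, f) ↦ ((z, (f_1, …)), f_0)` with the `f_j`, `j ≥ 1`, in the larger space -/
def unconsMap (Z : Type) [TopologicalSpace Z] (k : ℕ) {b b' : ℕ} (hb : b' ≤ b) :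
    C(Z × (Fin (k + 1) → CP b'), (Z × (Fin k → CP b)) × CP b') :=
  ⟨fun p => ((p.1, fun j => ⟨(p.2 j.succ).1, CP_mono hb (p.2 j.succ).2⟩), p.2 0), by
    refine (continuous_fst.prodMk (continuous_pi fun j => ?_)).prodMk
      ((continuous_apply 0).comp continuous_snd)
    exact Continuous.subtype_mk (continuous_subtype_val.comp
      ((continuous_apply j.succ).comp continuous_snd)) _⟩

/-- [QB-N2] Exactness of the truncated cobar complex (the CLAIM of 4.4). -/
theorem HT.cobar_exact (h : HT) (r J m b b' : ℕ) (hb : b = 2 ^ (J + 1) - 1) (hb' : b' = 2 ^ J - 1)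
    (h2 : 2 * b' ≤ b) (h1 : b' ≤ b) (Z : Type) [TopologicalSpace Z] [CompactSpace Z] [T2Space Z]
    (F : h.H r (absP (Z × (Fin (m + 1) → CP b))))
    (hF : ∑ i : Fin (m + 3), h.map r (absMap (idProd Z (dW (k := m + 1) h2 i))) F = 0) :
    ∃ G : h.H r (absP (Z × (Fin m → CP b))),
      h.map r (absMap (idProd Z (inclW (k := m + 1) h1))) F =
        ∑ i : Fin (m + 2), h.map r (absMap (idProd Z (dW (k := m) h2 i))) G := by
  subst hb hb'
  obtain ⟨s, s2, s1, s6, s5⟩ := h.exists_s r J
  set x := h.map r (absMap (consMap Z m (2 ^ (J + 1) - 1))) F with hx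
  have hcomp : ∀ {X Y W : Type} [TopologicalSpace X] [CompactSpace X] [T2Space X]
      [TopologicalSpace Y] [CompactSpace Y] [T2Space Y] [TopologicalSpace W] [CompactSpace W]
      [T2Space W] (g : C(Y, W)) (f : C(X, Y)) (y : h.H r (absP W)),
      h.map r (absMap f) (h.map r (absMap g) y) = h.map r (absMap (g.comp f)) y := by
    intro X Y W _ _ _ _ _ _ _ _ _ g f y
    exact (h.map_comp r (absMap g) (absMap f) y).symm
  refine ⟨s (J + 1) (Nat.le_succ J) _ x, ?_⟩
  set G := s (J + 1) (Nat.le_succ J) _ x with hG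
  -- the terms
  have hneg : ∀ y : h.H r (absP (Z × (Fin (m + 1) → CP (2 ^ J - 1)))), -y = y := by
    intro y
    rw [neg_eq_iff_add_eq_zero]
    exact h.two r _ y
  have t0 : s J le_rfl _ (h.map r (absMap (consMap Z (m + 1) (2 ^ J - 1)))
      (h.map r (absMap (idProd Z (dW (k := m + 1) h2 0))) F)) =
      h.map r (absMap (idProd Z (inclW (k := m + 1) h1))) F := by
    have e1 : h.map r (absMap (consMap Z (m + 1) (2 ^ J - 1)))
        (h.map r (absMap (idProd Z (dW (k := m + 1) h2 0))) F) =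
        h.map r (absMap (prFst (Z × (Fin (m + 1) → CP (2 ^ J - 1))) (CP (2 ^ J - 1))))
          (h.map r (absMap (idProd Z (inclW (k := m + 1) h1))) F) := by
      rw [hcomp, hcomp]
      congr 2
    rw [e1]
    have e2 := s2 J le_rfl (Z × (Fin (m + 1) → CP (2 ^ J - 1))) 0
      (h.map r (absMap (idProd Z (inclW (k := m + 1) h1))) F)
    rw [if_pos (dvd_zero _), Function.iterate_zero, id_eq] at e2
    exact e2
  have t1 : s J le_rfl _ (h.map r (absMap (consMap Z (m + 1) (2 ^ J - 1)))
      (h.map r (absMap (idProd Z (dW (k := m + 1) h2 1))) F)) =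
      h.map r (absMap (idProd Z (dW (k := m) h2 0))) G := by
    have e1 : h.map r (absMap (consMap Z (m + 1) (2 ^ J - 1)))
        (h.map r (absMap (idProd Z (dW (k := m + 1) h2 1))) F) =
        h.map r (absMap (prodId (unconsMap Z m h1) (CP (2 ^ J - 1))))
          (h.map r (absMap (mulMap (Z × (Fin m → CP (2 ^ (J + 1) - 1))) h2)) x) := by
      rw [hx, hcomp, hcomp, hcomp]
      refine congrArg (fun g => h.map r g F) (absMap_congr ?_)
      rintro ⟨⟨z, f⟩, c⟩
      refine Prod.ext rfl (funext fun j => ?_)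
      refine Fin.cases ?_ (fun j => ?_) j
      · exact mulCP_comm h2 c (f 0)
      · rfl
    rw [e1, s1, s5, hcomp]
    rfl
  have t2 : ∀ i : Fin (m + 1), s J le_rfl _ (h.map r (absMap (consMap Z (m + 1) (2 ^ J - 1)))
      (h.map r (absMap (idProd Z (dW (k := m + 1) h2 i.succ.succ))) F)) =
      h.map r (absMap (idProd Z (dW (k := m) h2 i.succ))) G := by
    intro i
    have e1 : h.map r (absMap (consMap Z (m + 1) (2 ^ J - 1)))
        (h.map r (absMap (idProd Z (dW (k := m + 1) h2 i.succ.succ))) F) =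
        h.map r (absMap (prodId (idProd Z (dW (k := m) h2 i.succ)) (CP (2 ^ J - 1))))
          (h.map r (absMap (idProd (Z × (Fin m → CP (2 ^ (J + 1) - 1))) (inclCP h1))) x) := by
      rw [hx, hcomp, hcomp, hcomp]
      refine congrArg (fun g => h.map r g F) (absMap_congr ?_)
      rintro ⟨⟨z, f⟩, c⟩
      refine Prod.ext rfl (funext fun j => ?_)
      refine Fin.cases ?_ (fun j => ?_) j
      · rfl
      · change (if ((j.succ : Fin (m + 1)) : ℕ) + 1 < ((i.succ.succ : Fin (m + 3)) : ℕ) then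
            (⟨((Fin.cons c f : Fin (m + 2) → CP (2 ^ J - 1)) j.succ.castSucc).1,
              CP_mono (by omega) ((Fin.cons c f : Fin (m + 2) → CP (2 ^ J - 1))
                j.succ.castSucc).2⟩ : CP (2 ^ (J + 1) - 1))
          else if ((j.succ : Fin (m + 1)) : ℕ) + 1 = ((i.succ.succ : Fin (m + 3)) : ℕ) then
            mulCP h2 ((Fin.cons c f : Fin (m + 2) → CP (2 ^ J - 1)) j.succ.castSucc,
              (Fin.cons c f : Fin (m + 2) → CP (2 ^ J - 1)) j.succ.succ)
          else (⟨((Fin.cons c f : Fin (m + 2) → CP (2 ^ J - 1)) j.succ.succ).1,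
            CP_mono (by omega) ((Fin.cons c f : Fin (m + 2) → CP (2 ^ J - 1))
              j.succ.succ).2⟩ : CP (2 ^ (J + 1) - 1))) =
          (if (j : ℕ) + 1 < ((i.succ : Fin (m + 2)) : ℕ) then
            (⟨(f j.castSucc).1, CP_mono (by omega) (f j.castSucc).2⟩ : CP (2 ^ (J + 1) - 1))
          else if (j : ℕ) + 1 = ((i.succ : Fin (m + 2)) : ℕ) then
            mulCP h2 (f j.castSucc, f j.succ)
          else (⟨(f j.succ).1, CP_mono (by omega) (f j.succ).2⟩ : CP (2 ^ (J + 1) - 1)))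
        simp only [Fin.val_succ, Fin.cons_succ, add_lt_add_iff_right, add_left_inj,
          ← Fin.succ_castSucc]
    rw [e1, s1, s6]
  have h0 := congrArg (fun y => s J le_rfl _ (h.map r (absMap (consMap Z (m + 1) (2 ^ J - 1))) y)) hF
  simp only [map_sum, map_zero] at h0
  rw [Fin.sum_univ_succ, Fin.sum_univ_succ, t0] at h0
  have h3 : (Fin.succ 0 : Fin (m + 3)) = 1 := rfl
  rw [h3, t1] at h0
  simp only [t2] at h0
  rw [Fin.sum_univ_succ, ← hneg (h.map r (absMap (idProd Z (inclW (k := m + 1) h1))) F)]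
  exact (neg_eq_of_add_eq_zero_right h0)

end Pool.QB
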