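import Pool.Agent.MP_c51823_gt.QB.SusDef
import Pool.Agent.MP_c51823_gt.QB.E4

/-!
# [QB-N3a] Excision; E4 (injectivity). `CompactSpace`/`T2` are automatic.
-/

set_option autoImplicit false
open Topology

namespace Pool.QB

/-- [QB-N3a] `cmE` and `toBA` are relative homeomorphisms. -/
theorem HT.cmE_bij (h : HT) (q : ℕ) (Z : Type) [TopologicalSpace Z] [CompactSpace Z] [T2Space Z]
    (N k : ℕ) : Function.Bijective (h.map q (cmE Z N k)) := by
  have key : ∀ p : (Z × (Fin k → CP (2 ^ (N - k) - 1))) × Dl k,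
      chi p.2 p.1.2 ∈ Es N k → p.2 ∈ bdD k := by
    intro p hp
    by_contra hx
    obtain ⟨l, hl, y, g, hg⟩ := hp
    exact chi_ne hl p.2 y p.1.2 g hx hg
  apply h.excision q (cmE Z N k)
  · exact fun p hp => key p hp
  · refine ⟨?_, ?_, ?_⟩
    · intro p hp hq
      exact hp (key p hq)
    · intro p hp p' hp' heq
      have h1 : p.1.1 = p'.1.1 := congrArg (fun u : Z × Es N (k + 1) => u.1) heq
      have h2 : chi p.2 p.1.2 = chi p'.2 p'.1.2 :=
        congrArg (fun u : Z × Es N (k + 1) => u.2.1) heq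
      obtain ⟨h3, h4⟩ := chi_inj p.2 p'.2 p.1.2 p'.1.2 hp hp' h2
      exact Prod.ext (Prod.ext h1 h4) h3
    · rintro ⟨z, e, l, hl, x, f, rfl⟩ he
      have hlk : l = k := by
        by_contra hne
        exact he ⟨l, by omega, x, f, rfl⟩
      subst hlk
      refine ⟨((z, f), x), ?_, rfl⟩
      intro hx
      exact he (chi_mem_of_bd N l x f hx)

theorem HT.toBA_bij (h : HT) (q : ℕ) (Z : Type) [TopologicalSpace Z] [CompactSpace Z] [T2Space Z]
    (N k : ℕ) : Function.Bijective (h.map q (toBA Z N k)) := by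
  apply h.excision q (toBA Z N k)
  · exact fun p hp => hp
  · refine ⟨?_, ?_, ?_⟩
    · intro p hp hq
      exact hp hq
    · intro p hp p' hp' heq
      have h0 := congrArg Subtype.val heq
      have h1 : p.1 = p'.1 := congrArg (fun u : Z × Es N (k + 2) => u.1) h0
      have h2 : p.2.1 = p'.2.1 := congrArg (fun u : Z × Es N (k + 2) => u.2.1) h0
      exact Prod.ext h1 (Subtype.ext h2)
    · rintro ⟨⟨z, e, he2⟩, he1⟩ he
      exact ⟨(z, ⟨e, he1⟩), fun hh => he hh, rfl⟩

end Pool.QB
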