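import Pool.Agent.MP_c51823_gt.QB.SusDef
import Pool.Agent.MP_c51823_gt.QB.E3

/-!
# [QB-N3b] `sus_face` for `T = tripE Z N k`, `χ ((z,f),x) = (z, chi x f)`; `faceRestr χ i = toBA ∘ cmE ∘ (dW i × id)` by
E3 (`chi_face`), naturality `sus_nat`.
-/

set_option autoImplicit false
open Topology

namespace Pool.QB

theorem n3b_ext {P Q : CPair} (a b : CPair.Map P Q) (h : ∀ x, a.f x = b.f x) : a = b := by
  obtain ⟨f, hf⟩ := a
  obtain ⟨g, hg⟩ := b
  have : f = g := ContinuousMap.ext h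
  subst this
  rfl

/-- a point of the `i`-th facet comes from the `i`-th face map -/
theorem n3b_face {k : ℕ} (x : Dl (k + 1)) (i : Fin (k + 2)) (hi : x.1 i = 0) :
    ∃ x' : Dl k, face i x' = x ∧ ∀ j, x'.1 j = x.1 (i.succAbove j) := by
  refine ⟨⟨fun j => x.1 (i.succAbove j), fun j => x.2.1 _, ?_⟩, ?_, fun j => rfl⟩
  · have h1 : ∑ j, x.1 j = 1 := x.2.2
    rw [Fin.sum_univ_succAbove _ i, hi, zero_add] at h1
    exact h1
  · refine Subtype.ext (funext fun l => ?_)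
    change i.insertNth (α := fun _ => ℝ) (0 : ℝ) (fun j => x.1 (i.succAbove j)) l = x.1 l
    refine Fin.succAboveCases i ?_ (fun j => ?_) l
    · rw [Fin.insertNth_apply_same, hi]
    · rw [Fin.insertNth_apply_succAbove]

/-- [QB-N3b] The face formula for the spaces `Es N k`. -/
theorem HT.cmE_face (h : HT) (q m : ℕ) (Z : Type) [TopologicalSpace Z] [CompactSpace Z]
    [T2Space Z] (N k : ℕ) (h1 : m = q + (k + 1)) (h2 : m = (q + 1) + k)
    (hb : 2 * (2 ^ (N - (k + 1)) - 1) ≤ 2 ^ (N - k) - 1) (e : h.H (q + 1) (tripE Z N k).BA) :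
    (h.sus q (k + 1) m h1 _).symm (h.map q (cmE Z N (k + 1)) (h.δ q (tripE Z N k) e)) =
      ∑ i : Fin (k + 2), h.map m (absMap (idProd Z (dW (k := k) hb i)))
        ((h.sus (q + 1) k m h2 _).symm
          (h.map (q + 1) (cmE Z N k) (h.map (q + 1) (toBA Z N k) e))) := by
  have hB : ∀ (y : Z × (Fin (k + 1) → CP (2 ^ (N - (k + 1)) - 1))) (x : Dl (k + 1)),
      (∃ i, x.1 i = 0) → (cmE Z N (k + 1)).f (y, x) ∈ (tripE Z N k).B := fun y x hx =>
    (cmE Z N (k + 1)).maps (y, x) hx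
  have hA : ∀ (y : Z × (Fin (k + 1) → CP (2 ^ (N - (k + 1)) - 1))) (x : Dl (k + 1)),
      (∃ i j, i ≠ j ∧ x.1 i = 0 ∧ x.1 j = 0) →
        (cmE Z N (k + 1)).f (y, x) ∈ (tripE Z N k).A := by
    rintro ⟨z, f⟩ x ⟨i, j, hij, hi, hj⟩
    obtain ⟨x', hx', hx''⟩ := n3b_face x i hi
    obtain ⟨j', rfl⟩ := Fin.exists_succAbove_eq hij.symm
    change chi x f ∈ Es N k
    rw [← hx', chi_face hb i x' f]
    refine chi_mem_of_bd N k x' _ ⟨j', ?_⟩
    rw [hx'', hj]
  have key := h.sus_face q k m h1 h2 (Z × (Fin (k + 1) → CP (2 ^ (N - (k + 1)) - 1)))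
    (tripE Z N k) (cmE Z N (k + 1)).f hB hA e
  refine Eq.trans key (Finset.sum_congr rfl fun i _ => ?_)
  rw [AddEquiv.symm_apply_eq, ← h.sus_nat (q + 1) k m h2, AddEquiv.apply_symm_apply,
    ← h.map_comp, ← h.map_comp]
  have hmap : faceRestr (cmE Z N (k + 1)).f hB hA i =
      (toBA Z N k).comp ((cmE Z N k).comp (SPmap (idProd Z (dW (k := k) hb i)) k)) := by
    refine n3b_ext _ _ ?_
    rintro ⟨⟨z, f⟩, x⟩
    refine Subtype.ext (Prod.ext rfl (Subtype.ext ?_))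
    exact chi_face hb i x f
  rw [hmap]

end Pool.QB
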