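import Pool.Agent.MP_c51823_gt.QB.N3a
import Pool.Agent.MP_c51823_gt.QB.N3b

/-!
# [QB-N3c] Exactness for `(Z × Es M (n+1), Z × Es M n, ∅)` gives `e`; naturality of `δ` for the map of triples
`(Y₂, B, ∅) → (Y₂, B, A)`, `Y₂ = Z × Es M (n+2)`, `B`, `A` its skeleta: `δ(e) = δ(y|B) = 0` (transport `e` to `BA` by `toBA_bij`); N3b.
-/

set_option autoImplicit false
open Topology

namespace Pool.QB

/-- the absolute restriction `H q (pE Z N k) → H q (Z × Es N (k+1))` -/
def pEabs (Z : Type) [TopologicalSpace Z] [CompactSpace Z] [T2Space Z] (N k : ℕ) :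
    CPair.Map (absP (Z × Es N (k + 1))) (pE Z N k) :=
  ⟨ContinuousMap.id _, fun _ hx => hx.elim⟩

namespace N3c_aux

/-- the triple `(Z × Es M (k+1), Z × Es M k, ∅)` -/
def tE (Z : Type) [TopologicalSpace Z] [CompactSpace Z] [T2Space Z] (M k l : ℕ) : CTriple :=
  ⟨Z × Es M l, {p | p.2.1 ∈ Es M k}, ∅, (isClosed_Es M k l).preimage continuous_snd,
    isClosed_empty, Set.empty_subset _⟩

/-- `B ≅ Z × Es M k` -/
def tEθ (Z : Type) [TopologicalSpace Z] [CompactSpace Z] [T2Space Z] (M k l : ℕ) :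
    CPair.Map (tE Z M k l).BA (absP (Z × Es M k)) :=
  ⟨⟨fun p : {p : Z × Es M l | p.2.1 ∈ Es M k} => (p.1.1, (⟨p.1.2.1, p.2⟩ : Es M k)), by
      exact (by fun_prop : Continuous fun p : {p : Z × Es M l | p.2.1 ∈ Es M k} => p.1.1).prodMk
        (Continuous.subtype_mk (by fun_prop) _)⟩,
    fun _ hx => hx.elim⟩

/-- `(Y₂, B, ∅) → (Y₂, B, A)` -/
def tEm (Z : Type) [TopologicalSpace Z] [CompactSpace Z] [T2Space Z] (M k : ℕ) :
    CTriple.Map (tE Z M (k + 1) (k + 2)) (tripE Z M k) :=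
  ⟨ContinuousMap.id _, fun _ hx => hx, fun _ hx => hx.elim⟩

end N3c_aux

open N3c_aux

/-- [QB-N3c] A class on `Z × Es M (n+2)` vanishing on `Z × Es M n` comes over `Z × Es M (n+1)` from a
relative class whose cobar differential vanishes. -/
theorem HT.null_lift (h : HT) (q m : ℕ) (Z : Type) [TopologicalSpace Z] [CompactSpace Z]
    [T2Space Z] (M n : ℕ) (hm : m = (q + 1) + n)
    (hb : 2 * (2 ^ (M - (n + 1)) - 1) ≤ 2 ^ (M - n) - 1)
    (y : h.H (q + 1) (absP (Z × Es M (n + 2))))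
    (hy : h.map (q + 1) (absMap (idProd Z (inclE (le_refl M) (show n ≤ n + 2 by omega)))) y = 0) :
    ∃ e : h.H (q + 1) (pE Z M n),
      h.map (q + 1) (pEabs Z M n) e =
        h.map (q + 1) (absMap (idProd Z (inclE (le_refl M) (show n + 1 ≤ n + 2 by omega)))) y ∧
      ∑ i : Fin (n + 2), h.map m (absMap (idProd Z (dW (k := n) hb i)))
        ((h.sus (q + 1) n m hm _).symm (h.map (q + 1) (cmE Z M n) e)) = 0 := by
  set y1 := h.map (q + 1) (absMap (idProd Z (inclE (le_refl M)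
    (show n + 1 ≤ n + 2 by omega)))) y with hy1
  have h1 : h.map (q + 1) (tE Z M n (n + 1)).i y1 = 0 := by
    have h2 : h.map (q + 1) (tE Z M n (n + 1)).i y1 = h.map (q + 1) (tEθ Z M n (n + 1))
        (h.map (q + 1) (absMap (idProd Z (inclE (le_refl M)
          (show n ≤ n + 2 by omega)))) y) := by
      rw [← h.map_comp]
      exact (h.map_comp (q + 1) (absMap (idProd Z (inclE (le_refl M)
        (show n + 1 ≤ n + 2 by omega)))) (tE Z M n (n + 1)).i y).symm
    rw [h2, hy, map_zero]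
  obtain ⟨e, he⟩ := (h.exact_xa (q + 1) (tE Z M n (n + 1)) y1).1 h1
  have he' : h.map (q + 1) (pEabs Z M n) e = y1 := he
  refine ⟨e, he', ?_⟩
  obtain ⟨e', hee⟩ := (h.toBA_bij (q + 1) Z M n).2 e
  have h3 : h.δ q (tripE Z M n) e' = 0 := by
    have h4 : h.map q (tEm Z M n).xb (h.δ q (tripE Z M n) e') = h.δ q (tripE Z M n) e' :=
      h.map_id q (tripE Z M n).XB _
    rw [← h4, h.δ_nat]
    have h5 : (tEm Z M n).ba =
        ((toBA Z M n).comp (pEabs Z M n)).comp (tEθ Z M (n + 1) (n + 2)) := rfl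
    have h6 : h.map (q + 1) (tEm Z M n).ba e' =
        h.map (q + 1) (tE Z M (n + 1) (n + 2)).i y := by
      rw [h5, h.map_comp, h.map_comp, hee, he', hy1, ← h.map_comp]
      rfl
    rw [h6]
    exact (h.exact_ba q (tE Z M (n + 1) (n + 2)) _).2 ⟨y, rfl⟩
  have h7 := h.cmE_face q m Z M n (by omega) hm hb e'
  have h8 : h.map q (cmE Z M (n + 1)) (h.δ q (tripE Z M n) e') = 0 :=
    (congrArg (h.map q (cmE Z M (n + 1))) h3).trans (map_zero (h.map q (cmE Z M (n + 1))))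
  rw [h8, map_zero, hee] at h7
  exact h7.symm

end Pool.QB
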