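import Pool.Agent.MP_c51823_gt.QB.N3c
import Pool.Agent.MP_c51823_gt.QB.N2

/-!
# [QB-N3d] N2 (`cobar_exact`, `J = N-(k+1)`, `m = k`) gives `G`; `G` comes from a relative class `e'` on
`Z × (Es N (k+1), Es N k)` (N3a); `δ e'` and the restriction of `e` to `Z × (Es N (k+2), Es N (k+1))` agree (N3b, N3a,
`chi_incl`); the composition `H(q+1)(BA) → H q(XB) → H q(XA) → H q(X)` is `0`.
-/

set_option autoImplicit false
open Topology

namespace Pool.QB

/-- products do not depend on the degree bounds -/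
theorem n3d_mulCP {b b' c c' : ℕ} (hb : 2 * b' ≤ b) (hc : 2 * c' ≤ c) (e₁ e₂ : CP b')
    (f₁ f₂ : CP c') (h1 : e₁.1 = f₁.1) (h2 : e₂.1 = f₂.1) :
    (mulCP hb (e₁, e₂)).1 = (mulCP hc (f₁, f₂)).1 := by
  obtain ⟨e₁, p, hp, hpd, rfl⟩ := e₁
  obtain ⟨e₂, q, hq, hqd, rfl⟩ := e₂
  obtain ⟨f₁, p', hp', hpd', rfl⟩ := f₁
  obtain ⟨f₂, q', hq', hqd', rfl⟩ := f₂
  simp only at h1 h2
  -- replace the polynomials by those of the same line
  have k1 : (mulCP hb (⟨line p, p, hp, hpd, rfl⟩, ⟨line q, q, hq, hqd, rfl⟩)).1 = line (p * q) :=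
    mu_line p q hp hq hpd hqd
  have k2 : (mulCP hc (⟨line p', p', hp', hpd', rfl⟩, ⟨line q', q', hq', hqd', rfl⟩)).1 =
    line (p' * q') := mu_line p' q' hp' hq' hpd' hqd'
  rw [k1, k2]
  have k3 := mu_line (a := max b' c') (b := max b' c') p q hp hq (hpd.trans (le_max_left _ _))
    (hqd.trans (le_max_left _ _))
  have k4 := mu_line (a := max b' c') (b := max b' c') p' q' hp' hq'
    (hpd'.trans (le_max_right _ _)) (hqd'.trans (le_max_right _ _))
  rw [← k3, ← k4]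
  congr 2
  exact Prod.ext (Subtype.ext h1) (Subtype.ext h2)

/-- the face operators do not depend on the degree bounds -/
theorem n3d_dW {k b b' c c' : ℕ} (hb : 2 * b' ≤ b) (hc : 2 * c' ≤ c) (i : Fin (k + 2))
    (f : Fin (k + 1) → CP b') (g : Fin (k + 1) → CP c') (h : ∀ j, (f j).1 = (g j).1) (j : Fin k) :
    (dW hb i f j).1 = (dW hc i g j).1 := by
  unfold dW
  simp only [ContinuousMap.coe_mk]
  split_ifs
  · exact h _
  · exact n3d_mulCP hb hc _ _ _ _ (h _) (h _)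
  · exact h _

/-- the inclusion of pairs `pE Z N k → pE Z (N+1) k` -/
def n3dI (Z : Type) [TopologicalSpace Z] [CompactSpace Z] [T2Space Z] (N k : ℕ) :
    CPair.Map (pE Z N k) (pE Z (N + 1) k) :=
  ⟨idProd Z (inclE (show N ≤ N + 1 by omega) (le_refl (k + 1))), fun p hp =>
    Es_mono (Nat.le_succ N) le_rfl hp⟩

/-- [QB-N3d] A relative class on `Z × (Es M n, Es M (n-1))`, `M = N+1`, with vanishing cobar
differential dies in `Z × Es N n`. (Here `n = k+2`, `k+1 ≤ N`.) -/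
theorem HT.null_kill (h : HT) (q m : ℕ) (Z : Type) [TopologicalSpace Z]
    [CompactSpace Z] [T2Space Z] (N k : ℕ) (hk : k + 1 ≤ N) (hm : m = q + (k + 1))
    (hb : 2 * (2 ^ (N + 1 - (k + 1 + 1)) - 1) ≤ 2 ^ (N + 1 - (k + 1)) - 1)
    (e : h.H q (pE Z (N + 1) (k + 1)))
    (he : ∑ i : Fin (k + 3), h.map m (absMap (idProd Z (dW (k := k + 1) hb i)))
        ((h.sus q (k + 1) m hm _).symm (h.map q (cmE Z (N + 1) (k + 1)) e)) = 0) :
    h.map q (absMap (idProd Z (inclE (show N ≤ N + 1 by omega) (le_refl (k + 2)))))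
      (h.map q (pEabs Z (N + 1) (k + 1)) e) = 0 := by
  have ek : N + 1 - (k + 1) = N - k := by omega
  have ek' : N + 1 - (k + 1 + 1) = N - (k + 1) := by omega
  have ek'' : N - k = N - (k + 1) + 1 := by omega
  -- inequalities between the degrees
  have hpow : ∀ J : ℕ, 2 * (2 ^ J - 1) ≤ 2 ^ (J + 1) - 1 := fun J => by
    rw [pow_succ]; omega
  have hb' : 2 * (2 ^ (N - (k + 1)) - 1) ≤ 2 ^ (N - k) - 1 := by
    rw [ek'']; exact hpow _
  have h1 : 2 ^ (N + 1 - (k + 1 + 1)) - 1 ≤ 2 ^ (N + 1 - (k + 1)) - 1 := by omega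
  have hbk : 2 ^ (N - k) - 1 ≤ 2 ^ (N + 1 - (k + 1)) - 1 := by rw [ek]
  have hbk' : 2 ^ (N - (k + 1)) - 1 ≤ 2 ^ (N + 1 - (k + 1 + 1)) - 1 := by rw [ek']
  have hbk'' : 2 ^ (N - (k + 1)) - 1 ≤ 2 ^ (N + 1 - (k + 1)) - 1 := hbk'.trans h1
  have hm2 : m = (q + 1) + k := by omega
  -- N2
  set F := (h.sus q (k + 1) m hm _).symm (h.map q (cmE Z (N + 1) (k + 1)) e) with hF
  obtain ⟨G, hG⟩ := h.cobar_exact m (N - (k + 1)) k (2 ^ (N + 1 - (k + 1)) - 1)
    (2 ^ (N + 1 - (k + 1 + 1)) - 1) (by rw [ek, ek'']) (by rw [ek']) hb h1 Z F he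
  set G' := h.map m (absMap (idProd Z (inclW (k := k) hbk))) G with hG'
  -- the relative classes
  obtain ⟨e', he'⟩ := (h.cmE_bij (q + 1) Z N k).2 (h.sus (q + 1) k m hm2 _ G')
  obtain ⟨e'', he''⟩ := (h.toBA_bij (q + 1) Z N k).2 e'
  have hface := h.cmE_face q m Z N k hm hm2 hb' e''
  rw [he'', he', AddEquiv.symm_apply_apply] at hface
  -- the restriction of `e`
  have hcomp : (n3dI Z N (k + 1)).comp (cmE Z N (k + 1)) =
      (cmE Z (N + 1) (k + 1)).comp (SPmap (idProd Z (inclW (k := k + 1) hbk'')) (k + 1)) := rfl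
  have hcm : h.map q (cmE Z N (k + 1)) (h.map q (n3dI Z N (k + 1)) e) =
      h.sus q (k + 1) m hm _ (h.map m (absMap (idProd Z (inclW (k := k + 1) hbk''))) F) := by
    rw [← h.map_comp, hcomp, h.map_comp, ← h.sus_nat, hF, AddEquiv.apply_symm_apply]
  -- the cobar identity over `N`
  have hcob : h.map m (absMap (idProd Z (inclW (k := k + 1) hbk''))) F =
      ∑ i : Fin (k + 2), h.map m (absMap (idProd Z (dW (k := k) hb' i))) G' := by
    have h5 := congrArg (h.map m (absMap (idProd Z (inclW (k := k + 1) hbk')))) hG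
    rw [map_sum, ← h.map_comp] at h5
    have h6 : (absMap (idProd Z (inclW (k := k + 1) h1))).comp
        (absMap (idProd Z (inclW (k := k + 1) hbk'))) =
        absMap (idProd Z (inclW (k := k + 1) hbk'')) := rfl
    rw [h6] at h5
    rw [h5]
    refine Finset.sum_congr rfl fun i _ => ?_
    rw [hG', ← h.map_comp, ← h.map_comp]
    congr 1
    congr 1
    unfold CPair.Map.comp absMap
    congr 1
    refine ContinuousMap.ext fun p => Prod.ext rfl (funext fun j => Subtype.ext ?_)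
    exact n3d_dW hb hb' i (inclW hbk' p.2) p.2 (fun j => rfl) j
  have hEq : h.map q (n3dI Z N (k + 1)) e = h.δ q (tripE Z N k) e'' := by
    refine (h.cmE_bij q Z N (k + 1)).1 ?_
    rw [hcm, hcob, ← hface]
    exact AddEquiv.apply_symm_apply _ _
  -- conclusion
  have h7 : h.map q (absMap (idProd Z (inclE (show N ≤ N + 1 by omega) (le_refl (k + 2)))))
      (h.map q (pEabs Z (N + 1) (k + 1)) e) =
      h.map q (pEabs Z N (k + 1)) (h.map q (n3dI Z N (k + 1)) e) := by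
    rw [← h.map_comp, ← h.map_comp]
    rfl
  rw [h7, hEq]
  have h8 := (h.exact_xb q (tripE Z N k) (h.δ q (tripE Z N k) e'')).2 ⟨e'', rfl⟩
  let i₀ : CPair.Map (absP (Z × Es N (k + 2))) (tripE Z N k).XA :=
    ⟨ContinuousMap.id _, fun _ hx => hx.elim⟩
  have h9 : pEabs Z N (k + 1) = ((tripE Z N k).j).comp i₀ := rfl
  have h10 : h.map q (((tripE Z N k).j).comp i₀) (h.δ q (tripE Z N k) e'') = 0 := by
    rw [h.map_comp, h8, map_zero]
  exact h10

end Pool.QB
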