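import Pool.Agent.MP_c51823_gt.QB.ESpace
import Pool.Agent.MP_c51823_gt.QB.F5

/-!
# [QB] notation for products
-/

set_option autoImplicit false
open Topology

namespace Pool.QB

/-- `id × g` -/
def idProd (Z : Type) [TopologicalSpace Z] {X Y : Type} [TopologicalSpace X] [TopologicalSpace Y]
    (g : C(X, Y)) : C(Z × X, Z × Y) := ⟨fun p => (p.1, g p.2), by fun_prop⟩

/-- `g × id` -/
def prodId {Z Z' : Type} [TopologicalSpace Z] [TopologicalSpace Z'] (g : C(Z', Z)) (X : Type)
    [TopologicalSpace X] : C(Z' × X, Z × X) := ⟨fun p => (g p.1, p.2), by fun_prop⟩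

/-- first projection -/
def prFst (Z X : Type) [TopologicalSpace Z] [TopologicalSpace X] : C(Z × X, Z) :=
  ⟨Prod.fst, continuous_fst⟩

/-- second projection -/
def prSnd (Z X : Type) [TopologicalSpace Z] [TopologicalSpace X] : C(Z × X, X) :=
  ⟨Prod.snd, continuous_snd⟩

/-- `((z, f), f') ↦ (z, f f')` -/
noncomputable def mulMap (Z : Type) [TopologicalSpace Z] {b b' : ℕ} (hb : 2 * b' ≤ b) :
    C((Z × CP b') × CP b', Z × CP b) := ⟨fun p => (p.1.1, mulCP hb (p.1.2, p.2)), by fun_prop⟩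

/-- inclusion `CP b' → CP b` -/
def inclCP {b b' : ℕ} (hb : b' ≤ b) : C(CP b', CP b) :=
  ⟨Set.inclusion (CP_mono hb), continuous_inclusion _⟩

end Pool.QB
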