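import Pool.Agent.MP_c51823_gt.QB.OCRel

/-!
# [QB-O] The obstruction cocycle theorem (QB_PROOF.md 8.1)
-/

set_option autoImplicit false
open Topology unitInterval

namespace Pool.QB

variable {Y : Type} [TopologicalSpace Y]

/-- `(x, s) ↦ ((1-s) x, s)`, `Δ^j × I → Δ^{j+1}`. -/
noncomputable def qm (j : ℕ) : C(Dl j × I, Dl (j + 1)) where
  toFun p := ⟨(Fin.last (j + 1)).insertNth (p.2 : ℝ) fun i => (1 - (p.2 : ℝ)) * p.1.1 i, by
    constructor
    · intro i
      refine Fin.succAboveCases (Fin.last (j + 1)) ?_ (fun l => ?_) i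
      · simp only [Fin.insertNth_apply_same]
        exact p.2.2.1
      · simp only [Fin.insertNth_apply_succAbove]
        exact mul_nonneg (by linarith [p.2.2.2]) (p.1.2.1 l)
    · rw [Fin.sum_univ_succAbove _ (Fin.last (j + 1))]
      simp only [Fin.insertNth_apply_same, Fin.insertNth_apply_succAbove]
      rw [← Finset.mul_sum, p.1.2.2]
      ring⟩
  continuous_toFun := by
    refine Continuous.subtype_mk (continuous_pi fun i => ?_) _
    refine Fin.succAboveCases (Fin.last (j + 1)) ?_ (fun l => ?_) i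
    · simp only [Fin.insertNth_apply_same]
      exact continuous_subtype_val.comp continuous_snd
    · simp only [Fin.insertNth_apply_succAbove]
      exact (continuous_const.sub (continuous_subtype_val.comp continuous_snd)).mul
        ((continuous_coord l).comp continuous_fst)

theorem qm_last (j : ℕ) (p : Dl j × I) : (qm j p).1 (Fin.last (j + 1)) = (p.2 : ℝ) := by
  simp only [qm, ContinuousMap.coe_mk, Fin.insertNth_apply_same]

theorem qm_castSucc (j : ℕ) (p : Dl j × I) (i : Fin (j + 1)) :
    (qm j p).1 i.castSucc = (1 - (p.2 : ℝ)) * p.1.1 i := by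
  have h : i.castSucc = (Fin.last (j + 1)).succAbove i := by rw [Fin.succAbove_last]
  rw [h]
  simp only [qm, ContinuousMap.coe_mk, Fin.insertNth_apply_succAbove]

theorem dl_ext_last {n : ℕ} {x y : Dl (n + 1)} (h : x.1 (Fin.last (n + 1)) = y.1 (Fin.last (n + 1)))
    (h' : ∀ k : Fin (n + 1), x.1 k.castSucc = y.1 k.castSucc) : x = y := by
  refine dl_ext_succAbove (Fin.last (n + 1)) h fun k => ?_
  rw [Fin.succAbove_last]
  exact h' k

theorem qm_zero (j : ℕ) (x : Dl j) : qm j (x, 0) = face (Fin.last (j + 1)) x := by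
  refine dl_ext_last ?_ fun k => ?_
  · rw [qm_last, face_self]; rfl
  · rw [qm_castSucc]
    have h := face_succAbove (Fin.last (j + 1)) x k
    rw [Fin.succAbove_last] at h
    rw [h]
    simp

theorem qm_face (j : ℕ) (i : Fin (j + 2)) (x : Dl j) (s : I) :
    qm (j + 1) (face i x, s) = face i.castSucc (qm j (x, s)) := by
  refine dl_ext_last ?_ fun k => ?_
  · rw [qm_last]
    have h := face_succAbove i.castSucc (qm j (x, s)) (Fin.last (j + 1))
    have h2 : i.castSucc.succAbove (Fin.last (j + 1)) = Fin.last (j + 2) := by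
      apply Fin.ext
      rw [succAbove_val]
      simp only [Fin.val_last, Fin.val_castSucc]
      split_ifs <;> omega
    rw [h2, qm_last] at h
    exact h.symm
  · rw [qm_castSucc]
    refine Fin.succAboveCases i ?_ (fun l => ?_) k
    · simp only
      rw [face_self, face_self, mul_zero]
    · simp only
      rw [face_succAbove, ← Fin.castSucc_succAbove_castSucc, face_succAbove, qm_castSucc]

/-- `qm (x, 1)` is the apex, in particular does not depend on `x` -/
theorem qm_one (j : ℕ) (x y : Dl j) : qm j (x, 1) = qm j (y, 1) := by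
  refine dl_ext_last ?_ fun k => ?_
  · rw [qm_last, qm_last]
  · rw [qm_castSucc, qm_castSucc]
    simp

section cone
variable {y0 : Y} {K : ∀ j, C(Dl j, Y) → C(Dl (j + 1), Y)} {t : ℕ}

/-- homotopy to the base point -/
noncomputable def hm (K : ∀ j, C(Dl j, Y) → C(Dl (j + 1), Y)) (j : ℕ) (g : C(Dl j, Y)) :
    C(Dl j × I, Y) := (K j g).comp (qm j)

theorem hm_zero (hK : ∀ j < t, IsCone y0 K j) {j : ℕ} (hj : j < t) (g : C(Dl j, Y)) (x : Dl j) :
    hm K j g (x, 0) = g x := by
  change K j g (qm j (x, 0)) = g x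
  rw [qm_zero]
  exact (hK j hj).1 g x

theorem hm_face (hK : ∀ j < t, IsCone y0 K j) {j : ℕ} (hj : j + 1 < t) (g : C(Dl (j + 1), Y))
    (i : Fin (j + 2)) (x : Dl j) (s : I) :
    hm K (j + 1) g (face i x, s) = hm K j (g.comp (face i)) (x, s) := by
  change K (j + 1) g (qm (j + 1) (face i x, s)) = K j (g.comp (face i)) (qm j (x, s))
  rw [qm_face]
  exact (hK (j + 1) hj).2 g i _

theorem hm_one (hK : ∀ j < t, IsCone y0 K j) {j : ℕ} (hj : j < t) (g : C(Dl j, Y)) (x : Dl j) :
    hm K j g (x, 1) = y0 := by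
  induction j with
  | zero =>
    change K 0 g (qm 0 (x, 1)) = y0
    have h0 : (qm 0 (x, 1)).1 (Fin.castSucc 0) = 0 := by
      rw [qm_castSucc]; simp
    obtain ⟨u, hu⟩ := exists_face _ h0
    rw [← hu, (hK 0 hj).2 g 0 u]
    rfl
  | succ j ih =>
    obtain ⟨y⟩ : Nonempty (Dl j) := inferInstance
    have h1 : hm K (j + 1) g (x, 1) = hm K (j + 1) g (face 0 y, 1) := by
      change K (j + 1) g (qm (j + 1) (x, 1)) = K (j + 1) g (qm (j + 1) (face 0 y, 1))
      rw [qm_one]
    rw [h1, hm_face hK hj]
    exact ih (by omega) _ _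

end cone

theorem rs_tri {P : Type} [AddCommGroup P] {A : Type} {e : A} (c : A → P) (ce : c e = 0) (n : ℕ)
    (a b : A) (h : ∑ p ∈ Finset.range (n + 2), (-1 : ℤ) ^ p • c (OCA.tri e 0 a b e p) = 0) :
    c a = c b := by
  rw [Finset.sum_eq_add_of_mem 0 1 (by simp) (by simp) (by omega)] at h
  · simp only [OCA.tri, if_true, pow_zero, one_smul, pow_one, neg_smul] at h
    simp only [one_ne_zero, if_false] at h
    rwa [← sub_eq_add_neg, sub_eq_zero] at h
  · intro p _ hp
    have : OCA.tri e 0 a b e p = e := by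
      simp only [OCA.tri]
      split_ifs <;> first | rfl | (exfalso; omega)
    rw [this, ce, smul_zero]

/-- [QB-O] Obstruction cocycle theorem. -/
theorem OC (Y : Type) [TopologicalSpace Y] (t : ℕ) (ht : 2 ≤ t) (hY : Conn Y t) :
    ∃ (P : Type) (_ : AddCommGroup P) (c : C(Dl t, Y) → P),
      (∀ V : C(Dl (t + 1), Y), ∑ i : Fin (t + 2), (-1 : ℤ) ^ (i : ℕ) • c (V.comp (face i)) = 0) ∧
      (∀ f : C(bdD (t + 1), Y), ∑ i : Fin (t + 2), (-1 : ℤ) ^ (i : ℕ) • c (bdFace f i) = 0 →
        ∃ F : C(Dl (t + 1), Y), ∀ x, F x.1 = f x) ∧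
      (∀ (g : C(Dl t, Y)) (α : P), ∃ g' : C(Dl t, Y), (∀ x ∈ bdD t, g' x = g x) ∧
        c g' = c g + α) := by
  obtain ⟨n, rfl⟩ : ∃ n, t = n + 2 := ⟨t - 2, by omega⟩
  obtain ⟨y0⟩ := hY.1
  obtain ⟨K, hK⟩ := exists_cones hY y0 (n + 2) le_rfl
  obtain ⟨P, iP, c0, c0s, c0e, hc0⟩ := (relSys (n + 1) y0).main (by omega)
  -- the chosen homotopies
  have hH : ∀ g : C(Dl (n + 2), Y), ∃ H : C(Dl (n + 2) × I, Y), (∀ x, H (x, 0) = g x) ∧
      ∀ i x s, H (face i x, s) = hm K (n + 1) (g.comp (face i)) (x, s) := by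
    intro g
    refine hep0 g (fun i => hm K (n + 1) (g.comp (face i))) ?_ ?_
    · intro i x
      exact hm_zero hK (by omega) _ _
    · intro i j hij x y s hxy
      obtain ⟨p, q, u, hp, hq, rfl, rfl⟩ := face_eq_face hij hxy
      rw [hm_face hK (by omega), hm_face hK (by omega)]
      have : (g.comp (face i)).comp (face p) = (g.comp (face j)).comp (face q) := by
        ext w
        simp only [ContinuousMap.comp_apply]
        rw [face_face' hp hq]
      rw [this]
  choose H H0 HF using hH
  -- compatibility of the chosen homotopies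
  have Hcompat : ∀ (W : Fin (n + 4) → C(Dl (n + 2), Y)) (i j : Fin (n + 4)), i ≠ j →
      (∀ p q, i.succAbove p = j → j.succAbove q = i → (W i).comp (face p) = (W j).comp (face q)) →
      ∀ x y s, face i x = face j y → H (W i) (x, s) = H (W j) (y, s) := by
    intro W i j hij hW x y s hxy
    obtain ⟨p, q, u, hp, hq, rfl, rfl⟩ := face_eq_face hij hxy
    rw [HF, HF, hW p q hp hq]
  let til : C(Dl (n + 2), Y) → Bs Y (n + 2) y0 := fun g =>
    ⟨⟨fun x => H g (x, 1), (H g).continuous.comp (by fun_prop)⟩, by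
      intro x hx
      obtain ⟨i, u, rfl⟩ := (mem_bdD_iff x).1 hx
      change H g (face i u, 1) = y0
      rw [HF]
      exact hm_one hK (by omega) _ _⟩
  have htil : ∀ g x, (til g).1 x = H g (x, 1) := fun g x => rfl
  -- sums
  have hsum : ∀ W : Fin (n + 4) → C(Dl (n + 2), Y),
      (∃ V : C(Dl (n + 3), Y), ∀ i u, V (face i u) = (til (W i)).1 u) ↔
        ∑ i : Fin (n + 4), (-1 : ℤ) ^ (i : ℕ) • c0 (til (W i)) = 0 := by
    intro W
    let x : ℕ → Bs Y (n + 2) y0 := fun p =>
      if h : p < n + 4 then til (W ⟨p, h⟩) else Bs.e (n + 2) y0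
    have hx : ∀ i : Fin (n + 4), x i.val = til (W i) := by
      intro i
      simp only [x]
      rw [dif_pos i.2]
    have h1 := hc0 x
    rw [Finset.sum_range (fun p => (-1 : ℤ) ^ p • c0 (x p))] at h1
    have h2 : ∑ i : Fin (n + 4), (-1 : ℤ) ^ (i : ℕ) • c0 (til (W i)) =
        ∑ i : Fin (n + 4), (-1 : ℤ) ^ (i : ℕ) • c0 (x i.val) :=
      Finset.sum_congr rfl fun i _ => by rw [hx]
    rw [h2]
    refine Iff.trans ?_ h1
    constructor
    · rintro ⟨V, hV⟩
      exact ⟨V, fun i u => by rw [hV]; exact congrArg (fun b : Bs Y (n + 2) y0 => b.1 u) (hx i).symm⟩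
    · rintro ⟨V, hV⟩
      exact ⟨V, fun i u => by rw [hV]; exact congrArg (fun b : Bs Y (n + 2) y0 => b.1 u) (hx i)⟩
  refine ⟨P, iP, fun g => c0 (til g), ?_, ?_, ?_⟩
  · intro V
    rw [← hsum fun i => V.comp (face i)]
    obtain ⟨G, hG0, hGF⟩ := hep0 V (fun i => H (V.comp (face i))) (fun i x => by rw [H0]; rfl)
      (fun i j hij x y s hxy => Hcompat (fun i => V.comp (face i)) i j hij (by
        intro p q hp hq
        ext w
        simp only [ContinuousMap.comp_apply]
        rw [face_face' hp hq]) x y s hxy)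
    refine ⟨⟨fun x => G (x, 1), G.continuous.comp (by fun_prop)⟩, fun i u => ?_⟩
    change G (face i u, 1) = _
    rw [hGF]
    rfl
  · intro f hf
    rw [← hsum fun i => bdFace f i] at hf
    obtain ⟨W, hW⟩ := hf
    obtain ⟨G, hG1, hGF⟩ := hep1 W (fun i => H (bdFace f i)) (fun i x => by rw [hW]; rfl)
      (fun i j hij x y s hxy => Hcompat (fun i => bdFace f i) i j hij (by
        intro p q hp hq
        ext w
        simp only [ContinuousMap.comp_apply]
        change f _ = f _
        congr 1
        exact Subtype.ext (face_face' hp hq w)) x y s hxy)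
    refine ⟨⟨fun x => G (x, 0), G.continuous.comp (by fun_prop)⟩, ?_⟩
    rintro ⟨x, hx⟩
    obtain ⟨i, u, rfl⟩ := (mem_bdD_iff x).1 hx
    change G (face i u, 0) = _
    rw [hGF, H0]
    rfl
  · intro g α
    obtain ⟨a, ha⟩ := c0s (c0 (til g) + α)
    obtain ⟨G, hG1, hGF⟩ := hep1 a.1 (fun i => hm K (n + 1) (g.comp (face i)))
      (fun i x => by rw [hm_one hK (by omega), a.2 _ (face_mem_bdD i x)]) (by
        intro i j hij x y s hxy
        obtain ⟨p, q, u, hp, hq, rfl, rfl⟩ := face_eq_face hij hxy
        rw [hm_face hK (by omega), hm_face hK (by omega)]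
        have : (g.comp (face i)).comp (face p) = (g.comp (face j)).comp (face q) := by
          ext w
          simp only [ContinuousMap.comp_apply]
          rw [face_face' hp hq]
        rw [this])
    let g' : C(Dl (n + 2), Y) := ⟨fun x => G (x, 0), G.continuous.comp (by fun_prop)⟩
    have hg'F : ∀ i, g'.comp (face i) = g.comp (face i) := by
      intro i
      ext u
      change G (face i u, 0) = g (face i u)
      rw [hGF]
      exact hm_zero hK (by omega) _ _
    refine ⟨g', ?_, ?_⟩
    · intro x hx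
      obtain ⟨i, u, rfl⟩ := (mem_bdD_iff x).1 hx
      exact congrArg (fun k : C(Dl (n + 1), Y) => k u) (hg'F i)
    · change c0 (til g') = c0 (til g) + α
      rw [← ha]
      symm
      refine rs_tri c0 c0e (n + 2) a (til g') ?_
      rw [← hc0]
      -- the homotopies on the faces of the degenerate simplex
      let V : Fin (n + 4) → C(Dl (n + 2) × I, Y) := fun j =>
        if j = 0 then G else (H g').comp
          (((sdeg 0).comp (face j)).prodMap (ContinuousMap.id I))
      have V0 : V 0 = G := if_pos rfl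
      have V1 : ∀ j, j ≠ 0 → ∀ x s, V j (x, s) = H g' (sdeg 0 (face j x), s) := by
        intro j hj x s
        simp only [V]
        rw [if_neg hj]
        rfl
      have s0 : ∀ x : Dl (n + 2), sdeg 0 (face 0 x) = x := fun x => sdeg_face_castSucc 0 x
      have Gbd : ∀ x ∈ bdD (n + 2), ∀ s, G (x, s) = H g' (x, s) := by
        intro x hx s
        obtain ⟨i, u, rfl⟩ := (mem_bdD_iff x).1 hx
        rw [hGF, HF, hg'F]
      obtain ⟨L, hL0, hLF⟩ := hep0 (g'.comp (sdeg 0)) V (by
        intro i x
        by_cases hi : i = 0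
        · subst hi
          rw [V0]
          change G (x, 0) = G (sdeg 0 (face 0 x), 0)
          rw [s0]
        · rw [V1 i hi, H0]
          rfl) (by
        intro i j hij x y s hxy
        by_cases hi : i = 0
        · subst hi
          rw [V0, V1 j hij.symm, ← hxy, s0]
          exact Gbd x (mem_bdD_of_face_eq hij hxy) s
        · by_cases hj : j = 0
          · subst hj
            rw [V0, V1 i hi, hxy, s0]
            exact (Gbd y (mem_bdD_of_face_eq hij.symm hxy.symm) s).symm
          · rw [V1 i hi, V1 j hj, hxy])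
      refine ⟨⟨fun x => L (x, 1), L.continuous.comp (by fun_prop)⟩, fun i u => ?_⟩
      change L (face i u, 1) = _
      rw [hLF]
      by_cases hi : i = 0
      · subst hi
        rw [V0, hG1]
        rfl
      · rw [V1 i hi]
        by_cases hi1 : i = 1
        · subst hi1
          have : sdeg 0 (face 1 u) = u := sdeg_face_succ 0 u
          rw [this]
          rfl
        · have h1 : sdeg 0 (face i u) ∈ bdD (n + 2) := sdeg_face_mem 0 i hi hi1 u
          have h2 : H g' (sdeg 0 (face i u), 1) = y0 := (til g').2 _ h1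
          rw [h2]
          have h3 : OCA.tri (Bs.e (n + 2) y0) 0 a (til g') (Bs.e (n + 2) y0) i.val
              = Bs.e (n + 2) y0 := by
            have h4 : i.val ≠ 0 := fun h => hi (Fin.ext h)
            have h5 : i.val ≠ 1 := fun h => hi1 (Fin.ext (by simpa using h))
            simp only [OCA.tri]
            split_ifs <;> first | rfl | (exfalso; omega)
          have h6 := congrArg (fun b : Bs Y (n + 2) y0 => b.1 u) h3
          exact h6.symm

end Pool.QB
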