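import Mathlib

/-!
# [QB-O] The algebra behind the homotopy addition theorem

`S x` for a sequence `x_0, …, x_{n+1}` means `there is an `(n+1)`-simplex with faces `x_i``.
-/

set_option autoImplicit false

namespace Pool.QB.OCA

/-- A `group-like` ternary relation comes from a group. -/
theorem group_of_rel {A : Type} (e : A) (T : A → A → A → Prop)
    (h1 : ∀ a01 a02 a03 a12 a13 a23, T a01 a02 a03 → T a02 a12 a23 → T a03 a13 a23 →
      T a01 a12 a13)
    (h2 : ∀ a01 a02 a03 a12 a13 a23, T a01 a02 a03 → T a01 a12 a13 → T a03 a13 a23 →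
      T a02 a12 a23)
    (f0 : ∀ c b, ∃ a, T a c b) (f1 : ∀ a b, ∃ c, T a c b)
    (r0 : ∀ a, T a a e) (r1 : ∀ a, T e a a) :
    ∃ (G : Type) (_ : Group G) (q : A → G), Function.Surjective q ∧ q e = 1 ∧
      ∀ a c b, T a c b ↔ q c = q a * q b := by
  have symm : ∀ x y, T x y e → T y x e := fun x y h => h2 x y e x e e h (r0 x) (r0 e)
  have trans : ∀ x y z, T x y e → T y z e → T x z e := fun x y z h h' =>
    h1 x y e z e e h h' (r0 e)
  have wa : ∀ a c b a', T a c b → T a a' e → T a' c b := fun a c b a' h h' =>
    h2 a a' e c b b h' h (r1 b)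
  have wc : ∀ a c b c', T a c b → T c c' e → T a c' b := fun a c b c' h h' =>
    h1 a c b c' b e h h' (r0 b)
  have wb : ∀ a c b b', T a c b → T b b' e → T a c b' := fun a c b b' h h' =>
    h1 a c b c b' e h (r0 c) h'
  have uq : ∀ a c b c', T a c b → T a c' b → T c c' e := fun a c b c' h h' =>
    h2 a c b c' b e h h' (r0 b)
  have assoc : ∀ x y z u v w, T x u y → T y v z → T x w v → T u w z :=
    fun x y z u v w hu hv hw => h2 x u y w v z hu hw hv
  let s : Setoid A := ⟨fun x y => T x y e, ⟨fun x => r0 x, fun {x y} h => symm x y h,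
    fun {x y z} h h' => trans x y z h h'⟩⟩
  choose f hf using f1
  choose g hg using f0
  let mul : Quotient s → Quotient s → Quotient s := Quotient.map₂ f (by
    intro a a' ha b b' hb
    have h3 := wb _ _ _ _ (wa _ _ _ _ (hf a b) ha) hb
    exact uq _ _ _ _ h3 (hf a' b'))
  let inv : Quotient s → Quotient s := Quotient.map (fun a => g e a) (by
    intro a a' ha
    -- `g e a * a = e`, `g e a' * a' = e`
    have h3 : T (g e a) e a' := wb _ _ _ _ (hg e a) ha
    have h4 : T (g e a') e a' := hg e a'
    -- `w * a' = e` and `w' * a' = e`: let `v` with `v * w' = e`?  use a right inverse of `a'`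
    obtain ⟨r, hr⟩ : ∃ r, T a' e r := by
      -- right inverse from left inverse of left inverse
      have h5 : T (g e (g e a')) e (g e a') := hg e _
      -- v = g e w', v*w' = e ; w'*a' = e ; (v * w') * a' = a' = v * (w' * a') = v * e
      have h6 : T (g e (g e a')) a' e := by
        have := h1 (g e (g e a')) e (g e a') a' e a' h5 (r1 a') h4
        exact this
      -- so `v ~ a'`
      exact ⟨g e a', wa _ _ _ _ h5 h6⟩
    -- w = w (a' r) = (w a') r = r
    have h7 : T (g e a) r e ∨ True := Or.inr trivial
    have k1 : T (g e a) r e := by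
      -- rows: x = w, y = a', z = r : u = e (w a' = e), v = e (a' r = e), w·e = ?
      have := assoc (g e a) a' r e e (g e a) h3 hr (r0 _)
      -- T e w r : `w = e * r`
      exact symm _ _ (uq _ _ _ _ (r1 r) this)
    have k2 : T (g e a') r e := by
      have := assoc (g e a') a' r e e (g e a') h4 hr (r0 _)
      exact symm _ _ (uq _ _ _ _ (r1 r) this)
    exact trans _ _ _ k1 (symm _ _ k2))
  have mulmk : ∀ a b, mul (Quotient.mk s a) (Quotient.mk s b) = Quotient.mk s (f a b) :=
    fun _ _ => rfl
  let _ : Mul (Quotient s) := ⟨mul⟩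
  let _ : One (Quotient s) := ⟨Quotient.mk s e⟩
  let _ : Inv (Quotient s) := ⟨inv⟩
  let G : Group (Quotient s) := Group.ofLeftAxioms
    (by
      intro x y z
      induction x using Quotient.inductionOn with | _ x => ?_
      induction y using Quotient.inductionOn with | _ y => ?_
      induction z using Quotient.inductionOn with | _ z => ?_
      change Quotient.mk s (f (f x y) z) = Quotient.mk s (f x (f y z))
      apply Quotient.sound
      exact uq _ _ _ _ (hf _ _) (assoc _ _ _ _ _ _ (hf x y) (hf y z) (hf x (f y z))))
    (by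
      intro x
      induction x using Quotient.inductionOn with | _ x => ?_
      change Quotient.mk s (f e x) = Quotient.mk s x
      apply Quotient.sound
      exact uq _ _ _ _ (hf _ _) (r1 x))
    (by
      intro x
      induction x using Quotient.inductionOn with | _ x => ?_
      change Quotient.mk s (f (g e x) x) = Quotient.mk s e
      apply Quotient.sound
      exact uq _ _ _ _ (hf _ _) (hg e x))
  refine ⟨Quotient s, G, Quotient.mk s, Quotient.mk_surjective, rfl, fun a c b => ?_⟩
  change _ ↔ Quotient.mk s c = Quotient.mk s (f a b)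
  constructor
  · intro h
    apply Quotient.sound
    exact uq _ _ _ _ h (hf a b)
  · intro h
    have h3 : T c (f a b) e := Quotient.exact h
    exact wc _ _ _ _ (hf a b) (symm _ _ h3)

/-- The `j`-th row of the symmetric matrix with upper part `u`. -/
def row {A : Type} (u : ℕ → ℕ → A) (j : ℕ) : ℕ → A := fun p => if p < j then u p j else u j (p + 1)

/-- The sequence with three adjacent entries `a, c, b` at `i, i+1, i+2` and `e` elsewhere. -/
def tri {A : Type} (e : A) (i : ℕ) (a c b : A) : ℕ → A := fun p =>
  if p = i then a else if p = i + 1 then c else if p = i + 2 then b else e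

structure RelSys {A : Type} (n : ℕ) (e : A) (S : (ℕ → A) → Prop) : Prop where
  congr : ∀ x y : ℕ → A, (∀ p ≤ n + 1, x p = y p) → S x → S y
  fill : ∀ k ≤ n + 1, ∀ x : ℕ → A, ∃ a, S (Function.update x k a)
  clos : ∀ (u : ℕ → ℕ → A) (k : ℕ), k ≤ n + 2 → (∀ j ≤ n + 2, j ≠ k → S (row u j)) → S (row u k)
  deg : ∀ i ≤ n, ∀ a, S (tri e i a a e)

variable {A : Type} {n : ℕ} {e : A} {S : (ℕ → A) → Prop}

namespace RelSys

theorem const (h : RelSys n e S) : S fun _ => e := by
  refine h.congr _ _ ?_ (h.deg 0 (Nat.zero_le _) e)
  intro p _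
  simp [tri]

/-- the matrix supported on `{i, …, i+3}` -/
def mat (e : A) (i : ℕ) (z01 z02 z03 z12 z13 z23 : A) : ℕ → ℕ → A := fun a b =>
  if a = i then (if b = i + 1 then z01 else if b = i + 2 then z02 else if b = i + 3 then z03 else e)
  else if a = i + 1 then (if b = i + 2 then z12 else if b = i + 3 then z13 else e)
  else if a = i + 2 then (if b = i + 3 then z23 else e) else e

theorem row_mat0 (i : ℕ) (z01 z02 z03 z12 z13 z23 : A) :
    row (mat e i z01 z02 z03 z12 z13 z23) i = tri e i z01 z02 z03 := by
  funext p
  simp only [row, mat, tri]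
  split_ifs <;> first | rfl | (exfalso; omega)

theorem row_mat1 (i : ℕ) (z01 z02 z03 z12 z13 z23 : A) :
    row (mat e i z01 z02 z03 z12 z13 z23) (i + 1) = tri e i z01 z12 z13 := by
  funext p
  simp only [row, mat, tri]
  split_ifs <;> first | rfl | (exfalso; omega)

theorem row_mat2 (i : ℕ) (z01 z02 z03 z12 z13 z23 : A) :
    row (mat e i z01 z02 z03 z12 z13 z23) (i + 2) = tri e i z02 z12 z23 := by
  funext p
  simp only [row, mat, tri]
  split_ifs <;> first | rfl | (exfalso; omega)

theorem row_mat3 (i : ℕ) (z01 z02 z03 z12 z13 z23 : A) :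
    row (mat e i z01 z02 z03 z12 z13 z23) (i + 3) = tri e i z03 z13 z23 := by
  funext p
  simp only [row, mat, tri]
  split_ifs <;> first | rfl | (exfalso; omega)

theorem row_mat (i : ℕ) (z01 z02 z03 z12 z13 z23 : A) (j : ℕ) (hj : j < i ∨ i + 3 < j) :
    row (mat e i z01 z02 z03 z12 z13 z23) j = fun _ => e := by
  funext p
  simp only [row, mat]
  split_ifs <;> first | rfl | (exfalso; omega)

theorem closT (h : RelSys n e S) (i : ℕ) (hi : i + 1 ≤ n) (z01 z02 z03 z12 z13 z23 : A)
    (k : ℕ) (hk : k ≤ n + 2)
    (H0 : i ≠ k → S (tri e i z01 z02 z03)) (H1 : i + 1 ≠ k → S (tri e i z01 z12 z13))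
    (H2 : i + 2 ≠ k → S (tri e i z02 z12 z23)) (H3 : i + 3 ≠ k → S (tri e i z03 z13 z23)) :
    S (row (mat e i z01 z02 z03 z12 z13 z23) k) := by
  refine h.clos _ k hk fun j hj hjk => ?_
  by_cases h0 : j = i
  · subst h0; rw [row_mat0]; exact H0 hjk
  by_cases h1 : j = i + 1
  · subst h1; rw [row_mat1]; exact H1 hjk
  by_cases h2 : j = i + 2
  · subst h2; rw [row_mat2]; exact H2 hjk
  by_cases h3 : j = i + 3
  · subst h3; rw [row_mat3]; exact H3 hjk
  rw [row_mat _ _ _ _ _ _ _ _ (by omega)]
  exact h.const

theorem exists_group (h : RelSys n e S) (i : ℕ) (hi : i + 1 ≤ n) :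
    ∃ (G : Type) (_ : Group G) (q : A → G), Function.Surjective q ∧ q e = 1 ∧
      ∀ a c b, S (tri e i a c b) ↔ q c = q a * q b := by
  refine group_of_rel e (fun a c b => S (tri e i a c b)) ?_ ?_ ?_ ?_ ?_ ?_
  · intro z01 z02 z03 z12 z13 z23 H0 H2 H3
    rw [← row_mat1 i z01 z02 z03 z12 z13 z23]
    exact h.closT i hi _ _ _ _ _ _ _ (by omega) (fun _ => H0) (fun hh => absurd rfl hh)
      (fun _ => H2) (fun _ => H3)
  · intro z01 z02 z03 z12 z13 z23 H0 H1 H3
    rw [← row_mat2 i z01 z02 z03 z12 z13 z23]
    exact h.closT i hi _ _ _ _ _ _ _ (by omega) (fun _ => H0) (fun _ => H1)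
      (fun hh => absurd rfl hh) (fun _ => H3)
  · intro c b
    obtain ⟨a, ha⟩ := h.fill i (by omega) (tri e i e c b)
    refine ⟨a, h.congr _ _ (fun p _ => ?_) ha⟩
    simp only [Function.update_apply, tri]
    split_ifs <;> rfl
  · intro a b
    obtain ⟨c, hc⟩ := h.fill (i + 1) (by omega) (tri e i a e b)
    refine ⟨c, h.congr _ _ (fun p _ => ?_) hc⟩
    simp only [Function.update_apply, tri]
    split_ifs <;> first | rfl | (exfalso; omega)
  · intro a
    exact h.deg i (by omega) a
  · intro a
    refine h.congr _ _ (fun p _ => ?_) (h.deg (i + 1) hi a)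
    simp only [tri]
    split_ifs <;> first | rfl | (exfalso; omega)

/-- the matrix of the move `A_m` -/
def matA (e : A) (m : ℕ) (w : A) (x x' : ℕ → A) : ℕ → ℕ → A := fun a b =>
  if b = m + 2 then x a
  else if b = m + 3 then x' a
  else if a = m + 2 then x (b - 1)
  else if a = m + 3 then x' (b - 1)
  else if a = m then (if b = m + 1 then w else e)
  else e

/-- The move `A_m`. -/
theorem moveA (h : RelSys n e S) (m : ℕ) (hm : m + 1 ≤ n) (w : A) (x x' : ℕ → A)
    (h0 : S (tri e m w (x m) (x' m))) (h1 : S (tri e m w (x (m + 1)) (x' (m + 1))))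
    (hx : ∀ p, p ≠ m → p ≠ m + 1 → x p = x' p) : S x ↔ S x' := by
  have r2 : row (matA e m w x x') (m + 2) = x := by
    funext p
    simp only [row, matA]
    split_ifs <;> first | rfl | (exfalso; omega) | skip
    have : p = m + 2 := by omega
    subst this
    exact (hx _ (by omega) (by omega)).symm
  have r3 : row (matA e m w x x') (m + 3) = x' := by
    funext p
    simp only [row, matA]
    split_ifs <;> first | rfl | (exfalso; omega)
  have rest : ∀ j ≤ n + 2, j ≠ m + 2 → j ≠ m + 3 → S (row (matA e m w x x') j) := by
    intro j hj hj2 hj3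
    rcases Nat.lt_trichotomy j m with hlt | rfl | hgt
    · have : row (matA e m w x x') j = tri e (m + 1) (x j) (x j) e := by
        funext p
        simp only [row, matA, tri]
        split_ifs <;> first | rfl | (exfalso; omega) | skip
        exact (hx j (by omega) (by omega)).symm
      rw [this]
      exact h.deg (m + 1) hm _
    · have : row (matA e j w x x') j = tri e j w (x j) (x' j) := by
        funext p
        simp only [row, matA, tri]
        split_ifs <;> first | rfl | (exfalso; omega) | (congr 1; omega) | skip
      rw [this]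
      exact h0
    · by_cases hj1 : j = m + 1
      · subst hj1
        have : row (matA e m w x x') (m + 1) = tri e m w (x (m + 1)) (x' (m + 1)) := by
          funext p
          simp only [row, matA, tri]
          split_ifs <;> first | rfl | (exfalso; omega) | (congr 1; omega) | skip
        rw [this]
        exact h1
      · have : row (matA e m w x x') j = tri e (m + 2) (x (j - 1)) (x (j - 1)) e := by
          funext p
          simp only [row, matA, tri]
          split_ifs <;> first | rfl | (exfalso; omega) | (congr 1; omega) | skip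
          exact (hx (j - 1) (by omega) (by omega)).symm
        rw [this]
        exact h.deg (m + 2) (by omega) _
  constructor
  · intro hS
    have := h.clos (matA e m w x x') (m + 3) (by omega) (fun j hj hjk => by
      by_cases hj2 : j = m + 2
      · subst hj2; rw [r2]; exact hS
      · exact rest j hj hj2 hjk)
    rwa [r3] at this
  · intro hS
    have := h.clos (matA e m w x x') (m + 2) (by omega) (fun j hj hjk => by
      by_cases hj3 : j = m + 3
      · subst hj3; rw [r3]; exact hS
      · exact rest j hj hjk hj3)
    rwa [r2] at this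

/-- the matrix for commutativity -/
def matC (e w g y : A) : ℕ → ℕ → A := fun a b =>
  if a = 0 then (if b = 2 then w else if b = 3 then w else e)
  else if a = 1 then (if b = 3 then g else if b = 4 then g else e)
  else if a = 2 then (if b = 3 then y else if b = 4 then g else e) else e

theorem special (h : RelSys n e S) (hn : 2 ≤ n) (w g y : A) (hS : S (tri e 0 w g y)) :
    S fun p => if p = 0 then w else if p = 2 then y else if p = 3 then g else e := by
  have r2 : row (matC e w g y) 2 =
      fun p => if p = 0 then w else if p = 2 then y else if p = 3 then g else e := by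
    funext p
    simp only [row, matC]
    split_ifs <;> first | rfl | (exfalso; omega)
  rw [← r2]
  refine h.clos _ 2 (by omega) fun j hj hj2 => ?_
  by_cases h0 : j = 0
  · have : row (matC e w g y) j = tri e 1 w w e := by
      funext p
      simp only [row, matC, tri]
      split_ifs <;> first | rfl | (exfalso; omega)
    rw [this]
    exact h.deg 1 (by omega) w
  by_cases h1 : j = 1
  · have : row (matC e w g y) j = tri e 2 g g e := by
      funext p
      simp only [row, matC, tri]
      split_ifs <;> first | rfl | (exfalso; omega)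
    rw [this]
    exact h.deg 2 (by omega) g
  by_cases h3 : j = 3
  · have : row (matC e w g y) j = tri e 0 w g y := by
      funext p
      simp only [row, matC, tri]
      split_ifs <;> first | rfl | (exfalso; omega)
    rw [this]
    exact hS
  by_cases h4 : j = 4
  · have : row (matC e w g y) j = tri e 1 g g e := by
      funext p
      simp only [row, matC, tri]
      split_ifs <;> first | rfl | (exfalso; omega)
    rw [this]
    exact h.deg 1 (by omega) g
  have : row (matC e w g y) j = fun _ => e := by
    funext p
    simp only [row, matC]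
    split_ifs <;> first | rfl | (exfalso; omega)
  rw [this]
  exact h.const

/-- The next operation is the opposite one. -/
theorem opp (h : RelSys n e S) (m : ℕ) (hm : m + 2 ≤ n) {G : Type} [Group G] (q : A → G)
    (hq : Function.Surjective q) (qe : q e = 1)
    (hT : ∀ a c b, S (tri e m a c b) ↔ q c = q a * q b) (w c c' : A) :
    S (tri e (m + 1) w c c') ↔ q c = q c' * q w := by
  have fwd : ∀ w c c', S (tri e (m + 1) w c c') → q c = q c' * q w := by
    intro w c c' hS
    obtain ⟨a, ha⟩ := hq (q c * (q w)⁻¹)
    have h1 : S (tri e m a c w) := by rw [hT, ha]; group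
    have h2 : S (tri e m a c' e) := by
      refine (h.moveA (m + 1) (by omega) w (tri e m a c w) (tri e m a c' e) ?_ ?_ ?_).1 h1
      · simpa [tri] using hS
      · have := h.deg (m + 1) (by omega) w
        have e1 : tri e m a c w (m + 1 + 1) = w := by
          simp only [tri]
          split_ifs <;> first | rfl | (exfalso; omega)
        have e2 : tri e m a c' e (m + 1 + 1) = e := by
          simp only [tri]
          split_ifs <;> first | rfl | (exfalso; omega)
        rw [e1, e2]
        exact this
      · intro p hp1 hp2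
        simp only [tri]
        split_ifs <;> first | rfl | (exfalso; omega)
    rw [hT, qe, mul_one] at h2
    rw [h2, ha]; group
  refine ⟨fwd w c c', fun hc => ?_⟩
  obtain ⟨G', _, q', hq', qe', hT'⟩ := h.exists_group (m + 1) (by omega)
  obtain ⟨c'', hc''⟩ := hq' (q' w * q' c')
  have h1 : S (tri e (m + 1) w c'' c') := (hT' _ _ _).2 hc''
  have h2 := fwd _ _ _ h1
  have h3 : S (tri e m e c'' c) := by rw [hT, qe, one_mul, h2, hc]
  have h4 : S (tri e (m + 1) c'' c e) := by
    refine h.congr _ _ (fun p _ => ?_) h3
    simp only [tri]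
    split_ifs <;> first | rfl | (exfalso; omega)
  rw [hT', qe', mul_one] at h4
  rw [hT', h4, hc'']

theorem exists_comm (h : RelSys n e S) (hn : 2 ≤ n) :
    ∃ (G : Type) (_ : CommGroup G) (q : A → G), Function.Surjective q ∧ q e = 1 ∧
      ∀ m, m + 1 ≤ n → ∀ a c b, S (tri e m a c b) ↔ q c = q a * q b := by
  obtain ⟨G, iG, q, hq, qe, hT⟩ := h.exists_group 0 (by omega)
  have comm : ∀ x y : G, x * y = y * x := by
    intro x y
    obtain ⟨w, hw⟩ := hq x⁻¹
    obtain ⟨g, hg⟩ := hq y
    obtain ⟨y0, hy0⟩ := hq ((q w)⁻¹ * q g)
    obtain ⟨b, hb⟩ := hq (q w)⁻¹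
    have h1 : S (tri e 0 w g y0) := by rw [hT, hy0]; group
    have h2 := h.special hn w g y0 h1
    have h3 : S (tri e 1 b y0 g) := by
      refine (h.moveA 0 (by omega) w _ (tri e 1 b y0 g) ?_ ?_ ?_).1 h2
      · simpa [tri] using h.deg 0 (by omega) w
      · have : S (tri e 0 w e b) := by rw [hT, hb, qe]; group
        simpa [tri] using this
      · intro p hp1 hp2
        simp only [tri]
        split_ifs <;> first | rfl | (exfalso; omega)
    rw [h.opp 0 (by omega) q hq qe hT] at h3
    rw [hy0, hb, hw, hg] at h3
    simpa using h3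
  let iC : CommGroup G := { iG with mul_comm := comm }
  refine ⟨G, iC, q, hq, qe, ?_⟩
  intro m
  induction m with
  | zero => intro _; exact hT
  | succ m ih =>
    intro hm a c b
    have := h.opp m (by omega) q hq qe (ih (by omega)) a c b
    rw [this]
    constructor
    · intro h1; rw [h1]; exact comm _ _
    · intro h1; rw [h1]; exact comm _ _

/-- Homotopy addition, algebraic form. -/
theorem main (h : RelSys n e S) (hn : 2 ≤ n) :
    ∃ (P : Type) (_ : AddCommGroup P) (c : A → P), Function.Surjective c ∧ c e = 0 ∧
      ∀ x : ℕ → A, S x ↔ ∑ p ∈ Finset.range (n + 2), (-1 : ℤ) ^ p • c (x p) = 0 := by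
  obtain ⟨G, iG, q, hq, qe, hT⟩ := h.exists_comm hn
  refine ⟨Additive G, inferInstance, fun a => Additive.ofMul (q a), ?_, ?_, ?_⟩
  · intro y
    obtain ⟨a, ha⟩ := hq (Additive.toMul y)
    exact ⟨a, by simp [ha]⟩
  · simp [qe]
  set c : A → Additive G := fun a => Additive.ofMul (q a) with hc
  have ce : c e = 0 := by simp [hc, qe]
  have hT' : ∀ m, m + 1 ≤ n → ∀ a x b, S (tri e m a x b) ↔ c x = c a + c b := by
    intro m hm a x b
    rw [hT m hm]
    simp only [hc, ← ofMul_mul]
    exact Additive.ofMul.injective.eq_iff.symm
  have csurj : Function.Surjective c := by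
    intro y
    obtain ⟨a, ha⟩ := hq (Additive.toMul y)
    exact ⟨a, by simp [hc, ha]⟩
  have key : ∀ j k, k + j = n → ∀ x : ℕ → A, (∀ p < k, x p = e) →
      (S x ↔ ∑ p ∈ Finset.range (n + 2), (-1 : ℤ) ^ p • c (x p) = 0) := by
    intro j
    induction j with
    | zero =>
      intro k hk x hx
      have hk' : k = n := by omega
      subst hk'
      obtain ⟨k, rfl⟩ : ∃ k', k = k' + 1 := ⟨k - 1, by omega⟩
      have h1 : S x ↔ S (tri e k e (x (k + 1)) (x (k + 2))) := by
        constructor
        · refine h.congr _ _ fun p hp => ?_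
          simp only [tri]
          split_ifs with h1 h2 h3
          · rw [hx p (by omega)]
          · rw [h2]
          · rw [h3]
          · exact hx p (by omega)
        · refine h.congr _ _ fun p hp => ?_
          simp only [tri]
          split_ifs with h1 h2 h3
          · rw [hx p (by omega)]
          · rw [h2]
          · rw [h3]
          · exact (hx p (by omega)).symm
      rw [h1, hT' k (by omega), ce, zero_add]
      rw [Finset.sum_range_succ, Finset.sum_range_succ]
      rw [Finset.sum_eq_zero (fun p hp => by rw [hx p (Finset.mem_range.1 hp), ce, smul_zero])]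
      rw [zero_add, pow_succ (-1 : ℤ) (k + 1)]
      rcases neg_one_pow_eq_or ℤ (k + 1) with h5 | h5 <;> rw [h5] <;>
        simp [add_neg_eq_zero, neg_add_eq_zero]
    | succ j ih =>
      intro k hk x hx
      obtain ⟨b, hb⟩ := csurj (c (x (k + 1)) - c (x k))
      set x' : ℕ → A := fun p => if p = k then e else if p = k + 1 then b else x p with hx'
      have h1 : S x ↔ S x' := by
        refine h.moveA k (by omega) (x k) x x' ?_ ?_ ?_
        · have := h.deg k (by omega) (x k)
          simpa [hx'] using this
        · rw [hT' k (by omega)]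
          simp [hx', hb]
        · intro p hp1 hp2
          simp [hx', hp1, hp2]
      rw [h1, ih (k + 1) (by omega) x' ?_]
      · have : ∑ p ∈ Finset.range (n + 2), (-1 : ℤ) ^ p • c (x p)
            = ∑ p ∈ Finset.range (n + 2), (-1 : ℤ) ^ p • c (x' p) := by
          rw [← sub_eq_zero, ← Finset.sum_sub_distrib]
          rw [Finset.sum_eq_add_of_mem k (k + 1) (by simp; omega) (by simp; omega) (by omega)]
          · simp only [hx', if_true, if_neg (show k + 1 ≠ k by omega), ce, hb, smul_zero,
              pow_succ]
            rcases neg_one_pow_eq_or ℤ k with h5 | h5 <;> rw [h5] <;> simp <;> abel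
          · intro p _ hp
            simp [hx', hp.1, hp.2]
        rw [this]
      · intro p hp
        simp only [hx']
        split_ifs with h1 h2
        · rfl
        · omega
        · exact hx p (by omega)
  intro x
  exact key n 0 (by omega) x (fun p hp => absurd hp (Nat.not_lt_zero p))

end RelSys

end Pool.QB.OCA
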