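import Pool.Agent.MP_c51823_gt.QB.Simplex

/-!
# [QB] obstruction cocycle data
-/

set_option autoImplicit false
open Topology

namespace Pool.QB

/-- The conclusion of the obstruction cocycle theorem. -/
structure OCData (Y : Type) [TopologicalSpace Y] (t : ℕ) (P : Type) [AddCommGroup P] where
  c : C(Dl t, Y) → P
  coc : ∀ V : C(Dl (t + 1), Y), ∑ i : Fin (t + 2), (-1 : ℤ) ^ (i : ℕ) • c (V.comp (face i)) = 0
  ext : ∀ f : C(bdD (t + 1), Y), ∑ i : Fin (t + 2), (-1 : ℤ) ^ (i : ℕ) • c (bdFace f i) = 0 →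
    ∃ F : C(Dl (t + 1), Y), ∀ x, F x.1 = f x
  chg : ∀ (g : C(Dl t, Y)) (α : P), ∃ g' : C(Dl t, Y), (∀ x ∈ bdD t, g' x = g x) ∧ c g' = c g + α

end Pool.QB
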