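import Pool.Agent.MP_c51823_gt.QB.Simplex

/-!
# [QB-O] Face maps, degeneracies, gluing, horn filling, homotopy extension
-/

set_option autoImplicit false
open Topology

namespace Pool.QB

theorem face_self {n : ℕ} (i : Fin (n + 2)) (x : Dl n) : (face i x).1 i = 0 := by
  simp [face]

theorem face_succAbove {n : ℕ} (i : Fin (n + 2)) (x : Dl n) (k : Fin (n + 1)) :
    (face i x).1 (i.succAbove k) = x.1 k := by
  simp [face]

theorem face_inj {n : ℕ} (i : Fin (n + 2)) {x y : Dl n} (h : face i x = face i y) : x = y := by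
  apply Subtype.ext
  funext k
  rw [← face_succAbove i x k, h, face_succAbove]

theorem dl_ext_succAbove {n : ℕ} (i : Fin (n + 2)) {x y : Dl (n + 1)} (h : x.1 i = y.1 i)
    (h' : ∀ k, x.1 (i.succAbove k) = y.1 (i.succAbove k)) : x = y := by
  apply Subtype.ext
  funext j
  refine Fin.succAboveCases i h h' j

theorem exists_face {n : ℕ} (i : Fin (n + 2)) {y : Dl (n + 1)} (h : y.1 i = 0) :
    ∃ x, face i x = y := by
  have hsum : ∑ k, y.1 (i.succAbove k) = 1 := by
    have := y.2.2
    rw [Fin.sum_univ_succAbove _ i, h, zero_add] at this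
    exact this
  refine ⟨⟨fun k => y.1 (i.succAbove k), fun k => y.2.1 _, hsum⟩, ?_⟩
  refine dl_ext_succAbove i ?_ fun k => ?_
  · rw [face_self, h]
  · rw [face_succAbove]

theorem face_mem_bdD {n : ℕ} (i : Fin (n + 2)) (x : Dl n) : face i x ∈ bdD (n + 1) :=
  ⟨i, face_self i x⟩

theorem mem_bdD_iff {n : ℕ} (y : Dl (n + 1)) : y ∈ bdD (n + 1) ↔ ∃ i x, face i x = y := by
  constructor
  · rintro ⟨i, hi⟩
    obtain ⟨x, hx⟩ := exists_face i hi
    exact ⟨i, x, hx⟩
  · rintro ⟨i, x, rfl⟩
    exact face_mem_bdD i x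

/-- simplicial identity -/
theorem face_face {n : ℕ} (k : Fin (n + 3)) (p : Fin (n + 2)) (u : Dl n) :
    face k (face p u) = face (k.succAbove p) (face (p.predAbove k) u) := by
  refine dl_ext_succAbove k ?_ fun m => ?_
  · rw [face_self]
    have h := face_succAbove (k.succAbove p) (face (p.predAbove k) u) (p.predAbove k)
    rw [Fin.succAbove_succAbove_predAbove, face_self] at h
    exact h.symm
  · rw [face_succAbove]
    refine Fin.succAboveCases p ?_ (fun l => ?_) m
    · rw [face_self, face_self]
    · rw [face_succAbove, ← Fin.succAbove_succAbove_succAbove_predAbove, face_succAbove,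
        face_succAbove]

theorem face_eq_face {n : ℕ} {i j : Fin (n + 3)} (hij : i ≠ j) {x y : Dl (n + 1)}
    (h : face i x = face j y) :
    ∃ (p q : Fin (n + 2)) (u : Dl n), i.succAbove p = j ∧ j.succAbove q = i ∧
      x = face p u ∧ y = face q u := by
  obtain ⟨p, hp⟩ := Fin.exists_succAbove_eq hij.symm
  have hx : x.1 p = 0 := by
    rw [← face_succAbove i x p, hp, h, face_self]
  obtain ⟨u, hu⟩ := exists_face p hx
  refine ⟨p, p.predAbove i, u, hp, ?_, hu.symm, ?_⟩
  · rw [← hp]; exact Fin.succAbove_succAbove_predAbove i p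
  · have := face_face i p u
    rw [hu, hp] at this
    exact face_inj j (h.symm.trans this)

theorem mem_bdD_of_face_eq {n : ℕ} {i j : Fin (n + 2)} (hij : i ≠ j) {x y : Dl n}
    (h : face i x = face j y) : x ∈ bdD n := by
  obtain ⟨p, hp⟩ := Fin.exists_succAbove_eq hij.symm
  exact ⟨p, by rw [← face_succAbove i x p, hp, h, face_self]⟩

theorem bdD_zero (x : Dl 0) : x ∉ bdD 0 := by
  rintro ⟨i, hi⟩
  have := x.2.2
  rw [Fin.sum_univ_one] at this
  have h0 : i = 0 := Fin.ext (by omega)
  subst h0
  rw [hi] at this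
  exact zero_ne_one this

/-! ## Degeneracies -/

theorem predAbove_val {n : ℕ} (i : Fin (n + 1)) (l : Fin (n + 2)) :
    (i.predAbove l).val = if i.val < l.val then l.val - 1 else l.val := by
  simp only [Fin.predAbove, Fin.lt_def, Fin.val_castSucc]
  split_ifs <;> rfl

theorem succAbove_val {n : ℕ} (j : Fin (n + 1)) (k : Fin n) :
    (j.succAbove k).val = if k.val < j.val then k.val else k.val + 1 := by
  simp only [Fin.succAbove, Fin.lt_def, Fin.val_castSucc]
  split_ifs <;> rfl

/-- The degeneracy `Δ^{n+1} → Δ^n` merging the vertices `i`, `i+1`. -/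
noncomputable def sdeg {n : ℕ} (i : Fin (n + 1)) : C(Dl (n + 1), Dl n) :=
  ⟨stdSimplex.map (Fin.predAbove i), stdSimplex.continuous_map _⟩

theorem face_eq_map {n : ℕ} (i : Fin (n + 2)) (x : Dl n) :
    face i x = stdSimplex.map (Fin.succAbove i) x := by
  refine dl_ext_succAbove i ?_ fun k => ?_
  · rw [face_self]
    change _ = (stdSimplex.map (Fin.succAbove i) x) i
    rw [stdSimplex.map_coe, FunOnFinite.linearMap_apply_apply]
    symm
    apply Finset.sum_eq_zero
    intro k hk
    simp only [Finset.mem_filter, Finset.mem_univ, true_and] at hk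
    exact absurd hk (Fin.succAbove_ne i k)
  · rw [face_succAbove]
    change _ = (stdSimplex.map (Fin.succAbove i) x) (i.succAbove k)
    rw [stdSimplex.map_coe, FunOnFinite.linearMap_apply_apply]
    rw [Finset.sum_eq_single k]
    · rfl
    · intro b hb hbk
      simp only [Finset.mem_filter, Finset.mem_univ, true_and] at hb
      exact absurd (Fin.succAbove_right_injective hb) hbk
    · intro h
      simp at h

theorem sdeg_face_castSucc {n : ℕ} (i : Fin (n + 1)) (x : Dl n) : sdeg i (face i.castSucc x) = x := by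
  rw [face_eq_map]
  change stdSimplex.map _ (stdSimplex.map _ x) = x
  rw [stdSimplex.map_comp_apply]
  have : (Fin.predAbove i) ∘ (Fin.succAbove i.castSucc) = id := by
    funext k
    simp
  rw [this, stdSimplex.map_id_apply]

theorem sdeg_face_succ {n : ℕ} (i : Fin (n + 1)) (x : Dl n) : sdeg i (face i.succ x) = x := by
  rw [face_eq_map]
  change stdSimplex.map _ (stdSimplex.map _ x) = x
  rw [stdSimplex.map_comp_apply]
  have : (Fin.predAbove i) ∘ (Fin.succAbove i.succ) = id := by
    funext k
    apply Fin.ext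
    simp only [Function.comp, predAbove_val, succAbove_val, Fin.val_succ, id]
    split_ifs <;> omega
  rw [this, stdSimplex.map_id_apply]

theorem sdeg_face_mem {n : ℕ} (i : Fin (n + 1)) (j : Fin (n + 2)) (h1 : j ≠ i.castSucc)
    (h2 : j ≠ i.succ) (x : Dl n) : sdeg i (face j x) ∈ bdD n := by
  refine ⟨i.predAbove j, ?_⟩
  rw [face_eq_map]
  change (stdSimplex.map _ (stdSimplex.map _ x)) (i.predAbove j) = 0
  rw [stdSimplex.map_comp_apply, stdSimplex.map_coe, FunOnFinite.linearMap_apply_apply]
  apply Finset.sum_eq_zero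
  intro k hk
  exfalso
  simp only [Finset.mem_filter, Finset.mem_univ, true_and, Function.comp] at hk
  have h3 : (j.succAbove k).val ≠ j.val := fun h => Fin.succAbove_ne j k (Fin.ext h)
  have h4 : j.val ≠ i.val := fun h => h1 (Fin.ext h)
  have h5 : j.val ≠ i.val + 1 := fun h => h2 (Fin.ext h)
  have h7 := congrArg Fin.val hk
  rw [predAbove_val, predAbove_val] at h7
  split_ifs at h7 <;> omega

/-! ## Gluing -/

/-- Gluing of maps on faces (with a parameter space `Z`). -/
theorem glue_faces {Y Z : Type} [TopologicalSpace Y] [TopologicalSpace Z] {n : ℕ}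
    (J : Fin (n + 2) → Prop) (V : Fin (n + 2) → C(Dl n × Z, Y))
    (hV : ∀ i j, J i → J j → i ≠ j → ∀ x y z, face i x = face j y → V i (x, z) = V j (y, z)) :
    ∃ f : C({x : Dl (n + 1) // ∃ j, J j ∧ x.1 j = 0} × Z, Y),
      ∀ i, J i → ∀ x z h, f (⟨face i x, h⟩, z) = V i (x, z) := by
  classical
  have hV' : ∀ i j, J i → J j → ∀ x y z, face i x = face j y → V i (x, z) = V j (y, z) := by
    intro i j hi hj x y z h
    by_cases hij : i = j
    · subst hij
      rw [face_inj i h]
    · exact hV i j hi hj hij x y z h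
  choose! g hg using fun (p : {x : Dl (n + 1) // ∃ j, J j ∧ x.1 j = 0}) => p.2
  choose d hd using fun (p : {x : Dl (n + 1) // ∃ j, J j ∧ x.1 j = 0}) =>
    exists_face (g p) (hg p).2
  let F : {x : Dl (n + 1) // ∃ j, J j ∧ x.1 j = 0} × Z → Y := fun q => V (g q.1) (d q.1, q.2)
  have hF : ∀ i, J i → ∀ x z h, F (⟨face i x, h⟩, z) = V i (x, z) := by
    intro i hi x z h
    refine hV' _ _ (hg _).1 hi _ _ z ?_
    rw [hd]
  have hcont : Continuous F := by
    let C : {i // J i} → Set ({x : Dl (n + 1) // ∃ j, J j ∧ x.1 j = 0} × Z) :=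
      fun i => {q | q.1.1.1 i.1 = 0}
    have hcoord : ∀ i : Fin (n + 2), Continuous fun q : {x : Dl (n + 1) // ∃ j, J j ∧ x.1 j = 0} × Z =>
        q.1.1.1 i := fun i =>
      (continuous_apply i).comp (continuous_subtype_val.comp (continuous_subtype_val.comp
        continuous_fst))
    refine (locallyFinite_of_finite C).continuous ?_ ?_ ?_
    · ext q
      simp only [Set.mem_iUnion, Set.mem_univ, iff_true]
      obtain ⟨j, hj, h0⟩ := q.1.2
      exact ⟨⟨j, hj⟩, h0⟩
    · intro i
      exact isClosed_eq (hcoord i.1) continuous_const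
    · rintro ⟨i, hi⟩
      rw [continuousOn_iff_continuous_domRestrict]
      have key : ∀ q : C ⟨i, hi⟩, ((∀ k : Fin (n + 1), 0 ≤ q.1.1.1.1 (i.succAbove k)) ∧
          ∑ k, q.1.1.1.1 (i.succAbove k) = 1) := by
        intro q
        refine ⟨fun k => q.1.1.1.2.1 _, ?_⟩
        have h1 := q.1.1.1.2.2
        rw [Fin.sum_univ_succAbove _ i] at h1
        have h2 : q.1.1.1.1 i = 0 := q.2
        rw [h2, zero_add] at h1
        exact h1
      let D : C ⟨i, hi⟩ → Dl n := fun q => ⟨fun k => q.1.1.1.1 (i.succAbove k), key q⟩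
      have hD : Continuous D := by
        refine Continuous.subtype_mk (continuous_pi fun k => ?_) _
        exact (hcoord _).comp continuous_subtype_val
      have : (C ⟨i, hi⟩).domRestrict F = fun q => V i (D q, q.1.2) := by
        funext q
        have h2 : q.1.1.1.1 i = 0 := q.2
        have h3 : face i (D q) = q.1.1.1 := by
          refine dl_ext_succAbove i ?_ fun k => ?_
          · rw [face_self, h2]
          · rw [face_succAbove]
        have h4 := hF i hi (D q) q.1.2 ⟨i, hi, face_self _ _⟩
        rw [← h4]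
        simp only [Set.domRestrict_apply]
        congr 1
        refine Prod.ext (Subtype.ext h3.symm) rfl
      rw [this]
      exact (V i).continuous.comp (hD.prodMk (continuous_snd.comp continuous_subtype_val))
  exact ⟨⟨F, hcont⟩, hF⟩

end Pool.QB
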