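import Pool.Agent.MP_c51823_gt.QB.OCFace

/-!
# [QB-O] Horn filling and homotopy extension
-/

set_option autoImplicit false
open Topology unitInterval

namespace Pool.QB

/-- minimum of finitely many coordinates -/
noncomputable def mn {n : ℕ} (f : Fin (n + 1) → ℝ) : ℝ := Finset.univ.inf' Finset.univ_nonempty f

theorem mn_le {n : ℕ} (f : Fin (n + 1) → ℝ) (i : Fin (n + 1)) : mn f ≤ f i :=
  Finset.inf'_le _ (Finset.mem_univ i)

theorem exists_mn {n : ℕ} (f : Fin (n + 1) → ℝ) : ∃ i, f i = mn f := by
  obtain ⟨i, _, hi⟩ := Finset.exists_mem_eq_inf' (s := (Finset.univ : Finset (Fin (n + 1))))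
    Finset.univ_nonempty f
  exact ⟨i, hi.symm⟩

theorem le_mn {n : ℕ} {f : Fin (n + 1) → ℝ} {a : ℝ} (h : ∀ i, a ≤ f i) : a ≤ mn f :=
  Finset.le_inf' _ _ fun i _ => h i

theorem continuous_mn {n : ℕ} {X : Type} [TopologicalSpace X] {f : X → Fin (n + 1) → ℝ}
    (h : ∀ i, Continuous fun x => f x i) : Continuous fun x => mn (f x) := by
  unfold mn
  exact Continuous.finset_inf'_apply _ fun i _ => h i

theorem continuous_coord {n : ℕ} (i : Fin (n + 1)) : Continuous fun x : Dl n => x.1 i :=
  (continuous_apply i).comp continuous_subtype_val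

/-- Horn filling. -/
theorem horn {Y : Type} [TopologicalSpace Y] {n : ℕ} (k : Fin (n + 2))
    (V : Fin (n + 2) → C(Dl n, Y))
    (hV : ∀ i j, i ≠ k → j ≠ k → i ≠ j → ∀ x y, face i x = face j y → V i x = V j y) :
    ∃ F : C(Dl (n + 1), Y), ∀ i, i ≠ k → ∀ x, F (face i x) = V i x := by
  obtain ⟨f, hf⟩ := glue_faces (Y := Y) (Z := Unit) (fun i => i ≠ k)
    (fun i => (V i).comp ⟨Prod.fst, continuous_fst⟩)
    (fun i j hi hj hij x y _ h => hV i j hi hj hij x y h)
  let m : Dl (n + 1) → ℝ := fun x => mn fun l => x.1 (k.succAbove l)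
  have hm : Continuous m := continuous_mn fun l => continuous_coord _
  have hm0 : ∀ x, 0 ≤ m x := fun x => le_mn fun l => x.2.1 _
  let r : Dl (n + 1) → Dl (n + 1) := fun x =>
    ⟨k.insertNth (x.1 k + (n + 1) * m x) fun l => x.1 (k.succAbove l) - m x, by
      constructor
      · intro j
        refine Fin.succAboveCases k ?_ (fun l => ?_) j
        · simp only [Fin.insertNth_apply_same]
          have := x.2.1 k
          have := hm0 x
          positivity
        · simp only [Fin.insertNth_apply_succAbove]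
          have : m x ≤ x.1 (k.succAbove l) := mn_le (fun l => x.1 (k.succAbove l)) l
          linarith
      · rw [Fin.sum_univ_succAbove _ k]
        simp only [Fin.insertNth_apply_same, Fin.insertNth_apply_succAbove,
          Finset.sum_sub_distrib, Finset.sum_const, Finset.card_univ, Fintype.card_fin,
          nsmul_eq_mul]
        have := x.2.2
        rw [Fin.sum_univ_succAbove _ k] at this
        push_cast
        linarith⟩
  have hr : Continuous r := by
    refine Continuous.subtype_mk (continuous_pi fun j => ?_) _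
    refine Fin.succAboveCases k ?_ (fun l => ?_) j
    · simp only [Fin.insertNth_apply_same]
      exact (continuous_coord k).add (continuous_const.mul hm)
    · simp only [Fin.insertNth_apply_succAbove]
      exact (continuous_coord _).sub hm
  have hrJ : ∀ x, ∃ j, j ≠ k ∧ (r x).1 j = 0 := by
    intro x
    obtain ⟨l, hl⟩ := exists_mn fun l => x.1 (k.succAbove l)
    refine ⟨k.succAbove l, Fin.succAbove_ne k l, ?_⟩
    simp only [r, Fin.insertNth_apply_succAbove]
    exact sub_eq_zero.2 hl
  refine ⟨⟨fun x => f (⟨r x, hrJ x⟩, ()), f.continuous.comp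
    ((hr.subtype_mk _).prodMk continuous_const)⟩, ?_⟩
  intro i hi x
  have h0 : m (face i x) = 0 := by
    refine le_antisymm ?_ (hm0 _)
    obtain ⟨l, hl⟩ := Fin.exists_succAbove_eq hi
    have h1 : m (face i x) ≤ (face i x).1 (k.succAbove l) :=
      mn_le (fun l => (face i x).1 (k.succAbove l)) l
    rw [hl, face_self] at h1
    exact h1
  have h1 : r (face i x) = face i x := by
    refine dl_ext_succAbove k ?_ fun l => ?_
    · simp only [r, Fin.insertNth_apply_same, h0, mul_zero, add_zero]
    · simp only [r, Fin.insertNth_apply_succAbove, h0, sub_zero]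
  have h2 := hf i hi x () ⟨i, hi, face_self i x⟩
  change f (⟨r (face i x), _⟩, ()) = V i x
  have h3 : (⟨r (face i x), hrJ (face i x)⟩ : {x : Dl (n + 1) // ∃ j, j ≠ k ∧ x.1 j = 0}) =
      ⟨face i x, ⟨i, hi, face_self i x⟩⟩ := Subtype.ext h1
  rw [h3]
  exact h2

/-- Homotopy extension for `(Δ^{n+1}, ∂Δ^{n+1})`. -/
theorem hep0 {Y : Type} [TopologicalSpace Y] {n : ℕ} (g : C(Dl (n + 1), Y))
    (V : Fin (n + 2) → C(Dl n × I, Y)) (h0 : ∀ i x, V i (x, 0) = g (face i x))
    (hV : ∀ i j, i ≠ j → ∀ x y s, face i x = face j y → V i (x, s) = V j (y, s)) :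
    ∃ H : C(Dl (n + 1) × I, Y), (∀ x, H (x, 0) = g x) ∧ ∀ i x s, H (face i x, s) = V i (x, s) := by
  classical
  obtain ⟨f, hf⟩ := glue_faces (Y := Y) (Z := I) (fun _ => True) V
    (fun i j _ _ hij x y s h => hV i j hij x y s h)
  let m : Dl (n + 1) → ℝ := fun x => mn x.1
  have hm : Continuous m := continuous_mn fun l => continuous_coord _
  have hm0 : ∀ x, 0 ≤ m x := fun x => le_mn fun l => x.2.1 _
  let N : ℝ := n + 2
  have hN : 0 < N := by positivity
  have hm1 : ∀ x, N * m x ≤ 1 := by
    intro x
    have h1 : ∑ _i : Fin (n + 2), m x ≤ ∑ i, x.1 i := Finset.sum_le_sum fun i _ => mn_le x.1 i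
    rw [x.2.2] at h1
    simpa [N] using h1
  let M : Dl (n + 1) × I → ℝ := fun p => max ((2 - (p.2 : ℝ)) / 2) (1 - N * m p.1)
  have hMc : Continuous M := by
    refine Continuous.max ?_ ?_
    · exact (continuous_const.sub (continuous_subtype_val.comp continuous_snd)).div_const _
    · exact continuous_const.sub (continuous_const.mul (hm.comp continuous_fst))
  have hM1 : ∀ p, M p ≤ 1 := by
    intro p
    refine max_le ?_ ?_
    · have := p.2.2.1; linarith
    · have := hm0 p.1
      nlinarith
  have hMh : ∀ p, (2 - (p.2 : ℝ)) / 2 ≤ M p := fun p => le_max_left _ _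
  have hMg : ∀ p, 1 - N * m p.1 ≤ M p := fun p => le_max_right _ _
  have hMpos : ∀ p, 0 < M p := by
    intro p
    have := hMh p
    have := p.2.2.2
    linarith
  have hr1mem : ∀ p : Dl (n + 1) × I, (fun i => 1 / N + (p.1.1 i - 1 / N) / M p) ∈
      stdSimplex ℝ (Fin (n + 1 + 1)) := by
    intro p
    constructor
    · intro i
      have h1 := mn_le p.1.1 i
      have h2 : 1 / N * M p + (p.1.1 i - 1 / N) ≥ 0 := by
        have h3 := hMg p
        have h4 : 1 / N * (1 - N * m p.1) = 1 / N - m p.1 := by field_simp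
        have h5 : 1 / N * (1 - N * m p.1) ≤ 1 / N * M p :=
          mul_le_mul_of_nonneg_left h3 (by positivity)
        have h6 : m p.1 ≤ p.1.1 i := h1
        linarith
      have h3 : 1 / N + (p.1.1 i - 1 / N) / M p = (1 / N * M p + (p.1.1 i - 1 / N)) / M p := by
        have := (hMpos p).ne'
        field_simp
      simp only
      rw [h3]
      exact div_nonneg h2 (hMpos p).le
    · simp only
      have h0 : ∑ i : Fin (n + 1 + 1), (1 / N + (p.1.1 i - 1 / N) / M p) =
          ∑ _i : Fin (n + 1 + 1), 1 / N +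
            (∑ i : Fin (n + 1 + 1), p.1.1 i - ∑ _i : Fin (n + 1 + 1), 1 / N) / M p := by
        rw [Finset.sum_add_distrib, ← Finset.sum_sub_distrib, Finset.sum_div]
      rw [h0, p.1.2.2]
      simp only [Finset.sum_const, Finset.card_univ, Fintype.card_fin, nsmul_eq_mul]
      have h1 : ((n + 1 + 1 : ℕ) : ℝ) * (1 / N) = 1 := by
        have : ((n + 1 + 1 : ℕ) : ℝ) = N := by simp only [N]; push_cast; ring
        rw [this]
        field_simp
      rw [h1]
      simp
  let r1 : Dl (n + 1) × I → Dl (n + 1) := fun p => ⟨_, hr1mem p⟩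
  have hr1 : Continuous r1 := by
    refine Continuous.subtype_mk (continuous_pi fun i => ?_) _
    refine continuous_const.add (Continuous.div ?_ hMc fun p => (hMpos p).ne')
    exact ((continuous_coord i).comp continuous_fst).sub continuous_const
  have hr2mem : ∀ p : Dl (n + 1) × I, 2 - (2 - (p.2 : ℝ)) / M p ∈ Set.Icc (0 : ℝ) 1 := by
    intro p
    have h1 := hMh p
    have h2 := hM1 p
    have h3 := hMpos p
    have h4 := p.2.2.2
    constructor
    · have : (2 - (p.2 : ℝ)) / M p ≤ 2 := by
        rw [div_le_iff₀ h3]; linarith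
      linarith
    · have : 1 ≤ (2 - (p.2 : ℝ)) / M p := by
        rw [le_div_iff₀ h3]; linarith
      linarith
  let r2 : Dl (n + 1) × I → I := fun p => ⟨_, hr2mem p⟩
  have hr2 : Continuous r2 := by
    refine Continuous.subtype_mk ?_ _
    refine continuous_const.sub (Continuous.div ?_ hMc fun p => (hMpos p).ne')
    exact continuous_const.sub (continuous_subtype_val.comp continuous_snd)
  have hcov : ∀ p, r2 p = 0 ∨ ∃ j, True ∧ (r1 p).1 j = 0 := by
    intro p
    rcases max_choice ((2 - (p.2 : ℝ)) / 2) (1 - N * m p.1) with h | h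
    · left
      apply Subtype.ext
      change 2 - (2 - (p.2 : ℝ)) / M p = 0
      have h1 : M p = (2 - (p.2 : ℝ)) / 2 := h
      have h2 : (2 - (p.2 : ℝ)) ≠ 0 := by
        have := hMpos p
        rw [h1] at this
        intro h3
        rw [h3] at this
        simp at this
      rw [h1]
      field_simp
      ring
    · right
      obtain ⟨j, hj⟩ := exists_mn p.1.1
      refine ⟨j, trivial, ?_⟩
      change 1 / N + (p.1.1 j - 1 / N) / M p = 0
      have h1 : M p = 1 - N * m p.1 := h
      have h2 : p.1.1 j = m p.1 := hj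
      have h3 := hMpos p
      rw [h1] at h3
      rw [h1, h2]
      have h4 := h3.ne'
      field_simp
      ring
  -- the glued map
  let H : Dl (n + 1) × I → Y := fun p =>
    if h : ∃ j, True ∧ (r1 p).1 j = 0 then f (⟨r1 p, h⟩, r2 p) else g (r1 p)
  have hfg : ∀ (x : Dl (n + 1)) (h : ∃ j, True ∧ x.1 j = 0), f (⟨x, h⟩, 0) = g x := by
    intro x h
    obtain ⟨j, _, hj⟩ := id h
    obtain ⟨y, hy⟩ := exists_face j hj
    subst hy
    rw [hf j trivial, h0]
  have hH1 : ∀ p, r2 p = 0 → H p = g (r1 p) := by
    intro p hp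
    by_cases h : ∃ j, True ∧ (r1 p).1 j = 0
    · simp only [H]
      rw [dif_pos h, hp]
      exact hfg _ h
    · simp only [H]
      rw [dif_neg h]
  have hH2 : ∀ p (h : ∃ j, True ∧ (r1 p).1 j = 0), H p = f (⟨r1 p, h⟩, r2 p) := by
    intro p h
    simp only [H]
    rw [dif_pos h]
  have hHc : Continuous H := by
    have hC1 : IsClosed {p | r2 p = 0} := isClosed_eq hr2 continuous_const
    have hC2 : IsClosed {p | ∃ j, True ∧ (r1 p).1 j = 0} := by
      have : {p | ∃ j, True ∧ (r1 p).1 j = 0} = r1 ⁻¹' (bdD (n + 1)) := by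
        ext p; simp [bdD]
      rw [this]
      exact (isClosed_bdD _).preimage hr1
    have hu : {p | r2 p = 0} ∪ {p | ∃ j, True ∧ (r1 p).1 j = 0} = Set.univ := by
      ext p
      simp only [Set.mem_union, Set.mem_ofPred_eq, Set.mem_univ, iff_true]
      exact hcov p
    rw [← continuousOn_univ, ← hu]
    refine ContinuousOn.union_of_isClosed ?_ ?_ hC1 hC2
    · exact ContinuousOn.congr (g.continuous.comp hr1).continuousOn hH1
    · rw [continuousOn_iff_continuous_domRestrict]
      have : ({p | ∃ j, True ∧ (r1 p).1 j = 0} : Set (Dl (n + 1) × I)).domRestrict H =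
          fun p => f (⟨r1 p.1, p.2⟩, r2 p.1) := by
        funext p
        exact hH2 p.1 p.2
      rw [this]
      exact f.continuous.comp (((hr1.comp continuous_subtype_val).subtype_mk _).prodMk
        (hr2.comp continuous_subtype_val))
  refine ⟨⟨H, hHc⟩, fun x => ?_, fun i x s => ?_⟩
  · have hM : M (x, 0) = 1 := by
      refine le_antisymm (hM1 _) ?_
      have := hMh (x, 0)
      simpa using this
    have e1 : r1 (x, 0) = x := by
      apply Subtype.ext
      funext i
      change 1 / N + (x.1 i - 1 / N) / M (x, 0) = x.1 i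
      rw [hM]; ring
    have e2 : r2 (x, 0) = 0 := by
      apply Subtype.ext
      change 2 - (2 - ((0 : I) : ℝ)) / M (x, 0) = 0
      rw [hM]
      simp
    change H (x, 0) = g x
    rw [hH1 _ e2, e1]
  · have hM : M (face i x, s) = 1 := by
      refine le_antisymm (hM1 _) ?_
      have h1 := hMg (face i x, s)
      have h2 : m (face i x) = 0 := by
        refine le_antisymm ?_ (hm0 _)
        have := mn_le (face i x).1 i
        rwa [face_self] at this
      simp only [h2, mul_zero, sub_zero] at h1
      exact h1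
    have e1 : r1 (face i x, s) = face i x := by
      apply Subtype.ext
      funext j
      change 1 / N + ((face i x).1 j - 1 / N) / M (face i x, s) = (face i x).1 j
      rw [hM]; ring
    have e2 : r2 (face i x, s) = s := by
      apply Subtype.ext
      change 2 - (2 - (s : ℝ)) / M (face i x, s) = s
      rw [hM]
      ring
    change H (face i x, s) = V i (x, s)
    have h3 : ∃ j, True ∧ (r1 (face i x, s)).1 j = 0 := ⟨i, trivial, by rw [e1, face_self]⟩
    rw [hH2 _ h3]
    have h4 := hf i trivial x s ⟨i, trivial, face_self i x⟩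
    rw [← h4]
    congr 1
    exact Prod.ext (Subtype.ext e1) e2

/-- Homotopy extension, backwards. -/
theorem hep1 {Y : Type} [TopologicalSpace Y] {n : ℕ} (g : C(Dl (n + 1), Y))
    (V : Fin (n + 2) → C(Dl n × I, Y)) (h0 : ∀ i x, V i (x, 1) = g (face i x))
    (hV : ∀ i j, i ≠ j → ∀ x y s, face i x = face j y → V i (x, s) = V j (y, s)) :
    ∃ H : C(Dl (n + 1) × I, Y), (∀ x, H (x, 1) = g x) ∧ ∀ i x s, H (face i x, s) = V i (x, s) := by
  let c : ∀ m : ℕ, C(Dl m × I, Dl m × I) := fun m =>
    ⟨fun p => (p.1, σ p.2), by fun_prop⟩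
  obtain ⟨H, h1, h2⟩ := hep0 g (fun i => (V i).comp (c n)) (fun i x => by
    change V i (x, σ 0) = _
    rw [symm_zero]
    exact h0 i x) (fun i j hij x y s h => hV i j hij x y (σ s) h)
  refine ⟨H.comp (c (n + 1)), fun x => ?_, fun i x s => ?_⟩
  · change H (x, σ 1) = _
    rw [symm_one]
    exact h1 x
  · change H (face i x, σ s) = _
    rw [h2]
    change V i (x, σ (σ s)) = _
    rw [symm_symm]

end Pool.QB
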