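import Pool.Agent.MP_c51823_gt.QB.OCHep
import Pool.Agent.MP_c51823_gt.QB.OCAlg

/-!
# [QB-O] The relation `bounds a simplex` on based simplices; cone operators
-/

set_option autoImplicit false
open Topology unitInterval

namespace Pool.QB

variable {Y : Type} [TopologicalSpace Y]

/-- Based simplices: the boundary goes to `y0`. -/
abbrev Bs (Y : Type) [TopologicalSpace Y] (n : ℕ) (y0 : Y) : Type :=
  {a : C(Dl n, Y) // ∀ x ∈ bdD n, a x = y0}

/-- the constant simplex -/
def Bs.e (n : ℕ) (y0 : Y) : Bs Y n y0 := ⟨ContinuousMap.const _ y0, fun _ _ => rfl⟩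

/-- The based simplices `x_0, …, x_{n+1}` are the faces of an `(n+1)`-simplex. -/
def RS (n : ℕ) (y0 : Y) (x : ℕ → Bs Y n y0) : Prop :=
  ∃ V : C(Dl (n + 1), Y), ∀ (i : Fin (n + 2)) (u : Dl n), V (face i u) = (x i.val).1 u

theorem face_face' {n : ℕ} {i j : Fin (n + 3)} {p q : Fin (n + 2)} (h1 : i.succAbove p = j)
    (h2 : j.succAbove q = i) (u : Dl n) : face i (face p u) = face j (face q u) := by
  have h3 : j.succAbove (p.predAbove i) = i := by
    rw [← h1]; exact Fin.succAbove_succAbove_predAbove i p
  have h4 : p.predAbove i = q := Fin.succAbove_right_injective (h3.trans h2.symm)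
  rw [face_face, h1, h4]

theorem relSys (n : ℕ) (y0 : Y) :
    OCA.RelSys (n + 1) (Bs.e (n + 1) y0) (RS (n + 1) y0) where
  congr x y h := by
    rintro ⟨V, hV⟩
    exact ⟨V, fun i u => by rw [hV, h i.val (by omega)]⟩
  fill k hk x := by
    obtain ⟨F, hF⟩ := horn (⟨k, by omega⟩ : Fin (n + 3)) (fun i => (x i.val).1) (by
      intro i j _ _ hij u v huv
      rw [(x i.val).2 u (mem_bdD_of_face_eq hij huv),
        (x j.val).2 v (mem_bdD_of_face_eq hij.symm huv.symm)])
    refine ⟨⟨F.comp (face ⟨k, by omega⟩), ?_⟩, F, ?_⟩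
    · intro w hw
      obtain ⟨p, v, rfl⟩ := (mem_bdD_iff w).1 hw
      change F (face _ (face p v)) = y0
      rw [face_face, hF _ (Fin.succAbove_ne _ _)]
      exact (x _).2 _ (face_mem_bdD _ _)
    · intro i u
      by_cases hi : i.val = k
      · subst hi
        simp [Function.update_self]
      · rw [Function.update_of_ne hi, hF i (fun h => hi (by rw [h]))]
  clos u k hk H := by
    classical
    let K : Fin (n + 4) := ⟨k, by omega⟩
    let U : ℕ → ℕ → Bs Y (n + 1) y0 := fun a b => if a < b then u a b else u b a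
    have Usym : ∀ a b, a ≠ b → U a b = U b a := by
      intro a b hab
      simp only [U]
      rcases lt_or_gt_of_ne hab with h | h
      · rw [if_pos h, if_neg (by omega)]
      · rw [if_neg (by omega), if_pos h]
    have hrow : ∀ (j : Fin (n + 4)) (i : Fin (n + 3)),
        OCA.row u j.val i.val = U (j.succAbove i).val j.val := by
      intro j i
      simp only [OCA.row, U, succAbove_val]
      split_ifs <;> first | rfl | (exfalso; omega)
    have H' : ∀ j : Fin (n + 4), j ≠ K → ∃ V : C(Dl (n + 2), Y), ∀ (i : Fin (n + 3))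
        (w : Dl (n + 1)), V (face i w) = (U (j.succAbove i).val j.val).1 w := by
      intro j hj
      obtain ⟨V, hV⟩ := H j.val (by omega) (fun h => hj (Fin.ext h))
      exact ⟨V, fun i w => by rw [hV, hrow]⟩
    have H'' : ∀ j : Fin (n + 4), ∃ V : C(Dl (n + 2), Y), j ≠ K → ∀ (i : Fin (n + 3))
        (w : Dl (n + 1)), V (face i w) = (U (j.succAbove i).val j.val).1 w := by
      intro j
      by_cases hj : j = K
      · exact ⟨ContinuousMap.const _ y0, fun h => absurd hj h⟩
      · obtain ⟨V, hV⟩ := H' j hj
        exact ⟨V, fun _ => hV⟩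
    choose W hW using H''
    obtain ⟨F, hF⟩ := horn K W (by
      intro i j hi hj hij x y hxy
      obtain ⟨p, q, w, hp, hq, rfl, rfl⟩ := face_eq_face hij hxy
      rw [hW i hi, hW j hj, hp, hq, Usym _ _ (fun h => hij (Fin.ext h.symm))])
    refine ⟨F.comp (face K), fun p w => ?_⟩
    change F (face K (face p w)) = _
    rw [face_face, hF _ (Fin.succAbove_ne _ _), hW _ (Fin.succAbove_ne _ _),
      Fin.succAbove_succAbove_predAbove]
    have := hrow K p
    change _ = (OCA.row u K.val p.val).1 w
    rw [this, Usym _ _ (fun h => Fin.succAbove_ne K p (Fin.ext h.symm))]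
  deg i hi a := by
    refine ⟨a.1.comp (sdeg ⟨i, by omega⟩), fun j w => ?_⟩
    change a.1 (sdeg _ (face j w)) = _
    by_cases h1 : j = (⟨i, by omega⟩ : Fin (n + 2)).castSucc
    · subst h1
      rw [sdeg_face_castSucc]
      simp [OCA.tri]
    · by_cases h2 : j = (⟨i, by omega⟩ : Fin (n + 2)).succ
      · subst h2
        rw [sdeg_face_succ]
        simp [OCA.tri]
      · rw [a.2 _ (sdeg_face_mem _ j h1 h2 w)]
        have h3 : j.val ≠ i := fun h => h1 (Fin.ext h)
        have h4 : j.val ≠ i + 1 := fun h => h2 (Fin.ext h)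
        have h5 : OCA.tri (Bs.e (n + 1) y0) i a a (Bs.e (n + 1) y0) j.val = Bs.e (n + 1) y0 := by
          simp only [OCA.tri]
          split_ifs <;> first | rfl | (exfalso; omega)
        rw [h5]
        rfl

/-! ## Cone operators -/

/-- the faces of the cone on `g` -/
noncomputable def Lo (y0 : Y) (K : ∀ j, C(Dl j, Y) → C(Dl (j + 1), Y)) :
    ∀ j, C(Dl j, Y) → Fin (j + 1) → C(Dl j, Y)
  | 0, _, _ => ContinuousMap.const _ y0
  | j + 1, g, i => K j (g.comp (face i))

/-- `K` is a cone operator in dimension `j`. -/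
def IsCone (y0 : Y) (K : ∀ j, C(Dl j, Y) → C(Dl (j + 1), Y)) (j : ℕ) : Prop :=
  (∀ g x, K j g (face (Fin.last (j + 1)) x) = g x) ∧
    ∀ g (i : Fin (j + 1)) x, K j g (face i.castSucc x) = Lo y0 K j g i x

theorem exists_extend_bd {t : ℕ} (hY : Conn Y t) {k : ℕ} (hk : k < t)
    (V : Fin (k + 2) → C(Dl k, Y))
    (hV : ∀ i j, i ≠ j → ∀ x y, face i x = face j y → V i x = V j y) :
    ∃ F : C(Dl (k + 1), Y), ∀ i x, F (face i x) = V i x := by
  obtain ⟨f, hf⟩ := glue_faces (Y := Y) (Z := Unit) (fun _ => True)
    (fun i => (V i).comp ⟨Prod.fst, continuous_fst⟩)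
    (fun i j _ _ hij x y _ h => hV i j hij x y h)
  let f' : C(bdD (k + 1), Y) := ⟨fun x => f (⟨x.1, by
    obtain ⟨j, hj⟩ := x.2; exact ⟨j, trivial, hj⟩⟩, ()), by
      refine f.continuous.comp (Continuous.prodMk ?_ continuous_const)
      exact continuous_subtype_val.subtype_mk _⟩
  obtain ⟨F, hF⟩ := hY.2 k hk f'
  refine ⟨F, fun i x => ?_⟩
  have h1 := hF ⟨face i x, face_mem_bdD i x⟩
  rw [h1]
  exact hf i trivial x () _

theorem lo_compat (y0 : Y) (K : ∀ j, C(Dl j, Y) → C(Dl (j + 1), Y)) (k : ℕ)
    (g : C(Dl (k + 1), Y)) (i j : Fin (k + 2)) (p q : Fin (k + 1)) (h1 : i.succAbove p = j)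
    (h2 : j.succAbove q = i) :
    Lo y0 K k (g.comp (face i)) p = Lo y0 K k (g.comp (face j)) q := by
  match k with
  | 0 => rfl
  | k + 1 =>
    simp only [Lo]
    congr 1
    ext u
    simp only [ContinuousMap.comp_apply]
    rw [face_face' h1 h2]

theorem exists_cones {t : ℕ} (hY : Conn Y t) (y0 : Y) : ∀ k ≤ t,
    ∃ K : ∀ j, C(Dl j, Y) → C(Dl (j + 1), Y), ∀ j < k, IsCone y0 K j := by
  intro k
  induction k with
  | zero =>
    intro _
    exact ⟨fun j _ => ContinuousMap.const _ y0, fun j hj => absurd hj (Nat.not_lt_zero j)⟩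
  | succ k ih =>
    intro hk
    obtain ⟨K, hK⟩ := ih (by omega)
    have key : ∀ g : C(Dl k, Y), ∃ F : C(Dl (k + 1), Y),
        (∀ x, F (face (Fin.last (k + 1)) x) = g x) ∧
        ∀ (i : Fin (k + 1)) x, F (face i.castSucc x) = Lo y0 K k g i x := by
      intro g
      let V : Fin (k + 2) → C(Dl k, Y) := fun i => Fin.lastCases g (fun i => Lo y0 K k g i) i
      have Vl : V (Fin.last (k + 1)) = g := by simp [V]
      have Vc : ∀ i : Fin (k + 1), V i.castSucc = Lo y0 K k g i := fun i => by simp [V]
      -- compatibility of a cone face with the last face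
      have cl : ∀ (i : Fin (k + 1)) x y, face i.castSucc x = face (Fin.last (k + 1)) y →
          Lo y0 K k g i x = g y := by
        intro i x y hxy
        have hne : i.castSucc ≠ Fin.last (k + 1) := (Fin.castSucc_lt_last i).ne
        match k, g, i, x, y, hxy, hne, hK with
        | 0, g, i, x, y, hxy, hne, hK =>
          exact absurd (mem_bdD_of_face_eq hne hxy) (bdD_zero _)
        | k + 1, g, i, x, y, hxy, hne, hK =>
          obtain ⟨p, q, u, hp, hq, rfl, rfl⟩ := face_eq_face hne hxy
          have hq' : q = i := by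
            rw [Fin.succAbove_last] at hq
            exact Fin.castSucc_injective _ hq
          have hp' : p = Fin.last (k + 1) := by
            by_contra hpn
            obtain ⟨p', rfl⟩ := Fin.exists_castSucc_eq.2 hpn
            rw [Fin.castSucc_succAbove_castSucc] at hp
            exact (Fin.castSucc_lt_last _).ne hp
          subst hq' hp'
          simp only [Lo]
          rw [(hK k (by omega)).1]
          rfl
      have hV : ∀ i j, i ≠ j → ∀ x y, face i x = face j y → V i x = V j y := by
        intro i j hij x y hxy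
        refine Fin.lastCases ?_ (fun i => ?_) i (motive := fun i => i ≠ j → face i x = face j y →
          V i x = V j y) hij hxy
        · intro hij hxy
          obtain ⟨j, rfl⟩ := Fin.exists_castSucc_eq.2 hij.symm
          rw [Vl, Vc]
          exact (cl j y x hxy.symm).symm
        · intro hij hxy
          refine Fin.lastCases ?_ (fun j => ?_) j (motive := fun j => i.castSucc ≠ j →
            face i.castSucc x = face j y → V i.castSucc x = V j y) hij hxy
          · intro _ hxy
            rw [Vl, Vc]
            exact cl i x y hxy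
          · intro hij hxy
            rw [Vc, Vc]
            match k, g, i, j, x, y, hij, hxy, hK with
            | 0, g, i, j, x, y, hij, hxy, hK =>
              exact absurd (mem_bdD_of_face_eq hij hxy) (bdD_zero _)
            | k + 1, g, i, j, x, y, hij, hxy, hK =>
              obtain ⟨p, q, u, hp, hq, rfl, rfl⟩ := face_eq_face hij hxy
              have hpn : p ≠ Fin.last (k + 1) := by
                rintro rfl
                rw [Fin.succAbove_of_le_castSucc _ _ (by
                  rw [Fin.castSucc_le_castSucc_iff]; exact Fin.le_last _)] at hp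
                exact (Fin.castSucc_lt_last j).ne hp.symm
              have hqn : q ≠ Fin.last (k + 1) := by
                rintro rfl
                rw [Fin.succAbove_of_le_castSucc _ _ (by
                  rw [Fin.castSucc_le_castSucc_iff]; exact Fin.le_last _)] at hq
                exact (Fin.castSucc_lt_last i).ne hq.symm
              obtain ⟨p', rfl⟩ := Fin.exists_castSucc_eq.2 hpn
              obtain ⟨q', rfl⟩ := Fin.exists_castSucc_eq.2 hqn
              rw [Fin.castSucc_succAbove_castSucc] at hp hq
              have hp2 := Fin.castSucc_injective _ hp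
              have hq2 := Fin.castSucc_injective _ hq
              simp only [Lo]
              rw [(hK k (by omega)).2, (hK k (by omega)).2]
              rw [lo_compat y0 K k g i j p' q' hp2 hq2]
      obtain ⟨F, hF⟩ := exists_extend_bd hY (show k < t by omega) V hV
      exact ⟨F, fun x => by rw [hF, Vl], fun i x => by rw [hF, Vc]⟩
    choose N hN1 hN2 using key
    let K' : ∀ j, C(Dl j, Y) → C(Dl (j + 1), Y) := Function.update K k N
    have hlo : ∀ j ≤ k, Lo y0 K' j = Lo y0 K j := by
      intro j hj
      match j with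
      | 0 => rfl
      | j + 1 =>
        funext g i
        simp only [Lo]
        have : K' j = K j := Function.update_of_ne (by omega) _ _
        rw [this]
    refine ⟨K', fun j hj => ?_⟩
    rcases Nat.lt_succ_iff_lt_or_eq.1 hj with h | rfl
    · have h1 : K' j = K j := Function.update_of_ne (by omega) _ _
      refine ⟨?_, ?_⟩
      · rw [h1]; exact (hK j h).1
      · rw [h1, hlo j (by omega)]; exact (hK j h).2
    · have h1 : K' j = N := Function.update_self _ _ _
      refine ⟨?_, ?_⟩
      · rw [h1]; exact hN1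
      · rw [h1, hlo j le_rfl]; exact hN2

end Pool.QB
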