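import Pool.Agent.MP_c51823_gt.QB.PDef
import Pool.Agent.MP_c51823_gt.QB.JDef2

/-!
# [QB] `Fh`, `PhiV`: definitions (5.5)
-/

set_option autoImplicit false
open Topology

namespace Pool.QB

/-- the test function `F` in the coordinates `u ∈ |Δ^3|`, extended by `0` to the boundary -/
noncomputable def Fh (F : FFn) (u : Fin 4 → ℝ) : ℝ :=
  if ∀ i, 0 < u i then
    F.F (u 0, ((u 1 - u 3 : ℝ) + (u 2 - u 3 : ℝ) * Complex.I) /
      ((min (min (u 1) (u 2)) (u 3) : ℝ) : ℂ))
  else 0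

/-- The value `Φ_y(x)`, as an explicit element of `VV` (`M` larger than all vertices). -/
noncomputable def PhiV (y : Coch 4 ℤ) (M : ℕ) (x : ℕ → ℝ) : VV :=
  (fun h => (Finset.range (M + 1)).sup' ⟨0, by simp⟩ (fun v => h (XX x v)),
   fun F => ∑ p ∈ ctri (fsupp x), (xi y (fsupp x) p : ℝ) * Fh F (ub x p))

end Pool.QB
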