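import Pool.Agent.MP_c51823_gt.QB.P5Def

/-!
# [QB-P5a] Near `u₀ = 0` or `u₀ = 1` use `sup_z |F(s,z)| → 0` as `s → 0, 1` (compactness + decay); if
`min(u₁,u₂,u₃) → 0` and `u₀` stays away from `1` the argument `z` tends to infinity.
-/

set_option autoImplicit false
open Topology

namespace Pool.QB

theorem P5a_small (F : FFn) (s₀ : ℝ) (h0 : ∀ z, F.F (s₀, z) = 0) {ε : ℝ} (hε : 0 < ε) :
    ∀ᶠ s in 𝓝 s₀, s ∈ Set.Icc (0 : ℝ) 1 → ∀ z : ℂ, |F.F (s, z)| < ε := by
  obtain ⟨R, hR⟩ := F.dec ε hε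
  have hK : IsCompact (Metric.closedBall (0 : ℂ) R) := isCompact_closedBall 0 R
  have h1 : ∀ z ∈ Metric.closedBall (0 : ℂ) R, ∀ᶠ p : ℝ × ℂ in 𝓝 (s₀, z), |F.F (p.1, p.2)| < ε := by
    intro z _
    have hc : Continuous fun p : ℝ × ℂ => |F.F (p.1, p.2)| := by
      have := F.F.continuous
      fun_prop
    have h2 := hc.tendsto (s₀, z)
    simp only [h0, abs_zero] at h2
    exact h2.eventually_lt_const hε
  have h2 : ∀ᶠ s in 𝓝 s₀, ∀ z ∈ Metric.closedBall (0 : ℂ) R, |F.F (s, z)| < ε :=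
    hK.eventually_forall_of_forall_eventually (P := fun s z => |F.F (s, z)| < ε) h1
  filter_upwards [h2] with s hs hs1 z
  by_cases hz : ‖z‖ ≤ R
  · exact hs z (by simpa using hz)
  · exact hR s hs1 z (not_le.1 hz)

/-- [QB-P5a] -/
theorem continuousOn_Fh (F : FFn) :
    ContinuousOn (Fh F) {u : Fin 4 → ℝ | (∀ i, 0 ≤ u i) ∧ ∑ i, u i = 1} := by
  intro u₀ hu₀
  obtain ⟨hpos, hsum⟩ := hu₀
  have hcm : Continuous fun u : Fin 4 → ℝ => min (min (u 1) (u 2)) (u 3) := by fun_prop
  have hcw : Continuous fun u : Fin 4 → ℝ =>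
      ((u 1 - u 3 : ℝ) + (u 2 - u 3 : ℝ) * Complex.I : ℂ) := by fun_prop
  by_cases hall : ∀ i, 0 < u₀ i
  · -- interior point
    have hm0 : 0 < min (min (u₀ 1) (u₀ 2)) (u₀ 3) := by
      simp only [lt_min_iff]
      exact ⟨⟨hall 1, hall 2⟩, hall 3⟩
    have hev : ∀ᶠ u : Fin 4 → ℝ in 𝓝 u₀, ∀ i, 0 < u i := by
      rw [Filter.eventually_all]
      intro i
      exact ((continuous_apply i).tendsto u₀).eventually_const_lt (hall i)
    have hcont : ContinuousAt (fun u : Fin 4 → ℝ => F.F (u 0, ((u 1 - u 3 : ℝ) +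
        (u 2 - u 3 : ℝ) * Complex.I) / ((min (min (u 1) (u 2)) (u 3) : ℝ) : ℂ))) u₀ := by
      have h1 : ContinuousAt (fun u : Fin 4 → ℝ => (u 0, ((u 1 - u 3 : ℝ) +
          (u 2 - u 3 : ℝ) * Complex.I) / ((min (min (u 1) (u 2)) (u 3) : ℝ) : ℂ))) u₀ := by
        refine ContinuousAt.prodMk (continuous_apply 0).continuousAt ?_
        refine ContinuousAt.div₀ hcw.continuousAt ?_ ?_
        · exact (Complex.continuous_ofReal.comp hcm).continuousAt
        · exact_mod_cast hm0.ne'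
      exact F.F.continuous.continuousAt.comp h1
    refine ContinuousAt.continuousWithinAt (hcont.congr ?_)
    filter_upwards [hev] with u hu
    simp only [Fh]
    rw [if_pos hu]
  · -- boundary point
    have hF0 : Fh F u₀ = 0 := by
      simp only [Fh]
      rw [if_neg hall]
    rw [ContinuousWithinAt, hF0, Metric.tendsto_nhds]
    intro ε hε
    simp only [Real.dist_eq, sub_zero]
    have hbd : ∀ᶠ u : Fin 4 → ℝ in 𝓝[{u : Fin 4 → ℝ | (∀ i, 0 ≤ u i) ∧ ∑ i, u i = 1}] u₀,
        u 0 ∈ Set.Icc (0 : ℝ) 1 := by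
      filter_upwards [self_mem_nhdsWithin] with u hu
      refine ⟨hu.1 0, ?_⟩
      have h3 := hu.2
      rw [Fin.sum_univ_four] at h3
      have := hu.1 1
      have := hu.1 2
      have := hu.1 3
      linarith
    -- reduction: it is enough to treat positive u
    suffices hmain : ∀ᶠ u : Fin 4 → ℝ in 𝓝[{u : Fin 4 → ℝ | (∀ i, 0 ≤ u i) ∧ ∑ i, u i = 1}] u₀,
        (∀ i, 0 < u i) → |F.F (u 0, ((u 1 - u 3 : ℝ) + (u 2 - u 3 : ℝ) * Complex.I) /
          ((min (min (u 1) (u 2)) (u 3) : ℝ) : ℂ))| < ε by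
      filter_upwards [hmain] with u hu
      by_cases hp : ∀ i, 0 < u i
      · have h4 := hu hp
        simp only [Fh]
        rw [if_pos hp]
        exact h4
      · simp only [Fh]
        rw [if_neg hp, abs_zero]
        exact hε
    by_cases hend : u₀ 0 = 0 ∨ u₀ 0 = 1
    · have hz : ∀ z, F.F (u₀ 0, z) = 0 := by
        intro z
        rcases hend with h | h
        · rw [h]; exact F.zero z
        · rw [h]; exact F.one z
      have h5 := (P5a_small F (u₀ 0) hz hε)
      have h6 : Filter.Tendsto (fun u : Fin 4 → ℝ => u 0)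
          (𝓝[{u : Fin 4 → ℝ | (∀ i, 0 ≤ u i) ∧ ∑ i, u i = 1}] u₀) (𝓝 (u₀ 0)) :=
        (continuous_apply 0).continuousAt.tendsto.mono_left nhdsWithin_le_nhds
      filter_upwards [h6.eventually h5, hbd] with u hu hub _
      exact hu hub _
    · push Not at hend
      -- 0 < u₀ 0 < 1 and min (u₁, u₂, u₃) = 0
      have hm0 : min (min (u₀ 1) (u₀ 2)) (u₀ 3) = 0 := by
        by_contra hne
        apply hall
        have h7 : 0 < min (min (u₀ 1) (u₀ 2)) (u₀ 3) := by
          refine lt_of_le_of_ne ?_ (Ne.symm hne)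
          simp only [le_min_iff]
          exact ⟨⟨hpos 1, hpos 2⟩, hpos 3⟩
        simp only [lt_min_iff] at h7
        intro i
        fin_cases i
        · exact lt_of_le_of_ne (hpos 0) (Ne.symm hend.1)
        · exact h7.1.1
        · exact h7.1.2
        · exact h7.2
      have hw0 : ((u₀ 1 - u₀ 3 : ℝ) + (u₀ 2 - u₀ 3 : ℝ) * Complex.I : ℂ) ≠ 0 := by
        intro h
        have hre : u₀ 1 - u₀ 3 = 0 := by
          have := congrArg Complex.re h
          simpa using this
        have him : u₀ 2 - u₀ 3 = 0 := by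
          have := congrArg Complex.im h
          simpa using this
        have h8 : u₀ 1 = u₀ 3 := by linarith
        have h9 : u₀ 2 = u₀ 3 := by linarith
        rw [h8, h9] at hm0
        simp only [min_self] at hm0
        rw [Fin.sum_univ_four, h8, h9, hm0] at hsum
        apply hend.2
        linarith
      obtain ⟨R, hR⟩ := F.dec ε hε
      set c : ℝ := ‖((u₀ 1 - u₀ 3 : ℝ) + (u₀ 2 - u₀ 3 : ℝ) * Complex.I : ℂ)‖ with hc
      have hcpos : 0 < c := norm_pos_iff.2 hw0
      have hw1 : ∀ᶠ u : Fin 4 → ℝ in 𝓝 u₀,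
          c / 2 < ‖((u 1 - u 3 : ℝ) + (u 2 - u 3 : ℝ) * Complex.I : ℂ)‖ := by
        have h10 := (hcw.norm).tendsto u₀
        refine h10.eventually_const_lt ?_
        change c / 2 < c
        linarith
      have hm1 : ∀ᶠ u : Fin 4 → ℝ in 𝓝 u₀,
          min (min (u 1) (u 2)) (u 3) < c / 2 / (|R| + 1) := by
        have h11 := hcm.tendsto u₀
        refine h11.eventually_lt_const ?_
        rw [hm0]
        positivity
      filter_upwards [hbd, nhdsWithin_le_nhds hw1, nhdsWithin_le_nhds hm1] with u hub huw hum hp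
      refine hR _ hub _ ?_
      have hmp : 0 < min (min (u 1) (u 2)) (u 3) := by
        simp only [lt_min_iff]
        exact ⟨⟨hp 1, hp 2⟩, hp 3⟩
      rw [norm_div, Complex.norm_real, Real.norm_of_nonneg hmp.le, lt_div_iff₀ hmp]
      have hR1 : 0 < |R| + 1 := by positivity
      have h12 : min (min (u 1) (u 2)) (u 3) * (|R| + 1) < c / 2 := by
        rwa [lt_div_iff₀ hR1] at hum
      have h13 : R * min (min (u 1) (u 2)) (u 3) ≤ (|R| + 1) * min (min (u 1) (u 2)) (u 3) := by
        apply mul_le_mul_of_nonneg_right _ hmp.le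
        have := le_abs_self R
        linarith
      calc R * min (min (u 1) (u 2)) (u 3) ≤ (|R| + 1) * min (min (u 1) (u 2)) (u 3) := h13
        _ < c / 2 := by rw [mul_comm]; exact h12
        _ < _ := huw

end Pool.QB
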