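import Pool.Agent.MP_c51823_gt.QB.P5a
import Pool.Agent.MP_c51823_gt.QB.P4a
import Pool.Agent.MP_c51823_gt.QB.P4b

/-!
# [QB-P5b] On each closed simplex `|τ|` the formula with `τ` in place of `fsupp x` is continuous (P5a) and
equal to the one with `fsupp x` (regrouping lemma with `Θ = Fh F`); finite closed cover.
-/

set_option autoImplicit false
open Topology

namespace Pool.QB

namespace P5b_aux

theorem continuous_XX (a : ℕ) : Continuous fun x : ℕ → ℝ => XX x a := by
  unfold XX
  exact continuous_finsetSum _ fun i _ => continuous_apply i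

theorem continuous_ub (p : ℕ × ℕ × ℕ) : Continuous fun x : ℕ → ℝ => ub x p := by
  refine continuous_pi fun i => ?_
  have h1 := continuous_XX p.1
  have h2 := continuous_XX p.2.1
  have h3 := continuous_XX p.2.2
  fin_cases i
  · exact h1
  · exact h2.sub h1
  · exact h3.sub h2
  · exact continuous_const.sub h3

theorem isClosed_simp (τ : Finset ℕ) : IsClosed (simp τ) := (isCompact_simp τ).isClosed

theorem sum_eq (A : Cx) (y : Coch 4 ℤ) (hy : NCoc A y) (F : FFn) (τ : Finset ℕ) (hτ : τ ∈ A.S)
    (x : ℕ → ℝ) (hx : x ∈ simp τ) :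
    ∑ p ∈ ctri (fsupp x), (xi y (fsupp x) p : ℝ) * Fh F (ub x p) =
      ∑ p ∈ ctri τ, (xi y τ p : ℝ) * Fh F (ub x p) := by
  have hsub : fsupp x ⊆ τ := fsupp_subset_of_simp hx
  have hne : (fsupp x).Nonempty := fsupp_nonempty hx
  have hxr : x ∈ A.real := simp_subset_real A hτ hx
  have h := regroup A y hy τ (fsupp x) hτ hsub hne x (mem_simp_fsupp A hxr)
    (r := 0) (fun j => j.elim0) (fun j => j.elim0) (M := ℝ) (fun u _ => Fh F u) (by
      rintro u _ ⟨i, hi⟩
      unfold Fh
      rw [if_neg]
      intro hpos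
      exact absurd (hpos i) (by rw [hi]; exact lt_irrefl _))
  simp only [zsmul_eq_mul] at h
  exact h.symm

end P5b_aux

open P5b_aux

/-- [QB-P5b] `Φ_y` is continuous on `|A|` (regrouping on each closed simplex). -/
theorem continuous_PhiV (A : Cx) (y : Coch 4 ℤ) (hy : NCoc A y) (M : ℕ)
    (hM : ∀ τ ∈ A.S, ∀ v ∈ τ, v < M) : Continuous fun x : A.real => PhiV y M x.1 := by
  refine Continuous.prodMk ?_ ?_
  · refine continuous_pi fun h => ?_
    refine Continuous.finset_sup'_apply _ fun v _ => ?_
    exact h.continuous.comp ((continuous_XX v).comp continuous_subtype_val)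
  · refine continuous_pi fun F => ?_
    refine (locallyFinite_of_finite (fun τ : {τ // τ ∈ A.S} =>
      {x : A.real | x.1 ∈ simp τ.1})).continuous ?_ ?_ ?_
    · rw [Set.eq_univ_iff_forall]
      intro x
      obtain ⟨τ, hτ, hx⟩ := x.2
      exact Set.mem_iUnion.2 ⟨⟨τ, hτ⟩, hx⟩
    · intro τ
      exact (isClosed_simp τ.1).preimage continuous_subtype_val
    · rintro ⟨τ, hτ⟩
      have hc : ContinuousOn (fun x : A.real =>
          ∑ p ∈ ctri τ, (xi y τ p : ℝ) * Fh F (ub x.1 p)) {x : A.real | x.1 ∈ simp τ} := by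
        refine continuousOn_finsetSum _ fun p hp => continuousOn_const.mul ?_
        refine (continuousOn_Fh F).comp
          ((continuous_ub p).comp continuous_subtype_val).continuousOn fun x hx => ?_
        obtain ⟨h1, h2⟩ := (Finset.mem_filter.1 hp).2
        exact ub_mem hx h1 h2
      exact hc.congr fun x hx => sum_eq A y hy F τ hτ x.1 hx

end Pool.QB
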