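import Pool.Agent.MP_c51823_gt.QB.Core

/-!
# [QB] Section 5: definitions
-/

set_option autoImplicit false
open Topology

namespace Pool.QB

/-! ## The cocycle `ι` on `∂Δ^4` -/

/-- `ι(b₀,…,b₃)` = sign if `(b₀,…,b₃)` is a permutation of `0,1,2,3`, else `0`. -/
def iota (b : Fin 4 → Fin 5) : ℤ :=
  if ∃ i, b i = 4 then 0
  else Int.sign ((b 1 : ℤ) - (b 0 : ℤ)) * Int.sign ((b 2 : ℤ) - (b 0 : ℤ)) *
    Int.sign ((b 3 : ℤ) - (b 0 : ℤ)) * Int.sign ((b 2 : ℤ) - (b 1 : ℤ)) *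
    Int.sign ((b 3 : ℤ) - (b 1 : ℤ)) * Int.sign ((b 3 : ℤ) - (b 2 : ℤ))

/-- the prism tuples: `(β₀ w₀, …, β₀ w_j, β₁ w_j, …, β₁ w₂)` -/
def prismT {X : Type} (β₀ β₁ : Fin 3 → X) (j : Fin 3) : Fin 4 → X := fun i =>
  if h : (i : ℕ) ≤ j then β₀ ⟨i, by omega⟩ else β₁ ⟨i - 1, by omega⟩

/-- the prism sum -/
def prism (β₀ β₁ : Fin 3 → Fin 5) : ℤ :=
  ∑ j : Fin 3, (-1 : ℤ) ^ (j : ℕ) * iota (prismT β₀ β₁ j)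

/-- normalised cocycles -/
structure NCoc (A : Cx) (y : Coch 4 ℤ) : Prop where
  coc : IsCocyc A y
  nor : ∀ v : Fin 4 → ℕ, adm A v → ¬ StrictMono v → y v = 0

/-- `N(a₁,a₂; b₁,b₂; c₁,c₂)` of 5.2 -/
def NN (y : Coch 4 ℤ) (a₁ a₂ b₁ b₂ c₁ c₂ : ℕ) : ℤ :=
  y ![a₁, a₂, b₂, c₂] - y ![a₁, a₂, b₂, c₁] - y ![a₁, a₂, b₁, c₂] + y ![a₁, a₂, b₁, c₁]

/-- predecessor of `a` in `τ` -/
def prd (τ : Finset ℕ) (a : ℕ) : ℕ := (τ.filter (· < a)).sup id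

/-- cuts of `τ`: all elements except the minimum -/
def cuts (τ : Finset ℕ) : Finset ℕ := τ.filter fun a => ∃ b ∈ τ, b < a

/-- cut triples `a < b < c` -/
def ctri (τ : Finset ℕ) : Finset (ℕ × ℕ × ℕ) :=
  (cuts τ ×ˢ cuts τ ×ˢ cuts τ).filter fun p => p.1 < p.2.1 ∧ p.2.1 < p.2.2

/-- `ξ^τ(a,b,c)` -/
def xi (y : Coch 4 ℤ) (τ : Finset ℕ) (p : ℕ × ℕ × ℕ) : ℤ :=
  NN y (prd τ p.1) p.1 (prd τ p.2.1) p.2.1 (prd τ p.2.2) p.2.2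

/-- the universal positive cocycle -/
def zz : Coch 4 ℤ := fun v => ((v 1 : ℤ) - v 0) * ((v 2 : ℤ) - v 1) * ((v 3 : ℤ) - v 2)

/-- its primitive -/
def ww : Coch 3 ℤ := fun v => (v 0 : ℤ) * ((v 1 : ℤ) - v 0) * ((v 2 : ℤ) - v 1)

/-! ## Block masses and regrouping -/

/-- `X(a) = ∑_{v < a} x_v` -/
def XX (x : ℕ → ℝ) (a : ℕ) : ℝ := ∑ v ∈ Finset.range a, x v

/-- block masses -/
def ub (x : ℕ → ℝ) (p : ℕ × ℕ × ℕ) : Fin 4 → ℝ :=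
  ![XX x p.1, XX x p.2.1 - XX x p.1, XX x p.2.2 - XX x p.2.1, 1 - XX x p.2.2]

/-- block index, with values in `{0,1,2,3} ⊆ Fin 5` -/
def bl (p : ℕ × ℕ × ℕ) (v : ℕ) : Fin 5 :=
  if v < p.1 then 0 else if v < p.2.1 then 1 else if v < p.2.2 then 2 else 3

end Pool.QB
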