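import Pool.Agent.MP_c51823_gt.QB.Core

/-!
# [QB-R0] Refinements: identity and composition
-/

set_option autoImplicit false
open Topology

namespace Pool.QB

variable {h : HT} {u : h.H 0 (absP S4)}

/-- [QB-R0a] identity refinement -/
def Refine.id (S : Stage h u) : Refine S S where
  toRefData := RefData.id S.K
  π := ContinuousMap.id _
  f_eq _ := rfl
  κ_car _ := Finset.Subset.refl _

/-- the support of a point of `|K|` is a simplex of `K` -/
private theorem R0_fsupp_mem {K : Cx} {x : ℕ → ℝ} (hx : x ∈ K.real) : fsupp x ∈ K.S := by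
  obtain ⟨s, hs, h0, h1, h2⟩ := hx
  have hsub : Function.support x ⊆ (s : Set ℕ) := by
    intro i hi
    by_contra hn
    exact hi (h1 i hn)
  have hfin : (Function.support x).Finite := s.finite_toSet.subset hsub
  have hf : fsupp x = hfin.toFinset := by
    unfold fsupp
    rw [dif_pos hfin]
  rw [hf]
  refine K.down s hs _ ?_ ?_
  · intro i hi
    exact hsub (hfin.mem_toFinset.1 hi)
  · by_contra hne
    have hz : ∀ i ∈ s, x i = 0 := by
      intro i _
      by_contra hxi
      exact hne ⟨i, hfin.mem_toFinset.2 hxi⟩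
    rw [Finset.sum_eq_zero hz] at h2
    exact zero_ne_one h2

/-- [QB-R0b] Composition of refinements. -/
theorem exists_comp {S'' S' S : Stage h u} (a : Refine S' S) (b : Refine S'' S') :
    ∃ c : Refine S'' S, c.toRefData = a.toRefData.comp b.toRefData ∧
      ∀ x, c.π x = a.π (b.π x) := by
  refine ⟨{ toRefData := a.toRefData.comp b.toRefData
            π := a.π.comp b.π
            f_eq := fun x => ?_
            κ_car := fun x => ?_ }, rfl, fun x => rfl⟩
  · rw [b.f_eq, a.f_eq]
    rfl
  · have h1 : b.car (fsupp (S''.κ x).1) ∈ S'.K.S := b.car_mem _ (R0_fsupp_mem (S''.κ x).2)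
    have h2 : fsupp (S'.κ (b.π x)).1 ∈ S'.K.S := R0_fsupp_mem (S'.κ (b.π x)).2
    exact (a.car_mono _ h2 _ (b.κ_car x) (S'.K.ne _ h1)).trans (a.κ_car (b.π x))

/-- [QB-R0c] -/
theorem pull_comp {K'' K' K : Cx} (a : RefData K' K) (b : RefData K'' K') (A : Cx) :
    (a.comp b).pull A = b.pull (a.pull A) := by
  ext s
  constructor
  · intro hs
    obtain ⟨h1, h2⟩ := Finset.mem_filter.1 hs
    exact Finset.mem_filter.2 ⟨h1, Finset.mem_filter.2 ⟨b.car_mem s h1, h2⟩⟩
  · intro hs
    obtain ⟨h1, h2⟩ := Finset.mem_filter.1 hs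
    exact Finset.mem_filter.2 ⟨h1, (Finset.mem_filter.1 h2).2⟩

end Pool.QB
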