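import Pool.Agent.MP_c51823_gt.QB.R0

/-!
# [QB-R1] Proof: QB_PROOF.md (7.1).
-/

set_option autoImplicit false
open Topology

namespace Pool.QB

variable {h : HT} {u : h.H 0 (absP S4)}

namespace R1_aux

theorem adm_face {K : Cx} {n : ℕ} (hn : 1 ≤ n) {v : Fin (n + 1) → ℕ} (hv : adm K v)
    (i : Fin (n + 1)) : adm K (fun j => v (i.succAbove j)) := by
  refine ⟨hv.1.comp (Fin.strictMono_succAbove i).monotone, K.down _ hv.2 _ ?_ ?_⟩
  · intro a ha
    obtain ⟨j, -, rfl⟩ := Finset.mem_image.1 ha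
    exact Finset.mem_image.2 ⟨_, Finset.mem_univ _, rfl⟩
  · exact ⟨_, Finset.mem_image.2 ⟨⟨0, hn⟩, Finset.mem_univ _, rfl⟩⟩

theorem adm_phi {K' K A : Cx} (r : RefData K' K) {n : ℕ} {v : Fin n → ℕ} (hv : adm (r.pull A) v) :
    adm A (r.φ ∘ v) := by
  obtain ⟨h1, h2⟩ := Finset.mem_filter.1 hv.2
  have hne : (Finset.univ.image v).Nonempty := K'.ne _ h1
  refine ⟨r.mono.comp hv.1, A.down _ h2 _ ?_ ?_⟩
  · rw [← Finset.image_image]
    exact r.φ_sub _ h1
  · rw [← Finset.image_image]
    exact hne.image _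

theorem adm_mono {K L : Cx} (hKL : K.S ⊆ L.S) {n : ℕ} {v : Fin n → ℕ} (hv : adm K v) :
    adm L v := ⟨hv.1, hKL hv.2⟩

theorem pull_sub {K' K A B : Cx} (r : RefData K' K) (hAB : A.S ⊆ B.S) :
    (r.pull A).S ⊆ (r.pull B).S := by
  intro s hs
  obtain ⟨h1, h2⟩ := Finset.mem_filter.1 hs
  exact Finset.mem_filter.2 ⟨h1, hAB h2⟩

theorem cons_succ_succAbove {n : ℕ} (m : ℕ) (v : Fin (n + 1) → ℕ) (i : Fin (n + 1)) :
    (fun j => (Fin.cons m v : Fin (n + 2) → ℕ) (i.succ.succAbove j)) =
      (Fin.cons m (fun j => v (i.succAbove j)) : Fin (n + 1) → ℕ) := by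
  funext j
  refine Fin.cases ?_ (fun j => ?_) j
  · simp
  · simp

/-- the cone construction -/
theorem dd_cone {P : Type} [AddCommGroup P] {n : ℕ} (z : Coch (n + 1) P) (m : ℕ)
    (v : Fin (n + 1) → ℕ) :
    dd z (Fin.cons m v : Fin (n + 2) → ℕ) = z v - dd (fun v => z (Fin.cons m v)) v := by
  unfold dd
  rw [Fin.sum_univ_succ, sub_eq_add_neg, ← Finset.sum_neg_distrib]
  congr 1
  · simp
  · refine Finset.sum_congr rfl fun i _ => ?_
    rw [cons_succ_succAbove, Fin.val_succ, pow_succ, mul_neg_one, neg_smul]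

theorem dd_sub {P : Type} [AddCommGroup P] {n : ℕ} (a b : Coch n P) (v : Fin (n + 1) → ℕ) :
    dd (fun v => a v - b v) v = dd a v - dd b v := by
  unfold dd
  rw [← Finset.sum_sub_distrib]
  exact Finset.sum_congr rfl fun i _ => smul_sub _ _ _

theorem dd_add {P : Type} [AddCommGroup P] {n : ℕ} (a b : Coch n P) (v : Fin (n + 1) → ℕ) :
    dd (fun v => a v + b v) v = dd a v + dd b v := by
  unfold dd
  rw [← Finset.sum_add_distrib]
  exact Finset.sum_congr rfl fun i _ => smul_add _ _ _

theorem dd_congr {P : Type} [AddCommGroup P] {n : ℕ} {a b : Coch n P} {v : Fin (n + 1) → ℕ}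
    (hab : ∀ i : Fin (n + 1), a (fun j => v (i.succAbove j)) = b (fun j => v (i.succAbove j))) :
    dd a v = dd b v := by
  unfold dd
  exact Finset.sum_congr rfl fun i _ => by rw [hab]

/-- removing a maximal simplex outside `B` -/
theorem exists_erase {T B : Cx} (hBT : B.S ⊆ T.S) (hne : T.S ≠ B.S) :
    ∃ (s : Finset ℕ) (T₀ : Cx), s ∈ T.S ∧ s ∉ B.S ∧ T₀.S = T.S.erase s ∧
      B.S ⊆ T₀.S ∧ (Cx.bd s).S ⊆ T₀.S := by
  have h1 : (T.S \ B.S).Nonempty := by
    rw [Finset.sdiff_nonempty]
    exact fun h => hne (Finset.Subset.antisymm h hBT)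
  obtain ⟨s, hs, hmax⟩ := Finset.exists_max_image (T.S \ B.S) Finset.card h1
  obtain ⟨hsT, hsB⟩ := Finset.mem_sdiff.1 hs
  refine ⟨s, ⟨T.S.erase s, fun t ht => T.ne _ (Finset.mem_of_mem_erase ht), ?_⟩, hsT, hsB, rfl,
    ?_, ?_⟩
  · intro t ht q hq hqn
    obtain ⟨hts, htT⟩ := Finset.mem_erase.1 ht
    refine Finset.mem_erase.2 ⟨?_, T.down _ htT _ hq hqn⟩
    rintro rfl
    by_cases htB : t ∈ B.S
    · exact hsB (B.down _ htB _ hq hqn)
    · have h2 := hmax t (Finset.mem_sdiff.2 ⟨htT, htB⟩)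
      exact hts (Finset.eq_of_subset_of_card_le hq h2).symm
  · intro t ht
    exact Finset.mem_erase.2 ⟨fun h => hsB (h ▸ ht), hBT ht⟩
  · intro t ht
    obtain ⟨h2, h3, h4⟩ := Finset.mem_filter.1 ht
    exact Finset.mem_erase.2 ⟨h4, T.down _ hsT _ (Finset.mem_powerset.1 h2) h3⟩

end R1_aux

open R1_aux

/-- [QB-R1] (7.1): simplex by simplex. -/
theorem RK_of_EB {n : ℕ} (hn : 1 ≤ n) {P : Type} [AddCommGroup P] (hE : EB h u n P) :
    RK h u n P := by
  intro S X B hX hBX z hz hzB
  suffices H : ∀ (k : ℕ) (T : Cx), (T.S \ B.S).card = k → B.S ⊆ T.S → T.S ⊆ X.S →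
      ∃ (S' : Stage h u) (r : Refine S' S) (w : Coch n P),
        (∀ v : Fin n → ℕ, adm (r.pull B) v → w v = 0) ∧
        ∀ v : Fin (n + 1) → ℕ, adm (r.pull T) v → dd w v = z (r.φ ∘ v) from
    H _ X rfl hBX (Finset.Subset.refl _)
  intro k
  induction k with
  | zero =>
    intro T hT hBT hTX
    have hTB : T.S ⊆ B.S := Finset.sdiff_eq_empty_iff_subset.1 (Finset.card_eq_zero.1 hT)
    refine ⟨S, Refine.id S, fun _ => 0, fun _ _ => rfl, fun v hv => ?_⟩
    have h1 : adm B ((Refine.id S).φ ∘ v) := adm_mono hTB (adm_phi _ hv)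
    rw [hzB _ h1]
    unfold dd
    simp
  | succ k ih =>
    intro T hT hBT hTX
    have hne : T.S ≠ B.S := by
      intro h
      rw [h] at hT
      simp at hT
    obtain ⟨s, T₀, hsT, hsB, hT₀, hBT₀, hbd⟩ := exists_erase hBT hne
    have hsT₀ : s ∉ T₀.S := by rw [hT₀]; exact Finset.notMem_erase _ _
    have hcard : (T₀.S \ B.S).card = k := by
      have : T₀.S \ B.S = (T.S \ B.S).erase s := by
        rw [hT₀]
        ext t
        simp only [Finset.mem_sdiff, Finset.mem_erase]
        tauto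
      rw [this, Finset.card_erase_of_mem (Finset.mem_sdiff.2 ⟨hsT, hsB⟩), hT]
      rfl
    have hT₀T : T₀.S ⊆ T.S := by rw [hT₀]; exact Finset.erase_subset _ _
    obtain ⟨S', r, w, hw0, hw⟩ := ih T₀ hcard hBT₀ (hT₀T.trans hTX)
    -- the cone
    obtain ⟨m, hm, hmin⟩ := Finset.exists_min_image s id (T.ne s hsT)
    let ws : Coch n P := fun v => z (Fin.cons m v)
    have hws : ∀ v : Fin (n + 1) → ℕ, Monotone v → Finset.univ.image v ⊆ s →
        dd ws v = z v := by
      intro v hv hvs
      have h1 : adm X (Fin.cons m v : Fin (n + 2) → ℕ) := by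
        refine ⟨?_, X.down s (hTX hsT) _ ?_ ?_⟩
        · rw [Fin.monotone_iff_le_succ]
          intro i
          refine Fin.cases ?_ (fun i => ?_) i
          · simp only [Fin.castSucc_zero, Fin.cons_zero, Fin.cons_succ]
            exact hmin _ (hvs (Finset.mem_image_of_mem _ (Finset.mem_univ _)))
          · rw [← Fin.succ_castSucc, Fin.cons_succ, Fin.cons_succ]
            exact hv (Fin.castSucc_le_succ i)
        · intro a ha
          obtain ⟨j, -, rfl⟩ := Finset.mem_image.1 ha
          refine Fin.cases ?_ (fun j => ?_) j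
          · simpa using hm
          · simpa using hvs (Finset.mem_image_of_mem _ (Finset.mem_univ j))
        · exact ⟨_, Finset.mem_image_of_mem _ (Finset.mem_univ 0)⟩
      have h2 := hz _ h1
      rw [dd_cone] at h2
      exact (sub_eq_zero.1 h2).symm
    -- the cocycle on the boundary
    let y : Coch n P := fun v => w v - ws (r.φ ∘ v)
    have hy : IsCocyc (r.pull (Cx.bd s)) y := by
      intro v hv
      have h1 : dd w v = z (r.φ ∘ v) := hw v (adm_mono (pull_sub _ hbd) hv)
      have h2 : dd (fun v => ws (r.φ ∘ v)) v = z (r.φ ∘ v) := by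
        have h3 : adm (Cx.bd s) (r.φ ∘ v) := adm_phi _ hv
        exact hws _ h3.1 (Finset.mem_powerset.1 (Finset.mem_filter.1 h3.2).1)
      change dd (fun v => w v - ws (r.φ ∘ v)) v = 0
      rw [dd_sub, h1, h2, sub_self]
    obtain ⟨S'', r', y', hy', hyy⟩ := hE S' (r.pull (Cx.bd s)) (Finset.filter_subset _ _) y hy
    obtain ⟨c, hc, -⟩ := exists_comp r r'
    have hpull : ∀ A : Cx, c.pull A = r'.pull (r.pull A) := by
      intro A
      rw [hc, pull_comp]
    have hφ : c.φ = r.φ ∘ r'.φ := by rw [hc]; rfl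
    have hcar : c.car = r.car ∘ r'.car := by rw [hc]; rfl
    classical
    let w' : Coch n P := fun v =>
      if Finset.univ.image v ∈ (c.pull T₀).S then w (r'.φ ∘ v) else ws (c.φ ∘ v) + y' v
    refine ⟨S'', c, w', ?_, ?_⟩
    · intro v hv
      have h1 : Finset.univ.image v ∈ (c.pull T₀).S := (adm_mono (pull_sub _ hBT₀) hv).2
      change (if Finset.univ.image v ∈ (c.pull T₀).S then w (r'.φ ∘ v)
        else ws (c.φ ∘ v) + y' v) = 0
      rw [if_pos h1]
      rw [hpull] at hv
      exact hw0 _ (adm_phi _ hv)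
    · intro v hv
      obtain ⟨hvK, hvT⟩ := Finset.mem_filter.1 hv.2
      by_cases hvT₀ : c.car (Finset.univ.image v) ∈ T₀.S
      · have hv₀ : adm (c.pull T₀) v := ⟨hv.1, Finset.mem_filter.2 ⟨hvK, hvT₀⟩⟩
        have h1 : dd w' v = dd (fun v => w (r'.φ ∘ v)) v := by
          refine dd_congr fun i => ?_
          exact if_pos (adm_face hn hv₀ i).2
        rw [h1]
        rw [hpull] at hv₀
        have h2 := hw _ (adm_phi _ hv₀)
        rw [hφ]
        exact h2
      · have hvs : c.car (Finset.univ.image v) = s := by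
          by_contra hne'
          refine hvT₀ ?_
          rw [hT₀]
          exact Finset.mem_erase.2 ⟨hne', hvT⟩
        have h1 : dd w' v = dd (fun v => ws (c.φ ∘ v) + y' v) v := by
          refine dd_congr fun i => ?_
          by_cases h2 : Finset.univ.image (fun j => v (i.succAbove j)) ∈ (c.pull T₀).S
          · refine (if_pos h2).trans ?_
            have h3 := Finset.mem_filter.1 h2
            have hfa := adm_face hn hv i
            have h4 : adm (r'.pull (r.pull (Cx.bd s))) (fun j => v (i.succAbove j)) := by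
              rw [← hpull]
              refine ⟨hfa.1, Finset.mem_filter.2 ⟨h3.1, Finset.mem_filter.2 ⟨?_, ?_, ?_⟩⟩⟩
              · rw [Finset.mem_powerset, ← hvs]
                refine c.car_mono _ hvK _ ?_ (S''.K.ne _ h3.1)
                intro a ha
                obtain ⟨j, -, rfl⟩ := Finset.mem_image.1 ha
                exact Finset.mem_image.2 ⟨_, Finset.mem_univ _, rfl⟩
              · exact T₀.ne _ h3.2
              · intro h5
                rw [h5] at h3
                exact hsT₀ h3.2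
            have h5 := hyy _ h4
            change _ = ws (c.φ ∘ fun j => v (i.succAbove j)) + y' _
            rw [h5, hφ]
            change w (r'.φ ∘ fun j => v (i.succAbove j)) =
              ws ((r.φ ∘ r'.φ) ∘ fun j => v (i.succAbove j)) +
                (w (r'.φ ∘ fun j => v (i.succAbove j)) -
                  ws (r.φ ∘ (r'.φ ∘ fun j => v (i.succAbove j))))
            exact (add_sub_cancel _ _).symm
          · exact if_neg h2
        rw [h1, dd_add]
        have h2 : dd y' v = 0 := hy' _ ⟨hv.1, hvK⟩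
        have h3 : dd (fun v => ws (c.φ ∘ v)) v = z (c.φ ∘ v) := by
          refine hws (c.φ ∘ v) (c.mono.comp hv.1) ?_
          rw [← hvs, ← Finset.image_image]
          exact c.φ_sub _ hvK
        rw [h2, h3, add_zero]

end Pool.QB
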