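import Pool.Agent.MP_c51823_gt.QB.R1

/-!
# [QB-R2] Proof: QB_PROOF.md (7.3).
-/

set_option autoImplicit false
open Topology

namespace Pool.QB

/-- The composition of two coboundaries vanishes. -/
theorem R2_aux.dd_dd {P : Type} [AddCommGroup P] {n : ℕ} (c : Coch n P)
    (v : Fin (n + 2) → ℕ) : dd (dd c) v = 0 := by
  have h1 : dd (dd c) v = ∑ p : Fin (n + 2) × Fin (n + 1),
      (-1 : ℤ) ^ (p.1 + p.2 : ℕ) • c (fun k => v (p.1.succAbove (p.2.succAbove k))) := by
    rw [Fintype.sum_prod_type]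
    unfold dd
    refine Finset.sum_congr rfl fun i _ => ?_
    rw [Finset.smul_sum]
    refine Finset.sum_congr rfl fun j _ => ?_
    rw [smul_smul, ← pow_add]
  rw [h1]
  refine Finset.sum_involution (fun p _ => (p.1.succAbove p.2, p.2.predAbove p.1)) ?_ ?_ ?_ ?_
  · rintro ⟨i, j⟩ _
    dsimp only
    rw [Fin.neg_one_pow_succAbove_add_predAbove, neg_smul]
    simp only [Fin.succAbove_succAbove_succAbove_predAbove]
    exact add_neg_cancel _
  · rintro ⟨i, j⟩ _ _ h
    exact Fin.succAbove_ne i j (congrArg Prod.fst h)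
  · intro p _
    exact Finset.mem_univ _
  · rintro ⟨i, j⟩ _
    simp [Fin.succAbove_succAbove_predAbove, Fin.predAbove_predAbove_succAbove]

variable {h : HT} {u : h.H 0 (absP S4)}

/-- [QB-R2a] (7.3): a cocycle on `A` becomes a coboundary `dd v` on `A'` (`RK` with `B = ∅`), and
`dd v` is a cocycle everywhere. -/
theorem EB_succ_of_RK {n : ℕ} (hn : 1 ≤ n) {P : Type} [AddCommGroup P] (hR : RK h u n P) :
    EB h u (n + 1) P := by
  intro S A hA y hy
  obtain ⟨S', r, w, -, hw⟩ := hR S A ⟨∅, by simp, by simp⟩ hA (by simp) y hy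
    (fun v hv => absurd hv.2 (by simp))
  exact ⟨S', r, dd w, fun v _ => R2_aux.dd_dd w v, hw⟩

/-- [QB-R2b] -/
theorem EB_int (h4 : EB h u 4 ℤ) {n : ℕ} (hn : 4 ≤ n) : EB h u n ℤ := by
  induction n, hn using Nat.le_induction with
  | base => exact h4
  | succ n hn ih =>
    exact EB_succ_of_RK (by omega) (RK_of_EB (by omega) ih)

end Pool.QB
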