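import Pool.Agent.MP_c51823_gt.QB.R2

/-!
# [QB-R3] Proof: QB_PROOF.md (7.4).
-/

set_option autoImplicit false
open Topology

namespace Pool.QB

variable {h : HT} {u : h.H 0 (absP S4)}

namespace R3_aux

/-- `d d = 0` -/
theorem dd_dd {P : Type} [AddCommGroup P] {n : ℕ} (c : Coch n P) : dd (dd c) = 0 := by
  funext v
  change ∑ i : Fin (n + 1 + 1), (-1 : ℤ) ^ (i : ℕ) • ∑ j : Fin (n + 1), (-1 : ℤ) ^ (j : ℕ) •
    c (fun k => v (i.succAbove (j.succAbove k))) = 0
  simp only [Finset.smul_sum]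
  rw [← Finset.sum_product']
  refine Finset.sum_involution
    (fun p _ => ((p.1.succAbove p.2, p.2.predAbove p.1) : Fin (n + 1 + 1) × Fin (n + 1)))
    ?_ ?_ ?_ ?_
  · rintro ⟨i, j⟩ _
    simp only [smul_smul, ← pow_add, Fin.succAbove_succAbove_succAbove_predAbove,
      Fin.neg_one_pow_succAbove_add_predAbove]
    simp
  · rintro ⟨i, j⟩ _ _ he
    exact Fin.succAbove_ne i j (congrArg Prod.fst he)
  · rintro ⟨i, j⟩ _
    simp
  · rintro ⟨i, j⟩ _
    simp only [Prod.mk.injEq]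
    exact ⟨Fin.succAbove_succAbove_predAbove i j, Fin.predAbove_predAbove_succAbove i j⟩

theorem dd_comp {P : Type} [AddCommGroup P] {n : ℕ} (c : Coch n P) (φ : ℕ → ℕ)
    (v : Fin (n + 1) → ℕ) : dd (fun w : Fin n → ℕ => c (φ ∘ w)) v = dd c (φ ∘ v) := rfl

theorem dd_sub {P : Type} [AddCommGroup P] {n : ℕ} (c c' : Coch n P) (v : Fin (n + 1) → ℕ) :
    dd (fun w => c w - c' w) v = dd c v - dd c' v := by
  simp [dd, smul_sub, Finset.sum_sub_distrib]

theorem dd_map {P Q : Type} [AddCommGroup P] [AddCommGroup Q] {n : ℕ} (f : P →+ Q) (c : Coch n P)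
    (v : Fin (n + 1) → ℕ) : dd (fun w => f (c w)) v = f (dd c v) := by
  simp [dd, map_sum, map_zsmul]

/-- faces of admissible tuples are admissible -/
theorem adm_face {K : Cx} {n : ℕ} (hn : 0 < n) {v : Fin (n + 1) → ℕ} (hv : adm K v)
    (i : Fin (n + 1)) : adm K (fun j => v (i.succAbove j)) := by
  refine ⟨fun a b hab => hv.1 ((Fin.strictMono_succAbove i).monotone hab),
    K.down _ hv.2 _ ?_ ?_⟩
  · intro x hx
    simp only [Finset.mem_image, Finset.mem_univ, true_and] at hx ⊢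
    obtain ⟨j, rfl⟩ := hx
    exact ⟨_, rfl⟩
  · have : Nonempty (Fin n) := ⟨⟨0, hn⟩⟩
    exact Finset.Nonempty.image Finset.univ_nonempty _

theorem adm_comp {K' K : Cx} (r : RefData K' K) {n : ℕ} {v : Fin n → ℕ} (hv : adm K' v) :
    adm K (r.φ ∘ v) := by
  refine ⟨r.mono.comp hv.1, K.down _ (r.car_mem _ hv.2) _ ?_ ?_⟩
  · rw [← Finset.image_image]
    exact r.φ_sub _ hv.2
  · obtain ⟨x, hx⟩ := K'.ne _ hv.2
    rw [← Finset.image_image]
    exact ⟨_, Finset.mem_image_of_mem _ hx⟩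

theorem adm_pull {K' K : Cx} (r : RefData K' K) (A : Cx) {n : ℕ} {v : Fin n → ℕ}
    (hv : adm (r.pull A) v) : adm A (r.φ ∘ v) := by
  obtain ⟨h1, h2⟩ := hv
  obtain ⟨h3, h4⟩ := Finset.mem_filter.1 h2
  refine ⟨r.mono.comp h1, A.down _ h4 _ ?_ ?_⟩
  · rw [← Finset.image_image]
    exact r.φ_sub _ h3
  · obtain ⟨x, hx⟩ := K'.ne _ h3
    rw [← Finset.image_image]
    exact ⟨_, Finset.mem_image_of_mem _ hx⟩

theorem pull_sub {K' K : Cx} (r : RefData K' K) (A : Cx) : (r.pull A).S ⊆ K'.S :=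
  Finset.filter_subset _ _

theorem cocyc_comp {K' K : Cx} (r : RefData K' K) {P : Type} [AddCommGroup P] {n : ℕ}
    {c : Coch n P} (hc : IsCocyc K c) : IsCocyc K' (fun w : Fin n → ℕ => c (r.φ ∘ w)) := by
  intro v hv
  rw [dd_comp]
  exact hc _ (adm_comp r hv)

theorem cocyc_pull {K' K : Cx} (r : RefData K' K) (A : Cx) {P : Type} [AddCommGroup P] {n : ℕ}
    {c : Coch n P} (hc : IsCocyc A c) :
    IsCocyc (r.pull A) (fun w : Fin n → ℕ => c (r.φ ∘ w)) := by
  intro v hv
  rw [dd_comp]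
  exact hc _ (adm_pull r A hv)

theorem EB_equiv {n : ℕ} {P Q : Type} [AddCommGroup P] [AddCommGroup Q] (e : P ≃+ Q)
    (hP : EB h u n P) : EB h u n Q := by
  intro S A hA y hy
  obtain ⟨S', r, y', h1, h2⟩ := hP S A hA (fun v => e.symm (y v)) (by
    intro v hv
    have := dd_map (e.symm : Q ≃+ P).toAddMonoidHom y v
    change dd (fun w => e.symm (y w)) v = e.symm (dd y v) at this
    rw [this, hy v hv, map_zero])
  refine ⟨S', r, fun v => e (y' v), ?_, ?_⟩
  · intro v hv
    have := dd_map (e : P ≃+ Q).toAddMonoidHom y' v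
    change dd (fun w => e (y' w)) v = e (dd y' v) at this
    rw [this, h1 v hv, map_zero]
  · intro v hv
    change e (y' v) = _
    rw [h2 v hv]
    simp

theorem EB_prod {n : ℕ} {P Q : Type} [AddCommGroup P] [AddCommGroup Q]
    (hP : EB h u n P) (hQ : EB h u n Q) : EB h u n (P × Q) := by
  intro S A hA y hy
  obtain ⟨S1, r1, y1, h1, h2⟩ := hP S A hA (fun v => (y v).1) (by
    intro v hv
    have := dd_map (AddMonoidHom.fst P Q) y v
    change dd (fun w => (y w).1) v = (dd y v).1 at this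
    rw [this, hy v hv]
    rfl)
  obtain ⟨S2, r2, y2, h3, h4⟩ := hQ S1 (r1.pull A) (pull_sub _ _)
    (fun v => (y (r1.φ ∘ v)).2) (by
    refine cocyc_pull r1.toRefData A (c := fun v => (y v).2) ?_
    intro v hv
    have := dd_map (AddMonoidHom.snd P Q) y v
    change dd (fun w => (y w).2) v = (dd y v).2 at this
    rw [this, hy v hv]
    rfl)
  obtain ⟨c, hc, -⟩ := exists_comp r1 r2
  refine ⟨S2, c, fun v => (y1 (r2.φ ∘ v), y2 v), ?_, ?_⟩
  · intro v hv
    have e1 := dd_map (AddMonoidHom.fst P Q) (fun v => (y1 (r2.φ ∘ v), y2 v)) v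
    have e2 := dd_map (AddMonoidHom.snd P Q) (fun v => (y1 (r2.φ ∘ v), y2 v)) v
    refine Prod.ext ?_ ?_
    · refine e1.symm.trans ?_
      exact cocyc_comp r2.toRefData h1 v hv
    · refine e2.symm.trans ?_
      exact h3 v hv
  · intro v hv
    rw [hc, pull_comp] at hv
    rw [hc]
    refine Prod.ext ?_ ?_
    · exact h2 _ (adm_pull r2.toRefData _ hv)
    · exact h4 v hv

theorem EB_zero {n : ℕ} (P : Type) [AddCommGroup P] [Subsingleton P] : EB h u n P := by
  intro S A hA y hy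
  exact ⟨S, Refine.id S, 0, fun v _ => Subsingleton.elim _ _, fun v _ => Subsingleton.elim _ _⟩

theorem EB_pi {n : ℕ} (hZ : EB h u n ℤ) (k : ℕ) : EB h u n (Fin k → ℤ) := by
  induction k with
  | zero => exact EB_zero _
  | succ k ih =>
    exact EB_equiv (Fin.consLinearEquiv ℤ (fun _ : Fin (k + 1) => ℤ)).toAddEquiv (EB_prod hZ ih)

end R3_aux

open R3_aux in
/-- [QB-R3] (7.4): `ℤ^k` componentwise, then a presentation `0 → R → ℤ^k → P → 0` with `R` free. -/
theorem EB_fg (h4 : EB h u 4 ℤ) {n : ℕ} (hn : 4 ≤ n) (P : Type) [AddCommGroup P]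
    [Module.Finite ℤ P] : EB h u n P := by
  classical
  have hZ : EB h u n ℤ := EB_int h4 hn
  obtain ⟨k, f, hf⟩ := Module.Finite.exists_fin' ℤ P
  have hk : EB h u n (Fin k → ℤ) := EB_pi hZ k
  -- the kernel is free of finite rank
  have hR : RK h u n (LinearMap.ker f) := by
    refine RK_of_EB (by omega) ?_
    obtain ⟨m, b⟩ := Submodule.basisOfPid (Pi.basisFun ℤ (Fin k)) (LinearMap.ker f)
    exact EB_equiv b.equivFun.symm.toAddEquiv (EB_pi hZ m)
  intro S A hA y hy
  choose s hs using hf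
  let yt : Coch n (Fin k → ℤ) := fun v => s (y v)
  have hyt : ∀ v : Fin (n + 1) → ℕ, adm A v → dd yt v ∈ LinearMap.ker f := by
    intro v hv
    rw [LinearMap.mem_ker]
    have := dd_map f.toAddMonoidHom yt v
    change dd (fun w => f (yt w)) v = f (dd yt v) at this
    rw [← this]
    have e : (fun w => f (yt w)) = y := by
      funext w
      exact hs _
    rw [e]
    exact hy v hv
  let z : Coch (n + 1) (LinearMap.ker f) := fun v =>
    if hv : dd yt v ∈ LinearMap.ker f then ⟨dd yt v, hv⟩ else 0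
  have hz : ∀ v : Fin (n + 1) → ℕ, adm A v → (z v : Fin k → ℤ) = dd yt v := by
    intro v hv
    simp only [z]
    rw [dif_pos (hyt v hv)]
  obtain ⟨S1, r1, w, -, hw⟩ := hR S A ⟨∅, by simp, by simp⟩ hA (by simp) z (by
    intro v hv
    refine Subtype.ext ?_
    have := dd_map (LinearMap.ker f).subtype.toAddMonoidHom z v
    change dd (fun w => (z w : Fin k → ℤ)) v = ((dd z v : LinearMap.ker f) : Fin k → ℤ) at this
    rw [← this]
    have e : dd (fun w => (z w : Fin k → ℤ)) v = dd (dd yt) v := by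
      unfold dd
      refine Finset.sum_congr rfl fun i _ => ?_
      congr 1
      exact hz _ (adm_face (by omega) hv i)
    rw [e, dd_dd]
    rfl) (by
    intro v hv
    exact absurd hv.2 (by simp))
  obtain ⟨S2, r2, y1, h3, h4'⟩ := hk S1 (r1.pull A) (pull_sub _ _)
    (fun v => yt (r1.φ ∘ v) - (w v : Fin k → ℤ)) (by
    intro v hv
    rw [dd_sub]
    have e1 : dd (fun w => yt (r1.φ ∘ w)) v = dd yt (r1.φ ∘ v) := rfl
    have e2 := dd_map (LinearMap.ker f).subtype.toAddMonoidHom w v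
    change dd (fun v => (w v : Fin k → ℤ)) v = ((dd w v : LinearMap.ker f) : Fin k → ℤ) at e2
    rw [e1, e2, hw v hv, hz _ (adm_pull _ _ hv), sub_self])
  obtain ⟨c, hc, -⟩ := exists_comp r1 r2
  refine ⟨S2, c, fun v => f (y1 v), ?_, ?_⟩
  · intro v hv
    have := dd_map f.toAddMonoidHom y1 v
    change dd (fun w => f (y1 w)) v = f (dd y1 v) at this
    rw [this, h3 v hv, map_zero]
  · intro v hv
    rw [hc, pull_comp] at hv
    rw [hc]
    change f (y1 v) = _
    rw [h4' v hv, map_sub]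
    have e : f (w (r2.φ ∘ v) : Fin k → ℤ) = 0 := (w _).2
    rw [e, sub_zero]
    exact hs _

end Pool.QB
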