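import Pool.Agent.MP_c51823_gt.QB.C2

/-!
# [QB-S0] Simplicial maps
-/

set_option autoImplicit false
open Topology

namespace Pool.QB

/-- [QB-S0] push-forward of a point under a vertex map `φ` (`x` finitely supported) -/
noncomputable def pushV (φ : ℕ → ℕ) (x : ℕ → ℝ) : ℕ → ℝ := fun i => ∑ᶠ j, if φ j = i then x j else 0

namespace S0_aux

theorem pushV_eq_sum (φ : ℕ → ℕ) {x : ℕ → ℝ} {V : Finset ℕ} (hx : ∀ j, j ∉ V → x j = 0)
    (i : ℕ) : pushV φ x i = ∑ j ∈ V, if φ j = i then x j else 0 := by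
  unfold pushV
  refine finsum_eq_sum_of_support_subset _ ?_
  intro j hj
  by_contra hj'
  exact hj (by simp [hx j (by simpa using hj')])

theorem pushV_mem_simp (φ : ℕ → ℕ) {s : Finset ℕ} {x : ℕ → ℝ} (hx : x ∈ simp s) :
    pushV φ x ∈ simp (s.image φ) := by
  obtain ⟨h1, h2, h3⟩ := hx
  refine ⟨fun i => ?_, fun i hi => ?_, ?_⟩
  · rw [pushV_eq_sum φ h2]
    refine Finset.sum_nonneg fun j _ => ?_
    split_ifs
    · exact h1 j
    · exact le_rfl
  · rw [pushV_eq_sum φ h2]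
    refine Finset.sum_eq_zero fun j hj => ?_
    rw [if_neg]
    rintro rfl
    exact hi (Finset.mem_image_of_mem _ hj)
  · rw [Finset.sum_congr rfl fun i _ => pushV_eq_sum φ h2 i, Finset.sum_comm, ← h3]
    refine Finset.sum_congr rfl fun j hj => ?_
    rw [Finset.sum_ite_eq, if_pos (Finset.mem_image_of_mem _ hj)]

end S0_aux

open S0_aux

theorem pushV_mem {K' K : Cx} (φ : ℕ → ℕ) (hφ : ∀ s ∈ K'.S, s.image φ ∈ K.S) {x : ℕ → ℝ}
    (hx : x ∈ K'.real) : pushV φ x ∈ K.real ∧ fsupp (pushV φ x) = (fsupp x).image φ := by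
  have h0 := mem_simp_fsupp K' hx
  have h1 := pushV_mem_simp φ h0
  have h2 : pushV φ x ∈ K.real := ⟨_, hφ _ (fsupp_mem K' hx), h1⟩
  refine ⟨h2, ?_⟩
  apply Finset.Subset.antisymm (fsupp_subset_of_simp h1)
  intro i hi
  obtain ⟨j, hj, rfl⟩ := Finset.mem_image.1 hi
  rw [mem_fsupp_iff_pos K h2, pushV_eq_sum φ h0.2.1]
  have h3 : 0 < x j := (mem_fsupp_iff_pos K' hx j).1 hj
  refine lt_of_lt_of_le h3 ?_
  have h4 := Finset.single_le_sum (f := fun k => if φ k = φ j then x k else 0)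
    (s := fsupp x) (fun k _ => by
      split_ifs
      · exact h0.1 k
      · exact le_rfl) hj
  simpa using h4

theorem exists_realize {K' K : Cx} (φ : ℕ → ℕ) (hφ : ∀ s ∈ K'.S, s.image φ ∈ K.S) :
    ∃ F : C(K'.real, K.real), ∀ x, (F x).1 = pushV φ x.1 := by
  refine ⟨⟨fun x => ⟨pushV φ x.1, (pushV_mem φ hφ x.2).1⟩, ?_⟩, fun x => rfl⟩
  refine Continuous.subtype_mk ?_ _
  refine continuous_pi fun i => ?_
  have h1 : ∀ x : K'.real, ∀ j, j ∉ K'.S.sup id → x.1 j = 0 := by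
    rintro ⟨x, s, hs, hx⟩ j hj
    refine hx.2.1 j fun hjs => hj ?_
    exact Finset.mem_sup.2 ⟨s, hs, hjs⟩
  have h2 : (fun x : K'.real => pushV φ x.1 i) =
      fun x : K'.real => ∑ j ∈ K'.S.sup id, if φ j = i then x.1 j else 0 := by
    funext x
    exact pushV_eq_sum φ (h1 x) i
  rw [h2]
  refine continuous_finsetSum _ fun j _ => ?_
  split_ifs
  · exact (continuous_apply j).comp continuous_subtype_val
  · exact continuous_const

end Pool.QB
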