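import Pool.Agent.MP_c51823_gt.QB.AffDef
import Pool.Agent.MP_c51823_gt.QB.S0

/-!
# [QB-S0a] affine simplices
-/

set_option autoImplicit false
open Topology

namespace Pool.QB

namespace S0a_aux

theorem affV_simp {n : ℕ} (v : Fin (n + 1) → ℕ) (x : Dl n) :
    affV v x.1 ∈ simp (Finset.univ.image v) := by
  refine ⟨fun i => ?_, fun i hi => ?_, ?_⟩
  · refine Finset.sum_nonneg fun j _ => ?_
    split_ifs
    · exact x.2.1 j
    · exact le_rfl
  · refine Finset.sum_eq_zero fun j _ => ?_
    rw [if_neg]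
    rintro rfl
    exact hi (Finset.mem_image_of_mem _ (Finset.mem_univ j))
  · unfold affV
    rw [Finset.sum_comm, ← x.2.2]
    refine Finset.sum_congr rfl fun j _ => ?_
    rw [Finset.sum_ite_eq, if_pos (Finset.mem_image_of_mem _ (Finset.mem_univ j))]

end S0a_aux

/-- [QB-S0a] the affine simplex `[v_0,…,v_n]` in `|K|` -/
theorem affV_mem (K : Cx) {n : ℕ} (v : Fin (n + 1) → ℕ) (hv : Finset.univ.image v ∈ K.S)
    (x : Dl n) : affV v x.1 ∈ K.real := ⟨_, hv, S0a_aux.affV_simp v x⟩

/-- the affine simplex as a continuous map -/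
noncomputable def aff (K : Cx) {n : ℕ} (v : Fin (n + 1) → ℕ) (hv : Finset.univ.image v ∈ K.S) :
    C(Dl n, K.real) :=
  ⟨fun x => ⟨affV v x.1, affV_mem K v hv x⟩, by
    refine Continuous.subtype_mk (continuous_pi fun i => ?_) _
    refine continuous_finset_sum _ fun j _ => ?_
    split_ifs
    · exact (continuous_apply j).comp continuous_subtype_val
    · exact continuous_const⟩

theorem fsupp_affV {n : ℕ} (v : Fin (n + 1) → ℕ) (x : Dl n) :
    fsupp (affV v x.1) ⊆ Finset.univ.image v := fsupp_subset_of_simp (S0a_aux.affV_simp v x)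

theorem affV_face {n : ℕ} (v : Fin (n + 2) → ℕ) (i : Fin (n + 2)) (x : Dl n) :
    affV v (face i x).1 = affV (fun j => v (i.succAbove j)) x.1 := by
  funext k
  unfold affV
  rw [Fin.sum_univ_succAbove _ i]
  simp [face]

theorem pushV_affV {n : ℕ} (φ : ℕ → ℕ) (v : Fin (n + 1) → ℕ) (x : Dl n) :
    pushV φ (affV v x.1) = affV (φ ∘ v) x.1 := by
  funext i
  rw [S0_aux.pushV_eq_sum φ (S0a_aux.affV_simp v x).2.1]
  have h1 : ∀ j ∈ Finset.univ.image v, (if φ j = i then affV v x.1 j else 0) =
      ∑ k, if j = v k then (if φ j = i then x.1 k else 0) else 0 := by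
    intro j _
    unfold affV
    split_ifs
    · refine Finset.sum_congr rfl fun k _ => ?_
      simp only [eq_comm]
    · simp
  rw [Finset.sum_congr rfl h1, Finset.sum_comm]
  unfold affV
  refine Finset.sum_congr rfl fun k _ => ?_
  rw [Finset.sum_ite_eq' , if_pos (Finset.mem_image_of_mem _ (Finset.mem_univ k))]
  rfl

end Pool.QB
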