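import Pool.Agent.MP_c51823_gt.QB.S0a

/-!
# [QB-S0b], [QB-S0c]
-/

set_option autoImplicit false
open Topology

namespace Pool.QB

namespace S0b_aux

theorem affV_apply {n : ℕ} (v : Fin (n + 1) → ℕ) (hv : Function.Injective v)
    (x : Fin (n + 1) → ℝ) (j : Fin (n + 1)) : affV v x (v j) = x j := by
  unfold affV
  rw [Finset.sum_eq_single j]
  · simp
  · intro k _ hk
    rw [if_neg (fun h => hk (hv h))]
  · intro h; exact absurd (Finset.mem_univ j) h

theorem affV_notin {n : ℕ} (v : Fin (n + 1) → ℕ) (x : Fin (n + 1) → ℝ) (i : ℕ)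
    (hi : i ∉ Finset.univ.image v) : affV v x i = 0 := by
  unfold affV
  refine Finset.sum_eq_zero fun j _ => ?_
  rw [if_neg]
  intro h
  exact hi (Finset.mem_image.2 ⟨j, Finset.mem_univ j, h⟩)

theorem affV_nonneg {n : ℕ} (v : Fin (n + 1) → ℕ) (x : Dl n) (i : ℕ) : 0 ≤ affV v x.1 i := by
  unfold affV
  refine Finset.sum_nonneg fun j _ => ?_
  split_ifs
  · exact x.2.1 j
  · exact le_rfl

theorem sum_image {n : ℕ} (v : Fin (n + 1) → ℕ) (hv : Function.Injective v) (y : ℕ → ℝ) :
    ∑ i ∈ Finset.univ.image v, y i = ∑ j, y (v j) :=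
  Finset.sum_image fun _ _ _ _ h => hv h

theorem affV_mem_simp {n : ℕ} (v : Fin (n + 1) → ℕ) (hv : Function.Injective v) (x : Dl n) :
    affV v x.1 ∈ simp (Finset.univ.image v) := by
  refine ⟨affV_nonneg v x, affV_notin v x.1, ?_⟩
  rw [sum_image v hv]
  simp only [affV_apply v hv]
  exact x.2.2

theorem affV_inv {n : ℕ} (v : Fin (n + 1) → ℕ) (hv : Function.Injective v) (y : ℕ → ℝ)
    (hy : y ∈ simp (Finset.univ.image v)) : affV v (fun j => y (v j)) = y := by
  funext i
  by_cases hi : i ∈ Finset.univ.image v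
  · obtain ⟨j, _, rfl⟩ := Finset.mem_image.1 hi
    rw [affV_apply v hv]
  · rw [affV_notin v _ i hi, hy.2.1 i hi]

end S0b_aux

open S0b_aux

/-- [QB-S0b] for injective `v` the affine simplex is a homeomorphism onto the closed simplex, and
boundary points correspond to boundary points -/
theorem affV_bij {n : ℕ} (v : Fin (n + 1) → ℕ) (hv : Function.Injective v) :
    ∃ e : Dl n ≃ₜ simp (Finset.univ.image v), ∀ x, (e x).1 = affV v x.1 := by
  refine ⟨{ toFun := fun x => ⟨affV v x.1, affV_mem_simp v hv x⟩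
            invFun := fun y => ⟨fun j => y.1 (v j), fun j => y.2.1 (v j), ?_⟩
            left_inv := ?_
            right_inv := ?_
            continuous_toFun := ?_
            continuous_invFun := ?_ }, fun x => rfl⟩
  · rw [← sum_image v hv]
    exact y.2.2.2
  · intro x
    apply Subtype.ext
    funext j
    exact affV_apply v hv x.1 j
  · intro y
    apply Subtype.ext
    exact affV_inv v hv y.1 y.2
  · refine Continuous.subtype_mk (continuous_pi fun i => ?_) _
    unfold affV
    refine continuous_finsetSum _ fun j _ => ?_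
    split_ifs
    · exact (continuous_apply j).comp continuous_subtype_val
    · exact continuous_const
  · refine Continuous.subtype_mk (continuous_pi fun j => ?_) _
    exact (continuous_apply (v j)).comp continuous_subtype_val

theorem affV_bd {n : ℕ} (v : Fin (n + 2) → ℕ) (hv : Function.Injective v) (x : Dl (n + 1)) :
    affV v x.1 ∈ (Cx.bd (Finset.univ.image v)).real ↔ x ∈ bdD (n + 1) := by
  constructor
  · rintro ⟨s, hs, hx⟩
    obtain ⟨h1, h2, h3⟩ := Finset.mem_filter.1 hs
    rw [Finset.mem_powerset] at h1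
    have h4 : ∃ i ∈ Finset.univ.image v, i ∉ s := by
      by_contra hcon
      push Not at hcon
      exact h3 (Finset.Subset.antisymm h1 hcon)
    obtain ⟨i, hi, his⟩ := h4
    obtain ⟨j, _, rfl⟩ := Finset.mem_image.1 hi
    refine ⟨j, ?_⟩
    rw [← affV_apply v hv x.1 j]
    exact hx.2.1 _ his
  · rintro ⟨j, hj⟩
    have hj' : affV v x.1 (v j) = 0 := by rw [affV_apply v hv]; exact hj
    have hm := affV_mem_simp v hv x
    have hvj : v j ∈ Finset.univ.image v := Finset.mem_image_of_mem v (Finset.mem_univ j)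
    have hsum : ∑ i ∈ (Finset.univ.image v).erase (v j), affV v x.1 i = 1 := by
      have h1 := Finset.add_sum_erase _ (fun i => affV v x.1 i) hvj
      have h2 := hm.2.2
      simp only [hj', zero_add] at h1
      rw [h1]; exact h2
    refine ⟨(Finset.univ.image v).erase (v j), ?_, ?_, ?_, hsum⟩
    · refine Finset.mem_filter.2 ⟨Finset.mem_powerset.2 (Finset.erase_subset _ _), ?_, ?_⟩
      · rw [Finset.nonempty_iff_ne_empty]
        intro h0
        rw [h0, Finset.sum_empty] at hsum
        exact zero_ne_one hsum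
      · intro h0
        have : v j ∈ (Finset.univ.image v).erase (v j) := by rw [h0]; exact hvj
        simp at this
    · exact hm.1
    · intro i hi
      by_cases h1 : i = v j
      · rw [h1]; exact hj'
      · apply hm.2.1
        intro h2
        exact hi (Finset.mem_erase.2 ⟨h1, h2⟩)

/-- [QB-S0c] extension over a closed simplex: `G : Δ^{n+1} → Y` extending `F ∘ [v]` on the boundary
gives an extension of `F : |∂s| → Y` over `|s|`. -/
theorem extend_cell {n : ℕ} (v : Fin (n + 2) → ℕ) (hv : Function.Injective v) {Y : Type}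
    [TopologicalSpace Y] (F : C((Cx.bd (Finset.univ.image v)).real, Y)) (G : C(Dl (n + 1), Y))
    (hG : ∀ (x : Dl (n + 1)) (hx : affV v x.1 ∈ (Cx.bd (Finset.univ.image v)).real),
      G x = F ⟨affV v x.1, hx⟩) :
    ∃ G' : C(simp (Finset.univ.image v), Y),
      (∀ (x : ℕ → ℝ) (hx : x ∈ (Cx.bd (Finset.univ.image v)).real)
        (hx' : x ∈ simp (Finset.univ.image v)), G' ⟨x, hx'⟩ = F ⟨x, hx⟩) ∧
      ∀ (x : Dl (n + 1)) (hx : affV v x.1 ∈ simp (Finset.univ.image v)),
        G' ⟨affV v x.1, hx⟩ = G x := by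
  obtain ⟨e, he⟩ := affV_bij v hv
  refine ⟨G.comp ⟨e.symm, e.symm.continuous⟩, ?_, ?_⟩
  · intro x hx hx'
    have h1 : affV v (e.symm ⟨x, hx'⟩).1 = x := by
      rw [← he, e.apply_symm_apply]
    have h2 : affV v (e.symm ⟨x, hx'⟩).1 ∈ (Cx.bd (Finset.univ.image v)).real := by
      rw [h1]; exact hx
    show G (e.symm ⟨x, hx'⟩) = _
    rw [hG _ h2]
    congr 1
    exact Subtype.ext h1
  · intro x hx
    show G (e.symm ⟨affV v x.1, hx⟩) = G x
    congr 1
    rw [e.symm_apply_eq]
    exact Subtype.ext (he x).symm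

end Pool.QB
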