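import Pool.Agent.MP_c51823_gt.QB.C2

/-!
# [QB-S1] gluing over closed simplices
-/

set_option autoImplicit false
open Topology

namespace Pool.QB

namespace S1_aux

theorem glue_sets {X Y : Type} [TopologicalSpace X] [TopologicalSpace Y] (A B C : Set X)
    (hC : C ⊆ A ∪ B) (hA : IsClosed A) (hB : IsClosed B) (_hAC : A ⊆ C) (_hBC : B ⊆ C)
    (F : C(A, Y)) (G : C(B, Y))
    (hG : ∀ (x : X) (hx : x ∈ A) (hx' : x ∈ B), F ⟨x, hx⟩ = G ⟨x, hx'⟩) :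
    ∃ H : C(C, Y), (∀ (x : X) (hx : x ∈ A) (hx' : x ∈ C), H ⟨x, hx'⟩ = F ⟨x, hx⟩) ∧
      ∀ (x : X) (hx : x ∈ B) (hx' : x ∈ C), H ⟨x, hx'⟩ = G ⟨x, hx⟩ := by
  classical
  let H : C → Y := fun x =>
    if hx : x.1 ∈ A then F ⟨x.1, hx⟩ else G ⟨x.1, (hC x.2).resolve_left hx⟩
  have h1 : ∀ (x : X) (hx : x ∈ A) (hx' : x ∈ C), H ⟨x, hx'⟩ = F ⟨x, hx⟩ := by
    intro x hx hx'
    exact dif_pos hx
  have h2 : ∀ (x : X) (hx : x ∈ B) (hx' : x ∈ C), H ⟨x, hx'⟩ = G ⟨x, hx⟩ := by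
    intro x hx hx'
    by_cases h : x ∈ A
    · rw [h1 x h hx', hG x h hx]
    · exact dif_neg h
  refine ⟨⟨H, ?_⟩, h1, h2⟩
  rw [← continuousOn_univ]
  have hu : (Set.univ : Set C) ⊆ {x : C | x.1 ∈ A} ∪ {x : C | x.1 ∈ B} := fun x _ => hC x.2
  refine ContinuousOn.mono ?_ hu
  refine ContinuousOn.union_of_isClosed ?_ ?_ (hA.preimage continuous_subtype_val)
    (hB.preimage continuous_subtype_val)
  · rw [continuousOn_iff_continuous_domRestrict]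
    have h3 : Continuous fun x : {x : C | x.1 ∈ A} => (⟨x.1.1, x.2⟩ : A) :=
      Continuous.subtype_mk (continuous_subtype_val.comp continuous_subtype_val) _
    exact (F.continuous.comp h3).congr fun x => (h1 x.1.1 x.2 x.1.2).symm
  · rw [continuousOn_iff_continuous_domRestrict]
    have h3 : Continuous fun x : {x : C | x.1 ∈ B} => (⟨x.1.1, x.2⟩ : B) :=
      Continuous.subtype_mk (continuous_subtype_val.comp continuous_subtype_val) _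
    exact (G.continuous.comp h3).congr fun x => (h2 x.1.1 x.2 x.1.2).symm

end S1_aux

/-- [QB-S1] extension of a map over one more simplex -/
theorem extend_simplex (L L' : Cx) (s : Finset ℕ) (hL : L'.S = insert s L.S) (hs : s ∉ L.S)
    {Y : Type} [TopologicalSpace Y] (F : C(L.real, Y)) (G : C(simp s, Y))
    (hG : ∀ (x : ℕ → ℝ) (hx : x ∈ L.real) (hx' : x ∈ simp s), G ⟨x, hx'⟩ = F ⟨x, hx⟩) :
    ∃ F' : C(L'.real, Y), (∀ (x : ℕ → ℝ) (hx : x ∈ L.real) (hx' : x ∈ L'.real),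
      F' ⟨x, hx'⟩ = F ⟨x, hx⟩) ∧ ∀ (x : ℕ → ℝ) (hx : x ∈ simp s) (hx' : x ∈ L'.real),
      F' ⟨x, hx'⟩ = G ⟨x, hx⟩ := by
  refine S1_aux.glue_sets L.real (simp s) L'.real ?_ (isCompact_real L).isClosed
    (isCompact_simp s).isClosed ?_ ?_ F G (fun x hx hx' => (hG x hx hx').symm)
  · rintro x ⟨r, hr, hx⟩
    rw [hL] at hr
    rcases Finset.mem_insert.1 hr with rfl | hr
    · exact Or.inr hx
    · exact Or.inl ⟨r, hr, hx⟩
  · rintro x ⟨r, hr, hx⟩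
    exact ⟨r, by rw [hL]; exact Finset.mem_insert_of_mem hr, hx⟩
  · intro x hx
    exact ⟨s, by rw [hL]; exact Finset.mem_insert_self _ _, hx⟩

/-- [QB-S1b] gluing of maps on two subcomplexes -/
theorem glue_real (L₁ L₂ L : Cx) (hL : L.S = L₁.S ∪ L₂.S) {Y : Type} [TopologicalSpace Y]
    (F₁ : C(L₁.real, Y)) (F₂ : C(L₂.real, Y))
    (hF : ∀ (x : ℕ → ℝ) (h₁ : x ∈ L₁.real) (h₂ : x ∈ L₂.real), F₁ ⟨x, h₁⟩ = F₂ ⟨x, h₂⟩) :
    ∃ F : C(L.real, Y), (∀ (x : ℕ → ℝ) (h₁ : x ∈ L₁.real) (h : x ∈ L.real),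
      F ⟨x, h⟩ = F₁ ⟨x, h₁⟩) ∧ ∀ (x : ℕ → ℝ) (h₂ : x ∈ L₂.real) (h : x ∈ L.real),
      F ⟨x, h⟩ = F₂ ⟨x, h₂⟩ := by
  refine S1_aux.glue_sets L₁.real L₂.real L.real ?_ (isCompact_real L₁).isClosed
    (isCompact_real L₂).isClosed ?_ ?_ F₁ F₂ hF
  · rintro x ⟨r, hr, hx⟩
    rw [hL] at hr
    rcases Finset.mem_union.1 hr with hr | hr
    · exact Or.inl ⟨r, hr, hx⟩
    · exact Or.inr ⟨r, hr, hx⟩
  · rintro x ⟨r, hr, hx⟩
    exact ⟨r, by rw [hL]; exact Finset.mem_union_left _ hr, hx⟩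
  · rintro x ⟨r, hr, hx⟩
    exact ⟨r, by rw [hL]; exact Finset.mem_union_right _ hr, hx⟩

end Pool.QB
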