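import Pool.Agent.MP_c51823_gt.QB.S0b
import Pool.Agent.MP_c51823_gt.QB.S1
import Pool.Agent.MP_c51823_gt.QB.OCDef

/-!
# [QB-S2a] Filling, QB_PROOF.md 8.3: simplices of `L - B` in order of dimension.
-/

set_option autoImplicit false
open Topology

namespace Pool.QB

namespace S2a_aux

theorem continuous_affV {n : ℕ} (v : Fin (n + 1) → ℕ) :
    Continuous fun x : Dl n => affV v x.1 := by
  refine continuous_pi fun i => ?_
  refine continuous_finsetSum _ fun j _ => ?_
  split_ifs
  · exact (continuous_apply j).comp continuous_subtype_val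
  · exact continuous_const

/-- two strictly increasing tuples with the same image are equal -/
theorem strictMono_unique {n : ℕ} {v w : Fin n → ℕ} (hv : StrictMono v) (hw : StrictMono w)
    (h : Finset.univ.image v = Finset.univ.image w) : v = w := by
  have hc : (Finset.univ.image w).card = n := by
    rw [Finset.card_image_of_injective _ hw.injective, Finset.card_univ, Fintype.card_fin]
  have h1 := Finset.orderEmbOfFin_unique hc (f := v) (fun x => by
    rw [← h]; exact Finset.mem_image_of_mem v (Finset.mem_univ x)) hv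
  have h2 := Finset.orderEmbOfFin_unique hc (f := w) (fun x =>
    Finset.mem_image_of_mem w (Finset.mem_univ x)) hw
  exact h1.trans h2.symm

section

variable {k : ℕ} {v : Fin (k + 2) → ℕ} {A : Cx}

theorem mem_bd_iff {s r : Finset ℕ} : r ∈ (Cx.bd s).S ↔ r ⊆ s ∧ r.Nonempty ∧ r ≠ s := by
  simp [Cx.bd]

theorem bd_sub (hbd : ∀ r ⊆ Finset.univ.image v, r.Nonempty → r ≠ Finset.univ.image v → r ∈ A.S) :
    (Cx.bd (Finset.univ.image v)).S ⊆ A.S := by
  intro r hr
  obtain ⟨h1, h2, h3⟩ := mem_bd_iff.1 hr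
  exact hbd r h1 h2 h3

theorem mem_bd_of_mem (hsA : Finset.univ.image v ∉ A.S) {x : ℕ → ℝ} (hx : x ∈ A.real)
    (hx' : x ∈ simp (Finset.univ.image v)) : x ∈ (Cx.bd (Finset.univ.image v)).real := by
  refine mem_real_of_fsupp A _ hx (mem_bd_iff.2 ⟨fsupp_subset_of_simp hx', fsupp_nonempty hx', ?_⟩)
  intro h
  exact hsA (h ▸ fsupp_mem A hx)

theorem affV_simp (v : Fin (k + 2) → ℕ) (x : Dl (k + 1)) :
    affV v x.1 ∈ simp (Finset.univ.image v) := by
  have h1 : affV v x.1 ∈ (Cx.full (Finset.univ.image v)).real :=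
    affV_mem (Cx.full (Finset.univ.image v)) v (by simp [Cx.full]) x
  exact mem_simp_of_fsupp _ h1 (fsupp_affV v x)

theorem affV_mem_iff (hv : StrictMono v) (hsA : Finset.univ.image v ∉ A.S)
    (hbd : ∀ r ⊆ Finset.univ.image v, r.Nonempty → r ≠ Finset.univ.image v → r ∈ A.S)
    (x : Dl (k + 1)) : affV v x.1 ∈ A.real ↔ x ∈ bdD (k + 1) := by
  rw [← affV_bd v hv.injective x]
  constructor
  · intro h
    exact mem_bd_of_mem hsA h (affV_simp v x)
  · intro h
    exact real_mono (bd_sub hbd) h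

/-- the map on the boundary of the standard simplex -/
noncomputable def bdMap {Y : Type} [TopologicalSpace Y] (v : Fin (k + 2) → ℕ) (FA : C(A.real, Y))
    (h : ∀ x : Dl (k + 1), x ∈ bdD (k + 1) → affV v x.1 ∈ A.real) : C(bdD (k + 1), Y) :=
  ⟨fun x => FA ⟨affV v x.1.1, h x.1 x.2⟩, by
    refine FA.continuous.comp (Continuous.subtype_mk ?_ _)
    exact (continuous_affV v).comp continuous_subtype_val⟩

/-- extension over one cell -/
theorem glue {Y : Type} [TopologicalSpace Y] (hv : StrictMono v) (A' : Cx)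
    (hA' : A'.S = insert (Finset.univ.image v) A.S) (hsA : Finset.univ.image v ∉ A.S)
    (hbd : ∀ r ⊆ Finset.univ.image v, r.Nonempty → r ≠ Finset.univ.image v → r ∈ A.S)
    (FA : C(A.real, Y)) (G : C(Dl (k + 1), Y))
    (hG : ∀ (x : Dl (k + 1)) (hx : affV v x.1 ∈ A.real), G x = FA ⟨affV v x.1, hx⟩) :
    ∃ F' : C(A'.real, Y), (∀ (x : ℕ → ℝ) (hx : x ∈ A.real) (hx' : x ∈ A'.real),
      F' ⟨x, hx'⟩ = FA ⟨x, hx⟩) ∧ ∀ (x : Dl (k + 1)) (hx' : affV v x.1 ∈ A'.real),
      F' ⟨affV v x.1, hx'⟩ = G x := by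
  have hsub : (Cx.bd (Finset.univ.image v)).real ⊆ A.real := real_mono (bd_sub hbd)
  let Fb : C((Cx.bd (Finset.univ.image v)).real, Y) :=
    FA.comp ⟨fun x => ⟨x.1, hsub x.2⟩, Continuous.subtype_mk continuous_subtype_val _⟩
  obtain ⟨G', hG'1, hG'2⟩ := extend_cell v hv.injective Fb G (fun x hx => hG x (hsub hx))
  obtain ⟨F', hF'1, hF'2⟩ := extend_simplex A A' (Finset.univ.image v) hA' hsA FA G'
    (fun x hx hx' => hG'1 x (mem_bd_of_mem hsA hx hx') hx')
  refine ⟨F', hF'1, fun x hx' => ?_⟩
  rw [hF'2 _ (affV_simp v x) hx', hG'2 x (affV_simp v x)]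

end

/-- the invariant of the induction -/
def Inv {t : ℕ} {Y : Type} [TopologicalSpace Y] {P : Type} [AddCommGroup P] (oc : OCData Y t P)
    (y' : Coch (t + 1) P) (A : Cx) (F : C(A.real, Y)) : Prop :=
  ∀ (v : Fin (t + 1) → ℕ) (hv : adm A v), StrictMono v →
    oc.c (F.comp (aff A v hv.2)) = y' v

theorem inv_old {t : ℕ} {Y : Type} [TopologicalSpace Y] {P : Type} [AddCommGroup P]
    {oc : OCData Y t P} {y' : Coch (t + 1) P} {A A' : Cx} {FA : C(A.real, Y)}
    (h : Inv oc y' A FA) {F' : C(A'.real, Y)}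
    (hF' : ∀ (x : ℕ → ℝ) (hx : x ∈ A.real) (hx' : x ∈ A'.real), F' ⟨x, hx'⟩ = FA ⟨x, hx⟩)
    (v : Fin (t + 1) → ℕ) (hv : adm A' v) (hmono : StrictMono v)
    (hvA : Finset.univ.image v ∈ A.S) : oc.c (F'.comp (aff A' v hv.2)) = y' v := by
  rw [← h v ⟨hv.1, hvA⟩ hmono]
  congr 1
  ext x
  exact hF' _ _ _

/-- the new simplex has at least two vertices -/
theorem step_cell {t : ℕ} {Y : Type} [TopologicalSpace Y] (hY : Conn Y t) {P : Type}
    [AddCommGroup P] (oc : OCData Y t P) (A A' L : Cx) (y' : Coch (t + 1) P) (hy' : IsCocyc L y')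
    {k : ℕ} (hk : k ≤ t) (v : Fin (k + 2) → ℕ) (hv : StrictMono v)
    (hsL : Finset.univ.image v ∈ L.S)
    (hA' : A'.S = insert (Finset.univ.image v) A.S) (hsA : Finset.univ.image v ∉ A.S)
    (hbd : ∀ r ⊆ Finset.univ.image v, r.Nonempty → r ≠ Finset.univ.image v → r ∈ A.S)
    (FA : C(A.real, Y)) (hFA : Inv oc y' A FA) :
    ∃ F' : C(A'.real, Y), (∀ (x : ℕ → ℝ) (hx : x ∈ A.real) (hx' : x ∈ A'.real),
      F' ⟨x, hx'⟩ = FA ⟨x, hx⟩) ∧ Inv oc y' A' F' := by
  have hmem := affV_mem_iff (A := A) hv hsA hbd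
  let f : C(bdD (k + 1), Y) := bdMap v FA fun x hx => (hmem x).2 hx
  have hcard : (Finset.univ.image v).card = k + 2 := by
    rw [Finset.card_image_of_injective _ hv.injective, Finset.card_univ, Fintype.card_fin]
  -- it suffices to find a good extension `G` of `f`
  have key : ∀ G : C(Dl (k + 1), Y), (∀ x, G x.1 = f x) →
      (∀ (w : Fin (t + 1) → ℕ) (hw : adm A' w), StrictMono w →
        Finset.univ.image w = Finset.univ.image v → ∀ F' : C(A'.real, Y),
        (∀ (x : Dl (k + 1)) (hx' : affV v x.1 ∈ A'.real), F' ⟨affV v x.1, hx'⟩ = G x) →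
        oc.c (F'.comp (aff A' w hw.2)) = y' w) →
      ∃ F' : C(A'.real, Y), (∀ (x : ℕ → ℝ) (hx : x ∈ A.real) (hx' : x ∈ A'.real),
        F' ⟨x, hx'⟩ = FA ⟨x, hx⟩) ∧ Inv oc y' A' F' := by
    intro G hG hnew
    obtain ⟨F', hF'1, hF'2⟩ := glue hv A' hA' hsA hbd FA G (fun x hx => hG ⟨x, (hmem x).1 hx⟩)
    refine ⟨F', hF'1, fun w hw hmono => ?_⟩
    by_cases h : Finset.univ.image w = Finset.univ.image v
    · exact hnew w hw hmono h F' hF'2
    · have h1 := hw.2
      rw [hA', Finset.mem_insert] at h1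
      exact inv_old hFA hF'1 w hw hmono (h1.resolve_left h)
  have hcw : ∀ w : Fin (t + 1) → ℕ, StrictMono w → Finset.univ.image w = Finset.univ.image v →
      t + 1 = k + 2 := by
    intro w hw h
    rw [← hcard, ← h, Finset.card_image_of_injective _ hw.injective, Finset.card_univ,
      Fintype.card_fin]
  rcases lt_trichotomy (k + 1) t with h | h | h
  · obtain ⟨G, hG⟩ := hY.2 k (by omega) f
    exact key G hG fun w _ hw hwv => absurd (hcw w hw hwv) (by omega)
  · subst h
    obtain ⟨g, hg⟩ := hY.2 k (by omega) f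
    obtain ⟨G, hG1, hG2⟩ := oc.chg g (y' v - oc.c g)
    refine key G (fun x => ?_) fun w hw hmono hwv F' hF' => ?_
    · rw [hG1 x.1 x.2, hg]
    · have hwv' : w = v := strictMono_unique hmono hv hwv
      subst hwv'
      have h1 : F'.comp (aff A' w hw.2) = G := by
        ext x
        exact hF' x _
      rw [h1, hG2]
      abel
  · have hkt : k = t := by omega
    subst hkt
    have hface : ∀ i : Fin (k + 2), Finset.univ.image (fun j => v (i.succAbove j)) ∈ A.S := by
      intro i
      refine hbd _ ?_ ?_ ?_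
      · intro a ha
        obtain ⟨j, _, rfl⟩ := Finset.mem_image.1 ha
        exact Finset.mem_image_of_mem v (Finset.mem_univ _)
      · exact Finset.univ_nonempty.image _
      · intro h1
        have h2 : (Finset.univ.image fun j => v (i.succAbove j)).card ≤ k + 1 := by
          refine Finset.card_image_le.trans ?_
          rw [Finset.card_univ, Fintype.card_fin]
        rw [h1, hcard] at h2
        omega
    have hsm : ∀ i : Fin (k + 2), StrictMono fun j => v (i.succAbove j) := fun i =>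
      hv.comp (Fin.strictMono_succAbove i)
    obtain ⟨G, hG⟩ := oc.ext f (by
      have h1 : ∀ i : Fin (k + 2), oc.c (bdFace f i) = y' fun j => v (i.succAbove j) := by
        intro i
        rw [← hFA _ ⟨(hsm i).monotone, hface i⟩ (hsm i)]
        congr 1
        ext x
        show FA ⟨affV v (face i x).1, _⟩ = FA ⟨affV (fun j => v (i.succAbove j)) x.1, _⟩
        congr 1
        exact Subtype.ext (affV_face v i x)
      simp only [h1]
      exact hy' v ⟨hv.monotone, hsL⟩)
    exact key G hG fun w _ hw hwv => absurd (hcw w hw hwv) (by omega)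

/-- the new simplex is a vertex -/
theorem step_vertex {t : ℕ} (ht : 2 ≤ t) {Y : Type} [TopologicalSpace Y] (hY : Conn Y t)
    {P : Type} [AddCommGroup P] (oc : OCData Y t P) (A A' : Cx) (y' : Coch (t + 1) P)
    (s : Finset ℕ) (hs : s.card = 1) (hA' : A'.S = insert s A.S) (hsA : s ∉ A.S)
    (FA : C(A.real, Y)) (hFA : Inv oc y' A FA) :
    ∃ F' : C(A'.real, Y), (∀ (x : ℕ → ℝ) (hx : x ∈ A.real) (hx' : x ∈ A'.real),
      F' ⟨x, hx'⟩ = FA ⟨x, hx⟩) ∧ Inv oc y' A' F' := by
  obtain ⟨y₀⟩ := hY.1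
  obtain ⟨F', hF'1, -⟩ := extend_simplex A A' s hA' hsA FA (ContinuousMap.const _ y₀)
    (fun x hx hx' => by
      exfalso
      have h1 := fsupp_subset_of_simp hx'
      have h2 := fsupp_nonempty hx'
      have h3 : fsupp x = s := Finset.eq_of_subset_of_card_le h1 (by
        rw [hs]; exact Finset.card_pos.2 h2)
      exact hsA (h3 ▸ fsupp_mem A hx))
  refine ⟨F', hF'1, fun w hw hmono => ?_⟩
  have h1 := hw.2
  rw [hA', Finset.mem_insert] at h1
  refine inv_old hFA hF'1 w hw hmono (h1.resolve_left ?_)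
  intro h
  have h2 : (Finset.univ.image w).card = t + 1 := by
    rw [Finset.card_image_of_injective _ hmono.injective, Finset.card_univ, Fintype.card_fin]
  rw [h, hs] at h2
  omega

end S2a_aux

/-- [QB-S2a] Filling: a map on a subcomplex `B` of a complex `L` of dimension `≤ t+1` extends over `L`
if its obstruction cocycle extends to a cocycle on `L`. -/
theorem fill (t : ℕ) (ht : 2 ≤ t) (Y : Type) [TopologicalSpace Y] (hY : Conn Y t) (P : Type)
    [AddCommGroup P] (oc : OCData Y t P) (B L : Cx) (hB : B.S ⊆ L.S)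
    (hdim : ∀ s ∈ L.S, s.card ≤ t + 2) (F : C(B.real, Y)) (y' : Coch (t + 1) P)
    (hy' : IsCocyc L y')
    (hF : ∀ (v : Fin (t + 1) → ℕ) (hv : adm B v), StrictMono v →
      oc.c (F.comp (aff B v hv.2)) = y' v) :
    ∃ F' : C(L.real, Y), ∀ (x : ℕ → ℝ) (hx : x ∈ B.real) (hx' : x ∈ L.real),
      F' ⟨x, hx'⟩ = F ⟨x, hx⟩ := by
  -- induction on the number of missing simplices
  have main : ∀ (m : ℕ) (A : Cx), A.S ⊆ L.S → (L.S \ A.S).card = m → ∀ FA : C(A.real, Y),
      S2a_aux.Inv oc y' A FA → ∃ F' : C(L.real, Y), ∀ (x : ℕ → ℝ) (hx : x ∈ A.real)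
        (hx' : x ∈ L.real), F' ⟨x, hx'⟩ = FA ⟨x, hx⟩ := by
    intro m
    induction m with
    | zero =>
      intro A hA hm FA _
      have h1 : A.S = L.S := Finset.Subset.antisymm hA
        (Finset.sdiff_eq_empty_iff_subset.1 (Finset.card_eq_zero.1 hm))
      have h2 : A = L := Cx.ext h1
      subst h2
      exact ⟨FA, fun x hx hx' => rfl⟩
    | succ m ih =>
      intro A hA hm FA hFA
      have hne : (L.S \ A.S).Nonempty := Finset.card_pos.1 (by omega)
      obtain ⟨s, hs, hmin⟩ := Finset.exists_min_image (L.S \ A.S) Finset.card hne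
      obtain ⟨hsL, hsA⟩ := Finset.mem_sdiff.1 hs
      have hbd : ∀ r ⊆ s, r.Nonempty → r ≠ s → r ∈ A.S := by
        intro r hr hrn hrs
        by_contra hcon
        have h1 := hmin r (Finset.mem_sdiff.2 ⟨L.down s hsL r hr hrn, hcon⟩)
        have h2 := Finset.card_lt_card (Finset.ssubset_iff_subset_ne.2 ⟨hr, hrs⟩)
        omega
      let A' : Cx := ⟨insert s A.S, fun r hr => by
          rcases Finset.mem_insert.1 hr with rfl | h
          · exact L.ne _ hsL
          · exact A.ne r h, fun r hr q hq hqn => by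
          rcases Finset.mem_insert.1 hr with rfl | h
          · by_cases h1 : q = r
            · exact Finset.mem_insert.2 (Or.inl h1)
            · exact Finset.mem_insert_of_mem (hbd q hq hqn h1)
          · exact Finset.mem_insert_of_mem (A.down r h q hq hqn)⟩
      have hA' : A'.S = insert s A.S := rfl
      have hA'L : A'.S ⊆ L.S := by
        rw [hA']
        exact Finset.insert_subset hsL hA
      have hm' : (L.S \ A'.S).card = m := by
        have h1 : L.S \ A'.S = (L.S \ A.S).erase s := by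
          rw [hA']
          ext r
          simp only [Finset.mem_sdiff, Finset.mem_insert, Finset.mem_erase]
          tauto
        rw [h1, Finset.card_erase_of_mem hs, hm]
        rfl
      have hstep : ∃ F' : C(A'.real, Y), (∀ (x : ℕ → ℝ) (hx : x ∈ A.real) (hx' : x ∈ A'.real),
          F' ⟨x, hx'⟩ = FA ⟨x, hx⟩) ∧ S2a_aux.Inv oc y' A' F' := by
        have hspos : 0 < s.card := Finset.card_pos.2 (L.ne s hsL)
        by_cases hs1 : s.card = 1
        · exact S2a_aux.step_vertex ht hY oc A A' y' s hs1 hA' hsA FA hFA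
        · obtain ⟨k, hk⟩ : ∃ k, s.card = k + 2 := ⟨s.card - 2, by omega⟩
          have hkt : k ≤ t := by
            have := hdim s hsL
            omega
          have him : Finset.univ.image (s.orderEmbOfFin hk) = s := by
            ext a
            rw [Finset.mem_image]
            constructor
            · rintro ⟨j, _, rfl⟩
              exact Finset.orderEmbOfFin_mem s hk j
            · intro ha
              have h1 : a ∈ Set.range (s.orderEmbOfFin hk) := by
                rw [Finset.range_orderEmbOfFin]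
                exact ha
              obtain ⟨j, hj⟩ := h1
              exact ⟨j, Finset.mem_univ j, hj⟩
          refine S2a_aux.step_cell hY oc A A' L y' hy' hkt (s.orderEmbOfFin hk)
            (s.orderEmbOfFin hk).strictMono ?_ ?_ ?_ ?_ FA hFA
          · rw [him]; exact hsL
          · rw [him]
          · rw [him]; exact hsA
          · rw [him]; exact hbd
      obtain ⟨F₁, h1, h2⟩ := hstep
      obtain ⟨F', hF'⟩ := ih A' hA'L hm' F₁ h2
      refine ⟨F', fun x hx hx' => ?_⟩
      have hxA' : x ∈ A'.real := real_mono (by rw [hA']; exact Finset.subset_insert s A.S) hx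
      rw [hF' x hxA' hx', h1 x hx hxA']
  exact main _ B hB rfl F hF

end Pool.QB
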