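import Pool.Agent.MP_c51823_gt.QB.S0a
import Pool.Agent.MP_c51823_gt.QB.OCDef

/-!
# [QB-S2b]
-/

set_option autoImplicit false
open Topology

namespace Pool.QB

/-- [QB-S2b] the obstruction cochain is a cocycle -/
theorem obstruction_cocycle (t : ℕ) (Y : Type) [TopologicalSpace Y] (P : Type) [AddCommGroup P]
    (oc : OCData Y t P) (B : Cx) (F : C((B.skel (t + 1)).real, Y)) (y : Coch (t + 1) P)
    (hy : ∀ (v : Fin (t + 1) → ℕ) (hv : adm (B.skel (t + 1)) v),
      y v = oc.c (F.comp (aff _ v hv.2))) : IsCocyc B y := by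
  intro v hv
  have hv2 : Finset.univ.image v ∈ (B.skel (t + 1)).S := by
    refine Finset.mem_filter.2 ⟨hv.2, Finset.card_image_le.trans ?_⟩
    rw [Finset.card_univ, Fintype.card_fin]
  have hvi : ∀ i : Fin (t + 2), adm (B.skel (t + 1)) (fun j => v (i.succAbove j)) := by
    intro i
    refine ⟨hv.1.comp (Fin.strictMono_succAbove i).monotone, ?_⟩
    refine (B.skel (t + 1)).down _ hv2 _ ?_ (Finset.univ_nonempty.image _)
    intro a ha
    obtain ⟨j, -, rfl⟩ := Finset.mem_image.1 ha
    exact Finset.mem_image_of_mem _ (Finset.mem_univ _)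
  have h1 := oc.coc (F.comp (aff _ v hv2))
  unfold dd
  rw [← h1]
  refine Finset.sum_congr rfl fun i _ => ?_
  rw [hy _ (hvi i)]
  congr 2
  refine ContinuousMap.ext fun x => ?_
  refine congrArg F (Subtype.ext ?_)
  exact (affV_face v i x).symm

end Pool.QB
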