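import Pool.Agent.MP_c51823_gt.QB.S2d
import Pool.Agent.MP_c51823_gt.QB.S2b
import Pool.Agent.MP_c51823_gt.QB.R3
import Pool.Agent.MP_c51823_gt.QB.K2
import Pool.Agent.MP_c51823_gt.QB.OC

/-!
# [QB-S2c] Adding one simplex, QB_PROOF.md 8.3. `y(v) = c(F ∘ aff v)` on `r.pull (bd σ)` is a cocycle (S2b) with values in a
finitely generated subgroup `P'`; `EB_fg` (R3) for `P'`; new `F` = `F ∘ |φ|` on the old part; then S2d (`pushV_affV`).
-/

set_option autoImplicit false
open Topology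

namespace Pool.QB

namespace S2c_aux

theorem mem_bd {σ s : Finset ℕ} (h : s ∈ (Cx.bd σ).S) : s ⊆ σ :=
  Finset.mem_powerset.1 (Finset.mem_filter.1 h).1

theorem bd_sub {T T₂ : Cx} {σ : Finset ℕ} (hT₂ : T₂.S = insert σ T.S) :
    (Cx.bd σ).S ⊆ T.S := by
  intro s hs
  obtain ⟨h1, h2, h3⟩ := Finset.mem_filter.1 hs
  have h4 : s ∈ T₂.S := T₂.down σ (by rw [hT₂]; exact Finset.mem_insert_self _ _) s
    (Finset.mem_powerset.1 h1) h2
  rw [hT₂] at h4
  exact (Finset.mem_insert.1 h4).resolve_left h3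

theorem pull_mono {K' K A B : Cx} (r : RefData K' K) (h : A.S ⊆ B.S) :
    (r.pull A).S ⊆ (r.pull B).S := by
  intro s hs
  obtain ⟨h1, h2⟩ := Finset.mem_filter.1 hs
  exact Finset.mem_filter.2 ⟨h1, h h2⟩

theorem skel_mono {A B : Cx} (h : A.S ⊆ B.S) (t : ℕ) : (A.skel t).S ⊆ (B.skel t).S := by
  intro s hs
  obtain ⟨h1, h2⟩ := Finset.mem_filter.1 hs
  exact Finset.mem_filter.2 ⟨h h1, h2⟩

/-- images of simplices in a pulled back subcomplex -/
theorem image_mem {K'' K' K A : Cx} (hA : A.S ⊆ K.S) (a : RefData K' K) (b : RefData K'' K')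
    {s : Finset ℕ} (hs : s ∈ ((a.comp b).pull A).S) : s.image b.φ ∈ (a.pull A).S := by
  obtain ⟨h1, h2⟩ := Finset.mem_filter.1 hs
  have h3 : b.car s ∈ K'.S := b.car_mem s h1
  have h4 : s.image b.φ ⊆ b.car s := b.φ_sub s h1
  have h5 : (s.image b.φ).Nonempty := (K''.ne s h1).image _
  have h6 : s.image b.φ ∈ K'.S := K'.down _ h3 _ h4 h5
  refine Finset.mem_filter.2 ⟨h6, ?_⟩
  refine A.down _ h2 _ (a.car_mono _ h3 _ h4 h5) (K.ne _ (a.car_mem _ h6))

theorem image_mem_skel {K'' K' K A : Cx} (hA : A.S ⊆ K.S) (a : RefData K' K)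
    (b : RefData K'' K') (t : ℕ) {s : Finset ℕ} (hs : s ∈ (((a.comp b).pull A).skel t).S) :
    s.image b.φ ∈ ((a.pull A).skel t).S := by
  obtain ⟨h1, h2⟩ := Finset.mem_filter.1 hs
  exact Finset.mem_filter.2 ⟨image_mem hA a b h1, Finset.card_image_le.trans h2⟩

/-- admissible tuples of a finite complex form a finite set -/
theorem finite_adm (K : Cx) (n : ℕ) : {v : Fin n → ℕ | Finset.univ.image v ∈ K.S}.Finite := by
  classical
  refine Set.Finite.subset (Set.Finite.pi' (t := fun _ : Fin n => ((K.S.sup id : Finset ℕ) : Set ℕ))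
    (fun _ => Finset.finite_toSet _)) ?_
  intro v hv i
  have : v i ∈ Finset.univ.image v := Finset.mem_image_of_mem _ (Finset.mem_univ i)
  exact Finset.mem_coe.2 (Finset.mem_sup.2 ⟨_, hv, this⟩)

end S2c_aux

open S2c_aux

/-- [QB-S2c] Adding one simplex. -/
theorem push_simplex {h : HT} {u : h.H 0 (absP S4)} (h4 : EB h u 4 ℤ) (t : ℕ) (ht : 3 ≤ t)
    (S : Stage h u) (T T₂ : Cx) (hT : T.S ⊆ S.K.S) (σ : Finset ℕ) (hσ : σ ∈ S.K.S)
    (hσT : σ ∉ T.S) (hT₂ : T₂.S = insert σ T.S) (hcard : t + 2 ≤ σ.card)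
    (hskel : (S.K.skel t).S ⊆ T.S) (S' : Stage h u) (r : Refine S' S)
    (F : C(((r.pull T).skel (t + 1)).real, (S.K.skel t).real)) (hF : CarBy r.car F) :
    ∃ (S'' : Stage h u) (r' : Refine S'' S)
      (F' : C(((r'.pull T₂).skel (t + 1)).real, (S.K.skel t).real)), CarBy r'.car F' := by
  classical
  have hY : Conn ((Cx.full σ).skel t).real t := conn_skel σ (S.K.ne σ hσ) t
  obtain ⟨P, instP, c, hc1, hc2, hc3⟩ := OC ((Cx.full σ).skel t).real t (by omega) hY
  let oc : OCData ((Cx.full σ).skel t).real t P := ⟨c, hc1, hc2, hc3⟩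
  have hbd : (Cx.bd σ).S ⊆ T.S := bd_sub hT₂
  have hbdK : (Cx.bd σ).S ⊆ S.K.S := hbd.trans hT
  -- the subcomplex
  let B : Cx := r.pull (Cx.bd σ)
  have hBT : (B.skel (t + 1)).S ⊆ ((r.pull T).skel (t + 1)).S :=
    skel_mono (pull_mono _ hbd) _
  have hBreal : ∀ x : (B.skel (t + 1)).real, x.1 ∈ ((r.pull T).skel (t + 1)).real :=
    fun x => real_mono hBT x.2
  have hFB : ∀ x : (B.skel (t + 1)).real,
      (F ⟨x.1, hBreal x⟩).1 ∈ ((Cx.full σ).skel t).real := by
    intro x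
    have h1 : fsupp x.1 ∈ (B.skel (t + 1)).S := fsupp_mem _ x.2
    have h2 : r.car (fsupp x.1) ∈ (Cx.bd σ).S :=
      (Finset.mem_filter.1 (Finset.mem_filter.1 h1).1).2
    have h3 : fsupp (F ⟨x.1, hBreal x⟩).1 ⊆ σ :=
      (hF ⟨x.1, hBreal x⟩).trans (mem_bd h2)
    have h5 : fsupp (F ⟨x.1, hBreal x⟩).1 ∈ (S.K.skel t).S := fsupp_mem _ (F ⟨x.1, hBreal x⟩).2
    refine mem_real_of_fsupp (S.K.skel t) ((Cx.full σ).skel t) (F ⟨x.1, hBreal x⟩).2 ?_
    refine Finset.mem_filter.2 ⟨Finset.mem_filter.2 ⟨Finset.mem_powerset.2 h3, ?_⟩,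
      (Finset.mem_filter.1 h5).2⟩
    exact (S.K.skel t).ne _ h5
  let FB : C((B.skel (t + 1)).real, ((Cx.full σ).skel t).real) :=
    ⟨fun x => ⟨(F ⟨x.1, hBreal x⟩).1, hFB x⟩, by
      refine Continuous.subtype_mk ?_ _
      refine continuous_subtype_val.comp (F.continuous.comp ?_)
      exact Continuous.subtype_mk continuous_subtype_val _⟩
  -- the obstruction cochain
  let y : Coch (t + 1) P := fun v =>
    if hv : adm (B.skel (t + 1)) v then oc.c (FB.comp (aff _ v hv.2)) else 0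
  have hy1 : ∀ (v : Fin (t + 1) → ℕ) (hv : adm (B.skel (t + 1)) v),
      y v = oc.c (FB.comp (aff _ v hv.2)) := fun v hv => dif_pos hv
  have hyc : IsCocyc B y := obstruction_cocycle t _ P oc B FB y hy1
  -- finitely generated coefficients
  have hfin : (Set.range y).Finite := by
    refine Set.Finite.subset (((finite_adm B (t + 1)).image y).union (Set.finite_singleton 0)) ?_
    rintro _ ⟨v, rfl⟩
    by_cases hv : adm (B.skel (t + 1)) v
    · exact Or.inl ⟨v, (Finset.mem_filter.1 hv.2).1, rfl⟩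
    · exact Or.inr (dif_neg hv)
  let P' : AddSubgroup P := AddSubgroup.closure (Set.range y)
  have hyP : ∀ v, y v ∈ P' := fun v => AddSubgroup.subset_closure ⟨v, rfl⟩
  haveI : Module.Finite ℤ P' := by
    haveI : Finite (Set.range y) := hfin
    have hfg : AddSubgroup.FG P' := ⟨hfin.toFinset, by simp [P']⟩
    have : AddGroup.FG P' := (AddGroup.fg_iff_addSubgroup_fg P').2 hfg
    exact Module.Finite.iff_addGroup_fg.2 this
  let yP : Coch (t + 1) P' := fun v => ⟨y v, hyP v⟩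
  have hyPc : IsCocyc B yP := by
    intro v hv
    apply Subtype.ext
    have := hyc v hv
    simpa [dd, yP] using this
  obtain ⟨S'', r'', y'', hy'', hyext⟩ := EB_fg h4 (n := t + 1) (by omega) P' S' B
    (Finset.filter_subset _ _) yP hyPc
  obtain ⟨rr, hrr, -⟩ := exists_comp r r''
  -- the new map
  have hcar : ∀ s, rr.car s = r.car (r''.car s) := fun s => by rw [hrr]; rfl
  have hreal : ∀ s ∈ ((rr.pull T).skel (t + 1)).S, s.image r''.φ ∈ ((r.pull T).skel (t + 1)).S := by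
    intro s hs
    rw [hrr] at hs
    exact image_mem_skel hT _ _ _ hs
  obtain ⟨R, hR⟩ := exists_realize r''.φ hreal
  let F₁ : C(((rr.pull T).skel (t + 1)).real, (S.K.skel t).real) := F.comp R
  have hF₁ : CarBy rr.car F₁ := by
    intro x
    have h1 : fsupp x.1 ∈ ((rr.pull T).skel (t + 1)).S := fsupp_mem _ x.2
    have h1' : fsupp x.1 ∈ S''.K.S := (Finset.mem_filter.1 (Finset.mem_filter.1 h1).1).1
    have h2 : fsupp (R x).1 = (fsupp x.1).image r''.φ := by
      rw [hR]; exact (pushV_mem _ hreal x.2).2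
    have h3 := hF (R x)
    rw [h2] at h3
    rw [hcar]
    refine h3.trans ?_
    exact r.car_mono _ (r''.car_mem _ h1') _ (r''.φ_sub _ h1') ((S''.K.ne _ h1').image _)
  obtain ⟨F', hF'⟩ := fill_glue rr.toRefData t (by omega) T T₂ hT σ hσ hσT hT₂ P oc hY F₁ hF₁
    (fun v => (y'' v : P)) (by
      intro v hv
      have := congrArg (Subtype.val) (hy'' v hv)
      simpa [dd] using this) (by
      intro v hvm hv G hG
      have hvB : adm (r''.pull B) v := by
        refine ⟨hv.1, ?_⟩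
        have h1 := hv.2
        rw [hrr, pull_comp] at h1
        exact h1
      have hvB' : adm (B.skel (t + 1)) (r''.φ ∘ v) := by
        refine ⟨r''.mono.comp hv.1, ?_⟩
        have h1 := hv.2
        rw [hrr] at h1
        have h2 := image_mem hbdK _ _ h1
        rw [Finset.image_image] at h2
        refine Finset.mem_filter.2 ⟨h2, ?_⟩
        refine Finset.card_image_le.trans ?_
        simp
      have e1 : (y'' v : P) = y (r''.φ ∘ v) := congrArg Subtype.val (hyext v hvB)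
      rw [e1, hy1 _ hvB']
      congr 1
      ext x : 1
      apply Subtype.ext
      have hvT : Finset.univ.image v ∈ ((rr.pull T).skel (t + 1)).S := by
        refine Finset.mem_filter.2 ⟨pull_mono _ hbd hv.2, ?_⟩
        refine Finset.card_image_le.trans ?_
        simp
      have hx : affV v x.1 ∈ ((rr.pull T).skel (t + 1)).real := affV_mem _ v hvT x
      rw [hG x hx]
      have e2 : (R ⟨affV v x.1, hx⟩).1 = affV (r''.φ ∘ v) x.1 := by
        rw [hR, pushV_affV]
      have e3 : R ⟨affV v x.1, hx⟩ = ⟨affV (r''.φ ∘ v) x.1, e2 ▸ (R ⟨affV v x.1, hx⟩).2⟩ :=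
        Subtype.ext e2
      change (F (R ⟨affV v x.1, hx⟩)).1 = _
      rw [e3]
      rfl)
  exact ⟨S'', rr, F', hF'⟩

end Pool.QB
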