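import Pool.Agent.MP_c51823_gt.QB.S2a
import Pool.Agent.MP_c51823_gt.QB.SDef

/-!
# [QB-S2d] Proof: QB_PROOF.md 8.3. `L = (r.pull (Cx.full σ)).skel (t+1)`, `B = (r.pull (Cx.bd σ)).skel (t+1)`; `F` on `B` has values in
`Y = |σ^(t)|`; `fill`, then `glue_real` (S1).
-/

set_option autoImplicit false
open Topology

namespace Pool.QB

namespace S2d_aux

theorem mem_skel {K : Cx} {t : ℕ} {s : Finset ℕ} :
    s ∈ (K.skel t).S ↔ s ∈ K.S ∧ s.card ≤ t + 1 := by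
  simp [Cx.skel]

theorem mem_pull {K' K : Cx} (r : RefData K' K) (A : Cx) {s : Finset ℕ} :
    s ∈ (r.pull A).S ↔ s ∈ K'.S ∧ r.car s ∈ A.S := by
  simp [RefData.pull]

theorem mem_full {s σ : Finset ℕ} : s ∈ (Cx.full σ).S ↔ s ⊆ σ ∧ s.Nonempty := by
  simp [Cx.full]

theorem mem_bd {s σ : Finset ℕ} : s ∈ (Cx.bd σ).S ↔ s ⊆ σ ∧ s.Nonempty ∧ s ≠ σ := by
  simp [Cx.bd]

end S2d_aux

open S2d_aux

/-- [QB-S2d] Adding one simplex, the map part: the new map is `F` on the old part and is obtained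
from `fill` on the simplices `s` with `car s ⊆ σ`, with values in `Y = |σ^(t)|`. -/
theorem fill_glue {K'' K : Cx} (r : RefData K'' K) (t : ℕ) (ht : 2 ≤ t) (T T₂ : Cx)
    (hT : T.S ⊆ K.S) (σ : Finset ℕ) (hσ : σ ∈ K.S) (hσT : σ ∉ T.S) (hT₂ : T₂.S = insert σ T.S)
    (P : Type) [AddCommGroup P] (oc : OCData ((Cx.full σ).skel t).real t P)
    (hY : Conn ((Cx.full σ).skel t).real t)
    (F : C(((r.pull T).skel (t + 1)).real, (K.skel t).real)) (hF : CarBy r.car F)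
    (y' : Coch (t + 1) P) (hy' : IsCocyc K'' y')
    (hFy : ∀ (v : Fin (t + 1) → ℕ), StrictMono v → adm (r.pull (Cx.bd σ)) v →
      ∀ G : C(Dl t, ((Cx.full σ).skel t).real),
        (∀ (x : Dl t) (hx : affV v x.1 ∈ ((r.pull T).skel (t + 1)).real),
          (G x).1 = (F ⟨affV v x.1, hx⟩).1) → oc.c G = y' v) :
    ∃ F' : C(((r.pull T₂).skel (t + 1)).real, (K.skel t).real), CarBy r.car F' := by
  classical
  -- proper faces of `σ` belong to `T`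
  have hbdT : (Cx.bd σ).S ⊆ T.S := by
    intro s hs
    obtain ⟨h1, h2, h3⟩ := mem_bd.1 hs
    have h4 : s ∈ T₂.S := T₂.down σ (by rw [hT₂]; exact Finset.mem_insert_self _ _) s h1 h2
    rw [hT₂, Finset.mem_insert] at h4
    exact h4.resolve_left h3
  have hfullK : (Cx.full σ).S ⊆ K.S := by
    intro s hs
    obtain ⟨h1, h2⟩ := mem_full.1 hs
    exact K.down σ hσ s h1 h2
  have hbd_full : (Cx.bd σ).S ⊆ (Cx.full σ).S := by
    intro s hs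
    obtain ⟨h1, h2, -⟩ := mem_bd.1 hs
    exact mem_full.2 ⟨h1, h2⟩
  have hBL : ((r.pull (Cx.bd σ)).skel (t + 1)).S ⊆ ((r.pull (Cx.full σ)).skel (t + 1)).S := by
    intro s hs
    rw [mem_skel, mem_pull] at hs
    rw [mem_skel, mem_pull]
    exact ⟨⟨hs.1.1, hbd_full hs.1.2⟩, hs.2⟩
  have hBL₁ : ((r.pull (Cx.bd σ)).skel (t + 1)).S ⊆ ((r.pull T).skel (t + 1)).S := by
    intro s hs
    rw [mem_skel, mem_pull] at hs
    rw [mem_skel, mem_pull]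
    exact ⟨⟨hs.1.1, hbdT hs.1.2⟩, hs.2⟩
  have hLK : ((r.pull (Cx.full σ)).skel (t + 1)).S ⊆ K''.S := by
    intro s hs
    rw [mem_skel, mem_pull] at hs
    exact hs.1.1
  have hint : ∀ s, s ∈ ((r.pull T).skel (t + 1)).S → s ∈ ((r.pull (Cx.full σ)).skel (t + 1)).S → s ∈ ((r.pull (Cx.bd σ)).skel (t + 1)).S := by
    intro s h1 h2
    rw [mem_skel, mem_pull] at h1
    rw [mem_skel, mem_pull] at h2
    rw [mem_skel, mem_pull]
    refine ⟨⟨h1.1.1, ?_⟩, h1.2⟩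
    obtain ⟨h3, h4⟩ := mem_full.1 h2.1.2
    refine mem_bd.2 ⟨h3, h4, ?_⟩
    intro h5
    exact hσT (h5 ▸ h1.1.2)
  -- the map on `((r.pull (Cx.bd σ)).skel (t + 1))`
  have hFB : ∀ x : ((r.pull (Cx.bd σ)).skel (t + 1)).real, (F ⟨x.1, real_mono hBL₁ x.2⟩).1 ∈ ((Cx.full σ).skel t).real := by
    intro x
    have h1 : fsupp (F ⟨x.1, real_mono hBL₁ x.2⟩).1 ⊆ r.car (fsupp x.1) :=
      hF ⟨x.1, real_mono hBL₁ x.2⟩
    generalize F ⟨x.1, real_mono hBL₁ x.2⟩ = z at h1 ⊢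
    have h2 : fsupp x.1 ∈ ((r.pull (Cx.bd σ)).skel (t + 1)).S := fsupp_mem ((r.pull (Cx.bd σ)).skel (t + 1)) x.2
    rw [mem_skel, mem_pull] at h2
    obtain ⟨h3, -, -⟩ := mem_bd.1 h2.1.2
    have h4 : fsupp z.1 ∈ (K.skel t).S := fsupp_mem _ z.2
    refine mem_real_of_fsupp (K.skel t) _ z.2 ?_
    rw [mem_skel] at h4 ⊢
    exact ⟨mem_full.2 ⟨h1.trans h3, K.ne _ h4.1⟩, h4.2⟩
  let FB : C(((r.pull (Cx.bd σ)).skel (t + 1)).real, ((Cx.full σ).skel t).real) :=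
    ⟨fun x => ⟨(F ⟨x.1, real_mono hBL₁ x.2⟩).1, hFB x⟩, by fun_prop⟩
  obtain ⟨F₂, hF₂⟩ := fill t ht ((Cx.full σ).skel t).real hY P oc ((r.pull (Cx.bd σ)).skel (t + 1)) ((r.pull (Cx.full σ)).skel (t + 1)) hBL (by
    intro s hs
    rw [mem_skel] at hs
    exact hs.2) FB y' (by
    intro v hv
    exact hy' v ⟨hv.1, hLK hv.2⟩) (by
    intro v hv hvs
    refine hFy v hvs ⟨hv.1, skel_sub _ _ hv.2⟩ _ ?_
    intro x hx
    rfl)
  -- the inclusion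
  have hincl : ((Cx.full σ).skel t).real ⊆ (K.skel t).real := by
    refine real_mono ?_
    intro s hs
    rw [mem_skel] at hs ⊢
    exact ⟨hfullK hs.1, hs.2⟩
  let F₂' : C(((r.pull (Cx.full σ)).skel (t + 1)).real, (K.skel t).real) :=
    ⟨fun x => ⟨(F₂ x).1, hincl (F₂ x).2⟩, by fun_prop⟩
  have hunion : ((r.pull T₂).skel (t + 1)).S = ((r.pull T).skel (t + 1)).S ∪ ((r.pull (Cx.full σ)).skel (t + 1)).S := by
    ext s
    rw [Finset.mem_union, mem_skel, mem_skel, mem_skel, mem_pull, mem_pull, mem_pull,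
      hT₂, Finset.mem_insert]
    constructor
    · rintro ⟨⟨h1, h2⟩, h3⟩
      rcases h2 with h2 | h2
      · right
        refine ⟨⟨h1, ?_⟩, h3⟩
        rw [h2]
        exact mem_full.2 ⟨Finset.Subset.refl _, K.ne _ hσ⟩
      · left
        exact ⟨⟨h1, h2⟩, h3⟩
    · rintro (⟨⟨h1, h2⟩, h3⟩ | ⟨⟨h1, h2⟩, h3⟩)
      · exact ⟨⟨h1, Or.inr h2⟩, h3⟩
      · refine ⟨⟨h1, ?_⟩, h3⟩
        by_cases h4 : r.car s = σ
        · exact Or.inl h4
        · right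
          obtain ⟨h5, h6⟩ := mem_full.1 h2
          exact hbdT (mem_bd.2 ⟨h5, h6, h4⟩)
  obtain ⟨F', h1, h2⟩ := glue_real ((r.pull T).skel (t + 1)) ((r.pull (Cx.full σ)).skel (t + 1)) ((r.pull T₂).skel (t + 1)) hunion F F₂' (by
    intro x hx₁ hx₂
    have hxB : x ∈ ((r.pull (Cx.bd σ)).skel (t + 1)).real := mem_real_of_fsupp ((r.pull T).skel (t + 1)) ((r.pull (Cx.bd σ)).skel (t + 1)) hx₁
      (hint _ (fsupp_mem ((r.pull T).skel (t + 1)) hx₁) (fsupp_mem ((r.pull (Cx.full σ)).skel (t + 1)) hx₂))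
    apply Subtype.ext
    change (F ⟨x, hx₁⟩).1 = (F₂ ⟨x, hx₂⟩).1
    rw [hF₂ x hxB hx₂]
    rfl)
  refine ⟨F', ?_⟩
  rintro ⟨x, hx⟩
  have h3 : fsupp x ∈ ((r.pull T).skel (t + 1)).S ∪ ((r.pull (Cx.full σ)).skel (t + 1)).S := by
    rw [← hunion]
    exact fsupp_mem _ hx
  by_cases h4 : fsupp x ∈ ((r.pull T).skel (t + 1)).S
  · have h5 : x ∈ ((r.pull T).skel (t + 1)).real := mem_real_of_fsupp _ ((r.pull T).skel (t + 1)) hx h4
    rw [h1 x h5 hx]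
    exact hF ⟨x, h5⟩
  · have h6 : fsupp x ∈ ((r.pull (Cx.full σ)).skel (t + 1)).S := (Finset.mem_union.1 h3).resolve_left h4
    have h5 : x ∈ ((r.pull (Cx.full σ)).skel (t + 1)).real := mem_real_of_fsupp _ ((r.pull (Cx.full σ)).skel (t + 1)) hx h6
    rw [h2 x h5 hx]
    have h7 : r.car (fsupp x) = σ := by
      by_contra h8
      apply h4
      rw [mem_skel, mem_pull] at h6
      rw [mem_skel, mem_pull]
      obtain ⟨h9, h10⟩ := mem_full.1 h6.1.2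
      exact ⟨⟨h6.1.1, hbdT (mem_bd.2 ⟨h9, h10, h8⟩)⟩, h6.2⟩
    show fsupp (F₂ ⟨x, h5⟩).1 ⊆ r.car (fsupp x)
    rw [h7]
    have h8 : fsupp (F₂ ⟨x, h5⟩).1 ∈ ((Cx.full σ).skel t).S := fsupp_mem _ (F₂ ⟨x, h5⟩).2
    rw [mem_skel] at h8
    exact (mem_full.1 h8.1).1

end Pool.QB
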