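import Pool.Agent.MP_c51823_gt.QB.S2c

/-!
# [QB-S3] STEP_t: start with `T = K^(t)`, `F` = realisation of `φ` for the identity refinement, add the
simplices of dimension `≥ t+1` one at a time (S2c).
-/

set_option autoImplicit false
open Topology

namespace Pool.QB

namespace S3_aux

theorem pull_self {K' K : Cx} (r : RefData K' K) : r.pull K = K' := by
  refine Cx.ext ?_
  show K'.S.filter (fun s => r.car s ∈ K.S) = K'.S
  exact Finset.filter_true_of_mem fun s hs => r.car_mem s hs

/-- the start: the skeleton and the identity -/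
theorem start {h : HT} {u : h.H 0 (absP S4)} (t : ℕ) (S : Stage h u) :
    ∃ (S' : Stage h u) (r : Refine S' S)
      (F : C(((r.pull (S.K.skel t)).skel (t + 1)).real, (S.K.skel t).real)), CarBy r.car F := by
  refine ⟨S, Refine.id S, ?_⟩
  have e : ((Refine.id S).pull (S.K.skel t)).skel (t + 1) = S.K.skel t := by
    refine Cx.ext ?_
    ext s
    constructor
    · intro hs
      have h1 := (Finset.mem_filter.1 hs).1
      exact (Finset.mem_filter.1 h1).2
    · intro hs
      have h1 := Finset.mem_filter.1 hs
      refine Finset.mem_filter.2 ⟨Finset.mem_filter.2 ⟨h1.1, hs⟩, ?_⟩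
      have := h1.2
      omega
  rw [e]
  exact ⟨ContinuousMap.id _, fun x => Finset.Subset.refl _⟩

end S3_aux

/-- [QB-S3] STEP_t (8.3). -/
theorem step_one {h : HT} {u : h.H 0 (absP S4)} (h4 : EB h u 4 ℤ) (t : ℕ) (ht : 3 ≤ t)
    (S : Stage h u) : ∃ (S' : Stage h u) (r : Refine S' S)
      (F : C((S'.K.skel (t + 1)).real, (S.K.skel t).real)), CarBy r.car F := by
  have main : ∀ (m : ℕ) (T : Cx), T.S ⊆ S.K.S → (S.K.skel t).S ⊆ T.S →
      (S.K.S \ T.S).card = m → (∃ (S' : Stage h u) (r : Refine S' S)
        (F : C(((r.pull T).skel (t + 1)).real, (S.K.skel t).real)), CarBy r.car F) →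
      ∃ (S' : Stage h u) (r : Refine S' S)
        (F : C(((r.pull S.K).skel (t + 1)).real, (S.K.skel t).real)), CarBy r.car F := by
    intro m
    induction m with
    | zero =>
      intro T hT _ hm hex
      have h1 : T.S = S.K.S := Finset.Subset.antisymm hT
        (Finset.sdiff_eq_empty_iff_subset.1 (Finset.card_eq_zero.1 hm))
      have h2 : T = S.K := Cx.ext h1
      rw [h2] at hex
      exact hex
    | succ m ih =>
      intro T hT hskel hm hex
      have hne : (S.K.S \ T.S).Nonempty := Finset.card_pos.1 (by omega)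
      obtain ⟨s, hs, hmin⟩ := Finset.exists_min_image (S.K.S \ T.S) Finset.card hne
      obtain ⟨hsK, hsT⟩ := Finset.mem_sdiff.1 hs
      have hbd : ∀ r ⊆ s, r.Nonempty → r ≠ s → r ∈ T.S := by
        intro r hr hrn hrs
        by_contra hcon
        have h1 := hmin r (Finset.mem_sdiff.2 ⟨S.K.down s hsK r hr hrn, hcon⟩)
        have h2 := Finset.card_lt_card (Finset.ssubset_iff_subset_ne.2 ⟨hr, hrs⟩)
        omega
      let T₂ : Cx := ⟨insert s T.S, fun r hr => by
          rcases Finset.mem_insert.1 hr with rfl | h
          · exact S.K.ne _ hsK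
          · exact T.ne r h, fun r hr q hq hqn => by
          rcases Finset.mem_insert.1 hr with rfl | h
          · by_cases h1 : q = r
            · exact Finset.mem_insert.2 (Or.inl h1)
            · exact Finset.mem_insert_of_mem (hbd q hq hqn h1)
          · exact Finset.mem_insert_of_mem (T.down r h q hq hqn)⟩
      have hT₂ : T₂.S = insert s T.S := rfl
      have hT₂K : T₂.S ⊆ S.K.S := by
        rw [hT₂]
        exact Finset.insert_subset hsK hT
      have hm' : (S.K.S \ T₂.S).card = m := by
        have h1 : S.K.S \ T₂.S = (S.K.S \ T.S).erase s := by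
          rw [hT₂]
          ext r
          simp only [Finset.mem_sdiff, Finset.mem_insert, Finset.mem_erase]
          tauto
        rw [h1, Finset.card_erase_of_mem hs, hm]
        rfl
      have hcard : t + 2 ≤ s.card := by
        by_contra hcon
        exact hsT (hskel (Finset.mem_filter.2 ⟨hsK, by omega⟩))
      obtain ⟨S', r, F, hF⟩ := hex
      refine ih T₂ hT₂K (hskel.trans (by rw [hT₂]; exact Finset.subset_insert s T.S)) hm' ?_
      exact push_simplex h4 t ht S T T₂ hT s hsK hsT hT₂ hcard hskel S' r F hF
  obtain ⟨S', r, hex⟩ := main _ (S.K.skel t) (skel_sub S.K t) (Finset.Subset.refl _) rfl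
    (S3_aux.start t S)
  rw [S3_aux.pull_self] at hex
  exact ⟨S', r, hex⟩

end Pool.QB
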