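import Pool.Agent.MP_c51823_gt.QB.N0
import Pool.Agent.MP_c51823_gt.QB.F3
import Pool.Agent.MP_c51823_gt.QB.NDef

/-!
# [QB] Suspension isomorphisms (from F3); pairs and triples of the spaces `Es N k`
-/

set_option autoImplicit false
open Topology

namespace Pool.QB

/-- the iterated suspension isomorphisms `Σ^n : H m Y ≃ H q (Y × (Δ^n, ∂Δ^n))`, `m = q + n` -/
noncomputable def HT.sus (h : HT) (q n m : ℕ) (hm : m = q + n) (Y : Type) [TopologicalSpace Y]
    [CompactSpace Y] [T2Space Y] : h.H m (absP Y) ≃+ h.H q (SP Y n) :=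
  h.exists_susp.choose q n m hm Y

theorem HT.sus_nat (h : HT) (q n m : ℕ) (hm : m = q + n) (Y Y' : Type) [TopologicalSpace Y]
    [CompactSpace Y] [T2Space Y] [TopologicalSpace Y'] [CompactSpace Y'] [T2Space Y']
    (g : C(Y', Y)) (x : h.H m (absP Y)) :
    h.map q (SPmap g n) (h.sus q n m hm Y x) = h.sus q n m hm Y' (h.map m (absMap g) x) :=
  h.exists_susp.choose_spec.1 q n m hm Y Y' g x

theorem HT.sus_face (h : HT) (q n m : ℕ) (h1 : m = q + (n + 1)) (h2 : m = (q + 1) + n) (Y : Type)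
    [TopologicalSpace Y] [CompactSpace Y] [T2Space Y] (T : CTriple) (χ : C(Y × Dl (n + 1), T.X))
    (hB : ∀ (y : Y) (x : Dl (n + 1)), (∃ i, x.1 i = 0) → χ (y, x) ∈ T.B)
    (hA : ∀ (y : Y) (x : Dl (n + 1)), (∃ i j, i ≠ j ∧ x.1 i = 0 ∧ x.1 j = 0) → χ (y, x) ∈ T.A)
    (x : h.H (q + 1) T.BA) :
    (h.sus q (n + 1) m h1 Y).symm (h.map q (⟨χ, fun p hp => hB p.1 p.2 hp⟩ :
        CPair.Map (SP Y (n + 1)) T.XB) (h.δ q T x)) =
      ∑ i : Fin (n + 2), (h.sus (q + 1) n m h2 Y).symm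
        (h.map (q + 1) (faceRestr χ hB hA i) x) :=
  h.exists_susp.choose_spec.2 q n m h1 h2 Y T χ hB hA x

theorem isClosed_Es (N k l : ℕ) : IsClosed {p : Es N l | p.1 ∈ Es N k} :=
  (isCompact_Es N k).isClosed.preimage continuous_subtype_val

/-- the pair `Z × (Es N (k+1), Es N k)` -/
def pE (Z : Type) [TopologicalSpace Z] [CompactSpace Z] [T2Space Z] (N k : ℕ) : CPair :=
  ⟨Z × Es N (k + 1), {p | p.2.1 ∈ Es N k}, (isClosed_Es N k (k + 1)).preimage continuous_snd⟩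

/-- the triple `Z × (Es N (k+2), Es N (k+1), Es N k)` -/
def tripE (Z : Type) [TopologicalSpace Z] [CompactSpace Z] [T2Space Z] (N k : ℕ) : CTriple where
  X := Z × Es N (k + 2)
  B := {p | p.2.1 ∈ Es N (k + 1)}
  A := {p | p.2.1 ∈ Es N k}
  closedB := (isClosed_Es N (k + 1) (k + 2)).preimage continuous_snd
  closedA := (isClosed_Es N k (k + 2)).preimage continuous_snd
  sub := fun _ hp => Es_mono le_rfl (Nat.le_succ k) hp

/-- `Z × (Es N (k+1), Es N k) ≅ (B, A)` for the triple `tripE` -/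
def toBA (Z : Type) [TopologicalSpace Z] [CompactSpace Z] [T2Space Z] (N k : ℕ) :
    CPair.Map (pE Z N k) (tripE Z N k).BA :=
  ⟨⟨fun p => ⟨(p.1, inclE le_rfl (Nat.le_succ (k + 1)) p.2), p.2.2⟩, by
      exact Continuous.subtype_mk (by fun_prop) _⟩, fun _ hp => hp⟩

/-- the characteristic map `(Z × W_k) × (Δ^k, ∂Δ^k) → Z × (Es N (k+1), Es N k)` -/
noncomputable def cmE (Z : Type) [TopologicalSpace Z] [CompactSpace Z] [T2Space Z] (N k : ℕ) :
    CPair.Map (SP (Z × (Fin k → CP (2 ^ (N - k) - 1))) k) (pE Z N k) :=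
  ⟨⟨fun p => (p.1.1, ⟨chi p.2 p.1.2, k, Nat.lt_succ_self k, p.2, p.1.2, rfl⟩), by
      refine (continuous_fst.comp continuous_fst).prodMk (Continuous.subtype_mk ?_ _)
      exact (continuous_chi k _).comp (continuous_snd.prodMk (continuous_snd.comp continuous_fst))⟩,
    fun p hp => by
      obtain ⟨⟨z, f⟩, x⟩ := p
      exact chi_mem_of_bd N k x f hp⟩

end Pool.QB
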