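import Pool.Agent.MP_c51823_gt.QB.FDef

/-!
# [QB] the blow-up: definition (QB_PROOF.md section 3)
-/

set_option autoImplicit false
open Topology

namespace Pool.QB

/-- The blow-up `T' = {(x, e) : x ∈ Z or (x ∈ P and e = φ x)} ⊆ T × E`. -/
def blow {T E : Type} [TopologicalSpace T] [TopologicalSpace E] (Z P : Set T) (φ : C(P, E)) :
    Set (T × E) := {p | p.1 ∈ Z ∨ ∃ h : p.1 ∈ P, p.2 = φ ⟨p.1, h⟩}

/-- the projection `T' → T` -/
def blowPi {T E : Type} [TopologicalSpace T] [TopologicalSpace E] (Z P : Set T) (φ : C(P, E)) :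
    C(blow Z P φ, T) := ⟨fun p => p.1.1, by fun_prop⟩

end Pool.QB
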