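import Pool.Agent.MP_c51823_gt.QB.C2

/-!
# [QB] vertices and weights: definitions
-/

set_option autoImplicit false
open Topology

namespace Pool.QB

/-- vertices of a complex -/
def Cx.vert (K : Cx) : Finset ℕ := K.S.biUnion id

/-- admissible weights: nonnegative, at most `m` nonzero ones -/
def Wts (m : ℕ) {r : ℕ} : Set (Fin r → ℝ) :=
  {c | (∀ v, 0 ≤ c v) ∧ (Finset.univ.filter fun v => c v ≠ 0).card ≤ m}

/-- the weighted average `Z` of vertices: `b z` is a vertex at which `κ z` is maximal -/
noncomputable def Zav {G : Type} {r : ℕ} (b : G → ℕ) (χ : G → ℝ) (z : Fin r → G)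
    (c : Fin r → ℝ) : ℕ → ℝ := fun i =>
  (∑ v, if b (z v) = i then c v * χ (z v) else 0) / ∑ v, c v * χ (z v)

end Pool.QB
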