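import Pool.Agent.MP_c51823_gt.QB.SDef
import Pool.Agent.MP_c51823_gt.QB.R0
import Pool.Agent.MP_c51823_gt.QB.TVert

/-!
# [QB] Numbers, levels, step data (QB_PROOF.md section 9; `p = 1/2`, `ε = 1/10`)
-/

set_option autoImplicit false
open Topology

namespace Pool.QB

/-! ## Numbers -/

/-- `e_j = 10^{-j-4}` -/
noncomputable def ee (j : ℕ) : ℝ := (1 / 10 : ℝ) ^ (j + 4)
/-- `B_j = 2 + 2·4^j` -/
def BB (j : ℕ) : ℝ := 2 + 2 * 4 ^ j
/-- `ω_j = e_j / 4^{j+2}` -/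
noncomputable def om (j : ℕ) : ℝ := ee j / 4 ^ (j + 2)
/-- bound for the number of significant dipoles at level `i` -/
def nn (i : ℕ) : ℕ := 4 ^ i * 10 ^ (i + 3)
/-- `M_i = 4 (2 n_i + 1)` -/
def MM (i : ℕ) : ℕ := 4 * (2 * nn i + 1)
/-- bound for the number of atoms at level `i` -/
def mm (i : ℕ) : ℕ := i + MM i * (1 + 10 ^ (i + 4))

variable {h : HT} {u : h.H 0 (absP S4)}

/-- A level: a stage with points for the vertices of `K` and test functions `θ^k_w` (`w < wn k`). -/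
structure Level (h : HT) (u : h.H 0 (absP S4)) extends Stage h u where
  pt : ℕ → G
  wn : ℕ → ℕ
  th : ℕ → ℕ → C(G, ℝ)

/-- The passage from level `i` to level `i+1`. -/
structure StepData (i : ℕ) (L' L : Level h u) where
  π : C(L'.G, L.G)
  f_eq : ∀ x, L'.f x = L.f (π x)
  wn_eq : ∀ k < i, L'.wn k = L.wn k
  th_eq : ∀ k < i, ∀ w, L'.th k w = (L.th k w).comp π
  /-- the new tests form a partition of unity of order `≤ D` -/
  th_nonneg : ∀ w z, 0 ≤ L'.th i w z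
  th_sum : ∀ z, ∑ w ∈ Finset.range (L'.wn i), L'.th i w z = 1
  D : ℕ
  hD : ∀ z, ((Finset.range (L'.wn i)).filter fun w => L'.th i w z ≠ 0).card ≤ D
  /-- the cover given by the supports of the coordinates of `κ'` is fine for all tests -/
  fine : ∀ (x : L'.G) (v : ℕ), (L'.κ x).1 v ≠ 0 → ∀ k ≤ i,
    ∑ w ∈ Finset.range (L'.wn k), |L'.th k w x - L'.th k w (L'.pt v)| ≤ om (i + 1) / 2
  /-- cut-off functions -/
  χ : ℕ → C(L'.G, ℝ)
  χ_nonneg : ∀ w z, 0 ≤ χ w z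
  χ_le : ∀ w z, χ w z ≤ 1
  χ_one : ∀ w z, L'.th i w z ≠ 0 → χ w z = 1
  /-- selection: from weighted configurations on `G'` to `|K^(3)|` -/
  sel : ∀ {r : ℕ}, (Fin r → L'.G) → (Fin r → ℝ) → ℕ → (ℕ → ℝ)
  sel_mem : ∀ {r : ℕ} (z : Fin r → L'.G) (c : Fin r → ℝ) (w : ℕ), w < L'.wn i →
    c ∈ Wts (mm (i + 1)) → 0 < ∑ v, c v * χ w (z v) → sel z c w ∈ (L.K.skel 3).real
  sel_supp : ∀ {r : ℕ} (z : Fin r → L'.G) (c : Fin r → ℝ) (w : ℕ), w < L'.wn i →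
    c ∈ Wts (mm (i + 1)) → 0 < ∑ v, c v * χ w (z v) → ∀ y, L'.th i w y ≠ 0 →
    fsupp (sel z c w) ⊆ fsupp (L.κ (π y)).1
  sel_cont : ∀ {r : ℕ} (z : Fin r → L'.G) (w : ℕ), w < L'.wn i →
    ContinuousOn (fun c => sel z c w) (Wts (mm (i + 1)) ∩ {c | 0 < ∑ v, c v * χ w (z v)})
  sel_close : ∀ {r : ℕ} (z : Fin r → L'.G) (c : Fin r → ℝ) (w w' : ℕ), w < L'.wn i →
    w' < L'.wn i → c ∈ Wts (mm (i + 1)) → ∑ v, c v ≤ BB (i + 1) →
    ee i / ((mm (i + 1) + 1) * D) ≤ ∑ v, c v * χ w (z v) →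
    ee i / ((mm (i + 1) + 1) * D) ≤ ∑ v, c v * χ w' (z v) →
    ∀ y, L'.th i w y ≠ 0 → L'.th i w' y ≠ 0 →
    ∑ a ∈ L.K.vert, |sel z c w a - sel z c w' a| ≤ ee i / (1 + 2 * (4 ^ i / 100))

end Pool.QB
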