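import Pool.Agent.MP_c51823_gt.QB.Core

/-!
# [QB-X1] `N` is a group seminorm: `SeminormedAddCommGroup V`, `UniformSpace.Completion V`.
-/

set_option autoImplicit false
open Topology

namespace Pool.QB

/-- [QB-X1] Completion of a `1/2`-seminormed space. -/
theorem exists_completion (V : Type) [AddCommGroup V] [Module ℝ V] (N : V → ℝ)
    (hnn : ∀ x, 0 ≤ N x) (hadd : ∀ x y, N (x + y) ≤ N x + N y)
    (hsm : ∀ (c : ℝ) (x : V), N (c • x) = Real.sqrt |c| * N x) :
    ∃ (E : Type) (_ : NormedAddCommGroup E) (_ : Module ℝ E) (ι : V →ₗ[ℝ] E),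
      CompleteSpace E ∧ ContinuousSMul ℝ E ∧ (∀ x, ‖ι x‖ = N x) ∧ DenseRange ι ∧
      ∀ (c : ℝ) (x : E), ‖c • x‖ = Real.sqrt |c| * ‖x‖ := by
  have h0 : N 0 = 0 := by
    have := hsm 0 0
    simpa using this
  have hneg : ∀ x, N (-x) = N x := by
    intro x
    have := hsm (-1) x
    simpa using this
  let S : AddGroupSeminorm V := ⟨N, h0, hadd, hneg⟩
  let _ : SeminormedAddCommGroup V := S.toSeminormedAddCommGroup
  have hnorm : ∀ x : V, ‖x‖ = N x := fun x => rfl
  have hV : ∀ (c : ℝ) (x y : V), dist (c • x) (c • y) = Real.sqrt |c| * dist x y := by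
    intro c x y
    rw [dist_eq_norm, dist_eq_norm, ← smul_sub, hnorm, hnorm, hsm]
  have _ : UniformContinuousConstSMul ℝ V := ⟨fun c => by
    refine LipschitzWith.uniformContinuous (K := ⟨Real.sqrt |c|, Real.sqrt_nonneg _⟩) ?_
    refine LipschitzWith.of_dist_le_mul fun x y => ?_
    rw [hV]
    rfl⟩
  have hE : ∀ (c : ℝ) (x : UniformSpace.Completion V), ‖c • x‖ = Real.sqrt |c| * ‖x‖ := by
    intro c x
    refine UniformSpace.Completion.induction_on x ?_ ?_
    · exact isClosed_eq (continuous_norm.comp (continuous_const_smul c))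
        (continuous_const.mul continuous_norm)
    · intro a
      rw [← UniformSpace.Completion.coe_smul, UniformSpace.Completion.norm_coe,
        UniformSpace.Completion.norm_coe, hnorm, hnorm, hsm]
  refine ⟨UniformSpace.Completion V, inferInstance, inferInstance,
    { toFun := fun x => (x : UniformSpace.Completion V)
      map_add' := fun x y => UniformSpace.Completion.coe_add x y
      map_smul' := fun c x => UniformSpace.Completion.coe_smul c x }, inferInstance, ?_, ?_, ?_, hE⟩
  · refine ⟨?_⟩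
    rw [continuous_iff_continuousAt]
    rintro ⟨c, x⟩
    rw [ContinuousAt, tendsto_iff_norm_sub_tendsto_zero]
    have hlim : Filter.Tendsto (fun p : ℝ × UniformSpace.Completion V =>
        Real.sqrt |p.1| * ‖p.2 - x‖ + Real.sqrt |p.1 - c| * ‖x‖) (𝓝 (c, x)) (𝓝 0) := by
      have hc : Continuous (fun p : ℝ × UniformSpace.Completion V =>
          Real.sqrt |p.1| * ‖p.2 - x‖ + Real.sqrt |p.1 - c| * ‖x‖) := by fun_prop
      have := hc.tendsto (c, x)
      simpa using this
    refine squeeze_zero (fun _ => norm_nonneg _) (fun p => ?_) hlim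
    have e : p.1 • p.2 - c • x = p.1 • (p.2 - x) + (p.1 - c) • x := by
      rw [smul_sub, sub_smul]; abel
    calc ‖p.1 • p.2 - c • x‖ = ‖p.1 • (p.2 - x) + (p.1 - c) • x‖ := by rw [e]
      _ ≤ ‖p.1 • (p.2 - x)‖ + ‖(p.1 - c) • x‖ := norm_add_le _ _
      _ = _ := by rw [hE, hE]
  · intro x
    exact UniformSpace.Completion.norm_coe x
  · exact UniformSpace.Completion.denseRange_coe

end Pool.QB
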