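import Pool.Agent.MP_c51823_gt.QB.LimDef

/-!
# [QB] The seminorm `N` on measures of mass `0`
-/

set_option autoImplicit false
open Topology

namespace Pool.QB

/-- The signed measures of mass `0`. -/
abbrev M0 (C : Type) : Type := LinearMap.ker (Finsupp.linearCombination ℝ (fun _ : C => (1 : ℝ)))

/-- the seminorm `N` -/
noncomputable def NU {C : Type} (U : ℕ → Set (C × C)) (μ : M0 C) : ℝ :=
  sInf {c : ℝ | Rep U (μ : C →₀ ℝ) c}

/-- the universal statement to be refuted (frozen S13905) -/
def Frozen : Prop :=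
  ∀ (E : Type) [AddCommGroup E] [Module ℝ E] [UniformSpace E] [IsUniformAddGroup E]
    [ContinuousSMul ℝ E] [T2Space E] [CompleteSpace E] [TopologicalSpace.MetrizableSpace E],
    (∃ U ∈ 𝓝 (0 : E), Bornology.IsVonNBounded ℝ U) →
    ∃ (H : Type) (_ : NormedAddCommGroup H) (_ : InnerProductSpace ℝ H),
      CompleteSpace H ∧ Nonempty (E ≃ₜ H)

end Pool.QB
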