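import Pool.Agent.MP_c51823_gt.QB.Core

/-!
# [QB-Z1]
-/

set_option autoImplicit false
open Topology

namespace Pool.QB

/-- [QB-Z1] A homeomorphism is uniformly continuous at a compact set. -/
theorem unif_at_compact {H E : Type} [PseudoMetricSpace H] [PseudoMetricSpace E] (f : H → E)
    (hf : Continuous f) (K : Set H) (hK : IsCompact K) (η : ℝ) (hη : 0 < η) :
    ∃ ρ > 0, ∀ q ∈ K, ∀ q', dist q q' < ρ → dist (f q) (f q') < η := by
  have h := hK.uniformContinuousAt_of_continuousAt f (fun a _ => hf.continuousAt)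
    (Metric.dist_mem_uniformity hη)
  obtain ⟨ρ, hρ, hs⟩ := Metric.mem_uniformity_dist.1 h
  exact ⟨ρ, hρ, fun q hq q' hqq' => hs hqq' hq⟩

end Pool.QB
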